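import Pool.Agent.Helper226_Obs.FP.Defs

set_option autoImplicit false

namespace Pool.Agent.Helper226_Obs

open SimpleGraph

/-- vertices are constant on the cycles of a rotation -/
theorem nOrb_rot_const {E V : Type} (vt : E × Bool → V) (rot : Equiv.Perm (E × Bool))
    (h : ∀ d, vt (rot d) = vt d) : ∀ d d', rot.SameCycle d d' → vt d = vt d' := by
  have h1 : ∀ (n : ℕ) d, vt ((rot ^ n) d) = vt d := by
    intro n
    induction n with
    | zero => intro d; rfl
    | succ n ih =>
      intro d
      rw [pow_succ', Equiv.Perm.mul_apply, h, ih]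
  rintro d d' ⟨i, rfl⟩
  obtain ⟨n, rfl | rfl⟩ := i.eq_nat_or_neg
  · rw [zpow_natCast, h1]
  · have h2 := h1 n ((rot ^ (-(n : ℤ))) d)
    rw [← zpow_natCast, ← Equiv.Perm.mul_apply, ← zpow_add, add_neg_cancel, zpow_zero,
      Equiv.Perm.one_apply] at h2
    exact h2

theorem nOrb_rot {E V : Type} [Finite E] (vt : E × Bool → V) (rot : Equiv.Perm (E × Bool))
    (h : RotAt vt rot) : nOrb rot = (Set.range vt).ncard := by
  unfold nOrb
  rw [← Nat.card_coe_set_eq]
  let f : Quotient (Equiv.Perm.SameCycle.setoid rot) → Set.range vt :=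
    Quotient.lift (fun d => (⟨vt d, d, rfl⟩ : Set.range vt))
      (fun d d' hd => Subtype.ext (nOrb_rot_const vt rot h.1 d d' hd))
  apply Nat.card_congr (Equiv.ofBijective f ⟨?_, ?_⟩)
  · intro a b
    induction a using Quotient.inductionOn with | _ a => ?_
    induction b using Quotient.inductionOn with | _ b => ?_
    intro hab
    exact Quotient.sound (h.2 a b (congrArg Subtype.val hab))
  · rintro ⟨_, d, rfl⟩
    exact ⟨Quotient.mk _ d, rfl⟩

theorem parity_card {D : Type} [Fintype D] [DecidableEq D] (s : Equiv.Perm D) :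
    nOrb s + s.support.card = Multiset.card s.cycleType + Fintype.card D := by
  have hmem : ∀ x, ¬ s x = x → s.cycleOf x ∈ s.cycleFactorsFinset := by
    intro x hx
    exact Equiv.Perm.cycleOf_mem_cycleFactorsFinset_iff.2 (Equiv.Perm.mem_support.2 hx)
  let f : D → s.cycleFactorsFinset ⊕ {x // s x = x} := fun x =>
    if hx : s x = x then Sum.inr ⟨x, hx⟩ else Sum.inl ⟨s.cycleOf x, hmem x hx⟩
  have hf1 : ∀ x (hx : s x = x), f x = Sum.inr ⟨x, hx⟩ := fun x hx => dif_pos hx
  have hf2 : ∀ x (hx : ¬ s x = x), f x = Sum.inl ⟨s.cycleOf x, hmem x hx⟩ := fun x hx => dif_neg hx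
  have hc : ∀ x y, s.SameCycle x y → f x = f y := by
    intro x y hxy
    by_cases hx : s x = x
    · have : x = y := hxy.eq_of_left hx
      rw [this]
    · have hy : ¬ s y = y := fun h => hx (hxy.apply_eq_self_iff.2 h)
      rw [hf2 x hx, hf2 y hy]
      congr 2
      exact hxy.cycleOf_eq
  have hi : ∀ x y, f x = f y → s.SameCycle x y := by
    intro x y hxy
    by_cases hx : s x = x
    · by_cases hy : s y = y
      · rw [hf1 x hx, hf1 y hy] at hxy
        have := congrArg Subtype.val (Sum.inr_injective hxy)
        simp only at this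
        rw [this]
      · rw [hf1 x hx, hf2 y hy] at hxy
        exact absurd hxy.symm Sum.inl_ne_inr
    · by_cases hy : s y = y
      · rw [hf2 x hx, hf1 y hy] at hxy
        exact absurd hxy Sum.inl_ne_inr
      · rw [hf2 x hx, hf2 y hy] at hxy
        have h1 := congrArg Subtype.val (Sum.inl_injective hxy)
        simp only at h1
        have h2 : x ∈ (s.cycleOf y).support := by
          rw [← h1, Equiv.Perm.mem_support_cycleOf_iff]
          exact ⟨Equiv.Perm.SameCycle.refl s x, Equiv.Perm.mem_support.2 hx⟩
        rw [Equiv.Perm.mem_support_cycleOf_iff] at h2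
        exact h2.1.symm
  have hs : Function.Surjective f := by
    rintro (⟨c, hcc⟩ | ⟨x, hx⟩)
    · have hcyc := (Equiv.Perm.mem_cycleFactorsFinset_iff.1 hcc).1
      obtain ⟨x, hx, -⟩ := hcyc
      have hxs : x ∈ c.support := Equiv.Perm.mem_support.2 hx
      have hxs' : ¬ s x = x :=
        Equiv.Perm.mem_support.1 (Equiv.Perm.mem_cycleFactorsFinset_support_le hcc hxs)
      refine ⟨x, ?_⟩
      rw [hf2 x hxs']
      congr 2
      exact (Equiv.Perm.cycle_is_cycleOf hxs hcc).symm
    · exact ⟨x, hf1 x hx⟩
  let g : Quotient (Equiv.Perm.SameCycle.setoid s) → s.cycleFactorsFinset ⊕ {x // s x = x} :=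
    Quotient.lift f hc
  have hg : Function.Bijective g := by
    constructor
    · intro a b
      induction a using Quotient.inductionOn with | _ a => ?_
      induction b using Quotient.inductionOn with | _ b => ?_
      intro hab
      exact Quotient.sound (hi a b hab)
    · intro c
      obtain ⟨x, hx⟩ := hs c
      exact ⟨Quotient.mk _ x, hx⟩
  have h1 : nOrb s = s.cycleFactorsFinset.card + Fintype.card {x // s x = x} := by
    unfold nOrb
    rw [Nat.card_congr (Equiv.ofBijective g hg), Nat.card_eq_fintype_card, Fintype.card_sum,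
      Fintype.card_coe]
  have h2 : Multiset.card s.cycleType = s.cycleFactorsFinset.card := by
    rw [Equiv.Perm.cycleType_def, Multiset.card_map]
    rfl
  have h3 : Fintype.card {x // s x = x} + s.support.card = Fintype.card D := by
    rw [Fintype.card_subtype, Equiv.Perm.support]
    exact Finset.card_filter_add_card_filter_not (s := Finset.univ) (fun x => s x = x)
  rw [h1, h2]
  omega

theorem parity_sign {D : Type} [Fintype D] [DecidableEq D] (s : Equiv.Perm D) :
    Equiv.Perm.sign s = (-1 : ℤˣ) ^ (nOrb s + Fintype.card D) := by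
  have h1 := parity_card s
  have h2 : s.support.card ≤ Fintype.card D := Finset.card_le_univ _
  rw [Equiv.Perm.sign_of_cycleType, Equiv.Perm.sum_cycleType]
  have e : nOrb s + Fintype.card D = (s.support.card + Multiset.card s.cycleType) +
      2 * (Fintype.card D - s.support.card) := by omega
  rw [e, pow_add _ _ (2 * _), pow_mul]
  simp

theorem parity_flp {E : Type} [Fintype E] [DecidableEq E] :
    Equiv.Perm.sign (flp : Equiv.Perm (E × Bool)) = (-1 : ℤˣ) ^ Fintype.card E := by
  have h : (flp : Equiv.Perm (E × Bool)) = Equiv.prodCongrRight (fun _ : E => Equiv.boolNot) := by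
    ext x <;> rfl
  rw [h, Equiv.Perm.sign_prodCongrRight]
  have h2 : Equiv.Perm.sign Equiv.boolNot = -1 := by decide
  rw [h2, Finset.prod_const, Finset.card_univ]

theorem parity {E : Type} [Fintype E] (rot : Equiv.Perm (E × Bool)) :
    Even (nOrb rot + Fintype.card E + nOrb (rot * flp)) := by
  classical
  have h1 := parity_sign rot
  have h2 := parity_sign (rot * flp)
  rw [Equiv.Perm.sign_mul, h1, parity_flp, Fintype.card_prod, Fintype.card_bool, ← pow_add] at h2
  have h3 : (-1 : ℤˣ) ^ (nOrb rot + Fintype.card E + nOrb (rot * flp)) = 1 := by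
    have e1 : (-1 : ℤˣ) ^ (nOrb rot + Fintype.card E * 2 + Fintype.card E) =
        (-1) ^ (nOrb rot + Fintype.card E) := by
      rw [show nOrb rot + Fintype.card E * 2 + Fintype.card E =
        nOrb rot + Fintype.card E + 2 * Fintype.card E by ring, pow_add _ _ (2 * _), pow_mul]
      simp
    have e2 : (-1 : ℤˣ) ^ (nOrb (rot * flp) + Fintype.card E * 2) = (-1) ^ (nOrb (rot * flp)) := by
      rw [show nOrb (rot * flp) + Fintype.card E * 2 =
        nOrb (rot * flp) + 2 * Fintype.card E by ring, pow_add, pow_mul]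
      simp
    rw [e1, e2] at h2
    rw [pow_add, h2, ← pow_add, ← two_mul, pow_mul]
    simp
  rcases Nat.even_or_odd (nOrb rot + Fintype.card E + nOrb (rot * flp)) with h | h
  · exact h
  · rw [h.neg_one_pow] at h3
    exact absurd h3 (by decide)

end Pool.Agent.Helper226_Obs
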