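import Pool.Agent.Helper226_Obs.FP.Defs

set_option autoImplicit false

namespace Pool.Agent.Helper226_Obs

open SimpleGraph

theorem sameCycle_semiconj {A B : Type} (φ : A ≃ B) (p : Equiv.Perm A) (q : Equiv.Perm B)
    (h : ∀ x, φ (p x) = q (φ x)) (x y : A) : p.SameCycle x y ↔ q.SameCycle (φ x) (φ y) := by
  have hinv : ∀ x, φ (p⁻¹ x) = q⁻¹ (φ x) := by
    intro x
    rw [Equiv.Perm.eq_inv_iff_eq, ← h]
    simp
  have hz : ∀ i : ℤ, ∀ x, φ ((p ^ i) x) = (q ^ i) (φ x) := by
    intro i
    induction i using Int.induction_on with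
    | zero => intro x; simp
    | succ n ih =>
      intro x
      rw [zpow_add_one, zpow_add_one, Equiv.Perm.mul_apply, Equiv.Perm.mul_apply, ih, h]
    | pred n ih =>
      intro x
      rw [zpow_sub_one, zpow_sub_one, Equiv.Perm.mul_apply, Equiv.Perm.mul_apply, ih, hinv]
  constructor
  · rintro ⟨i, hi⟩
    exact ⟨i, by rw [← hz, hi]⟩
  · rintro ⟨i, hi⟩
    exact ⟨i, φ.injective (by rw [hz, hi])⟩

theorem reach_isolated {V : Type} (G : SimpleGraph V) (v w : V) (hv : ∀ u, ¬ G.Adj v u)
    (h : G.Reachable v w) : v = w := by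
  obtain ⟨p⟩ := h
  cases p with
  | nil => rfl
  | cons hadj _ => exact absurd hadj (hv _)

theorem rot_of_embeds {E V : Type} [Fintype E] [Nonempty E] [Finite V] (vt : E × Bool → V)
    (hne : ∀ e, vt (e, false) ≠ vt (e, true))
    (hinj : ∀ d d' : E × Bool, vt d = vt d' → vt (flp d) = vt (flp d') → d = d')
    (hconn : ConnV vt) (g : ℕ) (h : Embeds (mapGraph vt) g) :
    ∃ rot : Equiv.Perm (E × Bool), RotAt vt rot ∧
      Fintype.card E + 2 ≤ (Set.range vt).ncard + nOrb (rot * flp) + 2 * g := by
  classical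
  obtain ⟨σ, ⟨hσ1, hσ2⟩, hσ⟩ := h
  have hne' : ∀ d : E × Bool, vt d ≠ vt (flp d) := by
    rintro ⟨e, t⟩
    cases t
    · exact hne e
    · exact (hne e).symm
  have hadj : ∀ d : E × Bool, (mapGraph vt).Adj (vt d) (vt (flp d)) := fun d => ⟨hne' d, d, rfl, rfl⟩
  have hflp2 : ∀ d : E × Bool, flp (flp d) = d := by rintro ⟨e, t⟩; simp
  let f : E × Bool → (mapGraph vt).Dart := fun d => ⟨(vt d, vt (flp d)), hadj d⟩
  have hf : Function.Bijective f := by
    constructor
    · intro d d' hdd
      have h1 : (f d).fst = (f d').fst := by rw [hdd]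
      have h2 : (f d).snd = (f d').snd := by rw [hdd]
      exact hinj d d' h1 h2
    · rintro ⟨⟨u, v⟩, huv⟩
      obtain ⟨-, d, hd1, hd2⟩ := huv
      refine ⟨d, ?_⟩
      apply SimpleGraph.Dart.ext
      exact Prod.ext hd1 hd2
  let φ : E × Bool ≃ (mapGraph vt).Dart := Equiv.ofBijective f hf
  have hφ : ∀ d, φ d = f d := fun d => rfl
  let rot : Equiv.Perm (E × Bool) := (φ.trans σ).trans φ.symm
  have hrot : ∀ d, φ (rot d) = σ (φ d) := by
    intro d
    show φ (φ.symm (σ (φ d))) = σ (φ d)
    exact φ.apply_symm_apply _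
  have hface : ∀ d, φ ((rot * flp : Equiv.Perm (E × Bool)) d) = facePerm (mapGraph vt) σ (φ d) := by
    intro d
    rw [Equiv.Perm.mul_apply, hrot]
    show σ (φ (flp d)) = σ ((φ d).symm)
    congr 1
    apply SimpleGraph.Dart.ext
    refine Prod.ext rfl ?_
    show vt (flp (flp d)) = vt d
    rw [hflp2]
  refine ⟨rot, ⟨?_, ?_⟩, ?_⟩
  · intro d
    have h1 : vt (rot d) = (φ (rot d)).fst := rfl
    rw [h1, hrot, hσ1]
    rfl
  · intro d d' hdd
    rw [sameCycle_semiconj φ rot σ hrot]
    exact hσ2 _ _ hdd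
  · have hcard : nOrb (rot * flp) = Nat.card (Face (mapGraph vt) σ) :=
      Nat.card_congr (Quotient.congr φ
        (fun a b => sameCycle_semiconj φ (rot * flp) (facePerm (mapGraph vt) σ) hface a b))
    have hE : Fintype.card E ≤ Nat.card (mapGraph vt).edgeSet := by
      rw [← Nat.card_eq_fintype_card]
      let ψ : E → (mapGraph vt).edgeSet := fun e => ⟨s(vt (e, false), vt (e, true)), hadj (e, false)⟩
      refine Nat.card_le_card_of_injective ψ ?_
      intro e e' hee
      have h1 : s(vt (e, false), vt (e, true)) = s(vt (e', false), vt (e', true)) :=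
        congrArg Subtype.val hee
      rw [Sym2.eq_iff] at h1
      rcases h1 with ⟨h1, h2⟩ | ⟨h1, h2⟩
      · have := hinj (e, false) (e', false) h1 h2
        exact congrArg Prod.fst this
      · have := hinj (e, false) (e', true) h1 h2
        exact congrArg Prod.fst this
    obtain ⟨e₀⟩ := (inferInstance : Nonempty E)
    have hC : Nat.card {v : V // ∀ w, ¬ (mapGraph vt).Adj v w} + 1 ≤ Nat.card (mapGraph vt).ConnectedComponent := by
      rw [← Finite.card_option]
      let ψ : Option {v : V // ∀ w, ¬ (mapGraph vt).Adj v w} → (mapGraph vt).ConnectedComponent := fun o =>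
        o.elim ((mapGraph vt).connectedComponentMk (vt (e₀, false))) (fun v => (mapGraph vt).connectedComponentMk v.1)
      refine Nat.card_le_card_of_injective ψ ?_
      have hnone : ∀ v : {v : V // ∀ w, ¬ (mapGraph vt).Adj v w}, ψ (some v) ≠ ψ none := by
        intro v hv
        have h1 : (mapGraph vt).Reachable v.1 (vt (e₀, false)) := SimpleGraph.ConnectedComponent.exact hv
        have h2 := reach_isolated (mapGraph vt) _ _ v.2 h1
        exact v.2 _ (h2 ▸ hadj (e₀, false))
      intro a b hab
      cases a with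
      | none =>
        cases b with
        | none => rfl
        | some b => exact absurd hab.symm (hnone b)
      | some a =>
        cases b with
        | none => exact absurd hab (hnone a)
        | some b =>
          have h1 : (mapGraph vt).Reachable a.1 b.1 := SimpleGraph.ConnectedComponent.exact hab
          exact congrArg some (Subtype.ext (reach_isolated (mapGraph vt) _ _ a.2 h1))
    have hV : Nat.card V ≤ (Set.range vt).ncard + Nat.card {v : V // ∀ w, ¬ (mapGraph vt).Adj v w} := by
      have h1 : (Set.univ : Set V) ⊆ Set.range vt ∪ {v : V | ∀ w, ¬ (mapGraph vt).Adj v w} := by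
        intro v _
        by_cases hv : ∀ w, ¬ (mapGraph vt).Adj v w
        · exact Or.inr hv
        · push Not at hv
          obtain ⟨w, -, d, hd, -⟩ := hv
          exact Or.inl ⟨d, hd⟩
      have h2 : Nat.card {v : V // ∀ w, ¬ (mapGraph vt).Adj v w} = ({v : V | ∀ w, ¬ (mapGraph vt).Adj v w}).ncard :=
        rfl
      rw [h2, ← Set.ncard_univ]
      exact (Set.ncard_le_ncard h1 (Set.toFinite _)).trans (Set.ncard_union_le _ _)
    have h3 : numFaces (mapGraph vt) σ = Nat.card (Face (mapGraph vt) σ) + Nat.card {v : V // ∀ w, ¬ (mapGraph vt).Adj v w} := rfl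
    rw [h3, ← hcard] at hσ
    omega

end Pool.Agent.Helper226_Obs
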