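import Pool.Agent.Helper226_Obs.FP.Defs

set_option autoImplicit false

namespace Pool.Agent.Helper226_Obs

open SimpleGraph

theorem eor_adj {E V : Type} (vt : E × Bool → V) (hne : ∀ e, vt (e, false) ≠ vt (e, true))
    (d : E × Bool) : (mapGraph vt).Adj (vt d) (vt (flp d)) := by
  refine ⟨?_, d, rfl, rfl⟩
  obtain ⟨e, t⟩ := d
  cases t
  · exact hne e
  · exact (hne e).symm

/-- the dart of `G` given by an element of `E × Bool` -/
def eor_dart {E V : Type} (vt : E × Bool → V) (hne : ∀ e, vt (e, false) ≠ vt (e, true))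
    (d : E × Bool) : (mapGraph vt).Dart := ⟨(vt d, vt (flp d)), eor_adj vt hne d⟩

theorem eor_flp_flp {E : Type} (d : E × Bool) : flp (flp d) = d := by
  obtain ⟨e, t⟩ := d
  simp

theorem eor_bij {E V : Type} (vt : E × Bool → V) (hne : ∀ e, vt (e, false) ≠ vt (e, true))
    (hinj : ∀ d d' : E × Bool, vt d = vt d' → vt (flp d) = vt (flp d') → d = d') :
    Function.Bijective (eor_dart vt hne) := by
  constructor
  · intro d d' h
    have h1 : (vt d, vt (flp d)) = (vt d', vt (flp d')) := congrArg SimpleGraph.Dart.toProd h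
    exact hinj d d' (congrArg Prod.fst h1) (congrArg Prod.snd h1)
  · intro D
    obtain ⟨-, d, h1, h2⟩ := D.adj
    exact ⟨d, SimpleGraph.Dart.ext _ _ (Prod.ext h1 h2)⟩

theorem eor_zpow {A B : Type} (e : A ≃ B) (f : Equiv.Perm A) (f' : Equiv.Perm B)
    (h : ∀ a, f' (e a) = e (f a)) (k : ℤ) (a : A) : (f' ^ k) (e a) = e ((f ^ k) a) := by
  have hf : f' = e.permCongr f := by
    ext b
    rw [Equiv.permCongr_apply, ← h, Equiv.apply_symm_apply]
  have h1 : ∀ (n : ℕ) a, (f' ^ n) (e a) = e ((f ^ n) a) := by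
    intro n
    induction n with
    | zero => intro a; rfl
    | succ n ih =>
      intro a
      rw [pow_succ, pow_succ, Equiv.Perm.mul_apply, Equiv.Perm.mul_apply, h, ih]
  cases k with
  | ofNat n =>
    simp only [Int.ofNat_eq_natCast, zpow_natCast]
    exact h1 n a
  | negSucc n =>
    rw [zpow_negSucc, zpow_negSucc, Equiv.Perm.inv_eq_iff_eq, h1]
    simp

theorem eor_same {A B : Type} (e : A ≃ B) (f : Equiv.Perm A) (f' : Equiv.Perm B)
    (h : ∀ a, f' (e a) = e (f a)) (a b : A) : f'.SameCycle (e a) (e b) ↔ f.SameCycle a b := by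
  unfold Equiv.Perm.SameCycle
  refine exists_congr fun k => ?_
  rw [eor_zpow e f f' h, e.apply_eq_iff_eq]

theorem eor_orb {A B : Type} (e : A ≃ B) (f : Equiv.Perm A) (f' : Equiv.Perm B)
    (h : ∀ a, f' (e a) = e (f a)) : nOrb f' = nOrb f := by
  unfold nOrb
  exact (Nat.card_congr (Quotient.congr e fun a b => (eor_same e f f' h a b).symm)).symm

theorem eor_iso {E V : Type} (vt : E × Bool → V) (hne : ∀ e, vt (e, false) ≠ vt (e, true))
    (v : V) : (∀ w, ¬ (mapGraph vt).Adj v w) ↔ v ∈ (Set.range vt)ᶜ := by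
  constructor
  · rintro h ⟨d, rfl⟩
    exact h _ (eor_adj vt hne d)
  · rintro h w ⟨-, d, hd, -⟩
    exact h ⟨d, hd⟩

theorem eor_reach {E V : Type} (vt : E × Bool → V) (hne : ∀ e, vt (e, false) ≠ vt (e, true))
    (hconn : ConnV vt) (d d' : E × Bool) : (mapGraph vt).Reachable (vt d) (vt d') := by
  classical
  have h := hconn (fun v => if (mapGraph vt).Reachable (vt d) v then 1 else 0) (fun d1 => by
    have ha : (mapGraph vt).Reachable (vt d1) (vt (flp d1)) := (eor_adj vt hne d1).reachable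
    by_cases h1 : (mapGraph vt).Reachable (vt d) (vt d1)
    · simp only [if_pos h1, if_pos (h1.trans ha)]
    · have h2 : ¬ (mapGraph vt).Reachable (vt d) (vt (flp d1)) := fun h2 => h1 (h2.trans ha.symm)
      simp only [if_neg h1, if_neg h2]) d d'
  simp only [if_pos (SimpleGraph.Reachable.refl (G := mapGraph vt) (vt d))] at h
  by_contra hcon
  rw [if_neg hcon] at h
  exact one_ne_zero h

theorem eor_comp {E V : Type} [Nonempty E] [Finite V] (vt : E × Bool → V)
    (hne : ∀ e, vt (e, false) ≠ vt (e, true)) (hconn : ConnV vt) :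
    Nat.card (mapGraph vt).ConnectedComponent ≤ ((Set.range vt)ᶜ).ncard + 1 := by
  classical
  obtain ⟨e0⟩ := ‹Nonempty E›
  have h1 : Nat.card (mapGraph vt).ConnectedComponent ≤
      Nat.card (Option ↥((Set.range vt)ᶜ)) := by
    refine Nat.card_le_card_of_surjective (fun o => o.elim
      ((mapGraph vt).connectedComponentMk (vt (e0, false)))
      (fun v => (mapGraph vt).connectedComponentMk v.1)) ?_
    intro c
    induction c using SimpleGraph.ConnectedComponent.ind with
    | _ v =>
      by_cases hv : v ∈ Set.range vt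
      · obtain ⟨d, rfl⟩ := hv
        exact ⟨none, SimpleGraph.ConnectedComponent.eq.2 (eor_reach vt hne hconn _ _)⟩
      · exact ⟨some ⟨v, hv⟩, rfl⟩
  rw [Finite.card_option] at h1
  exact h1

theorem eor_edges {E V : Type} [Fintype E] [Finite V] (vt : E × Bool → V)
    (hne : ∀ e, vt (e, false) ≠ vt (e, true))
    (hinj : ∀ d d' : E × Bool, vt d = vt d' → vt (flp d) = vt (flp d') → d = d') :
    Nat.card (mapGraph vt).edgeSet = Fintype.card E := by
  classical
  have : Fintype V := Fintype.ofFinite V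
  have h1 : Fintype.card (mapGraph vt).Dart = 2 * (mapGraph vt).edgeFinset.card :=
    (mapGraph vt).dart_card_eq_twice_card_edges
  have h2 : Fintype.card (mapGraph vt).Dart = Fintype.card (E × Bool) :=
    (Fintype.card_congr (Equiv.ofBijective _ (eor_bij vt hne hinj))).symm
  rw [h2, Fintype.card_prod, Fintype.card_bool] at h1
  rw [Nat.card_eq_fintype_card, ← SimpleGraph.edgeFinset_card]
  omega

theorem embeds_of_rot {E V : Type} [Fintype E] [Nonempty E] [Finite V] (vt : E × Bool → V)
    (hne : ∀ e, vt (e, false) ≠ vt (e, true))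
    (hinj : ∀ d d' : E × Bool, vt d = vt d' → vt (flp d) = vt (flp d') → d = d')
    (hconn : ConnV vt) (rot : Equiv.Perm (E × Bool)) (hrot : RotAt vt rot) (g : ℕ)
    (h : Fintype.card E + 2 ≤ (Set.range vt).ncard + nOrb (rot * flp) + 2 * g) :
    Embeds (mapGraph vt) g := by
  classical
  obtain ⟨e, he⟩ : ∃ e : (E × Bool) ≃ (mapGraph vt).Dart, ∀ d, e d = eor_dart vt hne d :=
    ⟨Equiv.ofBijective _ (eor_bij vt hne hinj), fun _ => rfl⟩
  obtain ⟨σ, hσ⟩ : ∃ σ : Equiv.Perm (mapGraph vt).Dart, ∀ d, σ (e d) = e (rot d) :=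
    ⟨e.permCongr rot, fun d => by rw [Equiv.permCongr_apply, Equiv.symm_apply_apply]⟩
  have hfst : ∀ d, (e d).fst = vt d := fun d => by rw [he]; rfl
  refine ⟨σ, ⟨?_, ?_⟩, ?_⟩
  · intro D
    obtain ⟨d, rfl⟩ := e.surjective D
    rw [hσ, hfst, hfst, hrot.1]
  · intro D D' hD
    obtain ⟨d, rfl⟩ := e.surjective D
    obtain ⟨d', rfl⟩ := e.surjective D'
    rw [hfst, hfst] at hD
    exact (eor_same e rot σ hσ d d').2 (hrot.2 d d' hD)
  · have hface : ∀ d, facePerm (mapGraph vt) σ (e d) = e ((rot * flp : Equiv.Perm (E × Bool)) d) := by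
      intro d
      unfold facePerm
      rw [Equiv.Perm.mul_apply, Equiv.Perm.mul_apply]
      have h1 : revPerm (mapGraph vt) (e d) = e (flp d) := by
        rw [he, he]
        refine SimpleGraph.Dart.ext _ _ ?_
        show (vt (flp d), vt d) = (vt (flp d), vt (flp (flp d)))
        rw [eor_flp_flp]
      rw [h1, hσ]
    have h1 : Nat.card (Face (mapGraph vt) σ) = nOrb (rot * flp) :=
      eor_orb e (rot * flp) (facePerm (mapGraph vt) σ) hface
    have h2 : Nat.card {v : V // ∀ w, ¬ (mapGraph vt).Adj v w} = ((Set.range vt)ᶜ).ncard := by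
      rw [← Nat.card_coe_set_eq]
      exact Nat.card_congr (Equiv.subtypeEquivRight (eor_iso vt hne))
    have h3 := Set.ncard_add_ncard_compl (Set.range vt)
    have h4 := eor_comp vt hne hconn
    have h5 := eor_edges vt hne hinj
    unfold numFaces
    rw [h1, h2, h5]
    omega

end Pool.Agent.Helper226_Obs
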