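import Pool.Agent.Helper226_Obs.FP.Defs

set_option autoImplicit false

namespace Pool.Agent.Helper226_Obs

open SimpleGraph

theorem cyc_ext_step1 {D V : Type} [Finite D] (vt : D → V) (P : D → D → Prop)
    (hfun : ∀ d d' d'', P d d' → P d d'' → d' = d'')
    (hinj : ∀ d d' d'', P d d'' → P d' d'' → d = d')
    (hvt : ∀ d d', P d d' → vt d' = vt d) :
    ∃ ρ : Equiv.Perm D, (∀ d, vt (ρ d) = vt d) ∧ (∀ d d', P d d' → ρ d = d') := by
  classical
  choose S hS using fun (x : {d : D // ∃ d', P d d'}) => x.2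
  choose T hT using fun (x : {d' : D // ∃ d, P d d'}) => x.2
  let e : ∀ v : V, {x : {d : D // vt d = v} // ∃ d', P x.1 d'} ≃
      {x : {d : D // vt d = v} // ∃ d, P d x.1} := fun v =>
    { toFun := fun x => ⟨⟨S ⟨x.1.1, x.2⟩, by
          rw [hvt _ _ (hS ⟨x.1.1, x.2⟩)]; exact x.1.2⟩, ⟨x.1.1, hS ⟨x.1.1, x.2⟩⟩⟩
      invFun := fun x => ⟨⟨T ⟨x.1.1, x.2⟩, by
          rw [← hvt _ _ (hT ⟨x.1.1, x.2⟩)]; exact x.1.2⟩, ⟨x.1.1, hT ⟨x.1.1, x.2⟩⟩⟩
      left_inv := by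
        rintro ⟨⟨d, hd⟩, hx⟩
        apply Subtype.ext
        apply Subtype.ext
        exact hinj _ _ _ (hT ⟨S ⟨d, hx⟩, ⟨d, hS ⟨d, hx⟩⟩⟩) (hS ⟨d, hx⟩)
      right_inv := by
        rintro ⟨⟨d, hd⟩, hx⟩
        apply Subtype.ext
        apply Subtype.ext
        exact hfun _ _ _ (hS ⟨T ⟨d, hx⟩, ⟨d, hT ⟨d, hx⟩⟩⟩) (hT ⟨d, hx⟩) }
  let σ : ∀ v : V, Equiv.Perm {d : D // vt d = v} := fun v => (e v).extendSubtype
  refine ⟨(Equiv.sigmaFiberEquiv vt).symm.trans
    ((Equiv.sigmaCongrRight σ).trans (Equiv.sigmaFiberEquiv vt)), fun d => ?_, fun d d' h => ?_⟩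
  · change vt ((σ (vt d) ⟨d, rfl⟩ : {d' : D // vt d' = vt d}) : D) = vt d
    exact (σ (vt d) ⟨d, rfl⟩).2
  · change ((σ (vt d) ⟨d, rfl⟩ : {d' : D // vt d' = vt d}) : D) = d'
    have h1 : ∃ d', P (⟨d, rfl⟩ : {d' : D // vt d' = vt d}).1 d' := ⟨d', h⟩
    have h2 := Equiv.extendSubtype_apply_of_mem (e (vt d)) ⟨d, rfl⟩ h1
    change ((e (vt d)).extendSubtype ⟨d, rfl⟩ : {d' : D // vt d' = vt d}).1 = d'
    rw [h2]
    exact hfun _ _ _ (hS ⟨d, ⟨d', h⟩⟩) h

/-- composing with the transposition of two elements of different cycles merges the cycles -/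
theorem cyc_ext_merge {D : Type} [Finite D] [DecidableEq D] (ρ : Equiv.Perm D) {x y : D}
    (hxy : ¬ ρ.SameCycle x y) : nOrb (ρ * Equiv.swap x y) < nOrb ρ := by
  obtain ⟨ρ', hρ'⟩ : ∃ ρ' : Equiv.Perm D, ρ' = ρ * Equiv.swap x y := ⟨_, rfl⟩
  rw [← hρ']
  have hx : ρ' x = ρ y := by rw [hρ', Equiv.Perm.mul_apply, Equiv.swap_apply_left]
  have hy : ρ' y = ρ x := by rw [hρ', Equiv.Perm.mul_apply, Equiv.swap_apply_right]
  have hz : ∀ z, z ≠ x → z ≠ y → ρ' z = ρ z := by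
    intro z h1 h2
    rw [hρ', Equiv.Perm.mul_apply, Equiv.swap_apply_of_ne_of_ne h1 h2]
  -- the first return of `y`
  have hret : ∃ m, 1 ≤ m ∧ (ρ ^ m) y = y := by
    refine ⟨orderOf ρ, orderOf_pos ρ, ?_⟩
    rw [pow_orderOf_eq_one]; rfl
  obtain ⟨m, ⟨hm1, hm2⟩, hmin⟩ : ∃ m, (1 ≤ m ∧ (ρ ^ m) y = y) ∧
      ∀ k, 1 ≤ k → k < m → (ρ ^ k) y ≠ y := by
    classical
    refine ⟨Nat.find hret, Nat.find_spec hret, fun k h1 h2 h3 => ?_⟩
    exact Nat.find_min hret h2 ⟨h1, h3⟩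
  have hnx : ∀ k, (ρ ^ k) y ≠ x := by
    intro k hk
    apply hxy
    refine (Equiv.Perm.SameCycle.symm ?_)
    exact ⟨(k : ℤ), by rw [zpow_natCast]; exact hk⟩
  have hit : ∀ k, 1 ≤ k → k ≤ m → (ρ' ^ k) x = (ρ ^ k) y := by
    intro k hk
    induction k, hk using Nat.le_induction with
    | base => intro _; rw [pow_one, pow_one, hx]
    | succ k hk ih =>
      intro h
      rw [pow_succ', Equiv.Perm.mul_apply, ih (by omega), pow_succ', Equiv.Perm.mul_apply]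
      exact hz _ (hnx k) (hmin k hk (by omega))
  have hR : ρ'.SameCycle x y := by
    refine ⟨(m : ℤ), ?_⟩
    rw [zpow_natCast, hit m hm1 le_rfl, hm2]
  have hstep : ∀ z, ρ'.SameCycle z (ρ z) := by
    intro z
    by_cases h1 : z = x
    · rw [h1, ← hy]
      exact Equiv.Perm.sameCycle_apply_right.2 hR
    · by_cases h2 : z = y
      · rw [h2, ← hx]
        exact Equiv.Perm.sameCycle_apply_right.2 hR.symm
      · rw [← hz z h1 h2]
        exact Equiv.Perm.sameCycle_apply_right.2 (Equiv.Perm.SameCycle.refl _ _)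
  have hpow : ∀ (k : ℕ) z, ρ'.SameCycle z ((ρ ^ k) z) := by
    intro k
    induction k with
    | zero => intro z; exact Equiv.Perm.SameCycle.refl _ _
    | succ k ih =>
      intro z
      rw [pow_succ', Equiv.Perm.mul_apply]
      exact (ih z).trans (hstep _)
  have hsub : ∀ a b, ρ.SameCycle a b → ρ'.SameCycle a b := by
    intro a b h
    obtain ⟨k, -, hk⟩ := h.exists_pow_eq'
    rw [← hk]
    exact hpow k a
  let q : Quotient (Equiv.Perm.SameCycle.setoid ρ) → Quotient (Equiv.Perm.SameCycle.setoid ρ') :=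
    Quotient.map id hsub
  have hsurj : Function.Surjective q := by
    intro c
    induction c using Quotient.inductionOn with
    | h a => exact ⟨Quotient.mk _ a, rfl⟩
  have hni : ¬ Function.Injective q := by
    intro hinj
    have h1 : q (Quotient.mk _ x) = q (Quotient.mk _ y) := Quotient.sound hR
    exact hxy (Quotient.exact (hinj h1))
  unfold nOrb
  have hf1 : Fintype (Quotient (Equiv.Perm.SameCycle.setoid ρ)) := Fintype.ofFinite _
  have hf2 : Fintype (Quotient (Equiv.Perm.SameCycle.setoid ρ')) := Fintype.ofFinite _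
  rw [Nat.card_eq_fintype_card, Nat.card_eq_fintype_card]
  exact Fintype.card_lt_of_surjective_not_injective q hsurj hni

theorem cyc_ext {D V : Type} [Finite D] (vt : D → V) (P : D → D → Prop)
    (hfun : ∀ d d' d'', P d d' → P d d'' → d' = d'')
    (hinj : ∀ d d' d'', P d d'' → P d' d'' → d = d')
    (hvt : ∀ d d', P d d' → vt d' = vt d)
    (hcl : ∀ S : Set D, (∀ d ∈ S, ∃ d' ∈ S, P d d') → ∀ d ∈ S, ∀ d', vt d' = vt d → d' ∈ S) :
    ∃ ρ : Equiv.Perm D, (∀ d, vt (ρ d) = vt d) ∧ (∀ d d', P d d' → ρ d = d') ∧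
      ∀ d d', vt d = vt d' → ρ.SameCycle d d' := by
  classical
  obtain ⟨ρ, ⟨h1, h2⟩, hmin⟩ := Set.exists_min_image
    {ρ : Equiv.Perm D | (∀ d, vt (ρ d) = vt d) ∧ (∀ d d', P d d' → ρ d = d')} nOrb
    (Set.toFinite _) (cyc_ext_step1 vt P hfun hinj hvt)
  refine ⟨ρ, h1, h2, fun d d' hdd => ?_⟩
  by_contra hnc
  have hvc : ∀ a b, ρ.SameCycle a b → vt b = vt a := by
    intro a b h
    obtain ⟨k, -, hk⟩ := h.exists_pow_eq'
    rw [← hk]
    clear hk h
    induction k with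
    | zero => rfl
    | succ k ih => rw [pow_succ', Equiv.Perm.mul_apply, h1, ih]
  -- an element without successor in every cycle which is not the whole class
  have hex : ∀ a b, vt a = vt b → ¬ ρ.SameCycle a b → ∃ x, ρ.SameCycle a x ∧ ∀ x', ¬ P x x' := by
    intro a b hab hn
    by_contra hcon
    push Not at hcon
    apply hn
    refine hcl {z | ρ.SameCycle a z} ?_ a (Equiv.Perm.SameCycle.refl _ _) b hab.symm
    intro z hz
    obtain ⟨z', hz'⟩ := hcon z hz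
    refine ⟨z', ?_, hz'⟩
    rw [← h2 z z' hz']
    exact Equiv.Perm.sameCycle_apply_right.2 hz
  obtain ⟨x, hx1, hx2⟩ := hex d d' hdd hnc
  obtain ⟨y, hy1, hy2⟩ := hex d' d hdd.symm fun h => hnc h.symm
  have hxy : ¬ ρ.SameCycle x y := fun h => hnc ((hx1.trans h).trans hy1.symm)
  have hvxy : vt x = vt y := by rw [hvc d x hx1, hvc d' y hy1, hdd]
  have hlt := cyc_ext_merge ρ hxy
  refine absurd (hmin (ρ * Equiv.swap x y) ⟨fun z => ?_, fun z z' hz => ?_⟩) (not_le.2 hlt)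
  · rw [Equiv.Perm.mul_apply, h1, Equiv.swap_apply_def]
    split_ifs with h3 h4
    · rw [h3, hvxy]
    · rw [h4, hvxy]
    · rfl
  · have h3 : z ≠ x := fun h => hx2 z' (h ▸ hz)
    have h4 : z ≠ y := fun h => hy2 z' (h ▸ hz)
    rw [Equiv.Perm.mul_apply, Equiv.swap_apply_of_ne_of_ne h3 h4]
    exact h2 z z' hz

end Pool.Agent.Helper226_Obs
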