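import Pool.Agent.Helper226_Obs.FP.A04

set_option autoImplicit false

namespace Pool.Agent.Helper226_Obs

open SimpleGraph

theorem ur_zz (a : ZMod 2) : a = 0 ∨ a = 1 := by
  revert a; decide

theorem ur_ne (a b c : ZMod 2) (h : a ≠ b) (h' : a ≠ c) : b = c := by
  revert a b c; decide

theorem ur_bit_not (t : Bool) : bit (!t) = bit t + 1 := by
  cases t <;> decide

theorem ur_kap_u {E : Type} (θ : E → ZMod 2) (e : E) (t u : Bool) :
    kap θ (e, t, !u) = kap θ (e, t, u) + 1 := by
  unfold kap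
  simp only [ur_bit_not]
  ring

theorem ur_kap_t {E : Type} (θ : E → ZMod 2) (e : E) (t u : Bool) :
    kap θ (e, !t, u) = kap θ (e, t, u) + 1 := by
  unfold kap
  simp only [ur_bit_not]
  ring

theorem ur_add_one_ne (a : ZMod 2) : a + 1 ≠ a := by
  revert a; decide

theorem ur_ex_u {E : Type} (θ : E → ZMod 2) (d : E × Bool) (c : ZMod 2) :
    ∃ u, kap θ (d.1, d.2, u) = c := by
  by_cases h : kap θ (d.1, d.2, false) = c
  · exact ⟨false, h⟩
  · refine ⟨true, ?_⟩
    have h1 := ur_kap_u θ d.1 d.2 false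
    simp only [Bool.not_false] at h1
    rw [h1]
    revert h
    generalize kap θ (d.1, d.2, false) = a
    revert a c
    decide

theorem ur_ex_t {E : Type} (θ : E → ZMod 2) (e : E) (u : Bool) (c : ZMod 2) :
    ∃ t, kap θ (e, t, u) = c := by
  by_cases h : kap θ (e, false, u) = c
  · exact ⟨false, h⟩
  · refine ⟨true, ?_⟩
    have h1 := ur_kap_t θ e false u
    simp only [Bool.not_false] at h1
    rw [h1]
    revert h
    generalize kap θ (e, false, u) = a
    revert a c
    decide

theorem ur_uniq {E : Type} (θ : E → ZMod 2) (x y : E × Bool × Bool)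
    (h1 : (x.1, x.2.1) = (y.1, y.2.1)) (h2 : kap θ x = kap θ y) : x = y := by
  obtain ⟨e, t, u⟩ := x
  obtain ⟨e', t', u'⟩ := y
  simp only [Prod.mk.injEq] at h1
  obtain ⟨rfl, rfl⟩ := h1
  by_cases h : u = u'
  · rw [h]
  · exfalso
    have h3 : u' = !u := by
      cases u <;> cases u' <;> simp_all
    rw [h3, ur_kap_u] at h2
    exact ur_add_one_ne _ h2.symm

theorem ur_surj {D : Type} [Finite D] (s : D → D) (S : Set D) (h1 : Set.MapsTo s S S) (h2 : Set.InjOn s S) :
    ∀ d ∈ S, ∃ d' ∈ S, s d' = d := by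
  have h3 : s '' S = S := by
    apply Set.eq_of_subset_of_ncard_le
    · rintro _ ⟨a, ha, rfl⟩
      exact h1 ha
    · rw [Set.InjOn.ncard_image h2]
    · exact Set.toFinite _
  intro d hd
  rw [← h3] at hd
  obtain ⟨a, ha, hae⟩ := hd
  exact ⟨a, ha, hae⟩

/-- the successor relation -/
def ur_P {E : Type} (r : Equiv.Perm (E × Bool × Bool)) (θ : E → ZMod 2) (d d' : E × Bool) : Prop :=
  ∃ x, (x.1, x.2.1) = d ∧ kap θ x = 1 ∧ kap θ (r x) = 0 ∧ ((r x).1, (r x).2.1) = d'

theorem ur_rot {E V F : Type} [Fintype E] (vt : E × Bool → V) (fc : E × Bool → F)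
    (r : Equiv.Perm (E × Bool × Bool)) (h : PM vt fc r) (θ : E → ZMod 2) :
    ∃ ρ : Equiv.Perm (E × Bool), (∀ d, vt (ρ d) = vt d) ∧ (∀ d d', ur_P r θ d d' → ρ d = d') ∧
      ∀ d d', vt d = vt d' → ρ.SameCycle d d' := by
  classical
  have hinj : ∀ d d' d'', ur_P r θ d d'' → ur_P r θ d' d'' → d = d' := by
    rintro d d' d'' ⟨x, hx, hx1, hx0, hx'⟩ ⟨y, hy, hy1, hy0, hy'⟩
    have e : r x = r y := ur_uniq θ _ _ (hx'.trans hy'.symm) (hx0.trans hy0.symm)
    have e' := r.injective e
    rw [← hx, ← hy, e']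
  refine cyc_ext vt (ur_P r θ) ?_ hinj ?_ ?_
  · rintro d d' d'' ⟨x, hx, hx1, hx0, hx'⟩ ⟨y, hy, hy1, hy0, hy'⟩
    have e : x = y := ur_uniq θ _ _ (hx.trans hy.symm) (hx1.trans hy1.symm)
    rw [← hx', ← hy', e]
  · rintro d d' ⟨x, hx, hx1, hx0, hx'⟩
    rw [← hx, ← hx']
    exact h.vt_r x
  · intro S hS
    have hsurj : ∀ d ∈ S, ∃ d' ∈ S, ur_P r θ d' d := by
      choose! s hs using hS
      have hmaps : Set.MapsTo s S S := fun d hd => (hs d hd).1
      have hinjs : Set.InjOn s S := by
        intro a ha b hb hab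
        exact hinj a b (s a) (hs a ha).2 (by rw [hab]; exact (hs b hb).2)
      have hsur := ur_surj s S hmaps hinjs
      intro d hd
      obtain ⟨d', hd', he⟩ := hsur _ hd
      exact ⟨d', hd', by rw [← he]; exact (hs d' hd').2⟩
    have key : ∀ x : E × Bool × Bool, (x.1, x.2.1) ∈ S → ((r x).1, (r x).2.1) ∈ S := by
      intro x hx
      rcases ur_zz (kap θ x) with hk | hk
      · obtain ⟨d', hd', y, hy, hy1, hy0, hy'⟩ := hsurj _ hx
        have e : r y = x := ur_uniq θ _ _ hy' (hy0.trans hk.symm)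
        rw [← e, h.invol, hy]
        exact hd'
      · obtain ⟨d', hd', y, hy, hy1, hy0, hy'⟩ := hS _ hx
        have e : y = x := ur_uniq θ _ _ hy (hy1.trans hk.symm)
        rw [← e, hy']
        exact hd'
    intro d hd d' hdd'
    have hw := h.trans (fun x => if (x.1, x.2.1) ∈ S then 1 else 0) ?_ ?_ (d.1, d.2, false) (d'.1, d'.2, false) hdd'.symm
    · by_contra hcon
      have h1 : (d.1, d.2) ∈ S := hd
      have h2 : ¬ (d'.1, d'.2) ∈ S := hcon
      simp only [if_pos h1, if_neg h2] at hw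
      exact one_ne_zero hw
    · intro x
      by_cases hx : (x.1, x.2.1) ∈ S
      · have := key x hx
        simp only [if_pos hx, if_pos this]
      · have : ¬ ((r x).1, (r x).2.1) ∈ S := by
          intro hcon
          apply hx
          have := key (r x) hcon
          rwa [h.invol] at this
        simp only [if_neg hx, if_neg this]
    · intro x
      rfl

/-- the four cut flags with a given label -/
theorem ur_four {E V F : Type} [Fintype E] [DecidableEq E] [DecidableEq F] (vt : E × Bool → V) (fc : E × Bool → F)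
    (r : Equiv.Perm (E × Bool × Bool)) (h : PM vt fc r) (θ : E → ZMod 2) (f : F)
    (x : E × Bool × Bool) (hx : kap θ (r x) = kap θ x) (hf : fc (x.1, x.2.2) = f) :
    4 ≤ (Finset.univ.filter (fun y : E × Bool × Bool => kap θ (r y) = kap θ y ∧ fc (y.1, y.2.2) = f)).card := by
  classical
  obtain ⟨C, hC⟩ : ∃ C : ZMod 2 → Finset (E × Bool × Bool), C = fun c => Finset.univ.filter (fun y : E × Bool × Bool =>
    kap θ y = c ∧ kap θ (r y) = kap θ y ∧ fc (y.1, y.2.2) = f) := ⟨_, rfl⟩
  obtain ⟨D, hD⟩ : ∃ D : ZMod 2 → Finset (E × Bool × Bool), D = fun c => Finset.univ.filter (fun y : E × Bool × Bool =>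
    kap θ y = c ∧ kap θ (r y) ≠ kap θ y ∧ fc (y.1, y.2.2) = f) := ⟨_, rfl⟩
  obtain ⟨T, hT⟩ : ∃ T : ZMod 2 → Finset (E × Bool × Bool), T = fun c => Finset.univ.filter (fun y : E × Bool × Bool =>
    kap θ y = c ∧ fc (y.1, y.2.2) = f) := ⟨_, rfl⟩
  have hTcard : ∀ c, (T c).card = (C c).card + (D c).card := by
    intro c
    rw [← Finset.card_union_of_disjoint]
    · congr 1
      ext y
      rw [hT, hC, hD]
      simp only [Finset.mem_filter, Finset.mem_univ, true_and, Finset.mem_union]
      tauto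
    · rw [Finset.disjoint_left]
      intro y hy hy'
      rw [hC] at hy
      rw [hD] at hy'
      simp only [Finset.mem_filter, Finset.mem_univ, true_and] at hy hy'
      exact hy'.2.1 hy.2.1
  have hT01 : (T 0).card ≤ (T 1).card ∧ (T 1).card ≤ (T 0).card := by
    have key : ∀ c : ZMod 2, (T c).card ≤ (T (c + 1)).card := by
      intro c
      apply Finset.card_le_card_of_injOn (fun y => (y.1, !y.2.1, y.2.2))
      · intro y hy
        rw [hT] at hy ⊢
        simp only [Finset.coe_filter, Finset.mem_univ, true_and, Set.mem_ofPred_eq] at hy ⊢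
        refine ⟨?_, hy.2⟩
        rw [ur_kap_t, ← hy.1]
      · rintro ⟨a, b, c⟩ _ ⟨a', b', c'⟩ _ hab
        simp only [Prod.mk.injEq] at hab ⊢
        refine ⟨hab.1, ?_, hab.2.2⟩
        have hbb := hab.2.1
        cases b <;> cases b' <;> simp_all
    refine ⟨by simpa using key 0, ?_⟩
    have := key 1
    have e : (1 : ZMod 2) + 1 = 0 := by decide
    rwa [e] at this
  have hD01 : (D 0).card ≤ (D 1).card ∧ (D 1).card ≤ (D 0).card := by
    have key : ∀ c : ZMod 2, (D c).card ≤ (D (c + 1)).card := by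
      intro c
      apply Finset.card_le_card_of_injOn (fun y => r y)
      · intro y hy
        rw [hD] at hy ⊢
        simp only [Finset.coe_filter, Finset.mem_univ, true_and, Set.mem_ofPred_eq] at hy ⊢
        refine ⟨?_, ?_, ?_⟩
        · apply ur_ne (kap θ y)
          · exact fun hh => hy.2.1 hh.symm
          · rw [hy.1]
            exact (ur_add_one_ne c).symm
        · rw [h.invol]
          exact fun hh => hy.2.1 hh.symm
        · rw [h.fc_r]
          exact hy.2.2
      · intro a _ b _ hab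
        exact r.injective hab
    refine ⟨by simpa using key 0, ?_⟩
    have := key 1
    have e : (1 : ZMod 2) + 1 = 0 := by decide
    rwa [e] at this
  have hCeq : (C 0).card = (C 1).card := by
    have := hTcard 0
    have := hTcard 1
    omega
  have hmem : x ∈ C (kap θ x) := by
    rw [hC]
    simp only [Finset.mem_filter, Finset.mem_univ, true_and]
    exact ⟨hx, hf⟩
  have hmem' : r x ∈ C (kap θ x) := by
    rw [hC]
    simp only [Finset.mem_filter, Finset.mem_univ, true_and]
    refine ⟨hx, ?_, ?_⟩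
    · rw [h.invol, hx]
    · rw [h.fc_r]
      exact hf
  have h2 : 2 ≤ (C (kap θ x)).card := by
    have : ({x, r x} : Finset (E × Bool × Bool)) ⊆ C (kap θ x) := by
      intro y hy
      rw [Finset.mem_insert, Finset.mem_singleton] at hy
      rcases hy with rfl | rfl
      · exact hmem
      · exact hmem'
    calc 2 = ({x, r x} : Finset (E × Bool × Bool)).card := (Finset.card_pair (h.ne x).symm).symm
      _ ≤ _ := Finset.card_le_card this
  have h3 : (Finset.univ.filter (fun y : E × Bool × Bool => kap θ (r y) = kap θ y ∧ fc (y.1, y.2.2) = f)).card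
      = (C 0).card + (C 1).card := by
    rw [← Finset.card_union_of_disjoint]
    · congr 1
      ext y
      rw [hC]
      simp only [Finset.mem_filter, Finset.mem_univ, true_and, Finset.mem_union]
      have := ur_zz (kap θ y)
      tauto
    · rw [Finset.disjoint_left]
      intro y hy hy'
      rw [hC] at hy hy'
      simp only [Finset.mem_filter, Finset.mem_univ, true_and] at hy hy'
      have := hy.1.symm.trans hy'.1
      exact absurd this (by decide)
  rw [h3]
  rcases ur_zz (kap θ x) with hk | hk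
  · rw [hk] at h2
    omega
  · rw [hk] at h2
    omega

theorem upper_rot {E V F : Type} [Fintype E] (vt : E × Bool → V) (fc : E × Bool → F)
    (r : Equiv.Perm (E × Bool × Bool)) (h : PM vt fc r) (θ : E → ZMod 2) (m : ℕ) (hm : 1 ≤ m)
    (hc : (Cut θ r).ncard ≤ 4 * m) :
    ∃ rot : Equiv.Perm (E × Bool), RotAt vt rot ∧
      (Set.range fc).ncard + 1 ≤ nOrb (rot * flp) + m := by
  classical
  obtain ⟨rot, hr1, hr2, hr3⟩ := ur_rot vt fc r h θ
  refine ⟨rot, ⟨hr1, hr3⟩, ?_⟩
  obtain ⟨τ, hτ⟩ : ∃ τ : Equiv.Perm (E × Bool), τ = rot * flp := ⟨_, rfl⟩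
  rw [← hτ]
  choose u0 hu0 using fun d : E × Bool => ur_ex_u θ d 0
  -- the cut flags as a finset
  obtain ⟨CF, hCF⟩ : ∃ CF : Finset (E × Bool × Bool), CF = Finset.univ.filter (fun y => kap θ (r y) = kap θ y) :=
    ⟨_, rfl⟩
  have hCFc : CF.card = (Cut θ r).ncard := by
    rw [hCF, ← Set.ncard_coe_finset]
    congr 1
    ext y
    simp [Cut]
  obtain ⟨B, hB⟩ : ∃ B : Finset F, B = CF.image (fun y => fc (y.1, y.2.2)) := ⟨_, rfl⟩
  have hBcard : B.card ≤ m := by
    have h1 := Finset.card_eq_sum_card_image (fun y : E × Bool × Bool => fc (y.1, y.2.2)) CF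
    have h2 : B.card * 4 ≤ CF.card := by
      rw [h1, hB, ← smul_eq_mul]
      apply Finset.card_nsmul_le_sum
      intro f hf
      rw [Finset.mem_image] at hf
      obtain ⟨x, hx, hxf⟩ := hf
      rw [hCF] at hx ⊢
      simp only [Finset.mem_filter, Finset.mem_univ, true_and] at hx
      rw [Finset.filter_filter]
      exact ur_four vt fc r h θ f x hx hxf
    omega
  obtain ⟨L, hL⟩ : ∃ L : E × Bool → F, L = fun d => fc (d.1, u0 d) := ⟨_, rfl⟩
  have hBmem : ∀ x : E × Bool × Bool, kap θ (r x) = kap θ x → fc (x.1, x.2.2) ∈ B := by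
    intro x hx
    rw [hB, Finset.mem_image]
    refine ⟨x, ?_, rfl⟩
    rw [hCF]
    simp only [Finset.mem_filter, Finset.mem_univ, true_and]
    exact hx
  have hinv : ∀ d, L d ∉ B → L (τ d) = L d := by
    intro d hd
    obtain ⟨e, t⟩ := d
    have hk0 : kap θ (e, t, u0 (e, t)) = 0 := hu0 (e, t)
    have hk1 : kap θ (e, !t, u0 (e, t)) = 1 := by
      rw [ur_kap_t, hk0, zero_add]
    have hLe : L (e, t) = fc (e, u0 (e, t)) := by rw [hL]
    have hr0 : kap θ (r (e, !t, u0 (e, t))) = 0 := by
      rcases ur_zz (kap θ (r (e, !t, u0 (e, t)))) with hz | hz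
      · exact hz
      · exfalso
        apply hd
        rw [hLe]
        exact hBmem (e, !t, u0 (e, t)) (by rw [hz, hk1])
    have hP : ur_P r θ (e, !t) ((r (e, !t, u0 (e, t))).1, (r (e, !t, u0 (e, t))).2.1) :=
      ⟨(e, !t, u0 (e, t)), rfl, hk1, hr0, rfl⟩
    have hrot := hr2 _ _ hP
    rw [hτ, Equiv.Perm.mul_apply, flp_apply]
    change L (rot (e, !t)) = L (e, t)
    rw [hrot, hLe]
    have hu : u0 ((r (e, !t, u0 (e, t))).1, (r (e, !t, u0 (e, t))).2.1) = (r (e, !t, u0 (e, t))).2.2 := by
      have hk := hu0 ((r (e, !t, u0 (e, t))).1, (r (e, !t, u0 (e, t))).2.1)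
      have := ur_uniq θ ((r (e, !t, u0 (e, t))).1, (r (e, !t, u0 (e, t))).2.1,
        u0 ((r (e, !t, u0 (e, t))).1, (r (e, !t, u0 (e, t))).2.1)) (r (e, !t, u0 (e, t))) rfl (hk.trans hr0.symm)
      exact congrArg (fun z => z.2.2) this
    rw [hL]
    simp only
    rw [hu]
    exact h.fc_r (e, !t, u0 (e, t))
  -- the colouring of the orbits
  obtain ⟨φ, hφ⟩ : ∃ φ : E × Bool → Option F, φ = fun d => if L d ∈ B then none else some (L d) := ⟨_, rfl⟩
  have hφinv : ∀ d, φ (τ d) = φ d := by
    intro d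
    by_cases hd : L d ∈ B
    · have hd' : L (τ d) ∈ B := by
        by_contra hcon
        obtain ⟨S, hS⟩ : ∃ S : Set (E × Bool), S = {a | L a = L (τ d)} := ⟨_, rfl⟩
        have hmaps : Set.MapsTo τ S S := by
          intro a ha
          rw [hS] at ha ⊢
          have ha' : L a = L (τ d) := ha
          change L (τ a) = L (τ d)
          rw [hinv a (by rw [ha']; exact hcon), ha']
        have hsur := ur_surj τ S hmaps τ.injective.injOn
        have hmem : τ d ∈ S := by rw [hS]; rfl
        obtain ⟨a, ha, hae⟩ := hsur _ hmem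
        have : a = d := τ.injective hae
        rw [this, hS] at ha
        have ha' : L d = L (τ d) := ha
        exact hcon (by rw [← ha']; exact hd)
      rw [hφ]
      simp only [if_pos hd, if_pos hd']
    · have e := hinv d hd
      rw [hφ]
      simp only
      rw [e]
  have hφz : ∀ (i : ℤ) (d : E × Bool), φ ((τ ^ i) d) = φ d := by
    have hpow : ∀ (k : ℕ) (d : E × Bool), φ ((τ ^ k) d) = φ d := by
      intro k
      induction k with
      | zero => intro d; rfl
      | succ k ih =>
        intro d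
        rw [pow_succ, Equiv.Perm.mul_apply, ih, hφinv]
    intro i d
    rcases Int.eq_nat_or_neg i with ⟨k, rfl | rfl⟩
    · rw [zpow_natCast]
      exact hpow k d
    · rw [zpow_neg, zpow_natCast]
      have hk := hpow k ((τ ^ k)⁻¹ d)
      have e : (τ ^ k) ((τ ^ k)⁻¹ d) = d := by
        rw [← Equiv.Perm.mul_apply, mul_inv_cancel, Equiv.Perm.one_apply]
      rw [e] at hk
      exact hk.symm
  have hcard : (Set.range φ).ncard ≤ nOrb τ := by
    unfold nOrb
    obtain ⟨Q, hQ⟩ : ∃ Q : Quotient (Equiv.Perm.SameCycle.setoid τ) → Option F,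
        ∀ d, Q (Quotient.mk _ d) = φ d := by
      refine ⟨Quotient.lift φ ?_, fun d => rfl⟩
      rintro a b ⟨i, hi⟩
      rw [← hi, hφz]
    have hsub : Set.range φ ⊆ Set.range Q := by
      rintro _ ⟨d, rfl⟩
      exact ⟨_, hQ d⟩
    calc (Set.range φ).ncard ≤ (Set.range Q).ncard := Set.ncard_le_ncard hsub (Set.toFinite _)
      _ ≤ Nat.card (Quotient (Equiv.Perm.SameCycle.setoid τ)) := by
          rw [← Set.image_univ, ← Set.ncard_univ]
          exact Set.ncard_image_le (Set.toFinite _)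
  have hLsur : ∀ f ∈ Set.range fc, ∃ d, L d = f := by
    rintro _ ⟨⟨e, u⟩, rfl⟩
    obtain ⟨t, ht⟩ := ur_ex_t θ e u 0
    refine ⟨(e, t), ?_⟩
    rw [hL]
    have := ur_uniq θ (e, t, u0 (e, t)) (e, t, u) rfl ((hu0 (e, t)).trans ht.symm)
    have hu : u0 (e, t) = u := congrArg (fun z => z.2.2) this
    simp only
    rw [hu]
  have hBsub : (B : Set F) ⊆ Set.range fc := by
    intro f hf
    rw [hB] at hf
    simp only [Finset.coe_image, Set.mem_image] at hf
    obtain ⟨x, -, hx⟩ := hf
    exact ⟨_, hx⟩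
  have hsome : some '' (Set.range fc \ (B : Set F)) ⊆ Set.range φ := by
    rintro _ ⟨f, ⟨hf, hfB⟩, rfl⟩
    obtain ⟨d, hd⟩ := hLsur f hf
    refine ⟨d, ?_⟩
    rw [hφ]
    simp only
    rw [hd, if_neg (by exact_mod_cast hfB)]
  have hsomec : (some '' (Set.range fc \ (B : Set F))).ncard + B.card = (Set.range fc).ncard := by
    rw [Set.ncard_image_of_injective _ (Option.some_injective F), ← Set.ncard_coe_finset B]
    exact Set.ncard_sdiff_add_ncard_of_subset hBsub (Set.toFinite _)
  by_cases hBe : B = ∅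
  · have h1 : (some '' (Set.range fc \ (B : Set F))).ncard ≤ (Set.range φ).ncard :=
      Set.ncard_le_ncard hsome (Set.toFinite _)
    rw [hBe, Finset.card_empty] at hsomec
    rw [hBe] at h1
    omega
  · obtain ⟨f, hf⟩ := Finset.nonempty_iff_ne_empty.2 hBe
    have hnone : none ∈ Set.range φ := by
      obtain ⟨d, hd⟩ := hLsur f (hBsub hf)
      refine ⟨d, ?_⟩
      rw [hφ]
      simp only
      rw [hd, if_pos hf]
    have hins : insert none (some '' (Set.range fc \ (B : Set F))) ⊆ Set.range φ :=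
      Set.insert_subset hnone hsome
    have h1 := Set.ncard_le_ncard hins (Set.toFinite _)
    rw [Set.ncard_insert_of_notMem (by simp) (Set.toFinite _)] at h1
    omega

end Pool.Agent.Helper226_Obs
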