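import Pool.Agent.Helper226_Obs.FP.Defs

set_option autoImplicit false

namespace Pool.Agent.Helper226_Obs

open SimpleGraph

/-- flip of the side of a flag -/
def dpU {E : Type} (x : E × Bool × Bool) : E × Bool × Bool := (x.1, x.2.1, !x.2.2)

theorem dpU_dpU {E : Type} (x : E × Bool × Bool) : dpU (dpU x) = x := by
  simp [dpU]

theorem dpU_ne {E : Type} (x : E × Bool × Bool) : dpU x ≠ x := by
  intro h
  have := congrArg (fun y => y.2.2) h
  simp [dpU] at this

theorem dp_bit (u : Bool) : bit (!u) ≠ bit u := by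
  cases u <;> simp [bit]

theorem dp_kap {E : Type} (θ : E → ZMod 2) (x : E × Bool × Bool) : kap θ (dpU x) ≠ kap θ x := by
  unfold kap dpU
  intro h
  exact dp_bit x.2.2 (add_left_cancel h)

theorem dp_two : ∀ a b c : ZMod 2, a ≠ b → c ≠ b → a = c := by decide

open Classical in
/-- the corner matching after the deletion of `e0` -/
noncomputable def dpg {E : Type} (r : Equiv.Perm (E × Bool × Bool)) (e0 : E)
    (x : E × Bool × Bool) : E × Bool × Bool := if (r x).1 = e0 then r (dpU (r x)) else r x

theorem dpg_pos {E : Type} {r : Equiv.Perm (E × Bool × Bool)} {e0 : E}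
    {x : E × Bool × Bool} (h : (r x).1 = e0) : dpg r e0 x = r (dpU (r x)) := by
  unfold dpg
  rw [if_pos h]

theorem dpg_neg {E : Type} {r : Equiv.Perm (E × Bool × Bool)} {e0 : E}
    {x : E × Bool × Bool} (h : (r x).1 ≠ e0) : dpg r e0 x = r x := by
  unfold dpg
  rw [if_neg h]

theorem dpg_fst {E : Type} {r : Equiv.Perm (E × Bool × Bool)} (hdeg : ∀ x, (r x).1 ≠ x.1)
    (e0 : E) (x : E × Bool × Bool) : (dpg r e0 x).1 ≠ e0 := by
  by_cases h : (r x).1 = e0
  · rw [dpg_pos h]
    have := hdeg (dpU (r x))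
    simp only [dpU] at this ⊢
    rwa [h] at this ⊢
  · rw [dpg_neg h]
    exact h

theorem dpg_invol {E : Type} {r : Equiv.Perm (E × Bool × Bool)} (hi : ∀ x, r (r x) = x)
    (e0 : E) (x : E × Bool × Bool) (hx : x.1 ≠ e0) : dpg r e0 (dpg r e0 x) = x := by
  by_cases h : (r x).1 = e0
  · rw [dpg_pos h]
    have h2 : r (r (dpU (r x))) = dpU (r x) := hi _
    have h3 : (r (r (dpU (r x)))).1 = e0 := by rw [h2]; exact h
    rw [dpg_pos h3, h2, dpU_dpU, hi]
  · rw [dpg_neg h]
    have h3 : (r (r x)).1 ≠ e0 := by rw [hi]; exact hx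
    rw [dpg_neg h3, hi]

/-- the flags of the remaining edges as flags -/
def dpi {E : Type} {e0 : E} (x : {e // e ≠ e0} × Bool × Bool) : E × Bool × Bool := (x.1.1, x.2)

theorem dpi_inj {E : Type} {e0 : E} : Function.Injective (dpi (e0 := e0)) := by
  rintro ⟨⟨e, he⟩, t, u⟩ ⟨⟨e', he'⟩, t', u'⟩ h
  simp only [dpi, Prod.mk.injEq] at h
  obtain ⟨h1, h2, h3⟩ := h
  subst h1; subst h2; subst h3
  rfl

/-- the corner matching of the smaller map -/
noncomputable def dpr {E : Type} (r : Equiv.Perm (E × Bool × Bool)) (hi : ∀ x, r (r x) = x)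
    (hdeg : ∀ x, (r x).1 ≠ x.1) (e0 : E) : Equiv.Perm ({e // e ≠ e0} × Bool × Bool) where
  toFun x := (⟨(dpg r e0 (dpi x)).1, dpg_fst hdeg e0 _⟩, (dpg r e0 (dpi x)).2)
  invFun x := (⟨(dpg r e0 (dpi x)).1, dpg_fst hdeg e0 _⟩, (dpg r e0 (dpi x)).2)
  left_inv x := by
    apply dpi_inj
    have := dpg_invol hi e0 (dpi x) x.1.2
    exact this
  right_inv x := by
    apply dpi_inj
    have := dpg_invol hi e0 (dpi x) x.1.2
    exact this

theorem dpi_dpr {E : Type} (r : Equiv.Perm (E × Bool × Bool)) (hi : ∀ x, r (r x) = x)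
    (hdeg : ∀ x, (r x).1 ≠ x.1) (e0 : E) (x : {e // e ≠ e0} × Bool × Bool) :
    dpi (dpr r hi hdeg e0 x) = dpg r e0 (dpi x) := rfl

open Classical in
/-- the injection of the cut flags -/
noncomputable def dpj {E : Type} (r : Equiv.Perm (E × Bool × Bool)) (θ : E → ZMod 2)
    (x : E × Bool × Bool) : E × Bool × Bool := if kap θ (r x) = kap θ x then x else dpU (r x)

theorem dp_cut {E : Type} [Finite E] (r : Equiv.Perm (E × Bool × Bool)) (hi : ∀ x, r (r x) = x)
    (hdeg : ∀ x, (r x).1 ≠ x.1) (e0 : E) (θ : E → ZMod 2) (t : Bool)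
    (h0 : (e0, t, false) ∈ Cut θ r) (h1 : (e0, t, true) ∈ Cut θ r) :
    (Cut (fun e : {e // e ≠ e0} => θ e.1) (dpr r hi hdeg e0)).ncard + 4 ≤ (Cut θ r).ncard := by
  classical
  set C' := Cut (fun e : {e // e ≠ e0} => θ e.1) (dpr r hi hdeg e0) with hC'
  have hmem : ∀ x, x ∈ C' ↔ kap θ (dpg r e0 (dpi x)) = kap θ (dpi x) := fun x => Iff.rfl
  have hfst : ∀ x : {e // e ≠ e0} × Bool × Bool, (dpi x).1 ≠ e0 := fun x => x.1.2
  -- outside of the first case the partner is a flag of `e0`
  have hcase : ∀ x ∈ C', kap θ (r (dpi x)) ≠ kap θ (dpi x) → (r (dpi x)).1 = e0 := by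
    intro x hx hne
    by_contra hcon
    rw [hmem, dpg_neg hcon] at hx
    exact hne hx
  have hj1 : ∀ x ∈ C', dpj r θ (dpi x) ∈ Cut θ r := by
    intro x hx
    unfold dpj
    split_ifs with hk
    · exact hk
    · have he := hcase x hx hk
      rw [hmem, dpg_pos he] at hx
      change kap θ (r (dpU (r (dpi x)))) = kap θ (dpU (r (dpi x)))
      rw [hx]
      exact dp_two _ _ _ (Ne.symm hk) (dp_kap θ _)
  have hjinj : Set.InjOn (fun x => dpj r θ (dpi x)) C' := by
    intro x hx y hy hxy
    apply dpi_inj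
    simp only [dpj] at hxy
    split_ifs at hxy with ha hb hb
    · exact hxy
    · exfalso
      have := hcase y hy hb
      apply hfst x
      rw [hxy]
      exact this
    · exfalso
      have := hcase x hx ha
      apply hfst y
      rw [← hxy]
      exact this
    · have := congrArg dpU hxy
      rw [dpU_dpU, dpU_dpU] at this
      exact r.injective this
  have hdp : ∀ u : Bool, dpU ((e0, t, u) : E × Bool × Bool) = (e0, t, !u) := fun u => rfl
  have hcu : ∀ u : Bool, kap θ (r (e0, t, u)) = kap θ (e0, t, u) := by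
    intro u
    cases u
    · exact h0
    · exact h1
  -- the missed elements
  have hm1 : ∀ u : Bool, ∀ x ∈ C', dpj r θ (dpi x) ≠ r (e0, t, u) := by
    intro u x hx heq
    unfold dpj at heq
    split_ifs at heq with hk
    · rw [hmem] at hx
      have h2 : r (dpi x) = (e0, t, u) := by rw [heq, hi]
      rw [dpg_pos (by rw [h2]), h2, hdp, hcu, heq, hcu] at hx
      have := dp_kap θ (e0, t, u)
      rw [hdp] at this
      exact this hx
    · have he := hcase x hx hk
      have h3 := hdeg (e0, t, u)
      rw [← heq] at h3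
      exact h3 he
  have hm2 : ∀ u : Bool, ∀ x ∈ C', dpj r θ (dpi x) ≠ (e0, t, u) := by
    intro u x hx heq
    unfold dpj at heq
    split_ifs at heq with hk
    · apply hfst x
      rw [heq]
    · have h2 : r (dpi x) = (e0, t, !u) := by
        rw [← hdp, ← heq, dpU_dpU]
      have h4 : dpi x = r (e0, t, !u) := by rw [← h2, hi]
      apply hk
      rw [h2, h4, hcu]
  let M : Set (E × Bool × Bool) := {r (e0, t, false), r (e0, t, true), (e0, t, false), (e0, t, true)}
  have hMsub : M ⊆ Cut θ r := by
    intro x hx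
    rcases hx with h | h | h | h
    · rw [h]
      change kap θ (r (r _)) = kap θ (r _)
      rw [hi, hcu]
    · rw [h]
      change kap θ (r (r _)) = kap θ (r _)
      rw [hi, hcu]
    · rw [h]; exact h0
    · rw [h]; exact h1
  have hMcard : M.ncard = 4 := by
    have a1 : r (e0, t, false) ≠ r (e0, t, true) := by
      intro h
      have := r.injective h
      simp at this
    have a2 : ∀ u v : Bool, r (e0, t, u) ≠ (e0, t, v) := by
      intro u v h
      have := hdeg (e0, t, u)
      rw [h] at this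
      exact this rfl
    have a3 : ((e0, t, false) : E × Bool × Bool) ≠ (e0, t, true) := by simp
    have hf : M = (({r (e0, t, false), r (e0, t, true), (e0, t, false), (e0, t, true)} :
        Finset (E × Bool × Bool)) : Set (E × Bool × Bool)) := by simp [M]
    rw [hf, Set.ncard_coe_finset]
    rw [Finset.card_insert_of_notMem, Finset.card_insert_of_notMem, Finset.card_insert_of_notMem,
      Finset.card_singleton]
    · simp only [Finset.mem_singleton]; exact a3
    · simp only [Finset.mem_insert, Finset.mem_singleton, not_or]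
      exact ⟨a2 _ _, a2 _ _⟩
    · simp only [Finset.mem_insert, Finset.mem_singleton, not_or]
      exact ⟨a1, a2 _ _, a2 _ _⟩
  have hdisj : Disjoint ((fun x => dpj r θ (dpi x)) '' C') M := by
    rw [Set.disjoint_left]
    rintro _ ⟨x, hx, rfl⟩ hM
    rcases hM with h | h | h | h
    · exact hm1 _ x hx h
    · exact hm1 _ x hx h
    · exact hm2 _ x hx h
    · exact hm2 _ x hx h
  have hun : ((fun x => dpj r θ (dpi x)) '' C') ∪ M ⊆ Cut θ r := by
    intro y hy
    rcases hy with ⟨x, hx, rfl⟩ | hy
    · exact hj1 x hx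
    · exact hMsub hy
  have hle := Set.ncard_le_ncard hun (Set.toFinite _)
  rw [Set.ncard_union_eq hdisj (Set.toFinite _) (Set.toFinite _), hMcard,
    Set.InjOn.ncard_image hjinj] at hle
  exact hle

theorem del_PM {E V F : Type} [Finite E] (vt : E × Bool → V) (fc : E × Bool → F)
    (r : Equiv.Perm (E × Bool × Bool)) (h : PM vt fc r) (hdeg : ∀ x, (r x).1 ≠ x.1)
    (hne : ∀ e, vt (e, false) ≠ vt (e, true)) (e0 : E) (θ : E → ZMod 2) (t : Bool)
    (h0 : (e0, t, false) ∈ Cut θ r) (h1 : (e0, t, true) ∈ Cut θ r) :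
    ∃ (fc' : {e // e ≠ e0} × Bool → F) (r' : Equiv.Perm ({e // e ≠ e0} × Bool × Bool)),
      PM (fun d : {e // e ≠ e0} × Bool => vt (d.1.1, d.2)) fc' r' ∧
      (Set.range fc).ncard ≤ (Set.range fc').ncard + 1 ∧
      Set.range (fun d : {e // e ≠ e0} × Bool => vt (d.1.1, d.2)) = Set.range vt ∧
      (Cut (fun e : {e // e ≠ e0} => θ e.1) r').ncard + 4 ≤ (Cut θ r).ncard := by
  classical
  let π : F → F := fun f => if f = fc (e0, true) then fc (e0, false) else f
  have hπ1 : π (fc (e0, true)) = fc (e0, false) := if_pos rfl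
  have hπ0 : π (fc (e0, false)) = fc (e0, false) := by
    by_cases hh : fc (e0, false) = fc (e0, true)
    · exact if_pos hh
    · exact if_neg hh
  have hπu : ∀ u : Bool, π (fc (e0, u)) = fc (e0, false) := by
    intro u
    cases u
    · exact hπ0
    · exact hπ1
  refine ⟨fun d => π (fc (d.1.1, d.2)), dpr r h.invol hdeg e0, ?_, ?_, ?_,
    dp_cut r h.invol hdeg e0 θ t h0 h1⟩
  · refine ⟨?_, ?_, ?_, ?_, ?_⟩
    · intro x
      exact (dpr r h.invol hdeg e0).left_inv x
    · intro x hx
      have hx2 := congrArg dpi hx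
      rw [dpi_dpr] at hx2
      by_cases he : (r (dpi x)).1 = e0
      · rw [dpg_pos he] at hx2
        have h3 := congrArg r hx2
        rw [h.invol] at h3
        exact dpU_ne _ h3
      · rw [dpg_neg he] at hx2
        exact h.ne _ hx2
    · intro x
      change vt ((dpg r e0 (dpi x)).1, (dpg r e0 (dpi x)).2.1) = vt ((dpi x).1, (dpi x).2.1)
      by_cases he : (r (dpi x)).1 = e0
      · rw [dpg_pos he, h.vt_r (dpU (r (dpi x)))]
        exact h.vt_r (dpi x)
      · rw [dpg_neg he]
        exact h.vt_r (dpi x)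
    · intro x
      change π (fc ((dpg r e0 (dpi x)).1, (dpg r e0 (dpi x)).2.2)) =
        π (fc ((dpi x).1, (dpi x).2.2))
      by_cases he : (r (dpi x)).1 = e0
      · rw [dpg_pos he, h.fc_r (dpU (r (dpi x))), ← h.fc_r (dpi x)]
        simp only [dpU]
        rw [he, hπu, hπu]
      · rw [dpg_neg he, h.fc_r (dpi x)]
    · intro w hw1 hw2 x y hxy
      -- extension of `w`
      have hr0 : ∀ z : E × Bool × Bool, z.1 = e0 → (r z).1 ≠ e0 := by
        intro z hz
        have := hdeg z
        rwa [hz] at this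
      let W : E × Bool × Bool → ZMod 2 := fun z =>
        if hz : z.1 = e0 then w (⟨(r z).1, hr0 z hz⟩, (r z).2) else w (⟨z.1, hz⟩, z.2)
      have hWpos : ∀ (z : E × Bool × Bool) (hz : z.1 = e0), W z = w (⟨(r z).1, hr0 z hz⟩, (r z).2) :=
        fun z hz => dif_pos hz
      have hWneg : ∀ (z : E × Bool × Bool) (hz : z.1 ≠ e0), W z = w (⟨z.1, hz⟩, z.2) :=
        fun z hz => dif_neg hz
      have hWi : ∀ x' : {e // e ≠ e0} × Bool × Bool, W (dpi x') = w x' := fun x' =>
        hWneg (dpi x') x'.1.2
      have hWr : ∀ z, W (r z) = W z := by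
        intro z
        by_cases hz : z.1 = e0
        · rw [hWpos z hz, hWneg (r z) (hr0 z hz)]
        · by_cases hrz : (r z).1 = e0
          · have e1 : r (r z) = z := h.invol z
            rw [hWpos (r z) hrz, hWneg z hz]
            congr 1
            apply dpi_inj
            exact e1
          · rw [hWneg (r z) hrz, hWneg z hz]
            have e2 := hw1 (⟨z.1, hz⟩, z.2)
            rw [← e2]
            congr 1
            apply dpi_inj
            rw [dpi_dpr]
            have e3 : dpi (((⟨z.1, hz⟩ : {e // e ≠ e0}), z.2)) = z := rfl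
            rw [e3, dpg_neg hrz]
            rfl
      have hWu : ∀ z : E × Bool × Bool, W (z.1, z.2.1, !z.2.2) = W z := by
        intro z
        by_cases hz : z.1 = e0
        · have e4 : W (dpU z) = W (r (dpU z)) := (hWr _).symm
          have e5 : W z = W (r z) := (hWr _).symm
          change W (dpU z) = W z
          rw [e4, e5]
          have hz1 : (r z).1 ≠ e0 := hr0 z hz
          have hz2 : (r (dpU z)).1 ≠ e0 := hr0 (dpU z) hz
          rw [hWneg _ hz1, hWneg _ hz2]
          have e6 := hw1 (⟨(r z).1, hz1⟩, (r z).2)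
          rw [← e6]
          congr 1
          apply dpi_inj
          rw [dpi_dpr]
          have e7 : dpi (((⟨(r z).1, hz1⟩ : {e // e ≠ e0}), (r z).2)) = r z := rfl
          have e8 : (r (r z)).1 = e0 := by rw [h.invol]; exact hz
          rw [e7, dpg_pos e8, h.invol]
          rfl
        · rw [hWneg z hz]
          have := hw2 (⟨z.1, hz⟩, z.2)
          rw [← this]
          exact hWneg (z.1, z.2.1, !z.2.2) hz
      have := h.trans W hWr hWu (dpi x) (dpi y) hxy
      rwa [hWi, hWi] at this
  · have hsub : Set.range fc ⊆ insert (fc (e0, true))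
        (Set.range (fun d : {e // e ≠ e0} × Bool => π (fc (d.1.1, d.2)))) := by
      rintro _ ⟨⟨e, u⟩, rfl⟩
      by_cases he : e = e0
      · subst he
        cases u
        · right
          have hd : (r (e, true, false)).1 ≠ e := hdeg (e, true, false)
          refine ⟨(⟨(r (e, true, false)).1, hd⟩, (r (e, true, false)).2.2), ?_⟩
          change π (fc ((r (e, true, false)).1, (r (e, true, false)).2.2)) = fc (e, false)
          rw [h.fc_r (e, true, false)]
          exact hπ0
        · left; rfl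
      · by_cases hf : fc (e, u) = fc (e0, true)
        · left; exact hf
        · right
          exact ⟨(⟨e, he⟩, u), if_neg hf⟩
    calc (Set.range fc).ncard ≤ (insert (fc (e0, true))
        (Set.range (fun d : {e // e ≠ e0} × Bool => π (fc (d.1.1, d.2))))).ncard :=
          Set.ncard_le_ncard hsub ((Set.finite_range _).insert _)
      _ ≤ _ := Set.ncard_insert_le _ _
  · apply Set.eq_of_subset_of_subset
    · rintro _ ⟨d, rfl⟩
      exact ⟨_, rfl⟩
    · rintro _ ⟨⟨e, u⟩, rfl⟩
      by_cases he : e = e0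
      · subst he
        have hd : (r (e, u, false)).1 ≠ e := hdeg (e, u, false)
        refine ⟨(⟨(r (e, u, false)).1, hd⟩, (r (e, u, false)).2.1), ?_⟩
        exact h.vt_r (e, u, false)
      · exact ⟨(⟨e, he⟩, u), rfl⟩

end Pool.Agent.Helper226_Obs
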