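import Pool.Agent.Helper226_Obs.FP.Defs

set_option autoImplicit false

namespace Pool.Agent.Helper226_Obs

open SimpleGraph

theorem cp_bit_not (t : Bool) : bit (!t) = bit t + 1 := by
  cases t <;> decide

theorem cp_kap_t {E : Type} (θ : E → ZMod 2) (e : E) (t u : Bool) :
    kap θ (e, !t, u) = kap θ (e, t, u) + 1 := by
  unfold kap
  simp only [cp_bit_not]
  ring

theorem cp_zz (a b c : ZMod 2) (h : a ≠ b) (h' : a ≠ c) : b = c := by
  revert a b c; decide

theorem cp_add_one_ne (a : ZMod 2) : a + 1 ≠ a := by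
  revert a; decide

theorem cp_add_self (a : ZMod 2) : a + a = 0 := by
  revert a; decide

theorem cp_eq_of_add (a b : ZMod 2) (h : a + b = 0) : a = b := by
  revert a b; decide

/-- a flag of the smaller edge set as a flag -/
def cp_emb {E : Type} {e0 : E} (x : {e // e ≠ e0} × Bool × Bool) : E × Bool × Bool := (x.1.1, x.2.1, x.2.2)

theorem cp_emb_inj {E : Type} {e0 : E} (x y : {e // e ≠ e0} × Bool × Bool) (h : cp_emb x = cp_emb y) : x = y := by
  obtain ⟨⟨a, ha⟩, b, c⟩ := x
  obtain ⟨⟨a', ha'⟩, b', c'⟩ := y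
  simp only [cp_emb, Prod.mk.injEq] at h
  obtain ⟨rfl, rfl, rfl⟩ := h
  rfl

open Classical in
/-- the new matching of the flags -/
noncomputable def cp_R {E : Type} (r : Equiv.Perm (E × Bool × Bool)) (e0 : E) (x : E × Bool × Bool) :
    E × Bool × Bool :=
  if (r x).1 = e0 then r (e0, !(r x).2.1, (r x).2.2) else r x

theorem cp_R_ne {E : Type} (r : Equiv.Perm (E × Bool × Bool)) (e0 : E) (hdeg : ∀ x, (r x).1 ≠ x.1)
    (x : E × Bool × Bool) : (cp_R r e0 x).1 ≠ e0 := by
  unfold cp_R
  split_ifs with h
  · exact hdeg (e0, !(r x).2.1, (r x).2.2)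
  · exact h

theorem cp_eq {E : Type} {e0 : E} (x : E × Bool × Bool) (h : x.1 = e0) : x = (e0, x.2.1, x.2.2) := by
  obtain ⟨a, b, c⟩ := x
  simp only at h
  rw [h]

theorem cp_R_invol {E : Type} (r : Equiv.Perm (E × Bool × Bool)) (e0 : E) (hi : ∀ x, r (r x) = x)
    (x : E × Bool × Bool) (hx : x.1 ≠ e0) : cp_R r e0 (cp_R r e0 x) = x := by
  by_cases h : (r x).1 = e0
  · have e1 : cp_R r e0 x = r (e0, !(r x).2.1, (r x).2.2) := by
      unfold cp_R
      rw [if_pos h]
    have e2 : r (cp_R r e0 x) = (e0, !(r x).2.1, (r x).2.2) := by rw [e1, hi]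
    have e3 : cp_R r e0 (cp_R r e0 x) = r (e0, !(r (cp_R r e0 x)).2.1, (r (cp_R r e0 x)).2.2) := by
      conv_lhs => unfold cp_R
      rw [if_pos]
      · rfl
      · change (r (cp_R r e0 x)).1 = e0
        rw [e2]
    rw [e3, e2]
    simp only [Bool.not_not]
    rw [← cp_eq (r x) h, hi]
  · have e1 : cp_R r e0 x = r x := by
      unfold cp_R
      rw [if_neg h]
    rw [e1]
    unfold cp_R
    rw [hi, if_neg hx]

theorem cp_R_pos {E : Type} (r : Equiv.Perm (E × Bool × Bool)) (e0 : E) (x : E × Bool × Bool)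
    (h : (r x).1 = e0) : cp_R r e0 x = r (e0, !(r x).2.1, (r x).2.2) := by
  unfold cp_R
  rw [if_pos h]

theorem cp_R_neg {E : Type} (r : Equiv.Perm (E × Bool × Bool)) (e0 : E) (x : E × Bool × Bool)
    (h : (r x).1 ≠ e0) : cp_R r e0 x = r x := by
  unfold cp_R
  rw [if_neg h]

/-- the invariance of a function on the flags at the contracted edge -/
theorem cp_parity {E V F : Type} [Finite E] (vt : E × Bool → V) (fc : E × Bool → F)
    (r : Equiv.Perm (E × Bool × Bool)) (h : PM vt fc r)
    (hne : ∀ e, vt (e, false) ≠ vt (e, true)) (e0 : E) (w : E × Bool × Bool → ZMod 2)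
    (hw : ∀ x, w (r x) = w x) (hu : ∀ x, x.1 ≠ e0 → w (x.1, x.2.1, !x.2.2) = w x) (t : Bool) :
    w (e0, t, false) = w (e0, t, true) := by
  classical
  have : Fintype E := Fintype.ofFinite E
  obtain ⟨S, hS⟩ : ∃ S : Finset (E × Bool × Bool), S = Finset.univ.filter (fun x => vt (x.1, x.2.1) = vt (e0, t)) :=
    ⟨_, rfl⟩
  have hmem : ∀ x, x ∈ S ↔ vt (x.1, x.2.1) = vt (e0, t) := by
    intro x
    rw [hS]
    simp
  have h1 : ∑ x ∈ S, w x = 0 := by
    apply Finset.sum_involution (fun x _ => r x)
    · intro a _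
      rw [hw]
      exact cp_add_self _
    · intro a _ _
      exact h.ne a
    · intro a ha
      rw [hmem] at ha ⊢
      rw [h.vt_r]
      exact ha
    · intro a _
      exact h.invol a
  obtain ⟨S', hS'⟩ : ∃ S' : Finset (E × Bool × Bool), S' = (S.erase (e0, t, false)).erase (e0, t, true) := ⟨_, rfl⟩
  have hmem' : ∀ x, x ∈ S' ↔ x ∈ S ∧ x.1 ≠ e0 := by
    intro x
    rw [hS', Finset.mem_erase, Finset.mem_erase]
    constructor
    · rintro ⟨h2, h3, h4⟩
      refine ⟨h4, ?_⟩
      intro hx
      obtain ⟨a, b, c⟩ := x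
      simp only at hx
      subst hx
      have h5 := (hmem _).1 h4
      simp only at h5
      have hb : b = t := by
        have h6 := hne a
        cases b <;> cases t
        · rfl
        · exact absurd h5 h6
        · exact absurd h5.symm h6
        · rfl
      subst hb
      cases c
      · exact h3 rfl
      · exact h2 rfl
    · rintro ⟨h2, h3⟩
      refine ⟨?_, ?_, h2⟩
      · rintro rfl
        exact h3 rfl
      · rintro rfl
        exact h3 rfl
  have h2 : ∑ x ∈ S', w x = 0 := by
    apply Finset.sum_involution (fun x _ => (x.1, x.2.1, !x.2.2))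
    · intro a ha
      rw [hu a ((hmem' a).1 ha).2]
      exact cp_add_self _
    · intro a _ _ hcon
      have := congrArg (fun z => z.2.2) hcon
      simp at this
    · intro a ha
      rw [hmem', hmem] at ha ⊢
      exact ha
    · intro a _
      simp
  have hf : (e0, t, false) ∈ S := by rw [hmem]
  have ht : (e0, t, true) ∈ S.erase (e0, t, false) := by
    rw [Finset.mem_erase, hmem]
    exact ⟨by simp, rfl⟩
  have h3 := Finset.add_sum_erase S w hf
  have h4 := Finset.add_sum_erase (S.erase (e0, t, false)) w ht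
  rw [← hS', h2, add_zero] at h4
  rw [← h4, h1] at h3
  exact cp_eq_of_add _ _ h3

theorem con_PM {E V F : Type} [Finite E] [DecidableEq V] (vt : E × Bool → V) (fc : E × Bool → F)
    (r : Equiv.Perm (E × Bool × Bool)) (h : PM vt fc r) (hdeg : ∀ x, (r x).1 ≠ x.1)
    (hne : ∀ e, vt (e, false) ≠ vt (e, true)) (e0 : E) (θ : E → ZMod 2) (u : Bool)
    (h0 : (e0, false, u) ∈ Cut θ r) (h1 : (e0, true, u) ∈ Cut θ r) :
    ∃ r' : Equiv.Perm ({e // e ≠ e0} × Bool × Bool),
      PM (fun d : {e // e ≠ e0} × Bool =>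
          if vt (d.1.1, d.2) = vt (e0, true) then vt (e0, false) else vt (d.1.1, d.2))
        (fun d : {e // e ≠ e0} × Bool => fc (d.1.1, d.2)) r' ∧
      Set.range (fun d : {e // e ≠ e0} × Bool => fc (d.1.1, d.2)) = Set.range fc ∧
      (Set.range vt).ncard ≤ (Set.range (fun d : {e // e ≠ e0} × Bool =>
          if vt (d.1.1, d.2) = vt (e0, true) then vt (e0, false) else vt (d.1.1, d.2))).ncard + 1 ∧
      (Cut (fun e : {e // e ≠ e0} => θ e.1) r').ncard + 4 ≤ (Cut θ r).ncard := by
  classical
  obtain ⟨r', hr'⟩ : ∃ r' : Equiv.Perm ({e // e ≠ e0} × Bool × Bool),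
      ∀ x, cp_emb (r' x) = cp_R r e0 (cp_emb x) := by
    let g : {e // e ≠ e0} × Bool × Bool → {e // e ≠ e0} × Bool × Bool := fun x =>
      (⟨(cp_R r e0 (cp_emb x)).1, cp_R_ne r e0 hdeg _⟩, (cp_R r e0 (cp_emb x)).2.1, (cp_R r e0 (cp_emb x)).2.2)
    have hg : ∀ x, cp_emb (g x) = cp_R r e0 (cp_emb x) := fun x => rfl
    have hinv : Function.Involutive g := by
      intro x
      apply cp_emb_inj
      rw [hg, hg]
      exact cp_R_invol r e0 h.invol _ x.1.2
    exact ⟨hinv.toPerm g, hg⟩
  have hv : ∀ (x : {e // e ≠ e0} × Bool × Bool), (cp_emb x).1 ≠ e0 := fun x => x.1.2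
  -- the merging of the vertices
  obtain ⟨π, hπ⟩ : ∃ π : V → V, π = fun v => if v = vt (e0, true) then vt (e0, false) else v := ⟨_, rfl⟩
  have hπt : ∀ t, π (vt (e0, t)) = vt (e0, false) := by
    intro t
    rw [hπ]
    cases t
    · simp
    · simp
  have hvt' : (fun d : {e // e ≠ e0} × Bool =>
          if vt (d.1.1, d.2) = vt (e0, true) then vt (e0, false) else vt (d.1.1, d.2))
      = fun d : {e // e ≠ e0} × Bool => π (vt (d.1.1, d.2)) := by
    rw [hπ]
  rw [hvt']
  have hvt_r : ∀ x : E × Bool × Bool, π (vt ((cp_R r e0 x).1, (cp_R r e0 x).2.1)) = π (vt (x.1, x.2.1)) := by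
    intro x
    by_cases hx : (r x).1 = e0
    · rw [cp_R_pos r e0 x hx, h.vt_r]
      have e := h.vt_r x
      rw [hx] at e
      rw [← e, hπt, hπt]
    · rw [cp_R_neg r e0 x hx, h.vt_r]
  have hfc_r : ∀ x : E × Bool × Bool, fc ((cp_R r e0 x).1, (cp_R r e0 x).2.2) = fc (x.1, x.2.2) := by
    intro x
    by_cases hx : (r x).1 = e0
    · rw [cp_R_pos r e0 x hx, h.fc_r]
      have e := h.fc_r x
      rw [hx] at e
      exact e
    · rw [cp_R_neg r e0 x hx, h.fc_r]
  refine ⟨r', ?_, ?_, ?_, ?_⟩
  · refine ⟨?_, ?_, ?_, ?_, ?_⟩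
    · intro x
      apply cp_emb_inj
      rw [hr', hr']
      exact cp_R_invol r e0 h.invol _ (hv x)
    · intro x hx
      have e := hr' x
      rw [hx] at e
      by_cases hc : (r (cp_emb x)).1 = e0
      · rw [cp_R_pos r e0 _ hc] at e
        have e1 := congrArg r e
        rw [h.invol] at e1
        have e2 := congrArg (fun z => z.2.1) e1
        simp at e2
      · rw [cp_R_neg r e0 _ hc] at e
        exact h.ne _ e.symm
    · intro x
      have e := hvt_r (cp_emb x)
      rw [← hr'] at e
      exact e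
    · intro x
      have e := hfc_r (cp_emb x)
      rw [← hr'] at e
      exact e
    · intro w' hw1 hw2
      -- extension of the function
      obtain ⟨W, hW⟩ : ∃ W : E × Bool × Bool → ZMod 2, ∀ x, W (cp_emb x) = w' x := by
        refine ⟨fun x => if hx : x.1 ≠ e0 then w' (⟨x.1, hx⟩, x.2.1, x.2.2) else 0, ?_⟩
        intro x
        exact dif_pos (hv x)
      have hlift : ∀ x : E × Bool × Bool, x.1 ≠ e0 → ∃ y : {e // e ≠ e0} × Bool × Bool, cp_emb y = x :=
        fun x hx => ⟨(⟨x.1, hx⟩, x.2.1, x.2.2), rfl⟩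
      have hW1 : ∀ x : E × Bool × Bool, x.1 ≠ e0 → W (cp_R r e0 x) = W x := by
        intro x hx
        obtain ⟨y, rfl⟩ := hlift x hx
        rw [← hr', hW, hW, hw1]
      have hW2 : ∀ x : E × Bool × Bool, x.1 ≠ e0 → W (x.1, x.2.1, !x.2.2) = W x := by
        intro x hx
        obtain ⟨y, rfl⟩ := hlift x hx
        rw [hW, ← hw2, ← hW]
        rfl
      obtain ⟨w, hwdef⟩ : ∃ w : E × Bool × Bool → ZMod 2, w = fun x => if x.1 = e0 then W (r x) else W x := ⟨_, rfl⟩
      have hwp : ∀ x, x.1 = e0 → w x = W (r x) := fun x hx => by rw [hwdef]; exact if_pos hx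
      have hwn : ∀ x, x.1 ≠ e0 → w x = W x := fun x hx => by rw [hwdef]; exact if_neg hx
      have ha : ∀ x, w (r x) = w x := by
        intro x
        by_cases hx : x.1 = e0
        · have hrx : (r x).1 ≠ e0 := by
            rw [← hx]
            exact hdeg x
          rw [hwp x hx, hwn _ hrx]
        · by_cases hrx : (r x).1 = e0
          · rw [hwp _ hrx, hwn x hx, h.invol]
          · rw [hwn x hx, hwn _ hrx, ← cp_R_neg r e0 x hrx, hW1 x hx]
      have hb : ∀ t s, w (e0, t, s) = w (e0, !t, s) := by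
        intro t s
        rw [hwp _ rfl, hwp _ rfl]
        have e := hW1 (r (e0, t, s)) (hdeg (e0, t, s))
        rw [cp_R_pos r e0 _ (by rw [h.invol]), h.invol] at e
        exact e.symm
      have hu' : ∀ x, x.1 ≠ e0 → w (x.1, x.2.1, !x.2.2) = w x := by
        intro x hx
        rw [hwn x hx, hwn _ (by exact hx)]
        exact hW2 x hx
      have hc := cp_parity vt fc r h hne e0 w ha hu'
      have hd : ∀ x, w (x.1, x.2.1, !x.2.2) = w x := by
        intro x
        by_cases hx : x.1 = e0
        · obtain ⟨a, b, c⟩ := x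
          simp only at hx
          subst hx
          have := hc b
          cases c
          · exact this.symm
          · exact this
        · exact hu' x hx
      have ht := h.trans w ha hd
      intro x y hxy
      have hxy' : π (vt ((cp_emb x).1, (cp_emb x).2.1)) = π (vt ((cp_emb y).1, (cp_emb y).2.1)) := hxy
      rw [← hW x, ← hW y, ← hwn _ (hv x), ← hwn _ (hv y)]
      by_cases he : vt ((cp_emb x).1, (cp_emb x).2.1) = vt ((cp_emb y).1, (cp_emb y).2.1)
      · exact ht _ _ he
      · by_cases hx1 : vt ((cp_emb x).1, (cp_emb x).2.1) = vt (e0, true)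
        · have hy1 : vt ((cp_emb y).1, (cp_emb y).2.1) ≠ vt (e0, true) := fun hh => he (hx1.trans hh.symm)
          have hy0 : vt ((cp_emb y).1, (cp_emb y).2.1) = vt (e0, false) := by
            rw [hπ] at hxy'
            simp only [if_pos hx1, if_neg hy1] at hxy'
            exact hxy'.symm
          rw [ht _ (e0, true, false) hx1, ht _ (e0, false, false) hy0]
          exact hb true false
        · by_cases hy1 : vt ((cp_emb y).1, (cp_emb y).2.1) = vt (e0, true)
          · have hx0 : vt ((cp_emb x).1, (cp_emb x).2.1) = vt (e0, false) := by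
              rw [hπ] at hxy'
              simp only [if_neg hx1, if_pos hy1] at hxy'
              exact hxy'
            rw [ht _ (e0, false, false) hx0, ht _ (e0, true, false) hy1]
            exact hb false false
          · exfalso
            apply he
            rw [hπ] at hxy'
            simp only [if_neg hx1, if_neg hy1] at hxy'
            exact hxy'
  · ext f
    constructor
    · rintro ⟨d, rfl⟩
      exact ⟨(d.1.1, d.2), rfl⟩
    · rintro ⟨⟨e, s⟩, rfl⟩
      by_cases he : e = e0
      · subst he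
        refine ⟨(⟨(r (e, false, s)).1, hdeg (e, false, s)⟩, (r (e, false, s)).2.2), ?_⟩
        exact h.fc_r (e, false, s)
      · exact ⟨(⟨e, he⟩, s), rfl⟩
  · have hsub : Set.range vt ⊆ insert (vt (e0, true)) (Set.range (fun d : {e // e ≠ e0} × Bool => π (vt (d.1.1, d.2)))) := by
      rintro _ ⟨⟨e, t⟩, rfl⟩
      by_cases hv1 : vt (e, t) = vt (e0, true)
      · exact Set.mem_insert_iff.2 (Or.inl hv1)
      · refine Set.mem_insert_iff.2 (Or.inr ?_)
        have hπv : π (vt (e, t)) = vt (e, t) := by
          rw [hπ]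
          exact if_neg hv1
        by_cases he : e = e0
        · subst he
          refine ⟨(⟨(r (e, t, false)).1, hdeg (e, t, false)⟩, (r (e, t, false)).2.1), ?_⟩
          have e1 := h.vt_r (e, t, false)
          simp only at e1 ⊢
          rw [e1]
          exact hπv
        · exact ⟨(⟨e, he⟩, t), hπv⟩
    exact (Set.ncard_le_ncard hsub (Set.toFinite _)).trans (Set.ncard_insert_le _ _)
  · -- the cut flags
    have hkap : ∀ x : {e // e ≠ e0} × Bool × Bool, kap (fun e : {e // e ≠ e0} => θ e.1) x = kap θ (cp_emb x) :=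
      fun x => rfl
    have hcut : ∀ x, x ∈ Cut (fun e : {e // e ≠ e0} => θ e.1) r' ↔
        kap θ (cp_R r e0 (cp_emb x)) = kap θ (cp_emb x) := by
      intro x
      change kap (fun e : {e // e ≠ e0} => θ e.1) (r' x) = kap (fun e : {e // e ≠ e0} => θ e.1) x ↔ _
      rw [hkap, hkap, hr']
    have hC : ∀ x, x ∈ Cut θ r ↔ kap θ (r x) = kap θ x := fun x => Iff.rfl
    have hCr : ∀ x, x ∈ Cut θ r → r x ∈ Cut θ r := by
      intro x hx
      rw [hC] at hx ⊢
      rw [h.invol, hx]
    obtain ⟨g, hg⟩ : ∃ g : {e // e ≠ e0} × Bool × Bool → E × Bool × Bool,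
        g = fun x => if (r (cp_emb x)).1 = e0 ∧ r (cp_emb x) ∉ Cut θ r
          then (e0, !(r (cp_emb x)).2.1, (r (cp_emb x)).2.2) else cp_emb x := ⟨_, rfl⟩
    have hgp : ∀ x, ((r (cp_emb x)).1 = e0 ∧ r (cp_emb x) ∉ Cut θ r) →
        g x = (e0, !(r (cp_emb x)).2.1, (r (cp_emb x)).2.2) := fun x hx => by rw [hg]; exact if_pos hx
    have hgn : ∀ x, ¬ ((r (cp_emb x)).1 = e0 ∧ r (cp_emb x) ∉ Cut θ r) → g x = cp_emb x :=
      fun x hx => by rw [hg]; exact if_neg hx
    -- at a cut flag next to `e0` exactly one of the two flags is cut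
    have hone : ∀ x, x ∈ Cut (fun e : {e // e ≠ e0} => θ e.1) r' → (r (cp_emb x)).1 = e0 →
        (r (cp_emb x) ∈ Cut θ r ↔ (e0, !(r (cp_emb x)).2.1, (r (cp_emb x)).2.2) ∉ Cut θ r) := by
      intro x hx hx0
      rw [hcut, cp_R_pos r e0 _ hx0] at hx
      rw [hC, hC, h.invol, hx, cp_kap_t, ← cp_eq (r (cp_emb x)) hx0]
      constructor
      · intro h2 h3
        rw [h2] at h3
        exact cp_add_one_ne _ h3.symm
      · intro h2
        by_contra h3
        exact h2 (cp_zz (kap θ (r (cp_emb x))) _ _ (fun hh => h3 hh.symm) (fun hh => cp_add_one_ne _ hh.symm))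
    obtain ⟨M, hM⟩ : ∃ M : Finset (E × Bool × Bool),
        M = {(e0, false, u), (e0, true, u), r (e0, false, u), r (e0, true, u)} := ⟨_, rfl⟩
    have hMcard : M.card = 4 := by
      have n1 : (e0, false, u) ≠ (e0, true, u) := by simp
      have n2 : r (e0, false, u) ≠ r (e0, true, u) := fun hh => n1 (r.injective hh)
      have n3 : ∀ t t', (e0, t, u) ≠ r (e0, t', u) := by
        intro t t' hh
        exact hdeg (e0, t', u) (by rw [← hh])
      rw [hM, Finset.card_insert_of_notMem, Finset.card_insert_of_notMem, Finset.card_insert_of_notMem,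
        Finset.card_singleton]
      · rw [Finset.mem_singleton]
        exact n2
      · rw [Finset.mem_insert, Finset.mem_singleton]
        rintro (hh | hh)
        · exact n3 _ _ hh
        · exact n3 _ _ hh
      · rw [Finset.mem_insert, Finset.mem_insert, Finset.mem_singleton]
        rintro (hh | hh | hh)
        · exact n1 hh
        · exact n3 _ _ hh
        · exact n3 _ _ hh
    have hMsub : (M : Set (E × Bool × Bool)) ⊆ Cut θ r := by
      intro x hx
      rw [hM] at hx
      simp only [Finset.coe_insert, Finset.coe_singleton, Set.mem_insert_iff, Set.mem_singleton_iff] at hx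
      rcases hx with rfl | rfl | rfl | rfl
      · exact h0
      · exact h1
      · exact hCr _ h0
      · exact hCr _ h1
    have hall : ∀ t, (e0, t, u) ∈ Cut θ r := by
      intro t
      cases t
      · exact h0
      · exact h1
    have hmaps : ∀ x ∈ Cut (fun e : {e // e ≠ e0} => θ e.1) r', g x ∈ Cut θ r \ (M : Set (E × Bool × Bool)) := by
      intro x hx
      have key : (r (cp_emb x)).1 = e0 → (r (cp_emb x)).2.2 ≠ u := by
        intro hx0 hxu
        have h2 := hone x hx hx0
        rw [cp_eq (r (cp_emb x)) hx0, hxu] at h2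
        simp only at h2
        exact (h2.1 (hall _)) (hall _)
      by_cases hc : (r (cp_emb x)).1 = e0 ∧ r (cp_emb x) ∉ Cut θ r
      · rw [hgp x hc]
        have h2 := hone x hx hc.1
        constructor
        · by_contra hcon
          exact hc.2 (h2.2 hcon)
        · intro hcon
          rw [hM] at hcon
          simp only [Finset.coe_insert, Finset.coe_singleton, Set.mem_insert_iff, Set.mem_singleton_iff] at hcon
          rcases hcon with hh | hh | hh | hh
          · exact key hc.1 (congrArg (fun z => z.2.2) hh)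
          · exact key hc.1 (congrArg (fun z => z.2.2) hh)
          · exact hdeg (e0, false, u) (by rw [← hh])
          · exact hdeg (e0, true, u) (by rw [← hh])
      · rw [hgn x hc]
        constructor
        · by_cases hx0 : (r (cp_emb x)).1 = e0
          · have h3 : r (cp_emb x) ∈ Cut θ r := by
              by_contra hcon
              exact hc ⟨hx0, hcon⟩
            have h4 := hCr _ h3
            rw [h.invol] at h4
            exact h4
          · rw [hcut, cp_R_neg r e0 _ hx0] at hx
            exact hx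
        · intro hcon
          rw [hM] at hcon
          simp only [Finset.coe_insert, Finset.coe_singleton, Set.mem_insert_iff, Set.mem_singleton_iff] at hcon
          rcases hcon with hh | hh | hh | hh
          · exact hv x (by rw [hh])
          · exact hv x (by rw [hh])
          · have e1 : r (cp_emb x) = (e0, false, u) := by rw [hh, h.invol]
            exact key (by rw [e1]) (by rw [e1])
          · have e1 : r (cp_emb x) = (e0, true, u) := by rw [hh, h.invol]
            exact key (by rw [e1]) (by rw [e1])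
    have hinj : Set.InjOn g (Cut (fun e : {e // e ≠ e0} => θ e.1) r') := by
      intro x _ y _ hxy
      by_cases hx : (r (cp_emb x)).1 = e0 ∧ r (cp_emb x) ∉ Cut θ r
      · by_cases hy : (r (cp_emb y)).1 = e0 ∧ r (cp_emb y) ∉ Cut θ r
        · rw [hgp x hx, hgp y hy] at hxy
          simp only [Prod.mk.injEq, true_and] at hxy
          apply cp_emb_inj
          apply r.injective
          rw [cp_eq (r (cp_emb x)) hx.1, cp_eq (r (cp_emb y)) hy.1, hxy.2]
          have h5 : (r (cp_emb x)).2.1 = (r (cp_emb y)).2.1 := by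
            have h6 := congrArg (fun b => !b) hxy.1
            simpa using h6
          rw [h5]
        · rw [hgp x hx, hgn y hy] at hxy
          exact absurd (by rw [← hxy]) (hv y)
      · by_cases hy : (r (cp_emb y)).1 = e0 ∧ r (cp_emb y) ∉ Cut θ r
        · rw [hgn x hx, hgp y hy] at hxy
          exact absurd (by rw [hxy]) (hv x)
        · rw [hgn x hx, hgn y hy] at hxy
          exact cp_emb_inj _ _ hxy
    have hle := Set.ncard_le_ncard_of_injOn g hmaps hinj (Set.toFinite _)
    have hsum := Set.ncard_sdiff_add_ncard_of_subset hMsub (Set.toFinite _)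
    rw [Set.ncard_coe_finset, hMcard] at hsum
    omega

end Pool.Agent.Helper226_Obs
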