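import Pool.Agent.Helper226_Obs.FP.Defs

set_option autoImplicit false

namespace Pool.Agent.Helper226_Obs

open SimpleGraph

theorem del_conn {E V F : Type} [Fintype E] (vt : E × Bool → V) (fc : E × Bool → F)
    (r : Equiv.Perm (E × Bool × Bool)) (h : PM vt fc r) (hconn : ConnV vt)
    (hfc : ∀ e, fc (e, false) ≠ fc (e, true)) (e0 : E) :
    ConnV (fun d : {e // e ≠ e0} × Bool => vt (d.1.1, d.2)) := by
  classical
  intro w hw d d'
  have h2 : ∀ a : ZMod 2, a + a = 0 := by decide
  have key : w (vt (e0, false)) = w (vt (e0, true)) := by
    have h0 : ∑ x ∈ Finset.univ.filter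
        (fun x : E × Bool × Bool => fc (x.1, x.2.2) = fc (e0, false)), w (vt (x.1, x.2.1)) = 0 := by
      refine Finset.sum_involution (fun x _ => r x) ?_ ?_ ?_ ?_
      · intro x _
        rw [h.vt_r x]
        exact h2 _
      · intro x _ _
        exact h.ne x
      · intro x hx
        simp only [Finset.mem_filter, Finset.mem_univ, true_and] at hx ⊢
        rw [h.fc_r x]
        exact hx
      · intro x _
        exact h.invol x
    have h1 : ∑ x ∈ Finset.univ.filter
        (fun x : E × Bool × Bool => fc (x.1, x.2.2) = fc (e0, false)), w (vt (x.1, x.2.1)) =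
        w (vt (e0, false)) + w (vt (e0, true)) := by
      rw [Finset.sum_filter, Fintype.sum_prod_type, Finset.sum_eq_single e0]
      · rw [Fintype.sum_prod_type]
        simp only [Fintype.sum_bool]
        have hne : ¬ (fc (e0, true) = fc (e0, false)) := fun hh => hfc e0 hh.symm
        simp [hne, add_comm]
      · intro e _ he
        have hwe := hw (⟨e, he⟩, false)
        simp only [flp_apply, Bool.not_false] at hwe
        rw [Fintype.sum_prod_type]
        simp only [Fintype.sum_bool]
        rw [hwe]
        exact h2 _
      · intro hh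
        exact absurd (Finset.mem_univ e0) hh
    rw [h1] at h0
    generalize w (vt (e0, false)) = a at h0 ⊢
    generalize w (vt (e0, true)) = b at h0 ⊢
    revert a b
    decide
  have hall : ∀ dd, w (vt dd) = w (vt (flp dd)) := by
    rintro ⟨e, t⟩
    by_cases he : e = e0
    · subst he
      cases t
      · exact key
      · exact key.symm
    · exact hw (⟨e, he⟩, t)
  exact hconn w hall (d.1.1, d.2) (d'.1.1, d'.2)

theorem con_conn {E V : Type} [DecidableEq V] (vt : E × Bool → V) (hconn : ConnV vt) (e0 : E) :
    ConnV (fun d : {e // e ≠ e0} × Bool =>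
      if vt (d.1.1, d.2) = vt (e0, true) then vt (e0, false) else vt (d.1.1, d.2)) := by
  intro w hw d d'
  have hall : ∀ dd, w (if vt dd = vt (e0, true) then vt (e0, false) else vt dd) =
      w (if vt (flp dd) = vt (e0, true) then vt (e0, false) else vt (flp dd)) := by
    have key : (if vt (e0, false) = vt (e0, true) then vt (e0, false) else vt (e0, false)) =
        (if vt (e0, true) = vt (e0, true) then vt (e0, false) else vt (e0, true)) := by
      simp
    rintro ⟨e, t⟩
    by_cases he : e = e0
    · subst he
      cases t
      · exact congrArg w key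
      · exact (congrArg w key).symm
    · exact hw (⟨e, he⟩, t)
  exact hconn (fun v => w (if v = vt (e0, true) then vt (e0, false) else v)) hall
    (d.1.1, d.2) (d'.1.1, d'.2)

end Pool.Agent.Helper226_Obs
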