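import Pool.Agent.Helper226_Obs.FP.Defs

set_option autoImplicit false

namespace Pool.Agent.Helper226_Obs

open SimpleGraph

section DelEdge

open Equiv

theorem de_inv {D α : Type} (π : Perm D) (f : D → α) (h : ∀ x, f (π x) = f x) {x y : D}
    (hxy : π.SameCycle x y) : f x = f y := by
  obtain ⟨i, rfl⟩ := hxy
  have hn : ∀ (n : ℕ) (z : D), f ((π ^ n) z) = f z := by
    intro n
    induction n with
    | zero => intro z; rfl
    | succ n ih =>
      intro z
      rw [pow_succ, Perm.mul_apply, ih, h]
  rcases Int.eq_nat_or_neg i with ⟨n, rfl | rfl⟩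
  · rw [zpow_natCast, hn]
  · have h1 := hn n ((π ^ (-(n:ℤ))) x)
    rw [← h1, ← zpow_natCast, ← Perm.mul_apply, ← zpow_add, add_neg_cancel, zpow_zero,
      Perm.one_apply]

/-- Different orbits. -/
theorem de_diff {D D' : Type} [Finite D] [Finite D'] (inc : D' → D) (p q : D) (φ : Perm D)
    (φ' : Perm D')
    (hsurj : ∀ y, y ≠ p → y ≠ q → ∃ x, inc x = y)
    (h1 : ∀ x, φ (inc x) ≠ p → φ (inc x) ≠ q → inc (φ' x) = φ (inc x))
    (h2 : ∀ x, φ (inc x) = p → inc (φ' x) = φ q)
    (h3 : ∀ x, φ (inc x) = q → inc (φ' x) = φ p)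
    (hpq : ¬ φ.SameCycle p q) (hp : φ p ≠ p) :
    Nat.card (Quotient (Perm.SameCycle.setoid φ)) ≤
      Nat.card (Quotient (Perm.SameCycle.setoid φ')) + 1 := by
  classical
  let Q := Quotient (Perm.SameCycle.setoid φ)
  let Q' := Quotient (Perm.SameCycle.setoid φ')
  let mk : D → Q := fun y => Quotient.mk (Perm.SameCycle.setoid φ) y
  have mk_eq : ∀ y z, mk y = mk z ↔ φ.SameCycle y z := fun y z => by
    show Quotient.mk (Perm.SameCycle.setoid φ) y = Quotient.mk (Perm.SameCycle.setoid φ) z ↔ _
    exact Quotient.eq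
  have mk_φ : ∀ y, mk (φ y) = mk y := fun y => (mk_eq _ _).2 (Perm.SameCycle.refl _ _).apply_left
  let f : D' → Q := fun x => if mk (inc x) = mk q then mk p else mk (inc x)
  have hpq' : mk p ≠ mk q := fun h => hpq ((mk_eq _ _).1 h)
  have hf : ∀ x, f (φ' x) = f x := by
    intro x
    show (if mk (inc (φ' x)) = mk q then mk p else mk (inc (φ' x)))
      = (if mk (inc x) = mk q then mk p else mk (inc x))
    by_cases hp1 : φ (inc x) = p
    · have e1 : mk (inc x) = mk p := by rw [← mk_φ, hp1]
      rw [h2 x hp1, mk_φ, if_pos rfl, e1, if_neg hpq']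
    · by_cases hq1 : φ (inc x) = q
      · have e1 : mk (inc x) = mk q := by rw [← mk_φ, hq1]
        rw [h3 x hq1, mk_φ, if_neg hpq', e1, if_pos rfl]
      · rw [h1 x hp1 hq1, mk_φ]
  let F : Q' → Q := Quotient.lift f (fun x y hxy => de_inv φ' f hf hxy)
  have hF : ∀ x : D', F (Quotient.mk _ x) = f x := fun x => rfl
  let F' : Option Q' → Q := fun o => o.elim (mk q) F
  have hs : Function.Surjective F' := by
    intro c
    obtain ⟨y, rfl⟩ := Quotient.exists_rep c
    change ∃ a, F' a = mk y
    by_cases hq1 : mk y = mk q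
    · exact ⟨none, hq1.symm⟩
    · by_cases hp1 : mk y = mk p
      · obtain ⟨x, hx⟩ := hsurj (φ p) hp (fun h => hpq (by rw [← h]; exact
          (Perm.SameCycle.refl _ _).apply_right))
        refine ⟨some (Quotient.mk _ x), ?_⟩
        show f x = mk y
        show (if mk (inc x) = mk q then mk p else mk (inc x)) = mk y
        rw [hx, mk_φ, if_neg hpq', hp1]
      · obtain ⟨x, hx⟩ := hsurj y (fun h => hp1 (by rw [h])) (fun h => hq1 (by rw [h]))
        refine ⟨some (Quotient.mk _ x), ?_⟩
        show (if mk (inc x) = mk q then mk p else mk (inc x)) = mk y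
        rw [hx, if_neg hq1]
  have hc := Nat.card_le_card_of_surjective F' hs
  have e : Nat.card (Option Q') = Nat.card Q' + 1 := Finite.card_option
  rw [e] at hc
  exact hc

/-- The same orbit. -/
theorem de_same {D D' : Type} [Finite D] [Finite D'] (inc : D' → D) (p q : D) (φ : Perm D)
    (φ' : Perm D') (hne : p ≠ q) (hp : ∀ x, inc x ≠ p) 
    (hsurj : ∀ y, y ≠ p → y ≠ q → ∃ x, inc x = y)
    (h1 : ∀ x, φ (inc x) ≠ p → φ (inc x) ≠ q → inc (φ' x) = φ (inc x))
    (h2 : ∀ x, φ (inc x) = p → inc (φ' x) = φ q)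
    (h3 : ∀ x, φ (inc x) = q → inc (φ' x) = φ p)
    (hpq : φ.SameCycle p q) (hp1 : φ p ≠ p) (hq1 : φ q ≠ q) :
    ∃ F : Quotient (Perm.SameCycle.setoid φ') → Option (Quotient (Perm.SameCycle.setoid φ)),
      (∀ c, c ≠ Quotient.mk _ p → ∃ a, F a = some c) ∧
      (φ p ≠ q → ∃ a, F a = some (Quotient.mk _ p)) ∧ (φ q ≠ p → ∃ a, F a = none) := by
  classical
  let Q := Quotient (Perm.SameCycle.setoid φ)
  let mk : D → Q := fun y => Quotient.mk (Perm.SameCycle.setoid φ) y
  have mk_eq : ∀ y z, mk y = mk z ↔ φ.SameCycle y z := fun y z => by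
    show Quotient.mk (Perm.SameCycle.setoid φ) y = Quotient.mk (Perm.SameCycle.setoid φ) z ↔ _
    exact Quotient.eq
  have mk_φ : ∀ y, mk (φ y) = mk y := fun y => (mk_eq _ _).2 (Perm.SameCycle.refl _ _).apply_left
  have mk_pow : ∀ (j : ℕ) y, mk ((φ ^ j) y) = mk y := by
    intro j
    induction j with
    | zero => intro y; rfl
    | succ j ih => intro y; rw [pow_succ, Perm.mul_apply, ih, mk_φ]
  have hpow : ∀ (j : ℕ) y, (φ ^ (j + 1)) y = φ ((φ ^ j) y) := fun j y => by
    rw [pow_succ', Perm.mul_apply]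
  have hex : ∃ k : ℕ, (φ ^ k) p = q := by
    obtain ⟨k, -, hk⟩ := hpq.exists_pow_eq'
    exact ⟨k, hk⟩
  let k := Nat.find hex
  have hk : (φ ^ k) p = q := Nat.find_spec hex
  have hkmin : ∀ j, j < k → (φ ^ j) p ≠ q := fun j hj => Nat.find_min hex hj
  have hk1 : 1 ≤ k := by
    by_contra hc
    have hk0 : k = 0 := by omega
    rw [hk0] at hk
    exact hne hk
  have hnop : ∀ j, 1 ≤ j → j ≤ k → (φ ^ j) p ≠ p := by
    intro j hj hjk hc
    have h4 : (φ ^ (k - j)) p = q := by
      have h5 : (φ ^ (k - j)) ((φ ^ j) p) = q := by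
        rw [← Perm.mul_apply, ← pow_add, Nat.sub_add_cancel hjk, hk]
      rwa [hc] at h5
    exact hkmin (k - j) (by omega) h4
  let A : D' → Prop := fun x => ∃ j, 1 ≤ j ∧ j < k ∧ inc x = (φ ^ j) p
  have hA : ∀ x, A (φ' x) ↔ A x := by
    intro x
    constructor
    · rintro ⟨j, hj1, hjk, hj⟩
      by_cases hxp : φ (inc x) = p
      · exfalso
        rw [h2 x hxp] at hj
        obtain ⟨i, rfl⟩ : ∃ i, j = i + 1 := ⟨j - 1, by omega⟩
        rw [hpow] at hj
        have h5 := (φ.injective hj).symm
        exact hkmin i (by omega) h5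
      · by_cases hxq : φ (inc x) = q
        · obtain ⟨i, hi⟩ : ∃ i, k = i + 1 := ⟨k - 1, by omega⟩
          have h4 : φ ((φ ^ i) p) = φ (inc x) := by rw [hxq, ← hpow, ← hi, hk]
          have h5 := φ.injective h4
          refine ⟨i, ?_, by omega, h5.symm⟩
          by_contra hc
          have hi0 : i = 0 := by omega
          rw [hi0] at h5
          exact hp x h5.symm
        · rw [h1 x hxp hxq] at hj
          obtain ⟨i, rfl⟩ : ∃ i, j = i + 1 := ⟨j - 1, by omega⟩
          rw [hpow] at hj
          have h5 := φ.injective hj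
          refine ⟨i, ?_, by omega, h5⟩
          by_contra hc
          have hi0 : i = 0 := by omega
          rw [hi0] at h5
          exact hp x h5
    · rintro ⟨j, hj1, hjk, hj⟩
      have h4 : φ (inc x) = (φ ^ (j + 1)) p := by rw [hj, hpow]
      by_cases hxq : φ (inc x) = q
      · refine ⟨1, le_refl 1, by omega, ?_⟩
        rw [h3 x hxq, pow_one]
      · have hjk' : j + 1 < k := by
          rcases Nat.lt_or_ge (j + 1) k with h | h
          · exact h
          · exfalso
            have : j + 1 = k := by omega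
            rw [this, hk] at h4
            exact hxq h4
        have hxp : φ (inc x) ≠ p := by
          rw [h4]
          exact hnop (j + 1) (by omega) (by omega)
        exact ⟨j + 1, by omega, hjk', by rw [h1 x hxp hxq, h4]⟩
  have hsame : ∀ x, mk (inc (φ' x)) = mk p ↔ mk (inc x) = mk p := by
    have hpq' : mk p = mk q := (mk_eq _ _).2 hpq
    intro x
    by_cases hxp : φ (inc x) = p
    · have e1 : mk (inc x) = mk p := by rw [← mk_φ, hxp]
      have e2 : mk (inc (φ' x)) = mk p := by rw [h2 x hxp, mk_φ, hpq']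
      exact ⟨fun _ => e1, fun _ => e2⟩
    · by_cases hxq : φ (inc x) = q
      · have e1 : mk (inc x) = mk p := by rw [← mk_φ, hxq, hpq']
        have e2 : mk (inc (φ' x)) = mk p := by rw [h3 x hxq, mk_φ]
        exact ⟨fun _ => e1, fun _ => e2⟩
      · rw [h1 x hxp hxq, mk_φ]
  have hsame2 : ∀ x, mk (inc x) ≠ mk p → mk (inc (φ' x)) = mk (inc x) := by
    have hpq' : mk p = mk q := (mk_eq _ _).2 hpq
    intro x hx
    by_cases hxp : φ (inc x) = p
    · exact absurd (by rw [← mk_φ, hxp]) hx
    · by_cases hxq : φ (inc x) = q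
      · exact absurd (by rw [← mk_φ, hxq, hpq']) hx
      · rw [h1 x hxp hxq, mk_φ]
  let f : D' → Option Q := fun x =>
    if mk (inc x) = mk p then (if A x then some (mk p) else none) else some (mk (inc x))
  have hf : ∀ x, f (φ' x) = f x := by
    intro x
    show (if mk (inc (φ' x)) = mk p then (if A (φ' x) then some (mk p) else none)
        else some (mk (inc (φ' x)))) =
      (if mk (inc x) = mk p then (if A x then some (mk p) else none) else some (mk (inc x)))
    by_cases hx : mk (inc x) = mk p
    · rw [if_pos hx, if_pos ((hsame x).2 hx)]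
      by_cases ha : A x
      · rw [if_pos ha, if_pos ((hA x).2 ha)]
      · rw [if_neg ha, if_neg (fun h => ha ((hA x).1 h))]
    · rw [if_neg hx, if_neg (fun h => hx ((hsame x).1 h)), hsame2 x hx]
  refine ⟨Quotient.lift f (fun x y hxy => de_inv φ' f hf hxy), ?_, ?_, ?_⟩
  · intro c hc
    obtain ⟨y, rfl⟩ := Quotient.exists_rep c
    have hc' : mk y ≠ mk p := hc
    obtain ⟨x, hx⟩ := hsurj y (fun h => hc' (by rw [h]))
      (fun h => hc' (by rw [h]; exact ((mk_eq _ _).2 hpq).symm))
    refine ⟨Quotient.mk _ x, ?_⟩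
    show (if mk (inc x) = mk p then (if A x then some (mk p) else none) else some (mk (inc x)))
      = some (mk y)
    rw [hx, if_neg hc']
  · intro h
    obtain ⟨x, hx⟩ := hsurj (φ p) hp1 h
    refine ⟨Quotient.mk _ x, ?_⟩
    show (if mk (inc x) = mk p then (if A x then some (mk p) else none) else some (mk (inc x)))
      = some (mk p)
    have h4 : A x := by
      refine ⟨1, le_refl 1, ?_, by rw [hx, pow_one]⟩
      by_contra hc
      have hk1' : k = 1 := by omega
      rw [hk1', pow_one] at hk
      exact h hk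
    rw [if_pos (by rw [hx, mk_φ]), if_pos h4]
  · intro h
    obtain ⟨x, hx⟩ := hsurj (φ q) h hq1
    refine ⟨Quotient.mk _ x, ?_⟩
    show (if mk (inc x) = mk p then (if A x then some (mk p) else none) else some (mk (inc x)))
      = none
    have h4 : ¬ A x := by
      rintro ⟨j, hj1, hjk, hj⟩
      obtain ⟨i, rfl⟩ : ∃ i, j = i + 1 := ⟨j - 1, by omega⟩
      rw [hx, hpow] at hj
      have h5 := (φ.injective hj).symm
      exact hkmin i (by omega) h5
    rw [if_pos (by rw [hx, mk_φ]; exact ((mk_eq _ _).2 hpq).symm), if_neg h4]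

end DelEdge

section DelEdge2

open Equiv

variable {V : Type}

/-- The inclusion of the darts. -/
def de_inc (G : SimpleGraph V) (e : Sym2 V) (x : (G.deleteEdges {e}).Dart) : G.Dart :=
  ⟨x.toProd, (SimpleGraph.deleteEdges_adj.1 x.adj).1⟩

theorem de_inc_inj (G : SimpleGraph V) (e : Sym2 V) : Function.Injective (de_inc G e) := by
  intro x y h
  apply SimpleGraph.Dart.ext
  exact congrArg (fun z : G.Dart => z.toProd) h

theorem de_inc_edge (G : SimpleGraph V) (e : Sym2 V) (x : (G.deleteEdges {e}).Dart) :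
    (de_inc G e x).edge ≠ e := fun h => (SimpleGraph.deleteEdges_adj.1 x.adj).2 h

theorem de_inc_ne (G : SimpleGraph V) (d : G.Dart) (x : (G.deleteEdges {d.edge}).Dart) :
    de_inc G d.edge x ≠ d ∧ de_inc G d.edge x ≠ d.symm := by
  constructor
  · intro h
    exact de_inc_edge G d.edge x (by rw [h])
  · intro h
    exact de_inc_edge G d.edge x (by rw [h, SimpleGraph.Dart.edge_symm])

theorem de_inc_surj (G : SimpleGraph V) (d y : G.Dart) (h1 : y ≠ d) (h2 : y ≠ d.symm) :
    ∃ x, de_inc G d.edge x = y := by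
  refine ⟨⟨y.toProd, SimpleGraph.deleteEdges_adj.2 ⟨y.adj, fun h => ?_⟩⟩, rfl⟩
  have h3 : y.edge = d.edge := h
  rcases (SimpleGraph.dart_edge_eq_iff y d).1 h3 with h4 | h4
  · exact h1 h4
  · exact h2 h4

theorem de_finDart [Finite V] (G : SimpleGraph V) : Finite G.Dart :=
  Finite.of_injective (fun d : G.Dart => d.toProd) (fun x y h => SimpleGraph.Dart.ext x y h)

theorem de_fst_ne (G : SimpleGraph V) (d : G.Dart) : d.fst ≠ d.symm.fst := d.adj.ne

/-- The rotation system after the deletion of an edge. -/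
theorem de_rot [Finite V] (G : SimpleGraph V) (σ : Perm G.Dart) (hσ : IsRotation G σ)
    (d : G.Dart) :
    ∃ σ' : Perm (G.deleteEdges {d.edge}).Dart, IsRotation _ σ' ∧
      (∀ x, σ (de_inc G d.edge x) ≠ d → σ (de_inc G d.edge x) ≠ d.symm →
        de_inc G d.edge (σ' x) = σ (de_inc G d.edge x)) ∧
      ∀ x, (σ (de_inc G d.edge x) = d ∨ σ (de_inc G d.edge x) = d.symm) →
        de_inc G d.edge (σ' x) = σ (σ (de_inc G d.edge x)) := by
  classical
  have := de_finDart (G.deleteEdges {d.edge})
  have := de_finDart G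
  have key : ∀ x : (G.deleteEdges {d.edge}).Dart,
      (σ (de_inc G d.edge x) = d ∨ σ (de_inc G d.edge x) = d.symm) →
      σ (σ (de_inc G d.edge x)) ≠ d ∧ σ (σ (de_inc G d.edge x)) ≠ d.symm := by
    intro x hx
    obtain ⟨n1, n2⟩ := de_inc_ne G d x
    rcases hx with hx | hx
    · rw [hx]
      constructor
      · intro h
        exact n1 (σ.injective (hx.trans h.symm))
      · intro h
        have := hσ.1 d
        rw [h] at this
        exact de_fst_ne G d this.symm
    · rw [hx]
      constructor
      · intro h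
        have := hσ.1 d.symm
        rw [h] at this
        exact de_fst_ne G d this
      · intro h
        exact n2 (σ.injective (hx.trans h.symm))
  have hex : ∀ x : (G.deleteEdges {d.edge}).Dart, ∃ y : (G.deleteEdges {d.edge}).Dart,
      (σ (de_inc G d.edge x) ≠ d → σ (de_inc G d.edge x) ≠ d.symm →
        de_inc G d.edge y = σ (de_inc G d.edge x)) ∧
      ((σ (de_inc G d.edge x) = d ∨ σ (de_inc G d.edge x) = d.symm) →
        de_inc G d.edge y = σ (σ (de_inc G d.edge x))) := by
    intro x
    by_cases h : σ (de_inc G d.edge x) = d ∨ σ (de_inc G d.edge x) = d.symm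
    · obtain ⟨y, hy⟩ := de_inc_surj G d _ (key x h).1 (key x h).2
      exact ⟨y, fun h1 h2 => absurd h (by rintro (h3 | h3); exacts [h1 h3, h2 h3]), fun _ => hy⟩
    · obtain ⟨y, hy⟩ := de_inc_surj G d _ (fun h1 => h (Or.inl h1)) (fun h1 => h (Or.inr h1))
      exact ⟨y, fun _ _ => hy, fun h1 => absurd h1 h⟩
  choose b hb1 hb2 using hex
  have hinj : Function.Injective b := by
    intro x y hxy
    by_cases hx : σ (de_inc G d.edge x) = d ∨ σ (de_inc G d.edge x) = d.symm
    · by_cases hy : σ (de_inc G d.edge y) = d ∨ σ (de_inc G d.edge y) = d.symm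
      · have h1 := hb2 x hx
        rw [hxy, hb2 y hy] at h1
        exact (de_inc_inj G _ (σ.injective (σ.injective h1))).symm
      · have h1 := hb2 x hx
        rw [hxy, hb1 y (fun h => hy (Or.inl h)) (fun h => hy (Or.inr h))] at h1
        have h2 := σ.injective h1
        rcases hx with h3 | h3
        · exact absurd (h2.trans h3) (de_inc_ne G d y).1
        · exact absurd (h2.trans h3) (de_inc_ne G d y).2
    · by_cases hy : σ (de_inc G d.edge y) = d ∨ σ (de_inc G d.edge y) = d.symm
      · have h1 := hb2 y hy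
        rw [← hxy, hb1 x (fun h => hx (Or.inl h)) (fun h => hx (Or.inr h))] at h1
        have h2 := σ.injective h1
        rcases hy with h3 | h3
        · exact absurd (h2.trans h3) (de_inc_ne G d x).1
        · exact absurd (h2.trans h3) (de_inc_ne G d x).2
      · have h1 := hb1 x (fun h => hx (Or.inl h)) (fun h => hx (Or.inr h))
        rw [hxy, hb1 y (fun h => hy (Or.inl h)) (fun h => hy (Or.inr h))] at h1
        exact (de_inc_inj G _ (σ.injective h1)).symm
  let σ' : Perm (G.deleteEdges {d.edge}).Dart :=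
    Equiv.ofBijective b (Finite.injective_iff_bijective.1 hinj)
  have hσ'b : ∀ x, σ' x = b x := fun x => rfl
  refine ⟨σ', ⟨?_, ?_⟩, hb1, hb2⟩
  · intro x
    show (de_inc G d.edge (b x)).fst = (de_inc G d.edge x).fst
    by_cases hx : σ (de_inc G d.edge x) = d ∨ σ (de_inc G d.edge x) = d.symm
    · rw [hb2 x hx, hσ.1, hσ.1]
    · rw [hb1 x (fun h => hx (Or.inl h)) (fun h => hx (Or.inr h)), hσ.1]
  · have hn : ∀ (n : ℕ) (x y : (G.deleteEdges {d.edge}).Dart),
        (σ ^ n) (de_inc G d.edge x) = de_inc G d.edge y → σ'.SameCycle x y := by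
      intro n
      induction n using Nat.strong_induction_on with
      | _ n ih =>
        intro x y hxy
        rcases Nat.eq_zero_or_pos n with h0 | h0
        · subst h0
          have : x = y := de_inc_inj G _ hxy
          rw [this]
        · obtain ⟨m, rfl⟩ : ∃ m, n = m + 1 := ⟨n - 1, by omega⟩
          rw [pow_succ, Perm.mul_apply] at hxy
          by_cases hx : σ (de_inc G d.edge x) = d ∨ σ (de_inc G d.edge x) = d.symm
          · rcases Nat.eq_zero_or_pos m with hm | hm
            · subst hm
              rw [pow_zero, Perm.one_apply] at hxy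
              rw [hxy] at hx
              rcases hx with h3 | h3
              · exact absurd h3 (de_inc_ne G d y).1
              · exact absurd h3 (de_inc_ne G d y).2
            · obtain ⟨l, rfl⟩ : ∃ l, m = l + 1 := ⟨m - 1, by omega⟩
              rw [pow_succ, Perm.mul_apply, ← hb2 x hx] at hxy
              have h1 := ih l (by omega) (b x) y hxy
              exact (show σ'.SameCycle x (b x) from ⟨1, by rw [zpow_one]; rfl⟩).trans h1
          · rw [← hb1 x (fun h => hx (Or.inl h)) (fun h => hx (Or.inr h))] at hxy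
            have h1 := ih m (by omega) (b x) y hxy
            exact (show σ'.SameCycle x (b x) from ⟨1, by rw [zpow_one]; rfl⟩).trans h1
    intro x y hxy
    obtain ⟨n, -, hn'⟩ := (hσ.2 (de_inc G d.edge x) (de_inc G d.edge y) hxy).exists_pow_eq'
    exact hn n x y hn'

/-- The number of components. -/
theorem de_comp [Finite V] (G : SimpleGraph V) (u v : V) :
    Nat.card (G.deleteEdges {s(u, v)}).ConnectedComponent ≤ Nat.card G.ConnectedComponent + 1 ∧
    ((G.deleteEdges {s(u, v)}).Reachable u v →
      Nat.card (G.deleteEdges {s(u, v)}).ConnectedComponent ≤ Nat.card G.ConnectedComponent) := by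
  classical
  set G' := G.deleteEdges {s(u, v)} with hG'
  let k : V → G'.ConnectedComponent := fun x =>
    if G'.Reachable x v then G'.connectedComponentMk u else G'.connectedComponentMk x
  have hk : ∀ x y, G.Adj x y → k x = k y := by
    intro x y hxy
    show (if G'.Reachable x v then G'.connectedComponentMk u else G'.connectedComponentMk x)
      = if G'.Reachable y v then G'.connectedComponentMk u else G'.connectedComponentMk y
    by_cases he : s(x, y) = s(u, v)
    · rcases Sym2.eq_iff.1 he with ⟨rfl, rfl⟩ | ⟨rfl, rfl⟩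
      · rw [if_pos (SimpleGraph.Reachable.refl y)]
        split_ifs <;> rfl
      · rw [if_pos (SimpleGraph.Reachable.refl x)]
        split_ifs <;> rfl
    · have h1 : G'.Adj x y := SimpleGraph.deleteEdges_adj.2 ⟨hxy, he⟩
      have h2 : G'.Reachable x v ↔ G'.Reachable y v :=
        ⟨fun h => h1.reachable.symm.trans h, fun h => h1.reachable.trans h⟩
      by_cases h3 : G'.Reachable x v
      · rw [if_pos h3, if_pos (h2.1 h3)]
      · rw [if_neg h3, if_neg (fun h => h3 (h2.2 h))]
        exact SimpleGraph.ConnectedComponent.sound h1.reachable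
  have hk2 : ∀ x y, G.Reachable x y → k x = k y := by
    intro x y ⟨p⟩
    induction p with
    | nil => rfl
    | cons h _ ih => exact (hk _ _ h).trans ih
  let K : G.ConnectedComponent → G'.ConnectedComponent := fun c =>
    SimpleGraph.ConnectedComponent.lift k (fun x y p _ => hk2 x y ⟨p⟩) c
  have hK : ∀ x, K (G.connectedComponentMk x) = k x := fun x => rfl
  constructor
  · let K' : Option G.ConnectedComponent → G'.ConnectedComponent := fun o =>
      o.elim (G'.connectedComponentMk v) K
    have hs : Function.Surjective K' := by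
      intro c
      obtain ⟨x, rfl⟩ := c.exists_rep
      by_cases hx : G'.Reachable x v
      · exact ⟨none, (SimpleGraph.ConnectedComponent.sound hx).symm⟩
      · refine ⟨some (G.connectedComponentMk x), ?_⟩
        show (if G'.Reachable x v then G'.connectedComponentMk u else G'.connectedComponentMk x)
          = G'.connectedComponentMk x
        rw [if_neg hx]
    have hc := Nat.card_le_card_of_surjective K' hs
    have e : Nat.card (Option G.ConnectedComponent) = Nat.card G.ConnectedComponent + 1 :=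
      Finite.card_option
    rw [e] at hc
    exact hc
  · intro huv
    have hs : Function.Surjective K := by
      intro c
      obtain ⟨x, rfl⟩ := c.exists_rep
      refine ⟨G.connectedComponentMk x, ?_⟩
      show (if G'.Reachable x v then G'.connectedComponentMk u else G'.connectedComponentMk x)
          = G'.connectedComponentMk x
      split_ifs with h
      · exact SimpleGraph.ConnectedComponent.sound (huv.trans h.symm)
      · rfl
    exact Nat.card_le_card_of_surjective K hs

end DelEdge2

theorem embeds_deleteEdge {V : Type} [Finite V] (G : SimpleGraph V) (g : ℕ) (u v : V)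
    (huv : G.Adj u v) (h : Embeds G g) : Embeds (G.deleteEdges {s(u, v)}) g := by
  classical
  obtain ⟨σ, hσ, hE⟩ := h
  let d : G.Dart := ⟨(u, v), huv⟩
  have hd : d.edge = s(u, v) := rfl
  rw [← hd]
  obtain ⟨σ', hσ', hs1, hs2⟩ := de_rot G σ hσ d
  refine ⟨σ', hσ', ?_⟩
  have := de_finDart (G.deleteEdges {d.edge})
  have := de_finDart G
  have hφ : ∀ x : G.Dart, facePerm G σ x = σ x.symm := fun x => rfl
  have h1 : ∀ x, facePerm G σ (de_inc G d.edge x) ≠ d →
      facePerm G σ (de_inc G d.edge x) ≠ d.symm →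
      de_inc G d.edge (facePerm _ σ' x) = facePerm G σ (de_inc G d.edge x) :=
    fun x ha hb => hs1 x.symm ha hb
  have h2 : ∀ x, facePerm G σ (de_inc G d.edge x) = d →
      de_inc G d.edge (facePerm _ σ' x) = facePerm G σ d.symm := by
    intro x ha
    have h3 := hs2 x.symm (Or.inl ha)
    have h4 : σ (de_inc G d.edge x.symm) = d := ha
    rw [h4] at h3
    rw [hφ, SimpleGraph.Dart.symm_symm]
    exact h3
  have h3 : ∀ x, facePerm G σ (de_inc G d.edge x) = d.symm →
      de_inc G d.edge (facePerm _ σ' x) = facePerm G σ d := by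
    intro x ha
    have h3 := hs2 x.symm (Or.inr ha)
    have h4 : σ (de_inc G d.edge x.symm) = d.symm := ha
    rw [h4] at h3
    exact h3
  have hp1 : facePerm G σ d ≠ d := by
    intro hc
    have h4 := hσ.1 d.symm
    rw [← hφ, hc] at h4
    exact de_fst_ne G d h4
  have hq1 : facePerm G σ d.symm ≠ d.symm := by
    intro hc
    have h4 := hσ.1 d
    rw [hφ, SimpleGraph.Dart.symm_symm] at hc
    rw [hc] at h4
    exact de_fst_ne G d h4.symm
  have hedge : Nat.card (G.deleteEdges {d.edge}).edgeSet + 1 = Nat.card G.edgeSet := by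
    have : Finite G.edgeSet := Subtype.finite
    rw [SimpleGraph.edgeSet_deleteEdges, Nat.card_coe_set_eq, Nat.card_coe_set_eq]
    exact Set.ncard_sdiff_singleton_add_one d.edge_mem (Set.toFinite _)
  have hiso : ∀ w, (∀ z, ¬ G.Adj w z) → ∀ z, ¬ (G.deleteEdges {d.edge}).Adj w z :=
    fun w hw z hz => hw z (SimpleGraph.deleteEdges_adj.1 hz).1
  have hcomp := de_comp G u v
  rw [← hd] at hcomp
  by_cases hpq : (facePerm G σ).SameCycle d d.symm
  · obtain ⟨F, hF1, hF2, hF3⟩ := de_same (de_inc G d.edge) d d.symm (facePerm G σ)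
      (facePerm _ σ') d.symm_ne.symm (fun x => (de_inc_ne G d x).1) (de_inc_surj G d) h1 h2 h3
      hpq hp1 hq1
    have hdeg : ∀ y : G.Dart, σ y = y → y.edge = d.edge →
        ∀ z, ¬ (G.deleteEdges {d.edge}).Adj y.fst z := by
      intro y hy hye z hz
      obtain ⟨hz1, hz2⟩ := SimpleGraph.deleteEdges_adj.1 hz
      let w : G.Dart := ⟨(y.fst, z), hz1⟩
      have h4 : y = w := (hσ.2 y w rfl).eq_of_left hy
      have h5 : w.edge = d.edge := by rw [← h4, hye]
      exact hz2 h5
    let I : {w : V // ∀ z, ¬ (G.deleteEdges {d.edge}).Adj w z} →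
        Option (Face G σ) ⊕ {w : V // ∀ z, ¬ G.Adj w z} := fun w =>
      if h : ∀ z, ¬ G.Adj w.1 z then Sum.inr ⟨w.1, h⟩
        else if w.1 = v then Sum.inl (some (Quotient.mk _ d)) else Sum.inl none
    have hI1 : ∀ w h, (h' : ∀ z, ¬ G.Adj w z) → I ⟨w, h⟩ = Sum.inr ⟨w, h'⟩ :=
      fun w h h' => dif_pos h'
    have hI2 : ∀ h, I ⟨v, h⟩ = Sum.inl (some (Quotient.mk _ d)) := fun h =>
      (dif_neg (fun h' : ∀ z, ¬ G.Adj v z => h' u huv.symm)).trans (if_pos rfl)
    have hI3 : ∀ h, I ⟨u, h⟩ = Sum.inl none := fun h =>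
      (dif_neg (fun h' : ∀ z, ¬ G.Adj u z => h' v huv)).trans (if_neg huv.ne)
    let S : Face _ σ' ⊕ {w : V // ∀ z, ¬ (G.deleteEdges {d.edge}).Adj w z} →
        Option (Face G σ) ⊕ {w : V // ∀ z, ¬ G.Adj w z} :=
      Sum.elim (fun a => Sum.inl (F a)) I
    have hS : Function.Surjective S := by
      rintro (c | ⟨w, hw⟩)
      · rcases c with _ | c
        · by_cases h4 : facePerm G σ d.symm = d
          · rw [hφ, SimpleGraph.Dart.symm_symm] at h4
            exact ⟨Sum.inr ⟨u, hdeg d h4 rfl⟩, hI3 _⟩
          · obtain ⟨a, ha⟩ := hF3 h4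
            exact ⟨Sum.inl a, congrArg Sum.inl ha⟩
        · by_cases hc : c = Quotient.mk _ d
          · rw [hc]
            by_cases h4 : facePerm G σ d = d.symm
            · rw [hφ] at h4
              exact ⟨Sum.inr ⟨v, hdeg d.symm h4 (SimpleGraph.Dart.edge_symm d)⟩, hI2 _⟩
            · obtain ⟨a, ha⟩ := hF2 h4
              exact ⟨Sum.inl a, congrArg Sum.inl ha⟩
          · obtain ⟨a, ha⟩ := hF1 c hc
            exact ⟨Sum.inl a, congrArg Sum.inl ha⟩
      · exact ⟨Sum.inr ⟨w, hiso w hw⟩, hI1 w _ hw⟩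
    have h4 := Nat.card_le_card_of_surjective S hS
    have e : Nat.card (Option (Face G σ)) = Nat.card (Face G σ) + 1 := Finite.card_option
    rw [Nat.card_sum, Nat.card_sum, e] at h4
    have h5 := hcomp.1
    unfold numFaces at hE ⊢
    omega
  · have h4 := de_diff (de_inc G d.edge) d d.symm (facePerm G σ) (facePerm _ σ')
      (de_inc_surj G d) h1 h2 h3 hpq hp1
    have h4' : Nat.card (Face G σ) ≤ Nat.card (Face _ σ') + 1 := h4
    have h5 : Nat.card {w : V // ∀ z, ¬ G.Adj w z} ≤
        Nat.card {w : V // ∀ z, ¬ (G.deleteEdges {d.edge}).Adj w z} :=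
      Nat.card_le_card_of_injective (fun w => ⟨w.1, hiso w.1 w.2⟩)
        (fun x y hxy => Subtype.ext (congrArg (fun z => z.1) hxy))
    have h6 : (G.deleteEdges {d.edge}).Reachable u v := by
      by_contra hc
      have hQ : ∀ n : ℕ, (G.deleteEdges {d.edge}).Reachable v
          (((facePerm G σ) ^ (n + 1)) d).fst := by
        intro n
        induction n with
        | zero =>
          rw [zero_add, pow_one, hφ, hσ.1]
          exact SimpleGraph.Reachable.refl _
        | succ n ih =>
          have hnd : ((facePerm G σ) ^ (n + 1)) d ≠ d := by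
            intro hd'
            rw [hd'] at ih
            exact hc ih.symm
          have hnd' : ((facePerm G σ) ^ (n + 1)) d ≠ d.symm := by
            intro hd'
            exact hpq ⟨((n + 1 : ℕ) : ℤ), by rw [zpow_natCast]; exact hd'⟩
          rw [pow_succ', Equiv.Perm.mul_apply, hφ, hσ.1]
          obtain ⟨x, hx⟩ := de_inc_surj G d _ hnd hnd'
          rw [← hx] at ih ⊢
          exact ih.trans (SimpleGraph.Adj.reachable x.adj)
      have ho : 0 < orderOf (facePerm G σ) := orderOf_pos _
      have h7 := hQ (orderOf (facePerm G σ) - 1)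
      rw [Nat.sub_add_cancel ho, pow_orderOf_eq_one, Equiv.Perm.one_apply] at h7
      exact hc h7.symm
    have h7 := hcomp.2 h6
    unfold numFaces at hE ⊢
    omega

end Pool.Agent.Helper226_Obs
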