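import Pool.Agent.Helper226_Obs.FP.B01

set_option autoImplicit false

namespace Pool.Agent.Helper226_Obs

open SimpleGraph

theorem byp_exists {D : Type} [Finite D] (π : Equiv.Perm D) (p : D → Prop) :
    ∃ π' : Equiv.Perm {x // p x}, ∀ x, ∃ m : ℕ, (π' x : D) = (π ^ (m + 1)) x ∧
      ∀ j < m, ¬ p ((π ^ (j + 1)) x) := by
  classical
  have hex : ∀ x : {x // p x}, ∃ m : ℕ, p ((π ^ (m + 1)) x) := by
    intro x
    have h : IsOfFinOrder π := isOfFinOrder_of_finite π
    refine ⟨orderOf π - 1, ?_⟩
    have h2 : orderOf π - 1 + 1 = orderOf π := Nat.sub_add_cancel h.orderOf_pos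
    rw [h2, pow_orderOf_eq_one]
    exact x.2
  let f : {x // p x} → {x // p x} :=
    fun x => ⟨(π ^ (Nat.find (hex x) + 1)) x, Nat.find_spec (hex x)⟩
  have hinj : Function.Injective f := by
    have key : ∀ x y : {x // p x}, Nat.find (hex x) ≤ Nat.find (hex y) → f x = f y → x = y := by
      intro x y hle h
      have h1 : (π ^ (Nat.find (hex x) + 1)) (x : D) = (π ^ (Nat.find (hex y) + 1)) y :=
        congrArg Subtype.val h
      obtain ⟨k, hk⟩ := Nat.exists_eq_add_of_le hle
      have h2 : (x : D) = (π ^ k) y := by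
        have h3 : (π ^ (Nat.find (hex x) + 1)) (x : D) =
            (π ^ (Nat.find (hex x) + 1)) ((π ^ k) y) := by
          rw [h1, hk, ← Equiv.Perm.mul_apply, ← pow_add]
          congr 2
          omega
        exact (π ^ (Nat.find (hex x) + 1)).injective h3
      rcases Nat.eq_zero_or_pos k with hk0 | hpos
      · subst hk0
        exact Subtype.ext (by simpa using h2)
      · exfalso
        have h4 := Nat.find_min (hex y) (m := k - 1) (by omega)
        apply h4
        rw [Nat.sub_add_cancel hpos, ← h2]
        exact x.2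
    intro x y h
    rcases le_total (Nat.find (hex x)) (Nat.find (hex y)) with hle | hle
    · exact key x y hle h
    · exact (key y x hle h.symm).symm
  have hbij : Function.Bijective f := Finite.injective_iff_bijective.mp hinj
  exact ⟨Equiv.ofBijective f hbij,
    fun x => ⟨Nat.find (hex x), rfl, fun j hj => Nat.find_min (hex x) hj⟩⟩

theorem byp_sameCycle {D : Type} [Finite D] (π : Equiv.Perm D) (p : D → Prop)
    (π' : Equiv.Perm {x // p x})
    (h : ∀ x, ∃ m : ℕ, (π' x : D) = (π ^ (m + 1)) x ∧ ∀ j < m, ¬ p ((π ^ (j + 1)) x))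
    (x y : {x // p x}) : π'.SameCycle x y ↔ π.SameCycle (x : D) (y : D) := by
  constructor
  · intro hxy
    obtain ⟨n, hn⟩ := hxy.exists_nat_pow_eq
    rw [← hn]
    clear hn hxy
    induction n with
    | zero => simpa using Equiv.Perm.SameCycle.refl π (x : D)
    | succ n ih =>
      refine ih.trans ?_
      rw [pow_succ', Equiv.Perm.mul_apply]
      obtain ⟨m, hm, -⟩ := h ((π' ^ n) x)
      rw [hm]
      exact Equiv.Perm.sameCycle_pow_right.mpr (Equiv.Perm.SameCycle.refl _ _)
  · intro hxy
    obtain ⟨n, hn⟩ := hxy.exists_nat_pow_eq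
    clear hxy
    induction n using Nat.strong_induction_on generalizing x with
    | _ n ih =>
      rcases Nat.eq_zero_or_pos n with h0 | hpos
      · subst h0
        have : x = y := Subtype.ext (by simpa using hn)
        rw [this]
      · obtain ⟨m, hm, hm'⟩ := h x
        have hle : m + 1 ≤ n := by
          by_contra hlt
          have h1 := hm' (n - 1) (by omega)
          rw [Nat.sub_add_cancel hpos, hn] at h1
          exact h1 y.2
        have h2 := ih (n - (m + 1)) (by omega) (π' x) (by
          rw [hm, ← Equiv.Perm.mul_apply, ← pow_add, Nat.sub_add_cancel hle]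
          exact hn)
        exact (Equiv.Perm.sameCycle_apply_left.mp h2)

theorem sc_map {A B : Type} [Finite A] (π : Equiv.Perm A) (π' : Equiv.Perm B) (f : A → B)
    (h : ∀ x, f (π x) = π' (f x)) {x y : A} (hxy : π.SameCycle x y) :
    π'.SameCycle (f x) (f y) := by
  obtain ⟨n, hn⟩ := hxy.exists_nat_pow_eq
  rw [← hn]
  clear hn hxy
  induction n with
  | zero => simpa using Equiv.Perm.SameCycle.refl π' (f x)
  | succ n ih =>
    rw [pow_succ', Equiv.Perm.mul_apply, h]
    exact Equiv.Perm.sameCycle_apply_right.mpr ih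

/-- The map merging `v` into `u`. -/
noncomputable def mg {V : Type} (u v : V) (x : V) : V := by
  classical exact if x = v then u else x

theorem mg_v {V : Type} (u v : V) : mg u v v = u := by simp [mg]

theorem mg_ne {V : Type} (u v : V) {x : V} (h : x ≠ v) : mg u v x = x := by simp [mg, h]

theorem mg_ne_v {V : Type} {u v : V} (huv : u ≠ v) (x : V) : mg u v x ≠ v := by
  by_cases h : x = v
  · rw [h, mg_v]; exact huv
  · rw [mg_ne u v h]; exact h

theorem mg_eq {V : Type} {u v : V} {x y : V} (h : mg u v x = mg u v y) :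
    x = y ∨ (x = u ∧ y = v) ∨ (x = v ∧ y = u) := by
  by_cases hx : x = v <;> by_cases hy : y = v
  · left; rw [hx, hy]
  · rw [hx, mg_v, mg_ne u v hy] at h
    exact Or.inr (Or.inr ⟨hx, h.symm⟩)
  · rw [hy, mg_v, mg_ne u v hx] at h
    exact Or.inr (Or.inl ⟨h, hy⟩)
  · rw [mg_ne u v hx, mg_ne u v hy] at h
    exact Or.inl h

/-- A dart other than `(u, v)` and `(v, u)`. -/
def Od {V : Type} {G : SimpleGraph V} (u v : V) (x : G.Dart) : Prop :=
  ¬ (x.fst = u ∧ x.snd = v) ∧ ¬ (x.fst = v ∧ x.snd = u)

theorem not_Od {V : Type} {G : SimpleGraph V} {u v : V} {x : G.Dart} (h : ¬ Od u v x) :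
    (x.fst = u ∧ x.snd = v) ∨ (x.fst = v ∧ x.snd = u) := by
  unfold Od at h
  by_contra hcon
  apply h
  exact ⟨fun h1 => hcon (Or.inl h1), fun h1 => hcon (Or.inr h1)⟩

theorem mg_adj {V : Type} {G : SimpleGraph V} {u v : V} (huv : u ≠ v) (x : G.Dart)
    (hx : Od u v x) : (ctr G u v).Adj (mg u v x.fst) (mg u v x.snd) := by
  have hadj := x.adj
  have hne := x.adj.ne
  obtain ⟨h1, h2⟩ := hx
  refine ⟨?_, mg_ne_v huv _, mg_ne_v huv _, ?_⟩
  · intro h
    rcases mg_eq h with h | h | h
    · exact hne h
    · exact h1 h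
    · exact h2 h
  · by_cases ha : x.fst = v
    · have hb : x.snd ≠ v := fun hb => hne (ha.trans hb.symm)
      rw [ha, mg_v, mg_ne u v hb]
      right; left
      rw [ha] at hadj
      exact ⟨rfl, hadj⟩
    · by_cases hb : x.snd = v
      · rw [hb, mg_v, mg_ne u v ha]
        right; right
        rw [hb] at hadj
        exact ⟨rfl, hadj.symm⟩
      · rw [mg_ne u v ha, mg_ne u v hb]
        exact Or.inl hadj

/-- The dart of the contraction belonging to a dart of `G`. -/
noncomputable def mgD {V : Type} {G : SimpleGraph V} {u v : V} (huv : u ≠ v)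
    (x : {x : G.Dart // Od u v x}) : (ctr G u v).Dart :=
  ⟨(mg u v x.1.fst, mg u v x.1.snd), mg_adj huv x.1 x.2⟩

theorem mgD_fst {V : Type} {G : SimpleGraph V} {u v : V} (huv : u ≠ v)
    (x : {x : G.Dart // Od u v x}) : (mgD huv x).fst = mg u v x.1.fst := rfl

theorem mgD_snd {V : Type} {G : SimpleGraph V} {u v : V} (huv : u ≠ v)
    (x : {x : G.Dart // Od u v x}) : (mgD huv x).snd = mg u v x.1.snd := rfl

theorem mgD_inj {V : Type} {G : SimpleGraph V} {u v : V} (huv : u ≠ v)
    (hcn : ∀ w, G.Adj u w → ¬ G.Adj v w) :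
    Function.Injective (mgD (G := G) huv) := by
  intro x y h
  have h1 : mg u v x.1.fst = mg u v y.1.fst :=
    congrArg (fun z : (ctr G u v).Dart => z.fst) h
  have h2 : mg u v x.1.snd = mg u v y.1.snd :=
    congrArg (fun z : (ctr G u v).Dart => z.snd) h
  obtain ⟨hx1, hx2⟩ := x.2
  obtain ⟨hy1, hy2⟩ := y.2
  have ax := x.1.adj
  have ay := y.1.adj
  apply Subtype.ext
  apply SimpleGraph.Dart.ext
  apply Prod.ext
  · show x.1.fst = y.1.fst
    rcases mg_eq h1 with h1 | ⟨h1, h1'⟩ | ⟨h1, h1'⟩
    · exact h1
    · exfalso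
      rcases mg_eq h2 with h2 | ⟨h2, h2'⟩ | ⟨h2, h2'⟩
      · rw [h1] at ax
        rw [h1', ← h2] at ay
        exact hcn _ ax ay
      · rw [h1, h2] at ax; exact ax.ne rfl
      · exact hx1 ⟨h1, h2⟩
    · exfalso
      rcases mg_eq h2 with h2 | ⟨h2, h2'⟩ | ⟨h2, h2'⟩
      · rw [h1] at ax
        rw [h1', ← h2] at ay
        exact hcn _ ay ax
      · exact hx2 ⟨h1, h2⟩
      · rw [h1, h2] at ax; exact ax.ne rfl
  · show x.1.snd = y.1.snd
    rcases mg_eq h2 with h2 | ⟨h2, h2'⟩ | ⟨h2, h2'⟩
    · exact h2
    · exfalso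
      rcases mg_eq h1 with h1 | ⟨h1, h1'⟩ | ⟨h1, h1'⟩
      · rw [h2] at ax
        rw [h2', ← h1] at ay
        exact hcn _ ax.symm ay.symm
      · rw [h1, h2] at ax; exact ax.ne rfl
      · exact hx2 ⟨h1, h2⟩
    · exfalso
      rcases mg_eq h1 with h1 | ⟨h1, h1'⟩ | ⟨h1, h1'⟩
      · rw [h2] at ax
        rw [h2', ← h1] at ay
        exact hcn _ ay.symm ax.symm
      · exact hx1 ⟨h1, h2⟩
      · rw [h1, h2] at ax; exact ax.ne rfl

theorem mgD_surj {V : Type} {G : SimpleGraph V} {u v : V} (huv : u ≠ v) :
    Function.Surjective (mgD (G := G) huv) := by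
  rintro ⟨⟨a, b⟩, hab⟩
  obtain ⟨h1, h2, h3, h4⟩ := hab
  simp only at h1 h2 h3 h4
  rcases h4 with h | ⟨h, h'⟩ | ⟨h, h'⟩
  · refine ⟨⟨⟨(a, b), h⟩, ⟨fun h => h3 h.2, fun h => h2 h.1⟩⟩, ?_⟩
    apply SimpleGraph.Dart.ext
    apply Prod.ext
    · exact mg_ne u v h2
    · exact mg_ne u v h3
  · refine ⟨⟨⟨(v, b), h'⟩, ⟨fun h => h3 h.2, fun h'' => h1 (h.trans h''.2.symm)⟩⟩, ?_⟩
    apply SimpleGraph.Dart.ext
    apply Prod.ext
    · exact (mg_v u v).trans h.symm
    · exact mg_ne u v h3
  · refine ⟨⟨⟨(a, v), h'.symm⟩, ⟨fun h'' => h1 (h''.1.trans h.symm), fun h => h2 h.1⟩⟩, ?_⟩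
    apply SimpleGraph.Dart.ext
    apply Prod.ext
    · exact mg_ne u v h2
    · exact (mg_v u v).trans h.symm

theorem revPerm_apply {V : Type} (G : SimpleGraph V) (d : G.Dart) : revPerm G d = d.symm := rfl

theorem facePerm_apply {V : Type} (G : SimpleGraph V) (σ : Equiv.Perm G.Dart) (d : G.Dart) :
    facePerm G σ d = σ d.symm := rfl

/-- Merging the rotations at the two ends of an edge. -/
theorem merge_sc {D : Type} [Finite D] [DecidableEq D] (σ : Equiv.Perm D) (d d' : D)
    (hdd : ¬ σ.SameCycle d d') :
    (σ * Equiv.swap d d').SameCycle d d' ∧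
    ∀ x y, σ.SameCycle x y → (σ * Equiv.swap d d').SameCycle x y := by
  set τ := σ * Equiv.swap d d' with hτ
  have hne : d ≠ d' := fun h => hdd (h ▸ Equiv.Perm.SameCycle.refl _ _)
  have h1 : τ d = σ d' := by rw [hτ, Equiv.Perm.mul_apply, Equiv.swap_apply_left]
  have h2 : τ d' = σ d := by rw [hτ, Equiv.Perm.mul_apply, Equiv.swap_apply_right]
  have h3 : ∀ x, x ≠ d → x ≠ d' → τ x = σ x := by
    intro x hx hx'
    rw [hτ, Equiv.Perm.mul_apply, Equiv.swap_apply_of_ne_of_ne hx hx']
  have h4 : τ.SameCycle d d' := by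
    by_contra hcon
    have key : ∀ n : ℕ, τ.SameCycle d' ((σ ^ n) (σ d)) := by
      intro n
      induction n with
      | zero =>
        rw [pow_zero, Equiv.Perm.one_apply, ← h2]
        exact Equiv.Perm.sameCycle_apply_right.mpr (Equiv.Perm.SameCycle.refl _ _)
      | succ n ih =>
        rw [pow_succ', Equiv.Perm.mul_apply]
        have hn1 : (σ ^ n) (σ d) ≠ d := by
          intro h
          rw [h] at ih
          exact hcon ih.symm
        have hn2 : (σ ^ n) (σ d) ≠ d' := by
          intro h
          apply hdd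
          rw [← h]
          exact Equiv.Perm.sameCycle_pow_right.mpr
            (Equiv.Perm.sameCycle_apply_right.mpr (Equiv.Perm.SameCycle.refl _ _))
        rw [← h3 _ hn1 hn2]
        exact Equiv.Perm.sameCycle_apply_right.mpr ih
    have hsc : σ.SameCycle (σ d) d :=
      Equiv.Perm.sameCycle_apply_left.mpr (Equiv.Perm.SameCycle.refl _ _)
    obtain ⟨n, hn⟩ := hsc.exists_nat_pow_eq
    have h5 := key n
    rw [hn] at h5
    exact hcon h5.symm
  refine ⟨h4, ?_⟩
  have h5 : ∀ x, τ.SameCycle x (σ x) := by
    intro x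
    by_cases hx : x = d
    · rw [hx]
      refine h4.trans ?_
      rw [← h2]
      exact Equiv.Perm.sameCycle_apply_right.mpr (Equiv.Perm.SameCycle.refl _ _)
    · by_cases hx' : x = d'
      · rw [hx']
        refine h4.symm.trans ?_
        rw [← h1]
        exact Equiv.Perm.sameCycle_apply_right.mpr (Equiv.Perm.SameCycle.refl _ _)
      · rw [← h3 x hx hx']
        exact Equiv.Perm.sameCycle_apply_right.mpr (Equiv.Perm.SameCycle.refl _ _)
  intro x y hxy
  obtain ⟨n, hn⟩ := hxy.exists_nat_pow_eq
  rw [← hn]
  clear hn hxy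
  induction n with
  | zero => simpa using Equiv.Perm.SameCycle.refl τ x
  | succ n ih =>
    rw [pow_succ', Equiv.Perm.mul_apply]
    exact ih.trans (h5 _)

theorem card_comp_ctr {V : Type} [Finite V] (G : SimpleGraph V) (u v : V) (huv : u ≠ v) :
    Nat.card (ctr G u v).ConnectedComponent ≤ Nat.card G.ConnectedComponent + 1 := by
  classical
  have hf : ∀ x y : V, G.Adj x y →
      (ctr G u v).connectedComponentMk (mg u v x) = (ctr G u v).connectedComponentMk (mg u v y) := by
    intro x y hxy
    by_cases hd : Od u v (⟨(x, y), hxy⟩ : G.Dart)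
    · exact SimpleGraph.ConnectedComponent.sound (mg_adj huv _ hd).reachable
    · have h : mg u v x = mg u v y := by
        rcases not_Od hd with ⟨h1, h2⟩ | ⟨h1, h2⟩
        · have h1' : x = u := h1
          have h2' : y = v := h2
          rw [h1', h2', mg_v, mg_ne u v huv]
        · have h1' : x = v := h1
          have h2' : y = u := h2
          rw [h1', h2', mg_v, mg_ne u v huv]
      rw [h]
  have hf' : ∀ x y : V, G.Reachable x y →
      (ctr G u v).connectedComponentMk (mg u v x) = (ctr G u v).connectedComponentMk (mg u v y) := by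
    rintro x y ⟨w⟩
    induction w with
    | nil => rfl
    | cons h _ ih => exact (hf _ _ h).trans ih
  let F : Option G.ConnectedComponent → (ctr G u v).ConnectedComponent := fun o =>
    match o with
    | none => (ctr G u v).connectedComponentMk v
    | some c => SimpleGraph.ConnectedComponent.lift
        (fun x => (ctr G u v).connectedComponentMk (mg u v x))
        (fun x y p _ => hf' x y p.reachable) c
  have hF : Function.Surjective F := by
    intro c
    induction c using SimpleGraph.ConnectedComponent.ind with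
    | _ x =>
      by_cases hx : x = v
      · exact ⟨none, by rw [hx]⟩
      · refine ⟨some (G.connectedComponentMk x), ?_⟩
        show (ctr G u v).connectedComponentMk (mg u v x) = _
        rw [mg_ne u v hx]
  have h1 := Nat.card_le_card_of_surjective F hF
  rwa [Finite.card_option] at h1

theorem card_edge_ctr {V : Type} [Finite V] (G : SimpleGraph V) (u v : V) (huv : G.Adj u v)
    (hcn : ∀ w, G.Adj u w → ¬ G.Adj v w) :
    Nat.card (ctr G u v).edgeSet + 1 = Nat.card G.edgeSet := by
  classical
  have := Fintype.ofFinite V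
  have h1 : Nat.card (ctr G u v).Dart = 2 * Nat.card (ctr G u v).edgeSet := by
    have := (ctr G u v).dart_card_eq_twice_card_edges
    rw [Nat.card_eq_fintype_card, this, SimpleGraph.edgeFinset, Set.toFinset_card,
      Nat.card_eq_fintype_card]
  have h2 : Nat.card G.Dart = 2 * Nat.card G.edgeSet := by
    have := G.dart_card_eq_twice_card_edges
    rw [Nat.card_eq_fintype_card, this, SimpleGraph.edgeFinset, Set.toFinset_card,
      Nat.card_eq_fintype_card]
  have h3 : Nat.card (ctr G u v).Dart = Nat.card {x : G.Dart // Od u v x} :=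
    (Nat.card_congr (Equiv.ofBijective _ ⟨mgD_inj (G := G) huv.ne hcn, mgD_surj huv.ne⟩)).symm
  have h4 : Nat.card {x : G.Dart // Od u v x} + 2 = Nat.card G.Dart := by
    have hset : {x : G.Dart | ¬ Od u v x} = {⟨(u, v), huv⟩, ⟨(v, u), huv.symm⟩} := by
      ext x
      constructor
      · intro hx
        rcases not_Od hx with ⟨h, h'⟩ | ⟨h, h'⟩
        · left; exact SimpleGraph.Dart.ext _ _ (Prod.ext h h')
        · right; exact SimpleGraph.Dart.ext _ _ (Prod.ext h h')
      · rintro (h | h)
        · rw [h]; exact fun h1 => h1.1 ⟨rfl, rfl⟩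
        · have h' : x = ⟨(v, u), huv.symm⟩ := h
          rw [h']; exact fun h1 => h1.2 ⟨rfl, rfl⟩
    have h5 : Nat.card {x : G.Dart // ¬ Od u v x} = 2 := by
      have h6 : Nat.card {x : G.Dart // ¬ Od u v x} = ({x : G.Dart | ¬ Od u v x}).ncard := rfl
      rw [h6, hset, Set.ncard_pair]
      intro h
      have h7 := congrArg (fun z : G.Dart => z.fst) h
      exact huv.ne h7
    have h7 : Nat.card G.Dart = Nat.card {x : G.Dart // Od u v x} +
        Nat.card {x : G.Dart // ¬ Od u v x} := by
      rw [← Nat.card_sum]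
      exact Nat.card_congr (Equiv.sumCompl (fun x : G.Dart => Od u v x)).symm
    omega
  omega

theorem ctr_step2 {V : Type} [Finite V] (G : SimpleGraph V) (g : ℕ) (u v : V)
    (huv : G.Adj u v) (hcn : ∀ w, G.Adj u w → ¬ G.Adj v w) (h : Embeds G g) :
    Embeds (ctr G u v) g := by
  classical
  have hDfin : Finite G.Dart := by
    have := Fintype.ofFinite V
    infer_instance
  obtain ⟨σ, ⟨hσ1, hσ2⟩, hσ3⟩ := h
  have huv' := huv.ne
  set d : G.Dart := ⟨(u, v), huv⟩ with hd
  set d' : G.Dart := ⟨(v, u), huv.symm⟩ with hd'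
  have hdfst : d.fst = u := rfl
  have hd'fst : d'.fst = v := rfl
  have hdsymm : d.symm = d' := rfl
  have hd'symm : d'.symm = d := rfl
  have hOd : ∀ x : G.Dart, Od u v x ↔ x ≠ d ∧ x ≠ d' := by
    intro x
    constructor
    · rintro ⟨h1, h2⟩
      refine ⟨?_, ?_⟩
      · rintro rfl; exact h1 ⟨rfl, rfl⟩
      · rintro rfl; exact h2 ⟨rfl, rfl⟩
    · rintro ⟨h1, h2⟩
      refine ⟨?_, ?_⟩
      · rintro ⟨h3, h4⟩; exact h1 (SimpleGraph.Dart.ext _ _ (Prod.ext h3 h4))
      · rintro ⟨h3, h4⟩; exact h2 (SimpleGraph.Dart.ext _ _ (Prod.ext h3 h4))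
  have hsymm : ∀ x : G.Dart, Od u v x → Od u v x.symm := by
    intro x hx
    exact ⟨fun h => hx.2 ⟨h.2, h.1⟩, fun h => hx.1 ⟨h.2, h.1⟩⟩
  have hfstpow : ∀ x y : G.Dart, σ.SameCycle x y → x.fst = y.fst := by
    intro x y hxy
    obtain ⟨n, hn⟩ := hxy.exists_nat_pow_eq
    rw [← hn]
    clear hn hxy
    induction n with
    | zero => simp
    | succ n ih => rw [pow_succ', Equiv.Perm.mul_apply, hσ1]; exact ih
  have hdd : ¬ σ.SameCycle d d' := fun h => huv' (hfstpow _ _ h)
  obtain ⟨hτ1, hτ2⟩ := merge_sc σ d d' hdd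
  set τ := σ * Equiv.swap d d' with hτ
  have hτd : τ d = σ d' := by rw [hτ, Equiv.Perm.mul_apply, Equiv.swap_apply_left]
  have hτd' : τ d' = σ d := by rw [hτ, Equiv.Perm.mul_apply, Equiv.swap_apply_right]
  have hτo : ∀ x, Od u v x → τ x = σ x := by
    intro x hx
    rw [hτ, Equiv.Perm.mul_apply,
      Equiv.swap_apply_of_ne_of_ne ((hOd x).mp hx).1 ((hOd x).mp hx).2]
  -- `facePerm` agrees with `τ` off `Od`
  have hφo : ∀ x, ¬ Od u v x → facePerm G σ x = τ x := by
    intro x hx
    rw [facePerm_apply]
    by_cases h1 : x = d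
    · rw [h1, hτd, hdsymm]
    · by_cases h2 : x = d'
      · rw [h2, hτd', hd'symm]
      · exact absurd ((hOd x).mpr ⟨h1, h2⟩) hx
  obtain ⟨β, hβ⟩ := byp_exists τ (fun x => Od u v x)
  have hβsc := byp_sameCycle τ (fun x => Od u v x) β hβ
  let e : {x : G.Dart // Od u v x} ≃ (ctr G u v).Dart :=
    Equiv.ofBijective _ ⟨mgD_inj (G := G) huv' hcn, mgD_surj huv'⟩
  have he : ∀ x, e x = mgD huv' x := fun x => rfl
  let σ' : Equiv.Perm (ctr G u v).Dart := (e.symm.trans β).trans e
  have hσ'e : ∀ x, σ' (e x) = e (β x) := by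
    intro x
    show e (β (e.symm (e x))) = e (β x)
    rw [Equiv.symm_apply_apply]
  -- `mg ∘ fst` is invariant under `τ`
  have hmgτ : ∀ x : G.Dart, mg u v (τ x).fst = mg u v x.fst := by
    intro x
    by_cases h1 : x = d
    · rw [h1, hτd, hσ1, hdfst, hd'fst, mg_v, mg_ne u v huv']
    · by_cases h2 : x = d'
      · rw [h2, hτd', hσ1, hdfst, hd'fst, mg_v, mg_ne u v huv']
      · rw [hτo x ((hOd x).mpr ⟨h1, h2⟩), hσ1]
  have hmgτn : ∀ (n : ℕ) (x : G.Dart), mg u v ((τ ^ n) x).fst = mg u v x.fst := by
    intro n x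
    induction n with
    | zero => simp
    | succ n ih => rw [pow_succ', Equiv.Perm.mul_apply, hmgτ]; exact ih
  have hrot : IsRotation (ctr G u v) σ' := by
    constructor
    · intro y
      obtain ⟨x, rfl⟩ := e.surjective y
      rw [hσ'e, he, he, mgD_fst, mgD_fst]
      obtain ⟨m, hm, -⟩ := hβ x
      rw [hm, hmgτn]
    · intro y y' hyy
      obtain ⟨x, rfl⟩ := e.surjective y
      obtain ⟨x', rfl⟩ := e.surjective y'
      have h1 : β.SameCycle x x' := by
        rw [hβsc]
        have h2 : mg u v x.1.fst = mg u v x'.1.fst := hyy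
        rcases mg_eq h2 with h2 | ⟨h2, h3⟩ | ⟨h2, h3⟩
        · exact hτ2 _ _ (hσ2 _ _ h2)
        · exact ((hτ2 _ _ (hσ2 x.1 d h2)).trans hτ1).trans (hτ2 _ _ (hσ2 d' x'.1 h3.symm))
        · exact ((hτ2 _ _ (hσ2 x.1 d' h2)).trans hτ1.symm).trans
            (hτ2 _ _ (hσ2 d x'.1 h3.symm))
      exact sc_map β σ' e (fun x => (hσ'e x).symm) h1
  refine ⟨σ', hrot, ?_⟩
  -- the face permutation
  let ρ : Equiv.Perm {x : G.Dart // Od u v x} :=
    ⟨fun x => ⟨x.1.symm, hsymm _ x.2⟩, fun x => ⟨x.1.symm, hsymm _ x.2⟩,
      fun x => Subtype.ext (SimpleGraph.Dart.symm_symm _),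
      fun x => Subtype.ext (SimpleGraph.Dart.symm_symm _)⟩
  have hρ : ∀ x, (ρ x).1 = x.1.symm := fun x => rfl
  let ψ : Equiv.Perm {x : G.Dart // Od u v x} := β * ρ
  have hψ : ∀ x, ∃ m : ℕ, (ψ x : G.Dart) = (facePerm G σ ^ (m + 1)) x ∧
      ∀ j < m, ¬ Od u v ((facePerm G σ ^ (j + 1)) (x : G.Dart)) := by
    intro x
    obtain ⟨m, hm, hm'⟩ := hβ (ρ x)
    have key : ∀ j ≤ m, (facePerm G σ ^ (j + 1)) (x : G.Dart) = (τ ^ (j + 1)) (ρ x).1 := by
      intro j
      induction j with
      | zero =>
        intro _
        rw [zero_add, pow_one, pow_one, facePerm_apply, hτo _ (ρ x).2, hρ]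
      | succ j ih =>
        intro hj
        have ih' := ih (by omega)
        rw [pow_succ', Equiv.Perm.mul_apply, ih', hφo _ (hm' j (by omega)),
          ← Equiv.Perm.mul_apply, ← pow_succ']
    refine ⟨m, ?_, ?_⟩
    · rw [key m le_rfl]
      exact hm
    · intro j hj
      rw [key j hj.le]
      exact hm' j hj
  have hψsc := byp_sameCycle (facePerm G σ) (fun x => Od u v x) ψ hψ
  have hface : ∀ x, e (ψ x) = facePerm (ctr G u v) σ' (e x) := by
    intro x
    rw [facePerm_apply]
    have h1 : (e x).symm = e (ρ x) := rfl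
    rw [h1, hσ'e]
    rfl
  have hface' : ∀ y, e.symm (facePerm (ctr G u v) σ' y) = ψ (e.symm y) := by
    intro y
    rw [Equiv.symm_apply_eq, hface, Equiv.apply_symm_apply]
  have hD'fin : Finite (ctr G u v).Dart := Finite.of_equiv _ e
  -- the map on faces
  let Φ : Face (ctr G u v) σ' → Face G σ := Quotient.lift
    (fun y => (Quotient.mk (Equiv.Perm.SameCycle.setoid (facePerm G σ)) (e.symm y).1 : Face G σ))
    (by
      intro y y' hyy
      apply Quotient.sound
      have h1 : ψ.SameCycle (e.symm y) (e.symm y') :=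
        sc_map (facePerm (ctr G u v) σ') ψ e.symm hface' hyy
      exact (hψsc _ _).mp h1)
  have hΦ : ∀ x : {x : G.Dart // Od u v x}, Φ (Quotient.mk _ (e x)) =
      (Quotient.mk (Equiv.Perm.SameCycle.setoid (facePerm G σ)) x.1 : Face G σ) := by
    intro x
    show (Quotient.mk (Equiv.Perm.SameCycle.setoid (facePerm G σ)) (e.symm (e x)).1 : Face G σ) = _
    rw [Equiv.symm_apply_apply]
  have hcomp := card_comp_ctr G u v huv'
  have hedge := card_edge_ctr G u v huv hcn
  have hisoG : ∀ w, (∀ y, ¬ G.Adj w y) → (∀ y, ¬ (ctr G u v).Adj w y) := by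
    intro w hw y hy
    obtain ⟨h1, h2, h3, h4⟩ := hy
    rcases h4 with h | ⟨h, h'⟩ | ⟨h, h'⟩
    · exact hw _ h
    · rw [h] at hw; exact hw _ huv
    · exact hw _ h'.symm
  have hisov : ∀ y, ¬ (ctr G u v).Adj v y := fun y hy => hy.2.1 rfl
  have hfaces : numFaces G σ + 1 ≤ numFaces (ctr G u v) σ' := by
    unfold numFaces
    by_cases hcase : ∀ x : G.Dart, ∃ y : {x : G.Dart // Od u v x}, (facePerm G σ).SameCycle y.1 x
    · have h1 : Nat.card (Face G σ) ≤ Nat.card (Face (ctr G u v) σ') := by
        apply Nat.card_le_card_of_surjective Φ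
        intro c
        induction c using Quotient.inductionOn with
        | _ x =>
          obtain ⟨y, hy⟩ := hcase x
          refine ⟨Quotient.mk _ (e y), ?_⟩
          rw [hΦ]
          exact Quotient.sound hy
      have h2 : Nat.card {w : V // ∀ y, ¬ G.Adj w y} + 1 ≤
          Nat.card {w : V // ∀ y, ¬ (ctr G u v).Adj w y} := by
        rw [← Finite.card_option]
        let I : Option {w : V // ∀ y, ¬ G.Adj w y} → {w : V // ∀ y, ¬ (ctr G u v).Adj w y} :=
          fun o => match o with
            | none => ⟨v, hisov⟩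
            | some w => ⟨w.1, hisoG _ w.2⟩
        apply Nat.card_le_card_of_injective I
        intro a b hab
        match a, b, hab with
        | none, none, _ => rfl
        | none, some w, hab =>
          exfalso
          have h3 : v = w.1 := congrArg Subtype.val hab
          exact w.2 u (h3 ▸ huv.symm)
        | some w, none, hab =>
          exfalso
          have h3 : w.1 = v := congrArg Subtype.val hab
          exact w.2 u (h3 ▸ huv.symm)
        | some w, some w', hab =>
          have h3 : (I (some w)).1 = (I (some w')).1 := congrArg (fun z => z.1) hab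
          have h4 : w.1 = w'.1 := h3
          exact congrArg some (Subtype.ext h4)
      omega
    · push Not at hcase
      obtain ⟨x, hx⟩ := hcase
      -- the orbit of `x` is contained in `{d, d'}`
      have hno : ∀ y, (facePerm G σ).SameCycle y x → y = d ∨ y = d' := by
        intro y hy
        by_contra hcon
        push Not at hcon
        exact hx ⟨y, (hOd y).mpr hcon⟩ hy
      have hφd : facePerm G σ d = σ d' := by rw [facePerm_apply, hdsymm]
      have hφd' : facePerm G σ d' = σ d := by rw [facePerm_apply, hd'symm]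
      have hboth : (facePerm G σ).SameCycle d x ∧ (facePerm G σ).SameCycle d' x := by
        rcases hno x (Equiv.Perm.SameCycle.refl _ _) with h1 | h1
        · have h2 : (facePerm G σ).SameCycle d x := by rw [h1]
          have h3 : (facePerm G σ).SameCycle (facePerm G σ d) x :=
            Equiv.Perm.sameCycle_apply_left.mpr h2
          refine ⟨h2, ?_⟩
          rcases hno _ h3 with h4 | h4
          · exfalso
            rw [hφd] at h4
            have h5 := hσ1 d'
            rw [h4] at h5
            exact huv' h5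
          · rw [h4] at h3; exact h3
        · have h2 : (facePerm G σ).SameCycle d' x := by rw [h1]
          have h3 : (facePerm G σ).SameCycle (facePerm G σ d') x :=
            Equiv.Perm.sameCycle_apply_left.mpr h2
          refine ⟨?_, h2⟩
          rcases hno _ h3 with h4 | h4
          · rw [h4] at h3; exact h3
          · exfalso
            rw [hφd'] at h4
            have h5 := hσ1 d
            rw [h4] at h5
            exact huv' h5.symm
      have hσd : σ d = d := by
        have h3 : (facePerm G σ).SameCycle (facePerm G σ d') x :=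
            Equiv.Perm.sameCycle_apply_left.mpr hboth.2
        rw [hφd'] at h3
        rcases hno _ h3 with h4 | h4
        · exact h4
        · exfalso
          have h5 := hσ1 d
          rw [h4] at h5
          exact huv' h5.symm
      have hσd' : σ d' = d' := by
        have h3 : (facePerm G σ).SameCycle (facePerm G σ d) x :=
            Equiv.Perm.sameCycle_apply_left.mpr hboth.1
        rw [hφd] at h3
        rcases hno _ h3 with h4 | h4
        · exfalso
          have h5 := hσ1 d'
          rw [h4] at h5
          exact huv' h5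
        · exact h4
      have hu1 : ∀ y, G.Adj u y → y = v := by
        intro y hy
        have h1 : σ.SameCycle d ⟨(u, y), hy⟩ := hσ2 _ _ rfl
        have h2 := h1.eq_of_left hσd
        exact (congrArg (fun z : G.Dart => z.snd) h2).symm
      have hv1 : ∀ y, G.Adj v y → y = u := by
        intro y hy
        have h1 : σ.SameCycle d' ⟨(v, y), hy⟩ := hσ2 _ _ rfl
        have h2 := h1.eq_of_left hσd'
        exact (congrArg (fun z : G.Dart => z.snd) h2).symm
      have hisou : ∀ y, ¬ (ctr G u v).Adj u y := by
        rintro y ⟨h1, h2, h3, h4⟩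
        rcases h4 with h | ⟨h, h'⟩ | ⟨h, h'⟩
        · exact h3 (hu1 y h)
        · exact h1 (hv1 y h').symm
        · exact h1 h.symm
      have h1 : Nat.card (Face G σ) ≤ Nat.card (Face (ctr G u v) σ') + 1 := by
        rw [← Finite.card_option]
        let Φ' : Option (Face (ctr G u v) σ') → Face G σ := fun o =>
          match o with
          | none => Quotient.mk _ d
          | some c => Φ c
        apply Nat.card_le_card_of_surjective Φ'
        intro c
        induction c using Quotient.inductionOn with
        | _ z =>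
          by_cases hz : Od u v z
          · exact ⟨some (Quotient.mk _ (e ⟨z, hz⟩)), hΦ ⟨z, hz⟩⟩
          · refine ⟨none, ?_⟩
            apply Quotient.sound
            show (facePerm G σ).SameCycle d z
            by_cases h1 : z = d
            · rw [h1]
            · by_cases h2 : z = d'
              · rw [h2]; exact hboth.1.trans hboth.2.symm
              · exact absurd ((hOd z).mpr ⟨h1, h2⟩) hz
      have h2 : Nat.card {w : V // ∀ y, ¬ G.Adj w y} + 1 + 1 ≤
          Nat.card {w : V // ∀ y, ¬ (ctr G u v).Adj w y} := by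
        rw [← Finite.card_option, ← Finite.card_option]
        let I : Option (Option {w : V // ∀ y, ¬ G.Adj w y}) →
            {w : V // ∀ y, ¬ (ctr G u v).Adj w y} :=
          fun o => match o with
            | none => ⟨v, hisov⟩
            | some none => ⟨u, hisou⟩
            | some (some w) => ⟨w.1, hisoG _ w.2⟩
        apply Nat.card_le_card_of_injective I
        intro a b hab
        match a, b, hab with
        | none, none, _ => rfl
        | none, some none, hab =>
          exfalso
          have h3 : v = u := congrArg Subtype.val hab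
          exact huv' h3.symm
        | some none, none, hab =>
          exfalso
          have h3 : u = v := congrArg Subtype.val hab
          exact huv' h3
        | some none, some none, _ => rfl
        | none, some (some w), hab =>
          exfalso
          have h3 : v = w.1 := congrArg Subtype.val hab
          exact w.2 u (h3 ▸ huv.symm)
        | some (some w), none, hab =>
          exfalso
          have h3 : w.1 = v := congrArg Subtype.val hab
          exact w.2 u (h3 ▸ huv.symm)
        | some none, some (some w), hab =>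
          exfalso
          have h3 : u = w.1 := congrArg Subtype.val hab
          exact w.2 v (h3 ▸ huv)
        | some (some w), some none, hab =>
          exfalso
          have h3 : w.1 = u := congrArg Subtype.val hab
          exact w.2 v (h3 ▸ huv)
        | some (some w), some (some w'), hab =>
          have h3 : (I (some (some w))).1 = (I (some (some w'))).1 := congrArg (fun z => z.1) hab
          have h4 : w.1 = w'.1 := h3
          exact congrArg (fun t => some (some t)) (Subtype.ext h4)
      omega
  omega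

theorem embeds_ctr {V : Type} [Finite V] (G : SimpleGraph V) (g : ℕ) (u v : V)
    (huv : G.Adj u v) (h : Embeds G g) : Embeds (ctr G u v) g := by
  classical
  have key : ∀ (n : ℕ) (G : SimpleGraph V), Nat.card G.edgeSet = n → G.Adj u v →
      Embeds G g → Embeds (ctr G u v) g := by
    intro n
    induction n using Nat.strong_induction_on with
    | _ n ih =>
      intro G hn huv h
      by_cases hcn : ∀ w, G.Adj u w → ¬ G.Adj v w
      · exact ctr_step2 G g u v huv hcn h
      · push Not at hcn
        obtain ⟨w, h1, h2⟩ := hcn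
        have h3 := embeds_deleteEdge G g v w h2 h
        have hne : s(u, v) ≠ s(v, w) := by
          intro h4
          rw [Sym2.eq_iff] at h4
          rcases h4 with ⟨h4, _⟩ | ⟨h4, _⟩
          · exact huv.ne h4
          · exact h1.ne h4
        have h4 : (G.deleteEdges {s(v, w)}).Adj u v := by
          rw [SimpleGraph.deleteEdges_adj]
          exact ⟨huv, hne⟩
        have hlt : Nat.card (G.deleteEdges {s(v, w)}).edgeSet < n := by
          rw [← hn]
          apply Set.ncard_lt_ncard _ (Set.toFinite _)
          rw [SimpleGraph.edgeSet_deleteEdges]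
          refine ⟨Set.sdiff_subset, ?_⟩
          intro hsub
          have h5 : s(v, w) ∈ G.edgeSet := h2
          exact (hsub h5).2 rfl
        have h5 := ih _ hlt _ rfl h4 h3
        have h6 : ctr (G.deleteEdges {s(v, w)}) u v = ctr G u v := by
          ext x y
          show (x ≠ y ∧ x ≠ v ∧ y ≠ v ∧ ((G.deleteEdges {s(v, w)}).Adj x y ∨
            (x = u ∧ (G.deleteEdges {s(v, w)}).Adj v y) ∨
            (y = u ∧ (G.deleteEdges {s(v, w)}).Adj v x))) ↔ (x ≠ y ∧ x ≠ v ∧ y ≠ v ∧ (G.Adj x y ∨
            (x = u ∧ G.Adj v y) ∨ (y = u ∧ G.Adj v x)))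
          simp only [SimpleGraph.deleteEdges_adj, Set.mem_singleton_iff]
          constructor
          · rintro ⟨a1, a2, a3, a4⟩
            refine ⟨a1, a2, a3, ?_⟩
            rcases a4 with a | ⟨a, b⟩ | ⟨a, b⟩
            · exact Or.inl a.1
            · exact Or.inr (Or.inl ⟨a, b.1⟩)
            · exact Or.inr (Or.inr ⟨a, b.1⟩)
          · rintro ⟨a1, a2, a3, a4⟩
            refine ⟨a1, a2, a3, ?_⟩
            have hxy : s(x, y) ≠ s(v, w) := by
              intro h7
              rw [Sym2.eq_iff] at h7
              rcases h7 with ⟨h7, _⟩ | ⟨_, h7⟩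
              · exact a2 h7
              · exact a3 h7
            rcases a4 with a | ⟨a, b⟩ | ⟨a, b⟩
            · exact Or.inl ⟨a, hxy⟩
            · by_cases hy : y = w
              · left
                rw [a, hy] at hxy ⊢
                exact ⟨h1, hxy⟩
              · right; left
                refine ⟨a, b, ?_⟩
                intro h7
                rw [Sym2.eq_iff] at h7
                rcases h7 with ⟨_, h7⟩ | ⟨_, h7⟩
                · exact hy h7
                · exact a3 h7
            · by_cases hx : x = w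
              · left
                rw [a, hx] at hxy ⊢
                exact ⟨h1.symm, hxy⟩
              · right; right
                refine ⟨a, b, ?_⟩
                intro h7
                rw [Sym2.eq_iff] at h7
                rcases h7 with ⟨_, h7⟩ | ⟨_, h7⟩
                · exact hx h7
                · exact a2 h7
        rw [h6] at h5
        exact h5
  exact key _ G rfl huv h

end Pool.Agent.Helper226_Obs
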