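import Pool.Agent.Helper226_Obs.FP.Defs

set_option autoImplicit false

namespace Pool.Agent.Helper226_Obs

open SimpleGraph

section eadd

open Equiv

variable {V : Type}

/-- the darts of `G` and the two new darts -/
def eaMap (G : SimpleGraph V) (x y : V) (hxy : x ≠ y) :
    G.Dart ⊕ Bool → (G ⊔ SimpleGraph.edge x y).Dart
  | Sum.inl d => ⟨d.toProd, Or.inl d.adj⟩
  | Sum.inr false => ⟨(x, y), Or.inr ((SimpleGraph.edge_adj x y x y).2 ⟨Or.inl ⟨rfl, rfl⟩, hxy⟩)⟩
  | Sum.inr true => ⟨(y, x), Or.inr ((SimpleGraph.edge_adj x y y x).2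
      ⟨Or.inr ⟨rfl, rfl⟩, hxy.symm⟩)⟩

theorem eaMap_bij (G : SimpleGraph V) (x y : V) (hxy : x ≠ y) (hn : ¬ G.Adj x y) :
    Function.Bijective (eaMap G x y hxy) := by
  constructor
  · intro s t h
    rcases s with d | (_ | _) <;> rcases t with d' | (_ | _)
    · have h1 : d.toProd = d'.toProd :=
        congrArg (SimpleGraph.Dart.toProd (G := G ⊔ SimpleGraph.edge x y)) h
      rw [SimpleGraph.Dart.ext d d' h1]
    · have h1 : d.toProd = (x, y) := congrArg SimpleGraph.Dart.toProd h
      have h2 := d.adj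
      rw [h1] at h2
      exact absurd h2 hn
    · have h1 : d.toProd = (y, x) := congrArg SimpleGraph.Dart.toProd h
      have h2 := d.adj
      rw [h1] at h2
      exact absurd h2.symm hn
    · have h1 : (x, y) = d'.toProd := congrArg SimpleGraph.Dart.toProd h
      have h2 := d'.adj
      rw [← h1] at h2
      exact absurd h2 hn
    · rfl
    · have h1 : (x, y) = (y, x) := congrArg SimpleGraph.Dart.toProd h
      exact absurd (congrArg Prod.fst h1) hxy
    · have h1 : (y, x) = d'.toProd := congrArg SimpleGraph.Dart.toProd h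
      have h2 := d'.adj
      rw [← h1] at h2
      exact absurd h2.symm hn
    · have h1 : (y, x) = (x, y) := congrArg SimpleGraph.Dart.toProd h
      exact absurd (congrArg Prod.snd h1) hxy
    · rfl
  · intro e
    rcases e.adj with h | h
    · exact ⟨Sum.inl ⟨e.toProd, h⟩, rfl⟩
    · rw [SimpleGraph.edge_adj] at h
      rcases h.1 with ⟨h1, h2⟩ | ⟨h1, h2⟩
      · exact ⟨Sum.inr false, SimpleGraph.Dart.ext _ _ (Prod.ext h1.symm h2.symm)⟩
      · exact ⟨Sum.inr true, SimpleGraph.Dart.ext _ _ (Prod.ext h1.symm h2.symm)⟩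

/-- the darts of `G` and the two new darts -/
noncomputable def eaE (G : SimpleGraph V) (x y : V) (hxy : x ≠ y) (hn : ¬ G.Adj x y) :
    G.Dart ⊕ Bool ≃ (G ⊔ SimpleGraph.edge x y).Dart :=
  Equiv.ofBijective _ (eaMap_bij G x y hxy hn)

/-- initial vertices -/
def eaSrc (G : SimpleGraph V) (x y : V) : G.Dart ⊕ Bool → V
  | Sum.inl d => d.fst
  | Sum.inr false => x
  | Sum.inr true => y

theorem eaE_fst (G : SimpleGraph V) (x y : V) (hxy : x ≠ y) (hn : ¬ G.Adj x y)
    (s : G.Dart ⊕ Bool) : (eaE G x y hxy hn s).fst = eaSrc G x y s := by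
  rcases s with d | (_ | _) <;> rfl

/-- reversal -/
def eaRev (G : SimpleGraph V) : G.Dart ⊕ Bool → G.Dart ⊕ Bool
  | Sum.inl d => Sum.inl d.symm
  | Sum.inr b => Sum.inr (!b)

theorem eaE_symm (G : SimpleGraph V) (x y : V) (hxy : x ≠ y) (hn : ¬ G.Adj x y)
    (s : G.Dart ⊕ Bool) : (eaE G x y hxy hn s).symm = eaE G x y hxy hn (eaRev G s) := by
  rcases s with d | (_ | _) <;> rfl

open Classical in
/-- the new rotation on the sum type -/
noncomputable def eaTau (G : SimpleGraph V) (σ : Equiv.Perm G.Dart) (a b : G.Dart) :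
    Equiv.Perm (G.Dart ⊕ Bool) :=
  Equiv.swap (Sum.inl b) (Sum.inr false) * Equiv.sumCongr σ (Equiv.refl Bool) *
    Equiv.swap (Sum.inl a) (Sum.inr true)

theorem eaTau_a (G : SimpleGraph V) (σ : Equiv.Perm G.Dart) (a b : G.Dart) :
    eaTau G σ a b (Sum.inl a) = Sum.inr true := by
  classical
  simp only [eaTau, Equiv.Perm.mul_apply]
  rw [Equiv.swap_apply_left]
  show Equiv.swap _ _ (Sum.inr true) = _
  rw [Equiv.swap_apply_of_ne_of_ne]
  · simp
  · simp

theorem eaTau_true (G : SimpleGraph V) (σ : Equiv.Perm G.Dart) (a b : G.Dart) (h : σ a ≠ b) :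
    eaTau G σ a b (Sum.inr true) = Sum.inl (σ a) := by
  classical
  simp only [eaTau, Equiv.Perm.mul_apply]
  rw [Equiv.swap_apply_right]
  show Equiv.swap _ _ (Sum.inl (σ a)) = _
  rw [Equiv.swap_apply_of_ne_of_ne]
  · intro h'; exact h (Sum.inl_injective h')
  · simp

theorem eaTau_false (G : SimpleGraph V) (σ : Equiv.Perm G.Dart) (a b : G.Dart) :
    eaTau G σ a b (Sum.inr false) = Sum.inl b := by
  classical
  simp only [eaTau, Equiv.Perm.mul_apply]
  have h : Equiv.swap (Sum.inl a) (Sum.inr true) (Sum.inr false : G.Dart ⊕ Bool) = Sum.inr false :=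
    Equiv.swap_apply_of_ne_of_ne (by simp) (by simp)
  rw [h]
  show Equiv.swap _ _ (Sum.inr false) = _
  rw [Equiv.swap_apply_right]

theorem eaTau_b (G : SimpleGraph V) (σ : Equiv.Perm G.Dart) (a b d : G.Dart) (h : d ≠ a)
    (hb : σ d = b) : eaTau G σ a b (Sum.inl d) = Sum.inr false := by
  classical
  simp only [eaTau, Equiv.Perm.mul_apply]
  rw [Equiv.swap_apply_of_ne_of_ne (fun h' => h (Sum.inl_injective h')) (by simp)]
  show Equiv.swap _ _ (Sum.inl (σ d)) = _
  rw [hb, Equiv.swap_apply_left]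

theorem eaTau_other (G : SimpleGraph V) (σ : Equiv.Perm G.Dart) (a b d : G.Dart) (h : d ≠ a)
    (hb : σ d ≠ b) : eaTau G σ a b (Sum.inl d) = Sum.inl (σ d) := by
  classical
  simp only [eaTau, Equiv.Perm.mul_apply]
  rw [Equiv.swap_apply_of_ne_of_ne (fun h' => h (Sum.inl_injective h')) (by simp)]
  show Equiv.swap _ _ (Sum.inl (σ d)) = _
  rw [Equiv.swap_apply_of_ne_of_ne (fun h' => hb (Sum.inl_injective h')) (by simp)]

/-- the new rotation -/
noncomputable def eaSig (G : SimpleGraph V) (x y : V) (hxy : x ≠ y) (hn : ¬ G.Adj x y)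
    (σ : Equiv.Perm G.Dart) (a b : G.Dart) : Equiv.Perm (G ⊔ SimpleGraph.edge x y).Dart :=
  (eaE G x y hxy hn).symm.trans ((eaTau G σ a b).trans (eaE G x y hxy hn))

theorem eaSig_apply (G : SimpleGraph V) (x y : V) (hxy : x ≠ y) (hn : ¬ G.Adj x y)
    (σ : Equiv.Perm G.Dart) (a b : G.Dart) (s : G.Dart ⊕ Bool) :
    eaSig G x y hxy hn σ a b (eaE G x y hxy hn s) = eaE G x y hxy hn (eaTau G σ a b s) := by
  simp [eaSig]

theorem ea_facePerm (G : SimpleGraph V) (x y : V) (hxy : x ≠ y) (hn : ¬ G.Adj x y)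
    (σ : Equiv.Perm G.Dart) (a b : G.Dart) (s : G.Dart ⊕ Bool) :
    facePerm _ (eaSig G x y hxy hn σ a b) (eaE G x y hxy hn s) =
      eaE G x y hxy hn (eaTau G σ a b (eaRev G s)) := by
  rw [← eaSig_apply, ← eaE_symm]
  rfl

theorem ea_pow_sameCycle {D D' : Type} (π : Equiv.Perm D) (π' : Equiv.Perm D') (f : D → D')
    (h : ∀ d, π'.SameCycle (f d) (f (π d))) (n : ℕ) (d : D) :
    π'.SameCycle (f d) (f ((π ^ n) d)) := by
  induction n with
  | zero => exact Equiv.Perm.SameCycle.refl _ _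
  | succ n ih =>
    rw [pow_succ', Equiv.Perm.mul_apply]
    exact ih.trans (h _)

theorem ea_step {D : Type} (π : Equiv.Perm D) (u v : D) (h : π u = v) : π.SameCycle u v := by
  rw [← h]
  exact Equiv.Perm.sameCycle_apply_right.2 (Equiv.Perm.SameCycle.refl _ _)

theorem ea_rot [Finite V] (G : SimpleGraph V) (x y T : V) (hxy : x ≠ y) (hn : ¬ G.Adj x y)
    (σ : Equiv.Perm G.Dart) (hσ : IsRotation G σ) (hx : G.Adj x T) (hy : G.Adj y T) :
    IsRotation _ (eaSig G x y hxy hn σ ⟨(y, T), hy⟩ ⟨(x, T), hx⟩) := by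
  obtain ⟨a, ha⟩ : ∃ a : G.Dart, a = ⟨(y, T), hy⟩ := ⟨_, rfl⟩
  obtain ⟨b, hb⟩ : ∃ b : G.Dart, b = ⟨(x, T), hx⟩ := ⟨_, rfl⟩
  rw [← ha, ← hb]
  have ha1 : a.fst = y := by rw [ha]
  have hb1 : b.fst = x := by rw [hb]
  have hab : σ a ≠ b := by
    intro h
    have h1 := hσ.1 a
    rw [h, ha1, hb1] at h1
    exact hxy h1
  set E := eaE G x y hxy hn with hE
  set σ' := eaSig G x y hxy hn σ a b with hσ'
  have hap : ∀ s, σ' (E s) = E (eaTau G σ a b s) := fun s => eaSig_apply G x y hxy hn σ a b s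
  have hsrc : ∀ s, eaSrc G x y (eaTau G σ a b s) = eaSrc G x y s := by
    intro s
    rcases s with d | (_ | _)
    · by_cases h1 : d = a
      · rw [h1, eaTau_a]
        exact ha1.symm
      · by_cases h2 : σ d = b
        · rw [eaTau_b G σ a b d h1 h2]
          show x = d.fst
          rw [← hσ.1 d, h2, hb1]
        · rw [eaTau_other G σ a b d h1 h2]
          exact hσ.1 d
    · rw [eaTau_false]
      exact hb1
    · rw [eaTau_true G σ a b hab]
      show (σ a).fst = y
      rw [hσ.1 a, ha1]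
  have hstep : ∀ d : G.Dart, σ'.SameCycle (E (Sum.inl d)) (E (Sum.inl (σ d))) := by
    intro d
    by_cases h1 : d = a
    · rw [h1]
      refine (ea_step σ' _ (E (Sum.inr true)) ?_).trans (ea_step σ' _ _ ?_)
      · rw [hap, eaTau_a]
      · rw [hap, eaTau_true G σ a b hab]
    · by_cases h2 : σ d = b
      · refine (ea_step σ' _ (E (Sum.inr false)) ?_).trans (ea_step σ' _ _ ?_)
        · rw [hap, eaTau_b G σ a b d h1 h2]
        · rw [hap, eaTau_false, h2]
      · refine ea_step σ' _ _ ?_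
        rw [hap, eaTau_other G σ a b d h1 h2]
  have hcyc : ∀ d d' : G.Dart, d.fst = d'.fst → σ'.SameCycle (E (Sum.inl d)) (E (Sum.inl d')) := by
    intro d d' hdd
    have h1 := hσ.2 d d' hdd
    have : Finite G.Dart := Finite.of_injective (fun d : G.Dart => d.toProd)
      (fun d d' h => SimpleGraph.Dart.ext d d' h)
    obtain ⟨n, hn'⟩ := h1.exists_nat_pow_eq
    rw [← hn']
    exact ea_pow_sameCycle σ σ' (fun d => E (Sum.inl d)) hstep n d
  have hrep : ∀ s, ∃ d : G.Dart, d.fst = eaSrc G x y s ∧ σ'.SameCycle (E s) (E (Sum.inl d)) := by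
    intro s
    rcases s with d | (_ | _)
    · exact ⟨d, rfl, Equiv.Perm.SameCycle.refl _ _⟩
    · refine ⟨b, hb1, ea_step σ' _ _ ?_⟩
      rw [hap, eaTau_false]
    · refine ⟨a, ha1, (ea_step σ' _ _ ?_).symm⟩
      rw [hap, eaTau_a]
  constructor
  · intro e
    obtain ⟨s, rfl⟩ := E.surjective e
    rw [hap, hE, eaE_fst, eaE_fst, hsrc]
  · intro e e' hee
    obtain ⟨s, rfl⟩ := E.surjective e
    obtain ⟨s', rfl⟩ := E.surjective e'
    rw [hE, eaE_fst, eaE_fst] at hee
    obtain ⟨d, hd, hd'⟩ := hrep s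
    obtain ⟨d2, hd2, hd2'⟩ := hrep s'
    exact (hd'.trans (hcyc d d2 (by rw [hd, hd2, hee]))).trans hd2'.symm

theorem ea_faces [Finite V] (G : SimpleGraph V) (x y T : V) (hxy : x ≠ y) (hn : ¬ G.Adj x y)
    (σ : Equiv.Perm G.Dart) (hσ : IsRotation G σ) (hx : G.Adj x T) (hy : G.Adj y T)
    (hxyσ : σ ⟨(T, x), hx.symm⟩ = ⟨(T, y), hy.symm⟩) :
    Nat.card (Face G σ) + 1 ≤
      Nat.card (Face _ (eaSig G x y hxy hn σ ⟨(y, T), hy⟩ ⟨(x, T), hx⟩)) := by
  classical
  obtain ⟨a, ha⟩ : ∃ a : G.Dart, a = ⟨(y, T), hy⟩ := ⟨_, rfl⟩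
  obtain ⟨b, hb⟩ : ∃ b : G.Dart, b = ⟨(x, T), hx⟩ := ⟨_, rfl⟩
  obtain ⟨a', ha'⟩ : ∃ a' : G.Dart, a' = ⟨(T, y), hy.symm⟩ := ⟨_, rfl⟩
  rw [← ha, ← hb]
  have ha1 : a.fst = y := by rw [ha]
  have hb1 : b.fst = x := by rw [hb]
  have ha1' : a'.fst = T := by rw [ha']
  have haa : a'.symm = a := by rw [ha, ha']; rfl
  have haa2 : a.symm = a' := by rw [ha, ha']; rfl
  have hbs : σ b.symm = a' := by rw [hb, ha']; exact hxyσ
  have hab : σ a ≠ b := by
    intro h
    have h1 := hσ.1 a
    rw [h, ha1, hb1] at h1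
    exact hxy h1
  have hba' : a' ≠ b := by
    intro h
    have h1 : a'.fst = b.fst := by rw [h]
    rw [ha1', hb1] at h1
    exact hx.ne h1.symm
  have hσaa : σ a ≠ a' := by
    intro h
    have h1 := hσ.1 a
    rw [h, ha1', ha1] at h1
    exact hy.ne h1.symm
  let φ := facePerm G σ
  have hφ : ∀ d, φ d = σ d.symm := fun d => rfl
  let cl : G.Dart → Face G σ := fun d => Quotient.mk _ d
  have hcl : ∀ d, cl (φ d) = cl d := by
    intro d
    exact Quotient.sound (ea_step φ _ _ rfl).symm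
  let k : G.Dart ⊕ Bool → Option (Face G σ) := fun s =>
    match s with
    | Sum.inl d => if d = b ∨ d = a' then none else some (cl d)
    | Sum.inr false => some (cl b)
    | Sum.inr true => none
  have kinl : ∀ d, k (Sum.inl d) = if d = b ∨ d = a' then none else some (cl d) := fun d => rfl
  have kf : k (Sum.inr false) = some (cl b) := rfl
  have kt : k (Sum.inr true) = none := rfl
  have hk : ∀ s, k (eaTau G σ a b (eaRev G s)) = k s := by
    intro s
    rcases s with d | (_ | _)
    · show k (eaTau G σ a b (Sum.inl d.symm)) = k (Sum.inl d)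
      by_cases h1 : d = a'
      · rw [h1, haa, eaTau_a, kt, kinl, if_pos (Or.inr rfl)]
      · have h1' : d.symm ≠ a := by
          intro h
          apply h1
          rw [← haa2, ← h, SimpleGraph.Dart.symm_symm]
        by_cases h2 : σ d.symm = b
        · have h3 : d ≠ b := by
            intro h
            rw [h, hbs] at h2
            exact hba' h2
          rw [eaTau_b G σ a b d.symm h1' h2, kf, kinl, if_neg (by rintro (h | h); exacts [h3 h, h1 h]),
            ← hcl d, hφ, h2]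
        · rw [eaTau_other G σ a b d.symm h1' h2, kinl, kinl]
          by_cases h4 : σ d.symm = a'
          · have h5 : d = b := by
              have h6 : d.symm = b.symm := σ.injective (h4.trans hbs.symm)
              have h7 := congrArg SimpleGraph.Dart.symm h6
              rwa [SimpleGraph.Dart.symm_symm, SimpleGraph.Dart.symm_symm] at h7
            rw [if_pos (Or.inr h4), if_pos (Or.inl h5)]
          · have h5 : d ≠ b := by
              intro h
              rw [h] at h4
              exact h4 hbs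
            rw [if_neg (by rintro (h | h); exacts [h2 h, h4 h]),
              if_neg (by rintro (h | h); exacts [h5 h, h1 h]), ← hφ, hcl]
    · show k (eaTau G σ a b (Sum.inr true)) = k (Sum.inr false)
      rw [eaTau_true G σ a b hab, kinl, if_neg (by rintro (h | h); exacts [hab h, hσaa h]), kf]
      have h1 : φ b = a' := hbs
      have h2 : φ a' = σ a := by rw [hφ, haa]
      rw [← h2, hcl, ← h1, hcl]
    · show k (eaTau G σ a b (Sum.inr false)) = k (Sum.inr true)
      rw [eaTau_false, kinl, if_pos (Or.inl rfl), kt]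
  let E := eaE G x y hxy hn
  let φ' := facePerm _ (eaSig G x y hxy hn σ a b)
  have hφ' : ∀ s, φ' (E s) = E (eaTau G σ a b (eaRev G s)) := fun s =>
    ea_facePerm G x y hxy hn σ a b s
  let k' : (G ⊔ SimpleGraph.edge x y).Dart → Option (Face G σ) := fun e => k (E.symm e)
  have hk' : ∀ e, k' (φ' e) = k' e := by
    intro e
    obtain ⟨s, rfl⟩ := E.surjective e
    show k (E.symm (φ' (E s))) = k (E.symm (E s))
    rw [hφ', E.symm_apply_apply, E.symm_apply_apply, hk]
  have finD : Finite (G ⊔ SimpleGraph.edge x y).Dart :=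
    Finite.of_injective (fun d : (G ⊔ SimpleGraph.edge x y).Dart => d.toProd)
      (fun d d' h => SimpleGraph.Dart.ext d d' h)
  have finD0 : Finite G.Dart := Finite.of_injective (fun d : G.Dart => d.toProd)
      (fun d d' h => SimpleGraph.Dart.ext d d' h)
  have hkc : ∀ e e', φ'.SameCycle e e' → k' e = k' e' := by
    intro e e' h
    obtain ⟨n, rfl⟩ := h.exists_nat_pow_eq
    induction n with
    | zero => rfl
    | succ n ih =>
      rw [pow_succ', Equiv.Perm.mul_apply, hk']
      exact ih (ea_pow_sameCycle φ' φ' id (fun d => ea_step φ' _ _ rfl) n e)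
  let K : Face _ (eaSig G x y hxy hn σ a b) → Option (Face G σ) :=
    Quotient.lift k' (fun e e' h => hkc e e' h)
  have hKs : Function.Surjective K := by
    intro o
    rcases o with _ | c
    · refine ⟨Quotient.mk _ (E (Sum.inr true)), ?_⟩
      show k (E.symm (E (Sum.inr true))) = none
      rw [E.symm_apply_apply]
    · obtain ⟨d, rfl⟩ := Quotient.exists_rep c
      by_cases h : d = b ∨ d = a'
      · refine ⟨Quotient.mk _ (E (Sum.inr false)), ?_⟩
        show k (E.symm (E (Sum.inr false))) = some (cl d)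
        rw [E.symm_apply_apply, kf]
        rcases h with h | h
        · rw [h]
        · have h1 : φ b = a' := hbs
          rw [h, ← h1, hcl]
      · refine ⟨Quotient.mk _ (E (Sum.inl d)), ?_⟩
        show k (E.symm (E (Sum.inl d))) = some (cl d)
        rw [E.symm_apply_apply, kinl, if_neg h]
  have h1 := Nat.card_le_card_of_surjective K hKs
  rwa [Finite.card_option] at h1

theorem ea_core [Finite V] (G : SimpleGraph V) (g : ℕ) (T x y : V)
    (hx : G.Adj x T) (hy : G.Adj y T) (hxy : x ≠ y) (hn : ¬ G.Adj x y)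
    (σ : Equiv.Perm G.Dart) (hσ : IsRotation G σ)
    (hxyσ : σ ⟨(T, x), hx.symm⟩ = ⟨(T, y), hy.symm⟩)
    (h : Nat.card G.edgeSet + 2 * Nat.card G.ConnectedComponent ≤
      Nat.card V + numFaces G σ + 2 * g) : Embeds (G ⊔ SimpleGraph.edge x y) g := by
  classical
  refine ⟨_, ea_rot G x y T hxy hn σ hσ hx hy, ?_⟩
  have hf := ea_faces G x y T hxy hn σ hσ hx hy hxyσ
  have he : Nat.card (G ⊔ SimpleGraph.edge x y).edgeSet ≤ Nat.card G.edgeSet + 1 := by
    have h1 : (G ⊔ SimpleGraph.edge x y).edgeSet ⊆ insert s(x, y) G.edgeSet := by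
      intro e
      induction e using Sym2.ind with
      | _ u v =>
        intro h
        rw [SimpleGraph.mem_edgeSet] at h
        rcases h with h | h
        · exact Or.inr h
        · left
          rw [SimpleGraph.edge_adj] at h
          rcases h.1 with ⟨h1, h2⟩ | ⟨h1, h2⟩
          · rw [h1, h2]
          · rw [h1, h2]; exact Sym2.eq_swap
    have h2 := (Set.ncard_le_ncard h1 (Set.toFinite _)).trans (Set.ncard_insert_le _ _)
    rwa [← Nat.card_coe_set_eq, ← Nat.card_coe_set_eq] at h2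
  have hc : Nat.card (G ⊔ SimpleGraph.edge x y).ConnectedComponent ≤
      Nat.card G.ConnectedComponent := by
    have hle : G ≤ G ⊔ SimpleGraph.edge x y := le_sup_left
    refine Nat.card_le_card_of_surjective
      (SimpleGraph.ConnectedComponent.map (SimpleGraph.Hom.ofLE hle)) ?_
    intro c
    induction c using SimpleGraph.ConnectedComponent.ind with
    | _ v => exact ⟨G.connectedComponentMk v, rfl⟩
  have hi : Nat.card {v : V // ∀ w, ¬ G.Adj v w} ≤
      Nat.card {v : V // ∀ w, ¬ (G ⊔ SimpleGraph.edge x y).Adj v w} := by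
    refine Nat.card_le_card_of_injective (fun v => ⟨v.1, ?_⟩) ?_
    · intro w hw
      rcases hw with hw | hw
      · exact v.2 w hw
      · rw [SimpleGraph.edge_adj] at hw
        rcases hw.1 with ⟨h1, -⟩ | ⟨h1, -⟩
        · exact v.2 T (h1 ▸ hx)
        · exact v.2 T (h1 ▸ hy)
    · intro v w hvw
      have h := congrArg
        (fun z : {v : V // ∀ w, ¬ (G ⊔ SimpleGraph.edge x y).Adj v w} => z.1) hvw
      exact Subtype.ext h
  unfold numFaces at h ⊢
  omega

theorem ea_or [Finite V] (G : SimpleGraph V) (T x y : V)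
    (hx : G.Adj T x) (hy : G.Adj T y) (hxy : x ≠ y) (hT : (G.neighborSet T).ncard ≤ 3)
    (σ : Equiv.Perm G.Dart) (hσ : IsRotation G σ) :
    σ ⟨(T, x), hx⟩ = ⟨(T, y), hy⟩ ∨ σ ⟨(T, y), hy⟩ = ⟨(T, x), hx⟩ := by
  classical
  obtain ⟨p, hp⟩ : ∃ p : G.Dart, p = ⟨(T, x), hx⟩ := ⟨_, rfl⟩
  obtain ⟨r, hr⟩ : ∃ r : G.Dart, r = ⟨(T, y), hy⟩ := ⟨_, rfl⟩
  rw [← hp, ← hr]
  by_contra hcon
  push Not at hcon
  have hp1 : p.fst = T := by rw [hp]
  have hr1 : r.fst = T := by rw [hr]
  have hpr : p ≠ r := by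
    intro h
    have h1 : p.snd = r.snd := by rw [h]
    rw [hp, hr] at h1
    exact hxy h1
  have hsc := hσ.2 p r (by rw [hp1, hr1])
  have hfp : σ p ≠ p := fun h => hpr (hsc.eq_of_left h)
  have hfr : σ r ≠ r := fun h => hpr (hsc.symm.eq_of_left h).symm
  have hne : σ p ≠ σ r := fun h => hpr (σ.injective h)
  have hinj : Set.InjOn (fun d : G.Dart => d.snd) {d | d.fst = T} := by
    intro d hd d' hd' h
    exact SimpleGraph.Dart.ext _ _ (Prod.ext ((show d.fst = T from hd).trans
      (show d'.fst = T from hd').symm) h)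
  have hsub : (fun d : G.Dart => d.snd) '' ({p, r, σ p, σ r} : Set G.Dart) ⊆ G.neighborSet T := by
    rintro v ⟨d, hd, rfl⟩
    have h1 : d.fst = T := by
      rcases hd with h | h | h | h
      · rw [h, hp1]
      · rw [h, hr1]
      · rw [h, hσ.1, hp1]
      · rw [Set.mem_singleton_iff.1 h, hσ.1, hr1]
    show G.Adj T d.snd
    rw [← h1]
    exact d.adj
  have hcard := Set.ncard_le_ncard hsub (Set.toFinite _)
  rw [Set.InjOn.ncard_image] at hcard
  · have h4 : ({p, r, σ p, σ r} : Set G.Dart).ncard = 4 := by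
      rw [Set.ncard_insert_of_notMem, Set.ncard_insert_of_notMem, Set.ncard_pair hne]
      · intro h
        rcases h with h | h
        · exact hcon.1 h.symm
        · exact hfr (Set.mem_singleton_iff.1 h).symm
      · intro h
        rcases h with h | h | h
        · exact hpr h
        · exact hfp h.symm
        · exact hcon.2 (Set.mem_singleton_iff.1 h).symm
    omega
  · refine hinj.mono ?_
    intro d hd
    rcases hd with h | h | h | h
    · show d.fst = T
      rw [h, hp1]
    · show d.fst = T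
      rw [h, hr1]
    · show d.fst = T
      rw [h, hσ.1, hp1]
    · show d.fst = T
      rw [Set.mem_singleton_iff.1 h, hσ.1, hr1]

end eadd

theorem embeds_add {V : Type} [Finite V] (G : SimpleGraph V) (g : ℕ) (T x y : V)
    (hx : G.Adj T x) (hy : G.Adj T y) (hxy : x ≠ y) (hT : (G.neighborSet T).ncard ≤ 3)
    (h : Embeds G g) : Embeds (G ⊔ SimpleGraph.edge x y) g := by
  classical
  by_cases hn : G.Adj x y
  · have h1 : G ⊔ SimpleGraph.edge x y = G := by
      apply sup_eq_left.2
      intro u v huv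
      rw [SimpleGraph.edge_adj] at huv
      rcases huv.1 with ⟨h1, h2⟩ | ⟨h1, h2⟩
      · rw [h1, h2]; exact hn
      · rw [h1, h2]; exact hn.symm
    rw [h1]
    exact h
  · obtain ⟨σ, hσ, hle⟩ := h
    rcases ea_or G T x y hx hy hxy hT σ hσ with h1 | h1
    · exact ea_core G g T x y hx.symm hy.symm hxy hn σ hσ h1 hle
    · have h2 := ea_core G g T y x hy.symm hx.symm hxy.symm (fun h => hn h.symm) σ hσ h1 hle
      rwa [SimpleGraph.edge_comm] at h2

end Pool.Agent.Helper226_Obs
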