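import Pool.Agent.Helper226_Obs.FP.Defs

set_option autoImplicit false

namespace Pool.Agent.Helper226_Obs

open SimpleGraph

/-- The darts of the image graph. -/
noncomputable def dmap {W V : Type} (H : SimpleGraph W) (b : W ↪ V) : H.Dart ≃ (H.map b).Dart :=
  Equiv.ofBijective
    (fun d => (⟨(b d.fst, b d.snd), (SimpleGraph.map_adj b H _ _).2 ⟨_, _, d.adj, rfl, rfl⟩⟩ :
      (H.map b).Dart))
    ⟨by
      intro d d' h
      have h1 := congrArg (fun x : (H.map b).Dart => x.toProd) h
      simp only [Prod.mk.injEq] at h1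
      exact SimpleGraph.Dart.ext _ _ (Prod.ext (b.injective h1.1) (b.injective h1.2)), by
      rintro ⟨⟨x, y⟩, h⟩
      obtain ⟨u, v, huv, rfl, rfl⟩ := (SimpleGraph.map_adj b H _ _).1 h
      exact ⟨⟨(u, v), huv⟩, rfl⟩⟩

theorem dmap_fst {W V : Type} (H : SimpleGraph W) (b : W ↪ V) (d : H.Dart) :
    (dmap H b d).fst = b d.fst := rfl

theorem dmap_symm {W V : Type} (H : SimpleGraph W) (b : W ↪ V) (d : H.Dart) :
    dmap H b d.symm = (dmap H b d).symm := rfl

theorem rot_transport {W V : Type} (H : SimpleGraph W) (b : W ↪ V)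
    (τ : Equiv.Perm H.Dart) :
    IsRotation (H.map b) ((dmap H b).permCongr τ) ↔ IsRotation H τ := by
  have hz : ∀ (n : ℤ) (d : H.Dart), ((dmap H b).permCongr τ ^ n) (dmap H b d)
      = dmap H b ((τ ^ n) d) := by
    intro n d
    have : (dmap H b).permCongr τ ^ n = (dmap H b).permCongr (τ ^ n) :=
      (map_zpow ((dmap H b).permCongrHom) τ n).symm
    rw [this]
    simp [Equiv.permCongr_apply]
  have hsc : ∀ d d' : H.Dart, ((dmap H b).permCongr τ).SameCycle (dmap H b d) (dmap H b d')
      ↔ τ.SameCycle d d' := by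
    intro d d'
    constructor
    · rintro ⟨n, hn⟩
      rw [hz] at hn
      exact ⟨n, (dmap H b).injective hn⟩
    · rintro ⟨n, hn⟩
      exact ⟨n, by rw [hz, hn]⟩
  unfold IsRotation
  constructor
  · rintro ⟨h1, h2⟩
    refine ⟨fun d => ?_, fun d d' h => ?_⟩
    · have := h1 (dmap H b d)
      have h3 := hz 1 d
      rw [zpow_one, zpow_one] at h3
      rw [h3, dmap_fst, dmap_fst] at this
      exact b.injective this
    · rw [← hsc]
      exact h2 _ _ (by rw [dmap_fst, dmap_fst, h])
  · rintro ⟨h1, h2⟩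
    refine ⟨fun d => ?_, fun d d' h => ?_⟩
    · obtain ⟨d, rfl⟩ := (dmap H b).surjective d
      have h3 := hz 1 d
      rw [zpow_one, zpow_one] at h3
      rw [h3, dmap_fst, dmap_fst, h1]
    · obtain ⟨d, rfl⟩ := (dmap H b).surjective d
      obtain ⟨d', rfl⟩ := (dmap H b).surjective d'
      rw [hsc]
      refine h2 _ _ (b.injective ?_)
      rwa [dmap_fst, dmap_fst] at h

theorem face_transport {W V : Type} (H : SimpleGraph W) (b : W ↪ V)
    (τ : Equiv.Perm H.Dart) :
    Nat.card (Face (H.map b) ((dmap H b).permCongr τ)) = Nat.card (Face H τ) := by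
  have h0 : facePerm (H.map b) ((dmap H b).permCongr τ)
      = (dmap H b).permCongr (facePerm H τ) := by
    ext1 d
    obtain ⟨d, rfl⟩ := (dmap H b).surjective d
    have h1 : (revPerm (H.map b)) (dmap H b d) = dmap H b (revPerm H d) := rfl
    show ((dmap H b).permCongr τ) ((revPerm (H.map b)) (dmap H b d)) = _
    rw [h1, Equiv.permCongr_apply, Equiv.permCongr_apply, Equiv.symm_apply_apply,
      Equiv.symm_apply_apply]
    rfl
  have hz : ∀ (n : ℤ) (d : H.Dart), ((dmap H b).permCongr (facePerm H τ) ^ n) (dmap H b d)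
      = dmap H b (((facePerm H τ) ^ n) d) := by
    intro n d
    have : (dmap H b).permCongr (facePerm H τ) ^ n = (dmap H b).permCongr ((facePerm H τ) ^ n) :=
      (map_zpow ((dmap H b).permCongrHom) (facePerm H τ) n).symm
    rw [this]
    simp [Equiv.permCongr_apply]
  refine Nat.card_congr (Quotient.congr (dmap H b).symm ?_)
  intro d d'
  obtain ⟨d, rfl⟩ := (dmap H b).surjective d
  obtain ⟨d', rfl⟩ := (dmap H b).surjective d'
  show (facePerm (H.map b) ((dmap H b).permCongr τ)).SameCycle _ _ ↔
    (facePerm H τ).SameCycle _ _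
  rw [h0, Equiv.symm_apply_apply, Equiv.symm_apply_apply]
  constructor
  · rintro ⟨n, hn⟩
    rw [hz] at hn
    exact ⟨n, (dmap H b).injective hn⟩
  · rintro ⟨n, hn⟩
    exact ⟨n, by rw [hz, hn]⟩

theorem reach_map {W V : Type} (H : SimpleGraph W) (b : W ↪ V) {x : W} {v : V}
    (h : (H.map b).Reachable (b x) v) : ∃ y, v = b y ∧ H.Reachable x y := by
  obtain ⟨p⟩ := h
  generalize hu : b x = u at p
  induction p generalizing x with
  | nil => exact ⟨x, hu.symm, SimpleGraph.Reachable.refl _⟩
  | cons hadj q ih =>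
    obtain ⟨u', v', huv, h1, h2⟩ := (SimpleGraph.map_adj b H _ _).1 hadj
    subst hu
    have : u' = x := b.injective h1
    subst this
    obtain ⟨y, hy, hr⟩ := ih h2
    exact ⟨y, hy, huv.reachable.trans hr⟩

theorem iso_out {W V : Type} (H : SimpleGraph W) (b : W ↪ V) {v : V} (hv : v ∉ Set.range b)
    (w : V) : ¬ (H.map b).Adj v w := by
  intro h
  obtain ⟨u', v', huv, h1, h2⟩ := (SimpleGraph.map_adj b H _ _).1 h
  exact hv ⟨u', h1⟩

theorem reach_out {W V : Type} (H : SimpleGraph W) (b : W ↪ V) {v w : V}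
    (hv : v ∉ Set.range b) (h : (H.map b).Reachable v w) : v = w := by
  obtain ⟨p⟩ := h
  cases p with
  | nil => rfl
  | cons hadj q => exact absurd hadj (iso_out H b hv _)

theorem card_comp {W V : Type} [Finite V] (H : SimpleGraph W) (b : W ↪ V) :
    Nat.card (H.map b).ConnectedComponent
      = Nat.card H.ConnectedComponent + Nat.card {v : V // v ∉ Set.range b} := by
  have : Finite W := Finite.of_injective b b.injective
  have : Finite H.ConnectedComponent := Quot.finite _
  rw [← Nat.card_sum]
  symm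
  refine Nat.card_congr (Equiv.ofBijective
    (Sum.elim (fun c => c.map (SimpleGraph.Embedding.map b H).toHom)
      (fun v => (H.map b).connectedComponentMk v.1)) ⟨?_, ?_⟩)
  · intro c c' h
    rcases c with c | ⟨v, hv⟩
    · rcases c' with c' | ⟨v', hv'⟩
      · induction c using SimpleGraph.ConnectedComponent.ind with | _ x => ?_
        induction c' using SimpleGraph.ConnectedComponent.ind with | _ x' => ?_
        simp only [Sum.elim_inl, SimpleGraph.ConnectedComponent.map_mk] at h
        rw [SimpleGraph.ConnectedComponent.eq] at h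
        obtain ⟨y, hy, hr⟩ := reach_map H b h
        have : x' = y := b.injective hy
        subst this
        exact congrArg Sum.inl (SimpleGraph.ConnectedComponent.eq.2 hr)
      · induction c using SimpleGraph.ConnectedComponent.ind with | _ x => ?_
        simp only [Sum.elim_inl, Sum.elim_inr, SimpleGraph.ConnectedComponent.map_mk] at h
        rw [SimpleGraph.ConnectedComponent.eq] at h
        obtain ⟨y, hy, hr⟩ := reach_map H b h
        exact absurd ⟨y, hy.symm⟩ hv'
    · rcases c' with c' | ⟨v', hv'⟩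
      · induction c' using SimpleGraph.ConnectedComponent.ind with | _ x => ?_
        simp only [Sum.elim_inl, Sum.elim_inr, SimpleGraph.ConnectedComponent.map_mk] at h
        rw [SimpleGraph.ConnectedComponent.eq] at h
        obtain ⟨y, hy, hr⟩ := reach_map H b h.symm
        exact absurd ⟨y, hy.symm⟩ hv
      · simp only [Sum.elim_inr] at h
        rw [SimpleGraph.ConnectedComponent.eq] at h
        have := reach_out H b hv h
        subst this
        rfl
  · intro c
    induction c using SimpleGraph.ConnectedComponent.ind with | _ v => ?_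
    by_cases hv : v ∈ Set.range b
    · obtain ⟨x, rfl⟩ := hv
      exact ⟨Sum.inl (H.connectedComponentMk x), rfl⟩
    · exact ⟨Sum.inr ⟨v, hv⟩, rfl⟩

theorem card_iso {W V : Type} [Finite V] (H : SimpleGraph W) (b : W ↪ V) :
    Nat.card {v : V // ∀ w, ¬ (H.map b).Adj v w}
      = Nat.card {v : W // ∀ w, ¬ H.Adj v w} + Nat.card {v : V // v ∉ Set.range b} := by
  have : Finite W := Finite.of_injective b b.injective
  rw [← Nat.card_sum]
  symm
  refine Nat.card_congr (Equiv.ofBijective
    (Sum.elim (fun c => (⟨b c.1, fun w hw => by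
        obtain ⟨u', v', huv, h1, h2⟩ := (SimpleGraph.map_adj b H _ _).1 hw
        have : u' = c.1 := b.injective h1
        subst this
        exact c.2 _ huv⟩ : {v : V // ∀ w, ¬ (H.map b).Adj v w}))
      (fun v => ⟨v.1, iso_out H b v.2⟩)) ⟨?_, ?_⟩)
  · intro c c' h
    rcases c with ⟨x, hx⟩ | ⟨v, hv⟩
    · rcases c' with ⟨x', hx'⟩ | ⟨v', hv'⟩
      · have h1 := congrArg Subtype.val h
        have h2 : x = x' := b.injective h1
        subst h2
        rfl
      · have h1 : b x = v' := congrArg Subtype.val h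
        exact absurd ⟨x, h1⟩ hv'
    · rcases c' with ⟨x', hx'⟩ | ⟨v', hv'⟩
      · have h1 : v = b x' := congrArg Subtype.val h
        exact absurd ⟨x', h1.symm⟩ hv
      · have h1 : v = v' := congrArg Subtype.val h
        subst h1
        rfl
  · rintro ⟨v, hv⟩
    by_cases hr : v ∈ Set.range b
    · obtain ⟨x, rfl⟩ := hr
      exact ⟨Sum.inl ⟨x, fun w hw => hv (b w)
        ((SimpleGraph.map_adj b H _ _).2 ⟨_, _, hw, rfl, rfl⟩)⟩, rfl⟩
    · exact ⟨Sum.inr ⟨v, hr⟩, rfl⟩

theorem card_vert {W V : Type} [Finite V] (b : W ↪ V) :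
    Nat.card V = Nat.card W + Nat.card {v : V // v ∉ Set.range b} := by
  have : Finite W := Finite.of_injective b b.injective
  rw [← Nat.card_sum]
  symm
  refine Nat.card_congr (Equiv.ofBijective
    (Sum.elim b (fun v => v.1)) ⟨?_, ?_⟩)
  · intro c c' h
    rcases c with x | ⟨v, hv⟩
    · rcases c' with x' | ⟨v', hv'⟩
      · exact congrArg Sum.inl (b.injective h)
      · exact absurd ⟨x, h⟩ hv'
    · rcases c' with x' | ⟨v', hv'⟩
      · exact absurd ⟨x', h.symm⟩ hv
      · have h1 : v = v' := h
        subst h1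
        rfl
  · intro v
    by_cases hr : v ∈ Set.range b
    · obtain ⟨x, rfl⟩ := hr
      exact ⟨Sum.inl x, rfl⟩
    · exact ⟨Sum.inr ⟨v, hr⟩, rfl⟩

theorem card_edge {W V : Type} (H : SimpleGraph W) (b : W ↪ V) :
    Nat.card (H.map b).edgeSet = Nat.card H.edgeSet := by
  rw [SimpleGraph.edgeSet_map]
  exact Nat.card_image_of_injective b.sym2Map.injective _

theorem embeds_map_aux {W V : Type} [Finite V] (H : SimpleGraph W) (b : W ↪ V) (g : ℕ)
    (τ : Equiv.Perm H.Dart) :
    (Nat.card (H.map b).edgeSet + 2 * Nat.card (H.map b).ConnectedComponent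
      ≤ Nat.card V + numFaces (H.map b) ((dmap H b).permCongr τ) + 2 * g) ↔
    (Nat.card H.edgeSet + 2 * Nat.card H.ConnectedComponent
      ≤ Nat.card W + numFaces H τ + 2 * g) := by
  unfold numFaces
  rw [card_edge, card_comp, face_transport, card_iso, card_vert b]
  omega

theorem embeds_map0 {W V : Type} [Finite V] (H : SimpleGraph W) (b : W ↪ V) (g : ℕ) :
    Embeds (H.map b) g ↔ Embeds H g := by
  constructor
  · rintro ⟨σ, h1, h2⟩
    obtain ⟨τ, rfl⟩ := (dmap H b).permCongr.surjective σ
    exact ⟨τ, (rot_transport H b τ).1 h1, (embeds_map_aux H b g τ).1 h2⟩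
  · rintro ⟨τ, h1, h2⟩
    exact ⟨(dmap H b).permCongr τ, (rot_transport H b τ).2 h1, (embeds_map_aux H b g τ).2 h2⟩

theorem embeds_iso {W V : Type} [Finite V] {H : SimpleGraph W} {G : SimpleGraph V} (e : H ≃g G)
    {g : ℕ} (h : Embeds G g) : Embeds H g := by
  have hG : G = H.map e.toEquiv.toEmbedding := by
    ext x y
    rw [SimpleGraph.map_adj]
    constructor
    · intro hxy
      refine ⟨e.symm x, e.symm y, ?_, ?_, ?_⟩
      · exact e.symm.map_adj_iff.2 hxy
      · exact e.apply_symm_apply x
      · exact e.apply_symm_apply y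
    · rintro ⟨u, v, huv, rfl, rfl⟩
      exact e.map_adj_iff.2 huv
  rw [hG] at h
  exact (embeds_map0 H _ g).1 h

theorem embeds_map {W V : Type} [Finite V] (H : SimpleGraph W) (b : W ↪ V) (g : ℕ) :
    Embeds (H.map b) g ↔ Embeds H g := embeds_map0 H b g

theorem ctr_swap {V : Type} [DecidableEq V] (G : SimpleGraph V) (u v x y : V)
    (h : (ctr G v u).Adj x y) : (ctr G u v).Adj (Equiv.swap u v x) (Equiv.swap u v y) := by
  obtain ⟨h1, h2, h3, h4⟩ := h
  by_cases huv : u = v
  · subst huv
    simp only [Equiv.swap_self, Equiv.refl_apply]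
    exact ⟨h1, h2, h3, h4⟩
  · by_cases hx : x = v
    · subst hx
      have hy : y ≠ x := fun e => h1 e.symm
      rw [Equiv.swap_apply_right, Equiv.swap_apply_of_ne_of_ne h3 hy]
      refine ⟨fun e => h3 e.symm, huv, hy, ?_⟩
      rcases h4 with h | ⟨_, h⟩ | ⟨h, _⟩
      · exact Or.inr (Or.inl ⟨rfl, h⟩)
      · exact Or.inl h
      · exact absurd h hy
    · by_cases hy : y = v
      · subst hy
        rw [Equiv.swap_apply_right, Equiv.swap_apply_of_ne_of_ne h2 hx]
        refine ⟨h2, hx, huv, ?_⟩
        rcases h4 with h | ⟨h, _⟩ | ⟨_, h⟩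
        · exact Or.inr (Or.inr ⟨rfl, h.symm⟩)
        · exact absurd h hx
        · exact Or.inl h.symm
      · rw [Equiv.swap_apply_of_ne_of_ne h2 hx, Equiv.swap_apply_of_ne_of_ne h3 hy]
        refine ⟨h1, hx, hy, ?_⟩
        rcases h4 with h | ⟨h, _⟩ | ⟨h, _⟩
        · exact Or.inl h
        · exact absurd h hx
        · exact absurd h hy

theorem ctr_comm {V : Type} [Finite V] (G : SimpleGraph V) (u v : V) (g : ℕ)
    (h : Embeds (ctr G u v) g) : Embeds (ctr G v u) g := by
  classical
  let e : ctr G v u ≃g ctr G u v :=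
    { toEquiv := Equiv.swap u v
      map_rel_iff' := by
        intro x y
        constructor
        · intro h
          have := ctr_swap G v u _ _ h
          rwa [Equiv.swap_comm v u, Equiv.swap_apply_self, Equiv.swap_apply_self] at this
        · exact ctr_swap G u v x y }
  exact embeds_iso e h

end Pool.Agent.Helper226_Obs
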