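import Pool.Agent.Helper226_Obs.FP.B02
import Pool.Agent.Helper226_Obs.FP.B04

set_option autoImplicit false

namespace Pool.Agent.Helper226_Obs

open SimpleGraph

theorem embeds_mono_aux {V : Type} [Finite V] (H : SimpleGraph V) (g : ℕ) (n : ℕ) :
    ∀ G : SimpleGraph V, (G.edgeSet \ H.edgeSet).ncard = n → H ≤ G → Embeds G g → Embeds H g := by
  induction n with
  | zero =>
    intro G hn hHG h
    have hG : G ≤ H := by
      intro u v huv
      by_contra hc
      have h1 : s(u, v) ∈ G.edgeSet \ H.edgeSet := ⟨huv, hc⟩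
      have h2 : (G.edgeSet \ H.edgeSet) = ∅ := (Set.ncard_eq_zero (Set.toFinite _)).1 hn
      rw [h2] at h1
      exact h1
    rw [le_antisymm hHG hG]
    exact h
  | succ n ih =>
    intro G hn hHG h
    have hne : (G.edgeSet \ H.edgeSet).Nonempty := by
      rw [Set.nonempty_iff_ne_empty]
      intro hc
      rw [hc, Set.ncard_empty] at hn
      omega
    obtain ⟨e, he⟩ := hne
    induction e using Sym2.ind with
    | _ u v =>
    refine ih (G.deleteEdges {s(u, v)}) ?_ ?_ (embeds_deleteEdge G g u v he.1 h)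
    · have h1 : (G.deleteEdges {s(u, v)}).edgeSet \ H.edgeSet =
          (G.edgeSet \ H.edgeSet) \ {s(u, v)} := by
        rw [SimpleGraph.edgeSet_deleteEdges]
        ext e
        constructor
        · rintro ⟨⟨a, b⟩, c⟩
          exact ⟨⟨a, c⟩, b⟩
        · rintro ⟨⟨a, c⟩, b⟩
          exact ⟨⟨a, b⟩, c⟩
      rw [h1, Set.ncard_sdiff_singleton_of_mem he, hn]
      rfl
    · intro a b hab
      rw [SimpleGraph.deleteEdges_adj]
      refine ⟨hHG hab, fun hc => he.2 ?_⟩
      have h2 : s(a, b) = s(u, v) := hc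
      rw [← h2]
      exact hab

theorem embeds_mono {V : Type} [Finite V] (H G : SimpleGraph V) (hHG : H ≤ G) (g : ℕ)
    (h : Embeds G g) : Embeds H g :=
  embeds_mono_aux H g _ G rfl hHG h

open Classical in
/-- The map which sends `v` to `u`. -/
noncomputable def embeds_phi {V : Type} (u v w : V) : V := if w = v then u else w

theorem embeds_phi_adj {V : Type} {G : SimpleGraph V} {u v a b : V} (huv : u ≠ v)
    (h : G.Adj a b) : embeds_phi u v a = embeds_phi u v b ∨
      (ctr G u v).Adj (embeds_phi u v a) (embeds_phi u v b) := by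
  by_cases hc : embeds_phi u v a = embeds_phi u v b
  · exact Or.inl hc
  · refine Or.inr ⟨hc, ?_, ?_, ?_⟩
    · unfold embeds_phi
      split_ifs with h1
      · exact huv
      · exact h1
    · unfold embeds_phi
      split_ifs with h1
      · exact huv
      · exact h1
    · by_cases ha : a = v
      · by_cases hb : b = v
        · subst ha
          subst hb
          exact absurd h (G.loopless.irrefl _)
        · refine Or.inr (Or.inl ⟨?_, ?_⟩)
          · unfold embeds_phi
            rw [if_pos ha]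
          · unfold embeds_phi
            rw [if_neg hb, ← ha]
            exact h
      · by_cases hb : b = v
        · refine Or.inr (Or.inr ⟨?_, ?_⟩)
          · unfold embeds_phi
            rw [if_pos hb]
          · unfold embeds_phi
            rw [if_neg ha, ← hb]
            exact h.symm
        · refine Or.inl ?_
          unfold embeds_phi
          rw [if_neg ha, if_neg hb]
          exact h

theorem embeds_phi_mem {V : Type} {u v : V} {S : Set V} (huv : u ≠ v) (hS : v ∈ S → u ∈ S)
    {a : V} (ha : a ∈ S) : embeds_phi u v a ∈ S \ {v} := by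
  unfold embeds_phi
  split_ifs with h
  · exact ⟨hS (h ▸ ha), huv⟩
  · exact ⟨ha, h⟩

theorem embeds_ctr_conn {V : Type} {G : SimpleGraph V} {u v : V} {S : Set V} (huv : u ≠ v)
    (hS : v ∈ S → u ∈ S) (hc : (G.induce S).Connected) :
    ((ctr G u v).induce (S \ {v})).Connected := by
  have key : ∀ a b : S, (G.induce S).Walk a b →
      ((ctr G u v).induce (S \ {v})).Reachable
        ⟨embeds_phi u v a, embeds_phi_mem huv hS a.2⟩
        ⟨embeds_phi u v b, embeds_phi_mem huv hS b.2⟩ := by
    intro a b p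
    induction p with
    | nil => exact SimpleGraph.Reachable.refl _
    | cons h p ih =>
      refine SimpleGraph.Reachable.trans ?_ ih
      rcases embeds_phi_adj (G := G) huv h with h1 | h1
      · have h2 : ∀ (x y : V) (hx : x ∈ S \ {v}) (hy : y ∈ S \ {v}), x = y →
            ((ctr G u v).induce (S \ {v})).Reachable ⟨x, hx⟩ ⟨y, hy⟩ := by
          intro x y hx hy hxy
          subst hxy
          exact SimpleGraph.Reachable.refl _
        exact h2 _ _ _ _ h1
      · exact SimpleGraph.Adj.reachable h1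
  have hphi : ∀ a : V, a ≠ v → embeds_phi u v a = a := by
    intro a ha
    unfold embeds_phi
    rw [if_neg ha]
  have hne : Nonempty (S \ {v} : Set V) := by
    obtain ⟨a⟩ := hc.nonempty
    exact ⟨⟨_, embeds_phi_mem huv hS a.2⟩⟩
  refine SimpleGraph.Connected.mk ?_
  rintro ⟨a, ha⟩ ⟨b, hb⟩
  obtain ⟨p⟩ := hc.preconnected ⟨a, ha.1⟩ ⟨b, hb.1⟩
  have h1 := key _ _ p
  have ea : (⟨embeds_phi u v a, embeds_phi_mem huv hS ha.1⟩ : (S \ {v} : Set V)) = ⟨a, ha⟩ :=
    Subtype.ext (hphi a ha.2)
  have eb : (⟨embeds_phi u v b, embeds_phi_mem huv hS hb.1⟩ : (S \ {v} : Set V)) = ⟨b, hb⟩ :=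
    Subtype.ext (hphi b hb.2)
  rw [← ea, ← eb]
  exact h1

theorem embeds_minor_aux {W V : Type} [Finite V] (H : SimpleGraph W) (g : ℕ) (n : ℕ) :
    ∀ (G : SimpleGraph V) (B : W → Set V), (⋃ x, B x).ncard = n →
    (∀ x, (G.induce (B x)).Connected) → (∀ x y, x ≠ y → Disjoint (B x) (B y)) →
    (∀ x y, H.Adj x y → ∃ u ∈ B x, ∃ v ∈ B y, G.Adj u v) → Embeds G g → Embeds H g := by
  induction n using Nat.strong_induction_on with
  | _ n ih =>
  intro G B hn hc hd he h
  by_cases hs : ∃ x, ∃ a ∈ B x, ∃ b ∈ B x, a ≠ b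
  · obtain ⟨x, a, ha, b, hb, hab⟩ := hs
    have h1 : ∃ u ∈ B x, ∃ v ∈ B x, G.Adj u v := by
      obtain ⟨p⟩ := (hc x).preconnected ⟨a, ha⟩ ⟨b, hb⟩
      cases p with
      | nil => exact absurd rfl hab
      | cons hq q => exact ⟨_, ha, _, Subtype.mem _, hq⟩
    obtain ⟨u, hu, v, hv, huv⟩ := h1
    have hne : u ≠ v := huv.ne
    have hS : ∀ z, v ∈ B z → u ∈ B z := by
      intro z hz
      by_cases hzx : z = x
      · rw [hzx]
        exact hu
      · exact absurd hv (Set.disjoint_left.1 (hd z x hzx) hz)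
    refine ih _ ?_ (ctr G u v) (fun z => B z \ {v}) rfl (fun z => embeds_ctr_conn hne (hS z) (hc z))
      (fun y z hyz => ((hd y z hyz).mono Set.sdiff_subset Set.sdiff_subset)) ?_
      (embeds_ctr G g u v huv h)
    · have h2 : (⋃ z, B z \ {v}) = (⋃ z, B z) \ {v} := by
        rw [Set.iUnion_sdiff]
      have h3 : v ∈ ⋃ z, B z := Set.mem_iUnion.2 ⟨x, hv⟩
      rw [h2, ← hn]
      exact Set.ncard_sdiff_singleton_lt_of_mem h3 (Set.toFinite _)
    · intro y z hyz
      obtain ⟨a, ha, b, hb, hab⟩ := he y z hyz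
      refine ⟨_, embeds_phi_mem hne (hS y) ha, _, embeds_phi_mem hne (hS z) hb, ?_⟩
      rcases embeds_phi_adj hne hab with h2 | h2
      · exfalso
        have h3 := embeds_phi_mem hne (hS y) ha
        have h4 := embeds_phi_mem hne (hS z) hb
        rw [h2] at h3
        exact Set.disjoint_left.1 (hd y z hyz.ne) h3.1 h4.1
      · exact h2
  · push Not at hs
    have hb : ∀ x, ∃ a, a ∈ B x := by
      intro x
      obtain ⟨a⟩ := (hc x).nonempty
      exact ⟨a, a.2⟩
    choose b hb using hb
    have hinj : Function.Injective b := by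
      intro x y hxy
      by_contra hc
      exact Set.disjoint_left.1 (hd x y hc) (hb x) (hxy ▸ hb y)
    rw [← embeds_map H ⟨b, hinj⟩ g]
    refine embeds_mono _ G ?_ g h
    intro p q hpq
    rw [SimpleGraph.map_adj] at hpq
    obtain ⟨x, y, hxy, rfl, rfl⟩ := hpq
    obtain ⟨a, ha, c, hc', hac⟩ := he x y hxy
    rw [hs x a ha _ (hb x), hs y c hc' _ (hb y)] at hac
    exact hac

theorem embeds_minor {W V : Type} [Finite V] (H : SimpleGraph W) (G : SimpleGraph V)
    (hHG : IsMinor H G) (g : ℕ) (h : Embeds G g) : Embeds H g := by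
  obtain ⟨B, h1, h2, h3⟩ := hHG
  exact embeds_minor_aux H g _ G B rfl h1 h2 h3 h

end Pool.Agent.Helper226_Obs
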