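import Pool.Agent.Helper226_Obs.FP.B05

set_option autoImplicit false

namespace Pool.Agent.Helper226_Obs

open SimpleGraph

/-- Connectedness of a set of vertices, by means of closed predicates. -/
def SConn {V : Type} (G : SimpleGraph V) (B : Set V) : Prop :=
  B.Nonempty ∧ ∀ P : V → Prop, (∀ u ∈ B, ∀ v ∈ B, G.Adj u v → P u → P v) →
    ∀ u ∈ B, ∀ v ∈ B, P u → P v

theorem sconn_of_connected {V : Type} {G : SimpleGraph V} {B : Set V}
    (h : (G.induce B).Connected) : SConn G B := by
  refine ⟨?_, ?_⟩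
  · obtain ⟨x⟩ := h.nonempty
    exact ⟨x.1, x.2⟩
  · intro P hP u hu v hv hPu
    obtain ⟨p⟩ := h.preconnected ⟨u, hu⟩ ⟨v, hv⟩
    have key : ∀ (a b : B), (G.induce B).Walk a b → P a.1 → P b.1 := by
      intro a b q
      induction q with
      | nil => exact id
      | cons hadj _ ih =>
        intro ha
        exact ih (hP _ (Subtype.property _) _ (Subtype.property _) hadj ha)
    exact key _ _ p hPu

theorem connected_of_sconn {V : Type} {G : SimpleGraph V} {B : Set V}
    (h : SConn G B) : (G.induce B).Connected := by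
  obtain ⟨⟨z, hz⟩, h2⟩ := h
  have : Nonempty B := ⟨⟨z, hz⟩⟩
  refine SimpleGraph.Connected.mk ?_
  rintro ⟨u, hu⟩ ⟨v, hv⟩
  have := h2 (fun w => ∃ hw : w ∈ B, (G.induce B).Reachable ⟨u, hu⟩ ⟨w, hw⟩) (by
    rintro a ha b hb hab ⟨_, hr⟩
    refine ⟨hb, hr.trans ?_⟩
    exact SimpleGraph.Adj.reachable (G := G.induce B) (u := ⟨a, ha⟩) (v := ⟨b, hb⟩) hab)
    u hu v hv ⟨hu, SimpleGraph.Reachable.refl _⟩
  exact this.2

theorem sconn_image {W V : Type} {K : SimpleGraph W} {G : SimpleGraph V} (f : W → V)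
    (hf : ∀ a b, K.Adj a b → G.Adj (f a) (f b)) {B : Set W} (h : SConn K B) :
    SConn G (f '' B) := by
  refine ⟨h.1.image f, ?_⟩
  rintro P hP _ ⟨a, ha, rfl⟩ _ ⟨b, hb, rfl⟩ hPa
  exact h.2 (fun w => P (f w)) (fun u hu v hv huv hPu =>
    hP _ ⟨u, hu, rfl⟩ _ ⟨v, hv, rfl⟩ (hf _ _ huv) hPu) a ha b hb hPa

theorem sconn_singleton {V : Type} (G : SimpleGraph V) (a : V) : SConn G {a} := by
  refine ⟨⟨a, rfl⟩, ?_⟩
  rintro P _ u rfl v rfl h
  exact h

/-- A minor given by branch sets in the sense of `SConn`. -/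
theorem isMinor_of_sconn {W V : Type} {H : SimpleGraph W} {G : SimpleGraph V} (B : W → Set V)
    (h1 : ∀ x, SConn G (B x)) (h2 : ∀ x y, x ≠ y → Disjoint (B x) (B y))
    (h3 : ∀ x y, H.Adj x y → ∃ u ∈ B x, ∃ v ∈ B y, G.Adj u v) : IsMinor H G :=
  ⟨B, fun x => connected_of_sconn (h1 x), h2, h3⟩

/-- If a branch set contains both ends of an edge, the edge can be contracted. -/
theorem isMinor_ctr {W V : Type} {H : SimpleGraph W} {G : SimpleGraph V} (B : W → Set V)
    (h1 : ∀ x, SConn G (B x)) (h2 : ∀ x y, x ≠ y → Disjoint (B x) (B y))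
    (h3 : ∀ x y, H.Adj x y → ∃ u ∈ B x, ∃ v ∈ B y, G.Adj u v)
    {x : W} {u v : V} (hu : u ∈ B x) (hv : v ∈ B x) (huv : G.Adj u v) :
    IsMinor H (ctr G u v) := by
  classical
  have hne : u ≠ v := huv.ne
  have hvy : ∀ y, v ∈ B y → y = x := by
    intro y hy
    by_contra hyx
    exact Set.disjoint_left.1 (h2 y x hyx) hy hv
  have huy : ∀ y, u ∈ B y → y = x := by
    intro y hy
    by_contra hyx
    exact Set.disjoint_left.1 (h2 y x hyx) hy hu
  refine isMinor_of_sconn (fun y => B y \ {v}) ?_ ?_ ?_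
  · intro y
    by_cases hyx : y = x
    · subst hyx
      refine ⟨⟨u, hu, hne⟩, ?_⟩
      intro P hP a ha b hb hPa
      have key := (h1 y).2 (fun w => (w = v → P u) ∧ (w ≠ v → P w)) (by
        rintro c hc d hd hcd ⟨hc1, hc2⟩
        constructor
        · intro hdv
          subst hdv
          have hcd' : c ≠ d := hcd.ne
          by_cases hcu : c = u
          · subst hcu
            exact hc2 hcd'
          · exact hP c ⟨hc, hcd'⟩ u ⟨hu, hne⟩
              ⟨hcu, hcd', hne, Or.inr (Or.inr ⟨rfl, hcd.symm⟩)⟩ (hc2 hcd')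
        · intro hdv
          by_cases hcv : c = v
          · subst hcv
            by_cases hdu : d = u
            · subst hdu
              exact hc1 rfl
            · exact hP u ⟨hu, hne⟩ d ⟨hd, hdv⟩
                ⟨fun h => hdu h.symm, hne, hdv, Or.inr (Or.inl ⟨rfl, hcd⟩)⟩ (hc1 rfl)
          · exact hP c ⟨hc, hcv⟩ d ⟨hd, hdv⟩ ⟨hcd.ne, hcv, hdv, Or.inl hcd⟩ (hc2 hcv))
        a ha.1 b hb.1 ⟨fun h => absurd h ha.2, fun _ => hPa⟩
      exact key.2 hb.2
    · have hvn : v ∉ B y := fun h => hyx (hvy y h)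
      have hBy : B y \ {v} = B y := Set.sdiff_singleton_eq_self hvn
      simp only [hBy]
      refine ⟨(h1 y).1, ?_⟩
      intro P hP a ha b hb hPa
      refine (h1 y).2 P ?_ a ha b hb hPa
      intro c hc d hd hcd hPc
      exact hP c hc d hd ⟨hcd.ne, fun h => hvn (h ▸ hc), fun h => hvn (h ▸ hd), Or.inl hcd⟩ hPc
  · intro y z hyz
    exact (h2 y z hyz).mono Set.sdiff_subset Set.sdiff_subset
  · intro y z hyz
    obtain ⟨a, ha, b, hb, hab⟩ := h3 y z hyz
    have hyz' : y ≠ z := hyz.ne
    by_cases hav : a = v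
    · subst hav
      have hyx : y = x := hvy y ha
      subst hyx
      have hba : b ≠ a := hab.ne.symm
      have hub : u ≠ b := by
        intro h
        subst h
        exact hyz' (huy z hb).symm
      exact ⟨u, ⟨hu, hne⟩, b, ⟨hb, hba⟩, hub, hne, hba, Or.inr (Or.inl ⟨rfl, hab⟩)⟩
    · by_cases hbv : b = v
      · subst hbv
        have hzx : z = x := hvy z hb
        subst hzx
        have hau : a ≠ u := by
          intro h
          subst h
          exact hyz' (huy y ha)
        exact ⟨a, ⟨ha, hav⟩, u, ⟨hu, hne⟩, hau, hav, hne, Or.inr (Or.inr ⟨rfl, hab.symm⟩)⟩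
      · exact ⟨a, ⟨ha, hav⟩, b, ⟨hb, hbv⟩, hab.ne, hav, hbv, Or.inl hab⟩

/-- A connected set with two elements contains both ends of an edge. -/
theorem exists_adj_of_sconn {V : Type} {G : SimpleGraph V} {B : Set V} (h : SConn G B)
    {a b : V} (ha : a ∈ B) (hb : b ∈ B) (hab : a ≠ b) : ∃ u ∈ B, ∃ v ∈ B, G.Adj u v := by
  by_contra hno
  push Not at hno
  have := h.2 (fun w => w = a) (fun u hu v hv huv _ => absurd huv (hno u hu v hv)) a ha b hb rfl
  exact hab this.symm

/-- Deleting an edge that is not used by singleton branch sets. -/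
theorem isMinor_del {W V : Type} {H : SimpleGraph W} {G : SimpleGraph V} (b : W → V)
    (hb : Function.Injective b) (h3 : ∀ x y, H.Adj x y → G.Adj (b x) (b y)) (p q : V)
    (hpq : ∀ x y, H.Adj x y → s(b x, b y) ≠ s(p, q)) :
    IsMinor H (G.deleteEdges {s(p, q)}) := by
  refine isMinor_of_sconn (fun x => {b x}) (fun x => sconn_singleton _ _) ?_ ?_
  · intro x y hxy
    exact Set.disjoint_singleton.2 (fun h => hxy (hb h))
  · intro x y hxy
    refine ⟨b x, rfl, b y, rfl, ?_⟩
    rw [SimpleGraph.deleteEdges_adj]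
    exact ⟨h3 x y hxy, fun h => hpq x y hxy (Set.mem_singleton_iff.1 h)⟩

theorem isObs_of_good {V : Type} [Finite V] (G : SimpleGraph V) (g : ℕ) (hG : Good G g)
    (hn : ¬ Embeds G g) :
    ∃ K : FinGraph, IsObs g K ∧ Nonempty (K.2 ≃g G.induce G.support) := by
  classical
  obtain ⟨n, ⟨ε⟩⟩ := Finite.exists_equiv_fin (G.support : Set V)
  let K2 : SimpleGraph (Fin n) := (G.induce G.support).comap ε.symm
  let e : K2 ≃g G.induce G.support :=
    { toEquiv := ε.symm
      map_rel_iff' := fun {a b} => Iff.rfl }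
  have hmap : (G.induce G.support).map (Function.Embedding.subtype _) = G := by
    ext a b
    constructor
    · rintro ⟨_, u, v, huv, rfl, rfl⟩
      exact huv
    · intro hab
      exact ⟨hab.ne, ⟨a, b, hab⟩, ⟨b, a, hab.symm⟩, hab, rfl, rfl⟩
  refine ⟨⟨n, K2⟩, ⟨?_, ?_⟩, ⟨e⟩⟩
  · intro hemb
    apply hn
    have h1 : Embeds (G.induce G.support) g := embeds_iso e.symm hemb
    have h2 := (embeds_map (G.induce G.support) (Function.Embedding.subtype _) g).2 h1
    rw [hmap] at h2
    exact h2
  · rintro ⟨m, H⟩ ⟨B0, hc0, hd0, ha0⟩ hiso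
    let f : Fin n → V := fun i => (e i : V)
    have hf : ∀ a b, K2.Adj a b → G.Adj (f a) (f b) := fun a b hab => hab
    have hfinj : Function.Injective f := fun a b hab => e.injective (Subtype.ext hab)
    have hfS : ∀ a, f a ∈ G.support := fun a => (e a).2
    let B : Fin m → Set V := fun x => f '' (B0 x)
    have h1 : ∀ x, SConn G (B x) := fun x => sconn_image f hf (sconn_of_connected (hc0 x))
    have h2 : ∀ x y, x ≠ y → Disjoint (B x) (B y) := fun x y hxy =>
      (Set.disjoint_image_iff hfinj).2 (hd0 x y hxy)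
    have h3 : ∀ x y, H.Adj x y → ∃ u ∈ B x, ∃ v ∈ B y, G.Adj u v := by
      intro x y hxy
      obtain ⟨u, hu, v, hv, huv⟩ := ha0 x y hxy
      exact ⟨f u, ⟨u, hu, rfl⟩, f v, ⟨v, hv, rfl⟩, hf _ _ huv⟩
    have hBS : ∀ x, B x ⊆ G.support := by
      rintro x _ ⟨i, _, rfl⟩
      exact hfS i
    by_cases hall : ∀ x, ∀ a ∈ B x, ∀ b ∈ B x, a = b
    · choose b hbm using fun x => (h1 x).1
      have hBb : ∀ x, ∀ a ∈ B x, a = b x := fun x a ha => hall x a ha _ (hbm x)
      have hbinj : Function.Injective b := by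
        intro x y hxy
        by_contra hne
        exact Set.disjoint_left.1 (h2 x y hne) (hbm x) (hxy ▸ hbm y)
      have h3' : ∀ x y, H.Adj x y → G.Adj (b x) (b y) := by
        intro x y hxy
        obtain ⟨u, hu, v, hv, huv⟩ := h3 x y hxy
        rw [← hBb x u hu, ← hBb y v hv]
        exact huv
      by_cases hsurj : ∀ w ∈ G.support, ∃ x, b x = w
      · by_cases hiff : ∀ x y, G.Adj (b x) (b y) → H.Adj x y
        · exfalso
          let F : Fin m → G.support := fun x => ⟨b x, hBS x (hbm x)⟩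
          have hF : Function.Bijective F := by
            constructor
            · intro x y hxy
              exact hbinj (congrArg Subtype.val hxy)
            · rintro ⟨w, hw⟩
              obtain ⟨x, hx⟩ := hsurj w hw
              exact ⟨x, Subtype.ext hx⟩
          let eF : H ≃g G.induce G.support :=
            { toEquiv := Equiv.ofBijective F hF
              map_rel_iff' := fun {x y} => ⟨fun h => hiff x y h, fun h => h3' x y h⟩ }
          exact hiso.false (eF.trans e.symm)
        · push Not at hiff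
          obtain ⟨x, y, hxy, hnxy⟩ := hiff
          refine embeds_minor H _ (isMinor_del b hbinj h3' (b x) (b y) ?_) g (hG _ _ hxy).1
          intro x' y' hxy' heq
          rcases Sym2.eq_iff.1 heq with ⟨h, h'⟩ | ⟨h, h'⟩
          · have e1 := hbinj h
            have e2 := hbinj h'
            subst e1
            subst e2
            exact hnxy hxy'
          · have e1 := hbinj h
            have e2 := hbinj h'
            subst e1
            subst e2
            exact hnxy hxy'.symm
      · push Not at hsurj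
        obtain ⟨w, ⟨v, hwv⟩, hw⟩ := hsurj
        refine embeds_minor H _ (isMinor_del b hbinj h3' w v ?_) g (hG _ _ hwv).1
        intro x y _ heq
        rcases Sym2.eq_iff.1 heq with ⟨h, _⟩ | ⟨_, h⟩
        · exact hw x h
        · exact hw y h
    · push Not at hall
      obtain ⟨x, a, ha, c, hc, hac⟩ := hall
      obtain ⟨u, hu, v, hv, huv⟩ := exists_adj_of_sconn (h1 x) ha hc hac
      exact embeds_minor H _ (isMinor_ctr B h1 h2 h3 hu hv huv) g (hG _ _ huv).2

end Pool.Agent.Helper226_Obs
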