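import Pool.Agent.Helper226_Obs.FP.B05
import Pool.Agent.Helper226_Obs.FP.B03

set_option autoImplicit false

namespace Pool.Agent.Helper226_Obs

open SimpleGraph

theorem embeds_YD1 {V : Type} [Finite V] (G : SimpleGraph V) (g : ℕ) (T : V)
    (hT : (G.neighborSet T).ncard ≤ 3) (h : Embeds G g) : Embeds (YD G {T}) g := by
  classical
  have key : ∀ s : Finset (V × V), (∀ p ∈ s, G.Adj T p.1 ∧ G.Adj T p.2 ∧ p.1 ≠ p.2) →
      ∃ H : SimpleGraph V, G ≤ H ∧ (∀ z, H.Adj T z ↔ G.Adj T z) ∧
        (∀ p ∈ s, H.Adj p.1 p.2) ∧ Embeds H g := by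
    intro s
    induction s using Finset.induction_on with
    | empty =>
      intro _
      exact ⟨G, le_rfl, fun z => Iff.rfl, fun p hp => absurd hp (Finset.notMem_empty p), h⟩
    | insert p s hps ih =>
      intro hs
      obtain ⟨H, hGH, hHT, hHs, hHe⟩ := ih (fun q hq => hs q (Finset.mem_insert_of_mem hq))
      obtain ⟨hp1, hp2, hp3⟩ := hs p (Finset.mem_insert_self p s)
      have hN : H.neighborSet T = G.neighborSet T := by
        ext z
        exact hHT z
      refine ⟨H ⊔ SimpleGraph.edge p.1 p.2, hGH.trans le_sup_left, fun z => ?_,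
        fun q hq => ?_, ?_⟩
      · rw [SimpleGraph.sup_adj, hHT z, SimpleGraph.edge_adj]
        constructor
        · rintro (h1 | ⟨⟨h1, _⟩ | ⟨h1, _⟩, _⟩)
          · exact h1
          · exact absurd h1 hp1.ne
          · exact absurd h1 hp2.ne
        · exact fun h1 => Or.inl h1
      · rw [SimpleGraph.sup_adj]
        rcases Finset.mem_insert.mp hq with rfl | hq
        · right
          rw [SimpleGraph.edge_adj]
          exact ⟨Or.inl ⟨rfl, rfl⟩, hp3⟩
        · exact Or.inl (hHs q hq)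
      · refine embeds_add H g T p.1 p.2 ((hHT _).mpr hp1) ((hHT _).mpr hp2) hp3 ?_ hHe
        rw [hN]
        exact hT
  have hfin : (Set.univ : Set (V × V)).Finite := Set.finite_univ
  let F : Finset (V × V) := hfin.toFinset.filter
    (fun p => G.Adj T p.1 ∧ G.Adj T p.2 ∧ p.1 ≠ p.2)
  obtain ⟨H, hGH, _, hHs, hHe⟩ := key F (fun p hp => (Finset.mem_filter.mp hp).2)
  refine embeds_mono _ H ?_ g hHe
  intro x y hxy
  obtain ⟨h1, _, _, h4⟩ := hxy
  rcases h4 with h4 | ⟨T', hT', h5, h6⟩
  · exact hGH h4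
  · rw [Set.mem_singleton_iff] at hT'
    subst hT'
    exact hHs (x, y) (Finset.mem_filter.mpr ⟨by simp, h5, h6, h1⟩)

theorem good_YD1 {V : Type} [Finite V] (G : SimpleGraph V) (g : ℕ) (T : V)
    (hT : (G.neighborSet T).ncard = 3)
    (hnon : ∀ x y, G.Adj T x → G.Adj T y → ¬ G.Adj x y) (hG : Good G g) :
    Good (YD G {T}) g := by
  classical
  intro u v huv
  obtain ⟨huv1, huT, hvT, h4⟩ := huv
  rw [Set.mem_singleton_iff] at huT hvT
  by_cases hA : G.Adj u v
  · obtain ⟨hd, hc⟩ := hG u v hA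
    constructor
    · refine embeds_mono _ (YD (G.deleteEdges {s(u, v)}) {T}) ?_ g
        (embeds_YD1 _ g T ?_ hd)
      · intro x y hxy
        rw [SimpleGraph.deleteEdges_adj] at hxy
        obtain ⟨⟨hne, hx, hy, h⟩, hn⟩ := hxy
        refine ⟨hne, hx, hy, ?_⟩
        rcases h with h | ⟨T', hT', h5, h6⟩
        · left
          rw [SimpleGraph.deleteEdges_adj]
          exact ⟨h, hn⟩
        · right
          refine ⟨T', hT', ?_, ?_⟩
          · rw [SimpleGraph.deleteEdges_adj]
            refine ⟨h5, ?_⟩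
            rw [Set.mem_singleton_iff] at hT' ⊢
            subst hT'
            rw [Sym2.eq_iff]
            rintro (⟨e, _⟩ | ⟨e, _⟩)
            · exact huT e.symm
            · exact hvT e.symm
          · rw [SimpleGraph.deleteEdges_adj]
            refine ⟨h6, ?_⟩
            rw [Set.mem_singleton_iff] at hT' ⊢
            subst hT'
            rw [Sym2.eq_iff]
            rintro (⟨e, _⟩ | ⟨e, _⟩)
            · exact huT e.symm
            · exact hvT e.symm
      · rw [← hT]
        refine Set.ncard_le_ncard ?_ (Set.toFinite _)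
        intro z hz
        have hz' : (G.deleteEdges {s(u, v)}).Adj T z := hz
        rw [SimpleGraph.deleteEdges_adj] at hz'
        exact hz'.1
    · refine embeds_mono _ (YD (ctr G u v) {T}) ?_ g (embeds_YD1 _ g T ?_ hc)
      · intro x y hxy
        obtain ⟨hne, hxv, hyv, h⟩ := hxy
        rcases h with ⟨_, hx, hy, h⟩ | ⟨hxu, _, _, hy, h⟩ | ⟨hyu, _, _, hx, h⟩
        · refine ⟨hne, hx, hy, ?_⟩
          rcases h with h | ⟨T', hT', h5, h6⟩
          · exact Or.inl ⟨hne, hxv, hyv, Or.inl h⟩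
          · rw [Set.mem_singleton_iff] at hT'
            subst hT'
            exact Or.inr ⟨T', rfl, ⟨h5.ne, Ne.symm hvT, hxv, Or.inl h5⟩,
              ⟨h6.ne, Ne.symm hvT, hyv, Or.inl h6⟩⟩
        · subst hxu
          refine ⟨hne, huT, hy, ?_⟩
          rcases h with h | ⟨T', hT', h5, h6⟩
          · exact Or.inl ⟨hne, hxv, hyv, Or.inr (Or.inl ⟨rfl, h⟩)⟩
          · rw [Set.mem_singleton_iff] at hT'
            subst hT'
            exact Or.inr ⟨T', rfl, ⟨Ne.symm huT, Ne.symm hvT, hxv, Or.inr (Or.inr ⟨rfl, h5.symm⟩)⟩,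
              ⟨h6.ne, Ne.symm hvT, hyv, Or.inl h6⟩⟩
        · subst hyu
          refine ⟨hne, hx, huT, ?_⟩
          rcases h with h | ⟨T', hT', h5, h6⟩
          · exact Or.inl ⟨hne, hxv, hyv, Or.inr (Or.inr ⟨rfl, h⟩)⟩
          · rw [Set.mem_singleton_iff] at hT'
            subst hT'
            exact Or.inr ⟨T', rfl, ⟨h6.ne, Ne.symm hvT, hxv, Or.inl h6⟩,
              ⟨Ne.symm huT, Ne.symm hvT, hyv, Or.inr (Or.inr ⟨rfl, h5.symm⟩)⟩⟩
      · rw [← hT]
        have hsub : (ctr G u v).neighborSet T ⊆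
            (fun x => if x = v then u else x) '' (G.neighborSet T) := by
          intro z hz
          obtain ⟨_, _, hzv, h⟩ := hz
          rcases h with h | ⟨h, _⟩ | ⟨h, h'⟩
          · exact ⟨z, h, by simp [hzv]⟩
          · exact absurd h.symm huT
          · exact ⟨v, h'.symm, by simp [h]⟩
        exact (Set.ncard_le_ncard hsub (Set.toFinite _)).trans (Set.ncard_image_le (Set.toFinite _))
  · have hTu : G.Adj T u ∧ G.Adj T v := by
      rcases h4 with h | ⟨T', hT', h5, h6⟩
      · exact absurd h hA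
      · rw [Set.mem_singleton_iff] at hT'
        subst hT'
        exact ⟨h5, h6⟩
    obtain ⟨hu, hv⟩ := hTu
    obtain ⟨z, hz, hzu, hzv, hall⟩ : ∃ z, G.Adj T z ∧ z ≠ u ∧ z ≠ v ∧
        ∀ y, G.Adj T y → y = u ∨ y = v ∨ y = z := by
      obtain ⟨a, b, c, hab, hac, hbc, habc⟩ := Set.ncard_eq_three.mp hT
      have hmem : ∀ y, G.Adj T y ↔ y = a ∨ y = b ∨ y = c := by
        intro y
        have : y ∈ G.neighborSet T ↔ y ∈ ({a, b, c} : Set V) := by rw [habc]
        simpa using this
      have hu' := (hmem u).mp hu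
      have hv' := (hmem v).mp hv
      rcases hu' with rfl | rfl | rfl <;> rcases hv' with rfl | rfl | rfl
      · exact absurd rfl huv1
      · exact ⟨c, (hmem c).mpr (Or.inr (Or.inr rfl)), hac.symm, hbc.symm, fun y hy => (hmem y).mp hy⟩
      · refine ⟨b, (hmem b).mpr (Or.inr (Or.inl rfl)), hab.symm, hbc, fun y hy => ?_⟩
        rcases (hmem y).mp hy with h | h | h
        · exact Or.inl h
        · exact Or.inr (Or.inr h)
        · exact Or.inr (Or.inl h)
      · refine ⟨c, (hmem c).mpr (Or.inr (Or.inr rfl)), hbc.symm, hac.symm, fun y hy => ?_⟩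
        rcases (hmem y).mp hy with h | h | h
        · exact Or.inr (Or.inl h)
        · exact Or.inl h
        · exact Or.inr (Or.inr h)
      · exact absurd rfl huv1
      · refine ⟨a, (hmem a).mpr (Or.inl rfl), hab, hac, fun y hy => ?_⟩
        rcases (hmem y).mp hy with h | h | h
        · exact Or.inr (Or.inr h)
        · exact Or.inl h
        · exact Or.inr (Or.inl h)
      · refine ⟨b, (hmem b).mpr (Or.inr (Or.inl rfl)), hbc, hab.symm, fun y hy => ?_⟩
        rcases (hmem y).mp hy with h | h | h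
        · exact Or.inr (Or.inl h)
        · exact Or.inr (Or.inr h)
        · exact Or.inl h
      · refine ⟨a, (hmem a).mpr (Or.inl rfl), hac, hab, fun y hy => ?_⟩
        rcases (hmem y).mp hy with h | h | h
        · exact Or.inr (Or.inr h)
        · exact Or.inr (Or.inl h)
        · exact Or.inl h
      · exact absurd rfl huv1
    constructor
    · refine embeds_mono _ (ctr G z T) ?_ g (hG z T hz.symm).2
      intro x y hxy
      rw [SimpleGraph.deleteEdges_adj] at hxy
      obtain ⟨⟨hne, hx, hy, h⟩, hn⟩ := hxy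
      rw [Set.mem_singleton_iff] at hx hy hn
      refine ⟨hne, hx, hy, ?_⟩
      rcases h with h | ⟨T', hT', h5, h6⟩
      · exact Or.inl h
      · rw [Set.mem_singleton_iff] at hT'
        subst hT'
        rcases hall x h5 with rfl | rfl | rfl
        · rcases hall y h6 with rfl | rfl | rfl
          · exact absurd rfl hne
          · exact absurd rfl hn
          · exact Or.inr (Or.inr ⟨rfl, h5⟩)
        · rcases hall y h6 with rfl | rfl | rfl
          · exact absurd Sym2.eq_swap hn
          · exact absurd rfl hne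
          · exact Or.inr (Or.inr ⟨rfl, h5⟩)
        · exact Or.inr (Or.inl ⟨rfl, h6⟩)
    · have hadj : (ctr G u T).Adj u v := ⟨huv1, huT, hvT, Or.inr (Or.inl ⟨rfl, hv⟩)⟩
      refine embeds_mono _ (ctr (ctr G u T) u v) ?_ g
        (embeds_ctr _ g u v hadj (hG u T hu.symm).2)
      intro x y hxy
      obtain ⟨hne, hxv, hyv, h⟩ := hxy
      refine ⟨hne, hxv, hyv, ?_⟩
      rcases h with ⟨_, hx, hy, h⟩ | ⟨hxu, hvy, _, hy, h⟩ | ⟨hyu, hvx, _, hx, h⟩
      · rw [Set.mem_singleton_iff] at hx hy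
        rcases h with h | ⟨T', hT', h5, h6⟩
        · exact Or.inl ⟨hne, hx, hy, Or.inl h⟩
        · rw [Set.mem_singleton_iff] at hT'
          subst hT'
          rcases hall x h5 with rfl | rfl | rfl
          · exact Or.inl ⟨hne, hx, hy, Or.inr (Or.inl ⟨rfl, h6⟩)⟩
          · exact absurd rfl hxv
          · rcases hall y h6 with rfl | rfl | rfl
            · exact Or.inl ⟨hne, hx, hy, Or.inr (Or.inr ⟨rfl, h5⟩)⟩
            · exact absurd rfl hyv
            · exact absurd rfl hne
      · rw [Set.mem_singleton_iff] at hy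
        subst hxu
        rcases h with h | ⟨T', hT', h5, h6⟩
        · exact Or.inr (Or.inl ⟨rfl, hvy, hvT, hy, Or.inl h⟩)
        · rw [Set.mem_singleton_iff] at hT'
          subst hT'
          exact Or.inl ⟨hne, huT, hy, Or.inr (Or.inl ⟨rfl, h6⟩)⟩
      · rw [Set.mem_singleton_iff] at hx
        subst hyu
        rcases h with h | ⟨T', hT', h5, h6⟩
        · exact Or.inr (Or.inr ⟨rfl, hvx, hvT, hx, Or.inl h⟩)
        · rw [Set.mem_singleton_iff] at hT'
          subst hT'
          exact Or.inl ⟨hne, hx, huT, Or.inr (Or.inr ⟨rfl, h6⟩)⟩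

theorem YD_insert {V : Type} (G : SimpleGraph V) (Y : Set V) (hY : YSet G Y) (A : Set V)
    (hA : A ⊆ Y) (T : V) (hT : T ∈ Y) (hTA : T ∉ A) :
    YD G (insert T A) = YD (YD G A) {T} := by
  ext x y
  constructor
  · rintro ⟨hne, hx, hy, h⟩
    rw [Set.mem_insert_iff, not_or] at hx hy
    refine ⟨hne, hx.1, hy.1, ?_⟩
    rcases h with h | ⟨T', hT', h5, h6⟩
    · exact Or.inl ⟨hne, hx.2, hy.2, Or.inl h⟩
    · rcases Set.mem_insert_iff.mp hT' with rfl | hT'
      · exact Or.inr ⟨T', rfl, ⟨h5.ne, hTA, hx.2, Or.inl h5⟩, ⟨h6.ne, hTA, hy.2, Or.inl h6⟩⟩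
      · exact Or.inl ⟨hne, hx.2, hy.2, Or.inr ⟨T', hT', h5, h6⟩⟩
  · rintro ⟨hne, hx, hy, h⟩
    rcases h with ⟨_, hxA, hyA, h⟩ | ⟨T', hT', ⟨_, _, hxA, h5⟩, ⟨_, _, hyA, h6⟩⟩
    · refine ⟨hne, ?_, ?_, ?_⟩
      · rw [Set.mem_insert_iff, not_or]; exact ⟨hx, hxA⟩
      · rw [Set.mem_insert_iff, not_or]; exact ⟨hy, hyA⟩
      · rcases h with h | ⟨T', hT', h5, h6⟩
        · exact Or.inl h
        · exact Or.inr ⟨T', Set.mem_insert_of_mem _ hT', h5, h6⟩
    · rw [Set.mem_singleton_iff] at hT'
      subst hT'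
      refine ⟨hne, ?_, ?_, Or.inr ⟨T', Set.mem_insert _ _, ?_, ?_⟩⟩
      · rw [Set.mem_insert_iff, not_or]; exact ⟨hx, hxA⟩
      · rw [Set.mem_insert_iff, not_or]; exact ⟨hy, hyA⟩
      · rcases h5 with h5 | ⟨S, hS, h7, _⟩
        · exact h5
        · exact absurd h7 (hY.indep S (hA hS) T' hT)
      · rcases h6 with h6 | ⟨S, hS, h7, _⟩
        · exact h6
        · exact absurd h7 (hY.indep S (hA hS) T' hT)

theorem good_YD {V : Type} [Finite V] (G : SimpleGraph V) (g : ℕ) (Y : Set V) (hY : YSet G Y)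
    (hG : Good G g) (A : Set V) (hA : A ⊆ Y) : Good (YD G A) g := by
  revert hA
  refine Set.Finite.induction_on A (Set.toFinite A) ?_ ?_
  · intro _
    have : YD G ∅ = G := by
      ext x y
      constructor
      · rintro ⟨_, _, _, h | ⟨T, hT, _⟩⟩
        · exact h
        · exact absurd hT (Set.notMem_empty T)
      · exact fun h => ⟨h.ne, Set.notMem_empty _, Set.notMem_empty _, Or.inl h⟩
    rw [this]
    exact hG
  · intro a s has _ ih hs
    have ha : a ∈ Y := hs (Set.mem_insert a s)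
    have hsY : s ⊆ Y := fun x hx => hs (Set.mem_insert_of_mem a hx)
    rw [YD_insert G Y hY s hsY a ha has]
    have hadj : ∀ z, (YD G s).Adj a z ↔ G.Adj a z := by
      intro z
      constructor
      · rintro ⟨_, _, _, h | ⟨T, hT, h7, _⟩⟩
        · exact h
        · exact absurd h7 (hY.indep T (hsY hT) a ha)
      · intro h
        exact ⟨h.ne, has, fun hz => hY.indep a ha z (hsY hz) h, Or.inl h⟩
    refine good_YD1 (YD G s) g a ?_ ?_ (ih hsY)
    · have : (YD G s).neighborSet a = G.neighborSet a := by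
        ext z
        exact hadj z
      rw [this]
      exact hY.deg a ha
    · intro x y hx hy hxy
      rw [hadj] at hx hy
      obtain ⟨hne, _, _, h | ⟨T, hT, h5, h6⟩⟩ := hxy
      · exact hY.tri x a y hx.symm hy h
      · exact hne (hY.c4 a ha T x y (fun e => has (e ▸ hT)) hx hy h5 h6)

end Pool.Agent.Helper226_Obs
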