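import Pool.Agent.Helper226_Obs.FP.Defs

set_option autoImplicit false

namespace Pool.Agent.Helper226_Obs

open SimpleGraph

section reconAux

variable {V : Type} {G : SimpleGraph V} {Y A B : Set V}

theorem recon_not_mem (hY : YSet G Y) (hA : A ⊆ Y) {T x : V} (hT : T ∈ A) (h : G.Adj T x) :
    x ∉ A := fun hx => hY.indep T (hA hT) x (hA hx) h

theorem recon_nbrs (hY : YSet G Y) (hA : A ⊆ Y) {T : V} (hT : T ∈ A) :
    ∃ x y z, x ≠ y ∧ x ≠ z ∧ y ≠ z ∧ ∀ v, G.Adj T v ↔ v = x ∨ v = y ∨ v = z := by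
  obtain ⟨x, y, z, h1, h2, h3, h4⟩ := Set.ncard_eq_three.1 (hY.deg T (hA hT))
  refine ⟨x, y, z, h1, h2, h3, fun v => ?_⟩
  rw [← SimpleGraph.mem_neighborSet, h4]
  simp

theorem recon_third (hY : YSet G Y) (hA : A ⊆ Y) {T u v : V} (hT : T ∈ A) (hu : G.Adj T u)
    (hv : G.Adj T v) : ∃ z, z ≠ u ∧ z ≠ v ∧ G.Adj T z := by
  obtain ⟨x, y, z, h1, h2, h3, h4⟩ := recon_nbrs hY hA hT
  rw [h4] at hu hv
  rcases hu with rfl | rfl | rfl <;> rcases hv with rfl | rfl | rfl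
  · exact ⟨y, h1.symm, h1.symm, (h4 _).2 (Or.inr (Or.inl rfl))⟩
  · exact ⟨z, h2.symm, h3.symm, (h4 _).2 (Or.inr (Or.inr rfl))⟩
  · exact ⟨y, h1.symm, h3, (h4 _).2 (Or.inr (Or.inl rfl))⟩
  · exact ⟨z, h3.symm, h2.symm, (h4 _).2 (Or.inr (Or.inr rfl))⟩
  · exact ⟨x, h1, h1, (h4 _).2 (Or.inl rfl)⟩
  · exact ⟨x, h1, h2, (h4 _).2 (Or.inl rfl)⟩
  · exact ⟨y, h3, h1.symm, (h4 _).2 (Or.inr (Or.inl rfl))⟩
  · exact ⟨x, h2, h1, (h4 _).2 (Or.inl rfl)⟩
  · exact ⟨x, h2, h2, (h4 _).2 (Or.inl rfl)⟩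

theorem recon_adj_of (hY : YSet G Y) (hA : A ⊆ Y) {T x y : V} (hT : T ∈ A) (hx : G.Adj T x)
    (hy : G.Adj T y) (hxy : x ≠ y) : (YD G A).Adj x y :=
  ⟨hxy, recon_not_mem hY hA hT hx, recon_not_mem hY hA hT hy, Or.inr ⟨T, hT, hx, hy⟩⟩

theorem recon_supp (hY : YSet G Y) (hA : A ⊆ Y) (v : V) :
    v ∈ (YD G A).support ↔ v ∈ G.support ∧ v ∉ A := by
  constructor
  · rintro ⟨w, h1, h2, h3, h4⟩
    refine ⟨?_, h2⟩
    rcases h4 with h | ⟨T, hT, h, h'⟩
    · exact ⟨w, h⟩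
    · exact ⟨T, h.symm⟩
  · rintro ⟨⟨w, hw⟩, hv⟩
    by_cases hwA : w ∈ A
    · obtain ⟨z, hz, -, hz2⟩ := recon_third hY hA hwA hw.symm hw.symm
      exact ⟨z, recon_adj_of hY hA hwA hw.symm hz2 hz.symm⟩
    · exact ⟨w, hw.ne, hv, hwA, Or.inl hw⟩

theorem recon_tri (hY : YSet G Y) (hA : A ⊆ Y) {x y z : V} (h1 : (YD G A).Adj x y)
    (h2 : (YD G A).Adj y z) (h3 : (YD G A).Adj x z) :
    ∃ T ∈ A, G.Adj T x ∧ G.Adj T y ∧ G.Adj T z := by
  obtain ⟨a1, a2, a3, a4⟩ := h1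
  obtain ⟨b1, b2, b3, b4⟩ := h2
  obtain ⟨c1, c2, c3, c4⟩ := h3
  rcases a4 with a | ⟨T, hT, t1, t2⟩
  · rcases b4 with b | ⟨T, hT, t1, t2⟩
    · rcases c4 with c | ⟨T, hT, t1, t2⟩
      · exact absurd c (hY.tri x y z a b)
      · have hy : y ≠ T := by rintro rfl; exact a3 hT
        exact absurd (hY.c4 T (hA hT) y x z hy t1 t2 a.symm b) c1
    · rcases c4 with c | ⟨T', hT', s1, s2⟩
      · have hx : x ≠ T := by rintro rfl; exact a2 hT
        exact absurd (hY.c4 T (hA hT) x y z hx t1 t2 a c) b1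
      · have : T = T' := hY.one z T (hA hT) T' (hA hT') t2.symm s2.symm
        subst this
        exact ⟨T, hT, s1, t1, t2⟩
  · rcases b4 with b | ⟨T', hT', s1, s2⟩
    · rcases c4 with c | ⟨T', hT', s1, s2⟩
      · have hz : z ≠ T := by rintro rfl; exact b3 hT
        exact absurd (hY.c4 T (hA hT) z x y hz t1 t2 c.symm b.symm) a1
      · have : T = T' := hY.one x T (hA hT) T' (hA hT') t1.symm s1.symm
        subst this
        exact ⟨T, hT, t1, t2, s2⟩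
    · have : T = T' := hY.one y T (hA hT) T' (hA hT') t2.symm s1.symm
      subst this
      exact ⟨T, hT, t1, t2, s2⟩

theorem recon_edge (hY : YSet G Y) (hA : A ⊆ Y) {u v : V} (hu : u ∉ A) (hv : v ∉ A) :
    G.Adj u v ↔ (YD G A).Adj u v ∧ ∀ z, (YD G A).Adj u z → ¬ (YD G A).Adj v z := by
  constructor
  · intro h
    have h1 : (YD G A).Adj u v := ⟨h.ne, hu, hv, Or.inl h⟩
    refine ⟨h1, fun z h2 h3 => ?_⟩
    obtain ⟨T, hT, t1, t2, t3⟩ := recon_tri hY hA h1 h3 h2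
    exact hY.tri T u v t1 h t2
  · rintro ⟨⟨h1, h2, h3, h4⟩, h5⟩
    rcases h4 with h | ⟨T, hT, t1, t2⟩
    · exact h
    · exfalso
      obtain ⟨z, z1, z2, z3⟩ := recon_third hY hA hT t1 t2
      exact h5 z (recon_adj_of hY hA hT t1 z3 z1.symm) (recon_adj_of hY hA hT t2 z3 z2.symm)

/-- The function extends the isomorphism. -/
def reconExt (φ : (YD G A).induce (YD G A).support ≃g (YD G B).induce (YD G B).support)
    (F : V → V) : Prop :=
  (∀ v (hv : v ∈ (YD G A).support), F v = (φ ⟨v, hv⟩ : V)) ∧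
  ∀ T ∈ A, F T ∈ B ∧ ∀ x (hx : x ∈ (YD G A).support), G.Adj T x → G.Adj (F T) (φ ⟨x, hx⟩ : V)

theorem recon_exists (hY : YSet G Y) (hA : A ⊆ Y) (hB : B ⊆ Y)
    (φ : (YD G A).induce (YD G A).support ≃g (YD G B).induce (YD G B).support) :
    ∃ F : V → V, reconExt φ F := by
  classical
  have key : ∀ T : V, ∃ T' : V, T ∈ A → T' ∈ B ∧ ∀ x (hx : x ∈ (YD G A).support), G.Adj T x →
      G.Adj T' (φ ⟨x, hx⟩ : V) := by
    intro T
    by_cases hT : T ∈ A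
    · obtain ⟨x, y, z, h1, h2, h3, h4⟩ := recon_nbrs hY hA hT
      have tx : G.Adj T x := (h4 x).2 (Or.inl rfl)
      have ty : G.Adj T y := (h4 y).2 (Or.inr (Or.inl rfl))
      have tz : G.Adj T z := (h4 z).2 (Or.inr (Or.inr rfl))
      have axy := recon_adj_of hY hA hT tx ty h1
      have ayz := recon_adj_of hY hA hT ty tz h3
      have axz := recon_adj_of hY hA hT tx tz h2
      have sx : x ∈ (YD G A).support := ⟨y, axy⟩
      have sy : y ∈ (YD G A).support := ⟨z, ayz⟩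
      have sz : z ∈ (YD G A).support := ⟨x, axz.symm⟩
      have bxy : (YD G B).Adj (φ ⟨x, sx⟩ : V) (φ ⟨y, sy⟩ : V) :=
        φ.map_rel_iff.2 (show ((YD G A).induce (YD G A).support).Adj ⟨x, sx⟩ ⟨y, sy⟩ from axy)
      have byz : (YD G B).Adj (φ ⟨y, sy⟩ : V) (φ ⟨z, sz⟩ : V) :=
        φ.map_rel_iff.2 (show ((YD G A).induce (YD G A).support).Adj ⟨y, sy⟩ ⟨z, sz⟩ from ayz)
      have bxz : (YD G B).Adj (φ ⟨x, sx⟩ : V) (φ ⟨z, sz⟩ : V) :=
        φ.map_rel_iff.2 (show ((YD G A).induce (YD G A).support).Adj ⟨x, sx⟩ ⟨z, sz⟩ from axz)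
      obtain ⟨T', hT', a, b, c⟩ := recon_tri hY hB bxy byz bxz
      refine ⟨T', fun _ => ⟨hT', fun w hw hTw => ?_⟩⟩
      rcases (h4 w).1 hTw with rfl | rfl | rfl
      · exact a
      · exact b
      · exact c
    · exact ⟨T, fun h => absurd h hT⟩
  choose f hf using key
  refine ⟨fun v => if hv : v ∈ (YD G A).support then (φ ⟨v, hv⟩ : V) else f v,
    fun v hv => by simp only [dif_pos hv], fun T hT => ?_⟩
  have hTs : T ∉ (YD G A).support := fun h => ((recon_supp hY hA T).1 h).2 hT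
  simp only [dif_neg hTs]
  exact hf T hT

theorem recon_ext_supp (hY : YSet G Y) (hA : A ⊆ Y) (hB : B ⊆ Y)
    {φ : (YD G A).induce (YD G A).support ≃g (YD G B).induce (YD G B).support} {F : V → V}
    (hF : reconExt φ F) {v : V} (hv : v ∈ G.support) : F v ∈ G.support := by
  by_cases hvA : v ∈ A
  · obtain ⟨x, hx⟩ := hv
    have hxs : x ∈ (YD G A).support := (recon_supp hY hA x).2
      ⟨⟨v, hx.symm⟩, recon_not_mem hY hA hvA hx⟩
    exact ⟨_, (hF.2 v hvA).2 x hxs hx⟩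
  · have hvs := (recon_supp hY hA v).2 ⟨hv, hvA⟩
    rw [hF.1 v hvs]
    exact ((recon_supp hY hB _).1 (φ ⟨v, hvs⟩).2).1

theorem recon_ext_mem (hY : YSet G Y) (hA : A ⊆ Y) (hB : B ⊆ Y)
    {φ : (YD G A).induce (YD G A).support ≃g (YD G B).induce (YD G B).support} {F : V → V}
    (hF : reconExt φ F) {v : V} (hv : v ∈ G.support) : v ∈ A ↔ F v ∈ B := by
  by_cases hvA : v ∈ A
  · exact ⟨fun _ => (hF.2 v hvA).1, fun _ => hvA⟩
  · have hvs := (recon_supp hY hA v).2 ⟨hv, hvA⟩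
    refine ⟨fun h => absurd h hvA, fun h => ?_⟩
    rw [hF.1 v hvs] at h
    exact absurd h ((recon_supp hY hB _).1 (φ ⟨v, hvs⟩).2).2

theorem recon_ext_adj (hY : YSet G Y) (hA : A ⊆ Y) (hB : B ⊆ Y)
    {φ : (YD G A).induce (YD G A).support ≃g (YD G B).induce (YD G B).support} {F : V → V}
    (hF : reconExt φ F) {u v : V} (h : G.Adj u v) : G.Adj (F u) (F v) := by
  by_cases hu : u ∈ A
  · have hvA : v ∉ A := recon_not_mem hY hA hu h
    have hvs : v ∈ (YD G A).support := (recon_supp hY hA v).2 ⟨⟨u, h.symm⟩, hvA⟩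
    rw [hF.1 v hvs]
    exact (hF.2 u hu).2 v hvs h
  · have hus : u ∈ (YD G A).support := (recon_supp hY hA u).2 ⟨⟨v, h⟩, hu⟩
    by_cases hv : v ∈ A
    · rw [hF.1 u hus]
      exact ((hF.2 v hv).2 u hus h.symm).symm
    · have hvs : v ∈ (YD G A).support := (recon_supp hY hA v).2 ⟨⟨u, h.symm⟩, hv⟩
      rw [hF.1 u hus, hF.1 v hvs]
      obtain ⟨h1, h2⟩ := (recon_edge hY hA hu hv).1 h
      rw [recon_edge hY hB ((recon_supp hY hB _).1 (φ ⟨u, hus⟩).2).2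
        ((recon_supp hY hB _).1 (φ ⟨v, hvs⟩).2).2]
      constructor
      · exact φ.map_rel_iff.2
          (show ((YD G A).induce (YD G A).support).Adj ⟨u, hus⟩ ⟨v, hvs⟩ from h1)
      · intro z hz1 hz2
        have hzs : z ∈ (YD G B).support := ⟨_, hz1.symm⟩
        obtain ⟨w, hw⟩ := φ.surjective ⟨z, hzs⟩
        have hwz : (φ w : V) = z := by rw [hw]
        rw [← hwz] at hz1 hz2
        have e1 : ((YD G A).induce (YD G A).support).Adj ⟨u, hus⟩ w :=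
          φ.map_rel_iff.1 (show ((YD G B).induce (YD G B).support).Adj _ _ from hz1)
        have e2 : ((YD G A).induce (YD G A).support).Adj ⟨v, hvs⟩ w :=
          φ.map_rel_iff.1 (show ((YD G B).induce (YD G B).support).Adj _ _ from hz2)
        exact h2 w e1 e2

theorem recon_ext_inv (hY : YSet G Y) (hA : A ⊆ Y) (hB : B ⊆ Y)
    {φ : (YD G A).induce (YD G A).support ≃g (YD G B).induce (YD G B).support} {F F' : V → V}
    (hF : reconExt φ F) (hF' : reconExt φ.symm F') {v : V} (hv : v ∈ G.support) :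
    F' (F v) = v := by
  by_cases hvA : v ∈ A
  · obtain ⟨x, hx⟩ := hv
    have hxs : x ∈ (YD G A).support := (recon_supp hY hA x).2
      ⟨⟨v, hx.symm⟩, recon_not_mem hY hA hvA hx⟩
    obtain ⟨h1, h2⟩ := hF.2 v hvA
    obtain ⟨h3, h4⟩ := hF'.2 (F v) h1
    have h5 := h4 (φ ⟨x, hxs⟩ : V) (φ ⟨x, hxs⟩).2 (h2 x hxs hx)
    have h6 : (φ.symm ⟨(φ ⟨x, hxs⟩ : V), (φ ⟨x, hxs⟩).2⟩ : V) = x := by
      rw [Subtype.coe_eta, RelIso.symm_apply_apply]
    rw [h6] at h5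
    exact hY.one x _ (hA h3) _ (hA hvA) h5.symm hx.symm
  · have hvs := (recon_supp hY hA v).2 ⟨hv, hvA⟩
    rw [hF.1 v hvs, hF'.1 _ (φ ⟨v, hvs⟩).2, Subtype.coe_eta, RelIso.symm_apply_apply]

end reconAux

theorem recon {V : Type} [Finite V] (G : SimpleGraph V) (Y : Set V) (hY : YSet G Y)
    (A B : Set V) (hA : A ⊆ Y) (hB : B ⊆ Y)
    (φ : (YD G A).induce (YD G A).support ≃g (YD G B).induce (YD G B).support) :
    ∃ ψ : G.induce G.support ≃g G.induce G.support,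
      ∀ v : G.support, (v : V) ∈ A ↔ (ψ v : V) ∈ B := by
  obtain ⟨F, hF⟩ := recon_exists hY hA hB φ
  obtain ⟨F', hF'⟩ := recon_exists hY hB hA φ.symm
  have h1 : ∀ v ∈ G.support, F' (F v) = v := fun v hv => recon_ext_inv hY hA hB hF hF' hv
  have h2 : ∀ v ∈ G.support, F (F' v) = v := fun v hv =>
    recon_ext_inv hY hB hA (φ := φ.symm) hF' hF hv
  refine ⟨{ toFun := fun v => ⟨F v, recon_ext_supp hY hA hB hF v.2⟩
            invFun := fun v => ⟨F' v, recon_ext_supp hY hB hA hF' v.2⟩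
            left_inv := fun v => Subtype.ext (h1 v v.2)
            right_inv := fun v => Subtype.ext (h2 v v.2)
            map_rel_iff' := ?_ }, fun v => recon_ext_mem hY hA hB hF v.2⟩
  intro u v
  constructor
  · intro h
    have h3 : G.Adj (F' (F u)) (F' (F v)) := recon_ext_adj hY hB hA hF' h
    rw [h1 u u.2, h1 v v.2] at h3
    exact h3
  · intro h
    exact recon_ext_adj hY hA hB hF h

end Pool.Agent.Helper226_Obs
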