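import Pool.Agent.Helper226_Obs.FP.B06
import Pool.Agent.Helper226_Obs.FP.B08

set_option autoImplicit false

namespace Pool.Agent.Helper226_Obs

open SimpleGraph

/-- an automorphism group of a finite graph is finite -/
theorem finite_aut {W : Type} [Finite W] (H : SimpleGraph W) : Finite (H ≃g H) :=
  Finite.of_injective (fun e : H ≃g H => (e : W → W)) DFunLike.coe_injective

theorem card_aut_le {V : Type} [Finite V] (G : SimpleGraph V) (S : Set V)
    (hne : G.support.Nonempty)
    (hS : ∀ K : Set V, S ⊆ K → (∀ v ∈ K, ∀ w, G.Adj v w →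
      (∀ w', G.Adj v w' → w' ≠ w → w' ∈ K) → w ∈ K) → G.support ⊆ K) :
    Nat.card (G.induce G.support ≃g G.induce G.support) ≤ G.support.ncard ^ S.ncard := by
  classical
  obtain ⟨R, hR⟩ : ∃ R : (G.induce G.support ≃g G.induce G.support) →
      (((S ∩ G.support : Set V) : Type) → (G.support : Type)), R = fun α v => α ⟨v.1, v.2.2⟩ := ⟨_, rfl⟩
  have hinj : Function.Injective R := by
    intro α β hαβ
    have hag : ∀ v (h : v ∈ G.support), v ∈ S → α ⟨v, h⟩ = β ⟨v, h⟩ := by
      intro v h hv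
      have := congrFun hαβ ⟨v, hv, h⟩
      rw [hR] at this
      exact this
    have hK := hS {v | ∀ h : v ∈ G.support, α ⟨v, h⟩ = β ⟨v, h⟩} (fun v hv h => hag v h hv) (by
      intro v hv w hvw hw' hw
      have hvX : v ∈ G.support := (SimpleGraph.mem_support G).2 ⟨w, hvw⟩
      have hvK : α ⟨v, hvX⟩ = β ⟨v, hvX⟩ := hv hvX
      have h1 : (G.induce G.support).Adj ⟨v, hvX⟩ ⟨w, hw⟩ := hvw
      have h2 : (G.induce G.support).Adj (α ⟨v, hvX⟩) (α ⟨w, hw⟩) := α.map_rel_iff.2 h1
      rw [hvK] at h2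
      obtain ⟨x, hx⟩ : ∃ x, β x = α ⟨w, hw⟩ := ⟨β.symm (α ⟨w, hw⟩), by simp⟩
      rw [← hx] at h2
      have h3 : (G.induce G.support).Adj ⟨v, hvX⟩ x := β.map_rel_iff.1 h2
      by_cases hxw : (x : V) = w
      · have h4 : x = ⟨w, hw⟩ := Subtype.ext hxw
        rw [← hx, h4]
      · have h5 : (x : V) ∈ {v | ∀ h : v ∈ G.support, α ⟨v, h⟩ = β ⟨v, h⟩} := hw' x h3 hxw
        have h6 : α x = β x := h5 x.2
        rw [hx] at h6
        exact absurd (congrArg Subtype.val (α.injective h6)) hxw)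
    refine RelIso.ext fun v => ?_
    exact hK v.2 v.2
  have : Finite ((S ∩ G.support : Set V) : Type) := inferInstance
  have h1 : Nat.card (G.induce G.support ≃g G.induce G.support) ≤
      Nat.card (((S ∩ G.support : Set V) : Type) → (G.support : Type)) := Nat.card_le_card_of_injective R hinj
  have h2 : Nat.card (((S ∩ G.support : Set V) : Type) → (G.support : Type)) =
      G.support.ncard ^ (S ∩ G.support).ncard := by
    rw [Nat.card_fun, Nat.card_coe_set_eq, Nat.card_coe_set_eq]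
  rw [h2] at h1
  refine le_trans h1 (Nat.pow_le_pow_right ?_ (Set.ncard_le_ncard Set.inter_subset_left))
  exact (Set.ncard_pos (Set.toFinite _)).2 hne

theorem many_obs {V : Type} [Finite V] (G : SimpleGraph V) (Y : Set V) (hY : YSet G Y) (g k : ℕ)
    (hne : G.support.Nonempty)
    (hgood : ∀ A ⊆ Y, Good (YD G A) g ∧ ¬ Embeds (YD G A) g) (S : Set V)
    (hS : ∀ K : Set V, S ⊆ K → (∀ v ∈ K, ∀ w, G.Adj v w →
      (∀ w', G.Adj v w' → w' ≠ w → w' ∈ K) → w ∈ K) → G.support ⊆ K)
    (hk : k * G.support.ncard ^ S.ncard ≤ 2 ^ Y.ncard) : (k : ℕ∞) ≤ N g := by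
  classical
  have hFG : Nonempty FinGraph := ⟨⟨0, ⊥⟩⟩
  choose! Kf hK using fun (A : Set V) (hA : A ⊆ Y) => isObs_of_good (YD G A) g (hgood A hA).1 (hgood A hA).2
  have hYs : Y ⊆ G.support := by
    intro T hT
    have h3 := hY.deg T hT
    have hpos : (G.neighborSet T).Nonempty := by
      rw [← Set.ncard_pos (Set.toFinite _), h3]
      norm_num
    obtain ⟨w, hw⟩ := hpos
    exact (SimpleGraph.mem_support G).2 ⟨w, hw⟩
  obtain ⟨c, hc⟩ : ∃ c : {A : Set V // A ⊆ Y} → Quotient isoSetoid, c = fun A => Quotient.mk isoSetoid (Kf A.1) := ⟨_, rfl⟩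
  have hCsub : Set.range c ⊆ ObsSet g := by
    rintro q ⟨A, rfl⟩
    rw [hc]
    exact ⟨Kf A.1, (hK A.1 A.2).1, rfl⟩
  have hCfin : (Set.range c).Finite := Set.finite_range c
  have hrep : ∀ q : Set.range c, ∃ A : {A : Set V // A ⊆ Y}, c A = q.1 := fun q => q.2
  choose rep hrep using hrep
  have hex : ∀ A B : {A : Set V // A ⊆ Y}, c A = c B → Nonempty ((Kf A.1).2 ≃g (Kf B.1).2) := by
    intro A B h
    rw [hc] at h
    exact Quotient.exact h
  have hψ : ∀ B : {A : Set V // A ⊆ Y}, ∃ ψ : G.induce G.support ≃g G.induce G.support,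
      ∀ v : G.support, (v : V) ∈ (rep ⟨c B, Set.mem_range_self B⟩).1 ↔ (ψ v : V) ∈ B.1 := by
    intro B
    obtain ⟨e⟩ : Nonempty ((Kf (rep ⟨c B, Set.mem_range_self B⟩).1).2 ≃g (Kf B.1).2) :=
      hex _ _ (hrep ⟨c B, Set.mem_range_self B⟩)
    obtain ⟨e1⟩ := (hK (rep ⟨c B, Set.mem_range_self B⟩).1 (rep ⟨c B, Set.mem_range_self B⟩).2).2
    obtain ⟨e2⟩ := (hK B.1 B.2).2
    exact recon G Y hY _ _ (rep ⟨c B, Set.mem_range_self B⟩).2 B.2 ((e1.symm.trans e).trans e2)
  choose ψ hψ using hψ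
  have hinj : Function.Injective (fun B : {A : Set V // A ⊆ Y} =>
      (((⟨c B, Set.mem_range_self B⟩ : Set.range c), ψ B) : Set.range c × (G.induce G.support ≃g G.induce G.support))) := by
    intro B B' h
    have h1 : (⟨c B, Set.mem_range_self B⟩ : Set.range c) = ⟨c B', Set.mem_range_self B'⟩ := congrArg Prod.fst h
    have h2 : ψ B = ψ B' := congrArg Prod.snd h
    have key : ∀ v (hv : v ∈ G.support), v ∈ B.1 ↔ v ∈ B'.1 := by
      intro v hv
      have h3 := hψ B ((ψ B).symm ⟨v, hv⟩)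
      have h4 := hψ B' ((ψ B').symm ⟨v, hv⟩)
      rw [RelIso.apply_symm_apply] at h3 h4
      rw [← h1, ← h2] at h4
      exact h3.symm.trans h4
    apply Subtype.ext
    ext v
    constructor
    · intro hv
      exact (key v (hYs (B.2 hv))).1 hv
    · intro hv
      exact (key v (hYs (B'.2 hv))).2 hv
  have hfa : Finite (G.induce G.support ≃g G.induce G.support) := finite_aut _
  have hfC : Finite (Set.range c) := hCfin
  have hcard := Nat.card_le_card_of_injective _ hinj
  rw [Nat.card_prod, Nat.card_coe_set_eq] at hcard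
  have hP : Nat.card {A : Set V // A ⊆ Y} = 2 ^ Y.ncard := by
    have h1 : Nat.card (𝒫 Y : Set (Set V)) = (𝒫 Y : Set (Set V)).ncard := Nat.card_coe_set_eq _
    rw [Set.ncard_powerset Y] at h1
    exact h1
  rw [hP] at hcard
  have ha := card_aut_le G S hne hS
  have hpos : 0 < Nat.card (G.induce G.support ≃g G.induce G.support) := by
    have : Nonempty (G.induce G.support ≃g G.induce G.support) := ⟨SimpleGraph.Iso.refl⟩
    exact Nat.card_pos
  have h5 : k * Nat.card (G.induce G.support ≃g G.induce G.support) ≤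
      (Set.range c).ncard * Nat.card (G.induce G.support ≃g G.induce G.support) :=
    le_trans (Nat.mul_le_mul_left k ha) (le_trans hk hcard)
  have h6 : k ≤ (Set.range c).ncard := Nat.le_of_mul_le_mul_right h5 hpos
  have h7 : ((Set.range c).ncard : ℕ∞) = (Set.range c).encard := hCfin.cast_ncard_eq
  calc (k : ℕ∞) ≤ ((Set.range c).ncard : ℕ∞) := by exact_mod_cast h6
    _ = (Set.range c).encard := h7
    _ ≤ (ObsSet g).encard := Set.encard_le_encard hCsub

end Pool.Agent.Helper226_Obs
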