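import Pool.Agent.Helper226_Obs.FP.A01
import Pool.Agent.Helper226_Obs.FP.A03
import Pool.Agent.Helper226_Obs.FP.A05
import Pool.Agent.Helper226_Obs.FP.A06
import Pool.Agent.Helper226_Obs.FP.A07
import Pool.Agent.Helper226_Obs.FP.A08
import Pool.Agent.Helper226_Obs.FP.B04

set_option autoImplicit false

namespace Pool.Agent.Helper226_Obs

open SimpleGraph

theorem card_ne_aux {E : Type} [Fintype E] [DecidableEq E] (e0 : E) :
    Fintype.card {e // e ≠ e0} + 1 = Fintype.card E := by
  have h1 : Fintype.card {e // e ≠ e0} = Fintype.card E - 1 := by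
    rw [Fintype.card_subtype_compl (fun e => e = e0), Fintype.card_subtype_eq]
  have h2 : 1 ≤ Fintype.card E := Fintype.card_pos_iff.2 ⟨e0⟩
  omega

theorem mapGraph_del {E V : Type} [DecidableEq E] (vt : E × Bool → V)
    (hinj : ∀ d d' : E × Bool, vt d = vt d' → vt (flp d) = vt (flp d') → d = d') (e0 : E) (s : Bool) :
    mapGraph (fun d : {e // e ≠ e0} × Bool => vt (d.1.1, d.2)) =
      (mapGraph vt).deleteEdges {s(vt (e0, s), vt (e0, !s))} := by
  ext x y
  rw [SimpleGraph.deleteEdges_adj]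
  constructor
  · rintro ⟨hxy, ⟨⟨e, he⟩, t⟩, h1, h2⟩
    simp only [flp_apply] at h1 h2
    refine ⟨⟨hxy, (e, t), h1, by simpa using h2⟩, ?_⟩
    intro hmem
    rw [Set.mem_singleton_iff, Sym2.eq_iff] at hmem
    rcases hmem with ⟨g1, g2⟩ | ⟨g1, g2⟩
    · have := hinj (e, t) (e0, s) (h1.trans g1) (by simpa using h2.trans g2)
      exact he (congrArg Prod.fst this)
    · have := hinj (e, t) (e0, !s) (h1.trans g1) (by simpa using h2.trans g2)
      exact he (congrArg Prod.fst this)
  · rintro ⟨⟨hxy, ⟨e, t⟩, h1, h2⟩, hmem⟩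
    simp only [flp_apply] at h2
    have he : e ≠ e0 := by
      intro he
      subst he
      apply hmem
      rw [Set.mem_singleton_iff, Sym2.eq_iff, ← h1, ← h2]
      cases s <;> cases t <;> simp
    exact ⟨hxy, (⟨e, he⟩, t), h1, h2⟩

theorem mapGraph_con {E V : Type} [DecidableEq E] [DecidableEq V] (vt : E × Bool → V)
    (hne : ∀ e, vt (e, false) ≠ vt (e, true)) (e0 : E) :
    mapGraph (fun d : {e // e ≠ e0} × Bool =>
      if vt (d.1.1, d.2) = vt (e0, true) then vt (e0, false) else vt (d.1.1, d.2)) =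
      ctr (mapGraph vt) (vt (e0, false)) (vt (e0, true)) := by
  have hne' : ∀ d, vt d ≠ vt (flp d) := by
    rintro ⟨e, t⟩
    cases t
    · exact hne e
    · exact (hne e).symm
  have h01 := hne e0
  ext x y
  constructor
  · rintro ⟨hxy, ⟨⟨e, he⟩, t⟩, h1, h2⟩
    simp only [flp_apply] at h1 h2
    have hx : x ≠ vt (e0, true) := by
      rw [← h1]
      split_ifs with hh
      · exact h01
      · exact hh
    have hy : y ≠ vt (e0, true) := by
      rw [← h2]
      split_ifs with hh
      · exact h01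
      · exact hh
    refine ⟨hxy, hx, hy, ?_⟩
    by_cases hp : vt (e, t) = vt (e0, true)
    · rw [if_pos hp] at h1
      have hq : vt (e, !t) ≠ vt (e0, true) := by
        intro hq
        exact hne' (e, t) (hp.trans hq.symm)
      rw [if_neg hq] at h2
      right; left
      refine ⟨h1.symm, ?_, (e, t), hp, h2⟩
      intro hh
      exact hy hh.symm
    · rw [if_neg hp] at h1
      by_cases hq : vt (e, !t) = vt (e0, true)
      · rw [if_pos hq] at h2
        right; right
        refine ⟨h2.symm, ?_, (e, !t), hq, by simpa using h1⟩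
        intro hh
        exact hx hh.symm
      · rw [if_neg hq] at h2
        left
        exact ⟨hxy, (e, t), h1, h2⟩
  · rintro ⟨hxy, hx, hy, hadj⟩
    rcases hadj with ⟨-, ⟨e, t⟩, h1, h2⟩ | ⟨hx0, -, ⟨e, t⟩, h1, h2⟩ | ⟨hy0, -, ⟨e, t⟩, h1, h2⟩
    · simp only [flp_apply] at h2
      have he : e ≠ e0 := by
        intro he
        subst he
        cases t
        · exact hy h2.symm
        · exact hx h1.symm
      refine ⟨hxy, (⟨e, he⟩, t), ?_, ?_⟩
      · simp only
        rw [h1, if_neg hx]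
      · simp only [flp_apply]
        rw [h2, if_neg hy]
    · simp only [flp_apply] at h2
      have he : e ≠ e0 := by
        intro he
        subst he
        cases t
        · exact h01 h1
        · exact hxy (hx0.trans h2)
      refine ⟨hxy, (⟨e, he⟩, t), ?_, ?_⟩
      · simp only
        rw [if_pos h1, hx0]
      · simp only [flp_apply]
        rw [h2, if_neg hy]
    · simp only [flp_apply] at h2
      have he : e ≠ e0 := by
        intro he
        subst he
        cases t
        · exact h01 h1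
        · exact hxy (h2.symm.trans hy0.symm)
      refine ⟨hxy, (⟨e, he⟩, !t), ?_, ?_⟩
      · simp only
        rw [h2, if_neg hx]
      · simp only [flp_apply, Bool.not_not]
        rw [if_pos h1, hy0]

theorem con_ne {E V : Type} [DecidableEq V] (vt : E × Bool → V)
    (hne : ∀ e, vt (e, false) ≠ vt (e, true))
    (hinj : ∀ d d' : E × Bool, vt d = vt d' → vt (flp d) = vt (flp d') → d = d') (e0 : E)
    (e : {e // e ≠ e0}) :
    (if vt (e.1, false) = vt (e0, true) then vt (e0, false) else vt (e.1, false)) ≠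
      (if vt (e.1, true) = vt (e0, true) then vt (e0, false) else vt (e.1, true)) := by
  obtain ⟨e, he⟩ := e
  simp only
  intro hh
  by_cases hp : vt (e, false) = vt (e0, true)
  · have hq : vt (e, true) ≠ vt (e0, true) := fun hq => hne e (hp.trans hq.symm)
    rw [if_pos hp, if_neg hq] at hh
    have := hinj (e, false) (e0, true) hp (by simpa using hh.symm)
    exact he (congrArg Prod.fst this)
  · rw [if_neg hp] at hh
    by_cases hq : vt (e, true) = vt (e0, true)
    · rw [if_pos hq] at hh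
      have := hinj (e, false) (e0, false) hh (by simpa using hq)
      exact he (congrArg Prod.fst this)
    · rw [if_neg hq] at hh
      exact hne e hh

theorem pi_eq {V : Type} [DecidableEq V] (v0 v1 p p' : V)
    (h : (if p = v1 then v0 else p) = (if p' = v1 then v0 else p')) :
    p = p' ∨ (p = v0 ∧ p' = v1) ∨ (p = v1 ∧ p' = v0) := by
  by_cases hp : p = v1
  · by_cases hp' : p' = v1
    · left; rw [hp, hp']
    · rw [if_pos hp, if_neg hp'] at h
      right; right; exact ⟨hp, h.symm⟩
  · by_cases hp' : p' = v1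
    · rw [if_neg hp, if_pos hp'] at h
      right; left; exact ⟨h, hp'⟩
    · rw [if_neg hp, if_neg hp'] at h
      left; exact h

theorem con_inj {E V : Type} [DecidableEq V] (vt : E × Bool → V)
    (hne : ∀ e, vt (e, false) ≠ vt (e, true))
    (hinj : ∀ d d' : E × Bool, vt d = vt d' → vt (flp d) = vt (flp d') → d = d')
    (htri : ∀ u v w, (mapGraph vt).Adj u v → (mapGraph vt).Adj v w → ¬ (mapGraph vt).Adj u w)
    (e0 : E) (d d' : {e // e ≠ e0} × Bool)
    (h1 : (if vt (d.1.1, d.2) = vt (e0, true) then vt (e0, false) else vt (d.1.1, d.2)) =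
      (if vt (d'.1.1, d'.2) = vt (e0, true) then vt (e0, false) else vt (d'.1.1, d'.2)))
    (h2 : (if vt (d.1.1, !d.2) = vt (e0, true) then vt (e0, false) else vt (d.1.1, !d.2)) =
      (if vt (d'.1.1, !d'.2) = vt (e0, true) then vt (e0, false) else vt (d'.1.1, !d'.2))) :
    d = d' := by
  have hne' : ∀ d, vt d ≠ vt (flp d) := by
    rintro ⟨e, t⟩
    cases t
    · exact hne e
    · exact (hne e).symm
  have hadj : ∀ d, (mapGraph vt).Adj (vt d) (vt (flp d)) := fun d => ⟨hne' d, d, rfl, rfl⟩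
  have h01 : (mapGraph vt).Adj (vt (e0, false)) (vt (e0, true)) := hadj (e0, false)
  obtain ⟨⟨e, he⟩, t⟩ := d
  obtain ⟨⟨e', he'⟩, t'⟩ := d'
  simp only at h1 h2
  have ha : (mapGraph vt).Adj (vt (e, t)) (vt (e, !t)) := hadj (e, t)
  have ha' : (mapGraph vt).Adj (vt (e', t')) (vt (e', !t')) := hadj (e', t')
  have noadj : ∀ (f : E) (s : Bool), f ≠ e0 → vt (f, s) = vt (e0, false) → vt (f, !s) = vt (e0, true) → False := by
    intro f s hf g1 g2
    have := hinj (f, s) (e0, false) g1 (by simpa using g2)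
    exact hf (congrArg Prod.fst this)
  have noadj' : ∀ (f : E) (s : Bool), f ≠ e0 → vt (f, s) = vt (e0, true) → vt (f, !s) = vt (e0, false) → False := by
    intro f s hf g1 g2
    have := hinj (f, s) (e0, true) g1 (by simpa using g2)
    exact hf (congrArg Prod.fst this)
  rcases pi_eq _ _ _ _ h1 with g | ⟨g, g'⟩ | ⟨g, g'⟩
  · rcases pi_eq _ _ _ _ h2 with k | ⟨k, k'⟩ | ⟨k, k'⟩
    · have h3 := hinj (e, t) (e', t') g (by simpa using k)
      simp only [Prod.mk.injEq] at h3 ⊢
      exact ⟨Subtype.ext h3.1, h3.2⟩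
    · exfalso
      rw [k] at ha
      rw [k', ← g] at ha'
      exact htri _ _ _ ha.symm ha' h01
    · exfalso
      rw [k] at ha
      rw [k', ← g] at ha'
      exact htri _ _ _ ha'.symm ha h01
  · rcases pi_eq _ _ _ _ h2 with k | ⟨k, k'⟩ | ⟨k, k'⟩
    · exfalso
      rw [g, k] at ha
      rw [g'] at ha'
      exact htri _ _ _ ha ha'.symm h01
    · exact absurd (g.trans k.symm) (hne' (e, t))
    · exact (noadj e t he g k).elim
  · rcases pi_eq _ _ _ _ h2 with k | ⟨k, k'⟩ | ⟨k, k'⟩
    · exfalso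
      rw [g, k] at ha
      rw [g'] at ha'
      exact htri _ _ _ ha' ha.symm h01
    · exact (noadj' e t he g k).elim
    · exact absurd (g.trans k.symm) (hne' (e, t))

theorem good_of_PM {E V F : Type} [Fintype E] [DecidableEq E] [Finite V] [DecidableEq V]
    (vt : E × Bool → V) (fc : E × Bool → F)
    (r : Equiv.Perm (E × Bool × Bool)) (h : PM vt fc r) (hdeg : ∀ x, (r x).1 ≠ x.1)
    (hne : ∀ e, vt (e, false) ≠ vt (e, true))
    (hinj : ∀ d d' : E × Bool, vt d = vt d' → vt (flp d) = vt (flp d') → d = d')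
    (hfc : ∀ e, fc (e, false) ≠ fc (e, true)) (hconn : ConnV vt)
    (htri : ∀ u v w, (mapGraph vt).Adj u v → (mapGraph vt).Adj v w → ¬ (mapGraph vt).Adj u w)
    (hEul : Fintype.card E + 1 ≤ (Set.range vt).ncard + (Set.range fc).ncard) (g : ℕ)
    (hdel : ∀ e, ∃ θ : E → ZMod 2, (Cut θ r).ncard ≤ 8 * g + 8 ∧
      ∃ t, (e, t, false) ∈ Cut θ r ∧ (e, t, true) ∈ Cut θ r)
    (hcon : ∀ e, ∃ θ : E → ZMod 2, (Cut θ r).ncard ≤ 8 * g + 8 ∧
      ∃ u, (e, false, u) ∈ Cut θ r ∧ (e, true, u) ∈ Cut θ r) :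
    Good (mapGraph vt) g := by
  intro a b hab
  obtain ⟨hab, ⟨e0, s⟩, ha, hb⟩ := hab
  simp only [flp_apply] at hb
  have hcard := card_ne_aux e0
  have hnon : Nonempty {e // e ≠ e0} := ⟨⟨(r (e0, false, false)).1, hdeg (e0, false, false)⟩⟩
  constructor
  · rw [← ha, ← hb, ← mapGraph_del vt hinj e0 s]
    obtain ⟨θ, hθ, t, h0, h1⟩ := hdel e0
    obtain ⟨fc', r', hPM', hfc', hrange, hcut⟩ := del_PM vt fc r h hdeg hne e0 θ t h0 h1
    obtain ⟨rot', hrot', hle⟩ := upper_rot (fun d : {e // e ≠ e0} × Bool => vt (d.1.1, d.2)) fc' r' hPM'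
      (fun e => θ e.1) (2 * g + 1) (by omega) (by omega)
    refine embeds_of_rot (fun d : {e // e ≠ e0} × Bool => vt (d.1.1, d.2)) (fun e => hne e.1) ?_
      (del_conn vt fc r h hconn hfc e0) rot' hrot' g ?_
    · rintro ⟨⟨e, he⟩, t⟩ ⟨⟨e', he'⟩, t'⟩ g1 g2
      have h3 := hinj (e, t) (e', t') g1 g2
      simp only [Prod.mk.injEq] at h3 ⊢
      exact ⟨Subtype.ext h3.1, h3.2⟩
    · have hp := parity rot'
      rw [nOrb_rot _ rot' hrot'] at hp
      obtain ⟨k, hk⟩ := hp
      rw [hrange] at hk ⊢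
      omega
  · have key : Embeds (ctr (mapGraph vt) (vt (e0, false)) (vt (e0, true))) g := by
      rw [← mapGraph_con vt hne e0]
      obtain ⟨θ, hθ, u, h0, h1⟩ := hcon e0
      obtain ⟨r', hPM', hrange, hvt', hcut⟩ := con_PM vt fc r h hdeg hne e0 θ u h0 h1
      obtain ⟨rot', hrot', hle⟩ := upper_rot _ _ r' hPM'
        (fun e => θ e.1) (2 * g + 1) (by omega) (by omega)
      refine embeds_of_rot (fun d : {e // e ≠ e0} × Bool =>
          if vt (d.1.1, d.2) = vt (e0, true) then vt (e0, false) else vt (d.1.1, d.2))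
        (fun e => con_ne vt hne hinj e0 e) ?_
        (con_conn vt hconn e0) rot' hrot' g ?_
      · intro d d' g1 g2
        exact con_inj vt hne hinj htri e0 d d' g1 g2
      · have hp := parity rot'
        rw [nOrb_rot _ rot' hrot'] at hp
        obtain ⟨k, hk⟩ := hp
        rw [hrange] at hle
        omega
    cases s
    · rw [← ha, ← hb]
      exact key
    · rw [← ha, ← hb]
      exact ctr_comm _ _ _ _ key

end Pool.Agent.Helper226_Obs
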