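import Pool.Agent.Helper226_Obs.FP.Lab
import Pool.Agent.TH482.HT.Rank

set_option autoImplicit false

namespace Pool.Agent.Helper226_Obs

open SimpleGraph

theorem omg_symm {E : Type} [Fintype E] (rot : Equiv.Perm (E × Bool)) {b c : E × Bool → ZMod 2}
    (hb : WW rot b) (hc : WW rot c) : omg rot b c = omg rot c b := by
  classical
  exact TH482.HT.om_symm rot (b := b) (c := c) hb hc

theorem omg_self {E : Type} [Fintype E] (rot : Equiv.Perm (E × Bool)) {b : E × Bool → ZMod 2}
    (hb : WW rot b) : omg rot b b = 0 := by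
  classical
  exact TH482.HT.om_self rot (b := b) hb

theorem gram_rank {E I : Type} [Fintype E] [Nonempty E] [Fintype I] [DecidableEq I]
    (rot : Equiv.Perm (E × Bool)) (hc : CC rot) (y : I → E × Bool → ZMod 2)
    (hy : ∀ i, WW rot (y i)) :
    (Matrix.of fun i j => omg rot (y i) (y j)).rank + nOrb rot + nOrb (rot * flp) ≤
      Fintype.card E + 2 := by
  classical
  obtain ⟨M, hM⟩ : ∃ M : Matrix I I (ZMod 2), M = Matrix.of fun i j => omg rot (y i) (y j) :=
    ⟨_, rfl⟩
  rw [← hM]
  have hMe : ∀ i j, M i j = TH482.HT.om rot (y i) (y j) := fun i j => by rw [hM]; rfl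
  obtain ⟨k, e⟩ : ∃ k : ℕ, Nonempty (I ≃ Fin k) := ⟨_, ⟨Fintype.equivFin I⟩⟩
  obtain ⟨e⟩ := e
  have hc' : TH482.HT.Conn rot := hc
  -- the family indexed by the natural numbers
  let y' : ℕ → E × Bool → ZMod 2 := fun j => if h : j < k then y (e.symm ⟨j, h⟩) else 0
  have hy' : ∀ j, y' j ∈ TH482.HT.W rot := by
    intro j
    by_cases h : j < k
    · have : y' j = y (e.symm ⟨j, h⟩) := dif_pos h
      rw [this]
      exact hy _
    · have : y' j = 0 := dif_neg h
      rw [this]
      exact (TH482.HT.W rot).zero_mem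
  -- extension by zero
  let Ψ : (I → ZMod 2) →ₗ[ZMod 2] (ℕ → ZMod 2) :=
    { toFun := fun f j => if h : j < k then f (e.symm ⟨j, h⟩) else 0
      map_add' := by
        intro f g
        funext j
        by_cases h : j < k
        · simp only [Pi.add_apply, dif_pos h]
        · simp only [Pi.add_apply, dif_neg h, add_zero]
      map_smul' := by
        intro c f
        funext j
        by_cases h : j < k
        · simp only [Pi.smul_apply, dif_pos h, RingHom.id_apply]
        · simp only [Pi.smul_apply, dif_neg h, RingHom.id_apply, smul_zero] }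
  have hΨ1 : ∀ f j (h : j < k), Ψ f j = f (e.symm ⟨j, h⟩) := fun f j h => dif_pos h
  have hΨ2 : ∀ f j, ¬ j < k → Ψ f j = 0 := fun f j h => dif_neg h
  have hΨi : Function.Injective Ψ := by
    intro f g hfg
    funext i
    have h1 := congrFun hfg (e i : ℕ)
    rw [hΨ1 f _ (e i).2, hΨ1 g _ (e i).2] at h1
    have h2 : e.symm ⟨(e i : ℕ), (e i).2⟩ = i := e.symm_apply_apply i
    rwa [h2] at h1
  -- combinations of the rows
  let Θ : TH482.HT.W rot →ₗ[ZMod 2] (I → ZMod 2) :=
    (LinearMap.pi fun j => TH482.HT.omL rot (y j)) ∘ₗ (TH482.HT.W rot).subtype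
  have hΘ : ∀ b : TH482.HT.W rot, ∀ j, Θ b j = TH482.HT.om rot b.1 (y j) := fun b j => rfl
  have hspan : Submodule.span (ZMod 2) (Set.range M.row) ≤ LinearMap.range Θ := by
    rw [Submodule.span_le]
    rintro _ ⟨i, rfl⟩
    refine ⟨⟨y i, hy i⟩, ?_⟩
    funext j
    rw [hΘ]
    exact (hMe i j).symm
  have h0 : ∀ b : E × Bool → ZMod 2, TH482.HT.om rot b 0 = 0 := by
    intro b
    unfold TH482.HT.om
    simp
  have key := TH482.HT.finrank_le rot hc' y' hy'
    ((Submodule.span (ZMod 2) (Set.range M.row)).map Ψ) (by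
      rintro f ⟨g, hg, rfl⟩
      obtain ⟨b, rfl⟩ := hspan hg
      refine ⟨b.1, b.2, fun j => ?_⟩
      by_cases h : j < k
      · have h1 : y' j = y (e.symm ⟨j, h⟩) := dif_pos h
        rw [hΨ1 _ j h, h1, hΘ]
      · have h1 : y' j = 0 := dif_neg h
        rw [hΨ2 _ j h, h1, h0])
  have hr : Module.finrank (ZMod 2) ((Submodule.span (ZMod 2) (Set.range M.row)).map Ψ) =
      M.rank := by
    rw [Matrix.rank_eq_finrank_span_row]
    exact (Submodule.equivMapOfInjective Ψ hΨi _).symm.finrank_eq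
  rw [hr] at key
  exact key

end Pool.Agent.Helper226_Obs
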