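import Pool.Agent.Helper226_Obs.FP.Lab

set_option autoImplicit false

namespace Pool.Agent.Helper226_Obs

open SimpleGraph

/-- the sums of a function along an orbit only depend on the end point -/
theorem exK_sum_eq {D A : Type} [Fintype D] [DecidableEq D] [AddCommGroup A] (rot : Equiv.Perm D) (J : D → A) (d0 : D)
    (h0 : ∑ j ∈ Finset.range (Function.minimalPeriod rot d0), J (rot^[j] d0) = 0) (k l : ℕ)
    (h : rot^[k] d0 = rot^[l] d0) :
    ∑ j ∈ Finset.range k, J (rot^[j] d0) = ∑ j ∈ Finset.range l, J (rot^[j] d0) := by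
  have hm : 0 < Function.minimalPeriod rot d0 :=
    Function.minimalPeriod_pos_of_mem_periodicPts (rot.injective.mem_periodicPts d0)
  have hadd : ∀ n, ∑ j ∈ Finset.range (n + Function.minimalPeriod rot d0), J (rot^[j] d0) =
      ∑ j ∈ Finset.range n, J (rot^[j] d0) := by
    intro n
    rw [add_comm, Finset.sum_range_add, h0, zero_add]
    refine Finset.sum_congr rfl (fun j _ => ?_)
    rw [add_comm, Function.iterate_add_minimalPeriod_eq]
  have hmul : ∀ q n, ∑ j ∈ Finset.range (n + q * Function.minimalPeriod rot d0), J (rot^[j] d0) =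
      ∑ j ∈ Finset.range n, J (rot^[j] d0) := by
    intro q
    induction q with
    | zero => intro n; simp
    | succ q ih =>
      intro n
      rw [Nat.succ_mul, ← add_assoc, hadd, ih]
  have hmod : ∀ n, ∑ j ∈ Finset.range n, J (rot^[j] d0) =
      ∑ j ∈ Finset.range (n % Function.minimalPeriod rot d0), J (rot^[j] d0) := by
    intro n
    have h1 := hmul (n / Function.minimalPeriod rot d0) (n % Function.minimalPeriod rot d0)
    rw [mul_comm, Nat.mod_add_div] at h1
    exact h1
  have hkl : k % Function.minimalPeriod rot d0 = l % Function.minimalPeriod rot d0 := by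
    refine Function.iterate_injOn_Iio_minimalPeriod (f := rot) (x := d0) (Nat.mod_lt _ hm) (Nat.mod_lt _ hm) ?_
    simp only [Function.iterate_mod_minimalPeriod_eq]
    exact h
  rw [hmod k, hmod l, hkl]

/-- the sum over a cycle is the sum over the darts of the vertex -/
theorem exK_cycle {E V : Type} [Fintype E] [DecidableEq V] {A : Type} [AddCommGroup A]
    (vt : E × Bool → V) (rot : Equiv.Perm (E × Bool)) (hrot : RotAt vt rot) (J : E × Bool → A) (d0 : E × Bool) :
    ∑ j ∈ Finset.range (Function.minimalPeriod rot d0), J (rot^[j] d0) =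
      ∑ d : E × Bool, if vt d = vt d0 then J d else 0 := by
  classical
  have hm : 0 < Function.minimalPeriod rot d0 :=
    Function.minimalPeriod_pos_of_mem_periodicPts (rot.injective.mem_periodicPts d0)
  have hvt : ∀ j, vt (rot^[j] d0) = vt d0 := by
    intro j
    induction j with
    | zero => rfl
    | succ j ih => rw [Function.iterate_succ_apply', hrot.1, ih]
  rw [← Finset.sum_filter]
  refine Finset.sum_bij (fun j _ => rot^[j] d0) ?_ ?_ ?_ ?_
  · intro j _
    simp [hvt j]
  · intro a ha b hb hab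
    exact Function.iterate_injOn_Iio_minimalPeriod (f := rot) (x := d0) (Finset.mem_range.1 ha)
      (Finset.mem_range.1 hb) hab
  · intro d hd
    have hd' : vt d = vt d0 := (Finset.mem_filter.1 hd).2
    obtain ⟨i, hi⟩ := (hrot.2 d0 d hd'.symm).exists_nat_pow_eq
    refine ⟨i % Function.minimalPeriod rot d0, Finset.mem_range.2 (Nat.mod_lt _ hm), ?_⟩
    rw [Function.iterate_mod_minimalPeriod_eq, ← hi, Equiv.Perm.iterate_eq_pow]
  · intro j _
    rfl

theorem exists_K {E V F : Type} [Fintype E] [Fintype F] [DecidableEq V] [DecidableEq F]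
    (vt : E × Bool → V) (fc : E × Bool → F) (rot : Equiv.Perm (E × Bool)) (hrot : RotAt vt rot)
    (hE : EvenAt vt fc) :
    ∃ K : E × Bool → F → ZMod 2, (∀ d f, K d f + K (rot d) f = Jf fc d.1 f) ∧
      (∀ d, ∑ f, K d f = 1) ∧
      ∀ d f, K d f ≠ 0 → ∃ e t u, vt (e, t) = vt d ∧ fc (e, u) = f := by
  classical
  -- representatives
  obtain ⟨R, hR, hRe⟩ : ∃ R : E × Bool → E × Bool, (∀ d, vt (R d) = vt d) ∧ ∀ d d', vt d = vt d' → R d = R d' := by
    have hex : ∀ v : V, (∃ d, vt d = v) → ∃ d, vt d = v := fun _ h => h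
    refine ⟨fun d => (hex (vt d) ⟨d, rfl⟩).choose, fun d => (hex (vt d) ⟨d, rfl⟩).choose_spec, ?_⟩
    intro d d' h
    have key : ∀ (v w : V) (hv : ∃ d, vt d = v) (hw : ∃ d, vt d = w), v = w → hv.choose = hw.choose := by
      intro v w hv hw hvw
      subst hvw
      rfl
    exact key _ _ _ _ h
  have hidx : ∀ d, ∃ k : ℕ, rot^[k] (R d) = d := by
    intro d
    obtain ⟨i, hi⟩ := (hrot.2 (R d) d (hR d)).exists_nat_pow_eq
    exact ⟨i, by rw [Equiv.Perm.iterate_eq_pow]; exact hi⟩
  choose k hk using hidx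
  have hvt : ∀ j d, vt (rot^[j] d) = vt d := by
    intro j d
    induction j with
    | zero => rfl
    | succ j ih => rw [Function.iterate_succ_apply', hrot.1, ih]
  have hzero : ∀ f d0, ∑ j ∈ Finset.range (Function.minimalPeriod rot d0), Jf fc (rot^[j] d0).1 f = 0 := by
    intro f d0
    have h1 := exK_cycle vt rot hrot (fun d => Jf fc d.1 f) d0
    rw [h1]
    exact hE (vt d0) f
  have hJsum : ∀ e, ∑ f, Jf fc e f = 0 := by
    intro e
    unfold Jf
    rw [Finset.sum_add_distrib, Finset.sum_ite_eq, Finset.sum_ite_eq]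
    simp only [Finset.mem_univ, if_true]
    decide
  refine ⟨fun d f => (if f = fc ((R d).1, true) then 1 else 0) + ∑ j ∈ Finset.range (k d), Jf fc (rot^[j] (R d)).1 f, ?_, ?_, ?_⟩
  · intro d f
    have hRr : R (rot d) = R d := hRe _ _ (hrot.1 d)
    have h1 : ∑ j ∈ Finset.range (k (rot d)), Jf fc (rot^[j] (R d)).1 f =
        ∑ j ∈ Finset.range (k d + 1), Jf fc (rot^[j] (R d)).1 f := by
      refine exK_sum_eq rot (fun d => Jf fc d.1 f) (R d) (hzero f (R d)) _ _ ?_
      rw [Function.iterate_succ_apply', hk d]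
      have h2 := hk (rot d)
      rw [hRr] at h2
      exact h2
    simp only [hRr]
    rw [h1, Finset.sum_range_succ, hk d]
    have h2 : ∀ x y z : ZMod 2, x + y + (x + (y + z)) = z := by decide
    exact h2 _ _ _
  · intro d
    rw [Finset.sum_add_distrib, Finset.sum_ite_eq' Finset.univ (fc ((R d).1, true)) (fun _ => (1 : ZMod 2)), Finset.sum_comm]
    simp only [Finset.mem_univ, if_true, hJsum, Finset.sum_const_zero, add_zero]
  · intro d f hne
    by_cases hf : f = fc ((R d).1, true)
    · exact ⟨(R d).1, (R d).2, true, hR d, hf.symm⟩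
    · simp only [hf, if_false, zero_add] at hne
      obtain ⟨j, _, hj⟩ := Finset.exists_ne_zero_of_sum_ne_zero hne
      refine ⟨(rot^[j] (R d)).1, (rot^[j] (R d)).2, ?_⟩
      unfold Jf at hj
      by_cases h1 : fc ((rot^[j] (R d)).1, false) = f
      · exact ⟨false, by rw [Prod.mk.eta, hvt, hR], h1⟩
      · by_cases h2 : fc ((rot^[j] (R d)).1, true) = f
        · exact ⟨true, by rw [Prod.mk.eta, hvt, hR], h2⟩
        · exact absurd (by simp [h1, h2]) hj

end Pool.Agent.Helper226_Obs
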