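import Pool.Agent.Helper226_Obs.FP.Lab

set_option autoImplicit false

namespace Pool.Agent.Helper226_Obs

open SimpleGraph

theorem dl_rel {M : ℕ} [NeZero M] (hM : 2 ≤ M) (c : ZMod M → ZMod 2)
    (h : ∑ x, c x • (dl x : Lab M) = 0) (x y : ZMod M) : c x = c y := by
  have _h2 := hM
  have key : ∀ z : ZMod M, c (z + 1) = c z := by
    intro z
    have h1 := congrFun h z
    rw [Finset.sum_apply] at h1
    have h2 : ∀ x : ZMod M, (c x • (dl x : Lab M)) z =
        (if x = z then c x else 0) + (if x = z + 1 then c x else 0) := by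
      intro x
      simp only [dl, sg, Pi.smul_apply, Pi.add_apply, smul_eq_mul, Pi.single_apply, mul_add]
      congr 1
      · by_cases hx : x = z
        · rw [if_pos hx, if_pos hx.symm, mul_one]
        · rw [if_neg hx, if_neg (fun h => hx h.symm), mul_zero]
      · by_cases hx : x = z + 1
        · rw [if_pos hx, if_pos (by rw [hx]; ring), mul_one]
        · rw [if_neg hx, if_neg (fun h => hx (by rw [h]; ring)), mul_zero]
    simp only [h2, Finset.sum_add_distrib, Finset.sum_ite_eq', Finset.mem_univ, if_true,
      Pi.zero_apply] at h1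
    exact (CharTwo.add_eq_zero.1 h1).symm
  have hn : ∀ n : ℕ, c (n : ZMod M) = c 0 := by
    intro n
    induction n with
    | zero => rw [Nat.cast_zero]
    | succ n ih => rw [Nat.cast_succ, key, ih]
  have hx := hn x.val
  have hy := hn y.val
  rw [ZMod.natCast_zmod_val] at hx hy
  rw [hx, hy]

theorem lab_add_self {M : ℕ} (f : Lab M) : f + f = 0 := by
  funext z
  exact CharTwo.add_self_eq_zero (f z)

theorem sum_ind {M : ℕ} [NeZero M] (a : ZMod M) :
    ∑ x, (if a = x then (1 : ZMod 2) else 0) • (dl x : Lab M) = dl a := by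
  simp only [ite_smul, one_smul, zero_smul, Finset.sum_ite_eq, Finset.mem_univ, if_true]

theorem sl_eq {M : ℕ} [NeZero M] (hM : 5 ≤ M) (f f' : Lab M) (a b : ZMod M) (hab : a ≠ b)
    (h : f + f' = dl a + dl b) : sl f f' = if a = 0 ∨ b = 0 then 1 else 0 := by
  classical
  have hiff : (∃ j : ZMod M, j ≠ 0 ∧ f + f' = dl 0 + dl j) ↔ (a = 0 ∨ b = 0) := by
    constructor
    · rintro ⟨j, hj, hj2⟩
      by_contra hcon
      push Not at hcon
      obtain ⟨ha, hb⟩ := hcon
      let c : ZMod M → ZMod 2 := fun x => ((if a = x then 1 else 0) + (if b = x then 1 else 0)) +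
        ((if 0 = x then 1 else 0) + (if j = x then 1 else 0))
      have hc : ∑ x, c x • (dl x : Lab M) = 0 := by
        simp only [c, add_smul, Finset.sum_add_distrib, sum_ind]
        rw [← h, ← hj2, lab_add_self]
      have hconst := dl_rel (by omega) c hc
      have hc0 : c 0 = 1 := by
        simp only [c]
        rw [if_neg ha, if_neg hb, if_neg hj, if_pos trivial]
        rfl
      have hsub : (Finset.univ : Finset (ZMod M)) ⊆ {a, b, 0, j} := by
        intro x _
        by_contra hx
        simp only [Finset.mem_insert, Finset.mem_singleton, not_or] at hx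
        obtain ⟨h1, h2, h3, h4⟩ := hx
        have h5 : c x = 0 := by
          simp only [c]
          rw [if_neg (Ne.symm h1), if_neg (Ne.symm h2), if_neg (Ne.symm h3), if_neg (Ne.symm h4)]
          rfl
        rw [hconst x 0, hc0] at h5
        exact one_ne_zero h5
      have hcard := Finset.card_le_card hsub
      rw [Finset.card_univ, ZMod.card] at hcard
      have h4 : ({a, b, 0, j} : Finset (ZMod M)).card ≤ 4 := Finset.card_le_four
      omega
    · rintro (h0 | h0)
      · subst h0
        exact ⟨b, fun hb => hab hb.symm, h⟩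
      · subst h0
        exact ⟨a, hab, by rw [h, add_comm]⟩
  unfold sl
  by_cases h0 : a = 0 ∨ b = 0
  · rw [if_pos h0, if_pos (hiff.2 h0)]
  · rw [if_neg h0, if_neg (fun h1 => h0 (hiff.1 h1))]

theorem walk_len {M : ℕ} [NeZero M] (hM : 2 ≤ M) (k : ℕ) (w : ℕ → Lab M) (hk : w 0 = w k)
    (a b : ℕ → ZMod M) (hab : ∀ i < k, a i ≠ b i ∧ w i + w (i + 1) = dl (a i) + dl (b i))
    (hodd : Odd ((Finset.range k).filter (fun i => a i = 0 ∨ b i = 0)).card) : M ≤ 2 * k := by
  classical
  have htel : ∀ n : ℕ, ∑ i ∈ Finset.range n, (w i + w (i + 1)) = w 0 + w n := by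
    intro n
    induction n with
    | zero => rw [Finset.sum_range_zero, lab_add_self]
    | succ n ih =>
      rw [Finset.sum_range_succ, ih]
      have : w 0 + w n + (w n + w (n + 1)) = w 0 + (w n + w n) + w (n + 1) := by abel
      rw [this, lab_add_self, add_zero]
  let c : ZMod M → ZMod 2 := fun x => ∑ i ∈ Finset.range k,
    ((if a i = x then 1 else 0) + (if b i = x then 1 else 0))
  have hc : ∑ x, c x • (dl x : Lab M) = 0 := by
    simp only [c, Finset.sum_smul]
    rw [Finset.sum_comm]
    simp only [add_smul, Finset.sum_add_distrib, sum_ind]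
    rw [← Finset.sum_add_distrib, ← lab_add_self (w 0)]
    have h1 : w 0 + w 0 = w 0 + w k := by rw [← hk]
    rw [h1, ← htel k]
    exact Finset.sum_congr rfl (fun i hi => ((hab i (Finset.mem_range.1 hi)).2).symm)
  have hconst := dl_rel hM c hc
  have hc0 : c 0 = 1 := by
    have h1 : c 0 = ∑ i ∈ Finset.range k, (if a i = 0 ∨ b i = 0 then (1 : ZMod 2) else 0) := by
      apply Finset.sum_congr rfl
      intro i hi
      have h2 := (hab i (Finset.mem_range.1 hi)).1
      by_cases ha : a i = 0
      · have hb : ¬ b i = 0 := fun hb => h2 (by rw [ha, hb])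
        rw [if_pos ha, if_neg hb, if_pos (Or.inl ha), add_zero]
      · by_cases hb : b i = 0
        · rw [if_neg ha, if_pos hb, if_pos (Or.inr hb), zero_add]
        · rw [if_neg ha, if_neg hb, if_neg (by tauto), add_zero]
    rw [h1, ← Finset.sum_filter, Finset.sum_const, nsmul_eq_mul, mul_one]
    exact (ZMod.natCast_eq_one_iff_odd).2 hodd
  have hsub : (Finset.univ : Finset (ZMod M)) ⊆
      (Finset.range k).image a ∪ (Finset.range k).image b := by
    intro x _
    by_contra hx
    simp only [Finset.mem_union, Finset.mem_image, Finset.mem_range, not_or, not_exists,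
      not_and] at hx
    have h5 : c x = 0 := by
      apply Finset.sum_eq_zero
      intro i hi
      rw [if_neg (hx.1 i (Finset.mem_range.1 hi)), if_neg (hx.2 i (Finset.mem_range.1 hi)),
        add_zero]
    rw [hconst x 0, hc0] at h5
    exact one_ne_zero h5
  have hcard := (Finset.card_le_card hsub).trans (Finset.card_union_le _ _)
  have h1 := Finset.card_image_le (s := Finset.range k) (f := a)
  have h2 := Finset.card_image_le (s := Finset.range k) (f := b)
  rw [Finset.card_univ, ZMod.card] at hcard
  rw [Finset.card_range] at h1 h2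
  omega

end Pool.Agent.Helper226_Obs
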