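import Pool.Agent.Helper226_Obs.FP.Lab

set_option autoImplicit false

namespace Pool.Agent.Helper226_Obs

open SimpleGraph

section MinCycle

variable {F : Type}

theorem mc_z2 (a : ZMod 2) (h : a ≠ 1) : a = 0 := by
  revert h; revert a; decide

theorem mc_sum_zero (a b c : ZMod 2) (h : a + (b + c) = 0) : b = a + c := by
  revert h; revert a b c; decide

/-- The adjacency graph. -/
def mcG (A : Matrix F F (ZMod 2)) (hsym : ∀ f f', A f f' = A f' f) (hdiag : ∀ f, A f f = 0) :
    SimpleGraph F where
  Adj f f' := A f f' = 1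
  symm := by
    refine ⟨?_⟩
    intro f f' h
    rw [hsym]; exact h
  loopless := by
    refine ⟨?_⟩
    intro f h
    rw [hdiag] at h
    exact absurd h (by decide)

/-- The sum of the labels on a walk. -/
def mcS (s : F → F → ZMod 2) {G : SimpleGraph F} {u v : F} (p : G.Walk u v) : ZMod 2 :=
  (p.darts.map fun d => s d.fst d.snd).sum

theorem mcS_append (s : F → F → ZMod 2) {G : SimpleGraph F} {u v w : F} (p : G.Walk u v)
    (q : G.Walk v w) : mcS s (p.append q) = mcS s p + mcS s q := by
  simp [mcS]

theorem mcS_reverse (s : F → F → ZMod 2) (hs : ∀ f f', s f f' = s f' f) {G : SimpleGraph F}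
    {u v : F} (p : G.Walk u v) : mcS s p.reverse = mcS s p := by
  unfold mcS
  rw [SimpleGraph.Walk.darts_reverse, List.map_reverse, List.sum_reverse, List.map_map]
  congr 1
  refine List.map_congr_left fun d _ => ?_
  exact hs _ _

theorem mcS_cons (s : F → F → ZMod 2) {G : SimpleGraph F} {u v w : F} (h : G.Adj u v)
    (p : G.Walk v w) : mcS s (SimpleGraph.Walk.cons h p) = s u v + mcS s p := by
  simp [mcS]

theorem mcS_getVert (s : F → F → ZMod 2) {G : SimpleGraph F} {u v : F} (p : G.Walk u v) :
    mcS s p = ∑ i ∈ Finset.range p.length, s (p.getVert i) (p.getVert (i + 1)) := by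
  induction p with
  | nil => simp [mcS]
  | cons h p ih =>
    rw [mcS_cons, ih, SimpleGraph.Walk.length_cons, Finset.sum_range_succ', add_comm]
    simp

/-- Step 1: an odd closed walk. -/
theorem mc_exists [Fintype F] [DecidableEq F]
    (A : Matrix F F (ZMod 2)) (hsym : ∀ f f', A f f' = A f' f) (hdiag : ∀ f, A f f = 0)
    (hrow : ∀ f, ∑ f', A f f' = 0) (s : F → F → ZMod 2) (hs : ∀ f f', s f f' = s f' f)
    (o : F → ℕ) (ho : Function.Injective o)
    (hT : ∑ f, ∑ f', (if o f < o f' then A f f' * s f f' else 0) = 1) :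
    ∃ (k : ℕ) (w : ℕ → F), w 0 = w k ∧ (∀ i < k, A (w i) (w (i + 1)) = 1) ∧
      ∑ i ∈ Finset.range k, s (w i) (w (i + 1)) = 1 := by
  by_contra hno
  set G := mcG A hsym hdiag with hG
  have hcl : ∀ (u : F) (p : G.Walk u u), mcS s p = 0 := by
    intro u p
    refine mc_z2 _ fun h => hno ⟨p.length, p.getVert, ?_, ?_, ?_⟩
    · simp
    · intro i hi
      exact p.adj_getVert_succ hi
    · rw [← mcS_getVert]; exact h
  have hrep : ∀ f : F, ∃ p : G.Walk (G.connectedComponentMk f).out f, True := by
    intro f
    have h : G.Reachable (G.connectedComponentMk f).out f :=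
      SimpleGraph.ConnectedComponent.exact (Quot.out_eq (G.connectedComponentMk f))
    obtain ⟨p⟩ := h
    exact ⟨p, trivial⟩
  choose P hP using hrep
  have hkey : ∀ (f f' r r' : F), r = r' → G.Adj f f' → ∀ (p : G.Walk r f) (q : G.Walk r' f'),
      s f f' = mcS s p + mcS s q := by
    intro f f' r r' hr hadj p q
    subst hr
    have h := hcl r (p.append (SimpleGraph.Walk.cons hadj q.reverse))
    rw [mcS_append, mcS_cons, mcS_reverse s hs] at h
    exact mc_sum_zero _ _ _ h
  have hz : ∀ f f', A f f' * s f f' = A f f' * mcS s (P f) + A f f' * mcS s (P f') := by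
    intro f f'
    by_cases h : A f f' = 1
    · have hadj : G.Adj f f' := h
      have hr : (G.connectedComponentMk f).out = (G.connectedComponentMk f').out := by
        rw [SimpleGraph.ConnectedComponent.sound hadj.reachable]
      rw [hkey f f' _ _ hr hadj (P f) (P f'), mul_add]
    · rw [mc_z2 _ h]; simp
  have hsum : ∑ f, ∑ f', (if o f < o f' then A f f' * s f f' else 0) = 0 := by
    have e1 : ∑ f, ∑ f', (if o f < o f' then A f f' * s f f' else 0)
        = ∑ f, ∑ f', (if o f < o f' then A f f' * mcS s (P f) else 0)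
          + ∑ f, ∑ f', (if o f < o f' then A f f' * mcS s (P f') else 0) := by
      rw [← Finset.sum_add_distrib]
      refine Finset.sum_congr rfl fun f _ => ?_
      rw [← Finset.sum_add_distrib]
      refine Finset.sum_congr rfl fun f' _ => ?_
      rw [hz]
      split_ifs <;> simp
    have e2 : ∑ f, ∑ f', (if o f < o f' then A f f' * mcS s (P f') else 0)
        = ∑ f, ∑ f', (if o f' < o f then A f f' * mcS s (P f) else 0) := by
      rw [Finset.sum_comm]
      refine Finset.sum_congr rfl fun f _ => ?_
      refine Finset.sum_congr rfl fun f' _ => ?_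
      rw [hsym]
    rw [e1, e2, ← Finset.sum_add_distrib]
    refine Finset.sum_eq_zero fun f _ => ?_
    rw [← Finset.sum_add_distrib]
    have e3 : ∀ f', (if o f < o f' then A f f' * mcS s (P f) else 0)
        + (if o f' < o f then A f f' * mcS s (P f) else 0) = A f f' * mcS s (P f) := by
      intro f'
      rcases lt_trichotomy (o f) (o f') with h | h | h
      · rw [if_pos h, if_neg (not_lt.2 h.le), add_zero]
      · have := ho h
        subst this
        simp [hdiag]
      · rw [if_neg (not_lt.2 h.le), if_pos h, zero_add]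
    rw [Finset.sum_congr rfl fun f' _ => e3 f', ← Finset.sum_mul, hrow, zero_mul]
  rw [hsum] at hT
  exact absurd hT (by decide)

/-- Step 2: a shortest odd closed walk. -/
theorem mc_shortest (A : Matrix F F (ZMod 2)) (hsym : ∀ f f', A f f' = A f' f)
    (hdiag : ∀ f, A f f = 0) (s : F → F → ZMod 2) (hs : ∀ f f', s f f' = s f' f)
    (k : ℕ) (hk : 4 ≤ k) (w : ℕ → F) (h0 : w 0 = w k) (hw : ∀ i < k, A (w i) (w (i + 1)) = 1)
    (hodd : ∑ i ∈ Finset.range k, s (w i) (w (i + 1)) = 1)
    (hmin : ∀ (l : ℕ) (v : ℕ → F), l < k → v 0 = v l → (∀ i < l, A (v i) (v (i + 1)) = 1) →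
      ∑ i ∈ Finset.range l, s (v i) (v (i + 1)) = 0) :
    ∃ c : ZMod k → F, Function.Injective c ∧
      (∀ i j, A (c i) (c j) = 1 ↔ (j = i + 1 ∨ i = j + 1)) ∧
      ∑ i ∈ Finset.range k, s (c (i : ZMod k)) (c ((i : ZMod k) + 1)) = 1 := by
  have : NeZero k := ⟨by omega⟩
  have hkpos : 0 < k := by omega
  set W : ℕ → F := fun i => w (i % k) with hW
  have hWlt : ∀ i < k, W i = w i := by
    intro i hi
    simp only [hW, Nat.mod_eq_of_lt hi]
  have hWk : ∀ i ≤ k, W i = w i := by
    intro i hi
    rcases Nat.lt_or_ge i k with h | h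
    · exact hWlt i h
    · have : i = k := le_antisymm hi h
      subst this
      simp only [hW, Nat.mod_self]
      exact h0
  have hper : ∀ i, W (i + k) = W i := by
    intro i
    simp only [hW, Nat.add_mod_right]
  have hmod : ∀ i, W (i % k) = W i := by
    intro i
    simp only [hW, Nat.mod_mod]
  have hsucc : ∀ i, W (i + 1) = w (i % k + 1) := by
    intro i
    rw [← hWk (i % k + 1) (Nat.mod_lt i hkpos)]
    simp only [hW, Nat.mod_add_mod]
  have hadj : ∀ i, A (W i) (W (i + 1)) = 1 := by
    intro i
    rw [hsucc]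
    exact hw _ (Nat.mod_lt i hkpos)
  set T : ℕ → ℕ → ZMod 2 := fun a l => ∑ i ∈ Finset.range l, s (W (a + i)) (W (a + i + 1)) with hTdef
  have hTadd : ∀ a l m, T a (l + m) = T a l + T (a + l) m := by
    intro a l m
    simp only [hTdef]
    rw [Finset.sum_range_add]
    simp only [add_assoc]
  have hT0 : T 0 k = 1 := by
    rw [← hodd]
    simp only [hTdef]
    refine Finset.sum_congr rfl fun i hi => ?_
    have hi' := Finset.mem_range.1 hi
    rw [zero_add, hWlt i hi', hWk (i + 1) hi']
  have hTk : ∀ a, T a k = 1 := by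
    intro a
    induction a with
    | zero => exact hT0
    | succ a ih =>
      have e1 := hTadd a 1 k
      have e2 := hTadd a k 1
      have e3 : T a 1 = T (a + k) 1 := by
        simp only [hTdef, Finset.sum_range_one, add_zero]
        have : a + k + 1 = (a + 1) + k := by omega
        rw [this, hper, hper]
      rw [add_comm 1 k, e2, ← e3, ih, add_comm] at e1
      exact (add_left_cancel e1).symm
  have hsplit : ∀ a l, l ≤ k → T a l + T (a + l) (k - l) = 1 := by
    intro a l hl
    rw [← hTadd, Nat.add_sub_cancel' hl]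
    exact hTk a
  have hne : ∀ a l, 1 ≤ l → l < k → W a ≠ W (a + l) := by
    intro a l h1 h2 he
    have e1 : T a l = 0 := by
      have := hmin l (fun i => W (a + i)) h2 (by simpa using he) (fun i _ => hadj (a + i))
      exact this
    have e2 : T (a + l) (k - l) = 0 := by
      have := hmin (k - l) (fun i => W (a + l + i)) (by omega)
        (by
          have h3 : a + l + (k - l) = a + k := by omega
          simp only [h3, hper, add_zero]
          exact he.symm)
        (fun i _ => hadj (a + l + i))
      exact this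
    have e3 := hsplit a l h2.le
    rw [e1, e2] at e3
    exact absurd e3 (by decide)
  have hclose : ∀ (m : ℕ) (v : ℕ → F), m + 1 < k → (∀ i < m, A (v i) (v (i + 1)) = 1) →
      A (v m) (v 0) = 1 → ∑ i ∈ Finset.range m, s (v i) (v (i + 1)) + s (v m) (v 0) = 0 := by
    intro m v hm hv hv'
    have := hmin (m + 1) (fun i => if i ≤ m then v i else v 0) hm (by simp)
      (by
        intro i hi
        have h1 : i ≤ m := by omega
        rcases Nat.lt_or_ge i m with h | h
        · have h2 : i + 1 ≤ m := h
          simp only [h1, h2, if_true]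
          exact hv i h
        · have h2 : i = m := le_antisymm h1 h
          subst h2
          have h3 : ¬ (i + 1 ≤ i) := by omega
          simp only [h1, h3, if_true, if_false]
          exact hv')
    rw [Finset.sum_range_succ] at this
    have h3 : ¬ (m + 1 ≤ m) := by omega
    simp only [le_refl, h3, if_true, if_false] at this
    rw [← this]
    congr 1
    refine Finset.sum_congr rfl fun i hi => ?_
    have hi' := Finset.mem_range.1 hi
    have h1 : i ≤ m := hi'.le
    have h2 : i + 1 ≤ m := hi'
    simp only [h1, h2, if_true]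
  have hnadj : ∀ a l, 2 ≤ l → l + 2 ≤ k → A (W a) (W (a + l)) ≠ 1 := by
    intro a l h1 h2 hA
    have e1 := hclose l (fun i => W (a + i)) (by omega) (fun i _ => hadj (a + i))
      (by simp only [add_zero]; rw [hsym]; exact hA)
    have h3 : a + l + (k - l) = a + k := by omega
    have e2 := hclose (k - l) (fun i => W (a + l + i)) (by omega) (fun i _ => hadj (a + l + i))
      (by simp only [add_zero, h3, hper]; exact hA)
    simp only [add_zero, h3, hper] at e1 e2
    have e3 := hsplit a l (by omega)
    have e4 : T a l + s (W (a + l)) (W a) = 0 := e1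
    have e5 : T (a + l) (k - l) + s (W a) (W (a + l)) = 0 := e2
    rw [hs (W a) (W (a + l))] at e5
    have e6 : ∀ x y z : ZMod 2, x + y = 1 → x + z = 0 → y + z = 0 → False := by decide
    exact e6 _ _ _ e3 e4 e5
  refine ⟨fun x => W x.val, ?_, ?_, ?_⟩
  · intro x y hxy
    have hx := x.val_lt
    have hy := y.val_lt
    simp only at hxy
    rcases lt_trichotomy x.val y.val with h | h | h
    · exfalso
      refine hne x.val (y.val - x.val) (by omega) (by omega) ?_
      rw [hxy]
      congr 1
      omega
    · exact ZMod.val_injective k h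
    · exfalso
      refine hne y.val (x.val - y.val) (by omega) (by omega) ?_
      rw [← hxy]
      congr 1
      omega
  · have hcs : ∀ x : ZMod k, W (x + 1).val = W (x.val + 1) := by
      intro x
      have : (x + 1).val = (x.val + 1) % k := by
        rw [ZMod.val_add, ZMod.val_one'' (by omega)]
      rw [this, hmod]
    have hdir : ∀ x y : ZMod k, x.val < y.val → A (W x.val) (W y.val) = 1 →
        (y = x + 1 ∨ x = y + 1) := by
      intro x y hxy hA
      have hx := x.val_lt
      have hy := y.val_lt
      by_cases h1 : y.val = x.val + 1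
      · left
        rw [← ZMod.natCast_zmod_val y, h1]
        push_cast
        rw [ZMod.natCast_zmod_val]
      · by_cases h2 : y.val - x.val + 2 ≤ k
        · exfalso
          refine hnadj x.val (y.val - x.val) (by omega) h2 ?_
          have : x.val + (y.val - x.val) = y.val := by omega
          rw [this]; exact hA
        · right
          have h3 : x.val = 0 := by omega
          have h4 : y.val + 1 = k := by omega
          have h5 : x = 0 := (ZMod.val_eq_zero x).1 h3
          rw [h5, ← ZMod.natCast_zmod_val y]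
          have h6 : ((y.val + 1 : ℕ) : ZMod k) = 0 := by rw [h4]; exact ZMod.natCast_self k
          push_cast at h6
          rw [h6]
    intro x y
    simp only
    constructor
    · intro hA
      rcases lt_trichotomy x.val y.val with h | h | h
      · exact hdir x y h hA
      · rw [h, hdiag] at hA
        exact absurd hA (by decide)
      · rw [hsym] at hA
        exact (hdir y x h hA).symm
    · rintro (h | h)
      · rw [h, hcs]; exact hadj _
      · rw [h, hcs, hsym]; exact hadj _
  · simp only
    rw [← hT0]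
    simp only [hTdef, zero_add]
    refine Finset.sum_congr rfl fun i hi => ?_
    have hi' := Finset.mem_range.1 hi
    have e1 : ((i : ℕ) : ZMod k).val = i := ZMod.val_cast_of_lt hi'
    have e2 : W (((i : ℕ) : ZMod k) + 1).val = W (i + 1) := by
      have : ((i : ℕ) : ZMod k) + 1 = ((i + 1 : ℕ) : ZMod k) := by push_cast; rfl
      rw [this, ZMod.val_natCast, hmod]
    rw [e1, e2]

end MinCycle

/-- A shortest odd closed walk is an induced cycle. -/
theorem min_cycle {F : Type} [Fintype F] [DecidableEq F] (n : ℕ) (hn : 4 ≤ n)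
    (A : Matrix F F (ZMod 2)) (hsym : ∀ f f', A f f' = A f' f) (hdiag : ∀ f, A f f = 0)
    (hrow : ∀ f, ∑ f', A f f' = 0) (s : F → F → ZMod 2) (hs : ∀ f f', s f f' = s f' f)
    (o : F → ℕ) (ho : Function.Injective o)
    (hT : ∑ f, ∑ f', (if o f < o f' then A f f' * s f f' else 0) = 1)
    (hlen : ∀ (k : ℕ) (w : ℕ → F), w 0 = w k → (∀ i < k, A (w i) (w (i + 1)) = 1) →
      ∑ i ∈ Finset.range k, s (w i) (w (i + 1)) = 1 → n ≤ k) :
    ∃ k : ℕ, n ≤ k ∧ ∃ c : ZMod k → F, Function.Injective c ∧
      (∀ i j, A (c i) (c j) = 1 ↔ (j = i + 1 ∨ i = j + 1)) ∧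
      ∑ i ∈ Finset.range k, s (c (i : ZMod k)) (c ((i : ZMod k) + 1)) = 1 := by
  obtain ⟨k₀, w₀, hw₀⟩ := mc_exists A hsym hdiag hrow s hs o ho hT
  have hex : ∃ k : ℕ, ∃ w : ℕ → F, w 0 = w k ∧ (∀ i < k, A (w i) (w (i + 1)) = 1) ∧
      ∑ i ∈ Finset.range k, s (w i) (w (i + 1)) = 1 := ⟨k₀, w₀, hw₀⟩
  classical
  obtain ⟨w, h0, hw, hodd⟩ := Nat.find_spec hex
  have hn' : n ≤ Nat.find hex := hlen _ w h0 hw hodd
  refine ⟨Nat.find hex, hn', ?_⟩
  refine mc_shortest A hsym hdiag s hs (Nat.find hex) (hn.trans hn') w h0 hw hodd ?_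
  intro l v hl h1 h2
  refine mc_z2 _ fun h3 => ?_
  exact Nat.find_min hex hl ⟨v, h1, h2, h3⟩

end Pool.Agent.Helper226_Obs
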