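import Pool.Agent.Helper226_Obs.FP.Lab

set_option autoImplicit false

namespace Pool.Agent.Helper226_Obs

open SimpleGraph

theorem tri_rank {I J : Type} [Fintype I] [Fintype J] [DecidableEq J]
    (M : Matrix I J (ZMod 2)) (m : ℕ) (ri : Fin m → I) (cj : Fin m → J)
    (hd : ∀ i, M (ri i) (cj i) = 1) (hz : ∀ i j, i < j → M (ri i) (cj j) = 0) :
    m ≤ M.rank ∧ (M.rank ≤ m →
      ∀ x ∈ Submodule.span (ZMod 2) (Set.range fun i : I => (M i : J → ZMod 2)),
        (∀ j, x (cj j) = 0) → x = 0) := by
  classical
  -- the square submatrix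
  have hdet : (M.submatrix ri cj).det = 1 := by
    rw [Matrix.det_of_isLowerTriangular]
    · exact Finset.prod_eq_one (fun i _ => hd i)
    · intro i j hij
      exact hz i j hij
  -- coefficients are determined by the chosen columns
  have hker : ∀ a : Fin m → ZMod 2, (∀ j, ∑ i, a i * M (ri i) (cj j) = 0) → a = 0 := by
    intro a ha
    apply Matrix.eq_zero_of_vecMul_eq_zero (M := M.submatrix ri cj)
    · rw [hdet]
      exact one_ne_zero
    · funext j
      have := ha j
      simp only [Matrix.vecMul, dotProduct, Matrix.submatrix_apply, Pi.zero_apply]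
      exact this
  have hli : LinearIndependent (ZMod 2) (fun i : Fin m => (M (ri i) : J → ZMod 2)) := by
    rw [Fintype.linearIndependent_iff]
    intro a ha i
    have h0 : a = 0 := by
      apply hker
      intro j
      have := congrFun ha (cj j)
      simpa [Finset.sum_apply] using this
    rw [h0]
    rfl
  have hsub : Submodule.span (ZMod 2) (Set.range fun i : Fin m => (M (ri i) : J → ZMod 2)) ≤
      Submodule.span (ZMod 2) (Set.range fun i : I => (M i : J → ZMod 2)) := by
    apply Submodule.span_mono
    rintro _ ⟨i, rfl⟩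
    exact ⟨ri i, rfl⟩
  have hfr : Module.finrank (ZMod 2)
      (Submodule.span (ZMod 2) (Set.range fun i : Fin m => (M (ri i) : J → ZMod 2))) = m := by
    rw [finrank_span_eq_card hli, Fintype.card_fin]
  have hrk : M.rank = Module.finrank (ZMod 2)
      (Submodule.span (ZMod 2) (Set.range fun i : I => (M i : J → ZMod 2))) :=
    Matrix.rank_eq_finrank_span_row M
  refine ⟨?_, ?_⟩
  · rw [hrk, ← hfr]
    exact Submodule.finrank_mono hsub
  · intro hle x hx hxj
    have heq : Submodule.span (ZMod 2) (Set.range fun i : Fin m => (M (ri i) : J → ZMod 2)) =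
        Submodule.span (ZMod 2) (Set.range fun i : I => (M i : J → ZMod 2)) := by
      apply Submodule.eq_of_le_of_finrank_le hsub
      rw [hfr, ← hrk]
      exact hle
    rw [← heq, Submodule.mem_span_range_iff_exists_fun] at hx
    obtain ⟨a, ha⟩ := hx
    have h0 : a = 0 := by
      apply hker
      intro j
      have h1 := hxj j
      rw [← ha] at h1
      simpa [Finset.sum_apply] using h1
    rw [← ha, h0]
    simp

end Pool.Agent.Helper226_Obs

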