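import Pool.Agent.Helper226_Obs.FP.C04
import Pool.Agent.Helper226_Obs.FP.C05

set_option autoImplicit false

namespace Pool.Agent.Helper226_Obs

open SimpleGraph

theorem rb_z2 (x : ZMod 2) : x = 0 ∨ x = 1 := by
  revert x; decide

theorem rb_ne1 {x : ZMod 2} (h : x ≠ 1) : x = 0 := by
  rcases rb_z2 x with h' | h'
  · exact h'
  · exact absurd h' h

theorem rb_add_self (x : ZMod 2) : x + x = 0 := by
  revert x; decide

theorem rb_ne (n : ℕ) (k : ℕ) (hk : 0 < k) (hkn : k < n) : (k : ZMod n) ≠ 0 := by
  intro h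
  rw [ZMod.natCast_eq_zero_iff] at h
  exact absurd (Nat.le_of_dvd hk h) (by omega)

theorem rb_shift {n : ℕ} [NeZero n] (g : ZMod n → ZMod 2) (i : ZMod n) :
    ∑ t ∈ Finset.range n, g (i + t) = ∑ x, g x := by
  rw [← Equiv.sum_comp (Equiv.addLeft i) g]
  refine Finset.sum_nbij' (fun t => (t : ZMod n)) (fun x => x.val) ?_ ?_ ?_ ?_ ?_
  · intro a _; exact Finset.mem_univ _
  · intro a _; exact Finset.mem_range.2 (ZMod.val_lt a)
  · intro a ha; exact ZMod.val_cast_of_lt (Finset.mem_range.1 ha)
  · intro a _; exact ZMod.natCast_zmod_val a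
  · intro a _; rfl

/-- The walk `f, c i, c (i + 1), ..., c (i + l), f`. -/
def rbW {F : Type} {n : ℕ} (c : ZMod n → F) (f : F) (i : ZMod n) (l : ℕ) : ℕ → F
  | 0 => f
  | (t + 1) => if t ≤ l then c (i + t) else f

theorem rb_walk {F : Type} {n : ℕ} (A s : F → F → ZMod 2) (hsym : ∀ f f', A f f' = A f' f)
    (hlen : ∀ (k : ℕ) (w : ℕ → F), w 0 = w k → (∀ i < k, A (w i) (w (i + 1)) = 1) →
      ∑ i ∈ Finset.range k, s (w i) (w (i + 1)) = 1 → n ≤ k)
    (c : ZMod n → F) (hadj : ∀ i, A (c i) (c (i + 1)) = 1) (f : F) (i : ZMod n) (l : ℕ)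
    (h1 : A f (c i) = 1) (h2 : A f (c (i + l)) = 1)
    (h : s f (c i) + ∑ t ∈ Finset.range l, s (c (i + t)) (c (i + t + 1)) + s (c (i + l)) f = 1) :
    n ≤ l + 2 := by
  refine hlen (l + 2) (rbW c f i l) ?_ ?_ ?_
  · simp [rbW]
  · intro t ht
    rcases t with _ | t
    · simpa [rbW] using h1
    · by_cases htl : t = l
      · subst htl
        simp only [rbW, le_refl, if_true]
        rw [if_neg (by omega), hsym]; exact h2
      · simp only [rbW]
        rw [if_pos (by omega), if_pos (by omega)]
        have := hadj (i + t)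
        push_cast
        rw [← add_assoc]; exact this
  · rw [Finset.sum_range_succ', Finset.sum_range_succ]
    have e1 : ∑ x ∈ Finset.range l, s (rbW c f i l (x + 1)) (rbW c f i l (x + 1 + 1)) =
        ∑ t ∈ Finset.range l, s (c (i + t)) (c (i + t + 1)) := by
      refine Finset.sum_congr rfl fun t ht => ?_
      have := Finset.mem_range.1 ht
      simp only [rbW]
      rw [if_pos (by omega), if_pos (by omega)]
      push_cast
      rw [← add_assoc]
    rw [e1]
    have e2 : rbW c f i l (l + 1) = c (i + l) := by simp [rbW]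
    have e3 : rbW c f i l (l + 1 + 1) = f := by simp [rbW]
    have e4 : rbW c f i l 0 = f := rfl
    have e5 : rbW c f i l (0 + 1) = c i := by simp [rbW]
    rw [e2, e3, e4, e5, ← h]
    ring

theorem rb_window {F : Type} {n : ℕ} (hn : 8 ≤ n) (A s : F → F → ZMod 2)
    (hsym : ∀ f f', A f f' = A f' f) (hs : ∀ f f', s f f' = s f' f)
    (hlen : ∀ (k : ℕ) (w : ℕ → F), w 0 = w k → (∀ i < k, A (w i) (w (i + 1)) = 1) →
      ∑ i ∈ Finset.range k, s (w i) (w (i + 1)) = 1 → n ≤ k)
    (c : ZMod n → F) (hadj : ∀ i, A (c i) (c (i + 1)) = 1)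
    (hodd : ∑ i ∈ Finset.range n, s (c (i : ZMod n)) (c ((i : ZMod n) + 1)) = 1)
    (f : F) (i j : ZMod n) (hij : i ≠ j) (hi : A f (c i) = 1) (hj : A f (c j) = 1) :
    j - i = 1 ∨ j - i = 2 ∨ j - i = -1 ∨ j - i = -2 := by
  have : NeZero n := ⟨by omega⟩
  set l := (j - i).val with hl
  have hcast : ((l : ℕ) : ZMod n) = j - i := ZMod.natCast_zmod_val _
  have hjl : j = i + (l : ZMod n) := by rw [hcast]; ring
  have hln : l < n := ZMod.val_lt _
  have hl0 : 0 < l := by
    rcases Nat.eq_zero_or_pos l with h | h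
    · rw [h] at hcast
      exact absurd (sub_eq_zero.1 (by simpa using hcast.symm)).symm hij
    · exact h
  have hil : i = j + ((n - l : ℕ) : ZMod n) := by
    rw [Nat.cast_sub hln.le, hcast, ZMod.natCast_self]; ring
  have htot : ∑ t ∈ Finset.range l, s (c (i + t)) (c (i + t + 1)) +
      ∑ t ∈ Finset.range (n - l), s (c (j + t)) (c (j + t + 1)) = 1 := by
    have h1 : ∑ t ∈ Finset.range n, s (c (i + t)) (c (i + t + 1)) = 1 := by
      rw [rb_shift (fun x => s (c x) (c (x + 1))) i, ← rb_shift (fun x => s (c x) (c (x + 1))) 0]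
      rw [← hodd]
      refine Finset.sum_congr rfl fun t _ => ?_
      simp only [zero_add]
    rw [← h1]
    have h2 : Finset.range n = Finset.range (l + (n - l)) :=
      congrArg Finset.range (by omega)
    rw [h2, Finset.sum_range_add]
    congr 1
    refine Finset.sum_congr rfl fun t _ => ?_
    rw [hjl]; push_cast
    rw [← add_assoc]
  have key : (s f (c i) + ∑ t ∈ Finset.range l, s (c (i + t)) (c (i + t + 1)) +
        s (c (i + l)) f) + (s f (c j) + ∑ t ∈ Finset.range (n - l), s (c (j + t)) (c (j + t + 1)) +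
        s (c (j + (n - l : ℕ))) f) = 1 := by
    rw [← hjl, ← hil, hs (c j) f, hs (c i) f]
    have e1 := rb_add_self (s f (c i))
    have e2 := rb_add_self (s f (c j))
    linear_combination htot + e1 + e2
  rcases rb_z2 (s f (c i) + ∑ t ∈ Finset.range l, s (c (i + t)) (c (i + t + 1)) +
        s (c (i + l)) f) with h0 | h0
  · rw [h0, zero_add] at key
    have := rb_walk A s hsym hlen c hadj f j (n - l) hj (by rw [← hil]; exact hi) key
    have h2 : l = 1 ∨ l = 2 := by omega
    rcases h2 with h2 | h2
    · left; rw [← hcast, h2]; simp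
    · right; left; rw [← hcast, h2]; norm_num
  · have := rb_walk A s hsym hlen c hadj f i l hi (by rw [← hjl]; exact hj) h0
    have h2 : l = n - 1 ∨ l = n - 2 := by omega
    rcases h2 with h2 | h2
    · right; right; left
      rw [← hcast, h2, Nat.cast_sub (by omega), ZMod.natCast_self]; simp
    · right; right; right
      rw [← hcast, h2, Nat.cast_sub (by omega), ZMod.natCast_self]; simp

theorem rb_mate {n : ℕ} [NeZero n] (S : ZMod n → ZMod 2) (par : ZMod n →+* ZMod 2)
    (he : ∑ i, (1 + par i) * S i = 0) (ho : ∑ i, par i * S i = 0) (x : ZMod n)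
    (hx : S x = 1) : ∃ y, y ≠ x ∧ S y = 1 ∧ par y = par x := by
  by_contra! hcon
  have h1 : ∑ i, (1 + par i + par x) * S i = 1 := by
    rw [Finset.sum_eq_single x]
    · rw [hx, mul_one, add_assoc, rb_add_self, add_zero]
    · intro y _ hy
      rcases rb_z2 (S y) with h | h
      · rw [h, mul_zero]
      · have h2 := hcon y hy h
        rcases rb_z2 (par y) with h3 | h3 <;> rcases rb_z2 (par x) with h4 | h4
        · exact absurd (h3.trans h4.symm) h2
        · rw [h3, h4, add_zero, rb_add_self, zero_mul]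
        · rw [h3, h4, add_zero, rb_add_self, zero_mul]
        · exact absurd (h3.trans h4.symm) h2
    · intro h; exact absurd (Finset.mem_univ _) h
  rcases rb_z2 (par x) with h4 | h4
  · rw [h4] at h1
    simp only [add_zero] at h1
    rw [he] at h1; exact absurd h1 (by decide)
  · rw [h4] at h1
    have : ∀ i, (1 + par i + 1) * S i = par i * S i := by
      intro i
      have := rb_add_self (1 : ZMod 2)
      linear_combination S i * this
    simp only [this] at h1
    rw [ho] at h1; exact absurd h1 (by decide)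

theorem rb_struct {n : ℕ} (hn : 8 ≤ n) [NeZero n] (S : ZMod n → ZMod 2)
    (par : ZMod n →+* ZMod 2)
    (hwin : ∀ i j, i ≠ j → S i = 1 → S j = 1 →
      j - i = 1 ∨ j - i = 2 ∨ j - i = -1 ∨ j - i = -2)
    (he : ∑ i, (1 + par i) * S i = 0) (ho : ∑ i, par i * S i = 0) :
    (∀ i, S i = 0) ∨ ∃ i, ∀ j, S j = 1 ↔ (j = i - 1 ∨ j = i + 1) := by
  by_cases hall : ∀ i, S i = 0
  · exact Or.inl hall
  right
  push Not at hall
  obtain ⟨x, hx⟩ := hall
  have hx1 : S x = 1 := (rb_z2 _).resolve_left hx
  obtain ⟨y, hyx, hy, hpar⟩ := rb_mate S par he ho x hx1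
  have hp1 : par 1 = 1 := map_one par
  have h2 : ∃ i, S (i - 1) = 1 ∧ S (i + 1) = 1 := by
    rcases hwin x y hyx.symm hx1 hy with h | h | h | h
    · exfalso
      have := congrArg par h
      rw [map_sub, hpar, sub_self, hp1] at this
      exact absurd this (by decide)
    · refine ⟨x + 1, by simpa using hx1, ?_⟩
      have : y = x + 1 + 1 := by linear_combination h
      rw [← this]; exact hy
    · exfalso
      have := congrArg par h
      rw [map_sub, hpar, sub_self, map_neg, hp1] at this
      exact absurd this (by decide)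
    · refine ⟨x - 1, ?_, by simpa using hx1⟩
      have : y = x - 1 - 1 := by linear_combination h
      rw [← this]; exact hy
  obtain ⟨i, hi1, hi2⟩ := h2
  have n1 := rb_ne n 1 (by omega) (by omega)
  have n2 := rb_ne n 2 (by omega) (by omega)
  have n3 := rb_ne n 3 (by omega) (by omega)
  have n4 := rb_ne n 4 (by omega) (by omega)
  have n5 := rb_ne n 5 (by omega) (by omega)
  have n6 := rb_ne n 6 (by omega) (by omega)
  push_cast at n1 n2 n3 n4 n5 n6
  have hsub : ∀ z, S z = 1 → z = i ∨ z = i - 1 ∨ z = i + 1 := by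
    intro z hz
    by_cases e1 : z = i - 1
    · exact Or.inr (Or.inl e1)
    by_cases e2 : z = i + 1
    · exact Or.inr (Or.inr e2)
    left
    rcases hwin (i - 1) z (Ne.symm e1) hi1 hz with h | h | h | h
    · linear_combination h
    · exact absurd (show z = i + 1 by linear_combination h) e2
    · -- z = i - 2
      exfalso
      rcases hwin (i + 1) z (Ne.symm e2) hi2 hz with h' | h' | h' | h'
      · exact n4 (by linear_combination h - h')
      · exact n5 (by linear_combination h - h')
      · exact n2 (by linear_combination h - h')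
      · exact n1 (by linear_combination h - h')
    · -- z = i - 3
      exfalso
      rcases hwin (i + 1) z (Ne.symm e2) hi2 hz with h' | h' | h' | h'
      · exact n5 (by linear_combination h - h')
      · exact n6 (by linear_combination h - h')
      · exact n3 (by linear_combination h - h')
      · exact n2 (by linear_combination h - h')
  have hi0 : S i ≠ 1 := by
    intro hi
    obtain ⟨z, hz, hz1, hz2⟩ := rb_mate S par he ho i hi
    rcases hsub z hz1 with h | h | h
    · exact hz h
    · rw [h, map_sub, hp1] at hz2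
      rcases rb_z2 (par i) with h5 | h5 <;> rw [h5] at hz2 <;> exact absurd hz2 (by decide)
    · rw [h, map_add, hp1] at hz2
      rcases rb_z2 (par i) with h5 | h5 <;> rw [h5] at hz2 <;> exact absurd hz2 (by decide)
  refine ⟨i, fun j => ⟨fun h => ?_, ?_⟩⟩
  · rcases hsub j h with h' | h' | h'
    · exact absurd h (h' ▸ hi0)
    · exact Or.inl h'
    · exact Or.inr h'
  · rintro (rfl | rfl)
    · exact hi1
    · exact hi2

theorem rb_tri {F : Type} {k : ℕ} (hk : 8 ≤ k) (A : F → F → ZMod 2) (c : ZMod k → F)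
    (hadj : ∀ i j, A (c i) (c j) = 1 ↔ (j = i + 1 ∨ i = j + 1)) (i j : Fin (k - 2)) :
    (i = j → A (c ((i : ℕ) : ZMod k)) (c (((j : ℕ) : ZMod k) + 1)) = 1) ∧
      (i < j → A (c ((i : ℕ) : ZMod k)) (c (((j : ℕ) : ZMod k) + 1)) = 0) := by
  have hi := i.2
  have hj := j.2
  constructor
  · rintro rfl
    exact (hadj _ _).2 (Or.inl rfl)
  · intro hij
    have hij' : (i : ℕ) < j := hij
    refine rb_ne1 fun h => ?_
    rcases (hadj _ _).1 h with h | h
    · have h2 : ((j : ℕ) : ZMod k) = ((i : ℕ) : ZMod k) := by linear_combination h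
      rw [ZMod.natCast_eq_natCast_iff', Nat.mod_eq_of_lt (by omega),
        Nat.mod_eq_of_lt (by omega)] at h2
      omega
    · have h2 : ((i : ℕ) : ZMod k) = (((j : ℕ) + 2 : ℕ) : ZMod k) := by
        push_cast; linear_combination h
      rw [ZMod.natCast_eq_natCast_iff', Nat.mod_eq_of_lt (by omega),
        Nat.mod_eq_of_lt (by omega)] at h2
      omega

theorem rb_half {F : Type} [Fintype F] (o : F → ℕ) (ho : Function.Injective o)
    (u : F → F → ZMod 2) (hu : ∀ f, u f f = 0) :
    ∑ f, ∑ f', u f f' = ∑ f, ∑ f', (if o f < o f' then u f f' + u f' f else 0) := by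
  have h1 : ∀ f f', u f f' = (if o f < o f' then u f f' else 0) +
      (if o f' < o f then u f f' else 0) := by
    intro f f'
    rcases lt_trichotomy (o f) (o f') with h | h | h
    · rw [if_pos h, if_neg (by omega), add_zero]
    · rw [ho h, hu]; simp
    · rw [if_neg (by omega), if_pos h, zero_add]
  have h2 : ∑ f, ∑ f', u f f' = ∑ f, ∑ f', (if o f < o f' then u f f' else 0) +
      ∑ f, ∑ f', (if o f' < o f then u f f' else 0) := by
    rw [← Finset.sum_add_distrib]
    refine Finset.sum_congr rfl fun f _ => ?_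
    rw [← Finset.sum_add_distrib]
    exact Finset.sum_congr rfl fun f' _ => h1 f f'
  rw [h2, Finset.sum_comm (f := fun f f' => if o f' < o f then u f f' else 0),
    ← Finset.sum_add_distrib]
  refine Finset.sum_congr rfl fun f _ => ?_
  rw [← Finset.sum_add_distrib]
  refine Finset.sum_congr rfl fun f' _ => ?_
  by_cases h : o f < o f'
  · simp [h]
  · simp [h]

theorem rank_bordered {F : Type} [Fintype F] [DecidableEq F] (n : ℕ) (hn : 8 ≤ n)
    (hne : Even n)
    (A : Matrix F F (ZMod 2)) (hsym : ∀ f f', A f f' = A f' f) (hdiag : ∀ f, A f f = 0)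
    (hrow : ∀ f, ∑ f', A f f' = 0) (s : F → F → ZMod 2) (hs : ∀ f f', s f f' = s f' f)
    (o : F → ℕ) (ho : Function.Injective o)
    (hT : ∑ f, ∑ f', (if o f < o f' then A f f' * s f f' else 0) = 1)
    (hlen : ∀ (k : ℕ) (w : ℕ → F), w 0 = w k → (∀ i < k, A (w i) (w (i + 1)) = 1) →
      ∑ i ∈ Finset.range k, s (w i) (w (i + 1)) = 1 → n ≤ k) :
    n - 1 ≤ (bord A fun f => ∑ f', A f f' * s f f').rank := by
  classical
  obtain ⟨k, hk, c, hc, hadj, hodd⟩ :=
    min_cycle n (by omega) A hsym hdiag hrow s hs o ho hT hlen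
  set ρ : F → ZMod 2 := fun f => ∑ f', A f f' * s f f' with hρ
  set B := bord A ρ with hB
  have hBA : ∀ f g, B (some f) (some g) = A f g := fun f g => rfl
  have r1 := tri_rank B (k - 2) (fun i => some (c ((i : ℕ) : ZMod k)))
    (fun j => some (c (((j : ℕ) : ZMod k) + 1)))
    (fun i => by rw [hBA]; exact (rb_tri (by omega) A c hadj i i).1 rfl)
    (fun i j hij => by rw [hBA]; exact (rb_tri (by omega) A c hadj i j).2 hij)
  rcases Nat.lt_or_ge n k with hnk | hnk
  · have := r1.1
    omega
  obtain rfl : k = n := by omega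
  by_contra hlt
  have hstar := r1.2 (by omega)
  have hst : ∀ x ∈ Submodule.span (ZMod 2) (Set.range fun i : Option F =>
      (B i : Option F → ZMod 2)), (∀ j, x (some (c j)) = 0) → x = 0 :=
    fun x hx h => hstar x hx fun j => h _
  have hBs : ∀ f, B f ∈ Submodule.span (ZMod 2) (Set.range fun i : Option F =>
      (B i : Option F → ZMod 2)) := fun f => Submodule.subset_span ⟨f, rfl⟩
  have : NeZero k := ⟨by omega⟩
  obtain ⟨par, hp1⟩ : ∃ par : ZMod k →+* ZMod 2, par 1 = 1 :=
    ⟨ZMod.castHom hne.two_dvd (ZMod 2), map_one _⟩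
  have n2 := rb_ne k 2 (by omega) (by omega)
  push_cast at n2
  -- the sums over the cycle
  have hAc : ∀ i j, A (c i) (c j) = (if i = j - 1 then 1 else 0) +
      (if i = j + 1 then 1 else 0) := by
    intro i j
    by_cases h1 : i = j - 1
    · have h2 : i ≠ j + 1 := by
        intro h2
        exact n2 (by linear_combination h1 - h2)
      rw [if_pos h1, if_neg h2, add_zero]
      exact (hadj i j).2 (Or.inl (by rw [h1]; ring))
    · by_cases h2 : i = j + 1
      · rw [if_neg h1, if_pos h2, zero_add]
        exact (hadj i j).2 (Or.inr h2)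
      · rw [if_neg h1, if_neg h2, add_zero]
        refine rb_ne1 fun h => ?_
        rcases (hadj i j).1 h with h3 | h3
        · exact h1 (by rw [h3]; ring)
        · exact h2 h3
  have hker : ∀ w : ZMod k → ZMod 2, (∀ j, w (j - 1) + w (j + 1) = 0) → ∀ f,
      ∑ i, w i * A f (c i) = 0 := by
    intro w hw f
    have hx := hst (∑ i, w i • B (some (c i)))
      (Submodule.sum_mem _ fun i _ => Submodule.smul_mem _ _ (hBs _)) (by
        intro j
        rw [Finset.sum_apply]
        simp only [Pi.smul_apply, smul_eq_mul, hBA, hAc, mul_add, mul_ite, mul_one, mul_zero,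
          Finset.sum_add_distrib, Finset.sum_ite_eq', Finset.mem_univ, if_true]
        exact hw j)
    have hy := congrFun hx (some f)
    rw [Finset.sum_apply] at hy
    simp only [Pi.smul_apply, smul_eq_mul, hBA, Pi.zero_apply] at hy
    rw [← hy]
    exact Finset.sum_congr rfl fun i _ => by rw [hsym]
  have hS : ∀ f, (∀ i, A f (c i) = 0) ∨
      ∃ i, ∀ j, A f (c j) = 1 ↔ (j = i - 1 ∨ j = i + 1) := by
    intro f
    refine rb_struct hn (fun i => A f (c i)) par ?_ ?_ ?_
    · intro i j hij hi hj
      exact rb_window hn A s hsym hs hlen c (fun i => (hadj _ _).2 (Or.inl rfl)) hodd f i j hij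
        hi hj
    · refine hker (fun i => 1 + par i) (fun j => ?_) f
      rw [map_sub, map_add, hp1]
      have := rb_add_self (1 : ZMod 2)
      have := rb_add_self (par j)
      linear_combination this + rb_add_self (1 : ZMod 2)
    · refine hker (fun i => par i) (fun j => ?_) f
      rw [map_sub, map_add, hp1]
      linear_combination rb_add_self (par j)
  have hrow0 : ∀ f, (∀ i, A f (c i) = 0) → ∀ g, A f g = 0 := by
    intro f hf g
    exact congrFun (hst (B (some f)) (hBs _) (fun j => hf j)) (some g)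
  have hrow1 : ∀ f i, (∀ j, A f (c j) = 1 ↔ (j = i - 1 ∨ j = i + 1)) →
      ∀ g, A f g = A (c i) g := by
    intro f i hf g
    have hx := hst (B (some f) + B (some (c i))) (Submodule.add_mem _ (hBs _) (hBs _)) (by
      intro j
      rw [Pi.add_apply, hBA, hBA]
      have h1 : A f (c j) = 1 ↔ A (c i) (c j) = 1 := by
        rw [hf j, hadj i j]
        constructor
        · rintro (h | h)
          · right; rw [h]; ring
          · exact Or.inl h
        · rintro (h | h)
          · exact Or.inr h
          · left; rw [h]; ring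
      rcases rb_z2 (A f (c j)) with h2 | h2
      · have h3 : A (c i) (c j) = 0 := rb_ne1 fun h4 => by
          rw [h1.2 h4] at h2; exact absurd h2 (by decide)
        rw [h2, h3, add_zero]
      · rw [h2, h1.1 h2]; exact rb_add_self 1)
    have hy := congrFun hx (some g)
    rw [Pi.add_apply, hBA, hBA, Pi.zero_apply] at hy
    linear_combination hy - rb_add_self (A (c i) g)
  -- the functional
  set κ : F → ZMod 2 := fun f => if ∃ i, par i = 0 ∧ A f (c i) = 1 then 1 else 0 with hκdef
  have hκ : ∀ f i, (∀ j, A f (c j) = 1 ↔ (j = i - 1 ∨ j = i + 1)) → κ f = par i := by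
    intro f i hf
    rcases rb_z2 (par i) with h | h
    · rw [h, hκdef]
      simp only
      rw [if_neg]
      rintro ⟨j, hj1, hj2⟩
      rcases (hf j).1 hj2 with h3 | h3
      · rw [h3, map_sub, h, hp1] at hj1; exact absurd hj1 (by decide)
      · rw [h3, map_add, h, hp1] at hj1; exact absurd hj1 (by decide)
    · rw [h, hκdef]
      simp only
      rw [if_pos]
      exact ⟨i - 1, by rw [map_sub, h, hp1]; decide, (hf _).2 (Or.inl rfl)⟩
  have hκ2 : ∀ f i g, (∀ j, A f (c j) = 1 ↔ (j = i - 1 ∨ j = i + 1)) → A f g = 1 →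
      κ g = par i + 1 := by
    intro f i g hf hfg
    rw [hrow1 f i hf g, hsym] at hfg
    rcases hS g with h | ⟨i', hi'⟩
    · rw [h i] at hfg; exact absurd hfg (by decide)
    · rw [hκ g i' hi']
      rcases (hi' i).1 hfg with h | h
      · rw [h, map_sub, hp1]; ring
      · rw [h, map_add, hp1]
        linear_combination - rb_add_self (1 : ZMod 2)
  have hc0 : ∀ f, ∑ g, κ g * A f g = 0 := by
    intro f
    rcases hS f with h | ⟨i, hi⟩
    · exact Finset.sum_eq_zero fun g _ => by rw [hrow0 f h g, mul_zero]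
    · have : ∀ g, κ g * A f g = (par i + 1) * A f g := by
        intro g
        rcases rb_z2 (A f g) with h | h
        · rw [h, mul_zero, mul_zero]
        · rw [hκ2 f i g hi h]
      simp only [this]
      rw [← Finset.mul_sum, hrow, mul_zero]
  have hd1 : ∑ f, κ f * ρ f = 1 := by
    have h1 : ∑ f, κ f * ρ f = ∑ f, ∑ f', κ f * (A f f' * s f f') := by
      refine Finset.sum_congr rfl fun f _ => ?_
      rw [hρ]; simp only; rw [Finset.mul_sum]
    rw [h1, rb_half o ho (fun f f' => κ f * (A f f' * s f f'))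
      (fun f => by rw [hdiag]; ring), ← hT]
    refine Finset.sum_congr rfl fun f _ => Finset.sum_congr rfl fun f' _ => ?_
    by_cases hlt' : o f < o f'
    · rw [if_pos hlt', if_pos hlt']
      rcases rb_z2 (A f f') with h | h
      · rw [hsym f' f, h]; ring
      · rcases hS f with h' | ⟨i, hi⟩
        · rw [hrow0 f h' f'] at h; exact absurd h (by decide)
        · rw [hκ f i hi, hκ2 f i f' hi h, hsym f' f, hs f' f, h]
          linear_combination s f f' * rb_add_self (par i)
    · rw [if_neg hlt', if_neg hlt']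
  -- the rank
  let lam : (Option F → ZMod 2) →ₗ[ZMod 2] ZMod 2 := ∑ f, κ f • LinearMap.proj (some f)
  have hlam : ∀ x, lam x = ∑ f, κ f * x (some f) := by
    intro x
    simp [lam, LinearMap.sum_apply]
  let B' : Matrix F (Option F) (ZMod 2) := fun f => B (some f)
  have r2 := (tri_rank B' (k - 2) (fun i => c ((i : ℕ) : ZMod k))
    (fun j => some (c (((j : ℕ) : ZMod k) + 1)))
    (fun i => (rb_tri (by omega) A c hadj i i).1 rfl)
    (fun i j hij => (rb_tri (by omega) A c hadj i j).2 hij)).1
  have hsubl : Submodule.span (ZMod 2) (Set.range B'.row) <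
      Submodule.span (ZMod 2) (Set.range B.row) := by
    refine lt_of_le_of_ne ?_ ?_
    · refine Submodule.span_mono ?_
      rintro _ ⟨f, rfl⟩
      exact ⟨some f, rfl⟩
    · intro heq
      have h1 : Submodule.span (ZMod 2) (Set.range B'.row) ≤ LinearMap.ker lam := by
        rw [Submodule.span_le]
        rintro _ ⟨f, rfl⟩
        rw [SetLike.mem_coe, LinearMap.mem_ker, hlam]
        exact hc0 f
      have h2 : B none ∈ Submodule.span (ZMod 2) (Set.range B'.row) := by
        rw [heq]; exact Submodule.subset_span ⟨none, rfl⟩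
      have h3 := h1 h2
      rw [LinearMap.mem_ker, hlam] at h3
      have h4 : ∑ f, κ f * B none (some f) = ∑ f, κ f * ρ f := rfl
      rw [h4, hd1] at h3
      exact absurd h3 (by decide)
  have h5 := Submodule.finrank_lt_finrank_of_lt hsubl
  rw [← Matrix.rank_eq_finrank_span_row, ← Matrix.rank_eq_finrank_span_row] at h5
  omega

end Pool.Agent.Helper226_Obs
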