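import Pool.Agent.Helper226_Obs.FP.C03

set_option autoImplicit false

namespace Pool.Agent.Helper226_Obs

open SimpleGraph

theorem two_z (x : ZMod 2) : x + x = 0 := CharTwo.add_self_eq_zero x

theorem two_l {M : ℕ} (x : Lab M) : x + x = 0 := by
  funext i; exact two_z _

theorem lab_eq {M : ℕ} {x y z : Lab M} (h : x + y = z) : y = x + z := by
  rw [← h, ← add_assoc, two_l, zero_add]

theorem dl_inj {M : ℕ} [NeZero M] (hM : 5 ≤ M) {x y : ZMod M} (h : dl x = dl y) : x = y := by
  have h1 : (1 : ZMod M) ≠ 0 := by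
    intro h1
    have : ((1 : ℕ) : ZMod M) = 0 := by exact_mod_cast h1
    rw [ZMod.natCast_eq_zero_iff] at this
    have := Nat.le_of_dvd (by norm_num) this
    omega
  have h2 : (2 : ZMod M) ≠ 0 := by
    intro h1
    have : ((2 : ℕ) : ZMod M) = 0 := by exact_mod_cast h1
    rw [ZMod.natCast_eq_zero_iff] at this
    have := Nat.le_of_dvd (by norm_num) this
    omega
  by_contra hxy
  have n1 : ∀ z : ZMod M, z ≠ z - 1 := by
    intro z hz
    apply h1
    have : z - (z - 1) = 0 := by rw [← hz, sub_self]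
    simpa using this
  have e1 := congrFun h x
  have e2 := congrFun h y
  simp only [dl, sg, Pi.add_apply, Pi.single_apply, if_neg (n1 _), add_zero,
    if_neg hxy, if_neg (Ne.symm hxy), zero_add] at e1 e2
  have f1 : x = y - 1 := by
    by_contra hh
    rw [if_neg hh] at e1
    exact one_ne_zero e1
  have f2 : y = x - 1 := by
    by_contra hh
    rw [if_neg hh] at e2
    exact one_ne_zero e2.symm
  apply h2
  have : x - (y - 1) = 0 := by rw [← f1, sub_self]
  rw [f2] at this
  have h3 : x - (x - 1 - 1) = 2 := by ring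
  rw [← h3]; exact this

theorem sl_self {M : ℕ} [NeZero M] (hM : 5 ≤ M) (f : Lab M) : sl f f = 0 := by
  rw [sl, if_neg]
  rintro ⟨j, hj, h⟩
  rw [two_l] at h
  have : dl j = dl 0 := by
    have := lab_eq h.symm
    rw [add_zero] at this
    exact this
  exact hj (dl_inj hM this)

theorem val_id2 (x h : ZMod 2) :
    (((x + h).val : ℤ)) - (x.val : ℤ) = (h.val : ℤ) * (1 - 2 * (x.val : ℤ)) := by
  revert x h; decide

theorem T_count {E : Type} [Fintype E] (rot : Equiv.Perm (E × Bool)) (H : E → ZMod 2)
    (ψ : E × Bool → ZMod 2) (h : ∀ d, ψ (rot d) = ψ d + H d.1) :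
    ∑ d : E × Bool, H d.1 * ψ d = ∑ e, H e := by
  have h0 : ∑ d : E × Bool, ((ψ (rot d)).val : ℤ) = ∑ d : E × Bool, ((ψ d).val : ℤ) :=
    Equiv.sum_comp rot (fun d => ((ψ d).val : ℤ))
  have h1 : ∑ d : E × Bool, (((ψ (rot d)).val : ℤ) - ((ψ d).val : ℤ)) = 0 := by
    rw [Finset.sum_sub_distrib, h0, sub_self]
  have h2 : ∑ d : E × Bool, (((H d.1).val : ℤ) * (1 - 2 * ((ψ d).val : ℤ))) = 0 := by
    rw [← h1]
    refine Finset.sum_congr rfl fun d _ => ?_
    rw [h, val_id2]
  have h3 : ∑ d : E × Bool, ((H d.1).val : ℤ) = 2 * ∑ e, ((H e).val : ℤ) := by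
    rw [Fintype.sum_prod_type, Finset.mul_sum]
    refine Finset.sum_congr rfl fun e _ => ?_
    rw [Fintype.sum_bool]; ring
  have h4 : ∑ d : E × Bool, ((H d.1).val : ℤ) * ((ψ d).val : ℤ) = ∑ e, ((H e).val : ℤ) := by
    have : ∑ d : E × Bool, (((H d.1).val : ℤ) * (1 - 2 * ((ψ d).val : ℤ))) =
        ∑ d : E × Bool, ((H d.1).val : ℤ) -
          2 * ∑ d : E × Bool, ((H d.1).val : ℤ) * ((ψ d).val : ℤ) := by
      rw [Finset.mul_sum, ← Finset.sum_sub_distrib]
      exact Finset.sum_congr rfl fun d _ => by ring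
    rw [this, h3] at h2
    linarith
  have h5 := congrArg (fun z : ℤ => (z : ZMod 2)) h4
  simpa using h5

theorem sum_J {E F : Type} [Fintype F] [DecidableEq F] (fc : E × Bool → F) (e : E)
    (g : F → ZMod 2) : ∑ f, g f * Jf fc e f = g (fc (e, false)) + g (fc (e, true)) := by
  simp [Jf, mul_add, Finset.sum_add_distrib]

theorem swap3 {A B C : Type} [Fintype A] [Fintype B] [Fintype C] (X : A → B → C → ZMod 2) :
    ∑ b, ∑ c, ∑ a, X a b c = ∑ a, ∑ b, ∑ c, X a b c :=
  calc ∑ b, ∑ c, ∑ a, X a b c = ∑ b, ∑ a, ∑ c, X a b c :=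
        Finset.sum_congr rfl fun _ _ => Finset.sum_comm
    _ = _ := Finset.sum_comm

theorem T_eq {E : Type} [Fintype E] (M : ℕ) [NeZero M] (hM : 5 ≤ M) (vt fc : E × Bool → Lab M)
    (p q : E → ZMod M) (hpq : ∀ e, p e ≠ q e)
    (hlab : ∀ e t u, vt (e, t) + fc (e, u) = dl (if t = u then p e else q e))
    (hodd : Odd ({e : E | p e = 0 ∨ q e = 0}).ncard) (hE : EvenAt vt fc)
    (rot : Equiv.Perm (E × Bool)) (hrot : ∀ d, vt (rot d) = vt d)
    (K : E × Bool → Lab M → ZMod 2) (hK1 : ∀ d f, K d f + K (rot d) f = Jf fc d.1 f)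
    (hK2 : ∀ d, ∑ f, K d f = 1)
    (hK3 : ∀ d f, K d f ≠ 0 → ∃ e t u, vt (e, t) = vt d ∧ fc (e, u) = f)
    (o : Lab M → ℕ) (ho : Function.Injective o) :
    ∑ f, ∑ f', (if o f < o f' then
      omg rot (fun d => K d f) (fun d => K d f') * sl f f' else 0) = 1 := by
  classical
  set H : E → ZMod 2 := fun e => if p e = 0 ∨ q e = 0 then 1 else 0 with hH
  set F : E × Bool → Lab M := fun d => vt d + dl 0 with hF
  set ind : Lab M → Lab M → ZMod 2 := fun f f' => if o f < o f' then 1 else 0 with hind
  have hHsum : ∑ e, H e = 1 := by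
    have h1 : ∑ e, H e = ((Finset.univ.filter (fun e => p e = 0 ∨ q e = 0)).card : ZMod 2) := by
      rw [Finset.sum_boole]
    have h2 : ({e : E | p e = 0 ∨ q e = 0}).ncard =
        (Finset.univ.filter (fun e => p e = 0 ∨ q e = 0)).card := by
      rw [Set.ncard_eq_toFinset_card']
      congr 1
      ext e
      simp
    rw [h1, ← h2]
    exact ZMod.natCast_eq_one_iff_odd.mpr hodd
  have hfc : ∀ e t u, fc (e, u) = vt (e, t) + dl (if t = u then p e else q e) :=
    fun e t u => lab_eq (hlab e t u)
  have hinj : ∀ (v : Lab M) (x y : ZMod M), v + dl x = v + dl y ↔ x = y := fun v x y =>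
    ⟨fun h => dl_inj hM (add_left_cancel h), fun h => by rw [h]⟩
  have hJF : ∀ d : E × Bool, Jf fc d.1 (F d) = H d.1 := by
    rintro ⟨e, t⟩
    have h1 := hfc e t false
    have h2 := hfc e t true
    simp only [Jf, hF, hH, h1, h2, hinj]
    have := hpq e
    rcases t with _ | _
    · simp only [if_true, Bool.false_eq_true, if_false]
      by_cases h3 : p e = 0
      · have h4 : q e ≠ 0 := fun h4 => this (h3.trans h4.symm)
        simp [h3, h4]
      · simp [h3]
    · simp only [if_true, Bool.true_eq_false, if_false]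
      by_cases h3 : p e = 0
      · have h4 : q e ≠ 0 := fun h4 => this (h3.trans h4.symm)
        simp [h3, h4]
      · simp [h3]
  have hab : ∀ e, fc (e, false) + fc (e, true) = dl (p e) + dl (q e) := by
    intro e
    rw [hfc e false false, hfc e false true]
    simp only [if_true, Bool.false_eq_true, if_false]
    rw [add_add_add_comm, two_l, zero_add]
  have zeq : ∀ x y z : ZMod 2, x + y = z → y = x + z := by decide
  have hii : ∀ f, ind f f = 0 := fun f => by simp [hind]
  have hij : ∀ f f', f ≠ f' → ind f f' + ind f' f = 1 := by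
    intro f f' hff
    have : o f ≠ o f' := fun h => hff (ho h)
    simp only [hind]
    rcases lt_or_gt_of_ne this with h | h
    · rw [if_pos h, if_neg (not_lt.mpr h.le), add_zero]
    · rw [if_neg (not_lt.mpr h.le), if_pos h, zero_add]
  have hij2 : ∀ f f', ind f f' + ind f' f = 1 + (if f' = f then 1 else 0) := by
    intro f f'
    by_cases h : f' = f
    · rw [h, hii, if_pos rfl, two_z]; decide
    · rw [hij f f' (Ne.symm h), if_neg h, add_zero]
  have hom : ∀ f f', omg rot (fun d => K d f) (fun d => K d f') =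
      (∑ d : E × Bool, Jf fc d.1 f * K d f') + ∑ e : E, Jf fc e f * Jf fc e f' := by
    intro f f'
    rw [omg, Fintype.sum_prod_type, ← Finset.sum_add_distrib]
    refine Finset.sum_congr rfl fun e _ => ?_
    rw [Fintype.sum_bool]
    have h1 := hK1 (e, false) f
    have h2 := zeq _ _ _ (hK1 (e, true) f')
    simp only at h1 h2 ⊢
    rw [h1, h2]; ring
  have hT : ∑ f, ∑ f', (if o f < o f' then
      omg rot (fun d => K d f) (fun d => K d f') * sl f f' else 0) =
      (∑ d : E × Bool, ∑ f, ∑ f', ind f f' * sl f f' * (Jf fc d.1 f * K d f')) +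
        ∑ e : E, ∑ f, ∑ f', ind f f' * sl f f' * (Jf fc e f * Jf fc e f') := by
    have h1 : ∀ f f', (if o f < o f' then
        omg rot (fun d => K d f) (fun d => K d f') * sl f f' else 0) =
        (∑ d : E × Bool, ind f f' * sl f f' * (Jf fc d.1 f * K d f')) +
        ∑ e : E, ind f f' * sl f f' * (Jf fc e f * Jf fc e f') := by
      intro f f'
      rw [hom, ← Finset.mul_sum, ← Finset.mul_sum]
      simp only [hind]
      split_ifs
      · ring
      · simp
    simp only [h1, Finset.sum_add_distrib]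
    congr 1
    · exact swap3 (fun (d : E × Bool) f f' => ind f f' * sl f f' * (Jf fc d.1 f * K d f'))
    · exact swap3 (fun (e : E) f f' => ind f f' * sl f f' * (Jf fc e f * Jf fc e f'))
  have hP2 : ∑ e : E, ∑ f, ∑ f', ind f f' * sl f f' * (Jf fc e f * Jf fc e f') = 1 := by
    rw [← hHsum]
    refine Finset.sum_congr rfl fun e _ => ?_
    have hne : fc (e, false) ≠ fc (e, true) := by
      intro h
      have h1 := hab e
      rw [h, two_l] at h1
      have h2 := lab_eq h1.symm
      rw [add_zero] at h2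
      exact hpq e (dl_inj hM h2.symm)
    have h1 : ∀ f, ∑ f', ind f f' * sl f f' * (Jf fc e f * Jf fc e f') =
        (ind f (fc (e, false)) * sl f (fc (e, false)) +
          ind f (fc (e, true)) * sl f (fc (e, true))) * Jf fc e f := by
      intro f
      rw [← sum_J fc e (fun f' => ind f f' * sl f f'), Finset.sum_mul]
      exact Finset.sum_congr rfl fun f' _ => by ring
    simp only [h1]
    rw [sum_J fc e (fun f => ind f (fc (e, false)) * sl f (fc (e, false)) +
          ind f (fc (e, true)) * sl f (fc (e, true)))]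
    have h2 : sl (fc (e, false)) (fc (e, true)) = H e := sl_eq hM _ _ _ _ (hpq e) (hab e)
    have h3 : sl (fc (e, true)) (fc (e, false)) = H e :=
      sl_eq hM _ _ _ _ (hpq e) (by rw [add_comm]; exact hab e)
    simp only [h2, h3, hii]
    have h4 := hij _ _ hne
    calc (0 * sl (fc (e, false)) (fc (e, false)) + ind (fc (e, false)) (fc (e, true)) * H e) +
          (ind (fc (e, true)) (fc (e, false)) * H e + 0 * sl (fc (e, true)) (fc (e, true))) =
        (ind (fc (e, false)) (fc (e, true)) + ind (fc (e, true)) (fc (e, false))) * H e := by ring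
      _ = H e := by rw [h4, one_mul]
  have hJv : ∀ (d : E × Bool) f, Jf fc d.1 f ≠ 0 → ∃ x, f = vt d + dl x := by
    rintro ⟨e, t⟩ f h
    by_cases h1 : fc (e, false) = f
    · exact ⟨_, h1 ▸ hfc e t false⟩
    · by_cases h2 : fc (e, true) = f
      · exact ⟨_, h2 ▸ hfc e t true⟩
      · exact absurd (by simp [Jf, h1, h2]) h
  have hKv : ∀ (d : E × Bool) f, K d f ≠ 0 → ∃ x, f = vt d + dl x := by
    intro d f h
    obtain ⟨e, t, u, h1, h2⟩ := hK3 d f h
    exact ⟨_, by rw [← h2, ← h1]; exact hfc e t u⟩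
  have hsl : ∀ (d : E × Bool) x y, sl (vt d + dl x) (vt d + dl y) =
      (if vt d + dl x = F d then 1 else 0) + (if vt d + dl y = F d then 1 else 0) := by
    intro d x y
    simp only [hF, hinj]
    by_cases h : x = y
    · rw [h, sl_self hM, two_z]
    · rw [sl_eq hM _ _ x y h (by rw [add_add_add_comm, two_l, zero_add])]
      by_cases h1 : x = 0
      · have h2 : y ≠ 0 := fun h2 => h (h1.trans h2.symm)
        simp [h1, h2]
      · simp [h1]
  have hP1 : ∑ d : E × Bool, ∑ f, ∑ f', ind f f' * sl f f' * (Jf fc d.1 f * K d f') =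
      (∑ d : E × Bool, H d.1 * ∑ g, ind (F d) g * K d g) +
      ∑ d : E × Bool, ∑ g, ind g (F d) * (Jf fc d.1 g * K d (F d)) := by
    rw [← Finset.sum_add_distrib]
    refine Finset.sum_congr rfl fun d _ => ?_
    have h1 : ∀ f f', ind f f' * sl f f' * (Jf fc d.1 f * K d f') =
        (if f = F d then ind f f' * (Jf fc d.1 f * K d f') else 0) +
          (if f' = F d then ind f f' * (Jf fc d.1 f * K d f') else 0) := by
      intro f f'
      by_cases hJ : Jf fc d.1 f = 0
      · simp [hJ]
      by_cases hK : K d f' = 0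
      · simp [hK]
      obtain ⟨x, rfl⟩ := hJv d f hJ
      obtain ⟨y, rfl⟩ := hKv d f' hK
      rw [hsl]
      split_ifs <;> ring
    simp only [h1, Finset.sum_add_distrib]
    congr 1
    · rw [Finset.sum_comm]
      simp only [Finset.sum_ite_eq', Finset.mem_univ, if_true]
      rw [Finset.mul_sum]
      refine Finset.sum_congr rfl fun g _ => ?_
      rw [hJF]; ring
    · simp only [Finset.sum_ite_eq', Finset.mem_univ, if_true]
  have hFrot : ∀ d, F (rot d) = F d := fun d => by simp only [hF, hrot]
  have hKrot : ∀ d f, K (rot d) f = K d f + Jf fc d.1 f := fun d f => zeq _ _ _ (hK1 d f)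
  have hS2 : ∑ d : E × Bool, ∑ g, ind g (F d) * (Jf fc d.1 g * K d (F d)) =
      (∑ d : E × Bool, H d.1 * ∑ g, ind g (F d) * K d g) +
      ∑ d : E × Bool, H d.1 * ∑ g, ind g (F d) * Jf fc d.1 g := by
    have h1 : ∑ d : E × Bool, ∑ g, ind g (F d) * (K d g * K d (F d)) =
        ∑ d : E × Bool, ∑ g, ind g (F (rot d)) * (K (rot d) g * K (rot d) (F (rot d))) :=
      (Equiv.sum_comp rot (fun d => ∑ g, ind g (F d) * (K d g * K d (F d)))).symm
    have h2 : ∑ d : E × Bool, ∑ g, ind g (F (rot d)) * (K (rot d) g * K (rot d) (F (rot d))) =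
        (∑ d : E × Bool, ∑ g, ind g (F d) * (K d g * K d (F d))) +
        ((∑ d : E × Bool, ∑ g, ind g (F d) * (Jf fc d.1 g * K d (F d))) +
        ((∑ d : E × Bool, H d.1 * ∑ g, ind g (F d) * K d g) +
          ∑ d : E × Bool, H d.1 * ∑ g, ind g (F d) * Jf fc d.1 g)) := by
      rw [← Finset.sum_add_distrib, ← Finset.sum_add_distrib, ← Finset.sum_add_distrib]
      refine Finset.sum_congr rfl fun d _ => ?_
      rw [Finset.mul_sum, Finset.mul_sum, ← Finset.sum_add_distrib, ← Finset.sum_add_distrib,
        ← Finset.sum_add_distrib]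
      refine Finset.sum_congr rfl fun g _ => ?_
      rw [hFrot, hKrot, hKrot, hJF]; ring
    have h3 : ∀ x y z : ZMod 2, x = x + (y + z) → y = z := by decide
    exact h3 _ _ _ (h1.trans h2)
  rw [hT, hP1, hS2, hP2]
  have hψ := T_count rot H (fun d => K d (F d)) (fun d => by
    rw [hFrot, hKrot, hJF])
  have hH0 : ∑ d : E × Bool, H d.1 = 0 := by
    rw [Fintype.sum_prod_type]
    refine Finset.sum_eq_zero fun e _ => ?_
    rw [Fintype.sum_bool]; exact two_z _
  have hS13 : (∑ d : E × Bool, H d.1 * ∑ g, ind (F d) g * K d g) +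
      (∑ d : E × Bool, H d.1 * ∑ g, ind g (F d) * K d g) = 1 := by
    have h1 : ∀ d : E × Bool, (∑ g, ind (F d) g * K d g) + (∑ g, ind g (F d) * K d g) =
        1 + K d (F d) := by
      intro d
      rw [← Finset.sum_add_distrib]
      have h2 : ∀ g, ind (F d) g * K d g + ind g (F d) * K d g =
          K d g + (if g = F d then K d g else 0) := by
        intro g
        rw [← add_mul, hij2]
        split_ifs <;> ring
      simp only [h2, Finset.sum_add_distrib, hK2, Finset.sum_ite_eq', Finset.mem_univ, if_true]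
    rw [← Finset.sum_add_distrib]
    have h2 : ∀ d : E × Bool, H d.1 * (∑ g, ind (F d) g * K d g) +
        H d.1 * (∑ g, ind g (F d) * K d g) = H d.1 + H d.1 * K d (F d) := by
      intro d
      rw [← mul_add, h1]; ring
    simp only [h2, Finset.sum_add_distrib, hH0, zero_add]
    rw [hψ, hHsum]
  have hS4 : ∑ d : E × Bool, H d.1 * ∑ g, ind g (F d) * Jf fc d.1 g = 1 := by
    rw [Fintype.sum_prod_type, ← hHsum]
    refine Finset.sum_congr rfl fun e _ => ?_
    rw [Fintype.sum_bool]
    simp only [sum_J]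
    by_cases h0 : p e = 0 ∨ q e = 0
    · have hne : fc (e, false) ≠ fc (e, true) := by
        intro h
        have h1 := hab e
        rw [h, two_l] at h1
        have h2 := lab_eq h1.symm
        rw [add_zero] at h2
        exact hpq e (dl_inj hM h2.symm)
      have hHe : H e = 1 := by simp only [hH]; rw [if_pos h0]
      have h4 := hij _ _ hne
      rcases h0 with h0 | h0
      · have e1 : F (e, false) = fc (e, false) := by
          rw [hfc e false false, if_pos rfl, h0]
        have e2 : F (e, true) = fc (e, true) := by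
          rw [hfc e true true, if_pos rfl, h0]
        rw [e1, e2, hHe, hii, hii, one_mul, one_mul, zero_add, add_zero]
        exact h4
      · have e1 : F (e, false) = fc (e, true) := by
          rw [hfc e false true, if_neg (by simp), h0]
        have e2 : F (e, true) = fc (e, false) := by
          rw [hfc e true false, if_neg (by simp), h0]
        rw [e1, e2, hHe, hii, hii, one_mul, one_mul, zero_add, add_zero, add_comm]
        exact h4
    · have hHe : H e = 0 := by simp only [hH]; rw [if_neg h0]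
      rw [hHe]; ring
  rw [hS4, ← add_assoc, hS13]; decide

end Pool.Agent.Helper226_Obs
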