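import Pool.Agent.Helper226_Obs.FP.C01
import Pool.Agent.Helper226_Obs.FP.C03

set_option autoImplicit false

namespace Pool.Agent.Helper226_Obs

open SimpleGraph

theorem lab_self {M : ℕ} (f : Lab M) : f + f = 0 := by
  funext i
  exact CharTwo.add_self_eq_zero (f i)

theorem dl_inj_c08 {M : ℕ} [NeZero M] (hM : 5 ≤ M) {x y : ZMod M} (h : dl x = dl y) : x = y := by
  by_contra hne
  have h1 : (1 : ZMod M) ≠ 0 := by
    intro h0
    have h2 : ((1 : ℕ) : ZMod M) = 0 := by exact_mod_cast h0
    rw [ZMod.natCast_eq_zero_iff] at h2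
    have := Nat.le_of_dvd (by norm_num) h2
    omega
  have h2 : (2 : ZMod M) ≠ 0 := by
    intro h0
    have h2 : ((2 : ℕ) : ZMod M) = 0 := by exact_mod_cast h0
    rw [ZMod.natCast_eq_zero_iff] at h2
    have := Nat.le_of_dvd (by norm_num) h2
    omega
  have e1 := congrFun h x
  have e2 := congrFun h y
  have a1 : x ≠ x - 1 := by
    intro h0
    apply h1
    have : (1 : ZMod M) = x - (x - 1) := by ring
    rw [this, ← h0]
    ring
  have a2 : y ≠ y - 1 := by
    intro h0
    apply h1
    have : (1 : ZMod M) = y - (y - 1) := by ring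
    rw [this, ← h0]
    ring
  have hyx : y ≠ x := fun h => hne h.symm
  simp only [dl, sg, Pi.add_apply, Pi.single_apply, if_neg a1, if_neg hne, if_true] at e1
  simp only [dl, sg, Pi.add_apply, Pi.single_apply, if_neg a2, if_neg hyx, if_true] at e2
  have b1 : x = y - 1 := by
    by_contra hh
    rw [if_neg hh] at e1
    simp at e1
  have b2 : y = x - 1 := by
    by_contra hh
    rw [if_neg hh] at e2
    simp at e2
  apply h2
  have : (2 : ZMod M) = x - (x - 1) + 1 := by ring
  rw [this, ← b2]
  calc x - y + 1 = (y - 1) - y + 1 := by rw [← b1]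
    _ = 0 := by ring

theorem sl_comm {M : ℕ} (f f' : Lab M) : sl f f' = sl f' f := by
  unfold sl
  rw [add_comm f f']

theorem sl_self_c08 {M : ℕ} [NeZero M] (hM : 5 ≤ M) (f : Lab M) : sl f f = 0 := by
  unfold sl
  rw [if_neg]
  rintro ⟨j, hj, h⟩
  rw [lab_self] at h
  apply hj
  have h3 : dl (0 : ZMod M) = dl j := by
    have h4 : dl (0 : ZMod M) + dl j + dl j = 0 + dl j := by rw [← h]
    rw [add_assoc, lab_self, add_zero, zero_add] at h4
    exact h4
  exact (dl_inj_c08 hM h3).symm

/-- Two labels at the same vertex. -/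
theorem sl_star {M : ℕ} [NeZero M] (hM : 5 ≤ M) (v : Lab M) (x y : ZMod M) :
    sl (v + dl x) (v + dl y) = (if x = 0 then 1 else 0) + (if y = 0 then 1 else 0) := by
  by_cases hxy : x = y
  · subst hxy
    rw [sl_self_c08 hM]
    exact (CharTwo.add_self_eq_zero _).symm
  · have h : (v + dl x) + (v + dl y) = dl x + dl y := by
      have : (v + dl x) + (v + dl y) = (v + v) + (dl x + dl y) := by abel
      rw [this, lab_self, zero_add]
    rw [sl_eq hM _ _ x y hxy h]
    by_cases hx : x = 0
    · have hy : y ≠ 0 := fun h0 => hxy (hx.trans h0.symm)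
      simp [hx, hy]
    · by_cases hy : y = 0
      · simp [hx, hy]
      · simp [hx, hy]

theorem lab_move {M : ℕ} {a b c : Lab M} (h : a + b = c) : b = a + c := by
  rw [← h, ← add_assoc, lab_self, zero_add]

theorem Jf_zero {E : Type} (M : ℕ) [NeZero M] (hM : 5 ≤ M)
    (vt fc : E × Bool → Lab M) (p q : E → ZMod M) (hpq : ∀ e, p e ≠ q e)
    (hlab : ∀ e t u, vt (e, t) + fc (e, u) = dl (if t = u then p e else q e))
    (d : E × Bool) :
    Jf fc d.1 (vt d + dl 0) = (if p d.1 = 0 ∨ q d.1 = 0 then 1 else 0) := by
  obtain ⟨e, t⟩ := d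
  have key : ∀ u, (fc (e, u) = vt (e, t) + dl 0) ↔ (if t = u then p e else q e) = 0 := by
    intro u
    rw [lab_move (hlab e t u)]
    constructor
    · intro h
      exact dl_inj_c08 hM (add_left_cancel h)
    · intro h
      rw [h]
  unfold Jf
  simp only [key]
  have h0 := hpq e
  cases t
  · by_cases hp : p e = 0
    · have hq : q e ≠ 0 := fun h => h0 (hp.trans h.symm)
      simp [hp, hq]
    · by_cases hq : q e = 0 <;> simp [hp, hq]
  · by_cases hp : p e = 0
    · have hq : q e ≠ 0 := fun h => h0 (hp.trans h.symm)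
      simp [hp, hq]
    · by_cases hq : q e = 0 <;> simp [hp, hq]

theorem A_props {E : Type} [Fintype E] (M : ℕ) [NeZero M] (hM : 5 ≤ M)
    (vt fc : E × Bool → Lab M)
    (p q : E → ZMod M) (hpq : ∀ e, p e ≠ q e)
    (hlab : ∀ e t u, vt (e, t) + fc (e, u) = dl (if t = u then p e else q e))
    (rot : Equiv.Perm (E × Bool)) (hrot : ∀ d, vt (rot d) = vt d)
    (K : E × Bool → Lab M → ZMod 2) (hK1 : ∀ d f, K d f + K (rot d) f = Jf fc d.1 f)
    (hK2 : ∀ d, ∑ f, K d f = 1)
    (hK3 : ∀ d f, K d f ≠ 0 → ∃ e t u, vt (e, t) = vt d ∧ fc (e, u) = f) :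
    (∀ f, WW rot (fun d => K d f)) ∧
    (∀ f, ∑ f', omg rot (fun d => K d f) (fun d => K d f') = 0) ∧
    (∀ f f', omg rot (fun d => K d f) (fun d => K d f') ≠ 0 →
      ∃ i j, i ≠ j ∧ f + f' = dl i + dl j) ∧
    WW rot (fun d => K d (vt d + dl 0)) ∧
    (∀ f, omg rot (fun d => K d (vt d + dl 0)) (fun d => K d f) =
      ∑ f', omg rot (fun d => K d f) (fun d => K d f') * sl f f') := by
  have hW : ∀ f, WW rot (fun d => K d f) := by
    intro f e
    have h1 := hK1 (e, false) f
    have h2 := hK1 (e, true) f
    show K (e, false) f + K (rot (e, false)) f + K (e, true) f + K (rot (e, true)) f = 0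
    have h3 : K (e, false) f + K (rot (e, false)) f + K (e, true) f + K (rot (e, true)) f
        = (K (e, false) f + K (rot (e, false)) f) + (K (e, true) f + K (rot (e, true)) f) := by
      ring
    rw [h3, h1, h2]
    exact CharTwo.add_self_eq_zero _
  have hfc : ∀ e t u, fc (e, u) = vt (e, t) + dl (if t = u then p e else q e) := fun e t u =>
    lab_move (hlab e t u)
  have hsup : ∀ d f, K d f ≠ 0 → ∃ y, f = vt d + dl y := by
    intro d f h
    obtain ⟨e, t, u, h1, h2⟩ := hK3 d f h
    exact ⟨if t = u then p e else q e, by rw [← h2, ← h1]; exact hfc e t u⟩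
  have hg : ∀ d, K d (vt d + dl 0) + K (rot d) (vt (rot d) + dl 0) =
      (if p d.1 = 0 ∨ q d.1 = 0 then 1 else 0) := by
    intro d
    rw [hrot d, hK1, Jf_zero M hM vt fc p q hpq hlab d]
  refine ⟨hW, ?_, ?_, ?_, ?_⟩
  · intro f
    unfold omg
    rw [Finset.sum_comm]
    apply Finset.sum_eq_zero
    intro e _
    rw [← Finset.mul_sum, Finset.sum_add_distrib, hK2, hK2]
    have : (1 : ZMod 2) + 1 = 0 := CharTwo.add_self_eq_zero _
    rw [this, mul_zero]
  · intro f f' hne
    obtain ⟨e, _, he⟩ := Finset.exists_ne_zero_of_sum_ne_zero hne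
    have h1 : K (e, false) f + K (rot (e, false)) f ≠ 0 := left_ne_zero_of_mul he
    have h2 : K (e, false) f' + K (rot (e, true)) f' ≠ 0 := right_ne_zero_of_mul he
    rw [hK1] at h1
    have h3 : ∃ u, fc (e, u) = f := by
      by_contra hh
      push Not at hh
      apply h1
      unfold Jf
      rw [if_neg (hh false), if_neg (hh true)]
      simp
    obtain ⟨u, hu⟩ := h3
    have h4 : ∃ t y, f' = vt (e, t) + dl y := by
      by_cases h5 : K (e, false) f' = 0
      · rw [h5, zero_add] at h2
        obtain ⟨y, hy⟩ := hsup _ _ h2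
        rw [hrot] at hy
        exact ⟨true, y, hy⟩
      · obtain ⟨y, hy⟩ := hsup _ _ h5
        exact ⟨false, y, hy⟩
    obtain ⟨t, y, hy⟩ := h4
    have hx := hfc e t u
    rw [hu] at hx
    refine ⟨(if t = u then p e else q e), y, ?_, ?_⟩
    swap
    · rw [hx, hy]
      have : ∀ a b c : Lab M, (a + b) + (a + c) = b + c := by
        intro a b c
        have : (a + b) + (a + c) = (a + a) + (b + c) := by abel
        rw [this, lab_self, zero_add]
      exact this _ _ _
    · intro hxy
      apply hne
      have hff : f = f' := by rw [hx, hy, hxy]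
      rw [← hff]
      exact omg_self rot (hW f)
  · intro e
    have h1 := hg (e, false)
    have h2 := hg (e, true)
    show K (e, false) (vt (e, false) + dl 0) + K (rot (e, false)) (vt (rot (e, false)) + dl 0)
      + K (e, true) (vt (e, true) + dl 0) + K (rot (e, true)) (vt (rot (e, true)) + dl 0) = 0
    rw [h1, add_assoc, h2]
    exact CharTwo.add_self_eq_zero _
  · intro f
    have hR : ∑ f', omg rot (fun d => K d f) (fun d => K d f') * sl f f' =
        ∑ e : E, (sl f (fc (e, false)) + sl f (fc (e, true))) *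
          (K (e, false) f + K (rot (e, true)) f) := by
      have h1 : ∀ f', omg rot (fun d => K d f) (fun d => K d f') * sl f f' =
          ∑ e : E, (Jf fc e f' * sl f f') * (K (e, false) f + K (rot (e, true)) f) := by
        intro f'
        rw [omg_symm rot (hW f) (hW f')]
        unfold omg
        rw [Finset.sum_mul]
        apply Finset.sum_congr rfl
        intro e _
        have := hK1 (e, false) f'
        rw [← this]
        ring
      rw [Finset.sum_congr rfl (fun f' _ => h1 f'), Finset.sum_comm]
      apply Finset.sum_congr rfl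
      intro e _
      rw [← Finset.sum_mul]
      congr 1
      unfold Jf
      simp only [add_mul, Finset.sum_add_distrib, ite_mul, one_mul, zero_mul,
        Finset.sum_ite_eq, Finset.mem_univ, if_true]
    rw [hR]
    have hL : omg rot (fun d => K d (vt d + dl 0)) (fun d => K d f) =
        ∑ e : E, (if p e = 0 ∨ q e = 0 then 1 else 0) *
          (K (e, false) f + K (rot (e, true)) f) := by
      unfold omg
      apply Finset.sum_congr rfl
      intro e _
      have := hg (e, false)
      rw [← this]
    rw [hL]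
    apply Finset.sum_congr rfl
    intro e _
    have hkey : ∀ t y, f = vt (e, t) + dl y →
        sl f (fc (e, false)) + sl f (fc (e, true)) = (if p e = 0 ∨ q e = 0 then 1 else 0) := by
      intro t y hy
      have h0 := hpq e
      have e1 : sl f (fc (e, false)) = (if y = 0 then 1 else 0) +
          (if (if t = false then p e else q e) = 0 then 1 else 0) := by
        rw [hy, hfc e t false]
        exact sl_star hM _ _ _
      have e2 : sl f (fc (e, true)) = (if y = 0 then 1 else 0) +
          (if (if t = true then p e else q e) = 0 then 1 else 0) := by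
        rw [hy, hfc e t true]
        exact sl_star hM _ _ _
      have e3 : ∀ a b c : ZMod 2, (a + b) + (a + c) = b + c := by decide
      rw [e1, e2, e3]
      cases t
      · by_cases hp : p e = 0
        · have hq : q e ≠ 0 := fun h => h0 (hp.trans h.symm)
          simp [hp, hq]
        · by_cases hq : q e = 0 <;> simp [hp, hq]
      · by_cases hp : p e = 0
        · have hq : q e ≠ 0 := fun h => h0 (hp.trans h.symm)
          simp [hp, hq]
        · by_cases hq : q e = 0 <;> simp [hp, hq]
    rw [mul_add, mul_add]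
    congr 1
    · by_cases h5 : K (e, false) f = 0
      · rw [h5, mul_zero, mul_zero]
      · obtain ⟨y, hy⟩ := hsup _ _ h5
        rw [hkey false y hy]
    · by_cases h5 : K (rot (e, true)) f = 0
      · rw [h5, mul_zero, mul_zero]
      · obtain ⟨y, hy⟩ := hsup _ _ h5
        rw [hrot] at hy
        rw [hkey true y hy]

end Pool.Agent.Helper226_Obs
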