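import Pool.Agent.Helper226_Obs.FP.C01
import Pool.Agent.Helper226_Obs.FP.C02
import Pool.Agent.Helper226_Obs.FP.C03
import Pool.Agent.Helper226_Obs.FP.C06
import Pool.Agent.Helper226_Obs.FP.C07
import Pool.Agent.Helper226_Obs.FP.C08
import Pool.Agent.Helper226_Obs.FP.A01
import Pool.Agent.Helper226_Obs.FP.A02

set_option autoImplicit false

namespace Pool.Agent.Helper226_Obs

open SimpleGraph

theorem inv_zpow {D : Type} (σ : Equiv.Perm D) (f : D → ZMod 2) (hf : ∀ d, f (σ d) = f d) :
    ∀ (i : ℤ) (d : D), f ((σ ^ i) d) = f d := by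
  have hinv : ∀ d, f (σ⁻¹ d) = f d := by
    intro d
    have h := hf (σ⁻¹ d)
    rw [show σ (σ⁻¹ d) = d from σ.apply_symm_apply d] at h
    exact h.symm
  intro i
  induction i using Int.induction_on with
  | zero => intro d; rfl
  | succ n ih =>
    intro d
    rw [zpow_add_one, Equiv.Perm.mul_apply, ih, hf]
  | pred n ih =>
    intro d
    rw [zpow_sub_one, Equiv.Perm.mul_apply, ih, hinv]

theorem conn_of {E V : Type} (vt : E × Bool → V) (rot : Equiv.Perm (E × Bool))
    (hrot : RotAt vt rot) (hconn : ConnV vt) : CC rot := by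
  classical
  intro f h1 h2
  have h3 : ∀ d d', vt d = vt d' → f d = f d' := by
    intro d d' h
    obtain ⟨i, hi⟩ := hrot.2 d d' h
    rw [← hi, inv_zpow rot f h1]
  let w : V → ZMod 2 := fun v => if h : ∃ d, vt d = v then f h.choose else 0
  have h4 : ∀ d, w (vt d) = f d := by
    intro d
    have h : ∃ d', vt d' = vt d := ⟨d, rfl⟩
    simp only [w, dif_pos h]
    exact h3 _ _ h.choose_spec
  intro d d'
  rw [← h4 d, ← h4 d']
  exact hconn w (fun d => by rw [h4, h4, h2]) d d'

theorem lower_gen {E : Type} [Fintype E] [Nonempty E] (n M : ℕ) [NeZero M] (hMn : M = 2 * n)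
    (hn : Even n) (hn8 : 8 ≤ n) (vt fc : E × Bool → Lab M)
    (p q : E → ZMod M) (hpq : ∀ e, p e ≠ q e)
    (hlab : ∀ e t u, vt (e, t) + fc (e, u) = dl (if t = u then p e else q e))
    (hodd : Odd ({e : E | p e = 0 ∨ q e = 0}).ncard) (hE : EvenAt vt fc)
    (rot : Equiv.Perm (E × Bool)) (hrot : RotAt vt rot) (hc : CC rot) :
    nOrb rot + nOrb (rot * flp) + (n - 1) ≤ Fintype.card E + 2 := by
  classical
  have hM : 5 ≤ M := by omega
  obtain ⟨K, hK1, hK2, hK3⟩ := exists_K vt fc rot hrot hE
  obtain ⟨p1, p2, p3, p4, p5⟩ := A_props M hM vt fc p q hpq hlab rot hrot.1 K hK1 hK2 hK3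
  let A : Matrix (Lab M) (Lab M) (ZMod 2) :=
    fun f f' => omg rot (fun d => K d f) (fun d => K d f')
  let y : Option (Lab M) → E × Bool → ZMod 2 := fun i =>
    match i with
    | none => fun d => K d (vt d + dl 0)
    | some f => fun d => K d f
  have hy : ∀ i, WW rot (y i) := by
    intro i
    match i with
    | none => exact p4
    | some f => exact p1 f
  have hgram := gram_rank rot hc y hy
  have hmat : (Matrix.of fun i j => omg rot (y i) (y j)) =
      bord A fun f => ∑ f', A f f' * sl f f' := by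
    ext i j
    match i, j with
    | none, none => exact omg_self rot p4
    | none, some f => exact p5 f
    | some f, none => exact (omg_symm rot (p1 f) p4).trans (p5 f)
    | some f, some f' => rfl
  rw [hmat] at hgram
  let o : Lab M → ℕ := fun f => (Fintype.equivFin (Lab M) f).val
  have ho : Function.Injective o := by
    intro f f' h
    exact (Fintype.equivFin (Lab M)).injective (Fin.ext h)
  have hrank := rank_bordered n hn8 hn A (fun f f' => omg_symm rot (p1 f) (p1 f'))
    (fun f => omg_self rot (p1 f)) p2 sl (fun f f' => by unfold sl; rw [add_comm f f']) o ho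
    (T_eq M hM vt fc p q hpq hlab hodd hE rot hrot.1 K hK1 hK2 hK3 o ho) ?_
  · omega
  · intro k w hw hA hs
    have hex : ∀ i, ∃ a b : ZMod M, i < k → a ≠ b ∧ w i + w (i + 1) = dl a + dl b := by
      intro i
      by_cases hi : i < k
      · have h1 : A (w i) (w (i + 1)) ≠ 0 := by rw [hA i hi]; exact one_ne_zero
        obtain ⟨a, b, hab, h2⟩ := p3 _ _ h1
        exact ⟨a, b, fun _ => ⟨hab, h2⟩⟩
      · exact ⟨0, 0, fun h => absurd h hi⟩
    choose a b hab using hex
    have h2 : ∑ i ∈ Finset.range k, sl (w i) (w (i + 1)) =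
        ∑ i ∈ Finset.range k, if a i = 0 ∨ b i = 0 then (1 : ZMod 2) else 0 := by
      refine Finset.sum_congr rfl (fun i hi => ?_)
      rw [Finset.mem_range] at hi
      have h3 := sl_eq hM (w i) (w (i + 1)) (a i) (b i) (hab i hi).1 (hab i hi).2
      rw [h3]
    rw [hs, Finset.sum_boole] at h2
    have h4 : Odd ((Finset.range k).filter (fun i => a i = 0 ∨ b i = 0)).card := by
      rw [← ZMod.natCast_eq_one_iff_odd]
      exact h2.symm
    have h5 := walk_len (by omega) k w hw a b hab h4
    omega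

theorem not_embeds_gen {E : Type} [Fintype E] [Nonempty E] (n M : ℕ) [NeZero M]
    (hMn : M = 2 * n) (hn : Even n) (hn8 : 8 ≤ n) (vt fc : E × Bool → Lab M)
    (hne : ∀ e, vt (e, false) ≠ vt (e, true))
    (hinj : ∀ d d' : E × Bool, vt d = vt d' → vt (flp d) = vt (flp d') → d = d')
    (hconn : ConnV vt)
    (p q : E → ZMod M) (hpq : ∀ e, p e ≠ q e)
    (hlab : ∀ e t u, vt (e, t) + fc (e, u) = dl (if t = u then p e else q e))
    (hodd : Odd ({e : E | p e = 0 ∨ q e = 0}).ncard) (hE : EvenAt vt fc)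
    (g : ℕ) (hg : 2 * g + 2 ≤ n) : ¬ Embeds (mapGraph vt) g := by
  intro hemb
  have hM0 : M ≠ 0 := by omega
  have hfin : Finite (Lab M) := inferInstance
  obtain ⟨rot, hrot, h1⟩ := rot_of_embeds vt hne hinj hconn g hemb
  have h2 := nOrb_rot vt rot hrot
  have h3 := lower_gen n M hMn hn hn8 vt fc p q hpq hlab hodd hE rot hrot (conn_of vt rot hrot hconn)
  omega

end Pool.Agent.Helper226_Obs
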