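import Pool.Agent.Helper226_Obs.FP.Host

set_option autoImplicit false

namespace Pool.Agent.Helper226_Obs

open SimpleGraph

theorem gmT (n l m : ℕ) (hl : l < 2 * n) (hm : m < 2 * n) : gm n l m true < 2 * n ∧
    (l + m + gm n l m true + 1 = 2 * n ∨ l + m + gm n l m true + 1 = 4 * n) := by
  unfold gm
  simp only [if_true]
  split_ifs <;> omega

theorem gmF (n l m : ℕ) (hl : l < 2 * n) (hm : m < 2 * n) : gm n l m false < 2 * n ∧
    (l + m + gm n l m false = 0 ∨ l + m + gm n l m false = 2 * n ∨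
      l + m + gm n l m false = 4 * n) := by
  unfold gm
  simp only [Bool.false_eq_true, if_false]
  split_ifs <;> omega

theorem hms (n m : ℕ) (hm' : m < 2 * n) : hm n m < 2 * n ∧ (hm n m = m + n ∨ m = hm n m + n) := by
  unfold hm
  split_ifs <;> omega

theorem pms (n m : ℕ) (hm' : m < 2 * n) : pm n m < 2 * n ∧ (pm n m + 1 = m ∨
    (m = 0 ∧ pm n m + 1 = 2 * n)) := by
  unfold pm
  split_ifs <;> omega

theorem r1A {n l m : ℕ} {t : Bool} (h1 : gm n l m t = l) (h2 : gm n l l (!t) = l) :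
    r1 n l m t = (hm n l, !t) := by
  unfold r1
  rw [if_pos h1, if_pos h2]

theorem r1B {n l m : ℕ} {t : Bool} (h1 : gm n l m t = l) (h2 : gm n l l (!t) ≠ l) :
    r1 n l m t = (gm n l l (!t), !t) := by
  unfold r1
  rw [if_pos h1, if_neg h2]

theorem r1C {n l m : ℕ} {t : Bool} (h1 : gm n l m t ≠ l) (h2 : gm n l m t = m)
    (h3 : hm n m = l) : r1 n l m t = (gm n l l (!t), !t) := by
  unfold r1
  rw [if_neg h1, if_pos h2, if_pos h3]

theorem r1D {n l m : ℕ} {t : Bool} (h1 : gm n l m t ≠ l) (h2 : gm n l m t = m)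
    (h3 : hm n m ≠ l) : r1 n l m t = (hm n m, t) := by
  unfold r1
  rw [if_neg h1, if_pos h2, if_neg h3]

theorem r1E {n l m : ℕ} {t : Bool} (h1 : gm n l m t ≠ l) (h2 : gm n l m t ≠ m) :
    r1 n l m t = (gm n l m t, t) := by
  unfold r1
  rw [if_neg h1, if_neg h2]

/-- all facts about the third line -/
theorem gms (n l m : ℕ) (t : Bool) (hl : l < 2 * n) (hm : m < 2 * n) : gm n l m t < 2 * n ∧
    ((t = true ∧ (l + m + gm n l m t + 1 = 2 * n ∨ l + m + gm n l m t + 1 = 4 * n)) ∨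
    (t = false ∧ (l + m + gm n l m t = 0 ∨ l + m + gm n l m t = 2 * n ∨
      l + m + gm n l m t = 4 * n))) := by
  cases t
  · obtain ⟨h1, h2⟩ := gmF n l m hl hm
    exact ⟨h1, Or.inr ⟨rfl, h2⟩⟩
  · obtain ⟨h1, h2⟩ := gmT n l m hl hm
    exact ⟨h1, Or.inl ⟨rfl, h2⟩⟩

theorem arA1 {n l m h g k f : ℕ} (hn : 2 ≤ n) (hl : l < 2 * n) (hm : m < 2 * n) (hlm : l ≠ m)
    (a1 : l + m + l = 0 ∨ l + m + l = 2 * n ∨ l + m + l = 4 * n)
    (a2 : l + l + l + 1 = 2 * n ∨ l + l + l + 1 = 4 * n) (a3 : h = l + n ∨ l = h + n)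
    (hh : h < 2 * n) (a4 : l + h + g + 1 = 2 * n ∨ l + h + g + 1 = 4 * n) (hg : g < 2 * n)
    (hk : k < 2 * n) (a5 : k = h + n ∨ h = k + n) (hf : f < 2 * n)
    (a6 : l + l + f = 0 ∨ l + l + f = 2 * n ∨ l + l + f = 4 * n) :
    h ≠ l ∧ h ≠ m ∧ g ≠ l ∧ g = h ∧ k = l ∧ f = m := by
  rcases a2 with a2 | a2 <;> rcases a3 with a3 | a3 <;> omega

theorem arA2 {n l m h g k f : ℕ} (hn : 2 ≤ n) (hl : l < 2 * n) (hm : m < 2 * n) (hlm : l ≠ m)
    (a1 : l + m + l + 1 = 2 * n ∨ l + m + l + 1 = 4 * n)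
    (a2 : l + l + l = 0 ∨ l + l + l = 2 * n ∨ l + l + l = 4 * n) (a3 : h = l + n ∨ l = h + n)
    (hh : h < 2 * n) (a4 : l + h + g = 0 ∨ l + h + g = 2 * n ∨ l + h + g = 4 * n)
    (hg : g < 2 * n) (hk : k < 2 * n) (a5 : k = h + n ∨ h = k + n) (hf : f < 2 * n)
    (a6 : l + l + f + 1 = 2 * n ∨ l + l + f + 1 = 4 * n) :
    h ≠ l ∧ h ≠ m ∧ g ≠ l ∧ g = h ∧ k = l ∧ f = m := by
  rcases a2 with a2 | a2 | a2 <;> rcases a3 with a3 | a3 <;> omega

theorem arB1 {n l m p g f : ℕ} (hl : l < 2 * n) (hm : m < 2 * n) (hlm : l ≠ m)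
    (a1 : l + m + l = 0 ∨ l + m + l = 2 * n ∨ l + m + l = 4 * n) (hp : p < 2 * n)
    (a2 : l + l + p + 1 = 2 * n ∨ l + l + p + 1 = 4 * n) (hpl : p ≠ l)
    (hg : g < 2 * n) (a3 : l + p + g + 1 = 2 * n ∨ l + p + g + 1 = 4 * n) (hf : f < 2 * n)
    (a4 : l + l + f = 0 ∨ l + l + f = 2 * n ∨ l + l + f = 4 * n) :
    p ≠ m ∧ g = l ∧ f ≠ l ∧ f = m := by
  rcases a1 with a1 | a1 | a1 <;> rcases a2 with a2 | a2 <;> omega

theorem arB2 {n l m p g f : ℕ} (hl : l < 2 * n) (hm : m < 2 * n) (hlm : l ≠ m)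
    (a1 : l + m + l + 1 = 2 * n ∨ l + m + l + 1 = 4 * n) (hp : p < 2 * n)
    (a2 : l + l + p = 0 ∨ l + l + p = 2 * n ∨ l + l + p = 4 * n) (hpl : p ≠ l)
    (hg : g < 2 * n) (a3 : l + p + g = 0 ∨ l + p + g = 2 * n ∨ l + p + g = 4 * n)
    (hf : f < 2 * n) (a4 : l + l + f + 1 = 2 * n ∨ l + l + f + 1 = 4 * n) :
    p ≠ m ∧ g = l ∧ f ≠ l ∧ f = m := by
  rcases a1 with a1 | a1 <;> rcases a2 with a2 | a2 | a2 <;> omega

theorem arC1 {n l m p g f h : ℕ} (hn : 2 ≤ n) (hl : l < 2 * n) (hm : m < 2 * n) (hlm : l ≠ m)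
    (a1 : l + m + m = 0 ∨ l + m + m = 2 * n ∨ l + m + m = 4 * n)
    (a0 : l = m + n ∨ m = l + n) (hp : p < 2 * n)
    (a2 : l + l + p + 1 = 2 * n ∨ l + l + p + 1 = 4 * n)
    (hg : g < 2 * n) (a3 : l + p + g + 1 = 2 * n ∨ l + p + g + 1 = 4 * n) (hf : f < 2 * n)
    (a4 : l + l + f = 0 ∨ l + l + f = 2 * n ∨ l + l + f = 4 * n) (hh : h < 2 * n)
    (a5 : h = l + n ∨ l = h + n) :
    p ≠ l ∧ p ≠ m ∧ g = l ∧ f = l ∧ h = m := by
  rcases a1 with a1 | a1 | a1 <;> rcases a0 with a0 | a0 <;> rcases a2 with a2 | a2 <;> omega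

theorem arC2 {n l m p g f h : ℕ} (hn : 2 ≤ n) (hl : l < 2 * n) (hm : m < 2 * n) (hlm : l ≠ m)
    (a1 : l + m + m + 1 = 2 * n ∨ l + m + m + 1 = 4 * n)
    (a0 : l = m + n ∨ m = l + n) (hp : p < 2 * n)
    (a2 : l + l + p = 0 ∨ l + l + p = 2 * n ∨ l + l + p = 4 * n)
    (hg : g < 2 * n) (a3 : l + p + g = 0 ∨ l + p + g = 2 * n ∨ l + p + g = 4 * n)
    (hf : f < 2 * n) (a4 : l + l + f + 1 = 2 * n ∨ l + l + f + 1 = 4 * n) (hh : h < 2 * n)
    (a5 : h = l + n ∨ l = h + n) :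
    p ≠ l ∧ p ≠ m ∧ g = l ∧ f = l ∧ h = m := by
  rcases a1 with a1 | a1 <;> rcases a0 with a0 | a0 <;> rcases a2 with a2 | a2 | a2 <;> omega

theorem arD1 {n l m h g k : ℕ} (hl : l < 2 * n) (hm : m < 2 * n) (hlm : l ≠ m)
    (a1 : l + m + m = 0 ∨ l + m + m = 2 * n ∨ l + m + m = 4 * n) (hh : h < 2 * n)
    (a2 : h = m + n ∨ m = h + n) (hhl : h ≠ l)
    (hg : g < 2 * n) (a3 : l + h + g = 0 ∨ l + h + g = 2 * n ∨ l + h + g = 4 * n)
    (hk : k < 2 * n) (a4 : k = h + n ∨ h = k + n) :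
    h ≠ m ∧ g ≠ l ∧ g = h ∧ k ≠ l ∧ k = m := by
  rcases a1 with a1 | a1 | a1 <;> rcases a2 with a2 | a2 <;> omega

theorem arD2 {n l m h g k : ℕ} (hl : l < 2 * n) (hm : m < 2 * n) (hlm : l ≠ m)
    (a1 : l + m + m + 1 = 2 * n ∨ l + m + m + 1 = 4 * n) (hh : h < 2 * n)
    (a2 : h = m + n ∨ m = h + n) (hhl : h ≠ l)
    (hg : g < 2 * n) (a3 : l + h + g + 1 = 2 * n ∨ l + h + g + 1 = 4 * n)
    (hk : k < 2 * n) (a4 : k = h + n ∨ h = k + n) :
    h ≠ m ∧ g ≠ l ∧ g = h ∧ k ≠ l ∧ k = m := by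
  rcases a1 with a1 | a1 <;> rcases a2 with a2 | a2 <;> omega

theorem r1_spec (n l m : ℕ) (t : Bool) (hn : 2 ≤ n) (hl : l < 2 * n) (hm' : m < 2 * n)
    (hlm : l ≠ m) :
    (r1 n l m t).1 < 2 * n ∧ (r1 n l m t).1 ≠ l ∧ (r1 n l m t).1 ≠ m ∧
      r1 n l (r1 n l m t).1 (r1 n l m t).2 = (m, t) := by
  by_cases h1 : gm n l m t = l
  · by_cases h2 : gm n l l (!t) = l
    · rw [r1A h1 h2]
      simp only
      obtain ⟨b1, b2⟩ := hms n l hl
      obtain ⟨b3, b4⟩ := hms n (hm n l) b1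
      cases t
      · rw [Bool.not_false] at *
        obtain ⟨-, c1⟩ := gmF n l m hl hm'
        obtain ⟨-, c2⟩ := gmT n l l hl hl
        obtain ⟨c3, c4⟩ := gmT n l (hm n l) hl b1
        obtain ⟨c5, c6⟩ := gmF n l l hl hl
        rw [h1] at c1
        rw [h2] at c2
        obtain ⟨d1, d2, d3, d4, d5, d6⟩ := arA1 hn hl hm' hlm c1 c2 b2 b1 c4 c3 b3 b4 c5 c6
        exact ⟨b1, d1, d2, by rw [r1C d3 d4 d5, Bool.not_true, d6]⟩
      · rw [Bool.not_true] at *
        obtain ⟨-, c1⟩ := gmT n l m hl hm'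
        obtain ⟨-, c2⟩ := gmF n l l hl hl
        obtain ⟨c3, c4⟩ := gmF n l (hm n l) hl b1
        obtain ⟨c5, c6⟩ := gmT n l l hl hl
        rw [h1] at c1
        rw [h2] at c2
        obtain ⟨d1, d2, d3, d4, d5, d6⟩ := arA2 hn hl hm' hlm c1 c2 b2 b1 c4 c3 b3 b4 c5 c6
        exact ⟨b1, d1, d2, by rw [r1C d3 d4 d5, Bool.not_false, d6]⟩
    · rw [r1B h1 h2]
      simp only
      cases t
      · rw [Bool.not_false] at *
        obtain ⟨-, c1⟩ := gmF n l m hl hm'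
        obtain ⟨c2, c3⟩ := gmT n l l hl hl
        obtain ⟨c4, c5⟩ := gmT n l _ hl c2
        obtain ⟨c6, c7⟩ := gmF n l l hl hl
        rw [h1] at c1
        obtain ⟨d1, d2, d3, d4⟩ := arB1 hl hm' hlm c1 c2 c3 h2 c4 c5 c6 c7
        exact ⟨c2, h2, d1, by rw [r1B d2 (by rw [Bool.not_true]; exact d3), Bool.not_true, d4]⟩
      · rw [Bool.not_true] at *
        obtain ⟨-, c1⟩ := gmT n l m hl hm'
        obtain ⟨c2, c3⟩ := gmF n l l hl hl
        obtain ⟨c4, c5⟩ := gmF n l _ hl c2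
        obtain ⟨c6, c7⟩ := gmT n l l hl hl
        rw [h1] at c1
        obtain ⟨d1, d2, d3, d4⟩ := arB2 hl hm' hlm c1 c2 c3 h2 c4 c5 c6 c7
        exact ⟨c2, h2, d1, by rw [r1B d2 (by rw [Bool.not_false]; exact d3), Bool.not_false, d4]⟩
  · by_cases h2 : gm n l m t = m
    · obtain ⟨b1, b2⟩ := hms n m hm'
      by_cases h3 : hm n m = l
      · rw [r1C h1 h2 h3]
        simp only
        rw [h3] at b2
        obtain ⟨b3, b4⟩ := hms n l hl
        cases t
        · rw [Bool.not_false] at *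
          obtain ⟨-, c1⟩ := gmF n l m hl hm'
          obtain ⟨c2, c3⟩ := gmT n l l hl hl
          obtain ⟨c4, c5⟩ := gmT n l _ hl c2
          obtain ⟨c6, c7⟩ := gmF n l l hl hl
          rw [h2] at c1
          obtain ⟨d1, d2, d3, d4, d5⟩ := arC1 hn hl hm' hlm c1 b2 c2 c3 c4 c5 c6 c7 b3 b4
          exact ⟨c2, d1, d2, by rw [r1A d3 (by rw [Bool.not_true]; exact d4), Bool.not_true, d5]⟩
        · rw [Bool.not_true] at *
          obtain ⟨-, c1⟩ := gmT n l m hl hm'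
          obtain ⟨c2, c3⟩ := gmF n l l hl hl
          obtain ⟨c4, c5⟩ := gmF n l _ hl c2
          obtain ⟨c6, c7⟩ := gmT n l l hl hl
          rw [h2] at c1
          obtain ⟨d1, d2, d3, d4, d5⟩ := arC2 hn hl hm' hlm c1 b2 c2 c3 c4 c5 c6 c7 b3 b4
          exact ⟨c2, d1, d2, by rw [r1A d3 (by rw [Bool.not_false]; exact d4), Bool.not_false, d5]⟩
      · rw [r1D h1 h2 h3]
        simp only
        obtain ⟨b3, b4⟩ := hms n _ b1
        cases t
        · obtain ⟨-, c1⟩ := gmF n l m hl hm'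
          obtain ⟨c4, c5⟩ := gmF n l _ hl b1
          rw [h2] at c1
          obtain ⟨d1, d2, d3, d4, d5⟩ := arD1 hl hm' hlm c1 b1 b2 h3 c4 c5 b3 b4
          exact ⟨b1, h3, d1, by rw [r1D d2 d3 d4, d5]⟩
        · obtain ⟨-, c1⟩ := gmT n l m hl hm'
          obtain ⟨c4, c5⟩ := gmT n l _ hl b1
          rw [h2] at c1
          obtain ⟨d1, d2, d3, d4, d5⟩ := arD2 hl hm' hlm c1 b1 b2 h3 c4 c5 b3 b4
          exact ⟨b1, h3, d1, by rw [r1D d2 d3 d4, d5]⟩
    · rw [r1E h1 h2]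
      simp only
      cases t
      · obtain ⟨c1, c2⟩ := gmF n l m hl hm'
        obtain ⟨c4, c5⟩ := gmF n l _ hl c1
        have d : gm n l (gm n l m false) false = m := by omega
        exact ⟨c1, h1, h2, by rw [r1E (by rw [d]; exact hlm.symm) (by rw [d]; exact fun h => h2 h.symm), d]⟩
      · obtain ⟨c1, c2⟩ := gmT n l m hl hm'
        obtain ⟨c4, c5⟩ := gmT n l _ hl c1
        have d : gm n l (gm n l m true) true = m := by omega
        exact ⟨c1, h1, h2, by rw [r1E (by rw [d]; exact hlm.symm) (by rw [d]; exact fun h => h2 h.symm), d]⟩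

theorem sgn_add_self (n x : ℕ) : sgn n x + sgn n x = 0 := by
  funext i
  exact CharTwo.add_self_eq_zero _

theorem s_abb (n : ℕ) (a b c d : ℕ) (h1 : b = c) (h2 : a = d) :
    sgn n a + sgn n b + sgn n c = sgn n d := by
  rw [h1, h2, add_assoc, sgn_add_self, add_zero]

theorem s_aba (n : ℕ) (a b c d : ℕ) (h1 : a = c) (h2 : b = d) :
    sgn n a + sgn n b + sgn n c = sgn n d := by
  rw [h1, h2, add_comm (sgn n c), add_assoc, sgn_add_self, add_zero]

theorem gm_comm (n l m : ℕ) (t : Bool) : gm n l m t = gm n m l t := by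
  unfold gm
  rw [Nat.add_comm l m]
  have h1 : 2 * n - 1 - l - m = 2 * n - 1 - m - l := by omega
  have h2 : 4 * n - 1 - l - m = 4 * n - 1 - m - l := by omega
  have h3 : 2 * n - l - m = 2 * n - m - l := by omega
  have h4 : 4 * n - l - m = 4 * n - m - l := by omega
  rw [h1, h2, h3, h4]

theorem vlab_comm (n l m : ℕ) (t : Bool) : vlab n l m t = vlab n m l t := by
  unfold vlab
  rw [gm_comm n l m, add_comm (sgn n l), add_comm (sgn n (pm n l))]

theorem vlabT (n l m : ℕ) : vlab n l m true = sgn n l + sgn n m + sgn n (gm n l m true) := rfl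

theorem vlabF (n l m : ℕ) :
    vlab n l m false = sgn n (pm n l) + sgn n (pm n m) + sgn n (gm n l m true) := rfl

theorem vlab_r1 (n l m : ℕ) (t : Bool) (hn : 2 ≤ n) (hl : l < 2 * n) (hm' : m < 2 * n)
    (hlm : l ≠ m) : vlab n l (r1 n l m t).1 (r1 n l m t).2 = vlab n l m t := by
  obtain ⟨q1, q2⟩ := pms n l hl
  obtain ⟨q3, q4⟩ := pms n m hm'
  obtain ⟨g1, g2⟩ := gmT n l m hl hm'
  by_cases h1 : gm n l m t = l
  · by_cases h2 : gm n l l (!t) = l
    · rw [r1A h1 h2]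
      simp only
      obtain ⟨b1, b2⟩ := hms n l hl
      obtain ⟨c3, c4⟩ := gmT n l (hm n l) hl b1
      cases t
      · rw [Bool.not_false] at *
        obtain ⟨-, c1⟩ := gmF n l m hl hm'
        obtain ⟨-, c2⟩ := gmT n l l hl hl
        rw [h1] at c1
        rw [h2] at c2
        rw [vlabT, vlabF, s_abb n l (hm n l) _ l (by omega) rfl,
          s_aba n (pm n l) (pm n m) _ l (by omega) (by omega)]
      · rw [Bool.not_true] at *
        obtain ⟨-, c2⟩ := gmF n l l hl hl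
        obtain ⟨q5, q6⟩ := pms n (hm n l) b1
        rw [h1] at g2
        rw [h2] at c2
        rw [vlabT, vlabF, s_abb n (pm n l) _ _ (pm n l) (by omega) rfl,
          s_aba n l m _ (pm n l) (by omega) (by omega)]
    · rw [r1B h1 h2]
      simp only
      cases t
      · rw [Bool.not_false] at *
        obtain ⟨-, c1⟩ := gmF n l m hl hm'
        obtain ⟨c2, c3⟩ := gmT n l l hl hl
        obtain ⟨c4, c5⟩ := gmT n l _ hl c2
        rw [h1] at c1
        rw [vlabT, vlabF, s_aba n l (gm n l l true) _ (gm n l l true) (by omega) rfl,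
          s_aba n (pm n l) (pm n m) _ (gm n l l true) (by omega) (by omega)]
      · rw [Bool.not_true] at *
        obtain ⟨c2, c3⟩ := gmF n l l hl hl
        obtain ⟨c4, c5⟩ := gmT n l _ hl c2
        obtain ⟨q5, q6⟩ := pms n _ c2
        rw [h1] at g2
        rw [vlabT, vlabF, s_aba n (pm n l) _ _ m (by omega) (by omega),
          s_aba n l m _ m (by omega) rfl]
  · by_cases h2 : gm n l m t = m
    · obtain ⟨b1, b2⟩ := hms n m hm'
      by_cases h3 : hm n m = l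
      · rw [r1C h1 h2 h3]
        simp only
        rw [h3] at b2
        cases t
        · rw [Bool.not_false] at *
          obtain ⟨-, c1⟩ := gmF n l m hl hm'
          obtain ⟨c2, c3⟩ := gmT n l l hl hl
          obtain ⟨c4, c5⟩ := gmT n l _ hl c2
          rw [h2] at c1
          rw [vlabT, vlabF, s_aba n l (gm n l l true) _ (gm n l l true) (by omega) rfl,
            s_abb n (pm n l) (pm n m) _ (gm n l l true) (by omega) (by omega)]
        · rw [Bool.not_true] at *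
          obtain ⟨c2, c3⟩ := gmF n l l hl hl
          obtain ⟨c4, c5⟩ := gmT n l _ hl c2
          obtain ⟨q5, q6⟩ := pms n _ c2
          rw [h2] at g2
          rw [vlabT, vlabF, s_aba n (pm n l) _ _ l (by omega) (by omega),
            s_abb n l m _ l (by omega) rfl]
      · rw [r1D h1 h2 h3]
        simp only
        obtain ⟨c4, c5⟩ := gmT n l _ hl b1
        cases t
        · obtain ⟨-, c1⟩ := gmF n l m hl hm'
          obtain ⟨q5, q6⟩ := pms n _ b1
          rw [h2] at c1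
          rw [vlabF, vlabF, s_abb n (pm n l) _ _ (pm n l) (by omega) rfl,
            s_abb n (pm n l) (pm n m) _ (pm n l) (by omega) rfl]
        · rw [h2] at g2
          rw [vlabT, vlabT, s_abb n l (hm n m) _ l (by omega) rfl,
            s_abb n l m _ l (by omega) rfl]
    · rw [r1E h1 h2]
      simp only
      cases t
      · obtain ⟨c1, c2⟩ := gmF n l m hl hm'
        obtain ⟨c4, c5⟩ := gmT n l _ hl c1
        obtain ⟨q5, q6⟩ := pms n _ c1
        have e1 : gm n l (gm n l m false) true = pm n m := by omega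
        have e2 : gm n l m true = pm n (gm n l m false) := by omega
        rw [vlabF, vlabF, e1, e2, add_right_comm]
      · obtain ⟨c4, c5⟩ := gmT n l _ hl g1
        have e1 : gm n l (gm n l m true) true = m := by omega
        rw [vlabT, vlabT, e1, add_right_comm]

end Pool.Agent.Helper226_Obs
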