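import Pool.Agent.Helper226_Obs.FP.Host
import Pool.Agent.Helper226_Obs.FP.C03

set_option autoImplicit false

namespace Pool.Agent.Helper226_Obs

open SimpleGraph

theorem aux_cast_inj (n x y : ℕ) (hx : x < 2 * n) (hy : y < 2 * n)
    (h : (x : ZMod (2 * n)) = (y : ZMod (2 * n))) : x = y := by
  have := (ZMod.natCast_eq_natCast_iff' x y (2 * n)).1 h
  rwa [Nat.mod_eq_of_lt hx, Nat.mod_eq_of_lt hy] at this

theorem aux_sg_self {M : ℕ} (x : ZMod M) : sg x x = 1 := by
  unfold sg
  exact Pi.single_eq_same x 1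

theorem aux_sg_ne {M : ℕ} (x y : ZMod M) (h : y ≠ x) : sg x y = 0 := by
  unfold sg
  exact Pi.single_eq_of_ne h 1

theorem aux_sgn_self (n x : ℕ) : sgn n x (x : ZMod (2 * n)) = 1 := aux_sg_self _

theorem aux_sgn_ne (n x y : ℕ) (hx : x < 2 * n) (hy : y < 2 * n) (h : y ≠ x) :
    sgn n x (y : ZMod (2 * n)) = 0 :=
  aux_sg_ne _ _ (fun h' => h (aux_cast_inj n y x hy hx h'))

theorem aux_dbl {M : ℕ} (a : Lab M) : a + a = 0 := by
  funext w
  exact CharTwo.add_self_eq_zero (a w)

theorem sgn_inj (n x y : ℕ) (hx : x < 2 * n) (hy : y < 2 * n) (h : sgn n x = sgn n y) :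
    x = y := by
  by_contra hne
  have h1 := congrFun h (x : ZMod (2 * n))
  rw [aux_sgn_self, aux_sgn_ne n y x hy hx hne] at h1
  exact one_ne_zero h1

/- one label as a sum of three -/
theorem aux_one (n z a b c : ℕ) (hz : z < 2 * n) (ha : a < 2 * n) (hb : b < 2 * n)
    (hc : c < 2 * n) (h : sgn n z = sgn n a + sgn n b + sgn n c) :
    (z = a ∧ b = c) ∨ (z = b ∧ a = c) ∨ (z = c ∧ a = b) := by
  have key : ∀ u v w : ℕ, v < 2 * n → w < 2 * n → sgn n u = sgn n u + sgn n v + sgn n w →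
      v = w := by
    intro u v w hv hw h'
    apply sgn_inj n v w hv hw
    have h1 : sgn n v + sgn n w = 0 := by
      have h2 : sgn n u + (sgn n v + sgn n w) = sgn n u + 0 := by
        rw [← add_assoc, ← h', add_zero]
      exact add_left_cancel h2
    have h3 : sgn n v + sgn n w + sgn n w = 0 + sgn n w := by rw [h1]
    rwa [add_assoc, aux_dbl, add_zero, zero_add] at h3
  by_cases h1 : z = a
  · subst h1
    exact Or.inl ⟨rfl, key z b c hb hc h⟩
  · by_cases h2 : z = b
    · subst h2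
      exact Or.inr (Or.inl ⟨rfl, key z a c ha hc (h.trans (by abel))⟩)
    · by_cases h3 : z = c
      · subst h3
        exact Or.inr (Or.inr ⟨rfl, key z a b ha hb (h.trans (by abel))⟩)
      · exfalso
        have h4 := congrFun h (z : ZMod (2 * n))
        rw [Pi.add_apply, Pi.add_apply, aux_sgn_self, aux_sgn_ne n a z ha hz h1,
          aux_sgn_ne n b z hb hz h2, aux_sgn_ne n c z hc hz h3] at h4
        exact one_ne_zero h4

/- two labels as a sum of two -/
theorem aux_two (n y z a b : ℕ) (hy : y < 2 * n) (hz : z < 2 * n) (ha : a < 2 * n)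
    (hb : b < 2 * n) (hyz : y ≠ z) (h : sgn n y + sgn n z = sgn n a + sgn n b) :
    (y = a ∧ z = b) ∨ (y = b ∧ z = a) := by
  by_cases h1 : y = a
  · subst h1
    exact Or.inl ⟨rfl, sgn_inj n z b hz hb (add_left_cancel h)⟩
  · by_cases h2 : y = b
    · subst h2
      rw [add_comm (sgn n a)] at h
      exact Or.inr ⟨rfl, sgn_inj n z a hz ha (add_left_cancel h)⟩
    · exfalso
      have h4 := congrFun h (y : ZMod (2 * n))
      rw [Pi.add_apply, Pi.add_apply, aux_sgn_self, aux_sgn_ne n a y ha hy h1,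
        aux_sgn_ne n b y hb hy h2, aux_sgn_ne n z y hz hy hyz] at h4
      norm_num at h4

theorem sgn3 (n x y z x' y' z' : ℕ) (hx : x < 2 * n) (hy : y < 2 * n) (hz : z < 2 * n)
    (hx' : x' < 2 * n) (hy' : y' < 2 * n) (hz' : z' < 2 * n)
    (h : sgn n x + sgn n y + sgn n z = sgn n x' + sgn n y' + sgn n z') :
    (x = x' ∧ y = y' ∧ z = z') ∨ (x = x' ∧ y = z' ∧ z = y') ∨ (x = y' ∧ y = x' ∧ z = z') ∨
    (x = y' ∧ y = z' ∧ z = x') ∨ (x = z' ∧ y = x' ∧ z = y') ∨ (x = z' ∧ y = y' ∧ z = x') ∨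
    (x = y ∧ x' = y' ∧ z = z') ∨ (x = y ∧ x' = z' ∧ z = y') ∨ (x = y ∧ y' = z' ∧ z = x') ∨
    (x = z ∧ x' = y' ∧ y = z') ∨ (x = z ∧ x' = z' ∧ y = y') ∨ (x = z ∧ y' = z' ∧ y = x') ∨
    (y = z ∧ x' = y' ∧ x = z') ∨ (y = z ∧ x' = z' ∧ x = y') ∨ (y = z ∧ y' = z' ∧ x = x') := by
  by_cases hxy : x = y
  · subst hxy
    rw [aux_dbl, zero_add] at h
    rcases aux_one n z x' y' z' hz hx' hy' hz' h with ⟨h1, h2⟩ | ⟨h1, h2⟩ | ⟨h1, h2⟩
    · subst h1; subst h2; simp
    · subst h1; subst h2; simp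
    · subst h1; subst h2; simp
  by_cases hxz : x = z
  · subst hxz
    have e : sgn n x + sgn n y + sgn n x = sgn n y := by
      rw [add_comm (sgn n x), add_assoc, aux_dbl, add_zero]
    rw [e] at h
    rcases aux_one n y x' y' z' hy hx' hy' hz' h with ⟨h1, h2⟩ | ⟨h1, h2⟩ | ⟨h1, h2⟩
    · subst h1; subst h2; simp
    · subst h1; subst h2; simp
    · subst h1; subst h2; simp
  by_cases hyz : y = z
  · subst hyz
    rw [add_assoc, aux_dbl, add_zero] at h
    rcases aux_one n x x' y' z' hx hx' hy' hz' h with ⟨h1, h2⟩ | ⟨h1, h2⟩ | ⟨h1, h2⟩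
    · subst h1; subst h2; simp
    · subst h1; subst h2; simp
    · subst h1; subst h2; simp
  by_cases h1 : x = x'
  · subst h1
    rw [add_assoc, add_assoc] at h
    rcases aux_two n y z y' z' hy hz hy' hz' hyz (add_left_cancel h) with ⟨h2, h3⟩ | ⟨h2, h3⟩
    · subst h2; subst h3; simp
    · subst h2; subst h3; simp
  by_cases h2 : x = y'
  · subst h2
    have h' : sgn n x + (sgn n y + sgn n z) = sgn n x + (sgn n x' + sgn n z') := by
      rw [← add_assoc, h]
      abel
    rcases aux_two n y z x' z' hy hz hx' hz' hyz (add_left_cancel h') with ⟨h2, h3⟩ | ⟨h2, h3⟩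
    · subst h2; subst h3; simp
    · subst h2; subst h3; simp
  by_cases h3 : x = z'
  · subst h3
    have h' : sgn n x + (sgn n y + sgn n z) = sgn n x + (sgn n x' + sgn n y') := by
      rw [← add_assoc, h]
      abel
    rcases aux_two n y z x' y' hy hz hx' hy' hyz (add_left_cancel h') with ⟨h2, h3⟩ | ⟨h2, h3⟩
    · subst h2; subst h3; simp
    · subst h2; subst h3; simp
  exfalso
  have h4 := congrFun h (x : ZMod (2 * n))
  rw [Pi.add_apply, Pi.add_apply, Pi.add_apply, Pi.add_apply, aux_sgn_self,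
    aux_sgn_ne n y x hy hx hxy, aux_sgn_ne n z x hz hx hxz,
    aux_sgn_ne n x' x hx' hx h1, aux_sgn_ne n y' x hy' hx h2, aux_sgn_ne n z' x hz' hx h3] at h4
  norm_num at h4

theorem aux_pm (n x : ℕ) (hn : 1 ≤ n) (hx : x < 2 * n) :
    ((pm n x : ℕ) : ZMod (2 * n)) = (x : ZMod (2 * n)) - 1 := by
  unfold pm
  split_ifs with h
  · rw [h, Nat.cast_sub (by omega), ZMod.natCast_self]
    simp
  · rw [Nat.cast_sub (by omega)]
    simp

theorem dln_eq (n x : ℕ) (hn : 1 ≤ n) (hx : x < 2 * n) : dln n x = dl (x : ZMod (2 * n)) := by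
  unfold dln dl sgn
  rw [aux_pm n x hn hx]

theorem dln2 (n l m l' m' : ℕ) (hn : 3 ≤ n) (hl : l < 2 * n) (hm1 : m < 2 * n) (hl' : l' < 2 * n)
    (hm' : m' < 2 * n) (hlm : l ≠ m) (h : dln n l + dln n m = dln n l' + dln n m') :
    (l = l' ∧ m = m') ∨ (l = m' ∧ m = l') := by
  have : NeZero (2 * n) := ⟨by omega⟩
  have hsum : ∀ a : ZMod (2 * n), ∑ x, sg a x • (dl x : Lab (2 * n)) = dl a := by
    intro a
    rw [Finset.sum_eq_single a]
    · rw [aux_sg_self, one_smul]
    · intro b _ hb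
      rw [aux_sg_ne a b hb, zero_smul]
    · intro ha
      exact absurd (Finset.mem_univ a) ha
  set c : ZMod (2 * n) → ZMod 2 := fun x => sgn n l x + sgn n m x + (sgn n l' x + sgn n m' x)
    with hc
  have h0 : ∑ x, c x • (dl x : Lab (2 * n)) = 0 := by
    simp only [hc, add_smul, Finset.sum_add_distrib]
    have e : ∀ a, ∑ x, sgn n a x • (dl x : Lab (2 * n)) = dl (a : ZMod (2 * n)) := fun a => hsum _
    rw [e, e, e, e, ← dln_eq n l (by omega) hl, ← dln_eq n m (by omega) hm1,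
      ← dln_eq n l' (by omega) hl', ← dln_eq n m' (by omega) hm', h, aux_dbl]
  have hconst := dl_rel (M := 2 * n) (by omega) c h0
  obtain ⟨w, hw, hw1, hw2, hw3, hw4⟩ : ∃ w : ℕ, w < 5 ∧ w ≠ l ∧ w ≠ m ∧ w ≠ l' ∧ w ≠ m' := by
    by_contra hcon
    push Not at hcon
    have g0 := hcon 0 (by norm_num)
    have g1 := hcon 1 (by norm_num)
    have g2 := hcon 2 (by norm_num)
    have g3 := hcon 3 (by norm_num)
    have g4 := hcon 4 (by norm_num)
    omega
  have hcw : c (w : ZMod (2 * n)) = 0 := by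
    simp only [hc]
    rw [aux_sgn_ne n l w hl (by omega) hw1, aux_sgn_ne n m w hm1 (by omega) hw2,
      aux_sgn_ne n l' w hl' (by omega) hw3, aux_sgn_ne n m' w hm' (by omega) hw4]
    norm_num
  have hz : (sgn n l + sgn n m) + (sgn n l' + sgn n m') = 0 := by
    funext x
    exact (hconst x w).trans hcw
  have hz' : sgn n l + sgn n m = sgn n l' + sgn n m' := by
    have h3 : (sgn n l + sgn n m) + (sgn n l' + sgn n m') + (sgn n l' + sgn n m') =
        0 + (sgn n l' + sgn n m') := by rw [hz]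
    rwa [add_assoc, aux_dbl, add_zero, zero_add] at h3
  exact aux_two n l m l' m' hl hm1 hl' hm' hlm hz'

theorem lab0 (n : ℕ) (e : Ed n) (t u : Bool) :
    vt0 n (e, t) + fc0 n (e, u) = dln n (if t = u then ea e else eb e) := by
  have key : ∀ a b c d : Lab (2 * n), (a + c + d) + (b + c + d) = a + b := by
    intro a b c d
    have e1 : (a + c + d) + (b + c + d) = (a + b) + (c + c) + (d + d) := by abel
    rw [e1, aux_dbl, aux_dbl, add_zero, add_zero]
  unfold vt0 fc0 vlab dln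
  cases t <;> cases u
  · have := key (sgn n (pm n (ea e))) (sgn n (ea e)) (sgn n (pm n (eb e)))
      (sgn n (gm n (ea e) (eb e) true))
    simp only [Bool.false_eq_true, if_false, if_true]
    rw [this, add_comm]
  · have := key (sgn n (pm n (eb e))) (sgn n (eb e)) (sgn n (pm n (ea e)))
      (sgn n (gm n (ea e) (eb e) true))
    simp only [Bool.false_eq_true, if_false, if_true]
    rw [add_comm (sgn n (pm n (ea e))) (sgn n (pm n (eb e))),
      add_comm (sgn n (pm n (ea e))) (sgn n (eb e)), this, add_comm]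
  · have := key (sgn n (eb e)) (sgn n (pm n (eb e))) (sgn n (ea e))
      (sgn n (gm n (ea e) (eb e) true))
    simp only [Bool.true_eq_false, if_false, if_true, Bool.false_eq_true]
    rw [add_comm (sgn n (ea e)) (sgn n (eb e)),
      add_comm (sgn n (ea e)) (sgn n (pm n (eb e))), this]
  · have := key (sgn n (ea e)) (sgn n (pm n (ea e))) (sgn n (eb e))
      (sgn n (gm n (ea e) (eb e) true))
    simp only [if_true]
    rw [this]

end Pool.Agent.Helper226_Obs
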