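import Pool.Agent.Helper226_Obs.FP.D01

set_option autoImplicit false

namespace Pool.Agent.Helper226_Obs

open SimpleGraph

theorem fl_fln_lt {n : ℕ} (x : Ed n × Bool × Bool) : fln x < 2 * n := by
  unfold fln ea eb
  split_ifs
  · exact x.1.1.1.2
  · exact x.1.1.2.2

theorem fl_flo_lt {n : ℕ} (x : Ed n × Bool × Bool) : flo x < 2 * n := by
  unfold flo ea eb
  split_ifs
  · exact x.1.1.2.2
  · exact x.1.1.1.2

theorem ea_lt_eb {n : ℕ} (e : Ed n) : ea e < eb e := e.2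

theorem fl_ne {n : ℕ} (x : Ed n × Bool × Bool) : fln x ≠ flo x := by
  have h := ea_lt_eb x.1
  unfold fln flo
  split_ifs
  · omega
  · omega

theorem fl_sum {n : ℕ} (x : Ed n × Bool × Bool) : fln x + flo x = ea x.1 + eb x.1 := by
  unfold fln flo
  split_ifs
  · rfl
  · omega

/-- The flag with given line, other line and end. -/
def mkf (n l m : ℕ) (hl : l < 2 * n) (hm : m < 2 * n) (h : l ≠ m) (t : Bool) :
    Ed n × Bool × Bool :=
  if hlm : l < m then (⟨(⟨l, hl⟩, ⟨m, hm⟩), hlm⟩, t, t)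
  else (⟨(⟨m, hm⟩, ⟨l, hl⟩), by
    have : m < l := by omega
    exact this⟩, t, !t)

theorem mkf_t (n l m : ℕ) (hl : l < 2 * n) (hm : m < 2 * n) (h : l ≠ m) (t : Bool) :
    (mkf n l m hl hm h t).2.1 = t := by
  unfold mkf
  split_ifs <;> rfl

theorem mkf_ln (n l m : ℕ) (hl : l < 2 * n) (hm : m < 2 * n) (h : l ≠ m) (t : Bool) :
    fln (mkf n l m hl hm h t) = l := by
  unfold mkf
  split_ifs with h1
  · simp [fln, ea]
  · cases t <;> simp [fln, eb]

theorem mkf_lo (n l m : ℕ) (hl : l < 2 * n) (hm : m < 2 * n) (h : l ≠ m) (t : Bool) :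
    flo (mkf n l m hl hm h t) = m := by
  unfold mkf
  split_ifs with h1
  · simp [flo, eb]
  · cases t <;> simp [flo, ea]

theorem mkf_eta {n : ℕ} (x : Ed n × Bool × Bool) (hl : fln x < 2 * n) (hm : flo x < 2 * n)
    (h : fln x ≠ flo x) : mkf n (fln x) (flo x) hl hm h x.2.1 = x := by
  obtain ⟨⟨⟨a, b⟩, hab⟩, t, u⟩ := x
  have hab' : (a : ℕ) < (b : ℕ) := hab
  by_cases htu : t = u
  · subst htu
    have h1 : fln (n := n) (⟨(a, b), hab⟩, t, t) = a := by simp [fln, ea]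
    have h2 : flo (n := n) (⟨(a, b), hab⟩, t, t) = b := by simp [flo, eb]
    unfold mkf
    rw [dif_pos (by rw [h1, h2]; exact hab')]
    simp only [Prod.mk.injEq, Subtype.mk.injEq, and_true]
    refine ⟨Fin.ext h1, Fin.ext h2⟩
  · have h1 : fln (n := n) (⟨(a, b), hab⟩, t, u) = b := by simp [fln, eb, htu]
    have h2 : flo (n := n) (⟨(a, b), hab⟩, t, u) = a := by simp [flo, ea, htu]
    unfold mkf
    rw [dif_neg (by rw [h1, h2]; omega)]
    simp only [Prod.mk.injEq, Subtype.mk.injEq]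
    refine ⟨⟨Fin.ext h2, Fin.ext h1⟩, ?_⟩
    cases t <;> cases u <;> simp_all

theorem mkf_congr {n l m l' m' : ℕ} {t t' : Bool} (hl : l < 2 * n) (hm : m < 2 * n)
    (h : l ≠ m) (hl' : l' < 2 * n) (hm' : m' < 2 * n) (h' : l' ≠ m') (e1 : l = l') (e2 : m = m')
    (e3 : t = t') : mkf n l m hl hm h t = mkf n l' m' hl' hm' h' t' := by
  subst e1 e2 e3
  rfl

theorem host_r (n : ℕ) (hn : 2 ≤ n) :
    ∃ r : Equiv.Perm (Ed n × Bool × Bool), (∀ x, r (r x) = x) ∧ (∀ x, (r x).1 ≠ x.1) ∧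
      (∀ x, fln (r x) = fln x) ∧
      ∀ x, (flo (r x), (r x).2.1) = r1 n (fln x) (flo x) x.2.1 := by
  have sp := fun x : Ed n × Bool × Bool => r1_spec n (fln x) (flo x) x.2.1 hn (fl_fln_lt x)
    (fl_flo_lt x) (fl_ne x)
  let f : Ed n × Bool × Bool → Ed n × Bool × Bool := fun x =>
    mkf n (fln x) (r1 n (fln x) (flo x) x.2.1).1 (fl_fln_lt x) (sp x).1 (sp x).2.1.symm
      (r1 n (fln x) (flo x) x.2.1).2
  have f1 : ∀ x, fln (f x) = fln x := fun x => mkf_ln _ _ _ _ _ _ _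
  have f2 : ∀ x, flo (f x) = (r1 n (fln x) (flo x) x.2.1).1 := fun x => mkf_lo _ _ _ _ _ _ _
  have f3 : ∀ x, (f x).2.1 = (r1 n (fln x) (flo x) x.2.1).2 := fun x => mkf_t _ _ _ _ _ _ _
  have ff : ∀ x, f (f x) = x := by
    intro x
    have h4 : r1 n (fln (f x)) (flo (f x)) (f x).2.1 = (flo x, x.2.1) := by
      rw [f1, f2, f3]
      exact (sp x).2.2.2
    have h5 : f (f x) = mkf n (fln x) (flo x) (fl_fln_lt x) (fl_flo_lt x) (fl_ne x) x.2.1 := by
      refine mkf_congr _ _ _ _ _ _ (f1 x) ?_ ?_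
      · rw [h4]
      · rw [h4]
    rw [h5, mkf_eta]
  refine ⟨⟨f, f, ff, ff⟩, ff, ?_, f1, ?_⟩
  · intro x hx
    have hx' : (f x).1 = x.1 := hx
    have h6 := fl_sum (f x)
    have h7 := fl_sum x
    rw [hx', f1] at h6
    have h8 : flo (f x) = flo x := by omega
    rw [f2] at h8
    exact (sp x).2.2.1 h8
  · intro x
    exact Prod.ext (f2 x) (f3 x)

end Pool.Agent.Helper226_Obs
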