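import Pool.Agent.Helper226_Obs.FP.D02
import Pool.Agent.Helper226_Obs.FP.D01

set_option autoImplicit false

namespace Pool.Agent.Helper226_Obs

open SimpleGraph

theorem jp_gm_lt (n l m : ℕ) (t : Bool) (hl : l < 2 * n) (hm' : m < 2 * n) :
    gm n l m t < 2 * n := by
  unfold gm
  split_ifs <;> omega

theorem jp_gm_comm (n l m : ℕ) (t : Bool) : gm n l m t = gm n m l t := by
  unfold gm
  rw [add_comm m l]
  split_ifs <;> omega

theorem jp_gt (n l m : ℕ) (hl : l < 2 * n) (hm' : m < 2 * n) :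
    gm n l m true < 2 * n ∧
      (l + m + gm n l m true + 1 = 2 * n ∨ l + m + gm n l m true + 1 = 4 * n) := by
  simp only [gm, if_true]
  split_ifs <;> omega

theorem jp_gf (n l m : ℕ) (hl : l < 2 * n) (hm' : m < 2 * n) :
    gm n l m false < 2 * n ∧
      ((l = 0 ∧ m = 0 ∧ gm n l m false = 0) ∨ l + m + gm n l m false = 2 * n ∨
        l + m + gm n l m false = 4 * n) := by
  simp only [gm, Bool.false_eq_true, if_false]
  split_ifs <;> omega

theorem jp_pms (n m : ℕ) (hm' : m < 2 * n) :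
    pm n m < 2 * n ∧ ((m = 0 ∧ pm n m + 1 = 2 * n) ∨ pm n m + 1 = m) := by
  unfold pm
  split_ifs <;> omega

theorem jp_hms (n m : ℕ) (hm' : m < 2 * n) :
    hm n m < 2 * n ∧ (hm n m = m + n ∨ hm n m + n = m) := by
  unfold hm
  split_ifs <;> omega

/-- the values of the second end of a nondegenerate flag -/
theorem jp_r1_nd (n l m : ℕ) (t : Bool) (h1 : gm n l m t ≠ l) (h2 : gm n l m t ≠ m) :
    r1 n l m t = (gm n l m t, t) := by
  unfold r1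
  rw [if_neg h1, if_neg h2]

theorem jp_r1_d1 (n l m : ℕ) (t : Bool) (hlm : l ≠ m) (h1 : gm n l m t = l)
    (h2 : hm n l ≠ m) : r1 n m l t = (hm n l, t) := by
  unfold r1
  rw [jp_gm_comm n m l t, h1, if_neg hlm, if_pos rfl, if_neg h2]

theorem jp_r1_d2 (n l m : ℕ) (h1 : gm n l m true = l) (h2 : gm n l l false ≠ l) :
    r1 n l m true = (gm n l l false, false) := by
  unfold r1
  rw [if_pos h1]
  simp [h2]

theorem jp_r1_d3 (n l m : ℕ) (h1 : gm n l m true = l) (h2 : gm n l l false = l) :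
    r1 n l m true = (hm n l, false) := by
  unfold r1
  rw [if_pos h1]
  simp [h2]

/-- what a flag function satisfies -/
structure JPW (n : ℕ) (W : ℕ → ℕ → Bool → ZMod 2) : Prop where
  hs : ∀ l m t, l < 2 * n → m < 2 * n → l ≠ m → W l m t = W m l t
  hr : ∀ l m t, l < 2 * n → m < 2 * n → l ≠ m → W l (r1 n l m t).1 (r1 n l m t).2 = W l m t

theorem jp_nd (n : ℕ) (hn : 3 ≤ n) (W : ℕ → ℕ → Bool → ZMod 2) (hW : JPW n W) (l m : ℕ)
    (t : Bool) (hl : l < 2 * n) (hm' : m < 2 * n) (hlm : l ≠ m) (h1 : gm n l m t ≠ l)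
    (h2 : gm n l m t ≠ m) (l' m' : ℕ)
    (hl' : l' = l ∨ l' = m ∨ l' = gm n l m t) (hm'' : m' = l ∨ m' = m ∨ m' = gm n l m t)
    (hlm' : l' ≠ m') : W l m t = W l' m' t := by
  have hc : gm n l m t < 2 * n := jp_gm_lt n l m t hl hm'
  have e1 : W l (gm n l m t) t = W l m t := by
    have := hW.hr l m t hl hm' hlm
    rwa [jp_r1_nd n l m t h1 h2] at this
  have e2 : W m (gm n l m t) t = W m l t := by
    have := hW.hr m l t hm' hl hlm.symm
    rwa [jp_r1_nd n m l t (by rwa [jp_gm_comm n m l t]) (by rwa [jp_gm_comm n m l t]),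
      jp_gm_comm n m l t] at this
  have e3 := hW.hs l m t hl hm' hlm
  have e4 := hW.hs l (gm n l m t) t hl hc h1.symm
  have e5 := hW.hs m (gm n l m t) t hm' hc h2.symm
  generalize gm n l m t = c at *
  rcases hl' with rfl | rfl | rfl <;> rcases hm'' with rfl | rfl | rfl
  · exact absurd rfl hlm'
  · rfl
  · exact e1.symm
  · exact e3
  · exact absurd rfl hlm'
  · rw [e2, e3]
  · rw [← e4, e1]
  · rw [← e5, e2, e3]
  · exact absurd rfl hlm'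

theorem jp_vlab_t (n l m : ℕ) : vlab n l m true = sgn n l + sgn n m + sgn n (gm n l m true) := rfl

theorem jp_vlab_f (n l m : ℕ) :
    vlab n l m false = sgn n (pm n l) + sgn n (pm n m) + sgn n (gm n l m true) := rfl

theorem jp_pm_lt (n m : ℕ) (hn : 1 ≤ n) (hm' : m < 2 * n) : pm n m < 2 * n := by
  unfold pm
  split_ifs <;> omega

theorem jp_pm_inj (n x y : ℕ) (hx : x < 2 * n) (hy : y < 2 * n) : pm n x = pm n y ↔ x = y := by
  constructor
  · intro h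
    unfold pm at h
    split_ifs at h <;> omega
  · intro h
    rw [h]

theorem jp_gt_eq (n l m : ℕ) (hl : l < 2 * n) (hm' : m < 2 * n) :
    gm n l m true = pm n (gm n l m false) := by
  simp only [gm, pm, if_true, Bool.false_eq_true, if_false]
  split_ifs <;> omega

theorem jp_sumf (n l m : ℕ) (hl : l < 2 * n) (hm' : m < 2 * n) :
    pm n l + pm n m + gm n l m true + 3 = 2 * n ∨ pm n l + pm n m + gm n l m true + 3 = 4 * n ∨
      pm n l + pm n m + gm n l m true + 3 = 6 * n := by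
  simp only [gm, pm, if_true]
  split_ifs <;> omega

/-- the list of cases of `sgn3` -/
def JP15 (x y z x' y' z' : ℕ) : Prop :=
    (x = x' ∧ y = y' ∧ z = z') ∨ (x = x' ∧ y = z' ∧ z = y') ∨ (x = y' ∧ y = x' ∧ z = z') ∨
    (x = y' ∧ y = z' ∧ z = x') ∨ (x = z' ∧ y = x' ∧ z = y') ∨ (x = z' ∧ y = y' ∧ z = x') ∨
    (x = y ∧ x' = y' ∧ z = z') ∨ (x = y ∧ x' = z' ∧ z = y') ∨ (x = y ∧ y' = z' ∧ z = x') ∨
    (x = z ∧ x' = y' ∧ y = z') ∨ (x = z ∧ x' = z' ∧ y = y') ∨ (x = z ∧ y' = z' ∧ y = x') ∨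
    (y = z ∧ x' = y' ∧ x = z') ∨ (y = z ∧ x' = z' ∧ x = y') ∨ (y = z ∧ y' = z' ∧ x = x')

theorem jp_pure (x y z x' y' z' : ℕ) (hxy : x ≠ y) (hxz : z ≠ x) (hyz : z ≠ y)
    (h : JP15 x y z x' y' z') :
    x + y + z = x' + y' + z' ∧ (x' = x ∨ x' = y ∨ x' = z) ∧ (y' = x ∨ y' = y ∨ y' = z) := by
  rcases h with ⟨e1, e2, e3⟩ | ⟨e1, e2, e3⟩ | ⟨e1, e2, e3⟩ | ⟨e1, e2, e3⟩ | ⟨e1, e2, e3⟩ |
    ⟨e1, e2, e3⟩ | ⟨e1, e2, e3⟩ | ⟨e1, e2, e3⟩ | ⟨e1, e2, e3⟩ | ⟨e1, e2, e3⟩ | ⟨e1, e2, e3⟩ |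
    ⟨e1, e2, e3⟩ | ⟨e1, e2, e3⟩ | ⟨e1, e2, e3⟩ | ⟨e1, e2, e3⟩
  all_goals first | (exact absurd e1 hxy) | (exact absurd e1.symm hxz) |
    (exact absurd e1.symm hyz) | (subst e1 e2 e3; refine ⟨by ring, by simp, by simp⟩)

theorem jp_pure2 (x y x' y' : ℕ) (hxy : x ≠ y) (hxy' : x' ≠ y')
    (h : JP15 x y x x' y' x') : y = y' := by
  rcases h with ⟨e1, e2, e3⟩ | ⟨e1, e2, e3⟩ | ⟨e1, e2, e3⟩ | ⟨e1, e2, e3⟩ | ⟨e1, e2, e3⟩ |
    ⟨e1, e2, e3⟩ | ⟨e1, e2, e3⟩ | ⟨e1, e2, e3⟩ | ⟨e1, e2, e3⟩ | ⟨e1, e2, e3⟩ | ⟨e1, e2, e3⟩ |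
    ⟨e1, e2, e3⟩ | ⟨e1, e2, e3⟩ | ⟨e1, e2, e3⟩ | ⟨e1, e2, e3⟩
  all_goals omega

/-- the residues of a nondegenerate label determine the flag -/
theorem jp_nd_lab (n : ℕ) (hn : 3 ≤ n) (l m : ℕ) (t : Bool) (hl : l < 2 * n) (hm' : m < 2 * n)
    (hlm : l ≠ m) (h1 : gm n l m t ≠ l) (h2 : gm n l m t ≠ m) (l' m' : ℕ) (t' : Bool)
    (hl' : l' < 2 * n) (hm'' : m' < 2 * n) (hlm' : l' ≠ m')
    (h : vlab n l m t = vlab n l' m' t') :
    t' = t ∧ (l' = l ∨ l' = m ∨ l' = gm n l m t) ∧ (m' = l ∨ m' = m ∨ m' = gm n l m t) := by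
  obtain ⟨a1, a2⟩ := jp_gt n l m hl hm'
  obtain ⟨a3, a4⟩ := jp_gt n l' m' hl' hm''
  have b1 := (jp_gf n l m hl hm').1
  have b3 := (jp_gf n l' m' hl' hm'').1
  have c1 := (jp_pms n l hl).1
  have c3 := (jp_pms n m hm').1
  have c5 := (jp_pms n l' hl').1
  have c7 := (jp_pms n m' hm'').1
  have s1 := jp_sumf n l m hl hm'
  have s2 := jp_sumf n l' m' hl' hm''
  cases t <;> cases t'
  · rw [jp_vlab_f, jp_vlab_f] at h
    have h3 : JP15 _ _ _ _ _ _ := sgn3 n _ _ _ _ _ _ c1 c3 a1 c5 c7 a3 h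
    refine ⟨rfl, ?_⟩
    rw [jp_gt_eq n l m hl hm', jp_gt_eq n l' m' hl' hm''] at h3
    have h4 := jp_pure _ _ _ _ _ _ (fun e => hlm ((jp_pm_inj n l m hl hm').1 e))
      (fun e => h1 ((jp_pm_inj n _ l b1 hl).1 e)) (fun e => h2 ((jp_pm_inj n _ m b1 hm').1 e)) h3
    rw [jp_pm_inj n l' l hl' hl, jp_pm_inj n l' m hl' hm', jp_pm_inj n l' _ hl' b1,
      jp_pm_inj n m' l hm'' hl, jp_pm_inj n m' m hm'' hm', jp_pm_inj n m' _ hm'' b1] at h4
    exact h4.2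
  · rw [jp_vlab_f, jp_vlab_t] at h
    have h3 : JP15 _ _ _ _ _ _ := sgn3 n _ _ _ _ _ _ c1 c3 a1 hl' hm'' a3 h
    exfalso
    have e1 := jp_gt_eq n l m hl hm'
    have h4 := (jp_pure _ _ _ _ _ _ (fun e => hlm ((jp_pm_inj n l m hl hm').1 e))
      (fun e => h1 ((jp_pm_inj n _ l b1 hl).1 (by rw [← e1]; exact e)))
      (fun e => h2 ((jp_pm_inj n _ m b1 hm').1 (by rw [← e1]; exact e))) h3).1
    rw [h4] at s1
    clear h3 h4 s2 a2 e1 h1 h2
    omega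
  · rw [jp_vlab_t, jp_vlab_f] at h
    have h3 : JP15 _ _ _ _ _ _ := sgn3 n _ _ _ _ _ _ hl hm' a1 c5 c7 a3 h
    exfalso
    have h4 := (jp_pure _ _ _ _ _ _ hlm h1 h2 h3).1
    rw [h4] at a2
    clear h3 h4 s1 a4 h1 h2
    omega
  · rw [jp_vlab_t, jp_vlab_t] at h
    have h3 : JP15 _ _ _ _ _ _ := sgn3 n _ _ _ _ _ _ hl hm' a1 hl' hm'' a3 h
    exact ⟨rfl, (jp_pure _ _ _ _ _ _ hlm h1 h2 h3).2⟩

/-- degenerate flags with equal labels -/
theorem jp_deg (n : ℕ) (hn : 3 ≤ n) (W : ℕ → ℕ → Bool → ZMod 2) (hW : JPW n W) (l m : ℕ)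
    (t : Bool) (hl : l < 2 * n) (hm' : m < 2 * n) (hlm : l ≠ m) (h1 : gm n l m t = l)
    (l' m' : ℕ) (t' : Bool) (hl' : l' < 2 * n) (hm'' : m' < 2 * n) (hlm' : l' ≠ m')
    (h1' : gm n l' m' t' = l')
    (h : vlab n l m t = vlab n l' m' t') : W l m t = W l' m' t' := by
  -- the same second line and the same sign
  have E1 : ∀ (l m : ℕ) (t : Bool), l < 2 * n → m < 2 * n → l ≠ m → gm n l m t = l →
      ∀ l' : ℕ, l' = l ∨ l' = hm n l → l' ≠ m → W l m t = W l' m t := by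
    intro l m t hl hm' hlm h1 l' h2 h3
    rcases h2 with rfl | rfl
    · rfl
    · have e1 := hW.hr m l t hm' hl hlm.symm
      rw [jp_r1_d1 n l m t hlm h1 h3] at e1
      rw [hW.hs l m t hl hm' hlm, hW.hs (hm n l) m t (jp_hms n l hl).1 hm' h3]
      exact e1.symm
  -- opposite signs
  have E2 : ∀ l m l' m' : ℕ, l < 2 * n → m < 2 * n → l ≠ m → gm n l m true = l →
      l' < 2 * n → m' < 2 * n → l' ≠ m' → gm n l' m' false = l' → m = pm n m' →
      W l m true = W l' m' false := by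
    intro l m l' m' hl hm' hlm h1 hl' hm'' hlm' h1' h2
    obtain ⟨a1, a2⟩ := jp_gt n l m hl hm'
    obtain ⟨b3, b4⟩ := jp_gf n l' m' hl' hm''
    obtain ⟨c7, c8⟩ := jp_pms n m' hm''
    obtain ⟨d1, d2⟩ := jp_hms n l hl
    obtain ⟨f1, f2⟩ := jp_gf n l l hl hl
    rw [h1] at a2
    rw [h1'] at b4
    rw [← h2] at c8
    have h3 : l' = l ∨ l' = hm n l := by omega
    have h4 : gm n l l false = m' := by omega
    by_cases h5 : m' = l
    · have e1 := hW.hr l m true hl hm' hlm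
      rw [jp_r1_d3 n l m h1 (h4.trans h5)] at e1
      have h6 : l' = hm n l := by
        rcases h3 with h3 | h3
        · exact absurd (h3.trans h5.symm) hlm'
        · exact h3
      rw [← e1, hW.hs l (hm n l) false hl d1 (by rw [← h6, ← h5]; exact hlm'.symm)]
      rw [h6, h5]
    · have e1 := hW.hr l m true hl hm' hlm
      rw [jp_r1_d2 n l m h1 (by rw [h4]; exact h5), h4] at e1
      rw [← e1]
      have h7 : gm n l m' false = l := by
        obtain ⟨g1, g2⟩ := jp_gf n l m' hl hm''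
        omega
      exact E1 l m' false hl hm'' (fun h => h5 h.symm) h7 l' h3 hlm'
  obtain ⟨a1, a2⟩ := jp_gt n l m hl hm'
  obtain ⟨a3, a4⟩ := jp_gt n l' m' hl' hm''
  obtain ⟨b1, b2⟩ := jp_gf n l m hl hm'
  obtain ⟨b3, b4⟩ := jp_gf n l' m' hl' hm''
  have c1 := (jp_pms n l hl).1
  have c3 := (jp_pms n m hm').1
  have c5 := (jp_pms n l' hl').1
  have c7 := (jp_pms n m' hm'').1
  obtain ⟨d1, d2⟩ := jp_hms n l hl
  have e1 := jp_gt_eq n l m hl hm'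
  have e2 := jp_gt_eq n l' m' hl' hm''
  cases t <;> cases t'
  · rw [jp_vlab_f, jp_vlab_f] at h
    have h3 : JP15 _ _ _ _ _ _ := sgn3 n _ _ _ _ _ _ c1 c3 a1 c5 c7 a3 h
    rw [e1, e2, h1, h1'] at h3
    have h4 : m = m' := (jp_pm_inj n m m' hm' hm'').1 (jp_pure2 _ _ _ _
      (fun e => hlm ((jp_pm_inj n l m hl hm').1 e))
      (fun e => hlm' ((jp_pm_inj n l' m' hl' hm'').1 e)) h3)
    rw [h1] at b2
    rw [h1', ← h4] at b4
    subst h4
    have h5 : l' = l ∨ l' = hm n l := by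
      clear h3 e1 e2 a1 a2 a3 a4 h h1 h1' E1 E2 hW b1 b3 c1 c3 c5 c7
      omega
    exact E1 l m false hl hm' hlm h1 l' h5 hlm'
  · rw [jp_vlab_f, jp_vlab_t] at h
    have h3 : JP15 _ _ _ _ _ _ := sgn3 n _ _ _ _ _ _ c1 c3 a1 hl' hm'' a3 h
    rw [e1, h1, h1'] at h3
    exact (E2 l' m' l m hl' hm'' hlm' h1' hl hm' hlm h1 (jp_pure2 _ _ _ _
      (fun e => hlm ((jp_pm_inj n l m hl hm').1 e)) hlm' h3).symm).symm
  · rw [jp_vlab_t, jp_vlab_f] at h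
    have h3 : JP15 _ _ _ _ _ _ := sgn3 n _ _ _ _ _ _ hl hm' a1 c5 c7 a3 h
    rw [e2, h1, h1'] at h3
    exact E2 l m l' m' hl hm' hlm h1 hl' hm'' hlm' h1' (jp_pure2 _ _ _ _
      hlm (fun e => hlm' ((jp_pm_inj n l' m' hl' hm'').1 e)) h3)
  · rw [jp_vlab_t, jp_vlab_t] at h
    have h3 : JP15 _ _ _ _ _ _ := sgn3 n _ _ _ _ _ _ hl hm' a1 hl' hm'' a3 h
    rw [h1, h1'] at h3
    have h4 : m = m' := jp_pure2 _ _ _ _ hlm hlm' h3
    rw [h1] at a2
    rw [h1', ← h4] at a4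
    subst h4
    have h5 : l' = l ∨ l' = hm n l := by
      clear h3 e1 e2 a1 b2 a3 b4 h h1 h1' E1 E2 hW b1 b3 c1 c3 c5 c7
      omega
    exact E1 l m true hl hm' hlm h1 l' h5 hlm'

theorem jp_main (n : ℕ) (hn : 3 ≤ n) (W : ℕ → ℕ → Bool → ZMod 2) (hW : JPW n W) (l m : ℕ)
    (t : Bool) (hl : l < 2 * n) (hm' : m < 2 * n) (hlm : l ≠ m)
    (l' m' : ℕ) (t' : Bool) (hl' : l' < 2 * n) (hm'' : m' < 2 * n) (hlm' : l' ≠ m')
    (h : vlab n l m t = vlab n l' m' t') : W l m t = W l' m' t' := by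
  have N : ∀ (l m : ℕ) (t : Bool), l < 2 * n → m < 2 * n → l ≠ m → gm n l m t ≠ l →
      gm n l m t ≠ m → ∀ (l' m' : ℕ) (t' : Bool), l' < 2 * n → m' < 2 * n → l' ≠ m' →
      vlab n l m t = vlab n l' m' t' → W l m t = W l' m' t' := by
    intro l m t hl hm' hlm h1 h2 l' m' t' hl' hm'' hlm' h
    obtain ⟨h3, h4, h5⟩ := jp_nd_lab n hn l m t hl hm' hlm h1 h2 l' m' t' hl' hm'' hlm' h
    subst h3
    exact jp_nd n hn W hW l m t' hl hm' hlm h1 h2 l' m' h4 h5 hlm'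
  have D : ∀ (l m : ℕ) (t : Bool), l < 2 * n → m < 2 * n → l ≠ m → gm n l m t = l →
      ∀ (l' m' : ℕ) (t' : Bool), l' < 2 * n → m' < 2 * n → l' ≠ m' →
      vlab n l m t = vlab n l' m' t' → W l m t = W l' m' t' := by
    intro l m t hl hm' hlm h1 l' m' t' hl' hm'' hlm' h
    by_cases h2 : gm n l' m' t' = l'
    · exact jp_deg n hn W hW l m t hl hm' hlm h1 l' m' t' hl' hm'' hlm' h2 h
    · by_cases h3 : gm n l' m' t' = m'
      · rw [hW.hs l' m' t' hl' hm'' hlm']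
        refine jp_deg n hn W hW l m t hl hm' hlm h1 m' l' t' hm'' hl' hlm'.symm ?_ ?_
        · rw [jp_gm_comm]
          exact h3
        · rw [vlab_comm n m' l']
          exact h
      · exact (N l' m' t' hl' hm'' hlm' h2 h3 l m t hl hm' hlm h.symm).symm
  by_cases h1 : gm n l m t = l
  · exact D l m t hl hm' hlm h1 l' m' t' hl' hm'' hlm' h
  · by_cases h2 : gm n l m t = m
    · rw [hW.hs l m t hl hm' hlm]
      refine D m l t hm' hl hlm.symm ?_ l' m' t' hl' hm'' hlm' ?_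
      · rw [jp_gm_comm]
        exact h2
      · rw [vlab_comm n m l]
        exact h
    · exact N l m t hl hm' hlm h1 h2 l' m' t' hl' hm'' hlm' h

theorem jp_vt (n : ℕ) (x : Ed n × Bool × Bool) :
    vt0 n (x.1, x.2.1) = vlab n (fln x) (flo x) x.2.1 := by
  unfold vt0 fln flo
  by_cases h : x.2.1 = x.2.2
  · rw [if_pos h, if_pos h]
  · rw [if_neg h, if_neg h]
    exact vlab_comm _ _ _ _

theorem jp_fln_lt (n : ℕ) (x : Ed n × Bool × Bool) : fln x < 2 * n := by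
  unfold fln ea eb
  split_ifs
  · exact x.1.1.1.2
  · exact x.1.1.2.2

theorem jp_flo_lt (n : ℕ) (x : Ed n × Bool × Bool) : flo x < 2 * n := by
  unfold flo ea eb
  split_ifs
  · exact x.1.1.2.2
  · exact x.1.1.1.2

theorem jp_fln_ne (n : ℕ) (x : Ed n × Bool × Bool) : fln x ≠ flo x := by
  have h : (x.1.1.1 : ℕ) < x.1.1.2 := x.1.2
  unfold fln flo ea eb
  split_ifs <;> omega

theorem jp_ext (n : ℕ) (x y : Ed n × Bool × Bool) (h1 : fln x = fln y) (h2 : flo x = flo y)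
    (h3 : x.2.1 = y.2.1) : x = y := by
  obtain ⟨⟨⟨⟨a, ha⟩, ⟨b, hb⟩⟩, hab⟩, t, u⟩ := x
  obtain ⟨⟨⟨⟨a', ha'⟩, ⟨b', hb'⟩⟩, hab'⟩, t', u'⟩ := y
  simp only at h3
  subst h3
  simp only [Fin.mk_lt_mk] at hab hab'
  simp only [fln, flo, ea, eb] at h1 h2
  cases t <;> cases u <;> cases u' <;> simp at h1 h2 ⊢ <;> omega

/-- the flag with given lines -/
def jp_mk (n l m : ℕ) (t : Bool) (hl : l < 2 * n) (hm' : m < 2 * n) (hlm : l ≠ m) :
    Ed n × Bool × Bool :=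
  if h : l < m then (⟨(⟨l, hl⟩, ⟨m, hm'⟩), h⟩, t, t)
  else (⟨(⟨m, hm'⟩, ⟨l, hl⟩), by
    have : m < l := by omega
    exact this⟩, t, !t)

theorem jp_mk_spec (n l m : ℕ) (t : Bool) (hl : l < 2 * n) (hm' : m < 2 * n) (hlm : l ≠ m) :
    fln (jp_mk n l m t hl hm' hlm) = l ∧ flo (jp_mk n l m t hl hm' hlm) = m ∧
      (jp_mk n l m t hl hm' hlm).2.1 = t := by
  unfold jp_mk
  split_ifs with h
  · simp [fln, flo, ea, eb]
  · simp [fln, flo, ea, eb]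

open Classical in
/-- the function of three variables -/
noncomputable def jp_W (n : ℕ) (w : Ed n × Bool × Bool → ZMod 2) (l m : ℕ) (t : Bool) : ZMod 2 :=
  if h : l < 2 * n ∧ m < 2 * n ∧ l ≠ m then w (jp_mk n l m t h.1 h.2.1 h.2.2) else 0

theorem jp_W_eq (n : ℕ) (w : Ed n × Bool × Bool → ZMod 2) (x : Ed n × Bool × Bool) :
    jp_W n w (fln x) (flo x) x.2.1 = w x := by
  unfold jp_W
  rw [dif_pos ⟨jp_fln_lt n x, jp_flo_lt n x, jp_fln_ne n x⟩]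
  congr 1
  obtain ⟨h1, h2, h3⟩ := jp_mk_spec n (fln x) (flo x) x.2.1 (jp_fln_lt n x) (jp_flo_lt n x)
    (jp_fln_ne n x)
  exact jp_ext n _ _ h1 h2 h3

theorem jp_W_mk (n : ℕ) (w : Ed n × Bool × Bool → ZMod 2) (l m : ℕ) (t : Bool)
    (hl : l < 2 * n) (hm' : m < 2 * n) (hlm : l ≠ m) :
    ∃ x : Ed n × Bool × Bool, fln x = l ∧ flo x = m ∧ x.2.1 = t :=
  ⟨_, jp_mk_spec n l m t hl hm' hlm⟩

theorem jp_fc (n : ℕ) (x : Ed n × Bool × Bool) :
    fc0 n (x.1, x.2.2) = dln n (fln x) + vt0 n (x.1, x.2.1) := by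
  have h := lab0 n x.1 x.2.1 x.2.2
  have h2 : (if x.2.1 = x.2.2 then ea x.1 else eb x.1) = fln x := rfl
  rw [h2] at h
  rw [← h]
  funext i
  simp only [Pi.add_apply]
  have h3 : ∀ a b : ZMod 2, b = a + b + a := by decide
  exact h3 _ _

theorem host_PM (n : ℕ) (hn : 3 ≤ n) (r : Equiv.Perm (Ed n × Bool × Bool))
    (h1 : ∀ x, r (r x) = x) (h2 : ∀ x, (r x).1 ≠ x.1) (h3 : ∀ x, fln (r x) = fln x)
    (h4 : ∀ x, (flo (r x), (r x).2.1) = r1 n (fln x) (flo x) x.2.1) :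
    PM (vt0 n) (fc0 n) r := by
  have hv : ∀ x, vt0 n ((r x).1, (r x).2.1) = vt0 n (x.1, x.2.1) := by
    intro x
    rw [jp_vt, jp_vt, h3]
    have h5 := h4 x
    have h6 : flo (r x) = (r1 n (fln x) (flo x) x.2.1).1 := by rw [← h5]
    have h7 : (r x).2.1 = (r1 n (fln x) (flo x) x.2.1).2 := by rw [← h5]
    rw [h6, h7]
    exact vlab_r1 n _ _ _ (by omega) (jp_fln_lt n x) (jp_flo_lt n x) (jp_fln_ne n x)
  refine ⟨h1, fun x hx => h2 x (by rw [hx]), hv, ?_, ?_⟩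
  · intro x
    rw [jp_fc, jp_fc, hv, h3]
  · intro w hw hw' x y hxy
    have hJ : JPW n (jp_W n w) := by
      constructor
      · intro l m t hl hm' hlm
        obtain ⟨z, rfl, rfl, rfl⟩ := jp_W_mk n w l m t hl hm' hlm
        have e1 : fln (z.1, z.2.1, !z.2.2) = flo z := by
          unfold fln flo
          cases z.2.1 <;> cases z.2.2 <;> simp
        have e2 : flo (z.1, z.2.1, !z.2.2) = fln z := by
          unfold fln flo
          cases z.2.1 <;> cases z.2.2 <;> simp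
        have e3 := jp_W_eq n w (z.1, z.2.1, !z.2.2)
        rw [e1, e2] at e3
        rw [jp_W_eq]
        exact (hw' z).symm.trans e3.symm
      · intro l m t hl hm' hlm
        obtain ⟨z, rfl, rfl, rfl⟩ := jp_W_mk n w l m t hl hm' hlm
        have e3 := jp_W_eq n w (r z)
        have h5 := h4 z
        have h6 : flo (r z) = (r1 n (fln z) (flo z) z.2.1).1 := by rw [← h5]
        have h7 : (r z).2.1 = (r1 n (fln z) (flo z) z.2.1).2 := by rw [← h5]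
        rw [h3, h6, h7] at e3
        rw [e3, jp_W_eq]
        exact hw z
    rw [← jp_W_eq n w x, ← jp_W_eq n w y]
    refine jp_main n hn (jp_W n w) hJ _ _ _ (jp_fln_lt n x) (jp_flo_lt n x) (jp_fln_ne n x) _ _ _
      (jp_fln_lt n y) (jp_flo_lt n y) (jp_fln_ne n y) ?_
    rw [← jp_vt, ← jp_vt]
    exact hxy

end Pool.Agent.Helper226_Obs
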