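import Pool.Agent.Helper226_Obs.FP.Host

set_option autoImplicit false

namespace Pool.Agent.Helper226_Obs

open SimpleGraph

theorem dd_anti (n b x : ℕ) (hb : b < 4 * n) (hx : x < n) : dd n b (x + n) = - dd n b x := by
  unfold dd
  push_cast
  rcases abs_cases (2 * ((x : ℤ) + n) - b) with ⟨h1, h1'⟩ | ⟨h1, h1'⟩ <;>
  rcases abs_cases (2 * (x : ℤ) - b) with ⟨h2, h2'⟩ | ⟨h2, h2'⟩ <;>
  rw [h1, h2, min_def, min_def] <;> split_ifs <;> omega

theorem psi_total (n b : ℕ) (hb : b < 4 * n) : psi n b (2 * n) = 0 := by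
  unfold psi
  rw [two_mul, Finset.sum_range_add, ← Finset.sum_add_distrib]
  refine Finset.sum_eq_zero fun x hx => ?_
  rw [add_comm n x, dd_anti n b x hb (Finset.mem_range.1 hx)]
  ring

theorem psi_succ (n b x : ℕ) : psi n b (x + 1) = psi n b x + dd n b x := by
  unfold psi
  rw [Finset.sum_range_succ]

/-- The position of `b` relative to `2 * j`. -/
def dlt (n b j : ℕ) : ℤ := if 2 * j ≤ b then (b : ℤ) - 2 * j else (b : ℤ) + 4 * n - 2 * j

/-- Twice the closed form of the differences. -/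
def Kz (n d : ℤ) : ℤ :=
  if d ≤ 2 * n then d * (2 * n - 2 - d) + 2 * n - d % 2
  else -((d - 2 * n) * (2 * n - 2 - (d - 2 * n)) + 2 * n - (d - 2 * n) % 2)

theorem Kz_step (n d : ℤ) (hn : 2 ≤ n) (h0 : 0 ≤ d) (h1 : d < 4 * n) :
    Kz n (if 2 ≤ d then d - 2 else d + 4 * n - 2) - Kz n d = -4 * (n - min d (4 * n - d)) := by
  unfold Kz
  by_cases h2 : 2 ≤ d
  · rw [if_pos h2]
    have hp : (d - 2) % 2 = d % 2 := by omega
    have hp' : (d - 2 * n) % 2 = d % 2 := by omega
    have hp'' : (d - 2 - 2 * n) % 2 = d % 2 := by omega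
    by_cases h3 : d ≤ 2 * n
    · rw [if_pos h3, if_pos (by omega : d - 2 ≤ 2 * n), hp, min_eq_left (by omega : d ≤ 4 * n - d)]
      ring
    · rw [if_neg h3, min_eq_right (by omega : 4 * n - d ≤ d)]
      by_cases h4 : d - 2 ≤ 2 * n
      · rw [if_pos h4]
        have h5 : d = 2 * n + 1 ∨ d = 2 * n + 2 := by omega
        rcases h5 with h5 | h5
        · have e1 : (d - 2) % 2 = 1 := by omega
          have e2 : (d - 2 * n) % 2 = 1 := by omega
          rw [e1, e2, h5]
          ring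
        · have e1 : (d - 2) % 2 = 0 := by omega
          have e2 : (d - 2 * n) % 2 = 0 := by omega
          rw [e1, e2, h5]
          ring
      · rw [if_neg h4, hp', hp'']
        ring
  · rw [if_neg h2, if_pos (by omega : d ≤ 2 * n), if_neg (by omega : ¬ d + 4 * n - 2 ≤ 2 * n),
      min_eq_left (by omega : d ≤ 4 * n - d)]
    have h5 : d = 0 ∨ d = 1 := by omega
    rcases h5 with h5 | h5
    · have e1 : (d + 4 * n - 2 - 2 * n) % 2 = 0 := by omega
      have e2 : d % 2 = 0 := by omega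
      rw [e1, e2, h5]
      ring
    · have e1 : (d + 4 * n - 2 - 2 * n) % 2 = 1 := by omega
      have e2 : d % 2 = 1 := by omega
      rw [e1, e2, h5]
      ring

theorem dlt_mem (n b j : ℕ) (hb : b < 4 * n) (hj : j < 2 * n) :
    0 ≤ dlt n b j ∧ dlt n b j < 4 * n := by
  unfold dlt
  split_ifs <;> omega

theorem dlt_succ (n b j : ℕ) (hb : b < 4 * n) (hj : j + 1 < 2 * n) :
    dlt n b (j + 1) = if 2 ≤ dlt n b j then dlt n b j - 2 else dlt n b j + 4 * n - 2 := by
  unfold dlt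
  push_cast
  split_ifs <;> omega

theorem dd_dlt (n b j : ℕ) (hb : b < 4 * n) (hj : j < 2 * n) :
    dd n b j = n - min (dlt n b j) (4 * n - dlt n b j) := by
  unfold dd dlt
  rcases abs_cases (2 * (j : ℤ) - b) with ⟨h2, h2'⟩ | ⟨h2, h2'⟩ <;>
  rw [h2, min_def, min_def] <;> split_ifs <;> omega

/-- The differences. -/
def Sg (n b j : ℕ) : ℤ := psi n b (hm n j) - psi n b j

theorem Sg_succ (n b j : ℕ) (hn : 2 ≤ n) (hb : b < 4 * n) (hj : j + 1 < 2 * n) :
    Sg n b (j + 1) - Sg n b j = -2 * dd n b j := by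
  unfold Sg hm
  by_cases h1 : j + 1 < n
  · rw [if_pos h1, if_pos (by omega : j < n), show j + 1 + n = (j + n) + 1 by ring, psi_succ,
      psi_succ, dd_anti n b j hb (by omega)]
    ring
  · rw [if_neg h1]
    by_cases h2 : j < n
    · rw [if_pos h2]
      have h3 : j + 1 = n := by omega
      have h4 : psi n b (j + n + 1) = 0 := by
        rw [show j + n + 1 = 2 * n by omega]
        exact psi_total n b hb
      rw [psi_succ, dd_anti n b j hb h2] at h4
      have h5 : psi n b (j + 1 - n) = 0 := by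
        rw [show j + 1 - n = 0 by omega]
        simp [psi]
      rw [h5, psi_succ]
      linarith
    · rw [if_neg h2]
      obtain ⟨i, rfl⟩ : ∃ i, j = i + n := ⟨j - n, by omega⟩
      rw [show i + n + 1 - n = i + 1 by omega, show i + n - n = i by omega, psi_succ, psi_succ,
        dd_anti n b i hb (by omega)]
      ring

theorem Sg_anti (n b : ℕ) (hn : 2 ≤ n) : Sg n b n = - Sg n b 0 := by
  unfold Sg hm
  rw [if_neg (by omega : ¬ n < n), if_pos (by omega : 0 < n), Nat.sub_self, Nat.zero_add]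
  ring

theorem Kz_anti (n b : ℕ) (hn : 2 ≤ n) (hb : b < 4 * n) :
    Kz n (dlt n b n) = - Kz n (dlt n b 0) := by
  have h0 : dlt n b 0 = b := by
    unfold dlt
    rw [if_pos (by omega : 2 * 0 ≤ b)]
    simp
  rw [h0]
  by_cases h : 2 * n ≤ b
  · have h1 : dlt n b n = b - 2 * n := by
      unfold dlt
      rw [if_pos h]
    rw [h1]
    unfold Kz
    rw [if_pos (by omega : (b : ℤ) - 2 * n ≤ 2 * n)]
    by_cases h2 : (b : ℤ) ≤ 2 * n
    · have h3 : (b : ℤ) = 2 * n := by omega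
      rw [if_pos h2, h3]
      have e1 : (2 * (n : ℤ) - 2 * n) % 2 = 0 := by omega
      have e2 : (2 * (n : ℤ)) % 2 = 0 := by omega
      rw [e1, e2]
      ring
    · rw [if_neg h2]
      ring
  · have h1 : dlt n b n = b + 2 * n := by
      unfold dlt
      rw [if_neg h]
      ring
    rw [h1]
    unfold Kz
    rw [if_pos (by omega : (b : ℤ) ≤ 2 * n)]
    by_cases h2 : (b : ℤ) + 2 * n ≤ 2 * n
    · have h3 : (b : ℤ) = 0 := by omega
      rw [if_pos h2, h3]
      have e1 : (0 + 2 * (n : ℤ)) % 2 = 0 := by omega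
      have e2 : (0 : ℤ) % 2 = 0 := by omega
      rw [e1, e2]
      ring
    · rw [if_neg h2, show (b : ℤ) + 2 * n - 2 * n = b by ring]

theorem Sg_closed (n b j : ℕ) (hn : 2 ≤ n) (hb : b < 4 * n) (hj : j < 2 * n) :
    2 * Sg n b j = Kz n (dlt n b j) := by
  have key : ∀ i, i < 2 * n →
      2 * Sg n b i - Kz n (dlt n b i) = 2 * Sg n b 0 - Kz n (dlt n b 0) := by
    intro i
    induction i with
    | zero => intro _; rfl
    | succ i ih =>
      intro hi
      have h1 := ih (by omega)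
      have h2 := Sg_succ n b i hn hb hi
      obtain ⟨h3, h4⟩ := dlt_mem n b i hb (by omega)
      have h5 := Kz_step n (dlt n b i) (by omega) h3 h4
      rw [← dlt_succ n b i hb hi] at h5
      rw [dd_dlt n b i hb (by omega)] at h2
      linarith
  have h1 := key n (by omega)
  have h2 := key j hj
  have h3 := Sg_anti n b hn
  have h4 := Kz_anti n b hn hb
  rw [h3, h4] at h1
  linarith

theorem dlt_mod (n b j : ℕ) (hb : b < 4 * n) (hj : j < 2 * n) :
    dlt n b j = (((b + 4 * n - 2 * j) % (4 * n) : ℕ) : ℤ) := by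
  unfold dlt
  by_cases h : 2 * j ≤ b
  · rw [if_pos h, show b + 4 * n - 2 * j = (b - 2 * j) + 4 * n by omega, Nat.add_mod_right,
      Nat.mod_eq_of_lt (by omega)]
    omega
  · rw [if_neg h, Nat.mod_eq_of_lt (by omega)]
    omega

theorem S_bound (n b j : ℕ) (hn : 2 ≤ n) (hb : b < 4 * n) (hj : j < 2 * n)
    (hd : (b + 4 * n - 2 * j) % (4 * n) ≤ 2 * n - 2) :
    (n : ℤ) ≤ psi n b (hm n j) - psi n b j := by
  have h1 := Sg_closed n b j hn hb hj
  rw [dlt_mod n b j hb hj] at h1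
  unfold Sg at h1
  generalize (b + 4 * n - 2 * j) % (4 * n) = d at hd h1
  unfold Kz at h1
  rw [if_pos (by omega : (d : ℤ) ≤ 2 * n)] at h1
  have h2 : 0 ≤ (d : ℤ) := by omega
  have h3 : 0 ≤ 2 * (n : ℤ) - 2 - d := by omega
  have h4 : (d : ℤ) % 2 = 0 ∨ (d : ℤ) % 2 = 1 := by omega
  rcases h4 with h4 | h4
  · rw [h4] at h1
    have h5 := mul_nonneg h2 h3
    linarith
  · rw [h4] at h1
    have h6 : 1 ≤ (d : ℤ) := by omega
    have h7 : 1 ≤ 2 * (n : ℤ) - 2 - d := by omega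
    have h5 : 0 ≤ ((d : ℤ) - 1) * (2 * (n : ℤ) - 2 - d - 1) := mul_nonneg (by omega) (by omega)
    nlinarith

theorem S_bound2 (n b j : ℕ) (hn : 2 ≤ n) (hb : b < 4 * n) (hj : j < 2 * n)
    (hd : (b + 4 * n - 2 * j) % (4 * n) = 1) :
    psi n b (hm n j) - psi n b j = 2 * n - 2 := by
  have h1 := Sg_closed n b j hn hb hj
  rw [dlt_mod n b j hb hj, hd] at h1
  unfold Sg Kz at h1
  rw [if_pos (by omega : ((1 : ℕ) : ℤ) ≤ 2 * n)] at h1
  have h4 : (((1 : ℕ) : ℤ)) % 2 = 1 := by omega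
  rw [h4] at h1
  push_cast at h1
  linarith

theorem S_zero (n b j : ℕ) (hn : 2 ≤ n) (hb : b < 4 * n) (hj : j < 2 * n)
    (hd : (b + 4 * n - 2 * j) % (4 * n) = 2 * n - 1) :
    psi n b (hm n j) - psi n b j = 0 := by
  have h1 := Sg_closed n b j hn hb hj
  rw [dlt_mod n b j hb hj, hd] at h1
  unfold Sg Kz at h1
  rw [if_pos (by omega : ((2 * n - 1 : ℕ) : ℤ) ≤ 2 * n)] at h1
  have h4 : ((2 * n - 1 : ℕ) : ℤ) = 2 * n - 1 := by omega
  have h5 : (2 * (n : ℤ) - 1) % 2 = 1 := by omega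
  rw [h4, h5] at h1
  have h6 : (2 * (n : ℤ) - 1) * (2 * n - 2 - (2 * n - 1)) + 2 * n - 1 = 0 := by ring
  rw [h6] at h1
  linarith

end Pool.Agent.Helper226_Obs
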