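import Pool.Agent.Helper226_Obs.FP.D05

set_option autoImplicit false

namespace Pool.Agent.Helper226_Obs

open SimpleGraph

theorem psi_succ_d06 (n b x : ℕ) : psi n b (x + 1) = psi n b x + dd n b x := by
  simp [psi, Finset.sum_range_succ]

theorem psi_zero (n b : ℕ) : psi n b 0 = 0 := by simp [psi]

theorem psi_pm (n b x : ℕ) (hb : b < 4 * n) :
    psi n b (pm n x) = psi n b x - dd n b (pm n x) := by
  unfold pm
  split_ifs with h
  · subst h
    have h1 := psi_succ_d06 n b (2 * n - 1)
    have h2 : 2 * n - 1 + 1 = 2 * n := by omega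
    rw [h2, psi_total n b hb] at h1
    rw [psi_zero]
    linarith
  · have h1 := psi_succ_d06 n b (x - 1)
    have h2 : x - 1 + 1 = x := by omega
    rw [h2] at h1
    linarith

theorem psi_pm_succ (n b x : ℕ) (hb : b < 4 * n) :
    psi n b (pm n x + 1) = psi n b x := by
  rw [psi_succ_d06, psi_pm n b x hb]
  ring

theorem dd_hm (n b x : ℕ) (hb : b < 4 * n) (hx : x < 2 * n) :
    dd n b (hm n x) = - dd n b x := by
  unfold hm
  split_ifs with h
  · exact dd_anti n b x hb h
  · have h1 := dd_anti n b (x - n) hb (by omega)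
    have h2 : x - n + n = x := by omega
    rw [h2] at h1
    linarith

theorem hgt_comm (n b l m : ℕ) : hgt n b l m = hgt n b m l := by
  have h : gm n l m true = gm n m l true := by
    simp only [gm, if_true]
    split_ifs <;> omega
  simp only [hgt, h]
  ring

theorem hgt_T1 (n b l m : ℕ) (hb : b < 4 * n) (hl : l < 2 * n) (hm' : m < 2 * n) :
    hgt n b l (gm n l m true) - hgt n b l m = dd n b m - dd n b (gm n l m true) := by
  have h : gm n l (gm n l m true) true = m := by
    simp only [gm, if_true]
    split_ifs <;> omega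
  simp only [hgt, h, psi_succ_d06]
  ring

theorem hgt_T0 (n b l m : ℕ) (hb : b < 4 * n) (hl : l < 2 * n) (hm' : m < 2 * n) :
    hgt n b l (gm n l m false) - hgt n b l m =
      dd n b (pm n (gm n l m false)) - dd n b (pm n m) := by
  have h1 : gm n l m true = pm n (gm n l m false) := by
    simp only [gm, pm, if_true, Bool.false_eq_true, if_false]
    split_ifs <;> omega
  have h2 : gm n l (gm n l m false) true = pm n m := by
    simp only [gm, pm, if_true, Bool.false_eq_true, if_false]
    split_ifs <;> omega
  have e1 := psi_pm n b (gm n l m false) hb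
  have e2 := psi_pm_succ n b (gm n l m false) hb
  have e3 := psi_pm n b m hb
  have e4 := psi_pm_succ n b m hb
  simp only [hgt]
  rw [h2, h1, e1, e2, e3, e4]
  ring

theorem hgt_I1 (n b l m : ℕ) (hb : b < 4 * n) (hl : l < 2 * n) (hm' : m < 2 * n)
    (h : gm n l m true = m) :
    hgt n b l (hm n m) - hgt n b l m = 4 * (psi n b (hm n m) - psi n b m) - 2 * dd n b m := by
  have h2 : gm n l (hm n m) true = hm n m := by
    revert h
    simp only [gm, hm, if_true]
    split_ifs <;> omega
  have e1 := dd_hm n b m hb hm'
  simp only [hgt]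
  rw [h2, h, psi_succ_d06, psi_succ_d06, e1]
  ring

theorem hgt_I0 (n b l m : ℕ) (hb : b < 4 * n) (hl : l < 2 * n) (hm' : m < 2 * n)
    (h : gm n l m false = m) :
    hgt n b l (hm n m) - hgt n b l m =
      4 * (psi n b (hm n m) - psi n b m) + 2 * dd n b (pm n m) := by
  have h1 : gm n l m true = pm n m := by
    revert h
    simp only [gm, pm, if_true, Bool.false_eq_true, if_false]
    split_ifs <;> omega
  have h2 : gm n l (hm n m) true = pm n (hm n m) := by
    revert h
    simp only [gm, hm, pm, if_true, Bool.false_eq_true, if_false]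
    split_ifs <;> omega
  have h3 : pm n (hm n m) = hm n (pm n m) := by
    simp only [hm, pm]
    split_ifs <;> omega
  have h4 : pm n m < 2 * n := by
    simp only [pm]
    split_ifs <;> omega
  have e1 := psi_pm n b m hb
  have e2 := psi_pm n b (hm n m) hb
  have e3 := psi_pm_succ n b m hb
  have e4 := psi_pm_succ n b (hm n m) hb
  have e5 := dd_hm n b (pm n m) hb h4
  rw [← h3] at e5
  simp only [hgt]
  rw [h2, h1, e1, e2, e3, e4, e5]
  ring

end Pool.Agent.Helper226_Obs
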