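import Pool.Agent.Helper226_Obs.FP.D01
import Pool.Agent.Helper226_Obs.FP.D06

set_option autoImplicit false

namespace Pool.Agent.Helper226_Obs

open SimpleGraph

theorem gm_t (n l m : ℕ) :
    gm n l m true = if l + m < 2 * n then 2 * n - 1 - l - m else 4 * n - 1 - l - m := by
  simp [gm]

theorem gm_f (n l m : ℕ) :
    gm n l m false = if l + m = 0 then 0 else if l + m ≤ 2 * n then 2 * n - l - m
      else 4 * n - l - m := by
  simp [gm]

theorem fl_one (n x : ℕ) : fl n x = 1 ↔ 2 * n ≤ x ∧ x < 4 * n := by
  unfold fl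
  by_cases h1 : x < 2 * n
  · rw [if_pos h1]
    omega
  · rw [if_neg h1]
    by_cases h2 : x < 4 * n
    · rw [if_pos h2]
      omega
    · rw [if_neg h2]
      omega

theorem fwd_t (n l m : ℕ) : fwd n l m true ↔ (2 * n ≤ l + 2 * m ∧ l + 2 * m < 4 * n) := by
  unfold fwd
  rw [fl_one]
  simp

theorem fwd_f (n l m : ℕ) : fwd n l m false ↔ ¬ (2 * n ≤ l + 2 * m ∧ l + 2 * m < 4 * n) := by
  unfold fwd
  rw [fl_one]
  simp

theorem r1_t (n l m : ℕ) : r1 n l m true =
    if gm n l m true = l then
    (if gm n l l false = l then (hm n l, false) else (gm n l l false, false))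
  else if gm n l m true = m then
    (if hm n m = l then (gm n l l false, false) else (hm n m, true))
  else (gm n l m true, true) := rfl

theorem r1_f (n l m : ℕ) : r1 n l m false =
    if gm n l m false = l then
    (if gm n l l true = l then (hm n l, true) else (gm n l l true, true))
  else if gm n l m false = m then
    (if hm n m = l then (gm n l l true, true) else (hm n m, false))
  else (gm n l m false, false) := rfl

theorem infl_t (n l m : ℕ) : infl n l m true ↔
    (gm n l m true = m ∨ (gm n l m true = l ∧ gm n l l false = l)) := Iff.rfl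

theorem infl_f (n l m : ℕ) : infl n l m false ↔
    (gm n l m false = m ∨ (gm n l m false = l ∧ gm n l l true = l)) := Iff.rfl

theorem gmT_spec (n l m : ℕ) : (l + m < 2 * n ∧ gm n l m true = 2 * n - 1 - l - m) ∨
    (2 * n ≤ l + m ∧ gm n l m true = 4 * n - 1 - l - m) := by
  rw [gm_t]
  by_cases h : l + m < 2 * n
  · left
    exact ⟨h, if_pos h⟩
  · right
    exact ⟨by omega, if_neg h⟩

theorem gmF_spec (n l m : ℕ) : (l + m = 0 ∧ gm n l m false = 0) ∨
    (0 < l + m ∧ l + m ≤ 2 * n ∧ gm n l m false = 2 * n - l - m) ∨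
    (2 * n < l + m ∧ gm n l m false = 4 * n - l - m) := by
  rw [gm_f]
  by_cases h : l + m = 0
  · left
    exact ⟨h, if_pos h⟩
  · right
    rw [if_neg h]
    by_cases h2 : l + m ≤ 2 * n
    · left
      exact ⟨by omega, h2, if_pos h2⟩
    · right
      exact ⟨by omega, if_neg h2⟩

theorem r1_fwd (n l m : ℕ) (t : Bool) (hn : 3 ≤ n) (hl : l < 2 * n) (hm' : m < 2 * n)
    (hlm : l ≠ m) : fwd n l (r1 n l m t).1 (r1 n l m t).2 ↔ ¬ fwd n l m t := by
  have b1 := gmT_spec n l m
  have b2 := gmF_spec n l m
  have b3 := gmT_spec n l l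
  have b4 := gmF_spec n l l
  cases t
  · rw [r1_f]
    by_cases c1 : gm n l m false = l
    · rw [if_pos c1]
      by_cases c2 : gm n l l true = l
      · rw [if_pos c2]
        simp only [hm, fwd_t, fwd_f]
        split_ifs <;> omega
      · rw [if_neg c2]
        simp only [fwd_t, fwd_f]
        omega
    · rw [if_neg c1]
      by_cases c2 : gm n l m false = m
      · rw [if_pos c2]
        by_cases c3 : hm n m = l
        · rw [if_pos c3]
          simp only [hm] at c3
          simp only [fwd_t, fwd_f]
          split_ifs at c3 <;> omega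
        · rw [if_neg c3]
          simp only [hm] at c3 ⊢
          simp only [fwd_t, fwd_f]
          split_ifs at c3 ⊢ <;> omega
      · rw [if_neg c2]
        simp only [fwd_t, fwd_f]
        omega
  · rw [r1_t]
    by_cases c1 : gm n l m true = l
    · rw [if_pos c1]
      by_cases c2 : gm n l l false = l
      · rw [if_pos c2]
        simp only [hm, fwd_t, fwd_f]
        split_ifs <;> omega
      · rw [if_neg c2]
        simp only [fwd_t, fwd_f]
        omega
    · rw [if_neg c1]
      by_cases c2 : gm n l m true = m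
      · rw [if_pos c2]
        by_cases c3 : hm n m = l
        · rw [if_pos c3]
          simp only [hm] at c3
          simp only [fwd_t, fwd_f]
          split_ifs at c3 <;> omega
        · rw [if_neg c3]
          simp only [hm] at c3 ⊢
          simp only [fwd_t, fwd_f]
          split_ifs at c3 ⊢ <;> omega
      · rw [if_neg c2]
        simp only [fwd_t, fwd_f]
        omega

theorem fwd_not (n l m : ℕ) (t : Bool) : fwd n l m (!t) ↔ ¬ fwd n l m t := by
  cases t
  · show fwd n l m true ↔ ¬ fwd n l m false
    rw [fwd_t, fwd_f]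
    omega
  · show fwd n l m false ↔ ¬ fwd n l m true
    rw [fwd_t, fwd_f]

set_option maxHeartbeats 4000000 in
theorem r1_infl (n l m : ℕ) (t : Bool) (hn : 3 ≤ n) (hl : l < 2 * n) (hm' : m < 2 * n)
    (hlm : l ≠ m) : infl n l (r1 n l m t).1 (r1 n l m t).2 ↔ infl n l m t := by
  have b1 := gmT_spec n l m
  have b2 := gmF_spec n l m
  have b3 := gmT_spec n l l
  have b4 := gmF_spec n l l
  cases t
  · rw [r1_f, infl_f]
    by_cases c1 : gm n l m false = l
    · rw [if_pos c1]
      by_cases c2 : gm n l l true = l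
      · rw [if_pos c2]
        simp only [infl_t, infl_f]
        have k := gmT_spec n l (hm n l)
        simp only [hm] at k ⊢
        by_cases c3 : l < n
        · rw [if_pos c3] at k ⊢
          omega
        · rw [if_neg c3] at k ⊢
          omega
      · rw [if_neg c2]
        simp only [infl_t, infl_f]
        have k := gmT_spec n l (gm n l l true)
        omega
    · rw [if_neg c1]
      by_cases c2 : gm n l m false = m
      · rw [if_pos c2]
        by_cases c3 : hm n m = l
        · rw [if_pos c3]
          simp only [infl_t, infl_f]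
          have k := gmT_spec n l (gm n l l true)
          simp only [hm] at c3
          by_cases c4 : m < n
          · rw [if_pos c4] at c3
            omega
          · rw [if_neg c4] at c3
            omega
        · rw [if_neg c3]
          simp only [infl_t, infl_f]
          have k := gmF_spec n l (hm n m)
          simp only [hm] at k ⊢ c3
          by_cases c4 : m < n
          · rw [if_pos c4] at k ⊢ c3
            omega
          · rw [if_neg c4] at k ⊢ c3
            omega
      · rw [if_neg c2]
        simp only [infl_t, infl_f]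
        have k := gmF_spec n l (gm n l m false)
        omega
  · rw [r1_t, infl_t]
    by_cases c1 : gm n l m true = l
    · rw [if_pos c1]
      by_cases c2 : gm n l l false = l
      · rw [if_pos c2]
        simp only [infl_t, infl_f]
        have k := gmF_spec n l (hm n l)
        simp only [hm] at k ⊢
        by_cases c3 : l < n
        · rw [if_pos c3] at k ⊢
          omega
        · rw [if_neg c3] at k ⊢
          omega
      · rw [if_neg c2]
        simp only [infl_t, infl_f]
        have k := gmF_spec n l (gm n l l false)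
        omega
    · rw [if_neg c1]
      by_cases c2 : gm n l m true = m
      · rw [if_pos c2]
        by_cases c3 : hm n m = l
        · rw [if_pos c3]
          simp only [infl_t, infl_f]
          have k := gmF_spec n l (gm n l l false)
          simp only [hm] at c3
          by_cases c4 : m < n
          · rw [if_pos c4] at c3
            omega
          · rw [if_neg c4] at c3
            omega
        · rw [if_neg c3]
          simp only [infl_t, infl_f]
          have k := gmT_spec n l (hm n m)
          simp only [hm] at k ⊢ c3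
          by_cases c4 : m < n
          · rw [if_pos c4] at k ⊢ c3
            omega
          · rw [if_neg c4] at k ⊢ c3
            omega
      · rw [if_neg c2]
        simp only [infl_t, infl_f]
        have k := gmT_spec n l (gm n l m true)
        omega

theorem fl_spec (n x : ℕ) : (x < 2 * n ∧ fl n x = 0) ∨ (2 * n ≤ x ∧ x < 4 * n ∧ fl n x = 1) ∨
    (2 * n ≤ x ∧ 4 * n ≤ x ∧ fl n x = 2) := by
  unfold fl
  by_cases h1 : x < 2 * n
  · left
    exact ⟨h1, if_pos h1⟩
  · right
    rw [if_neg h1]
    by_cases h2 : x < 4 * n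
    · left
      exact ⟨by omega, h2, if_pos h2⟩
    · right
      exact ⟨by omega, by omega, if_neg h2⟩

/-- The colour k0 as a natural number. -/
def kn (n l m : ℕ) : ℕ := (if l < m then 1 else 0) + fl n (l + 2 * m) + fl n (2 * l + m)

theorem k0_kn (n l m : ℕ) : k0 n l m = ((kn n l m : ℕ) : ZMod 2) := by
  unfold k0 kn
  push_cast
  split_ifs <;> simp

theorem k0_iff (n l m m' : ℕ) : k0 n l m' = k0 n l m ↔ kn n l m' % 2 = kn n l m % 2 := by
  rw [k0_kn, k0_kn]
  exact ZMod.natCast_eq_natCast_iff' _ _ _

theorem kn_spec (n l m : ℕ) : (l < m ∧ kn n l m = 1 + fl n (l + 2 * m) + fl n (2 * l + m)) ∨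
    (m ≤ l ∧ kn n l m = fl n (l + 2 * m) + fl n (2 * l + m)) := by
  unfold kn
  by_cases h : l < m
  · left
    exact ⟨h, by rw [if_pos h]⟩
  · right
    exact ⟨by omega, by rw [if_neg h, Nat.zero_add]⟩

set_option maxHeartbeats 4000000 in
theorem k0_r1 (n l m : ℕ) (t : Bool) (hn : 3 ≤ n) (hl : l < 2 * n) (hm' : m < 2 * n)
    (hlm : l ≠ m) : k0 n l (r1 n l m t).1 = k0 n l m ↔ infl n l m t := by
  rw [k0_iff]
  have a1 := kn_spec n l m
  have a2 := fl_spec n (l + 2 * m)
  have a3 := fl_spec n (2 * l + m)
  have key : ∀ m', (r1 n l m t).1 = m' → (((l < m' ∧ kn n l m' = 1 + fl n (l + 2 * m') +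
      fl n (2 * l + m')) ∨ (m' ≤ l ∧ kn n l m' = fl n (l + 2 * m') + fl n (2 * l + m'))) ∧
      ((l + 2 * m' < 2 * n ∧ fl n (l + 2 * m') = 0) ∨
        (2 * n ≤ l + 2 * m' ∧ l + 2 * m' < 4 * n ∧ fl n (l + 2 * m') = 1) ∨
        (2 * n ≤ l + 2 * m' ∧ 4 * n ≤ l + 2 * m' ∧ fl n (l + 2 * m') = 2)) ∧
      ((2 * l + m' < 2 * n ∧ fl n (2 * l + m') = 0) ∨
        (2 * n ≤ 2 * l + m' ∧ 2 * l + m' < 4 * n ∧ fl n (2 * l + m') = 1) ∨
        (2 * n ≤ 2 * l + m' ∧ 4 * n ≤ 2 * l + m' ∧ fl n (2 * l + m') = 2))) := by
    intro m' _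
    exact ⟨kn_spec n l m', fl_spec n _, fl_spec n _⟩
  cases t
  · have b1 := gmF_spec n l m
    have b2 := gmT_spec n l l
    rw [infl_f]
    rw [r1_f] at key ⊢
    by_cases c1 : gm n l m false = l
    · rw [if_pos c1] at key ⊢
      by_cases c2 : gm n l l true = l
      · rw [if_pos c2] at key ⊢
        have k := key _ rfl
        simp only [hm] at k ⊢
        by_cases c3 : l < n
        · rw [if_pos c3] at k ⊢
          omega
        · rw [if_neg c3] at k ⊢
          omega
      · rw [if_neg c2] at key ⊢
        have k := key _ rfl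
        omega
    · rw [if_neg c1] at key ⊢
      by_cases c2 : gm n l m false = m
      · rw [if_pos c2] at key ⊢
        by_cases c3 : hm n m = l
        · rw [if_pos c3] at key ⊢
          have k := key _ rfl
          simp only [hm] at c3
          by_cases c4 : m < n
          · rw [if_pos c4] at c3
            omega
          · rw [if_neg c4] at c3
            omega
        · rw [if_neg c3] at key ⊢
          have k := key _ rfl
          simp only [hm] at k ⊢ c3
          by_cases c4 : m < n
          · rw [if_pos c4] at k ⊢ c3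
            omega
          · rw [if_neg c4] at k ⊢ c3
            omega
      · rw [if_neg c2] at key ⊢
        have k := key _ rfl
        omega
  · have b1 := gmT_spec n l m
    have b2 := gmF_spec n l l
    rw [infl_t]
    rw [r1_t] at key ⊢
    by_cases c1 : gm n l m true = l
    · rw [if_pos c1] at key ⊢
      by_cases c2 : gm n l l false = l
      · rw [if_pos c2] at key ⊢
        have k := key _ rfl
        simp only [hm] at k ⊢
        by_cases c3 : l < n
        · rw [if_pos c3] at k ⊢
          omega
        · rw [if_neg c3] at k ⊢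
          omega
      · rw [if_neg c2] at key ⊢
        have k := key _ rfl
        omega
    · rw [if_neg c1] at key ⊢
      by_cases c2 : gm n l m true = m
      · rw [if_pos c2] at key ⊢
        by_cases c3 : hm n m = l
        · rw [if_pos c3] at key ⊢
          have k := key _ rfl
          simp only [hm] at c3
          by_cases c4 : m < n
          · rw [if_pos c4] at c3
            omega
          · rw [if_neg c4] at c3
            omega
        · rw [if_neg c3] at key ⊢
          have k := key _ rfl
          simp only [hm] at k ⊢ c3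
          by_cases c4 : m < n
          · rw [if_pos c4] at k ⊢ c3
            omega
          · rw [if_neg c4] at k ⊢ c3
            omega
      · rw [if_neg c2] at key ⊢
        have k := key _ rfl
        omega

set_option maxHeartbeats 4000000 in
theorem inf_unique (n l m m' : ℕ) (t t' : Bool) (hn : 3 ≤ n) (hl : l < 2 * n)
    (hm1 : m < 2 * n) (hm2 : m' < 2 * n) (hlm : l ≠ m) (hlm' : l ≠ m')
    (h1 : infl n l m t) (h2 : fwd n l m t) (h1' : infl n l m' t') (h2' : fwd n l m' t') :
    m = m' ∧ t = t' := by
  have b1 := gmT_spec n l m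
  have b2 := gmF_spec n l m
  have b3 := gmT_spec n l m'
  have b4 := gmF_spec n l m'
  have b5 := gmT_spec n l l
  have b6 := gmF_spec n l l
  cases t <;> cases t' <;> simp only [infl_t, infl_f, fwd_t, fwd_f] at h1 h2 h1' h2'
  · refine ⟨by omega, rfl⟩
  · exfalso
    omega
  · exfalso
    omega
  · refine ⟨by omega, rfl⟩

theorem dd_spec (n b x : ℕ) :
    ((b : ℤ) ≤ 2 * x ∧ 2 * (x : ℤ) - b ≤ 2 * n ∧ dd n b x = n - (2 * x - b)) ∨
    ((b : ℤ) ≤ 2 * x ∧ 2 * (n : ℤ) < 2 * x - b ∧ dd n b x = n - (4 * n - (2 * x - b))) ∨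
    (2 * (x : ℤ) < b ∧ (b : ℤ) - 2 * x ≤ 2 * n ∧ dd n b x = n - (b - 2 * x)) ∨
    (2 * (x : ℤ) < b ∧ 2 * (n : ℤ) < b - 2 * x ∧ dd n b x = n - (4 * n - (b - 2 * x))) := by
  unfold dd
  rcases le_or_gt (b : ℤ) (2 * x) with h | h
  · have h1 : |2 * (x : ℤ) - b| = 2 * x - b := abs_of_nonneg (by omega)
    rw [h1]
    rcases le_or_gt (2 * (x : ℤ) - b) (2 * n) with h2 | h2
    · left
      refine ⟨h, h2, ?_⟩
      rw [min_eq_left (by omega)]
    · right
      left
      refine ⟨h, h2, ?_⟩
      rw [min_eq_right (by omega)]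
  · have h1 : |2 * (x : ℤ) - b| = b - 2 * x := by
      rw [abs_of_neg (by omega)]
      omega
    rw [h1]
    rcases le_or_gt ((b : ℤ) - 2 * x) (2 * n) with h2 | h2
    · right
      right
      left
      refine ⟨h, h2, ?_⟩
      rw [min_eq_left (by omega)]
    · right
      right
      right
      refine ⟨h, h2, ?_⟩
      rw [min_eq_right (by omega)]

theorem pm_spec (n m : ℕ) : (m = 0 ∧ pm n m = 2 * n - 1) ∨ (0 < m ∧ pm n m = m - 1) := by
  unfold pm
  by_cases h : m = 0
  · left
    exact ⟨h, if_pos h⟩
  · right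
    exact ⟨by omega, if_neg h⟩

theorem mod_spec (n b l : ℕ) (hn : 3 ≤ n) (hb : b < 4 * n) (hl : l < 2 * n) :
    (b + l + 1 < 4 * n ∧ (b + l + 1) % (4 * n) = b + l + 1) ∨
    (4 * n ≤ b + l + 1 ∧ (b + l + 1) % (4 * n) = b + l + 1 - 4 * n) := by
  by_cases h : b + l + 1 < 4 * n
  · left
    exact ⟨h, Nat.mod_eq_of_lt h⟩
  · right
    refine ⟨by omega, ?_⟩
    rw [Nat.mod_eq_sub_mod (by omega), Nat.mod_eq_of_lt (by omega)]

set_option maxHeartbeats 4000000 in
theorem elem_sign (n b l m : ℕ) (t : Bool) (hn : 3 ≤ n) (hb : b < 4 * n) (hl : l < 2 * n)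
    (hm' : m < 2 * n) (hf : fwd n l m t) (hi : gm n l m t ≠ m) :
    (2 * n ≤ (b + l + 1) % (4 * n) → hgt n b l m ≤ hgt n b l (gm n l m t)) ∧
      (¬ 2 * n ≤ (b + l + 1) % (4 * n) → hgt n b l (gm n l m t) ≤ hgt n b l m) := by
  have a1 := mod_spec n b l hn hb hl
  generalize (b + l + 1) % (4 * n) = V at a1 ⊢
  cases t
  · rw [fwd_f] at hf
    have b1 := gmF_spec n l m
    have b2 := hgt_T0 n b l m hb hl hm'
    generalize gm n l m false = c at b1 b2 hi ⊢
    have b3 := pm_spec n c
    have b4 := pm_spec n m
    generalize pm n c = pc at b2 b3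
    generalize pm n m = pmm at b2 b4
    have b5 := dd_spec n b pc
    have b6 := dd_spec n b pmm
    generalize dd n b pc = d1 at b2 b5
    generalize dd n b pmm = d2 at b2 b6
    have key : (2 * n ≤ V → d2 ≤ d1) ∧ (¬ 2 * n ≤ V → d1 ≤ d2) := by
      clear b2
      omega
    constructor
    · intro hv
      have := key.1 hv
      omega
    · intro hv
      have := key.2 hv
      omega
  · rw [fwd_t] at hf
    have b1 := gmT_spec n l m
    have b2 := hgt_T1 n b l m hb hl hm'
    generalize gm n l m true = c at b1 b2 hi ⊢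
    have b5 := dd_spec n b m
    have b6 := dd_spec n b c
    generalize dd n b m = d1 at b2 b5
    generalize dd n b c = d2 at b2 b6
    have key : (2 * n ≤ V → d2 ≤ d1) ∧ (¬ 2 * n ≤ V → d1 ≤ d2) := by
      clear b2
      omega
    constructor
    · intro hv
      have := key.1 hv
      omega
    · intro hv
      have := key.2 hv
      omega

theorem fwd_deg (n l m : ℕ) (t : Bool) (hn : 3 ≤ n) (hl : l < 2 * n) (hm' : m < 2 * n)
    (hlm : l ≠ m) (hf : fwd n l m t) (hg : gm n l m t = l) : fwd n l l (!t) := by
  have b1 := gmT_spec n l m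
  have b2 := gmF_spec n l m
  cases t
  · show fwd n l l true
    rw [fwd_f] at hf
    rw [fwd_t]
    omega
  · show fwd n l l false
    rw [fwd_t] at hf
    rw [fwd_f]
    omega

set_option maxHeartbeats 4000000 in
theorem step_sign (n b l m : ℕ) (t : Bool) (hn : 3 ≤ n) (hb : b < 4 * n) (hl : l < 2 * n)
    (hm' : m < 2 * n) (hlm : l ≠ m) (hf : fwd n l m t) (hi : ¬ infl n l m t) :
    if 2 * n ≤ (b + l + 1) % (4 * n) then hgt n b l m ≤ hgt n b l (r1 n l m t).1
      else hgt n b l (r1 n l m t).1 ≤ hgt n b l m := by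
  have hi1 : gm n l m t ≠ m := fun h => hi (Or.inl h)
  have e1 := elem_sign n b l m t hn hb hl hm' hf hi1
  have key : (2 * n ≤ (b + l + 1) % (4 * n) → hgt n b l m ≤ hgt n b l (r1 n l m t).1) ∧
      (¬ 2 * n ≤ (b + l + 1) % (4 * n) → hgt n b l (r1 n l m t).1 ≤ hgt n b l m) := by
    unfold r1
    by_cases c1 : gm n l m t = l
    · rw [if_pos c1]
      have hi2 : gm n l l (!t) ≠ l := fun h => hi (Or.inr ⟨c1, h⟩)
      rw [if_neg hi2]
      have e2 := elem_sign n b l l (!t) hn hb hl hl (fwd_deg n l m t hn hl hm' hlm hf c1) hi2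
      rw [c1] at e1
      exact ⟨fun h => (e1.1 h).trans (e2.1 h), fun h => (e2.2 h).trans (e1.2 h)⟩
    · rw [if_neg c1, if_neg hi1]
      exact e1
  by_cases hv : 2 * n ≤ (b + l + 1) % (4 * n)
  · rw [if_pos hv]
    exact key.1 hv
  · rw [if_neg hv]
    exact key.2 hv

end Pool.Agent.Helper226_Obs
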