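import Pool.Agent.Helper226_Obs.FP.D06
import Pool.Agent.Helper226_Obs.FP.D07

set_option autoImplicit false

namespace Pool.Agent.Helper226_Obs

open SimpleGraph

theorem ea_lt_eb' {n : ℕ} (e : Ed n) : ea e < eb e := e.2

theorem eb_lt' {n : ℕ} (e : Ed n) : eb e < 2 * n := e.1.2.isLt

theorem fl_pos' {n : ℕ} (x : Ed n × Bool × Bool) (h : x.2.1 = x.2.2) :
    fln x = ea x.1 ∧ flo x = eb x.1 := by
  unfold fln flo
  exact ⟨if_pos h, if_pos h⟩

theorem fl_neg' {n : ℕ} (x : Ed n × Bool × Bool) (h : x.2.1 ≠ x.2.2) :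
    fln x = eb x.1 ∧ flo x = ea x.1 := by
  unfold fln flo
  exact ⟨if_neg h, if_neg h⟩

theorem fln_lt' {n : ℕ} (x : Ed n × Bool × Bool) : fln x < 2 * n := by
  have h1 := ea_lt_eb' x.1
  have h2 := eb_lt' x.1
  by_cases h : x.2.1 = x.2.2
  · rw [(fl_pos' x h).1]; omega
  · rw [(fl_neg' x h).1]; omega

theorem flo_lt' {n : ℕ} (x : Ed n × Bool × Bool) : flo x < 2 * n := by
  have h1 := ea_lt_eb' x.1
  have h2 := eb_lt' x.1
  by_cases h : x.2.1 = x.2.2
  · rw [(fl_pos' x h).2]; omega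
  · rw [(fl_neg' x h).2]; omega

theorem fln_ne_flo' {n : ℕ} (x : Ed n × Bool × Bool) : fln x ≠ flo x := by
  have h1 := ea_lt_eb' x.1
  by_cases h : x.2.1 = x.2.2
  · rw [(fl_pos' x h).1, (fl_pos' x h).2]; omega
  · rw [(fl_neg' x h).1, (fl_neg' x h).2]; omega

theorem flag_ext' {n : ℕ} (x y : Ed n × Bool × Bool) (h1 : fln x = fln y) (h2 : flo x = flo y)
    (h3 : x.2.1 = y.2.1) : x = y := by
  have hx := ea_lt_eb' x.1
  have hy := ea_lt_eb' y.1
  have key : ea x.1 = ea y.1 → eb x.1 = eb y.1 → x.1 = y.1 := by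
    intro ha hb
    apply Subtype.ext
    apply Prod.ext
    · exact Fin.ext ha
    · exact Fin.ext hb
  by_cases hx' : x.2.1 = x.2.2
  · by_cases hy' : y.2.1 = y.2.2
    · rw [(fl_pos' x hx').1, (fl_pos' y hy').1] at h1
      rw [(fl_pos' x hx').2, (fl_pos' y hy').2] at h2
      refine Prod.ext (key h1 h2) (Prod.ext h3 ?_)
      rw [← hx', ← hy', h3]
    · exfalso
      rw [(fl_pos' x hx').1, (fl_neg' y hy').1] at h1
      rw [(fl_pos' x hx').2, (fl_neg' y hy').2] at h2
      omega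
  · by_cases hy' : y.2.1 = y.2.2
    · exfalso
      rw [(fl_neg' x hx').1, (fl_pos' y hy').1] at h1
      rw [(fl_neg' x hx').2, (fl_pos' y hy').2] at h2
      omega
    · rw [(fl_neg' x hx').1, (fl_neg' y hy').1] at h1
      rw [(fl_neg' x hx').2, (fl_neg' y hy').2] at h2
      refine Prod.ext (key h2 h1) (Prod.ext h3 ?_)
      revert h3 hx' hy'
      generalize x.2.1 = a
      generalize x.2.2 = b
      generalize y.2.1 = c
      generalize y.2.2 = d
      revert a b c d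
      decide

theorem bit_self' (t : Bool) : bit t + bit t = 0 := by
  cases t <;> decide

theorem bit_ne' (t u : Bool) (h : t ≠ u) : bit t + bit u = 1 := by
  revert h
  cases t <;> cases u <;> simp [bit]

theorem kap_eq (n b : ℕ) (h0 : ℤ) (x : Ed n × Bool × Bool) :
    kap (thn n b h0) x = k0 n (fln x) (flo x) +
      (if h0 ≤ hgt n b (fln x) (flo x) then 1 else 0) := by
  have he := ea_lt_eb' x.1
  by_cases h : x.2.1 = x.2.2
  · rw [(fl_pos' x h).1, (fl_pos' x h).2]
    unfold kap thn k0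
    rw [← h, if_pos he]
    have hb := bit_self' x.2.1
    linear_combination hb
  · rw [(fl_neg' x h).1, (fl_neg' x h).2]
    unfold kap thn k0
    have he' : ¬ eb x.1 < ea x.1 := by omega
    rw [if_neg he', hgt_comm n b (eb x.1) (ea x.1)]
    have hb := bit_ne' _ _ h
    have h2 : (2 : ZMod 2) = 0 := rfl
    have e1 : eb x.1 + 2 * ea x.1 = 2 * ea x.1 + eb x.1 := by ring
    have e2 : 2 * eb x.1 + ea x.1 = ea x.1 + 2 * eb x.1 := by ring
    rw [e1, e2]
    linear_combination hb + h2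

/-- The opposite flag on the same line at the same crossing. -/
def opf {n : ℕ} (x : Ed n × Bool × Bool) : Ed n × Bool × Bool := (x.1, !x.2.1, !x.2.2)

theorem opf_opf {n : ℕ} (x : Ed n × Bool × Bool) : opf (opf x) = x := by
  unfold opf
  simp

theorem fln_opf {n : ℕ} (x : Ed n × Bool × Bool) : fln (opf x) = fln x := by
  by_cases h : x.2.1 = x.2.2
  · have h' : (opf x).2.1 = (opf x).2.2 := by simp [opf, h]
    rw [(fl_pos' x h).1, (fl_pos' _ h').1]
    rfl
  · have h' : (opf x).2.1 ≠ (opf x).2.2 := by simpa [opf] using h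
    rw [(fl_neg' x h).1, (fl_neg' _ h').1]
    rfl

theorem flo_opf {n : ℕ} (x : Ed n × Bool × Bool) : flo (opf x) = flo x := by
  by_cases h : x.2.1 = x.2.2
  · have h' : (opf x).2.1 = (opf x).2.2 := by simp [opf, h]
    rw [(fl_pos' x h).2, (fl_pos' _ h').2]
    rfl
  · have h' : (opf x).2.1 ≠ (opf x).2.2 := by simpa [opf] using h
    rw [(fl_neg' x h).2, (fl_neg' _ h').2]
    rfl

theorem z2_aux : ∀ a b c d : ZMod 2, a ≠ b → (a + c = b + d ↔ c ≠ d) := by decide

theorem cut_line (n : ℕ) (hn : 3 ≤ n) (r : Equiv.Perm (Ed n × Bool × Bool))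
    (h1 : ∀ x, r (r x) = x) (h2 : ∀ x, (r x).1 ≠ x.1) (h3 : ∀ x, fln (r x) = fln x)
    (h4 : ∀ x, (flo (r x), (r x).2.1) = r1 n (fln x) (flo x) x.2.1) (b : ℕ) (hb : b < 4 * n)
    (h0 : ℤ) (l : ℕ) :
    ({x | x ∈ Cut (thn n b h0) r ∧ fln x = l} : Set (Ed n × Bool × Bool)).ncard ≤ 2 := by
  classical
  let τ : Ed n × Bool × Bool → ℤ := fun x => if h0 ≤ hgt n b (fln x) (flo x) then 1 else 0
  let Fw : Ed n × Bool × Bool → Prop := fun x => fwd n (fln x) (flo x) x.2.1
  let In : Ed n × Bool × Bool → Prop := fun x => infl n (fln x) (flo x) x.2.1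
  have hflo : ∀ x, flo (r x) = (r1 n (fln x) (flo x) x.2.1).1 := fun x => congrArg Prod.fst (h4 x)
  have hbit : ∀ x, (r x).2.1 = (r1 n (fln x) (flo x) x.2.1).2 := fun x => congrArg Prod.snd (h4 x)
  have hF : ∀ x, Fw (r x) ↔ ¬ Fw x := by
    intro x
    change fwd n (fln (r x)) (flo (r x)) (r x).2.1 ↔ ¬ fwd n (fln x) (flo x) x.2.1
    rw [h3, hflo, hbit]
    exact r1_fwd n _ _ _ hn (fln_lt' x) (flo_lt' x) (fln_ne_flo' x)
  have hFo : ∀ x, Fw (opf x) ↔ ¬ Fw x := by
    intro x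
    change fwd n (fln (opf x)) (flo (opf x)) (opf x).2.1 ↔ ¬ fwd n (fln x) (flo x) x.2.1
    rw [fln_opf, flo_opf]
    exact fwd_not n _ _ _
  have hτo : ∀ x, τ (opf x) = τ x := by
    intro x
    change (if h0 ≤ hgt n b (fln (opf x)) (flo (opf x)) then (1 : ℤ) else 0) =
      if h0 ≤ hgt n b (fln x) (flo x) then 1 else 0
    rw [fln_opf, flo_opf]
  have hτ01 : ∀ x, τ x = 0 ∨ τ x = 1 := by
    intro x
    change (if h0 ≤ hgt n b (fln x) (flo x) then (1 : ℤ) else 0) = 0 ∨
      (if h0 ≤ hgt n b (fln x) (flo x) then (1 : ℤ) else 0) = 1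
    split
    · right; rfl
    · left; rfl
  -- the colour comparison
  have htz : ∀ x y, ((if h0 ≤ hgt n b (fln x) (flo x) then (1 : ZMod 2) else 0) =
      (if h0 ≤ hgt n b (fln y) (flo y) then (1 : ZMod 2) else 0)) ↔ τ x = τ y := by
    intro x y
    change _ ↔ (if h0 ≤ hgt n b (fln x) (flo x) then (1 : ℤ) else 0) =
      if h0 ≤ hgt n b (fln y) (flo y) then 1 else 0
    by_cases hx : h0 ≤ hgt n b (fln x) (flo x) <;> by_cases hy : h0 ≤ hgt n b (fln y) (flo y) <;>
      simp [hx, hy]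
  have hcutI : ∀ x, In x → (x ∈ Cut (thn n b h0) r ↔ τ (r x) = τ x) := by
    intro x hx
    change kap (thn n b h0) (r x) = kap (thn n b h0) x ↔ _
    rw [kap_eq, kap_eq, ← htz]
    have hk : k0 n (fln (r x)) (flo (r x)) = k0 n (fln x) (flo x) := by
      rw [h3, hflo]
      exact (k0_r1 n _ _ _ hn (fln_lt' x) (flo_lt' x) (fln_ne_flo' x)).2 hx
    rw [hk]
    exact add_right_inj _
  have hcutN : ∀ x, ¬ In x → (x ∈ Cut (thn n b h0) r ↔ τ (r x) ≠ τ x) := by
    intro x hx
    change kap (thn n b h0) (r x) = kap (thn n b h0) x ↔ _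
    rw [kap_eq, kap_eq, Ne, ← htz]
    have hk : k0 n (fln (r x)) (flo (r x)) ≠ k0 n (fln x) (flo x) := by
      intro hk
      rw [h3, hflo] at hk
      exact hx ((k0_r1 n _ _ _ hn (fln_lt' x) (flo_lt' x) (fln_ne_flo' x)).1 hk)
    exact z2_aux _ _ _ _ hk
  -- the forward flags
  let A : Finset (Ed n × Bool × Bool) := Finset.univ.filter (fun x => fln x = l ∧ Fw x)
  have hA : ∀ x, x ∈ A ↔ fln x = l ∧ Fw x := by
    intro x
    simp [A]
  have hsum : ∑ x ∈ A, τ (r x) = ∑ x ∈ A, τ x := by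
    refine Finset.sum_nbij' (fun x => opf (r x)) (fun x => r (opf x)) ?_ ?_ ?_ ?_ ?_
    · intro x hx
      rw [hA] at hx ⊢
      refine ⟨by rw [fln_opf, h3]; exact hx.1, ?_⟩
      rw [hFo, hF]
      exact fun h => h hx.2
    · intro x hx
      rw [hA] at hx ⊢
      refine ⟨by rw [h3, fln_opf]; exact hx.1, ?_⟩
      rw [hF, hFo]
      exact fun h => h hx.2
    · intro x _
      simp only [opf_opf, h1]
    · intro x _
      simp only [opf_opf, h1]
    · intro x _
      simp only [hτo]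
  let s : ℤ := if 2 * n ≤ (b + l + 1) % (4 * n) then 1 else -1
  have hs : s = 1 ∨ s = -1 := by
    change (if 2 * n ≤ (b + l + 1) % (4 * n) then (1 : ℤ) else -1) = 1 ∨
      (if 2 * n ≤ (b + l + 1) % (4 * n) then (1 : ℤ) else -1) = -1
    split
    · left; rfl
    · right; rfl
  have hmono : ∀ x y, hgt n b (fln x) (flo x) ≤ hgt n b (fln y) (flo y) → τ x ≤ τ y := by
    intro x y hxy
    change (if h0 ≤ hgt n b (fln x) (flo x) then (1 : ℤ) else 0) ≤
      if h0 ≤ hgt n b (fln y) (flo y) then 1 else 0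
    split_ifs with ha hb
    · exact le_rfl
    · exact absurd (ha.trans hxy) hb
    · norm_num
    · exact le_rfl
  have hsgn : ∀ x ∈ A, ¬ In x → 0 ≤ s * (τ (r x) - τ x) := by
    intro x hx hi
    rw [hA] at hx
    have hst := step_sign n b (fln x) (flo x) x.2.1 hn hb (fln_lt' x) (flo_lt' x) (fln_ne_flo' x)
      hx.2 hi
    rw [← hflo] at hst
    have h5 : hgt n b (fln x) (flo (r x)) = hgt n b (fln (r x)) (flo (r x)) := by rw [h3]
    rw [h5, hx.1] at hst
    change 0 ≤ (if 2 * n ≤ (b + l + 1) % (4 * n) then (1 : ℤ) else -1) * (τ (r x) - τ x)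
    by_cases hc : 2 * n ≤ (b + l + 1) % (4 * n)
    · rw [if_pos hc] at hst ⊢
      have h6 := hmono x (r x) (by rw [hx.1]; exact hst)
      linarith
    · rw [if_neg hc] at hst ⊢
      have h6 := hmono (r x) x (by rw [hx.1]; exact hst)
      linarith
  have hpt : ∀ x ∈ A, (if x ∈ Cut (thn n b h0) r then (1 : ℤ) else 0) ≤
      s * (τ (r x) - τ x) + (if In x then 1 else 0) := by
    intro x hx
    by_cases hi : In x
    · rw [if_pos hi]
      by_cases hc : x ∈ Cut (thn n b h0) r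
      · rw [if_pos hc, (hcutI x hi).1 hc]
        simp
      · rw [if_neg hc]
        rcases hs with h | h <;> rcases hτ01 x with h' | h' <;> rcases hτ01 (r x) with h'' | h'' <;>
          rw [h, h', h''] <;> norm_num
    · rw [if_neg hi]
      have h7 := hsgn x hx hi
      by_cases hc : x ∈ Cut (thn n b h0) r
      · rw [if_pos hc]
        have hne := (hcutN x hi).1 hc
        revert h7 hne
        rcases hs with h | h <;> rcases hτ01 x with h' | h' <;> rcases hτ01 (r x) with h'' | h'' <;>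
          rw [h, h', h''] <;> norm_num
      · rw [if_neg hc]
        simpa using h7
  have hIn : (A.filter In).card ≤ 1 := by
    rw [Finset.card_le_one]
    intro x hx y hy
    rw [Finset.mem_filter, hA] at hx hy
    obtain ⟨⟨hx1, hx2⟩, hx3⟩ := hx
    obtain ⟨⟨hy1, hy2⟩, hy3⟩ := hy
    have hxy : fln x = fln y := hx1.trans hy1.symm
    have hy2' : fwd n (fln x) (flo y) y.2.1 := by rw [hxy]; exact hy2
    have hy3' : infl n (fln x) (flo y) y.2.1 := by rw [hxy]; exact hy3
    have hu := inf_unique n (fln x) (flo x) (flo y) x.2.1 y.2.1 hn (fln_lt' x) (flo_lt' x)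
      (flo_lt' y) (fln_ne_flo' x) (by rw [hxy]; exact fln_ne_flo' y) hx3 hx2 hy3' hy2'
    exact flag_ext' x y hxy hu.1 hu.2
  have hfc : (A.filter (fun x => x ∈ Cut (thn n b h0) r)).card ≤ 1 := by
    have e1 : ((A.filter (fun x => x ∈ Cut (thn n b h0) r)).card : ℤ) =
        ∑ x ∈ A, (if x ∈ Cut (thn n b h0) r then (1 : ℤ) else 0) := by
      rw [Finset.card_filter]
      push_cast
      rfl
    have e2 : ((A.filter In).card : ℤ) = ∑ x ∈ A, (if In x then (1 : ℤ) else 0) := by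
      rw [Finset.card_filter]
      push_cast
      rfl
    have e3 : ∑ x ∈ A, (s * (τ (r x) - τ x) + (if In x then (1 : ℤ) else 0)) =
        ((A.filter In).card : ℤ) := by
      rw [Finset.sum_add_distrib, ← Finset.mul_sum, Finset.sum_sub_distrib, hsum, sub_self,
        mul_zero, zero_add, ← e2]
    have e4 := Finset.sum_le_sum hpt
    rw [e3, ← e1] at e4
    have e5 : ((A.filter In).card : ℤ) ≤ 1 := by exact_mod_cast hIn
    exact_mod_cast e4.trans e5
  -- all flags of the line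
  have hCr : ∀ x, x ∈ Cut (thn n b h0) r → r x ∈ Cut (thn n b h0) r := by
    intro x hx
    have hx' : kap (thn n b h0) (r x) = kap (thn n b h0) x := hx
    change kap (thn n b h0) (r (r x)) = kap (thn n b h0) (r x)
    rw [h1, hx']
  let B : Finset (Ed n × Bool × Bool) :=
    Finset.univ.filter (fun x => (fln x = l ∧ ¬ Fw x) ∧ x ∈ Cut (thn n b h0) r)
  have hB : B.card ≤ (A.filter (fun x => x ∈ Cut (thn n b h0) r)).card := by
    apply Finset.card_le_card_of_injOn (fun x => r x)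
    · intro x hx
      have hx' : (fln x = l ∧ ¬ Fw x) ∧ x ∈ Cut (thn n b h0) r := by
        simpa [B] using hx
      rw [Finset.mem_coe, Finset.mem_filter, hA]
      exact ⟨⟨by rw [h3]; exact hx'.1.1, (hF x).2 hx'.1.2⟩, hCr x hx'.2⟩
    · intro x _ y _ hxy
      exact r.injective hxy
  have hset : ({x | x ∈ Cut (thn n b h0) r ∧ fln x = l} : Set (Ed n × Bool × Bool)) =
      ((A.filter (fun x => x ∈ Cut (thn n b h0) r) ∪ B : Finset (Ed n × Bool × Bool)) :
        Set (Ed n × Bool × Bool)) := by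
    ext x
    rw [Finset.mem_coe, Finset.mem_union, Finset.mem_filter, hA]
    have hBx : x ∈ B ↔ (fln x = l ∧ ¬ Fw x) ∧ x ∈ Cut (thn n b h0) r := by simp [B]
    rw [hBx]
    constructor
    · rintro ⟨hc, hl⟩
      by_cases hw : Fw x
      · exact Or.inl ⟨⟨hl, hw⟩, hc⟩
      · exact Or.inr ⟨⟨hl, hw⟩, hc⟩
    · rintro (⟨⟨hl, _⟩, hc⟩ | ⟨⟨hl, _⟩, hc⟩)
      · exact ⟨hc, hl⟩
      · exact ⟨hc, hl⟩
  rw [hset, Set.ncard_coe_finset]
  calc _ ≤ _ := Finset.card_union_le _ _
    _ ≤ 1 + 1 := Nat.add_le_add hfc (hB.trans hfc)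

theorem cut_bound (n : ℕ) (hn : 3 ≤ n) (r : Equiv.Perm (Ed n × Bool × Bool))
    (h1 : ∀ x, r (r x) = x) (h2 : ∀ x, (r x).1 ≠ x.1) (h3 : ∀ x, fln (r x) = fln x)
    (h4 : ∀ x, (flo (r x), (r x).2.1) = r1 n (fln x) (flo x) x.2.1) (b : ℕ) (hb : b < 4 * n)
    (h0 : ℤ) : (Cut (thn n b h0) r).ncard ≤ 4 * n := by
  classical
  let C : Finset (Ed n × Bool × Bool) := Finset.univ.filter (fun x => x ∈ Cut (thn n b h0) r)
  have hC : Cut (thn n b h0) r = (C : Set (Ed n × Bool × Bool)) := by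
    ext x
    simp [C]
  have hfib : C.card = ∑ l ∈ Finset.range (2 * n), (C.filter (fun x => fln x = l)).card :=
    Finset.card_eq_sum_card_fiberwise
      (fun x _ => Finset.mem_coe.2 (Finset.mem_range.2 (fln_lt' x)))
  have hle : ∀ l ∈ Finset.range (2 * n), (C.filter (fun x => fln x = l)).card ≤ 2 := by
    intro l _
    have h := cut_line n hn r h1 h2 h3 h4 b hb h0 l
    have e : ({x | x ∈ Cut (thn n b h0) r ∧ fln x = l} : Set (Ed n × Bool × Bool)) =
        ((C.filter (fun x => fln x = l) : Finset (Ed n × Bool × Bool)) :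
          Set (Ed n × Bool × Bool)) := by
      ext x
      simp [C]
    rw [e, Set.ncard_coe_finset] at h
    exact h
  rw [hC, Set.ncard_coe_finset, hfib]
  calc _ ≤ ∑ _l ∈ Finset.range (2 * n), 2 := Finset.sum_le_sum hle
    _ = 4 * n := by simp; ring

end Pool.Agent.Helper226_Obs
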