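import Pool.Agent.Helper226_Obs.FP.D05
import Pool.Agent.Helper226_Obs.FP.D06
import Pool.Agent.Helper226_Obs.FP.D07
import Pool.Agent.Helper226_Obs.FP.D08

set_option autoImplicit false

namespace Pool.Agent.Helper226_Obs

open SimpleGraph

theorem fp_dd (n b x : ℕ) : ∃ d : ℤ, 0 ≤ d ∧ (d = 2 * (x : ℤ) - b ∨ d = b - 2 * (x : ℤ)) ∧
    ((d ≤ 2 * n ∧ dd n b x = n - d) ∨ (2 * (n : ℤ) ≤ d ∧ dd n b x = n - (4 * n - d))) := by
  unfold dd
  refine ⟨|2 * (x : ℤ) - b|, abs_nonneg _, ?_, ?_⟩
  · rcases abs_choice (2 * (x : ℤ) - b) with h | h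
    · exact Or.inl h
    · right; rw [h]; ring
  · rcases le_total (|2 * (x : ℤ) - b|) (4 * n - |2 * (x : ℤ) - b|) with h | h
    · left
      rw [min_eq_left h]
      exact ⟨by linarith, rfl⟩
    · right
      rw [min_eq_right h]
      exact ⟨by linarith, rfl⟩

theorem fp_psi_succ (n b x : ℕ) : psi n b (x + 1) = psi n b x + dd n b x := by
  unfold psi
  rw [Finset.sum_range_succ]

theorem fp_psi_zero (n b : ℕ) : psi n b 0 = 0 := by
  unfold psi
  simp

theorem fp_dd_hm (n b k : ℕ) (hb : b < 4 * n) (hk : k < 2 * n) :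
    dd n b (hm n k) = - dd n b k := by
  unfold hm
  split_ifs with h
  · exact dd_anti n b k hb h
  · have := dd_anti n b (k - n) hb (by omega)
    rw [Nat.sub_add_cancel (by omega)] at this
    linarith

theorem fp_S (n b k i : ℕ) (hn : 1 ≤ n) (hb : b < 4 * n) (hk : k < 2 * n)
    (hi : i = if k + 1 = 2 * n then 0 else k + 1) :
    psi n b (hm n i) - psi n b i = psi n b (hm n k) - psi n b k - 2 * dd n b k := by
  have h1 := fp_dd_hm n b k hb hk
  have h2 := fp_psi_succ n b k
  have h3 := fp_psi_succ n b (hm n k)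
  have h4 := fp_psi_zero n b
  have h5 := psi_total n b hb
  by_cases hk1 : k + 1 = 2 * n
  · rw [if_pos hk1] at hi
    subst hi
    rw [hk1, h5] at h2
    have e1 : hm n 0 = n := by unfold hm; rw [if_pos (by omega)]; omega
    have e2 : hm n k + 1 = n := by unfold hm; rw [if_neg (by omega)]; omega
    rw [e2] at h3
    rw [e1, h4]
    linarith
  · rw [if_neg hk1] at hi
    subst hi
    by_cases hk2 : k + 1 = n
    · have e1 : hm n (k + 1) = 0 := by unfold hm; rw [if_neg (by omega)]; omega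
      have e2 : hm n k + 1 = 2 * n := by unfold hm; rw [if_pos (by omega)]; omega
      rw [e2, h5] at h3
      rw [e1, h4]
      linarith
    · have e2 : hm n k + 1 = hm n (k + 1) := by
        unfold hm
        split_ifs <;> omega
      rw [e2] at h3
      linarith

theorem fp_gm_lt (n l m : ℕ) (t : Bool) (hl : l < 2 * n) (hm' : m < 2 * n) : gm n l m t < 2 * n := by
  unfold gm
  split_ifs <;> omega

theorem fp_hm_lt (n m : ℕ) (hm' : m < 2 * n) : hm n m < 2 * n := by
  unfold hm
  split_ifs <;> omega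

theorem fp_pm_lt (n m : ℕ) (hm' : m < 2 * n) : pm n m < 2 * n := by
  unfold pm
  split_ifs <;> omega

/-- the deletion flags -/
theorem fp_del (n : ℕ) (hn : 3 ≤ n) (l m b : ℕ) (hl : l < 2 * n) (hm' : m < 2 * n) (hlm : l ≠ m)
    (hbk : b = 2 * gm n l m true) :
    (infl n l m true ↔ hgt n b l m ≤ hgt n b l (r1 n l m true).1) := by
  obtain ⟨k, hk⟩ : ∃ k, k = gm n l m true := ⟨_, rfl⟩
  have hk2 : k < 2 * n := by rw [hk]; exact fp_gm_lt n l m true hl hm'
  have hb : b < 4 * n := by rw [hbk, ← hk]; omega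
  rw [← hk] at hbk
  have t1 := hgt_T1 n b l m hb hl hm'
  rw [← hk] at t1
  obtain ⟨dk, dk0, dk1, dk2⟩ := fp_dd n b k
  obtain ⟨dm, dm0, dm1, dm2⟩ := fp_dd n b m
  unfold infl r1
  rw [← hk]
  by_cases h1 : k = l
  · have h2 : k ≠ m := by omega
    obtain ⟨c, hc⟩ : ∃ c, c = gm n l l false := ⟨_, rfl⟩
    have hnot : (!true) = false := rfl
    rw [hnot, ← hc, if_pos h1]
    by_cases h3 : c = l
    · rw [if_pos h3]
      have h4 : (k = m ∨ k = l ∧ c = l) := Or.inr ⟨h1, h3⟩
      have t2 := hgt_I0 n b l l hb hl hl (by rw [← hc]; exact h3)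
      have t3 := S_bound n b l (by omega) hb hl (by
        rw [hbk, h1]
        have : (2 * l + 4 * n - 2 * l) = 4 * n := by omega
        rw [this, Nat.mod_self]; omega)
      obtain ⟨dp, dp0, dp1, dp2⟩ := fp_dd n b (pm n l)
      have hp : (pm n l : ℤ) = (l : ℤ) - 1 ∨ (pm n l : ℤ) = (l : ℤ) + 2 * n - 1 := by
        unfold pm; split_ifs <;> omega
      simp only [h4, true_iff]
      rw [h1] at t1 dk1 dk2 hbk
      omega
    · rw [if_neg h3]
      have h4 : ¬ (k = m ∨ k = l ∧ c = l) := by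
        rintro (h | h)
        · exact h2 h
        · exact h3 h.2
      have t2 := hgt_T0 n b l l hb hl hl
      rw [← hc] at t2
      have e1 : pm n c = m := by
        rw [hc]
        rw [h1] at hk
        unfold gm at hk ⊢
        unfold pm
        simp only [if_true, Bool.false_eq_true, if_false] at hk ⊢
        split_ifs at hk ⊢ <;> omega
      obtain ⟨dp, dp0, dp1, dp2⟩ := fp_dd n b (pm n l)
      have hp : (pm n l : ℤ) = (l : ℤ) - 1 ∨ (pm n l : ℤ) = (l : ℤ) + 2 * n - 1 := by
        unfold pm; split_ifs <;> omega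
      simp only [h4, false_iff, not_le]
      rw [h1] at t1 dk1 dk2 hbk
      rw [e1] at t2
      omega
  · rw [if_neg h1]
    by_cases h2 : k = m
    · rw [if_pos h2]
      have h4 : (k = m ∨ k = l ∧ gm n l l (!true) = l) := Or.inl h2
      have t2 := hgt_I1 n b l m hb hl hm' (by rw [← hk]; exact h2)
      have t3 := S_bound n b m (by omega) hb hm' (by
        rw [hbk, h2]
        have : (2 * m + 4 * n - 2 * m) = 4 * n := by omega
        rw [this, Nat.mod_self]; omega)
      by_cases h3 : hm n m = l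
      · rw [if_pos h3]
        have t4 := hgt_T0 n b l l hb hl hl
        have hnot : (!true) = false := rfl
        rw [hnot]
        obtain ⟨c, hc⟩ : ∃ c, c = gm n l l false := ⟨_, rfl⟩
        rw [← hc] at t4 ⊢
        have hcl : c < 2 * n := by rw [hc]; exact fp_gm_lt n l l false hl hl
        have hpc := fp_pm_lt n c hcl
        have hpl := fp_pm_lt n l hl
        obtain ⟨dp, dp0, dp1, dp2⟩ := fp_dd n b (pm n l)
        obtain ⟨dc, dc0, dc1, dc2⟩ := fp_dd n b (pm n c)
        rw [h3] at t2 t3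
        have h4' : (k = m ∨ k = l ∧ c = l) := Or.inl h2
        simp only [h4', true_iff]
        rw [h2] at dk1 dk2 hbk
        omega
      · rw [if_neg h3]
        simp only [h4, true_iff]
        rw [h2] at dk1 dk2 hbk
        omega
    · rw [if_neg h2]
      have h4 : ¬ (k = m ∨ k = l ∧ gm n l l (!true) = l) := by
        rintro (h | h)
        · exact h2 h
        · exact h1 h.1
      simp only [h4, false_iff, not_le]
      omega

theorem fp_k0_nat (n i j : ℕ) : k0 n i j =
    (((if i < j then 1 else 0) + fl n (i + 2 * j) + fl n (2 * i + j) : ℕ) : ZMod 2) := by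
  unfold k0
  push_cast
  rfl

theorem fp_k0 (n i j : ℕ) (hi : i < 2 * n) (hj : j < 2 * n) (hij : i ≠ j)
    (h : k0 n i j = 1) : (gm n i j true < i ∧ i < j) ∨ (i < j ∧ j ≤ gm n i j true) ∨
      (j ≤ gm n i j true ∧ gm n i j true < i) := by
  rw [fp_k0_nat] at h
  have h2 : ((1 : ℕ) : ZMod 2) = 1 := Nat.cast_one
  rw [← h2] at h
  have h3 := (ZMod.natCast_eq_natCast_iff' _ _ 2).mp h
  unfold fl at h3
  unfold gm
  simp only [if_true] at *
  split_ifs at * <;> omega

theorem fp_k0_sum (n i j : ℕ) (hi : i < 2 * n) (hj : j < 2 * n) (hij : i ≠ j)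
    (h : k0 n i j ≠ 1) : k0 n j i = 1 := by
  have h1 : ∀ z : ZMod 2, z ≠ 1 → z = 0 := by decide
  have h2 := h1 _ h
  rw [fp_k0_nat] at h2 ⊢
  have h2' : ((0 : ℕ) : ZMod 2) = 0 := Nat.cast_zero
  rw [← h2'] at h2
  have h3 := (ZMod.natCast_eq_natCast_iff' _ _ 2).mp h2
  have h4 : ((1 : ℕ) : ZMod 2) = 1 := Nat.cast_one
  rw [← h4]
  apply (ZMod.natCast_eq_natCast_iff' _ _ 2).mpr
  have e1 : fl n (j + 2 * i) = fl n (2 * i + j) := by rw [Nat.add_comm]
  have e2 : fl n (2 * j + i) = fl n (i + 2 * j) := by rw [Nat.add_comm]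
  rw [e1, e2]
  split_ifs at * <;> omega

theorem fp_dd_bd (n b x : ℕ) (hb : b < 4 * n) (hx : x < 2 * n) :
    dd n b x ≤ n ∧ -(n : ℤ) ≤ dd n b x := by
  obtain ⟨d, d0, d1, d2⟩ := fp_dd n b x
  constructor <;> omega

/-- the contraction flags -/
theorem fp_con1 (n : ℕ) (hn : 3 ≤ n) (i j k b : ℕ) (hi : i < 2 * n) (hj : j < 2 * n) (hij : i ≠ j)
    (hk : k = gm n i j true) (hk0 : k0 n i j = 1)
    (hbk : b = if k < i then i + k else if i + k < 2 * n then i + k + 2 * n else i + k - 2 * n) :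
    (infl n i j true ↔ hgt n b i j ≤ hgt n b i (r1 n i j true).1) := by
  have hcyc := fp_k0 n i j hi hj hij hk0
  rw [← hk] at hcyc
  have hk2 : k < 2 * n := by rw [hk]; exact fp_gm_lt n i j true hi hj
  have hb : b < 4 * n := by rw [hbk]; split_ifs <;> omega
  have t1 := hgt_T1 n b i j hb hi hj
  rw [← hk] at t1
  obtain ⟨dk, dk0, dk1, dk2⟩ := fp_dd n b k
  obtain ⟨dj, dj0, dj1, dj2⟩ := fp_dd n b j
  unfold infl r1
  rw [← hk]
  have h1 : k ≠ i := by omega
  rw [if_neg h1]
  by_cases h2 : k = j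
  · rw [if_pos h2]
    have t2 := hgt_I1 n b i j hb hi hj (by rw [← hk]; exact h2)
    -- the value of S j
    have hS : (n : ℤ) ≤ psi n b (hm n j) - psi n b j ∨
        (psi n b (hm n j) - psi n b j = 0 ∧ (b + 4 * n - 2 * j) % (4 * n) = 2 * n - 1) := by
      rcases Nat.lt_or_ge ((b + 4 * n - 2 * j) % (4 * n)) (2 * n - 1) with h | h
      · left
        exact S_bound n b j (by omega) hb hj (by omega)
      · right
        have h5 : (b + 4 * n - 2 * j) % (4 * n) = 2 * n - 1 := by
          rcases Nat.lt_or_ge (b + 4 * n - 2 * j) (4 * n) with h6 | h6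
          · rw [Nat.mod_eq_of_lt h6] at h ⊢
            split_ifs at hbk <;> omega
          · rw [Nat.mod_eq_sub_mod h6, Nat.mod_eq_of_lt (by omega)] at h ⊢
            split_ifs at hbk <;> omega
        exact ⟨S_zero n b j (by omega) hb hj h5, h5⟩
    have hmod : (b + 4 * n - 2 * j) % (4 * n) = 2 * n - 1 → b + 4 * n - 2 * j = 2 * n - 1 ∨
        b + 4 * n - 2 * j = 6 * n - 1 := by
      intro h5
      rcases Nat.lt_or_ge (b + 4 * n - 2 * j) (4 * n) with h6 | h6
      · rw [Nat.mod_eq_of_lt h6] at h5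
        exact Or.inl h5
      · rw [Nat.mod_eq_sub_mod h6, Nat.mod_eq_of_lt (by omega)] at h5
        right; omega
    by_cases h3 : hm n j = i
    · rw [if_pos h3]
      have t4 := hgt_T0 n b i i hb hi hi
      obtain ⟨c, hc⟩ : ∃ c, c = gm n i i (!true) := ⟨_, rfl⟩
      have hc' : c = gm n i i false := hc
      rw [← hc'] at t4
      rw [← hc]
      have hcl : c < 2 * n := by rw [hc]; exact fp_gm_lt n i i _ hi hi
      have hpc := fp_pm_lt n c hcl
      have hpl := fp_pm_lt n i hi
      have b1 := fp_dd_bd n b (pm n c) hb hpc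
      have b2 := fp_dd_bd n b (pm n i) hb hpl
      have b3 := fp_dd_bd n b j hb hj
      have h3' : hm n j = i := h3
      unfold hm at h3'
      have hSn : (n : ℤ) ≤ psi n b (hm n j) - psi n b j := by
        rcases hS with h | ⟨_, h⟩
        · exact h
        · exfalso
          clear t1 t2 t4 b1 b2 b3 dk0 dk1 dk2 dj0 dj1 dj2
          rcases hmod h with h | h <;> split_ifs at hbk h3' <;> omega
      rw [h3] at t2 hSn
      have h4' : (k = j ∨ k = i ∧ c = i) := Or.inl h2
      simp only [h4', true_iff]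
      linarith [b1.1, b1.2, b2.1, b2.2, b3.1, b3.2]
    · rw [if_neg h3]
      have h4' : (k = j ∨ k = i ∧ gm n i i (!true) = i) := Or.inl h2
      simp only [h4', true_iff]
      split_ifs at hbk <;> omega
  · rw [if_neg h2]
    have h4 : ¬ (k = j ∨ k = i ∧ gm n i i (!true) = i) := by
      rintro (h | h)
      · exact h2 h
      · exact h1 h.1
    simp only [h4, false_iff, not_le]
    split_ifs at hbk <;> omega

theorem fp_con2 (n : ℕ) (hn : 3 ≤ n) (i j k b : ℕ) (hi : i < 2 * n) (hj : j < 2 * n) (hij : i ≠ j)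
    (hk : k = gm n i j true) (hk0 : k0 n i j = 1)
    (hbk : b = if k < i then i + k else if i + k < 2 * n then i + k + 2 * n else i + k - 2 * n) :
    (infl n j i false ↔ hgt n b j i ≤ hgt n b j (r1 n j i false).1) := by
  have hcyc := fp_k0 n i j hi hj hij hk0
  rw [← hk] at hcyc
  have hk2 : k < 2 * n := by rw [hk]; exact fp_gm_lt n i j true hi hj
  have hb : b < 4 * n := by rw [hbk]; split_ifs <;> omega
  obtain ⟨c, hc⟩ : ∃ c, c = gm n j i false := ⟨_, rfl⟩
  have hck : c = if k + 1 = 2 * n then 0 else k + 1 := by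
    rw [hc, hk]
    unfold gm
    simp only [if_true, Bool.false_eq_true, if_false]
    split_ifs <;> omega
  have t1 := hgt_T0 n b j i hb hj hi
  rw [← hc] at t1
  have hpc : pm n c = k := by
    by_cases hz : k + 1 = 2 * n
    · rw [if_pos hz] at hck
      unfold pm
      rw [if_pos hck]; omega
    · rw [if_neg hz] at hck
      unfold pm
      rw [if_neg (by omega)]; omega
  rw [hpc] at t1
  obtain ⟨dk, dk0, dk1, dk2⟩ := fp_dd n b k
  obtain ⟨dp, dp0, dp1, dp2⟩ := fp_dd n b (pm n i)
  have hp : (pm n i : ℤ) = (i : ℤ) - 1 ∧ 1 ≤ i ∨ (pm n i : ℤ) = 2 * n - 1 ∧ i = 0 := by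
    unfold pm; split_ifs <;> omega
  unfold infl r1
  rw [← hc]
  have h1 : c ≠ j := by
    rw [hck]
    split_ifs <;> omega
  rw [if_neg h1]
  by_cases h2 : c = i
  · rw [if_pos h2]
    have hki : i = if k + 1 = 2 * n then 0 else k + 1 := by rw [← h2]; exact hck
    have t2 := hgt_I0 n b j i hb hj hi (by rw [← hc]; exact h2)
    have hS1 := fp_S n b k i (by omega) hb hk2 hki
    have hS2 := S_bound2 n b k (by omega) hb hk2 (by
      rcases Nat.lt_or_ge (b + 4 * n - 2 * k) (4 * n) with h6 | h6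
      · rw [Nat.mod_eq_of_lt h6]
        split_ifs at hbk hki <;> omega
      · rw [Nat.mod_eq_sub_mod h6, Nat.mod_eq_of_lt (by omega)]
        split_ifs at hbk hki <;> omega)
    have hpk : pm n i = k := by rw [← h2]; exact hpc
    rw [hpk] at t2
    have hdk : dd n b k = n - 1 := by
      split_ifs at hbk hki <;> omega
    by_cases h3 : hm n i = j
    · rw [if_pos h3]
      have t4 := hgt_T1 n b j j hb hj hj
      obtain ⟨c', hc'⟩ : ∃ c', c' = gm n j j true := ⟨_, rfl⟩
      have hnot : (!false) = true := rfl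
      rw [hnot, ← hc']
      rw [← hc'] at t4
      have hc2 : c' < 2 * n := by rw [hc']; exact fp_gm_lt n j j _ hj hj
      have b0 := fp_dd_bd n b c' hb hc2
      have hodd : (b : ℤ) = 2 * k + 1 := by
        clear dk0 dk1 dk2 dp0 dp1 dp2 t1 t2 t4 hS1 hS2 hdk b0
        split_ifs at hbk hki <;> omega
      have b1 : dd n b c' ≤ n - 1 := by
        obtain ⟨dc, dc0, dc1, dc2⟩ := fp_dd n b c'
        clear dk0 dk1 dk2 dp0 dp1 dp2 t1 t2 t4 hS1 hS2 hdk hbk hki hck hcyc
        omega
      have b2 : dd n b i = n - 1 := by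
        obtain ⟨di, di0, di1, di2⟩ := fp_dd n b i
        clear dk0 dk1 dk2 dp0 dp1 dp2 t1 t2 t4 hS1 hS2 hdk hbk hcyc b0 b1
        split_ifs at hki <;> omega
      have b3 : dd n b j = - dd n b i := by
        rw [← h3]
        exact fp_dd_hm n b i hb hi
      rw [h3] at t2 hS1
      have h4' : (c = i ∨ c = j ∧ c' = j) := Or.inl h2
      simp only [h4', true_iff]
      linarith
    · rw [if_neg h3]
      have h4' : (c = i ∨ c = j ∧ gm n j j (!false) = j) := Or.inl h2
      simp only [h4', true_iff]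
      omega
  · rw [if_neg h2]
    have h4 : ¬ (c = i ∨ c = j ∧ gm n j j (!false) = j) := by
      rintro (h | h)
      · exact h2 h
      · exact h1 h.1
    simp only [h4, false_iff, not_le]
    split_ifs at hbk hck <;> omega

theorem fp_z2 (a c : ZMod 2) (P : Prop) [Decidable P] :
    (a + (if P then 1 else 0) = c + 1) ↔ ((a = c) ↔ P) := by
  by_cases h : P
  · rw [if_pos h]
    constructor
    · intro h1
      have : a = c := add_right_cancel h1
      exact ⟨fun _ => h, fun _ => this⟩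
    · intro h1
      rw [h1.mpr h]
  · rw [if_neg h]
    have key : ∀ a c : ZMod 2, (a + 0 = c + 1) ↔ a ≠ c := by decide
    rw [key]
    constructor
    · intro h1
      exact ⟨fun h2 => absurd h2 h1, fun h2 => absurd h2 h⟩
    · intro h1 h2
      exact h (h1.mp h2)

theorem fp_flt {n : ℕ} (x : Ed n × Bool × Bool) :
    fln x < 2 * n ∧ flo x < 2 * n ∧ fln x ≠ flo x := by
  have h1 : ea x.1 < 2 * n := x.1.1.1.2
  have h2 : eb x.1 < 2 * n := x.1.1.2.2
  have h3 : ea x.1 < eb x.1 := x.1.2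
  unfold fln flo
  split_ifs <;> omega

theorem cut_iff (n : ℕ) (hn : 3 ≤ n) (r : Equiv.Perm (Ed n × Bool × Bool))
    (h3 : ∀ x, fln (r x) = fln x)
    (h4 : ∀ x, (flo (r x), (r x).2.1) = r1 n (fln x) (flo x) x.2.1) (b : ℕ)
    (x : Ed n × Bool × Bool) :
    x ∈ Cut (thn n b (hgt n b (fln x) (flo x))) r ↔
      (infl n (fln x) (flo x) x.2.1 ↔
        hgt n b (fln x) (flo x) ≤ hgt n b (fln x) (r1 n (fln x) (flo x) x.2.1).1) := by
  obtain ⟨hl, hm', hlm⟩ := fp_flt x
  have e1 := kap_eq n b (hgt n b (fln x) (flo x)) x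
  have e2 := kap_eq n b (hgt n b (fln x) (flo x)) (r x)
  have e3 : flo (r x) = (r1 n (fln x) (flo x) x.2.1).1 := by
    rw [← h4 x]
  rw [h3 x, e3] at e2
  rw [if_pos (le_refl _)] at e1
  unfold Cut
  rw [Set.mem_ofPred_eq, e1, e2, fp_z2, k0_r1 n _ _ _ hn hl hm' hlm]

theorem fp_gm_comm (n l m : ℕ) : gm n l m true = gm n m l true := by
  unfold gm
  simp only [if_true]
  split_ifs <;> omega

theorem del_flags (n : ℕ) (hn : 3 ≤ n) (r : Equiv.Perm (Ed n × Bool × Bool))
    (h3 : ∀ x, fln (r x) = fln x)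
    (h4 : ∀ x, (flo (r x), (r x).2.1) = r1 n (fln x) (flo x) x.2.1) (e : Ed n) :
    ∃ b < 4 * n, (e, true, false) ∈ Cut (thn n b (hgt n b (ea e) (eb e))) r ∧
      (e, true, true) ∈ Cut (thn n b (hgt n b (ea e) (eb e))) r := by
  have h1 : ea e < 2 * n := e.1.1.2
  have h2 : eb e < 2 * n := e.1.2.2
  have h12 : ea e < eb e := e.2
  have hk := fp_gm_lt n (ea e) (eb e) true h1 h2
  refine ⟨2 * gm n (ea e) (eb e) true, by omega, ?_, ?_⟩
  · have h5 := cut_iff n hn r h3 h4 (2 * gm n (ea e) (eb e) true) (e, true, false)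
    have e1 : fln (e, true, false) = eb e := by unfold fln; simp
    have e2 : flo (e, true, false) = ea e := by unfold flo; simp
    rw [e1, e2, hgt_comm n _ (eb e) (ea e)] at h5
    rw [h5]
    rw [hgt_comm n _ (ea e) (eb e)]
    exact fp_del n hn (eb e) (ea e) _ h2 h1 (by omega) (by rw [fp_gm_comm])
  · have h5 := cut_iff n hn r h3 h4 (2 * gm n (ea e) (eb e) true) (e, true, true)
    have e1 : fln (e, true, true) = ea e := by unfold fln; simp
    have e2 : flo (e, true, true) = eb e := by unfold flo; simp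
    rw [e1, e2] at h5
    rw [h5]
    exact fp_del n hn (ea e) (eb e) _ h1 h2 (by omega) rfl

theorem fp_conb (n i k : ℕ) (hi : i < 2 * n) (hk : k < 2 * n) :
    (if k < i then i + k else if i + k < 2 * n then i + k + 2 * n else i + k - 2 * n) < 4 * n := by
  split_ifs <;> omega

theorem con_flags (n : ℕ) (hn : 3 ≤ n) (r : Equiv.Perm (Ed n × Bool × Bool))
    (h3 : ∀ x, fln (r x) = fln x)
    (h4 : ∀ x, (flo (r x), (r x).2.1) = r1 n (fln x) (flo x) x.2.1) (e : Ed n) :
    ∃ b < 4 * n, ∃ u, (e, false, u) ∈ Cut (thn n b (hgt n b (ea e) (eb e))) r ∧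
      (e, true, u) ∈ Cut (thn n b (hgt n b (ea e) (eb e))) r := by
  have h1 : ea e < 2 * n := e.1.1.2
  have h2 : eb e < 2 * n := e.1.2.2
  have h12 : ea e < eb e := e.2
  by_cases h0 : k0 n (ea e) (eb e) = 1
  · obtain ⟨k, hk⟩ : ∃ k, k = gm n (ea e) (eb e) true := ⟨_, rfl⟩
    have hk2 : k < 2 * n := by rw [hk]; exact fp_gm_lt n (ea e) (eb e) true h1 h2
    obtain ⟨b, hb⟩ : ∃ b, b = if k < ea e then ea e + k else
      if ea e + k < 2 * n then ea e + k + 2 * n else ea e + k - 2 * n := ⟨_, rfl⟩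
    have hbn : b < 4 * n := by rw [hb]; exact fp_conb n _ k h1 hk2
    refine ⟨b, hbn, true, ?_, ?_⟩
    · have h5 := cut_iff n hn r h3 h4 b (e, false, true)
      have e1 : fln (e, false, true) = eb e := by unfold fln; simp
      have e2 : flo (e, false, true) = ea e := by unfold flo; simp
      rw [e1, e2, hgt_comm n _ (eb e) (ea e)] at h5
      rw [h5]
      rw [hgt_comm n _ (ea e) (eb e)]
      exact fp_con2 n hn (ea e) (eb e) k b h1 h2 (by omega) hk h0 hb
    · have h5 := cut_iff n hn r h3 h4 b (e, true, true)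
      have e1 : fln (e, true, true) = ea e := by unfold fln; simp
      have e2 : flo (e, true, true) = eb e := by unfold flo; simp
      rw [e1, e2] at h5
      rw [h5]
      exact fp_con1 n hn (ea e) (eb e) k b h1 h2 (by omega) hk h0 hb
  · have h0' := fp_k0_sum n (ea e) (eb e) h1 h2 (by omega) h0
    obtain ⟨k, hk⟩ : ∃ k, k = gm n (eb e) (ea e) true := ⟨_, rfl⟩
    have hk2 : k < 2 * n := by rw [hk]; exact fp_gm_lt n (eb e) (ea e) true h2 h1
    obtain ⟨b, hb⟩ : ∃ b, b = if k < eb e then eb e + k else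
      if eb e + k < 2 * n then eb e + k + 2 * n else eb e + k - 2 * n := ⟨_, rfl⟩
    have hbn : b < 4 * n := by rw [hb]; exact fp_conb n _ k h2 hk2
    refine ⟨b, hbn, false, ?_, ?_⟩
    · have h5 := cut_iff n hn r h3 h4 b (e, false, false)
      have e1 : fln (e, false, false) = ea e := by unfold fln; simp
      have e2 : flo (e, false, false) = eb e := by unfold flo; simp
      rw [e1, e2] at h5
      rw [h5]
      exact fp_con2 n hn (eb e) (ea e) k b h2 h1 (by omega) hk h0' hb
    · have h5 := cut_iff n hn r h3 h4 b (e, true, false)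
      have e1 : fln (e, true, false) = eb e := by unfold fln; simp
      have e2 : flo (e, true, false) = ea e := by unfold flo; simp
      rw [e1, e2, hgt_comm n _ (eb e) (ea e)] at h5
      rw [h5]
      rw [hgt_comm n _ (ea e) (eb e)]
      exact fp_con1 n hn (eb e) (ea e) k b h2 h1 (by omega) hk h0' hb

end Pool.Agent.Helper226_Obs
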