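import Pool.Agent.Helper226_Obs.Defs

set_option autoImplicit false

/-!
Rotation systems on `E × Bool`, quadrangulations given by labels, and auxiliary graph operations.
-/

namespace Pool.Agent.Helper226_Obs

open SimpleGraph

/-- The number of orbits (cycles, fixed points included) of a permutation. -/
noncomputable def nOrb {D : Type} (σ : Equiv.Perm D) : ℕ :=
  Nat.card (Quotient (Equiv.Perm.SameCycle.setoid σ))

/-- Reversal of a dart `(e, t)`. -/
def flp {E : Type} : Equiv.Perm (E × Bool) where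
  toFun d := (d.1, !d.2)
  invFun d := (d.1, !d.2)
  left_inv := by intro d; simp
  right_inv := by intro d; simp

@[simp] theorem flp_apply {E : Type} (d : E × Bool) : flp d = (d.1, !d.2) := rfl

/-- The graph with edges `e : E`, the ends of the edge `e` being `vt (e, false)` and
`vt (e, true)`. -/
def mapGraph {E V : Type} (vt : E × Bool → V) : SimpleGraph V where
  Adj u v := u ≠ v ∧ ∃ d, vt d = u ∧ vt (flp d) = v
  symm := by
    refine ⟨?_⟩
    rintro u v ⟨h, d, hd, hd'⟩
    exact ⟨h.symm, flp d, hd', by rw [← hd]; simp⟩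
  loopless := ⟨fun _ h => h.1 rfl⟩

/-- `rot` is a rotation system for the vertices `vt`. -/
def RotAt {E V : Type} (vt : E × Bool → V) (rot : Equiv.Perm (E × Bool)) : Prop :=
  (∀ d, vt (rot d) = vt d) ∧ ∀ d d', vt d = vt d' → rot.SameCycle d d'

/-- The graph on the vertices `Set.range vt` is connected. -/
def ConnV {E V : Type} (vt : E × Bool → V) : Prop :=
  ∀ w : V → ZMod 2, (∀ d, w (vt d) = w (vt (flp d))) → ∀ d d', w (vt d) = w (vt d')

/-- `r` describes the corners of a surface map: the flags `(e, t, u)` (an edge, one of its ends and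
one of its sides) are matched in pairs by `r`, the flags of a pair having the same vertex and the
same face, and the flags at a vertex form one cycle. -/
structure PM {E V F : Type} (vt : E × Bool → V) (fc : E × Bool → F)
    (r : Equiv.Perm (E × Bool × Bool)) : Prop where
  invol : ∀ x, r (r x) = x
  ne : ∀ x, r x ≠ x
  vt_r : ∀ x, vt ((r x).1, (r x).2.1) = vt (x.1, x.2.1)
  fc_r : ∀ x, fc ((r x).1, (r x).2.2) = fc (x.1, x.2.2)
  trans : ∀ w : E × Bool × Bool → ZMod 2, (∀ x, w (r x) = w x) →
    (∀ x, w (x.1, x.2.1, !x.2.2) = w x) →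
    ∀ x y : E × Bool × Bool, vt (x.1, x.2.1) = vt (y.1, y.2.1) → w x = w y

/-- `0` or `1` in `ZMod 2`. -/
def bit (t : Bool) : ZMod 2 := if t then 1 else 0

/-- The colour of a flag. -/
def kap {E : Type} (θ : E → ZMod 2) (x : E × Bool × Bool) : ZMod 2 :=
  θ x.1 + bit x.2.1 + bit x.2.2

/-- The cut flags: the flags having the same colour as their partner. -/
def Cut {E : Type} (θ : E → ZMod 2) (r : Equiv.Perm (E × Bool × Bool)) : Set (E × Bool × Bool) :=
  {x | kap θ (r x) = kap θ x}

/-- Contraction of the edge `uv`: the vertex `v` is merged into `u` and becomes isolated. -/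
def ctr {V : Type} (G : SimpleGraph V) (u v : V) : SimpleGraph V where
  Adj x y := x ≠ y ∧ x ≠ v ∧ y ≠ v ∧ (G.Adj x y ∨ (x = u ∧ G.Adj v y) ∨ (y = u ∧ G.Adj v x))
  symm := by
    refine ⟨?_⟩
    rintro x y ⟨h1, h2, h3, h4⟩
    refine ⟨h1.symm, h3, h2, ?_⟩
    rcases h4 with h | h | h
    · exact Or.inl h.symm
    · exact Or.inr (Or.inr h)
    · exact Or.inr (Or.inl h)
  loopless := ⟨fun _ h => h.1 rfl⟩

/-- Star-triangle replacement at every vertex of `A`: the vertices of `A` become isolated and the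
neighbours of a vertex of `A` become pairwise adjacent. -/
def YD {V : Type} (G : SimpleGraph V) (A : Set V) : SimpleGraph V where
  Adj x y := x ≠ y ∧ x ∉ A ∧ y ∉ A ∧ (G.Adj x y ∨ ∃ T ∈ A, G.Adj T x ∧ G.Adj T y)
  symm := by
    refine ⟨?_⟩
    rintro x y ⟨h1, h2, h3, h4⟩
    refine ⟨h1.symm, h3, h2, ?_⟩
    rcases h4 with h | ⟨T, hT, h, h'⟩
    · exact Or.inl h.symm
    · exact Or.inr ⟨T, hT, h', h⟩
  loopless := ⟨fun _ h => h.1 rfl⟩

/-- All single edge deletions and single edge contractions of `G` embed in genus `g`. -/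
def Good {V : Type} (G : SimpleGraph V) (g : ℕ) : Prop :=
  ∀ u v, G.Adj u v → Embeds (G.deleteEdges {s(u, v)}) g ∧ Embeds (ctr G u v) g

/-- Conditions on a graph and on the set of its vertices at which star-triangle replacements are
made. -/
structure YSet {V : Type} (G : SimpleGraph V) (Y : Set V) : Prop where
  deg : ∀ T ∈ Y, (G.neighborSet T).ncard = 3
  tri : ∀ u v w, G.Adj u v → G.Adj v w → ¬ G.Adj u w
  c4 : ∀ T ∈ Y, ∀ T' x y, T' ≠ T → G.Adj T x → G.Adj T y → G.Adj T' x → G.Adj T' y → x = y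
  indep : ∀ T ∈ Y, ∀ T' ∈ Y, ¬ G.Adj T T'
  one : ∀ v, ∀ T ∈ Y, ∀ T' ∈ Y, G.Adj v T → G.Adj v T' → T = T'

end Pool.Agent.Helper226_Obs
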