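import Pool.Agent.Helper226_Obs.FP.Host

set_option autoImplicit false

/-!
A larger set of triangles, and hexagon-free sets.
-/

namespace Pool.Agent.Helper226_Obs

open SimpleGraph

/-- Conditions on a graph and on the set of its vertices at which star-triangle replacements are
made. -/
structure YSet2 {V : Type} (G : SimpleGraph V) (Y : Set V) : Prop where
  deg : ∀ T ∈ Y, (G.neighborSet T).ncard = 3
  tri : ∀ u v w, G.Adj u v → G.Adj v w → ¬ G.Adj u w
  c4 : ∀ T ∈ Y, ∀ T' x y, T' ≠ T → G.Adj T x → G.Adj T y → G.Adj T' x → G.Adj T' y → x = y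
  indep : ∀ T ∈ Y, ∀ T' ∈ Y, ¬ G.Adj T T'
  par : ∀ T ∈ Y, ∀ T' ∈ Y, ∀ x z, G.Adj T x → G.Adj T' z → ¬ G.Adj x z

/-- There are no three vertices of `A` on a hexagon. -/
def HexFree {V : Type} (G : SimpleGraph V) (A : Set V) : Prop :=
  ∀ T T' T'' x y z, T ∈ A → T' ∈ A → T'' ∈ A → T ≠ T' → T' ≠ T'' → T ≠ T'' →
    x ≠ y → y ≠ z → x ≠ z → G.Adj T x → G.Adj T y → G.Adj T' y → G.Adj T' z →
    G.Adj T'' z → G.Adj T'' x → False

/-- The label of the triangle formed by the lines `a`, `b`, `c`. -/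
def tl (n a b c : ℕ) : Lab (2 * n) := sgn n (pm n a) + sgn n (pm n b) + sgn n (pm n c)

/-- Three lines with gaps at least three, forming a triangle of the second kind. -/
def Tri3 (n a b c : ℕ) : Prop :=
  a + 3 ≤ b ∧ b + 3 ≤ c ∧ c < 2 * n ∧ c + 3 ≤ a + 2 * n ∧
    (a + b + c = 2 * n ∨ a + b + c = 4 * n)

/-- The triangles of the second kind formed by lines with gaps at least three. -/
def Y2 (n : ℕ) : Set (Lab (2 * n)) := {T | ∃ a b c : ℕ, Tri3 n a b c ∧ T = tl n a b c}

end Pool.Agent.Helper226_Obs
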