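import Pool.Agent.Helper226_Obs.FP.D02

set_option autoImplicit false

namespace Pool.Agent.Helper226_Obs

open SimpleGraph

theorem ec_dbl {M : ℕ} (u : Lab M) : u + u = 0 := by
  funext i
  exact CharTwo.add_self_eq_zero _

theorem ec_gm_symm (n l m : ℕ) : gm n l m true = gm n m l true := by
  unfold gm
  simp only [if_true, Nat.add_comm l m]
  split_ifs <;> omega

/-- the edge of two lines -/
def ecE {n : ℕ} (l m : ℕ) (hl : l < 2 * n) (hm : m < 2 * n) (h : l < m) : Ed n :=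
  ⟨(⟨l, hl⟩, ⟨m, hm⟩), h⟩

theorem ec_vtT (n l m : ℕ) (hl : l < 2 * n) (hm : m < 2 * n) (h : l ≠ m) :
    sgn n l + sgn n m + sgn n (gm n l m true) ∈ Set.range (vt0 n) := by
  rcases Nat.lt_or_gt_of_ne h with h | h
  · exact ⟨(ecE l m hl hm h, true), rfl⟩
  · refine ⟨(ecE m l hm hl h, true), ?_⟩
    change sgn n m + sgn n l + sgn n (gm n m l true) = _
    rw [ec_gm_symm n m l, add_comm (sgn n m)]

theorem ec_vtF (n l m : ℕ) (hl : l < 2 * n) (hm : m < 2 * n) (h : l ≠ m) :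
    sgn n (pm n l) + sgn n (pm n m) + sgn n (gm n l m true) ∈ Set.range (vt0 n) := by
  rcases Nat.lt_or_gt_of_ne h with h | h
  · exact ⟨(ecE l m hl hm h, false), rfl⟩
  · refine ⟨(ecE m l hm hl h, false), ?_⟩
    change sgn n (pm n m) + sgn n (pm n l) + sgn n (gm n m l true) = _
    rw [ec_gm_symm n m l, add_comm (sgn n (pm n m))]

theorem ec_fc (n l m : ℕ) (hl : l < 2 * n) (hm : m < 2 * n) (h : l ≠ m) :
    sgn n (pm n l) + sgn n m + sgn n (gm n l m true) ∈ Set.range (fc0 n) := by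
  rcases Nat.lt_or_gt_of_ne h with h | h
  · exact ⟨(ecE l m hl hm h, true), rfl⟩
  · refine ⟨(ecE m l hm hl h, false), ?_⟩
    change sgn n m + sgn n (pm n l) + sgn n (gm n m l true) = _
    rw [ec_gm_symm n m l, add_comm (sgn n m)]

/-- the third residue -/
def ecz (n k x y : ℕ) : ℕ :=
  if x + y + k ≤ 2 * n then 2 * n - k - x - y else
    if x + y + k ≤ 4 * n then 4 * n - k - x - y else 6 * n - k - x - y

theorem ecz_spec (n k x y : ℕ) (hk : 1 ≤ k) (hk3 : k ≤ 3) (hx : x < 2 * n) (hy : y < 2 * n) :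
    ecz n k x y < 2 * n ∧ (x + y + ecz n k x y + k = 2 * n ∨ x + y + ecz n k x y + k = 4 * n ∨
      x + y + ecz n k x y + k = 6 * n) := by
  unfold ecz
  split_ifs <;> omega

/-- the label -/
def ecl (n : ℕ) (u : ℕ × ℕ × ℕ) : Lab (2 * n) :=
  sgn n u.2.1 + sgn n u.2.2 + sgn n (ecz n u.1 u.2.1 u.2.2)

theorem ec_vt1 (n x y : ℕ) (hx : x < 2 * n) (hy : y < 2 * n) (h : x ≠ y) :
    ecl n (1, x, y) ∈ Set.range (vt0 n) := by
  have h1 := ec_vtT n x y hx hy h
  have h2 : gm n x y true = ecz n 1 x y := by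
    unfold gm ecz
    simp only [if_true]
    split_ifs <;> omega
  rw [h2] at h1
  exact h1

/-- successor modulo `2 * n` -/
def ecs (n x : ℕ) : ℕ := if x + 1 = 2 * n then 0 else x + 1

theorem ecs_spec (n x : ℕ) (hx : x < 2 * n) : ecs n x < 2 * n ∧ pm n (ecs n x) = x ∧
    ((x + 1 = 2 * n ∧ ecs n x = 0) ∨ (x + 1 < 2 * n ∧ ecs n x = x + 1)) := by
  by_cases h : x + 1 = 2 * n
  · have h1 : ecs n x = 0 := if_pos h
    rw [h1]
    refine ⟨by omega, ?_, Or.inl ⟨h, rfl⟩⟩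
    unfold pm
    rw [if_pos rfl]
    omega
  · have h1 : ecs n x = x + 1 := if_neg h
    rw [h1]
    refine ⟨by omega, ?_, Or.inr ⟨by omega, rfl⟩⟩
    unfold pm
    rw [if_neg (by omega)]
    omega

theorem ec_gm (n l m : ℕ) (hl : l < 2 * n) (hm : m < 2 * n) : gm n l m true < 2 * n ∧
    (l + m + gm n l m true + 1 = 2 * n ∨ l + m + gm n l m true + 1 = 4 * n) := by
  unfold gm
  simp only [if_true]
  split_ifs <;> omega

theorem ec_vt3 (n x y : ℕ) (hn : 3 ≤ n) (hx : x < 2 * n) (hy : y < 2 * n) (h : x ≠ y) :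
    ecl n (3, x, y) ∈ Set.range (vt0 n) := by
  obtain ⟨a1, a2, a3⟩ := ecs_spec n x hx
  obtain ⟨b1, b2, b3⟩ := ecs_spec n y hy
  have h4 := ec_vtF n (ecs n x) (ecs n y) a1 b1 (by omega)
  have h5 := ec_gm n (ecs n x) (ecs n y) a1 b1
  have h6 := ecz_spec n 3 x y (by omega) le_rfl hx hy
  have h7 : gm n (ecs n x) (ecs n y) true = ecz n 3 x y := by omega
  rw [a2, b2, h7] at h4
  exact h4

theorem ec_fc2 (n x y : ℕ) (hn : 3 ≤ n) (hx : x < 2 * n) (hy : y < 2 * n) :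
    ecl n (2, x, y) ∈ Set.range (fc0 n) := by
  obtain ⟨a1, a2, a3⟩ := ecs_spec n x hx
  obtain ⟨b1, b2, b3⟩ := ecs_spec n y hy
  have h6 := ecz_spec n 2 x y (by omega) (by omega) hx hy
  by_cases hxy : ecs n x = y
  · have h4 := ec_fc n (ecs n y) x b1 hx (by omega)
    have h5 := ec_gm n (ecs n y) x b1 hx
    have h7 : gm n (ecs n y) x true = ecz n 2 x y := by omega
    rw [b2, h7, add_comm (sgn n y)] at h4
    exact h4
  · have h4 := ec_fc n (ecs n x) y a1 hy hxy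
    have h5 := ec_gm n (ecs n x) y a1 hy
    have h7 : gm n (ecs n x) y true = ecz n 2 x y := by omega
    rw [a2, h7] at h4
    exact h4

theorem ec_vts (n x : ℕ) (hn : 3 ≤ n) (hx : x < n) :
    sgn n (2 * x + 1) ∈ Set.range (vt0 n) := by
  have key : ∃ a, a < 2 * n ∧ a ≠ 2 * x + 1 ∧ gm n a (2 * x + 1) true = a := by
    by_cases h : n - 1 - x = 2 * x + 1
    · refine ⟨n - 1 - x + n, ?_⟩
      unfold gm
      simp only [if_true]
      split_ifs <;> omega
    · refine ⟨n - 1 - x, ?_⟩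
      unfold gm
      simp only [if_true]
      split_ifs <;> omega
  obtain ⟨a, ha, hax, h1⟩ := key
  have h2 := ec_vtT n a (2 * x + 1) ha (by omega) hax
  rw [h1, add_comm (sgn n a), add_assoc, ec_dbl, add_zero] at h2
  exact h2

theorem ec_fcs (n x : ℕ) (hn : 3 ≤ n) (hx : x < n) :
    sgn n (2 * x) ∈ Set.range (fc0 n) := by
  have key : ∃ l, l < 2 * n ∧ l ≠ 2 * x ∧ gm n l (2 * x) true = pm n l := by
    by_cases h : n - x = 2 * x
    · refine ⟨if x = 0 then 0 else n - x + n, ?_⟩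
      unfold gm pm
      simp only [if_true]
      split_ifs <;> omega
    · refine ⟨n - x, ?_⟩
      unfold gm pm
      simp only [if_true]
      split_ifs <;> omega
  obtain ⟨l, hl, hlx, h1⟩ := key
  have h2 := ec_fc n l (2 * x) hl (by omega) hlx
  rw [h1, add_comm (sgn n (pm n l)), add_assoc, ec_dbl, add_zero] at h2
  exact h2

/-- the triples with pairwise different entries -/
def ecQ (n : ℕ) : Finset (ℕ × ℕ × ℕ) :=
  (Finset.Icc 1 3 ×ˢ (Finset.range (2 * n) ×ˢ Finset.range (2 * n))).filter (fun u =>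
    u.2.1 ≠ u.2.2 ∧ u.2.1 ≠ ecz n u.1 u.2.1 u.2.2 ∧ u.2.2 ≠ ecz n u.1 u.2.1 u.2.2)

theorem ecQ_mem (n : ℕ) (u : ℕ × ℕ × ℕ) : u ∈ ecQ n ↔ (1 ≤ u.1 ∧ u.1 ≤ 3) ∧
    (u.2.1 < 2 * n ∧ u.2.2 < 2 * n) ∧
    u.2.1 ≠ u.2.2 ∧ u.2.1 ≠ ecz n u.1 u.2.1 u.2.2 ∧ u.2.2 ≠ ecz n u.1 u.2.1 u.2.2 := by
  simp only [ecQ, Finset.mem_filter, Finset.mem_product, Finset.mem_Icc, Finset.mem_range,
    and_assoc]

theorem ecQ_card (n : ℕ) (hn : 3 ≤ n) :
    3 * (2 * n) ^ 2 ≤ (ecQ n).card + 9 * (2 * n) - 6 := by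
  classical
  set K := Finset.Icc 1 3 ×ˢ (Finset.range (2 * n) ×ˢ Finset.range (2 * n)) with hK
  have hKc : K.card = 3 * (2 * n) ^ 2 := by
    rw [hK, Finset.card_product, Finset.card_product, Finset.card_range, Nat.card_Icc]
    ring
  have hKm : ∀ u ∈ K, (1 ≤ u.1 ∧ u.1 ≤ 3) ∧ (u.2.1 < 2 * n ∧ u.2.2 < 2 * n) := by
    intro u hu
    simpa only [hK, Finset.mem_product, Finset.mem_Icc, Finset.mem_range] using hu
  have hA : (K.filter (fun u => u.2.1 = u.2.2)).card ≤ 3 * (2 * n) := by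
    have : (Finset.Icc 1 (3 * (2 * n))).card = 3 * (2 * n) := by simp
    rw [← this]
    apply Finset.card_le_card_of_injOn (fun u => 3 * u.2.1 + u.1)
    · intro u hu
      rw [Finset.mem_coe, Finset.mem_filter] at hu
      have := hKm u hu.1
      simp only [Finset.mem_coe, Finset.mem_Icc]
      omega
    · intro u hu v hv huv
      rw [Finset.mem_coe, Finset.mem_filter] at hu hv
      have h1 := hKm u hu.1
      have h2 := hKm v hv.1
      simp only at huv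
      have h3 := hu.2
      have h4 := hv.2
      ext1
      · omega
      · ext1 <;> omega
  have hcard3 : ((Finset.Icc 1 (3 * (2 * n))) \ {2 * n, 4 * n, 6 * n}).card =
      3 * (2 * n) - 3 := by
    rw [Finset.card_sdiff_of_subset]
    · rw [Nat.card_Icc, Finset.card_insert_of_notMem, Finset.card_insert_of_notMem,
        Finset.card_singleton]
      · omega
      · simp only [Finset.mem_singleton]; omega
      · simp only [Finset.mem_insert, Finset.mem_singleton]; omega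
    · intro x hx
      simp only [Finset.mem_insert, Finset.mem_singleton] at hx
      simp only [Finset.mem_Icc]
      omega
  have hB : (K.filter (fun u => u.2.1 ≠ u.2.2 ∧ u.2.1 = ecz n u.1 u.2.1 u.2.2)).card ≤
      3 * (2 * n) - 3 := by
    rw [← hcard3]
    apply Finset.card_le_card_of_injOn (fun u => 3 * u.2.1 + u.1)
    · intro u hu
      rw [Finset.mem_coe, Finset.mem_filter] at hu
      have h1 := hKm u hu.1
      have h2 := ecz_spec n u.1 u.2.1 u.2.2 h1.1.1 h1.1.2 h1.2.1 h1.2.2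
      have h3 := hu.2
      simp only [Finset.mem_coe, Finset.mem_sdiff, Finset.mem_Icc, Finset.mem_insert,
        Finset.mem_singleton]
      omega
    · intro u hu v hv huv
      rw [Finset.mem_coe, Finset.mem_filter] at hu hv
      have h1 := hKm u hu.1
      have h2 := hKm v hv.1
      have h5 := ecz_spec n u.1 u.2.1 u.2.2 h1.1.1 h1.1.2 h1.2.1 h1.2.2
      have h6 := ecz_spec n v.1 v.2.1 v.2.2 h2.1.1 h2.1.2 h2.2.1 h2.2.2
      simp only at huv
      have h3 := hu.2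
      have h4 := hv.2
      have e1 : u.1 = v.1 := by omega
      have e2 : u.2.1 = v.2.1 := by omega
      have e3 : u.2.2 = v.2.2 := by omega
      exact Prod.ext e1 (Prod.ext e2 e3)
  have hC : (K.filter (fun u => u.2.1 ≠ u.2.2 ∧ u.2.2 = ecz n u.1 u.2.1 u.2.2)).card ≤
      3 * (2 * n) - 3 := by
    rw [← hcard3]
    apply Finset.card_le_card_of_injOn (fun u => 3 * u.2.2 + u.1)
    · intro u hu
      rw [Finset.mem_coe, Finset.mem_filter] at hu
      have h1 := hKm u hu.1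
      have h2 := ecz_spec n u.1 u.2.1 u.2.2 h1.1.1 h1.1.2 h1.2.1 h1.2.2
      have h3 := hu.2
      simp only [Finset.mem_coe, Finset.mem_sdiff, Finset.mem_Icc, Finset.mem_insert,
        Finset.mem_singleton]
      omega
    · intro u hu v hv huv
      rw [Finset.mem_coe, Finset.mem_filter] at hu hv
      have h1 := hKm u hu.1
      have h2 := hKm v hv.1
      have h5 := ecz_spec n u.1 u.2.1 u.2.2 h1.1.1 h1.1.2 h1.2.1 h1.2.2
      have h6 := ecz_spec n v.1 v.2.1 v.2.2 h2.1.1 h2.1.2 h2.2.1 h2.2.2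
      simp only at huv
      have h3 := hu.2
      have h4 := hv.2
      have e1 : u.1 = v.1 := by omega
      have e2 : u.2.2 = v.2.2 := by omega
      have e3 : u.2.1 = v.2.1 := by omega
      exact Prod.ext e1 (Prod.ext e3 e2)
  have hcov : K ⊆ ((ecQ n ∪ K.filter (fun u => u.2.1 = u.2.2)) ∪
      K.filter (fun u => u.2.1 ≠ u.2.2 ∧ u.2.1 = ecz n u.1 u.2.1 u.2.2)) ∪
      K.filter (fun u => u.2.1 ≠ u.2.2 ∧ u.2.2 = ecz n u.1 u.2.1 u.2.2) := by
    intro u hu
    have h1 := hKm u hu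
    simp only [Finset.mem_union, Finset.mem_filter, ecQ_mem]
    tauto
  have h1 := Finset.card_le_card hcov
  have h2 := Finset.card_union_le ((ecQ n ∪ K.filter (fun u => u.2.1 = u.2.2)) ∪
      K.filter (fun u => u.2.1 ≠ u.2.2 ∧ u.2.1 = ecz n u.1 u.2.1 u.2.2))
      (K.filter (fun u => u.2.1 ≠ u.2.2 ∧ u.2.2 = ecz n u.1 u.2.1 u.2.2))
  have h3 := Finset.card_union_le (ecQ n ∪ K.filter (fun u => u.2.1 = u.2.2))
      (K.filter (fun u => u.2.1 ≠ u.2.2 ∧ u.2.1 = ecz n u.1 u.2.1 u.2.2))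
  have h4 := Finset.card_union_le (ecQ n) (K.filter (fun u => u.2.1 = u.2.2))
  rw [← hKc]
  omega

theorem ec_fib0 (n k x y z k' x' y' z' : ℕ) (hn : 3 ≤ n) (hx : x < 2 * n) (hy : y < 2 * n)
    (hz : z < 2 * n) (hx' : x' < 2 * n) (hy' : y' < 2 * n) (hz' : z' < 2 * n)
    (d1 : x ≠ y) (d2 : x ≠ z) (d3 : y ≠ z) (d1' : x' ≠ y') (d2' : x' ≠ z') (d3' : y' ≠ z')
    (hk : 1 ≤ k ∧ k ≤ 3) (hk' : 1 ≤ k' ∧ k' ≤ 3)
    (e : x + y + z + k = 2 * n ∨ x + y + z + k = 4 * n ∨ x + y + z + k = 6 * n)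
    (e' : x' + y' + z' + k' = 2 * n ∨ x' + y' + z' + k' = 4 * n ∨ x' + y' + z' + k' = 6 * n)
    (h : sgn n x' + sgn n y' + sgn n z' = sgn n x + sgn n y + sgn n z) :
    k' = k ∧ ((x' = x ∧ y' = y) ∨ (x' = y ∧ y' = x) ∨ (x' = x ∧ y' = z) ∨ (x' = z ∧ y' = x) ∨
      (x' = y ∧ y' = z) ∨ (x' = z ∧ y' = y)) := by
  rcases sgn3 n x' y' z' x y z hx' hy' hz' hx hy hz h with
    h | h | h | h | h | h | h | h | h | h | h | h | h | h | h
  · obtain ⟨rfl, rfl, rfl⟩ := h
    exact ⟨by omega, Or.inl ⟨rfl, rfl⟩⟩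
  · obtain ⟨rfl, rfl, rfl⟩ := h
    exact ⟨by omega, Or.inr (Or.inr (Or.inl ⟨rfl, rfl⟩))⟩
  · obtain ⟨rfl, rfl, rfl⟩ := h
    exact ⟨by omega, Or.inr (Or.inl ⟨rfl, rfl⟩)⟩
  · obtain ⟨rfl, rfl, rfl⟩ := h
    exact ⟨by omega, Or.inr (Or.inr (Or.inr (Or.inr (Or.inl ⟨rfl, rfl⟩))))⟩
  · obtain ⟨rfl, rfl, rfl⟩ := h
    exact ⟨by omega, Or.inr (Or.inr (Or.inr (Or.inl ⟨rfl, rfl⟩)))⟩
  · obtain ⟨rfl, rfl, rfl⟩ := h
    exact ⟨by omega, Or.inr (Or.inr (Or.inr (Or.inr (Or.inr ⟨rfl, rfl⟩))))⟩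
  all_goals
    exfalso
    omega

theorem ec_fib (n k x y k' x' y' : ℕ) (hn : 3 ≤ n) (hu : (k, x, y) ∈ ecQ n)
    (hv : (k', x', y') ∈ ecQ n) (h : ecl n (k', x', y') = ecl n (k, x, y)) :
    k' = k ∧ ((x' = x ∧ y' = y) ∨ (x' = y ∧ y' = x) ∨ (x' = x ∧ y' = ecz n k x y) ∨
      (x' = ecz n k x y ∧ y' = x) ∨ (x' = y ∧ y' = ecz n k x y) ∨
      (x' = ecz n k x y ∧ y' = y)) := by
  rw [ecQ_mem] at hu hv
  simp only at hu hv
  have h5 := ecz_spec n k x y hu.1.1 hu.1.2 hu.2.1.1 hu.2.1.2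
  have h6 := ecz_spec n k' x' y' hv.1.1 hv.1.2 hv.2.1.1 hv.2.1.2
  unfold ecl at h
  simp only at h
  exact ec_fib0 n k x y (ecz n k x y) k' x' y' (ecz n k' x' y') hn hu.2.1.1 hu.2.1.2 h5.1
    hv.2.1.1 hv.2.1.2 h6.1 hu.2.2.1 hu.2.2.2.1 hu.2.2.2.2 hv.2.2.1 hv.2.2.2.1 hv.2.2.2.2
    hu.1 hv.1 h5.2 h6.2 h

theorem ec_six (k x y z : ℕ) (v : ℕ × ℕ × ℕ) (h1 : v.1 = k)
    (h : (v.2.1 = x ∧ v.2.2 = y) ∨ (v.2.1 = y ∧ v.2.2 = x) ∨ (v.2.1 = x ∧ v.2.2 = z) ∨
      (v.2.1 = z ∧ v.2.2 = x) ∨ (v.2.1 = y ∧ v.2.2 = z) ∨ (v.2.1 = z ∧ v.2.2 = y)) :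
    v ∈ ({(k, x, y), (k, y, x), (k, x, z), (k, z, x), (k, y, z), (k, z, y)} :
      Finset (ℕ × ℕ × ℕ)) := by
  obtain ⟨a, b, c⟩ := v
  simp only at h h1
  simp only [Finset.mem_insert, Finset.mem_singleton, Prod.mk.injEq]
  subst h1
  simpa only [true_and] using h

theorem ec_fib_card (n : ℕ) (hn : 3 ≤ n) (P : ℕ × ℕ × ℕ → Prop) [DecidablePred P]
    [DecidableEq (Lab (2 * n))] :
    ((ecQ n).filter P).card ≤ 6 * (((ecQ n).filter P).image (ecl n)).card := by
  apply Finset.card_le_mul_card_image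
  intro a ha
  rw [Finset.mem_image] at ha
  obtain ⟨u, hu, rfl⟩ := ha
  rw [Finset.mem_filter] at hu
  obtain ⟨k, x, y⟩ := u
  refine le_trans (Finset.card_le_card (t := ({(k, x, y), (k, y, x), (k, x, ecz n k x y),
    (k, ecz n k x y, x), (k, y, ecz n k x y), (k, ecz n k x y, y)} :
        Finset (ℕ × ℕ × ℕ))) ?_) Finset.card_le_six
  intro v hv
  rw [Finset.mem_filter, Finset.mem_filter] at hv
  obtain ⟨k', x', y'⟩ := v
  obtain ⟨e1, e2⟩ := ec_fib n k x y k' x' y' hn hu.1 hv.1.1 hv.2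
  exact ec_six k x y _ (k', x', y') e1 e2

theorem ec_single (n : ℕ) (u : ℕ × ℕ × ℕ) (hu : u ∈ ecQ n) (x : ℕ)
    (hx : x < 2 * n) : sgn n x ≠ ecl n u := by
  intro h
  rw [ecQ_mem] at hu
  have h5 := ecz_spec n u.1 u.2.1 u.2.2 hu.1.1 hu.1.2 hu.2.1.1 hu.2.1.2
  have h1 : sgn n x + sgn n x + sgn n x = ecl n u := by
    rw [ec_dbl, zero_add, h]
  have h7 := sgn3 n _ _ _ _ _ _ hx hx hx hu.2.1.1 hu.2.1.2 h5.1 h1
  omega

theorem ec_card_Ed (n : ℕ) : 2 * Fintype.card (Ed n) + 2 * n ≤ (2 * n) ^ 2 := by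
  classical
  have h1 : Fintype.card (Ed n) =
      (Finset.univ.filter (fun e : Fin (2 * n) × Fin (2 * n) => e.1 < e.2)).card :=
    Fintype.card_subtype _
  have h2 : (Finset.univ.filter (fun e : Fin (2 * n) × Fin (2 * n) => e.1 < e.2)).card =
      (Finset.univ.filter (fun e : Fin (2 * n) × Fin (2 * n) => e.2 < e.1)).card := by
    apply Finset.card_bij (fun e _ => (e.2, e.1))
    · intro e he; simpa using he
    · intro e _ e' _ h
      simp only [Prod.mk.injEq] at h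
      exact Prod.ext h.2 h.1
    · intro e he
      exact ⟨(e.2, e.1), by simpa using he, rfl⟩
  have h3 : (Finset.univ.filter (fun e : Fin (2 * n) × Fin (2 * n) => e.1 = e.2)).card =
      2 * n := by
    refine Eq.trans (b := (Finset.univ : Finset (Fin (2 * n))).card) ?_ (by simp)
    symm
    apply Finset.card_bij (fun e _ => (e, e))
    · intro e he; simp
    · intro e _ e' _ h
      simp only [Prod.mk.injEq] at h
      exact h.1
    · intro e he
      simp only [Finset.mem_filter, Finset.mem_univ, true_and] at he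
      exact ⟨e.1, by simp, Prod.ext rfl he⟩
  have h4 : (Finset.univ : Finset (Fin (2 * n) × Fin (2 * n))).card = (2 * n) ^ 2 := by
    rw [Finset.card_univ, Fintype.card_prod, Fintype.card_fin, sq]
  have h5 : Disjoint (Finset.univ.filter (fun e : Fin (2 * n) × Fin (2 * n) => e.1 < e.2))
      (Finset.univ.filter (fun e : Fin (2 * n) × Fin (2 * n) => e.2 < e.1)) := by
    rw [Finset.disjoint_filter]
    intro e _ h h'
    exact absurd h (not_lt.mpr h'.le)
  have h6 : Disjoint ((Finset.univ.filter (fun e : Fin (2 * n) × Fin (2 * n) => e.1 < e.2)) ∪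
      (Finset.univ.filter (fun e : Fin (2 * n) × Fin (2 * n) => e.2 < e.1)))
      (Finset.univ.filter (fun e : Fin (2 * n) × Fin (2 * n) => e.1 = e.2)) := by
    rw [← Finset.filter_or, Finset.disjoint_filter]
    intro e _ h h'
    rw [h'] at h
    simp at h
  have h7 := Finset.card_union_of_disjoint h5
  have h8 := Finset.card_union_of_disjoint h6
  have h9 := Finset.card_le_card (Finset.subset_univ
    (((Finset.univ.filter (fun e : Fin (2 * n) × Fin (2 * n) => e.1 < e.2)) ∪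
      (Finset.univ.filter (fun e : Fin (2 * n) × Fin (2 * n) => e.2 < e.1))) ∪
      (Finset.univ.filter (fun e : Fin (2 * n) × Fin (2 * n) => e.1 = e.2))))
  omega

theorem ec_part (n : ℕ) (hn : 3 ≤ n) (P : ℕ × ℕ × ℕ → Prop) [DecidablePred P]
    (X : Set (Lab (2 * n))) (hX : X.Finite) (h1 : ∀ u ∈ ecQ n, P u → ecl n u ∈ X) (f : ℕ → ℕ)
    (hf : ∀ x < n, f x < 2 * n) (hfi : ∀ x y, f x = f y → x = y)
    (h2 : ∀ x < n, sgn n (f x) ∈ X) :
    ((ecQ n).filter P).card + 6 * n ≤ 6 * X.ncard := by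
  classical
  have h3 : ((((ecQ n).filter P).image (ecl n) ∪
      (Finset.range n).image (fun x => sgn n (f x)) : Finset (Lab (2 * n))) :
        Set (Lab (2 * n))) ⊆ X := by
    intro v hv
    rw [Finset.mem_coe, Finset.mem_union, Finset.mem_image, Finset.mem_image] at hv
    rcases hv with ⟨u, hu, rfl⟩ | ⟨x, hx, rfl⟩
    · rw [Finset.mem_filter] at hu
      exact h1 u hu.1 hu.2
    · exact h2 x (Finset.mem_range.mp hx)
  have h4 := Set.ncard_le_ncard h3 hX
  rw [Set.ncard_coe_finset, Finset.card_union_of_disjoint] at h4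
  · rw [Finset.card_image_of_injOn (s := Finset.range n), Finset.card_range] at h4
    · have := ec_fib_card n hn P
      omega
    · intro x hx y hy hxy
      rw [Finset.mem_coe, Finset.mem_range] at hx hy
      exact hfi _ _ (sgn_inj n _ _ (hf x hx) (hf y hy) hxy)
  · rw [Finset.disjoint_left]
    intro v hv hv'
    rw [Finset.mem_image] at hv hv'
    obtain ⟨u, hu, rfl⟩ := hv
    obtain ⟨x, hx, h⟩ := hv'
    rw [Finset.mem_filter] at hu
    exact ec_single n u hu.1 (f x) (hf x (Finset.mem_range.mp hx)) h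

theorem euler_count (n : ℕ) (hn : 3 ≤ n) :
    Fintype.card (Ed n) + 1 ≤ (Set.range (vt0 n)).ncard + (Set.range (fc0 n)).ncard := by
  have h1 := ec_part n hn (fun u => ¬ u.1 = 2) (Set.range (vt0 n)) (Set.finite_range _)
    (fun u hu h => by
      obtain ⟨k, x, y⟩ := u
      rw [ecQ_mem] at hu
      simp only at hu h
      have : k = 1 ∨ k = 3 := by omega
      rcases this with rfl | rfl
      · exact ec_vt1 n x y hu.2.1.1 hu.2.1.2 hu.2.2.1
      · exact ec_vt3 n x y hn hu.2.1.1 hu.2.1.2 hu.2.2.1)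
    (fun x => 2 * x + 1) (fun x hx => by omega)
    (fun x y h => by omega) (fun x hx => ec_vts n x hn hx)
  have h2 := ec_part n hn (fun u => u.1 = 2) (Set.range (fc0 n)) (Set.finite_range _)
    (fun u hu h => by
      obtain ⟨k, x, y⟩ := u
      rw [ecQ_mem] at hu
      simp only at hu h
      subst h
      exact ec_fc2 n x y hn hu.2.1.1 hu.2.1.2)
    (fun x => 2 * x) (fun x hx => by omega)
    (fun x y h => by omega) (fun x hx => ec_fcs n x hn hx)
  have h3 := ecQ_card n hn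
  have h4 := ec_card_Ed n
  have h5 := Finset.card_filter_add_card_filter_not (s := ecQ n) (fun u => u.1 = 2)
  have h6 : 6 ≤ 9 * (2 * n) := by omega
  generalize (2 * n) ^ 2 = W at *
  omega

end Pool.Agent.Helper226_Obs
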