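import Pool.Agent.Helper226_Obs.FP.D01

set_option autoImplicit false

namespace Pool.Agent.Helper226_Obs

open SimpleGraph

theorem host_conn_ends (n : ℕ) (w : Lab (2 * n) → ZMod 2)
    (hw : ∀ d, w (vt0 n d) = w (vt0 n (flp d))) (l m : ℕ) (hl : l < 2 * n) (hm : m < 2 * n)
    (hlm : l ≠ m) (t : Bool) : w (vlab n l m t) = w (vlab n l m true) := by
  have key : ∀ a b : ℕ, a < 2 * n → b < 2 * n → a < b →
      w (vlab n a b false) = w (vlab n a b true) := by
    intro a b ha hb hab
    have h := hw ((⟨(⟨a, ha⟩, ⟨b, hb⟩), hab⟩ : Ed n), false)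
    exact h
  cases t with
  | true => rfl
  | false =>
    rcases Nat.lt_or_gt_of_ne hlm with h | h
    · exact key l m hl hm h
    · rw [vlab_comm n l m false, vlab_comm n l m true]
      exact key m l hm hl h

theorem host_conn_step (n : ℕ) (hn : 3 ≤ n) (w : Lab (2 * n) → ZMod 2)
    (hw : ∀ d, w (vt0 n d) = w (vt0 n (flp d))) (l m : ℕ) (hl : l < 2 * n) (hm : m < 2 * n)
    (hlm : l ≠ m) (t : Bool) (m' : ℕ) (t' : Bool) (hr : r1 n l m t = (m', t'))
    (hm' : m' < 2 * n) (hlm' : l ≠ m') : w (vlab n l m' true) = w (vlab n l m true) := by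
  have h := vlab_r1 n l m t (by omega) hl hm hlm
  rw [hr] at h
  simp only at h
  rw [← host_conn_ends n w hw l m' hl hm' hlm' t', h, host_conn_ends n w hw l m hl hm hlm t]

theorem host_conn_succ (n : ℕ) (hn : 3 ≤ n) (w : Lab (2 * n) → ZMod 2)
    (hw : ∀ d, w (vt0 n d) = w (vt0 n (flp d))) (l m m' : ℕ) (hl : l < 2 * n) (hm : m < 2 * n)
    (hm' : m' = if m + 1 < 2 * n then m + 1 else 0) (hlm : l ≠ m) (hlm' : l ≠ m') :
    w (vlab n l m true) = w (vlab n l m' true) := by
  have hm'2 : m' < 2 * n := by
    rw [hm']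
    split_ifs <;> omega
  have hmm : m ≠ m' := by
    rw [hm']
    split_ifs <;> omega
  obtain ⟨c, hc⟩ : ∃ c, c = gm n l m true := ⟨_, rfl⟩
  have hc2 : c < 2 * n := by
    rw [hc]
    unfold gm
    simp only [if_true]
    split_ifs <;> omega
  have hc' : gm n l m' false = c := by
    have e1 : gm n l m true = if l + m < 2 * n then 2 * n - 1 - l - m
        else 4 * n - 1 - l - m := by
      unfold gm
      rw [if_pos rfl]
    have e2 : gm n l m' false = if l + m' = 0 then 0 else if l + m' ≤ 2 * n then 2 * n - l - m'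
        else 4 * n - l - m' := by
      unfold gm
      rw [if_neg (by simp)]
    rw [hc, e1, e2]
    by_cases h : m + 1 < 2 * n
    · rw [if_pos h] at hm'
      split_ifs <;> omega
    · rw [if_neg h] at hm'
      split_ifs <;> omega
  by_cases h1 : c = l
  · have h2 : gm n l l false = m' := by
      have h3 : gm n l m true = l := by rw [← hc, h1]
      have e1 : gm n l m true = if l + m < 2 * n then 2 * n - 1 - l - m
          else 4 * n - 1 - l - m := by
        unfold gm
        rw [if_pos rfl]
      have e2 : gm n l l false = if l + l = 0 then 0 else if l + l ≤ 2 * n then 2 * n - l - l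
          else 4 * n - l - l := by
        unfold gm
        rw [if_neg (by simp)]
      rw [e1] at h3
      rw [e2, hm']
      split_ifs at h3 ⊢ <;> omega
    have hr : r1 n l m true = (m', false) := by
      unfold r1
      rw [← hc, if_pos h1]
      simp only [Bool.not_true]
      rw [h2, if_neg (fun h => hlm' h.symm)]
    exact (host_conn_step n hn w hw l m hl hm hlm true m' false hr hm'2 hlm').symm
  · by_cases h2 : c = m
    · have hr : r1 n l m' false = (m, false) := by
        unfold r1
        rw [hc', if_neg h1, if_neg (by rw [h2]; exact hmm), h2]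
      exact host_conn_step n hn w hw l m' hl hm'2 hlm' false m false hr hm hlm
    · by_cases h3 : c = m'
      · have hr : r1 n l m true = (m', true) := by
          unfold r1
          rw [← hc, if_neg h1, if_neg h2, h3]
        exact (host_conn_step n hn w hw l m hl hm hlm true m' true hr hm'2 hlm').symm
      · have hr : r1 n l m true = (c, true) := by
          unfold r1
          rw [← hc, if_neg h1, if_neg h2]
        have hr' : r1 n l m' false = (c, false) := by
          unfold r1
          rw [hc', if_neg h1, if_neg h3]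
        have e1 := host_conn_step n hn w hw l m hl hm hlm true c true hr hc2 (fun h => h1 h.symm)
        have e2 := host_conn_step n hn w hw l m' hl hm'2 hlm' false c false hr' hc2
          (fun h => h1 h.symm)
        rw [← e1, e2]

theorem host_conn_chain (n : ℕ) (hn : 3 ≤ n) (w : Lab (2 * n) → ZMod 2)
    (hw : ∀ d, w (vt0 n d) = w (vt0 n (flp d))) (l i j : ℕ) (hl : l < 2 * n) (hij : i ≤ j)
    (hj : j < 2 * n) (h : ∀ k, i ≤ k → k ≤ j → l ≠ k) :
    w (vlab n l i true) = w (vlab n l j true) := by
  induction j, hij using Nat.le_induction with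
  | base => rfl
  | succ j hij ih =>
    rw [ih (by omega) (fun k h1 h2 => h k h1 (by omega))]
    exact host_conn_succ n hn w hw l j (j + 1) hl (by omega) (by rw [if_pos hj])
      (h j hij (by omega)) (h (j + 1) (by omega) le_rfl)

theorem host_conn_row (n : ℕ) (hn : 3 ≤ n) (w : Lab (2 * n) → ZMod 2)
    (hw : ∀ d, w (vt0 n d) = w (vt0 n (flp d))) (l i j : ℕ) (hl : l < 2 * n) (hi : i < 2 * n)
    (hj : j < 2 * n) (hli : l ≠ i) (hlj : l ≠ j) :
    w (vlab n l i true) = w (vlab n l j true) := by
  have key : ∀ a b : ℕ, a < 2 * n → b < 2 * n → l ≠ a → l ≠ b → a ≤ b →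
      w (vlab n l a true) = w (vlab n l b true) := by
    intro a b ha hb hla hlb hab
    by_cases h : a < l ∧ l < b
    · have e1 : w (vlab n l 0 true) = w (vlab n l a true) :=
        host_conn_chain n hn w hw l 0 a hl (by omega) ha (fun k h1 h2 => by omega)
      have e2 : w (vlab n l b true) = w (vlab n l (2 * n - 1) true) :=
        host_conn_chain n hn w hw l b (2 * n - 1) hl (by omega) (by omega)
          (fun k h1 h2 => by omega)
      have e3 : w (vlab n l (2 * n - 1) true) = w (vlab n l 0 true) :=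
        host_conn_succ n hn w hw l (2 * n - 1) 0 hl (by omega)
          (by rw [if_neg (by omega)]) (by omega) (by omega)
      rw [← e1, e2, e3]
    · exact host_conn_chain n hn w hw l a b hl hab hb (fun k h1 h2 => by omega)
  rcases le_total i j with h | h
  · exact key i j hi hj hli hlj h
  · exact (key j i hj hi hlj hli h).symm

theorem host_conn (n : ℕ) (hn : 3 ≤ n) : ConnV (vt0 n) := by
  intro w hw
  have all : ∀ l m l' m' : ℕ, l < 2 * n → m < 2 * n → l' < 2 * n → m' < 2 * n → l ≠ m →
      l' ≠ m' → w (vlab n l m true) = w (vlab n l' m' true) := by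
    intro l m l' m' hl hm hl' hm' hlm hlm'
    obtain ⟨k, hk, hkl, hkl'⟩ : ∃ k, k < 2 * n ∧ k ≠ l ∧ k ≠ l' := by
      by_cases h0 : 0 ≠ l ∧ 0 ≠ l'
      · exact ⟨0, by omega, h0.1, h0.2⟩
      · by_cases h1 : 1 ≠ l ∧ 1 ≠ l'
        · exact ⟨1, by omega, h1.1, h1.2⟩
        · exact ⟨2, by omega, by omega, by omega⟩
    rw [host_conn_row n hn w hw l m k hl hm hk hlm hkl.symm, vlab_comm n l k true,
      host_conn_row n hn w hw k l l' hk hl hl' hkl hkl', vlab_comm n k l' true]
    exact host_conn_row n hn w hw l' k m' hl' hk hm' hkl'.symm hlm'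
  have hd : ∀ d : Ed n × Bool, w (vt0 n d) = w (vlab n (ea d.1) (eb d.1) true) := by
    intro d
    exact host_conn_ends n w hw (ea d.1) (eb d.1) d.1.1.1.2 d.1.1.2.2
      (Nat.ne_of_lt d.1.2) d.2
  intro d d'
  rw [hd d, hd d']
  exact all _ _ _ _ d.1.1.1.2 d.1.1.2.2 d'.1.1.1.2 d'.1.1.2.2 (Nat.ne_of_lt d.1.2)
    (Nat.ne_of_lt d'.1.2)

end Pool.Agent.Helper226_Obs
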