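import Pool.Agent.Helper226_Obs.FP.C03
import Pool.Agent.Helper226_Obs.FP.D01
import Pool.Agent.Helper226_Obs.FP.D02

set_option autoImplicit false

namespace Pool.Agent.Helper226_Obs

open SimpleGraph

/-! auxiliary facts for the host graph -/

theorem lab_self_e03 {M : ℕ} (x : Lab M) : x + x = 0 := funext fun _ => CharTwo.add_self_eq_zero _

theorem vt_sum (n : ℕ) (e : Ed n) :
    vt0 n (e, false) + vt0 n (e, true) = dln n (ea e) + dln n (eb e) := by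
  have h1 := lab0 n e false false
  have h2 := lab0 n e true false
  rw [if_pos rfl] at h1
  rw [if_neg (by decide)] at h2
  rw [← h1, ← h2]
  have h3 := lab_self_e03 (fc0 n (e, false))
  calc vt0 n (e, false) + vt0 n (e, true) = vt0 n (e, false) + vt0 n (e, true) + 0 := by
        rw [add_zero]
    _ = vt0 n (e, false) + vt0 n (e, true) + (fc0 n (e, false) + fc0 n (e, false)) := by rw [h3]
    _ = _ := by abel

theorem fc_sum (n : ℕ) (e : Ed n) :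
    fc0 n (e, false) + fc0 n (e, true) = dln n (ea e) + dln n (eb e) := by
  have h1 := lab0 n e false false
  have h2 := lab0 n e false true
  rw [if_pos rfl] at h1
  rw [if_neg (by decide)] at h2
  rw [← h1, ← h2]
  have h3 := lab_self_e03 (vt0 n (e, false))
  calc fc0 n (e, false) + fc0 n (e, true) = fc0 n (e, false) + fc0 n (e, true) + 0 := by
        rw [add_zero]
    _ = fc0 n (e, false) + fc0 n (e, true) + (vt0 n (e, false) + vt0 n (e, false)) := by rw [h3]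
    _ = _ := by abel

theorem ea_lt {n : ℕ} (e : Ed n) : ea e < 2 * n := e.1.1.2

theorem eb_lt {n : ℕ} (e : Ed n) : eb e < 2 * n := e.1.2.2

theorem ea_lt_eb_e03 {n : ℕ} (e : Ed n) : ea e < eb e := e.2

theorem dln_ne (n : ℕ) (hn : 3 ≤ n) (e : Ed n) : dln n (ea e) + dln n (eb e) ≠ 0 := by
  intro h
  have h1 := ea_lt_eb_e03 e
  rcases dln2 n (ea e) (eb e) (ea e) (ea e) hn (ea_lt e) (eb_lt e) (ea_lt e) (ea_lt e)
    (by omega) (by rw [h, lab_self_e03]) with h2 | h2 <;> omega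

theorem gmT_spec_e03 (n l m : ℕ) (hl : l < 2 * n) (hm1 : m < 2 * n) :
    gm n l m true < 2 * n ∧ (l + m + gm n l m true + 1 = 2 * n ∨
      l + m + gm n l m true + 1 = 4 * n) := by
  have h : gm n l m true = if l + m < 2 * n then 2 * n - 1 - l - m else 4 * n - 1 - l - m := rfl
  rw [h]
  split_ifs <;> omega

theorem gmF_spec_e03 (n l m : ℕ) (hl : l < 2 * n) (hm1 : m < 2 * n) :
    gm n l m false < 2 * n ∧ (l + m + gm n l m false = 0 ∨ l + m + gm n l m false = 2 * n ∨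
      l + m + gm n l m false = 4 * n) := by
  have h : gm n l m false = if l + m = 0 then 0 else
    if l + m ≤ 2 * n then 2 * n - l - m else 4 * n - l - m := rfl
  rw [h]
  split_ifs <;> omega

theorem pm_spec_e03 (n m : ℕ) (hm1 : m < 2 * n) :
    pm n m < 2 * n ∧ ((0 < m ∧ pm n m + 1 = m) ∨ (m = 0 ∧ pm n m + 1 = 2 * n)) := by
  unfold pm
  split_ifs <;> omega

theorem host_ne (n : ℕ) (hn : 3 ≤ n) (e : Ed n) : vt0 n (e, false) ≠ vt0 n (e, true) := by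
  intro h
  have h1 := vt_sum n e
  rw [h, lab_self_e03] at h1
  exact dln_ne n hn e h1.symm

theorem host_fc (n : ℕ) (hn : 3 ≤ n) (e : Ed n) : fc0 n (e, false) ≠ fc0 n (e, true) := by
  intro h
  have h1 := fc_sum n e
  rw [h, lab_self_e03] at h1
  exact dln_ne n hn e h1.symm

theorem vt_sum2 (n : ℕ) (e : Ed n) (t : Bool) :
    vt0 n (e, t) + vt0 n (e, !t) = dln n (ea e) + dln n (eb e) := by
  cases t
  · exact vt_sum n e
  · rw [← vt_sum n e, add_comm]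
    rfl

theorem host_ne2 (n : ℕ) (hn : 3 ≤ n) (e : Ed n) (t : Bool) : vt0 n (e, t) ≠ vt0 n (e, !t) := by
  cases t
  · exact host_ne n hn e
  · exact (host_ne n hn e).symm

theorem host_inj (n : ℕ) (hn : 3 ≤ n) (d d' : Ed n × Bool) (h : vt0 n d = vt0 n d')
    (h' : vt0 n (flp d) = vt0 n (flp d')) : d = d' := by
  obtain ⟨e, t⟩ := d
  obtain ⟨e', t'⟩ := d'
  simp only [flp_apply] at h'
  have h1 := vt_sum2 n e t
  have h2 := vt_sum2 n e' t'
  rw [h, h', h2] at h1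
  have l1 := ea_lt_eb_e03 e
  have l2 := ea_lt_eb_e03 e'
  have h3 := dln2 n (ea e) (eb e) (ea e') (eb e') hn (ea_lt e) (eb_lt e) (ea_lt e') (eb_lt e')
    (by omega) h1.symm
  have h4 : ea e = ea e' ∧ eb e = eb e' := by omega
  have h5 : e = e' := Subtype.ext (Prod.ext (Fin.ext h4.1) (Fin.ext h4.2))
  subst h5
  by_cases ht : t = t'
  · rw [ht]
  · exfalso
    have h6 : t' = !t := by
      cases t <;> cases t' <;> simp_all
    rw [h6] at h
    exact host_ne2 n hn e t h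

theorem host_adj (n : ℕ) (hn : 3 ≤ n) (v w : Lab (2 * n)) :
    (mapGraph (vt0 n)).Adj v w ↔ ∃ l m t, l < 2 * n ∧ m < 2 * n ∧ l ≠ m ∧
      v = vlab n l m t ∧ w = vlab n l m (!t) := by
  constructor
  · rintro ⟨_, ⟨e, t⟩, h1, h2⟩
    have := ea_lt_eb_e03 e
    exact ⟨ea e, eb e, t, ea_lt e, eb_lt e, by omega, h1.symm, h2.symm⟩
  · have key : ∀ l m t, l < 2 * n → m < 2 * n → l < m →
        (mapGraph (vt0 n)).Adj (vlab n l m t) (vlab n l m (!t)) := by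
      intro l m t hl hm1 hlm
      let e : Ed n := ⟨(⟨l, hl⟩, ⟨m, hm1⟩), hlm⟩
      exact ⟨host_ne2 n hn e t, (e, t), rfl, rfl⟩
    rintro ⟨l, m, t, hl, hm1, hlm, rfl, rfl⟩
    rcases Nat.lt_or_gt_of_ne hlm with h | h
    · exact key l m t hl hm1 h
    · rw [vlab_comm n l m t, vlab_comm n l m (!t)]
      exact key m l t hm1 hl h

theorem vlabT_e03 (n l m : ℕ) : vlab n l m true = sgn n l + sgn n m + sgn n (gm n l m true) := rfl

theorem vlabF_e03 (n l m : ℕ) :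
    vlab n l m false = sgn n (pm n l) + sgn n (pm n m) + sgn n (gm n l m true) := rfl

theorem perm3 (n x y z x' y' z' : ℕ) (hx : x < 2 * n) (hy : y < 2 * n) (hz : z < 2 * n)
    (hx' : x' < 2 * n) (hy' : y' < 2 * n) (hz' : z' < 2 * n) (hxy : x ≠ y) (hxz : x ≠ z)
    (hyz : y ≠ z) (h : sgn n x + sgn n y + sgn n z = sgn n x' + sgn n y' + sgn n z') :
    (x = x' ∧ y = y' ∧ z = z') ∨ (x = x' ∧ y = z' ∧ z = y') ∨ (x = y' ∧ y = x' ∧ z = z') ∨
    (x = y' ∧ y = z' ∧ z = x') ∨ (x = z' ∧ y = x' ∧ z = y') ∨ (x = z' ∧ y = y' ∧ z = x') := by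
  have h1 := sgn3 n x y z x' y' z' hx hy hz hx' hy' hz' h
  rcases h1 with h1 | h1 | h1 | h1 | h1 | h1 | h1 | h1 | h1 | h1 | h1 | h1 | h1 | h1 | h1
  · exact Or.inl h1
  · exact Or.inr (Or.inl h1)
  · exact Or.inr (Or.inr (Or.inl h1))
  · exact Or.inr (Or.inr (Or.inr (Or.inl h1)))
  · exact Or.inr (Or.inr (Or.inr (Or.inr (Or.inl h1))))
  · exact Or.inr (Or.inr (Or.inr (Or.inr (Or.inr h1))))
  · exact absurd h1.1 hxy
  · exact absurd h1.1 hxy
  · exact absurd h1.1 hxy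
  · exact absurd h1.1 hxz
  · exact absurd h1.1 hxz
  · exact absurd h1.1 hxz
  · exact absurd h1.1 hyz
  · exact absurd h1.1 hyz
  · exact absurd h1.1 hyz

theorem sumF (n l m : ℕ) (hl : l < 2 * n) (hm1 : m < 2 * n) :
    pm n l + pm n m + gm n l m true + 3 = 2 * n ∨ pm n l + pm n m + gm n l m true + 3 = 4 * n ∨
      pm n l + pm n m + gm n l m true + 3 = 6 * n ∨
      pm n l + pm n m + gm n l m true + 3 = 8 * n := by
  obtain ⟨_, a2⟩ := gmT_spec_e03 n l m hl hm1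
  obtain ⟨_, p2⟩ := pm_spec_e03 n l hl
  obtain ⟨_, q2⟩ := pm_spec_e03 n m hm1
  omega

theorem pm_gm (n l m : ℕ) (hl : l < 2 * n) (hm1 : m < 2 * n) :
    pm n (gm n l m false) = gm n l m true := by
  obtain ⟨a1, a2⟩ := gmT_spec_e03 n l m hl hm1
  obtain ⟨c1, c2⟩ := gmF_spec_e03 n l m hl hm1
  obtain ⟨p1, p2⟩ := pm_spec_e03 n _ c1
  omega

theorem pm_inj (n x y : ℕ) (hx : x < 2 * n) (hy : y < 2 * n) (h : pm n x = pm n y) : x = y := by
  obtain ⟨_, a2⟩ := pm_spec_e03 n x hx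
  obtain ⟨_, b2⟩ := pm_spec_e03 n y hy
  omega

theorem vlab_nondeg (n l m l' m' : ℕ) (t t' : Bool) (hn : 3 ≤ n) (hl : l < 2 * n)
    (hm1 : m < 2 * n) (hl' : l' < 2 * n) (hm2 : m' < 2 * n) (hlm : l ≠ m) (hlm' : l' ≠ m')
    (hc1 : gm n l m t ≠ l) (hc2 : gm n l m t ≠ m) (h : vlab n l m t = vlab n l' m' t') :
    t' = t ∧ ((l' = l ∧ m' = m) ∨ (l' = m ∧ m' = l) ∨ (l' = l ∧ m' = gm n l m t) ∨
      (l' = gm n l m t ∧ m' = l) ∨ (l' = m ∧ m' = gm n l m t) ∨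
      (l' = gm n l m t ∧ m' = m)) := by
  have a1 := (gmT_spec_e03 n l m hl hm1).1
  have b1 := (gmT_spec_e03 n l' m' hl' hm2).1
  have c1 := (gmF_spec_e03 n l m hl hm1).1
  have p1 := (pm_spec_e03 n l hl).1
  have q1 := (pm_spec_e03 n m hm1).1
  have r1' := (pm_spec_e03 n l' hl').1
  have s1 := (pm_spec_e03 n m' hm2).1
  have g1 := pm_gm n l m hl hm1
  have dF : t = false → pm n l ≠ pm n m ∧ pm n l ≠ gm n l m true ∧ pm n m ≠ gm n l m true := by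
    rintro rfl
    refine ⟨fun h2 => hlm (pm_inj n l m hl hm1 h2), fun h2 => hc1 ?_, fun h2 => hc2 ?_⟩
    · rw [← g1] at h2
      exact (pm_inj n _ _ hl c1 h2).symm
    · rw [← g1] at h2
      exact (pm_inj n _ _ hm1 c1 h2).symm
  cases t <;> cases t'
  · rw [vlabF_e03, vlabF_e03] at h
    obtain ⟨d1, d2, d3⟩ := dF rfl
    have h1 := perm3 n _ _ _ _ _ _ p1 q1 a1 r1' s1 b1 d1 d2 d3 h
    refine ⟨rfl, ?_⟩
    rw [← g1] at h1
    rcases h1 with ⟨x1, x2, x3⟩ | ⟨x1, x2, x3⟩ | ⟨x1, x2, x3⟩ | ⟨x1, x2, x3⟩ | ⟨x1, x2, x3⟩ |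
      ⟨x1, x2, x3⟩
    · exact Or.inl ⟨(pm_inj n _ _ hl hl' x1).symm, (pm_inj n _ _ hm1 hm2 x2).symm⟩
    · exact Or.inr (Or.inr (Or.inl ⟨(pm_inj n _ _ hl hl' x1).symm,
        (pm_inj n _ _ c1 hm2 x3).symm⟩))
    · exact Or.inr (Or.inl ⟨(pm_inj n _ _ hm1 hl' x2).symm, (pm_inj n _ _ hl hm2 x1).symm⟩)
    · exact Or.inr (Or.inr (Or.inr (Or.inl ⟨(pm_inj n _ _ c1 hl' x3).symm,
        (pm_inj n _ _ hl hm2 x1).symm⟩)))
    · exact Or.inr (Or.inr (Or.inr (Or.inr (Or.inl ⟨(pm_inj n _ _ hm1 hl' x2).symm,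
        (pm_inj n _ _ c1 hm2 x3).symm⟩))))
    · exact Or.inr (Or.inr (Or.inr (Or.inr (Or.inr ⟨(pm_inj n _ _ c1 hl' x3).symm,
        (pm_inj n _ _ hm1 hm2 x2).symm⟩))))
  · exfalso
    rw [vlabF_e03, vlabT_e03] at h
    obtain ⟨d1, d2, d3⟩ := dF rfl
    have h1 := perm3 n _ _ _ _ _ _ p1 q1 a1 hl' hm2 b1 d1 d2 d3 h
    have e1 : pm n l + pm n m + gm n l m true = l' + m' + gm n l' m' true := by omega
    have e2 := sumF n l m hl hm1
    have e3 := (gmT_spec_e03 n l' m' hl' hm2).2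
    omega
  · exfalso
    rw [vlabT_e03, vlabF_e03] at h
    have h1 := perm3 n _ _ _ _ _ _ hl hm1 a1 r1' s1 b1 hlm (Ne.symm hc1) (Ne.symm hc2) h
    have e1 : l + m + gm n l m true = pm n l' + pm n m' + gm n l' m' true := by omega
    have e2 := sumF n l' m' hl' hm2
    have e3 := (gmT_spec_e03 n l m hl hm1).2
    omega
  · rw [vlabT_e03, vlabT_e03] at h
    have h1 := perm3 n _ _ _ _ _ _ hl hm1 a1 hl' hm2 b1 hlm (Ne.symm hc1) (Ne.symm hc2) h
    refine ⟨rfl, ?_⟩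
    omega

/-- the label at a flag is the same for the three lines of a triangle -/
theorem vlab_rot (n l m : ℕ) (t : Bool) (hl : l < 2 * n) (hm1 : m < 2 * n) :
    gm n l m t < 2 * n ∧ vlab n l (gm n l m t) t = vlab n l m t := by
  obtain ⟨a1, a2⟩ := gmT_spec_e03 n l m hl hm1
  obtain ⟨c1, c2⟩ := gmF_spec_e03 n l m hl hm1
  cases t
  · refine ⟨c1, ?_⟩
    rw [vlabF_e03, vlabF_e03, pm_gm n l m hl hm1]
    obtain ⟨b1, b2⟩ := gmT_spec_e03 n l (gm n l m false) hl c1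
    obtain ⟨p1, p2⟩ := pm_spec_e03 n m hm1
    have e : gm n l (gm n l m false) true = pm n m := by omega
    rw [e]
    abel
  · refine ⟨a1, ?_⟩
    rw [vlabT_e03, vlabT_e03]
    obtain ⟨b1, b2⟩ := gmT_spec_e03 n l (gm n l m true) hl a1
    have e : gm n l (gm n l m true) true = m := by omega
    rw [e]
    abel

theorem gm_comm_e03 (n l m : ℕ) (t : Bool) (hl : l < 2 * n) (hm1 : m < 2 * n) :
    gm n l m t = gm n m l t := by
  obtain ⟨a1, a2⟩ := gmT_spec_e03 n l m hl hm1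
  obtain ⟨c1, c2⟩ := gmF_spec_e03 n l m hl hm1
  obtain ⟨b1, b2⟩ := gmT_spec_e03 n m l hm1 hl
  obtain ⟨d1, d2⟩ := gmF_spec_e03 n m l hm1 hl
  cases t <;> omega

theorem vlab_rot2 (n l m : ℕ) (t : Bool) (hl : l < 2 * n) (hm1 : m < 2 * n) :
    vlab n m (gm n l m t) t = vlab n l m t := by
  rw [gm_comm_e03 n l m t hl hm1, (vlab_rot n m l t hm1 hl).2, vlab_comm]

theorem nbrs (n l m : ℕ) (t : Bool) (hn : 3 ≤ n) (hl : l < 2 * n) (hm1 : m < 2 * n)
    (hlm : l ≠ m) (hc1 : gm n l m t ≠ l) (hc2 : gm n l m t ≠ m) (w : Lab (2 * n)) :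
    (mapGraph (vt0 n)).Adj (vlab n l m t) w ↔ w = vlab n l m (!t) ∨
      w = vlab n l (gm n l m t) (!t) ∨ w = vlab n m (gm n l m t) (!t) := by
  have hc := (vlab_rot n l m t hl hm1).1
  rw [host_adj n hn]
  constructor
  · rintro ⟨l', m', t', hl', hm2, hlm', h, rfl⟩
    obtain ⟨rfl, h1⟩ := vlab_nondeg n l m l' m' t t' hn hl hm1 hl' hm2 hlm hlm' hc1 hc2 h
    rcases h1 with ⟨rfl, rfl⟩ | ⟨rfl, rfl⟩ | ⟨rfl, rfl⟩ | ⟨rfl, rfl⟩ | ⟨rfl, rfl⟩ | ⟨rfl, rfl⟩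
    · exact Or.inl rfl
    · exact Or.inl (vlab_comm _ _ _ _)
    · exact Or.inr (Or.inl rfl)
    · exact Or.inr (Or.inl (vlab_comm _ _ _ _))
    · exact Or.inr (Or.inr rfl)
    · exact Or.inr (Or.inr (vlab_comm _ _ _ _))
  · rintro (rfl | rfl | rfl)
    · exact ⟨l, m, t, hl, hm1, hlm, rfl, rfl⟩
    · exact ⟨l, gm n l m t, t, hl, hc, hc1.symm, (vlab_rot n l m t hl hm1).2.symm, rfl⟩
    · exact ⟨m, gm n l m t, t, hm1, hc, hc2.symm, (vlab_rot2 n l m t hl hm1).symm, rfl⟩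

/-- two ends of the first kind on one line -/
theorem eqP (n a b c : ℕ) (ha : a < 2 * n) (hb : b < 2 * n) (hc : c < 2 * n)
    (hab : a ≠ b) (hac : a ≠ c) (hbc : b ≠ c) (h : vlab n a b true = vlab n a c true) :
    (a + b + c + 1 = 2 * n ∨ a + b + c + 1 = 4 * n) ∨
      (b = gm n a b true ∧ c = gm n a c true) := by
  obtain ⟨a1, a2⟩ := gmT_spec_e03 n a b ha hb
  obtain ⟨b1, b2⟩ := gmT_spec_e03 n a c ha hc
  rw [vlabT_e03, vlabT_e03] at h
  have h1 := sgn3 n _ _ _ _ _ _ ha hb a1 ha hc b1 h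
  rcases h1 with h1 | h1 | h1 | h1 | h1 | h1 | h1 | h1 | h1 | h1 | h1 | h1 | h1 | h1 | h1 <;>
    omega

/-- two ends of the second kind on one line -/
theorem eqQ (n a b c : ℕ) (ha : a < 2 * n) (hb : b < 2 * n) (hc : c < 2 * n)
    (hab : a ≠ b) (hac : a ≠ c) (hbc : b ≠ c) (h : vlab n a b false = vlab n a c false) :
    (a + b + c = 2 * n ∨ a + b + c = 4 * n) ∨
      (b = gm n a b false ∧ c = gm n a c false) := by
  have a1 := (gmT_spec_e03 n a b ha hb).1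
  have b1 := (gmT_spec_e03 n a c ha hc).1
  have p1 := (pm_spec_e03 n a ha).1
  have q1 := (pm_spec_e03 n b hb).1
  have r1' := (pm_spec_e03 n c hc).1
  obtain ⟨c1, c2⟩ := gmF_spec_e03 n a b ha hb
  obtain ⟨d1, d2⟩ := gmF_spec_e03 n a c ha hc
  rw [vlabF_e03, vlabF_e03] at h
  have h1 := sgn3 n _ _ _ _ _ _ p1 q1 a1 p1 r1' b1 h
  rw [← pm_gm n a b ha hb, ← pm_gm n a c ha hc] at h1
  have hI := fun x y hx hy => pm_inj n x y hx hy
  have i1 : ∀ x y, x < 2 * n → y < 2 * n → (pm n x = pm n y ↔ x = y) := fun x y hx hy =>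
    ⟨hI x y hx hy, fun h => by rw [h]⟩
  rw [i1 a b ha hb, i1 a c ha hc, i1 b c hb hc, i1 b a hb ha, i1 a _ ha c1, i1 a _ ha d1,
    i1 b _ hb c1, i1 b _ hb d1, i1 _ c c1 hc, i1 _ a c1 ha, i1 _ _ c1 d1, i1 a a ha ha,
    i1 c _ hc d1] at h1
  clear i1 hI h
  rcases h1 with h1 | h1 | h1 | h1 | h1 | h1 | h1 | h1 | h1 | h1 | h1 | h1 | h1 | h1 | h1 <;>
    omega

/-- ends of different kinds on one line -/
theorem eqM (n a b c : ℕ) (hn : 3 ≤ n) (ha : a < 2 * n) (hb : b < 2 * n) (hc : c < 2 * n)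
    (hab : a ≠ b) (hac : a ≠ c) (h : vlab n a b true = vlab n a c false) :
    (gm n a b true = a ∨ gm n a b true = b) ∧ (gm n a c false = a ∨ gm n a c false = c) := by
  have key : ¬ (gm n a b true ≠ a ∧ gm n a b true ≠ b) := by
    rintro ⟨h1, h2⟩
    have h3 := (vlab_nondeg n a b a c true false hn ha hb ha hc hab hac h1 h2 h).1
    exact absurd h3 (by decide)
  have key2 : ¬ (gm n a c false ≠ a ∧ gm n a c false ≠ c) := by
    rintro ⟨h1, h2⟩
    have h3 := (vlab_nondeg n a c a b false true hn ha hc ha hb hac hab h1 h2 h.symm).1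
    exact absurd h3 (by decide)
  constructor
  · by_contra hcon
    exact key (by omega)
  · by_contra hcon
    exact key2 (by omega)

/-- a vertex of the first kind and one of the second kind on three lines -/
theorem noPQ (n x y z : ℕ) (hn : 3 ≤ n) (hx : x < 2 * n) (hy : y < 2 * n) (hz : z < 2 * n)
    (hxy : x ≠ y) (hxz : x ≠ z) (hyz : y ≠ z) (h1 : vlab n x y true = vlab n x z true)
    (h2 : vlab n y x false = vlab n y z false) : False := by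
  have e1 := eqP n x y z hx hy hz hxy hxz hyz h1
  have e2 := eqQ n y x z hy hx hz hxy.symm hyz hxz h2
  have a1 := (gmT_spec_e03 n x y hx hy).2
  have a2 := (gmT_spec_e03 n x z hx hz).2
  have a3 := (gmF_spec_e03 n y x hy hx).2
  have a4 := (gmF_spec_e03 n y z hy hz).2
  rcases e1 with e1 | e1 <;> rcases e2 with e2 | e2
  · omega
  · rw [← e2.1] at a3
    rw [← e2.2] at a4
    omega
  · rw [← e1.1] at a1
    rw [← e1.2] at a2
    omega
  · rw [← e1.1] at a1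
    rw [← e1.2] at a2
    rw [← e2.1] at a3
    rw [← e2.2] at a4
    omega

/-- doubly degenerate pairs are consecutive -/
theorem degen (n x y : ℕ) (hn : 3 ≤ n) (hx : x < 2 * n) (hy : y < 2 * n) (hxy : x ≠ y)
    (h1 : gm n x y true = x ∨ gm n x y true = y) (h2 : gm n x y false = x ∨ gm n x y false = y) :
    x + 1 = y ∨ y + 1 = x ∨ (x = 0 ∧ y + 1 = 2 * n) ∨ (y = 0 ∧ x + 1 = 2 * n) := by
  have a1 := (gmT_spec_e03 n x y hx hy).2
  have a3 := (gmF_spec_e03 n x y hx hy).2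
  omega

theorem noCyc (n x y z : ℕ) (hn : 3 ≤ n) (hx : x < 2 * n) (hy : y < 2 * n) (hz : z < 2 * n)
    (hxy : x ≠ y) (hxz : x ≠ z) (hyz : y ≠ z) (h1 : vlab n x y true = vlab n x z false)
    (h2 : vlab n y z true = vlab n y x false) (h3 : vlab n z x true = vlab n z y false) :
    False := by
  obtain ⟨a1, a2⟩ := eqM n x y z hn hx hy hz hxy hxz h1
  obtain ⟨b1, b2⟩ := eqM n y z x hn hy hz hx hyz hxy.symm h2
  obtain ⟨c1, c2⟩ := eqM n z x y hn hz hx hy hxz.symm hyz.symm h3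
  rw [gm_comm_e03 n y x false hy hx] at b2
  rw [gm_comm_e03 n z x true hz hx] at c1
  rw [gm_comm_e03 n z y false hz hy] at c2
  have e1 := degen n x y hn hx hy hxy a1 (by omega)
  have e2 := degen n x z hn hx hz hxz (by omega) a2
  have e3 := degen n y z hn hy hz hyz b1 (by omega)
  omega

/-- the core of the triangle lemma -/
theorem tri_core (n a b c : ℕ) (hn : 3 ≤ n) (ha : a < 2 * n) (hb : b < 2 * n) (hc : c < 2 * n)
    (hab : a ≠ b) (hac : a ≠ c) (hbc : b ≠ c) (t1 t2 t3 : Bool)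
    (hu : vlab n a b t1 = vlab n a c t3) (hv : vlab n a b (!t1) = vlab n b c t2)
    (hw : vlab n b c (!t2) = vlab n a c (!t3)) : False := by
  cases t1 <;> cases t2 <;> cases t3 <;> simp only [Bool.not_false, Bool.not_true] at hu hv hw
  · -- F F F : u QQ, w PP
    refine noPQ n c a b hn hc ha hb hac.symm hbc.symm hab ?_ ?_
    · rw [vlab_comm n c a, vlab_comm n c b, hw]
    · rw [← hu]
  · -- F F T : cyclic
    refine noCyc n a c b hn ha hc hb hac hab hbc.symm hu.symm ?_ ?_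
    · rw [vlab_comm n c b, vlab_comm n c a, hw]
    · rw [vlab_comm n b a, hv]
  · -- F T F : u QQ, v PP
    refine noPQ n b a c hn hb ha hc hab.symm hbc hac ?_ ?_
    · rw [vlab_comm n b a, hv]
    · rw [hu]
  · -- F T T : v PP, w QQ
    refine noPQ n b c a hn hb hc ha hbc hab.symm hac.symm ?_ ?_
    · rw [vlab_comm n b a, hv]
    · rw [vlab_comm n c b, vlab_comm n c a, hw]
  · -- T F F : v QQ, w PP
    refine noPQ n c b a hn hc hb ha hbc.symm hac.symm hab.symm ?_ ?_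
    · rw [vlab_comm n c b, vlab_comm n c a, hw]
    · rw [vlab_comm n b a, hv]
  · -- T F T : u PP, v QQ
    refine noPQ n a b c hn ha hb hc hab hac hbc hu ?_
    rw [vlab_comm n b a, hv]
  · -- T T F : cyclic
    refine noCyc n a b c hn ha hb hc hab hac hbc hu ?_ ?_
    · rw [vlab_comm n b a, hv]
    · rw [vlab_comm n c b, vlab_comm n c a, hw]
  · -- T T T : u PP, w QQ
    refine noPQ n a c b hn ha hc hb hac hab hbc.symm hu.symm ?_
    rw [vlab_comm n c b, vlab_comm n c a, hw]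

theorem vlab_sum (n l m : ℕ) (t : Bool) (hl : l < 2 * n) (hm1 : m < 2 * n) (hlm : l ≠ m) :
    vlab n l m t + vlab n l m (!t) = dln n l + dln n m := by
  have key : ∀ l m t, l < 2 * n → m < 2 * n → l < m →
      vlab n l m t + vlab n l m (!t) = dln n l + dln n m := by
    intro l m t hl hm1 hlm
    let e : Ed n := ⟨(⟨l, hl⟩, ⟨m, hm1⟩), hlm⟩
    exact vt_sum2 n e t
  rcases Nat.lt_or_gt_of_ne hlm with h | h
  · exact key l m t hl hm1 h
  · rw [vlab_comm n l m t, vlab_comm n l m (!t), key m l t hm1 hl h, add_comm]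

/-- parity of the number of occurrences -/
theorem even_occ (n a b c d e f : ℕ) (hn : 4 ≤ n) (ha : a < 2 * n) (hb : b < 2 * n)
    (hc : c < 2 * n) (hd : d < 2 * n) (he : e < 2 * n) (hf : f < 2 * n)
    (h : dln n a + dln n b + dln n c + dln n d + dln n e + dln n f = 0) (y : ℕ)
    (hy : y < 2 * n) :
    2 ∣ (if y = a then 1 else 0) + (if y = b then 1 else 0) + (if y = c then 1 else 0) +
      (if y = d then 1 else 0) + (if y = e then 1 else 0) + (if y = f then 1 else 0) := by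
  have hne : NeZero (2 * n) := ⟨by omega⟩
  let S : ZMod (2 * n) → ZMod (2 * n) → ZMod 2 := fun z x => if x = z then 1 else 0
  let C : ZMod (2 * n) → ZMod 2 := fun x => S a x + S b x + S c x + S d x + S e x + S f x
  have hs1 : ∀ z, S z z = 1 := fun z => if_pos rfl
  have hs0 : ∀ z x, x ≠ z → S z x = 0 := fun z x h => if_neg h
  have hs : ∀ z : ZMod (2 * n), ∑ x, S z x • (dl x : Lab (2 * n)) = dl z := by
    intro z
    rw [Finset.sum_eq_single z]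
    · rw [hs1, one_smul]
    · intro x _ hx
      rw [hs0 z x hx, zero_smul]
    · intro hz
      exact absurd (Finset.mem_univ z) hz
  have h1 : ∑ x, C x • (dl x : Lab (2 * n)) = 0 := by
    simp only [C, add_smul, Finset.sum_add_distrib, hs]
    rw [← dln_eq n a (by omega) ha, ← dln_eq n b (by omega) hb, ← dln_eq n c (by omega) hc,
      ← dln_eq n d (by omega) hd, ← dln_eq n e (by omega) he, ← dln_eq n f (by omega) hf]
    exact h
  have h2 := dl_rel (by omega : 2 ≤ 2 * n) C h1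
  obtain ⟨x, hx⟩ : ∃ x : ZMod (2 * n), x ∉ ({(a : ZMod (2 * n)), (b : ZMod (2 * n)),
      (c : ZMod (2 * n)), (d : ZMod (2 * n)), (e : ZMod (2 * n)), (f : ZMod (2 * n))} :
      Finset (ZMod (2 * n))) := by
    by_contra hcon
    push Not at hcon
    have h3 : (Finset.univ : Finset (ZMod (2 * n))) ⊆ {(a : ZMod (2 * n)), (b : ZMod (2 * n)),
      (c : ZMod (2 * n)), (d : ZMod (2 * n)), (e : ZMod (2 * n)), (f : ZMod (2 * n))} :=
      fun x _ => hcon x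
    have h4 := Finset.card_le_card h3
    rw [Finset.card_univ, ZMod.card] at h4
    have h5 := h4.trans Finset.card_le_six
    omega
  have h3 : C x = 0 := by
    simp only [Finset.mem_insert, Finset.mem_singleton, not_or] at hx
    obtain ⟨x1, x2, x3, x4, x5, x6⟩ := hx
    simp only [C]
    rw [hs0 _ _ x1, hs0 _ _ x2, hs0 _ _ x3, hs0 _ _ x4, hs0 _ _ x5, hs0 _ _ x6]
    simp
  have h4 : C (y : ZMod (2 * n)) = 0 := by rw [h2 _ x, h3]
  have h5 : ∀ z, z < 2 * n → S (z : ZMod (2 * n)) (y : ZMod (2 * n)) =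
      ((if y = z then 1 else 0 : ℕ) : ZMod 2) := by
    intro z hz
    by_cases hyz : y = z
    · rw [if_pos hyz, hyz, hs1]
      simp
    · rw [if_neg hyz, hs0]
      · simp
      · intro h6
        apply hyz
        have h7 := (ZMod.natCast_eq_natCast_iff' y z (2 * n)).1 h6
        rwa [Nat.mod_eq_of_lt hy, Nat.mod_eq_of_lt hz] at h7
  simp only [C] at h4
  rw [h5 a ha, h5 b hb, h5 c hc, h5 d hd, h5 e he, h5 f hf] at h4
  have h6 : (((if y = a then 1 else 0) + (if y = b then 1 else 0) + (if y = c then 1 else 0) +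
      (if y = d then 1 else 0) + (if y = e then 1 else 0) + (if y = f then 1 else 0) : ℕ) :
      ZMod 2) = 0 := by
    rw [← h4]
    push_cast
    rfl
  exact (ZMod.natCast_eq_zero_iff _ 2).1 h6

theorem occ (y c d e f : ℕ) (hcd : c ≠ d) (hef : e ≠ f)
    (h : 2 ∣ 1 + (if y = c then 1 else 0) + (if y = d then 1 else 0) +
      (if y = e then 1 else 0) + (if y = f then 1 else 0)) :
    (y = c ∨ y = d) ∧ ¬ (y = e ∨ y = f) ∨ ¬ (y = c ∨ y = d) ∧ (y = e ∨ y = f) := by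
  split_ifs at h <;> omega

theorem pat8 (l1 m1 l2 m2 l3 m3 : ℕ) (hlm1 : l1 ≠ m1) (hlm2 : l2 ≠ m2) (hlm3 : l3 ≠ m3)
    (d12 : ¬ ((l1 = l2 ∧ m1 = m2) ∨ (l1 = m2 ∧ m1 = l2)))
    (d13 : ¬ ((l1 = l3 ∧ m1 = m3) ∨ (l1 = m3 ∧ m1 = l3)))
    (k1 : (l1 = l2 ∨ l1 = m2) ∧ ¬ (l1 = l3 ∨ l1 = m3) ∨
      ¬ (l1 = l2 ∨ l1 = m2) ∧ (l1 = l3 ∨ l1 = m3))
    (k2 : (m1 = l2 ∨ m1 = m2) ∧ ¬ (m1 = l3 ∨ m1 = m3) ∨
      ¬ (m1 = l2 ∨ m1 = m2) ∧ (m1 = l3 ∨ m1 = m3))
    (k3 : (l2 = l1 ∨ l2 = m1) ∧ ¬ (l2 = l3 ∨ l2 = m3) ∨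
      ¬ (l2 = l1 ∨ l2 = m1) ∧ (l2 = l3 ∨ l2 = m3))
    (k4 : (m2 = l1 ∨ m2 = m1) ∧ ¬ (m2 = l3 ∨ m2 = m3) ∨
      ¬ (m2 = l1 ∨ m2 = m1) ∧ (m2 = l3 ∨ m2 = m3)) :
    (m1 = l2 ∧ l1 = l3 ∧ m2 = m3) ∨ (m1 = l2 ∧ l1 = m3 ∧ m2 = l3) ∨
      (m1 = m2 ∧ l1 = l3 ∧ l2 = m3) ∨ (m1 = m2 ∧ l1 = m3 ∧ l2 = l3) ∨
      (l1 = l2 ∧ m1 = l3 ∧ m2 = m3) ∨ (l1 = l2 ∧ m1 = m3 ∧ m2 = l3) ∨
      (l1 = m2 ∧ m1 = l3 ∧ l2 = m3) ∨ (l1 = m2 ∧ m1 = m3 ∧ l2 = l3) := by
  have f3 : l2 = l1 ∨ l2 = m1 ∨ l2 = l3 ∨ l2 = m3 := by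
    rcases k3 with ⟨c | c, -⟩ | ⟨-, c | c⟩
    · exact Or.inl c
    · exact Or.inr (Or.inl c)
    · exact Or.inr (Or.inr (Or.inl c))
    · exact Or.inr (Or.inr (Or.inr c))
  have f4 : m2 = l1 ∨ m2 = m1 ∨ m2 = l3 ∨ m2 = m3 := by
    rcases k4 with ⟨c | c, -⟩ | ⟨-, c | c⟩
    · exact Or.inl c
    · exact Or.inr (Or.inl c)
    · exact Or.inr (Or.inr (Or.inl c))
    · exact Or.inr (Or.inr (Or.inr c))
  clear k3 k4
  rcases k1 with ⟨a | a, -⟩ | ⟨-, a | a⟩ <;> rcases k2 with ⟨b | b, -⟩ | ⟨-, b | b⟩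
  · exact absurd (a.trans b.symm) hlm1
  · exact absurd (Or.inl ⟨a, b⟩) d12
  · clear f3
    rcases f4 with c | c | c | c
    · exfalso; omega
    · exfalso; omega
    · exfalso; omega
    · exact Or.inr (Or.inr (Or.inr (Or.inr (Or.inl (⟨a, b, c⟩)))))
  · clear f3
    rcases f4 with c | c | c | c
    · exfalso; omega
    · exfalso; omega
    · exact Or.inr (Or.inr (Or.inr (Or.inr (Or.inr (Or.inl (⟨a, b, c⟩))))))
    · exfalso; omega
  · exact absurd (Or.inr ⟨a, b⟩) d12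
  · exact absurd (a.trans b.symm) hlm1
  · clear f4
    rcases f3 with c | c | c | c
    · exfalso; omega
    · exfalso; omega
    · exfalso; omega
    · exact Or.inr (Or.inr (Or.inr (Or.inr (Or.inr (Or.inr (Or.inl (⟨a, b, c⟩)))))))
  · clear f4
    rcases f3 with c | c | c | c
    · exfalso; omega
    · exfalso; omega
    · exact Or.inr (Or.inr (Or.inr (Or.inr (Or.inr (Or.inr (Or.inr (⟨a, b, c⟩)))))))
    · exfalso; omega
  · clear f3
    rcases f4 with c | c | c | c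
    · exfalso; omega
    · exfalso; omega
    · exfalso; omega
    · exact Or.inl (⟨b, a, c⟩)
  · clear f4
    rcases f3 with c | c | c | c
    · exfalso; omega
    · exfalso; omega
    · exfalso; omega
    · exact Or.inr (Or.inr (Or.inl (⟨b, a, c⟩)))
  · exact absurd (a.trans b.symm) hlm1
  · exact absurd (Or.inl ⟨a, b⟩) d13
  · clear f3
    rcases f4 with c | c | c | c
    · exfalso; omega
    · exfalso; omega
    · exact Or.inr (Or.inl (⟨b, a, c⟩))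
    · exfalso; omega
  · clear f4
    rcases f3 with c | c | c | c
    · exfalso; omega
    · exfalso; omega
    · exact Or.inr (Or.inr (Or.inr (Or.inl (⟨b, a, c⟩))))
    · exfalso; omega
  · exact absurd (Or.inr ⟨a, b⟩) d13
  · exact absurd (a.trans b.symm) hlm1

theorem host_tri (n : ℕ) (hn : 4 ≤ n) (u v w : Lab (2 * n)) (h : (mapGraph (vt0 n)).Adj u v)
    (h' : (mapGraph (vt0 n)).Adj v w) : ¬ (mapGraph (vt0 n)).Adj u w := by
  intro h''
  have huv : u ≠ v := h.1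
  have hvw : v ≠ w := h'.1
  have huw : u ≠ w := h''.1
  obtain ⟨l1, m1, t1, hl1, hm1, hlm1, u1, v1⟩ := (host_adj n (by omega) u v).1 h
  obtain ⟨l2, m2, t2, hl2, hm2, hlm2, v2, w2⟩ := (host_adj n (by omega) v w).1 h'
  obtain ⟨l3, m3, t3, hl3, hm3, hlm3, u3, w3⟩ := (host_adj n (by omega) u w).1 h''
  have s1 : u + v = dln n l1 + dln n m1 := by
    rw [u1, v1]
    exact vlab_sum n l1 m1 t1 hl1 hm1 hlm1
  have s2 : v + w = dln n l2 + dln n m2 := by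
    rw [v2, w2]
    exact vlab_sum n l2 m2 t2 hl2 hm2 hlm2
  have s3 : u + w = dln n l3 + dln n m3 := by
    rw [u3, w3]
    exact vlab_sum n l3 m3 t3 hl3 hm3 hlm3
  have hsum : dln n l1 + dln n m1 + dln n l2 + dln n m2 + dln n l3 + dln n m3 = 0 := by
    have e : dln n l1 + dln n m1 + dln n l2 + dln n m2 + dln n l3 + dln n m3 =
        (dln n l1 + dln n m1) + (dln n l2 + dln n m2) + (dln n l3 + dln n m3) := by abel
    rw [e, ← s1, ← s2, ← s3]
    have e2 : u + v + (v + w) + (u + w) = (u + u) + (v + v) + (w + w) := by abel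
    rw [e2, lab_self_e03 u, lab_self_e03 v, lab_self_e03 w]
    simp
  -- the edges are different
  have d12 : ¬ ((l1 = l2 ∧ m1 = m2) ∨ (l1 = m2 ∧ m1 = l2)) := by
    intro hcon
    have e : dln n l1 + dln n m1 = dln n l2 + dln n m2 := by
      rcases hcon with ⟨rfl, rfl⟩ | ⟨rfl, rfl⟩
      · rfl
      · exact add_comm _ _
    rw [← s1, ← s2, add_comm u v] at e
    exact huw (add_left_cancel e)
  have d13 : ¬ ((l1 = l3 ∧ m1 = m3) ∨ (l1 = m3 ∧ m1 = l3)) := by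
    intro hcon
    have e : dln n l1 + dln n m1 = dln n l3 + dln n m3 := by
      rcases hcon with ⟨rfl, rfl⟩ | ⟨rfl, rfl⟩
      · rfl
      · exact add_comm _ _
    rw [← s1, ← s3] at e
    exact hvw (add_left_cancel e)
  have d23 : ¬ ((l2 = l3 ∧ m2 = m3) ∨ (l2 = m3 ∧ m2 = l3)) := by
    intro hcon
    have e : dln n l2 + dln n m2 = dln n l3 + dln n m3 := by
      rcases hcon with ⟨rfl, rfl⟩ | ⟨rfl, rfl⟩
      · rfl
      · exact add_comm _ _
    rw [← s2, ← s3] at e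
    exact huv (add_right_cancel e).symm
  have ev := even_occ n l1 m1 l2 m2 l3 m3 hn hl1 hm1 hl2 hm2 hl3 hm3 hsum
  have k1 := ev l1 hl1
  rw [if_pos rfl, if_neg hlm1, add_zero] at k1
  have k1' := occ l1 l2 m2 l3 m3 hlm2 hlm3 k1
  have k2 := ev m1 hm1
  rw [if_neg hlm1.symm, if_pos rfl, zero_add] at k2
  have k2' := occ m1 l2 m2 l3 m3 hlm2 hlm3 k2
  have k3 := ev l2 hl2
  have k3' := occ l2 l1 m1 l3 m3 hlm1 hlm3 (by
    rw [if_pos (rfl : l2 = l2), if_neg hlm2] at k3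
    omega)
  have k4 := ev m2 hm2
  have k4' := occ m2 l1 m1 l3 m3 hlm1 hlm3 (by
    rw [if_neg hlm2.symm, if_pos (rfl : m2 = m2)] at k4
    omega)
  clear k1 k2 k3 k4 ev hsum s1 s2 s3
  have pat : (m1 = l2 ∧ l1 = l3 ∧ m2 = m3) ∨ (m1 = l2 ∧ l1 = m3 ∧ m2 = l3) ∨
      (m1 = m2 ∧ l1 = l3 ∧ l2 = m3) ∨ (m1 = m2 ∧ l1 = m3 ∧ l2 = l3) ∨
      (l1 = l2 ∧ m1 = l3 ∧ m2 = m3) ∨ (l1 = l2 ∧ m1 = m3 ∧ m2 = l3) ∨
      (l1 = m2 ∧ m1 = l3 ∧ l2 = m3) ∨ (l1 = m2 ∧ m1 = m3 ∧ l2 = l3) :=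
    pat8 l1 m1 l2 m2 l3 m3 hlm1 hlm2 hlm3 d12 d13 k1' k2' k3' k4'
  have hu : vlab n l1 m1 t1 = vlab n l3 m3 t3 := by rw [← u1, u3]
  have hv : vlab n l1 m1 (!t1) = vlab n l2 m2 t2 := by rw [← v1, v2]
  have hw : vlab n l2 m2 (!t2) = vlab n l3 m3 (!t3) := by rw [← w2, w3]
  clear h h' h'' u1 v1 v2 w2 u3 w3 k1' k2' k3' k4'
  have hn3 : 3 ≤ n := by omega
  rcases pat with ⟨rfl, rfl, rfl⟩ | ⟨rfl, rfl, rfl⟩ | ⟨rfl, rfl, rfl⟩ | ⟨rfl, rfl, rfl⟩ |
    ⟨rfl, rfl, rfl⟩ | ⟨rfl, rfl, rfl⟩ | ⟨rfl, rfl, rfl⟩ | ⟨rfl, rfl, rfl⟩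
  · exact tri_core n l1 m1 m2 hn3 hl1 hm1 hm2 hlm1 hlm3 hlm2 t1 t2 t3 hu hv hw
  · rw [vlab_comm n m2 l1 t3] at hu
    rw [vlab_comm n m2 l1 (!t3)] at hw
    exact tri_core n l1 m1 m2 hn3 hl1 hm1 hm2 hlm1 hlm3.symm hlm2 t1 t2 t3 hu hv hw
  · rw [vlab_comm n l2 m1 t2] at hv
    rw [vlab_comm n l2 m1 (!t2)] at hw
    exact tri_core n l1 m1 l2 hn3 hl1 hm1 hl2 hlm1 hlm3 hlm2.symm t1 t2 t3 hu hv hw
  · rw [vlab_comm n l2 m1 t2] at hv
    rw [vlab_comm n l2 m1 (!t2), vlab_comm n l2 l1 (!t3)] at hw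
    rw [vlab_comm n l2 l1 t3] at hu
    exact tri_core n l1 m1 l2 hn3 hl1 hm1 hl2 hlm1 hlm3.symm hlm2.symm t1 t2 t3 hu hv hw
  · rw [vlab_comm n l1 m1 t1] at hu
    rw [vlab_comm n l1 m1 (!t1)] at hv
    exact tri_core n m1 l1 m2 hn3 hm1 hl1 hm2 hlm1.symm hlm3 hlm2 t1 t2 t3 hu hv hw
  · rw [vlab_comm n l1 m1 t1, vlab_comm n m2 m1 t3] at hu
    rw [vlab_comm n l1 m1 (!t1)] at hv
    rw [vlab_comm n m2 m1 (!t3)] at hw
    exact tri_core n m1 l1 m2 hn3 hm1 hl1 hm2 hlm1.symm hlm3.symm hlm2 t1 t2 t3 hu hv hw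
  · rw [vlab_comm n l1 m1 t1] at hu
    rw [vlab_comm n l1 m1 (!t1), vlab_comm n l2 l1 t2] at hv
    rw [vlab_comm n l2 l1 (!t2)] at hw
    exact tri_core n m1 l1 l2 hn3 hm1 hl1 hl2 hlm1.symm hlm3 hlm2.symm t1 t2 t3 hu hv hw
  · rw [vlab_comm n l1 m1 t1, vlab_comm n l2 m1 t3] at hu
    rw [vlab_comm n l1 m1 (!t1), vlab_comm n l2 l1 t2] at hv
    rw [vlab_comm n l2 l1 (!t2), vlab_comm n l2 m1 (!t3)] at hw
    exact tri_core n m1 l1 l2 hn3 hm1 hl1 hl2 hlm1.symm hlm3.symm hlm2.symm t1 t2 t3 hu hv hw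

end Pool.Agent.Helper226_Obs
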