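import Pool.Agent.Helper226_Obs.FP.E03

set_option autoImplicit false

namespace Pool.Agent.Helper226_Obs

open SimpleGraph

theorem tri_true (n x y z : ℕ) (hx : x < 2 * n) (hy : y < 2 * n) (hz : z < 2 * n)
    (hxy : x ≠ y) (hs : x + y + z = 2 * n ∨ x + y + z = 4 * n) :
    gm n x y true = pm n z := by
  unfold gm pm
  simp only [if_true]
  split_ifs <;> omega

theorem tri_false (n x y z : ℕ) (hx : x < 2 * n) (hy : y < 2 * n) (hz : z < 2 * n)
    (hxy : x ≠ y) (hs : x + y + z = 2 * n ∨ x + y + z = 4 * n) :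
    gm n x y false = z := by
  unfold gm
  simp only [Bool.false_eq_true, if_false]
  split_ifs <;> omega

theorem T0_flag (n : ℕ) (hn : 3 ≤ n) (T : Lab (2 * n)) (hT : T ∈ T0set n) :
    ∃ a b c, a < b ∧ b < c ∧ c < 2 * n ∧ (a + b + c = 2 * n ∨ a + b + c = 4 * n) ∧
      T = vlab n a b false ∧ T = vlab n a c false ∧ T = vlab n b c false ∧
      (∀ l m t, l < 2 * n → m < 2 * n → l ≠ m → vlab n l m t = T → t = false ∧
        ((l = a ∧ m = b) ∨ (l = b ∧ m = a) ∨ (l = a ∧ m = c) ∨ (l = c ∧ m = a) ∨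
          (l = b ∧ m = c) ∨ (l = c ∧ m = b))) ∧
      ∀ w, (mapGraph (vt0 n)).Adj T w ↔
        w = vlab n a b true ∨ w = vlab n a c true ∨ w = vlab n b c true := by
  obtain ⟨a, b, c, hab, hbc, hc, hs, rfl⟩ := hT
  have t1 : gm n a b true = pm n c :=
    tri_true n a b c (by omega) (by omega) hc (by omega) hs
  have t2 : gm n a c true = pm n b :=
    tri_true n a c b (by omega) (by omega) (by omega) (by omega) (by omega)
  have t3 : gm n b c true = pm n a :=
    tri_true n b c a (by omega) (by omega) (by omega) (by omega) (by omega)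
  have f1 : gm n a b false = c :=
    tri_false n a b c (by omega) (by omega) hc (by omega) hs
  have e1 : sgn n (pm n a) + sgn n (pm n b) + sgn n (pm n c) = vlab n a b false := by
    simp only [vlab, Bool.false_eq_true, if_false, t1]
  have e2 : sgn n (pm n a) + sgn n (pm n b) + sgn n (pm n c) = vlab n a c false := by
    simp only [vlab, Bool.false_eq_true, if_false, t2]
    abel
  have e3 : sgn n (pm n a) + sgn n (pm n b) + sgn n (pm n c) = vlab n b c false := by
    simp only [vlab, Bool.false_eq_true, if_false, t3]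
    abel
  refine ⟨a, b, c, hab, hbc, hc, hs, e1, e2, e3, ?_, ?_⟩
  · intro l m t hl hm hlm h
    have h' : vlab n a b false = vlab n l m t := by rw [h, e1]
    have := vlab_nondeg n a b l m false t hn (by omega) (by omega) hl hm (by omega) hlm
      (by rw [f1]; omega) (by rw [f1]; omega) h'
    rw [f1] at this
    obtain ⟨h1, h2⟩ := this
    refine ⟨h1, ?_⟩
    tauto
  · intro w
    rw [e1, nbrs n a b false hn (by omega) (by omega) (by omega) (by rw [f1]; omega)
      (by rw [f1]; omega) w, f1]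
    simp only [Bool.not_false]

theorem lab_add_self_e04 {M : ℕ} (x : Lab M) : x + x = 0 := by
  funext i
  exact CharTwo.add_self_eq_zero (x i)

theorem vtA_in (n : ℕ) (A : Set (Lab (2 * n))) (e : Ed n) (z : ℕ) (hz : z < 2 * n)
    (hs : ea e + eb e + z = 2 * n ∨ ea e + eb e + z = 4 * n)
    (hzx : z ≠ ea e) (hzy : z ≠ eb e)
    (hA : vt0 n (e, false) ∈ A) :
    vtA n A (e, false) = vlab n (ea e) z true ∧ vtA n A (e, true) = vlab n (eb e) z true := by
  have hx : ea e < 2 * n := e.1.1.2
  have hy : eb e < 2 * n := e.1.2.2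
  have hxy : ea e < eb e := e.2
  have t1 : gm n (ea e) (eb e) true = pm n z :=
    tri_true n _ _ z hx hy hz (by omega) hs
  have f1 : gm n (ea e) (eb e) false = z :=
    tri_false n _ _ z hx hy hz (by omega) hs
  have t2 : gm n (ea e) z true = pm n (eb e) :=
    tri_true n _ _ _ hx hz hy (by omega) (by omega)
  have t3 : gm n (eb e) z true = pm n (ea e) :=
    tri_true n _ _ _ hy hz hx (by omega) (by omega)
  constructor
  · simp only [vtA, hA, if_true, fc0, Bool.false_eq_true, if_false, dln, f1, t1, vlab, t2]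
    have := lab_add_self_e04 (sgn n (pm n z))
    linear_combination (exp := 1) this
  · simp only [vtA, hA, if_true, fc0, dln, f1, t1, vlab, t3]
    have := lab_add_self_e04 (sgn n (pm n z))
    linear_combination (exp := 1) this

theorem vtA_out (n : ℕ) (A : Set (Lab (2 * n))) (e : Ed n) (t : Bool)
    (hA : vt0 n (e, false) ∉ A) : vtA n A (e, t) = vt0 n (e, t) := by
  simp only [vtA, hA, if_false]

theorem not_mem_true (n : ℕ) (hn : 3 ≤ n) (A : Set (Lab (2 * n))) (hA : A ⊆ T0set n)
    (l m : ℕ) (hl : l < 2 * n) (hm : m < 2 * n) (hlm : l ≠ m) : vlab n l m true ∉ A := by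
  intro h
  obtain ⟨a, b, c, -, -, -, -, -, -, -, h1, -⟩ := T0_flag n hn _ (hA h)
  have := (h1 l m true hl hm hlm rfl).1
  simp at this

theorem mk_edge (n : ℕ) (A : Set (Lab (2 * n))) (x y z : ℕ) (hxy : x < y) (hy : y < 2 * n)
    (hz : z < 2 * n) (hzx : z ≠ x) (hzy : z ≠ y)
    (hs : x + y + z = 2 * n ∨ x + y + z = 4 * n) (hA : vlab n x y false ∈ A) :
    ∃ e : Ed n, vtA n A (e, false) = vlab n x z true ∧ vtA n A (e, true) = vlab n y z true :=
  ⟨⟨(⟨x, by omega⟩, ⟨y, hy⟩), by simpa using hxy⟩,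
    vtA_in n A ⟨(⟨x, by omega⟩, ⟨y, hy⟩), by simpa using hxy⟩ z hz hs hzx hzy hA⟩

theorem mapGraph_vtA (n : ℕ) (hn : 3 ≤ n) (A : Set (Lab (2 * n))) (hA : A ⊆ T0set n) :
    mapGraph (vtA n A) = YD (mapGraph (vt0 n)) A := by
  ext u v
  constructor
  · rintro ⟨huv, ⟨e, t⟩, hd, hd'⟩
    have hfl : flp (e, t) = (e, !t) := rfl
    rw [hfl] at hd'
    have hx : ea e < 2 * n := e.1.1.2
    have hy : eb e < 2 * n := e.1.2.2
    have hxy : ea e < eb e := e.2
    have hxy' : ea e ≠ eb e := hxy.ne
    by_cases h : vt0 n (e, false) ∈ A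
    · obtain ⟨a, b, c, hab, hbc, hc, hs, -, -, -, h1, h2⟩ := T0_flag n hn _ (hA h)
      have h3 := (h1 (ea e) (eb e) false hx hy hxy' rfl).2
      have hz : ∃ z, z < 2 * n ∧ (ea e + eb e + z = 2 * n ∨ ea e + eb e + z = 4 * n) ∧
          z ≠ ea e ∧ z ≠ eb e ∧ (vlab n (ea e) z true = vlab n a b true ∨
            vlab n (ea e) z true = vlab n a c true ∨ vlab n (ea e) z true = vlab n b c true) ∧
          (vlab n (eb e) z true = vlab n a b true ∨
            vlab n (eb e) z true = vlab n a c true ∨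
            vlab n (eb e) z true = vlab n b c true) := by
        rcases h3 with ⟨h3, h4⟩ | ⟨h3, h4⟩ | ⟨h3, h4⟩ | ⟨h3, h4⟩ | ⟨h3, h4⟩ | ⟨h3, h4⟩
        · rw [h3, h4]
          exact ⟨c, by omega, by omega, by omega, by omega, Or.inr (Or.inl rfl),
            Or.inr (Or.inr rfl)⟩
        · omega
        · rw [h3, h4]
          exact ⟨b, by omega, by omega, by omega, by omega, Or.inl rfl,
            Or.inr (Or.inr (vlab_comm n c b true))⟩
        · omega
        · rw [h3, h4]
          exact ⟨a, by omega, by omega, by omega, by omega, Or.inl (vlab_comm n b a true),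
            Or.inr (Or.inl (vlab_comm n c a true))⟩
        · omega
      obtain ⟨z, hz, hsz, hzx, hzy, h5, h6⟩ := hz
      obtain ⟨h7, h8⟩ := vtA_in n A e z hz hsz hzx hzy h
      have n1 := not_mem_true n hn A hA (ea e) z hx hz (Ne.symm hzx)
      have n2 := not_mem_true n hn A hA (eb e) z hy hz (Ne.symm hzy)
      have a1 := (h2 (vlab n (ea e) z true)).2 h5
      have a2 := (h2 (vlab n (eb e) z true)).2 h6
      cases t with
      | false =>
        rw [h7] at hd
        simp only [Bool.not_false] at hd'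
        rw [h8] at hd'
        subst hd hd'
        exact ⟨huv, n1, n2, Or.inr ⟨_, h, a1, a2⟩⟩
      | true =>
        rw [h8] at hd
        simp only [Bool.not_true] at hd'
        rw [h7] at hd'
        subst hd hd'
        exact ⟨huv, n2, n1, Or.inr ⟨_, h, a2, a1⟩⟩
    · rw [vtA_out n A e _ h] at hd hd'
      have n1 : vt0 n (e, true) ∉ A := not_mem_true n hn A hA (ea e) (eb e) hx hy hxy'
      have hnot : ∀ s, vt0 n (e, s) ∉ A := by
        intro s
        cases s
        · exact h
        · exact n1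
      refine ⟨huv, ?_, ?_, Or.inl ⟨huv, (e, t), hd, by rw [hfl]; exact hd'⟩⟩
      · rw [← hd]; exact hnot _
      · rw [← hd']; exact hnot _
  · rintro ⟨huv, hu, hv, h | ⟨T, hT, h1, h2⟩⟩
    · obtain ⟨-, ⟨e, t⟩, hd, hd'⟩ := h
      have hfl : flp (e, t) = (e, !t) := rfl
      rw [hfl] at hd'
      have h : vt0 n (e, false) ∉ A := by
        cases t with
        | false => rw [hd]; exact hu
        | true =>
          simp only [Bool.not_true] at hd'
          rw [hd']; exact hv
      refine ⟨huv, (e, t), ?_, ?_⟩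
      · rw [vtA_out n A e _ h]; exact hd
      · rw [hfl, vtA_out n A e _ h]; exact hd'
    · obtain ⟨a, b, c, hab, hbc, hc, hs, e1, e2, e3, -, h3⟩ := T0_flag n hn _ (hA hT)
      rw [h3] at h1 h2
      obtain ⟨eab, hab1, hab2⟩ := mk_edge n A a b c hab (by omega) hc (by omega) (by omega)
        (by omega) (by rw [← e1]; exact hT)
      obtain ⟨eac, hac1, hac2⟩ := mk_edge n A a c b (by omega) (by omega) (by omega) (by omega)
        (by omega) (by omega) (by rw [← e2]; exact hT)
      obtain ⟨ebc, hbc1, hbc2⟩ := mk_edge n A b c a (by omega) (by omega) (by omega) (by omega)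
        (by omega) (by omega) (by rw [← e3]; exact hT)
      rw [vlab_comm n c b] at hac2
      rw [vlab_comm n b a] at hbc1
      rw [vlab_comm n c a] at hbc2
      have key : ∀ (e : Ed n) (p q : Lab (2 * n)), vtA n A (e, false) = p →
          vtA n A (e, true) = q → ((u = p ∧ v = q) ∨ (u = q ∧ v = p)) →
          (mapGraph (vtA n A)).Adj u v := by
        intro e p q hp hq h
        rcases h with ⟨h, h'⟩ | ⟨h, h'⟩
        · exact ⟨huv, (e, false), by rw [hp, h], by rw [h', ← hq]; rfl⟩
        · exact ⟨huv, (e, true), by rw [hq, h], by rw [h', ← hp]; rfl⟩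
      rcases h1 with h1 | h1 | h1 <;> rcases h2 with h2 | h2 | h2
      · exact absurd (h1.trans h2.symm) huv
      · exact key ebc _ _ hbc1 hbc2 (Or.inl ⟨h1, h2⟩)
      · exact key eac _ _ hac1 hac2 (Or.inl ⟨h1, h2⟩)
      · exact key ebc _ _ hbc1 hbc2 (Or.inr ⟨h1, h2⟩)
      · exact absurd (h1.trans h2.symm) huv
      · exact key eab _ _ hab1 hab2 (Or.inl ⟨h1, h2⟩)
      · exact key eac _ _ hac1 hac2 (Or.inr ⟨h1, h2⟩)
      · exact key eab _ _ hab1 hab2 (Or.inr ⟨h1, h2⟩)
      · exact absurd (h1.trans h2.symm) huv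

end Pool.Agent.Helper226_Obs
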