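import Pool.Agent.Helper226_Obs.FP.E03

set_option autoImplicit false

namespace Pool.Agent.Helper226_Obs

open SimpleGraph

/-! auxiliary lemmas -/

theorem lab_add_self_e05 {M : ℕ} (s : Lab M) : s + s = 0 := by
  funext x
  exact CharTwo.add_self_eq_zero (s x)

theorem even_sum_eq {E V F : Type} [Fintype E] [DecidableEq V] [DecidableEq F] (vt : E × Bool → V)
    (fc : E × Bool → F) (v : V) (f : F) :
    ∑ d : E × Bool, (if vt d = v then Jf fc d.1 f else 0) =
      ∑ e : E, ∑ t : Bool, ∑ u : Bool, (if vt (e, t) = v ∧ fc (e, u) = f then (1 : ZMod 2) else 0) := by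
  rw [Fintype.sum_prod_type]
  refine Finset.sum_congr rfl (fun e _ => Finset.sum_congr rfl (fun t _ => ?_))
  rw [Fintype.sum_bool, Jf]
  by_cases h : vt (e, t) = v
  · simp only [h, if_true, true_and]
    exact add_comm _ _
  · simp only [h, if_false, false_and, add_zero]

/-- the case without flips -/
theorem even_of_PM {E V F : Type} [Fintype E] [DecidableEq V] [DecidableEq F] {vt : E × Bool → V}
    {fc : E × Bool → F} {r : Equiv.Perm (E × Bool × Bool)} (hPM : PM vt fc r) (v : V) (f : F) :
    ∑ e : E, ∑ t : Bool, ∑ u : Bool, (if vt (e, t) = v ∧ fc (e, u) = f then (1 : ZMod 2) else 0) = 0 := by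
  have h1 : ∑ x : E × Bool × Bool, (if vt (x.1, x.2.1) = v ∧ fc (x.1, x.2.2) = f then (1 : ZMod 2) else 0) = 0 := by
    refine Finset.sum_involution (fun x _ => r x) ?_ ?_ ?_ ?_
    · intro x _
      rw [hPM.vt_r x, hPM.fc_r x]
      exact CharTwo.add_self_eq_zero _
    · intro x _ _
      exact hPM.ne x
    · intro x _
      exact Finset.mem_univ _
    · intro x _
      exact hPM.invol x
  rw [Fintype.sum_prod_type] at h1
  refine Eq.trans ?_ h1
  refine Finset.sum_congr rfl (fun e _ => ?_)
  rw [Fintype.sum_prod_type]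

/-- the contribution of an edge -/
def cc {L : Type} [AddCommGroup L] [DecidableEq L] (v f T X Y Z : L) : ZMod 2 :=
  (if T = v ∧ T + X = f then 1 else 0) + (if T = v ∧ T + Y = f then 1 else 0) +
  (if T + X + Y = v ∧ T + X = f then 1 else 0) + (if T + X + Y = v ∧ T + Y = f then 1 else 0) +
  (if T + X + Z = v ∧ T + Z = f then 1 else 0) + (if T + X + Z = v ∧ T + X + Y + Z = f then 1 else 0) +
  (if T + Y + Z = v ∧ T + Z = f then 1 else 0) + (if T + Y + Z = v ∧ T + X + Y + Z = f then 1 else 0)

theorem cc_sum {L : Type} [AddCommGroup L] [DecidableEq L] (v f T X Y Z : L) :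
    cc v f T X Y Z + cc v f T X Z Y + cc v f T Y Z X = 0 := by
  have e1 : T + X + Z + Y = T + X + Y + Z := by abel
  have e2 : T + Y + Z + X = T + X + Y + Z := by abel
  have e3 : T + Z + Y = T + Y + Z := by abel
  have e4 : T + Y + X = T + X + Y := by abel
  have e5 : T + Z + X = T + X + Z := by abel
  unfold cc
  rw [e1, e2, e3, e4, e5]
  have h : ∀ s : ZMod 2, s + s = 0 := CharTwo.add_self_eq_zero
  linear_combination h (if T = v ∧ T + X = f then 1 else 0) + h (if T = v ∧ T + Y = f then 1 else 0) +
    h (if T = v ∧ T + Z = f then 1 else 0) + h (if T + X + Y = v ∧ T + X = f then 1 else 0) +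
    h (if T + X + Y = v ∧ T + Y = f then 1 else 0) + h (if T + X + Z = v ∧ T + Z = f then 1 else 0) +
    h (if T + X + Z = v ∧ T + X = f then 1 else 0) + h (if T + Y + Z = v ∧ T + Y = f then 1 else 0) +
    h (if T + Y + Z = v ∧ T + Z = f then 1 else 0) +
    h (if T + X + Y = v ∧ T + X + Y + Z = f then 1 else 0) +
    h (if T + X + Z = v ∧ T + X + Y + Z = f then 1 else 0) +
    h (if T + Y + Z = v ∧ T + X + Y + Z = f then 1 else 0)

theorem gm_facts (n a b c : ℕ) (hab : a < b) (hbc : b < c) (hc : c < 2 * n)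
    (hs : a + b + c = 2 * n ∨ a + b + c = 4 * n) :
    gm n a b true = pm n c ∧ gm n a c true = pm n b ∧ gm n b c true = pm n a ∧
      gm n a b false = c ∧ gm n a c false = b ∧ gm n b c false = a := by
  unfold gm pm
  refine ⟨?_, ?_, ?_, ?_, ?_, ?_⟩ <;> simp only [if_true, if_false, Bool.false_eq_true] <;> split_ifs <;> omega

/-- the contribution of an edge which is flipped -/
theorem edge_cc (n : ℕ) [NeZero (2 * n)] (A : Set (Lab (2 * n))) (v f : Lab (2 * n)) (e : Ed n)
    (x y z : ℕ) (hx : ea e = x) (hy : eb e = y) (hg : gm n x y true = pm n z) (hg' : gm n x y false = z)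
    (T : Lab (2 * n)) (hT : T = sgn n (pm n x) + sgn n (pm n y) + sgn n (pm n z)) (hTA : T ∈ A) :
    ∑ t : Bool, ∑ u : Bool, ((if vtA n A (e, t) = v ∧ fcA n A (e, u) = f then (1 : ZMod 2) else 0) +
      (if vt0 n (e, t) = v ∧ fc0 n (e, u) = f then 1 else 0)) =
      cc v f T (dln n x) (dln n y) (dln n z) := by
  have c2 : ∀ s : Lab (2 * n), s + s = 0 := lab_add_self_e05
  have v1 : vt0 n (e, false) = T := by
    unfold vt0 vlab
    simp only [hx, hy, hg, Bool.false_eq_true, if_false]
    rw [hT]
  have v2 : vt0 n (e, true) = T + dln n x + dln n y := by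
    unfold vt0 vlab dln
    simp only [hx, hy, hg, if_true]
    rw [hT]
    linear_combination -(c2 (sgn n (pm n x))) - c2 (sgn n (pm n y))
  have f1 : fc0 n (e, false) = T + dln n x := by
    unfold fc0 dln
    simp only [hx, hy, hg, Bool.false_eq_true, if_false]
    rw [hT]
    linear_combination -(c2 (sgn n (pm n x)))
  have f2 : fc0 n (e, true) = T + dln n y := by
    unfold fc0 dln
    simp only [hx, hy, hg, if_true]
    rw [hT]
    linear_combination -(c2 (sgn n (pm n y)))
  have hmem : ∀ t : Bool, vt0 n ((e, t).1, false) ∈ A := by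
    intro t
    show vt0 n (e, false) ∈ A
    rw [v1]; exact hTA
  have hz : ∀ t : Bool, gm n (ea (e, t).1) (eb (e, t).1) false = z := by
    intro t
    show gm n (ea e) (eb e) false = z
    rw [hx, hy, hg']
  have va : ∀ t : Bool, vtA n A (e, t) = fc0 n (e, t) + dln n z := by
    intro t
    unfold vtA
    rw [if_pos (hmem t), hz t]
  have fa : ∀ t : Bool, fcA n A (e, t) = vt0 n (e, t) + dln n z := by
    intro t
    unfold fcA
    rw [if_pos (hmem t), hz t]
  have e3 : T + dln n x + dln n y + dln n z = T + dln n x + dln n y + dln n z := rfl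
  rw [Fintype.sum_bool, Fintype.sum_bool, Fintype.sum_bool, va, va, fa, fa, v1, v2, f1, f2]
  unfold cc
  ring

theorem ed_eq {n : ℕ} {e e' : Ed n} (h1 : ea e = ea e') (h2 : eb e = eb e') : e = e' := by
  apply Subtype.ext
  apply Prod.ext
  · exact Fin.ext h1
  · exact Fin.ext h2

theorem host_even (n : ℕ) [NeZero (2 * n)] (hn : 3 ≤ n) (r : Equiv.Perm (Ed n × Bool × Bool))
    (hPM : PM (vt0 n) (fc0 n) r) (A : Set (Lab (2 * n))) (hA : A ⊆ T0set n) :
    EvenAt (vtA n A) (fcA n A) := by
  classical
  intro v f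
  rw [even_sum_eq]
  have h0 := even_of_PM hPM v f
  have key : ∑ e : Ed n, ∑ t : Bool, ∑ u : Bool,
      ((if vtA n A (e, t) = v ∧ fcA n A (e, u) = f then (1 : ZMod 2) else 0) +
      (if vt0 n (e, t) = v ∧ fc0 n (e, u) = f then 1 else 0)) = 0 := by
    set g : Ed n → ZMod 2 := fun e => ∑ t : Bool, ∑ u : Bool,
      ((if vtA n A (e, t) = v ∧ fcA n A (e, u) = f then (1 : ZMod 2) else 0) +
      (if vt0 n (e, t) = v ∧ fc0 n (e, u) = f then 1 else 0)) with hg
    -- edges which are not flipped do not contribute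
    have hz : ∀ e : Ed n, vt0 n (e, false) ∉ A → g e = 0 := by
      intro e he
      have va : ∀ t : Bool, vtA n A (e, t) = vt0 n (e, t) := fun t => if_neg he
      have fa : ∀ t : Bool, fcA n A (e, t) = fc0 n (e, t) := fun t => if_neg he
      rw [hg]
      refine Finset.sum_eq_zero (fun t _ => Finset.sum_eq_zero (fun u _ => ?_))
      rw [va, fa]
      exact CharTwo.add_self_eq_zero _
    set S : Finset (Ed n) := Finset.univ.filter (fun e => vt0 n (e, false) ∈ A) with hS
    have h1 : ∑ e : Ed n, g e = ∑ e ∈ S, g e := by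
      symm
      refine Finset.sum_subset (Finset.subset_univ _) (fun e _ he => hz e (fun h => he ?_))
      rw [hS, Finset.mem_filter]
      exact ⟨Finset.mem_univ _, h⟩
    rw [h1, ← Finset.sum_fiberwise_of_maps_to (s := S) (t := S.image (fun e => vt0 n (e, false)))
      (g := fun e => vt0 n (e, false)) (fun e he => Finset.mem_image_of_mem _ he)]
    refine Finset.sum_eq_zero (fun T hT => ?_)
    obtain ⟨e0, he0, rfl⟩ := Finset.mem_image.1 hT
    have hTA : vt0 n (e0, false) ∈ A := (Finset.mem_filter.1 he0).2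
    obtain ⟨a, b, c, hab, hbc, hc, hsum, hTeq⟩ := hA hTA
    set T : Lab (2 * n) := vt0 n (e0, false) with hTdef
    obtain ⟨g1, g2, g3, g4, g5, g6⟩ := gm_facts n a b c hab hbc hc hsum
    let e1 : Ed n := ⟨(⟨a, by omega⟩, ⟨b, by omega⟩), hab⟩
    let e2 : Ed n := ⟨(⟨a, by omega⟩, ⟨c, hc⟩), by show a < c; omega⟩
    let e3 : Ed n := ⟨(⟨b, by omega⟩, ⟨c, hc⟩), hbc⟩
    have t1 : g e1 = cc v f T (dln n a) (dln n b) (dln n c) :=
      edge_cc n A v f e1 a b c rfl rfl g1 g4 T hTeq hTA
    have t2 : g e2 = cc v f T (dln n a) (dln n c) (dln n b) :=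
      edge_cc n A v f e2 a c b rfl rfl g2 g5 T (by rw [hTeq]; abel) hTA
    have t3 : g e3 = cc v f T (dln n b) (dln n c) (dln n a) :=
      edge_cc n A v f e3 b c a rfl rfl g3 g6 T (by rw [hTeq]; abel) hTA
    have hset : S.filter (fun e => vt0 n (e, false) = T) = {e1, e2, e3} := by
      ext e
      simp only [Finset.mem_filter, Finset.mem_insert, Finset.mem_singleton]
      constructor
      · rintro ⟨_, he⟩
        have hv1 : vlab n a b false = T := by
          unfold vlab
          simp only [Bool.false_eq_true, if_false]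
          rw [g1, hTeq]
        have hv2 : vlab n a b false = vlab n (ea e) (eb e) false := by
          rw [hv1, ← he]; rfl
        have hlt : ea e < eb e := e.2
        have h5 := vlab_nondeg n a b (ea e) (eb e) false false hn (by omega) (by omega) e.1.1.2 e.1.2.2
          (by omega) (by omega) (by rw [g4]; omega) (by rw [g4]; omega) hv2
        rw [g4] at h5
        rcases h5.2 with h | h | h | h | h | h
        · exact Or.inl (ed_eq h.1 h.2)
        · omega
        · exact Or.inr (Or.inl (ed_eq h.1 h.2))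
        · omega
        · exact Or.inr (Or.inr (ed_eq h.1 h.2))
        · omega
      · have hS1 : ∀ e : Ed n, vt0 n (e, false) = T → e ∈ S ∧ vt0 n (e, false) = T := by
          intro e he
          refine ⟨?_, he⟩
          rw [hS, Finset.mem_filter]
          exact ⟨Finset.mem_univ _, by rw [he]; exact hTA⟩
        rintro (rfl | rfl | rfl)
        · refine hS1 e1 ?_
          show sgn n (pm n a) + sgn n (pm n b) + sgn n (gm n a b true) = T
          rw [g1, hTeq]
        · refine hS1 e2 ?_
          show sgn n (pm n a) + sgn n (pm n c) + sgn n (gm n a c true) = T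
          rw [g2, hTeq]; abel
        · refine hS1 e3 ?_
          show sgn n (pm n b) + sgn n (pm n c) + sgn n (gm n b c true) = T
          rw [g3, hTeq]; abel
    have n12 : e1 ≠ e2 := by
      intro h
      have h5 : eb e1 = eb e2 := by rw [h]
      have h6 : b = c := h5
      omega
    have n13 : e1 ≠ e3 := by
      intro h
      have h5 : ea e1 = ea e3 := by rw [h]
      have h6 : a = b := h5
      omega
    have n23 : e2 ≠ e3 := by
      intro h
      have h5 : ea e2 = ea e3 := by rw [h]
      have h6 : a = b := h5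
      omega
    rw [hset, Finset.sum_insert (by simp [n12, n13]), Finset.sum_insert (by simp [n23]),
      Finset.sum_singleton, t1, t2, t3, ← add_assoc]
    exact cc_sum v f T _ _ _
  have hsplit : ∑ e : Ed n, ∑ t : Bool, ∑ u : Bool,
      ((if vtA n A (e, t) = v ∧ fcA n A (e, u) = f then (1 : ZMod 2) else 0) +
      (if vt0 n (e, t) = v ∧ fc0 n (e, u) = f then 1 else 0)) =
      ∑ e : Ed n, ∑ t : Bool, ∑ u : Bool, (if vtA n A (e, t) = v ∧ fcA n A (e, u) = f then (1 : ZMod 2) else 0) +
      ∑ e : Ed n, ∑ t : Bool, ∑ u : Bool, (if vt0 n (e, t) = v ∧ fc0 n (e, u) = f then (1 : ZMod 2) else 0) := by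
    rw [← Finset.sum_add_distrib]
    refine Finset.sum_congr rfl (fun e _ => ?_)
    rw [← Finset.sum_add_distrib]
    refine Finset.sum_congr rfl (fun t _ => ?_)
    rw [← Finset.sum_add_distrib]
  rw [key, h0, add_zero] at hsplit
  exact hsplit.symm

end Pool.Agent.Helper226_Obs
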