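import Pool.Agent.Helper226_Obs.FP.C09
import Pool.Agent.Helper226_Obs.FP.E02
import Pool.Agent.Helper226_Obs.FP.E04
import Pool.Agent.Helper226_Obs.FP.E05

set_option autoImplicit false

namespace Pool.Agent.Helper226_Obs

open SimpleGraph

theorem fa_self {M : ℕ} (x : Lab M) : x + x = 0 := by
  funext i
  exact CharTwo.add_self_eq_zero (x i)

theorem fa_eq {M : ℕ} {x y : Lab M} (h : x + y = 0) : x = y := by
  calc x = x + (y + y) := by rw [fa_self, add_zero]
    _ = (x + y) + y := by rw [add_assoc]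
    _ = y := by rw [h, zero_add]

theorem labA (n : ℕ) (A : Set (Lab (2 * n))) (e : Ed n) (t u : Bool) :
    vtA n A (e, t) + fcA n A (e, u) = dln n (if t = u then ea e else eb e) := by
  unfold vtA fcA
  dsimp only
  by_cases h : vt0 n (e, false) ∈ A
  · rw [if_pos h, if_pos h]
    have h1 := lab0 n e u t
    have h2 := fa_self (dln n (gm n (ea e) (eb e) false))
    have h3 : (if u = t then ea e else eb e) = (if t = u then ea e else eb e) := by
      cases t <;> cases u <;> simp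
    rw [h3] at h1
    rw [← h1]
    calc fc0 n (e, t) + dln n (gm n (ea e) (eb e) false) +
          (vt0 n (e, u) + dln n (gm n (ea e) (eb e) false))
        = vt0 n (e, u) + fc0 n (e, t) + (dln n (gm n (ea e) (eb e) false) +
          dln n (gm n (ea e) (eb e) false)) := by abel
      _ = vt0 n (e, u) + fc0 n (e, t) := by rw [h2, add_zero]
  · rw [if_neg h, if_neg h]
    exact lab0 n e t u

theorem fa_ea {n : ℕ} (e : Ed n) : ea e < 2 * n := e.1.1.isLt

theorem fa_eb {n : ℕ} (e : Ed n) : eb e < 2 * n := e.1.2.isLt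

theorem fa_lt {n : ℕ} (e : Ed n) : ea e < eb e := e.2

theorem fa_sum (n : ℕ) (A : Set (Lab (2 * n))) (e : Ed n) (t : Bool) :
    vtA n A (e, t) + vtA n A (flp (e, t)) = dln n (ea e) + dln n (eb e) := by
  have h1 := labA n A e t t
  have h2 := labA n A e (!t) t
  rw [if_pos rfl] at h1
  rw [if_neg (by cases t <;> simp)] at h2
  rw [← h1, ← h2, flp_apply]
  calc vtA n A (e, t) + vtA n A (e, !t)
      = vtA n A (e, t) + vtA n A (e, !t) + (fcA n A (e, t) + fcA n A (e, t)) := by
        rw [fa_self, add_zero]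
    _ = vtA n A (e, t) + fcA n A (e, t) + (vtA n A (e, !t) + fcA n A (e, t)) := by abel

theorem fa_ne (n : ℕ) (hn : 3 ≤ n) (A : Set (Lab (2 * n))) (d : Ed n × Bool) :
    vtA n A d ≠ vtA n A (flp d) := by
  obtain ⟨e, t⟩ := d
  intro h
  have h1 := fa_sum n A e t
  rw [← h, fa_self] at h1
  have h2 : dln n (ea e) + dln n (eb e) = dln n 0 + dln n 0 := by rw [← h1, fa_self]
  have hlt := fa_lt e
  rcases dln2 n (ea e) (eb e) 0 0 hn (fa_ea e) (fa_eb e) (by omega) (by omega) (by omega) h2 with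
    ⟨h3, h4⟩ | ⟨h3, h4⟩ <;> omega

theorem fa_nbr (n : ℕ) (hn : 3 ≤ n) (A : Set (Lab (2 * n))) (hA : A ⊆ T0set n)
    {T x : Lab (2 * n)} (hT : T ∈ A) (hx : (mapGraph (vt0 n)).Adj T x) : x ∉ A := by
  intro hxA
  obtain ⟨a, b, c, hab, hbc, hc, _, _, _, _, _, h1⟩ := T0_flag n hn T (hA hT)
  obtain ⟨_, _, _, _, _, _, _, _, _, _, h2, _⟩ := T0_flag n hn x (hA hxA)
  rcases (h1 x).1 hx with h | h | h
  · exact absurd (h2 a b true (by omega) (by omega) (by omega) h.symm).1 (by simp)
  · exact absurd (h2 a c true (by omega) (by omega) (by omega) h.symm).1 (by simp)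
  · exact absurd (h2 b c true (by omega) (by omega) (by omega) h.symm).1 (by simp)

theorem connA (n : ℕ) (hn : 3 ≤ n) (A : Set (Lab (2 * n))) (hA : A ⊆ T0set n) :
    ConnV (vtA n A) := by
  classical
  intro w hw
  have hYD : ∀ x y, (YD (mapGraph (vt0 n)) A).Adj x y → w x = w y := by
    intro x y hxy
    rw [← mapGraph_vtA n hn A hA] at hxy
    obtain ⟨_, d, hd1, hd2⟩ := hxy
    rw [← hd1, ← hd2]
    exact hw d
  -- the extension of `w` to `A`
  set w' : Lab (2 * n) → ZMod 2 := fun v =>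
    if h : v ∈ A ∧ ∃ u, (mapGraph (vt0 n)).Adj v u then w (Classical.choose h.2) else w v with hw'
  have hw'1 : ∀ v, v ∉ A → w' v = w v := by
    intro v hv
    rw [hw']
    exact dif_neg (fun h => hv h.1)
  have hw'2 : ∀ v u, v ∈ A → (mapGraph (vt0 n)).Adj v u → w' v = w u := by
    intro v u hv hvu
    have h : v ∈ A ∧ ∃ u, (mapGraph (vt0 n)).Adj v u := ⟨hv, u, hvu⟩
    have e1 : w' v = w (Classical.choose h.2) := dif_pos h
    rw [e1]
    have h2 := Classical.choose_spec h.2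
    by_cases he : Classical.choose h.2 = u
    · rw [he]
    · apply hYD
      exact ⟨he, fa_nbr n hn A hA hv h2, fa_nbr n hn A hA hv hvu, Or.inr ⟨v, hv, h2, hvu⟩⟩
  have hadj : ∀ x y, (mapGraph (vt0 n)).Adj x y → w' x = w' y := by
    intro x y hxy
    by_cases hx : x ∈ A
    · rw [hw'2 x y hx hxy, hw'1 y (fa_nbr n hn A hA hx hxy)]
    · by_cases hy : y ∈ A
      · rw [hw'2 y x hy hxy.symm, hw'1 x hx]
      · rw [hw'1 x hx, hw'1 y hy]
        apply hYD
        exact ⟨hxy.ne, hx, hy, Or.inl hxy⟩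
  have hconst := host_conn n hn w' (by
    intro d
    by_cases he : vt0 n d = vt0 n (flp d)
    · rw [← he]
    · exact hadj _ _ ⟨he, d, rfl, rfl⟩)
  have hrange : ∀ d, ∃ d0, vtA n A d = vt0 n d0 ∧ w (vtA n A d) = w' (vt0 n d0) := by
    intro d
    have h1 : (mapGraph (vtA n A)).Adj (vtA n A d) (vtA n A (flp d)) :=
      ⟨fa_ne n hn A d, d, rfl, rfl⟩
    rw [mapGraph_vtA n hn A hA] at h1
    obtain ⟨_, hx, hy, h2⟩ := h1
    have h3 : ∃ d0, vtA n A d = vt0 n d0 := by
      rcases h2 with h2 | ⟨T, hT, h2, _⟩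
      · obtain ⟨_, d0, h4, _⟩ := h2
        exact ⟨d0, h4.symm⟩
      · obtain ⟨_, d0, _, h4⟩ := h2
        exact ⟨flp d0, h4.symm⟩
    obtain ⟨d0, h4⟩ := h3
    refine ⟨d0, h4, ?_⟩
    rw [← h4, hw'1 _ hx]
  intro d d'
  obtain ⟨d0, _, h1⟩ := hrange d
  obtain ⟨d0', _, h2⟩ := hrange d'
  rw [h1, h2]
  exact hconst d0 d0'

theorem fa_card (n : ℕ) (hn : 1 ≤ n) : ({e : Ed n | ea e = 0}).ncard = 2 * n - 1 := by
  have hf : ∀ i : Fin (2 * n - 1), (i : ℕ) + 1 < 2 * n := fun i => by
    have := i.isLt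
    omega
  let f : Fin (2 * n - 1) → Ed n := fun i =>
    ⟨(⟨0, by omega⟩, ⟨(i : ℕ) + 1, hf i⟩), by
      rw [Fin.lt_def]
      exact Nat.succ_pos _⟩
  have hinj : Function.Injective f := by
    intro i j hij
    have h1 : (f i).1.2 = (f j).1.2 := by rw [hij]
    have h2 : (i : ℕ) + 1 = (j : ℕ) + 1 := congrArg Fin.val h1
    exact Fin.ext (by omega)
  have hset : {e : Ed n | ea e = 0} = Set.range f := by
    ext e
    rw [Set.mem_ofPred_eq, Set.mem_range]
    constructor
    · intro he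
      have hlt := fa_lt e
      have hb := fa_eb e
      refine ⟨⟨eb e - 1, by omega⟩, ?_⟩
      apply Subtype.ext
      apply Prod.ext
      · apply Fin.ext
        exact he.symm
      · apply Fin.ext
        show eb e - 1 + 1 = eb e
        omega
    · rintro ⟨i, rfl⟩
      rfl
  rw [hset, ← Nat.card_coe_set_eq, Nat.card_range_of_injective hinj, Nat.card_eq_fintype_card,
    Fintype.card_fin]

theorem fa_cast {n x : ℕ} (hx : x < 2 * n) (h : (x : ZMod (2 * n)) = 0) : x = 0 := by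
  rw [ZMod.natCast_eq_zero_iff] at h
  exact Nat.eq_zero_of_dvd_of_lt h hx

theorem host_not_embeds (n g : ℕ) (hn8 : 8 ≤ n) (hne : Even n) (hg : 2 * g + 2 ≤ n)
    (r : Equiv.Perm (Ed n × Bool × Bool)) (hPM : PM (vt0 n) (fc0 n) r)
    (A : Set (Lab (2 * n))) (hA : A ⊆ T0set n) :
    ¬ Embeds (YD (mapGraph (vt0 n)) A) g := by
  have hn3 : 3 ≤ n := by omega
  have : NeZero (2 * n) := ⟨by omega⟩
  have : Nonempty (Ed n) := ⟨⟨(⟨0, by omega⟩, ⟨1, by omega⟩), by
    rw [Fin.lt_def]
    exact Nat.zero_lt_one⟩⟩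
  rw [← mapGraph_vtA n hn3 A hA]
  refine not_embeds_gen n (2 * n) rfl hne hn8 (vtA n A) (fcA n A) ?_ ?_ (connA n hn3 A hA)
    (fun e => (ea e : ZMod (2 * n))) (fun e => (eb e : ZMod (2 * n))) ?_ ?_ ?_
    (host_even n hn3 r hPM A hA) g hg
  · intro e
    exact fa_ne n hn3 A (e, false)
  · rintro ⟨e, t⟩ ⟨e', t'⟩ h1 h2
    have h3 := fa_sum n A e t
    have h4 := fa_sum n A e' t'
    rw [h1, h2, h4] at h3
    have hlt := fa_lt e
    have hlt' := fa_lt e'
    have hee : e = e' := by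
      rcases dln2 n (ea e') (eb e') (ea e) (eb e) hn3 (fa_ea e') (fa_eb e') (fa_ea e) (fa_eb e)
        (by omega) h3 with ⟨h5, h6⟩ | ⟨h5, h6⟩
      · apply Subtype.ext
        apply Prod.ext
        · exact Fin.ext h5.symm
        · exact Fin.ext h6.symm
      · omega
    subst hee
    by_cases htt : t = t'
    · rw [htt]
    · exfalso
      have h5 : t' = !t := by
        cases t <;> cases t' <;> simp_all
      subst h5
      exact fa_ne n hn3 A (e, t) h1
  · intro e h
    have h1 : ((ea e : ℕ) : ZMod (2 * n)) = ((eb e : ℕ) : ZMod (2 * n)) := h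
    rw [ZMod.natCast_eq_natCast_iff, Nat.ModEq, Nat.mod_eq_of_lt (fa_ea e),
      Nat.mod_eq_of_lt (fa_eb e)] at h1
    have := fa_lt e
    omega
  · intro e t u
    rw [labA]
    by_cases h : t = u
    · rw [if_pos h, if_pos h]
      exact dln_eq n (ea e) (by omega) (fa_ea e)
    · rw [if_neg h, if_neg h]
      exact dln_eq n (eb e) (by omega) (fa_eb e)
  · have hset : {e : Ed n | (ea e : ZMod (2 * n)) = 0 ∨ (eb e : ZMod (2 * n)) = 0} =
        {e : Ed n | ea e = 0} := by
      ext e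
      rw [Set.mem_ofPred_eq, Set.mem_ofPred_eq]
      constructor
      · rintro (h | h)
        · exact fa_cast (fa_ea e) h
        · have h1 := fa_cast (fa_eb e) h
          have h2 := fa_lt e
          omega
      · intro h
        left
        rw [h]
        exact Nat.cast_zero
    have h2 : Odd ({e : Ed n | (ea e : ZMod (2 * n)) = 0 ∨ (eb e : ZMod (2 * n)) = 0}).ncard := by
      rw [hset, fa_card n (by omega)]
      exact ⟨n - 1, by omega⟩
    exact h2

end Pool.Agent.Helper226_Obs
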