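import Pool.Agent.Helper226_Obs.FP.E04

set_option autoImplicit false

namespace Pool.Agent.Helper226_Obs

open SimpleGraph

theorem Yset_sub (n : ℕ) : Yset n ⊆ T0set n := by
  rintro T ⟨a, b, c, j, ha, hj, hb, hc, habc, rfl⟩
  refine ⟨a, b, c, by omega, by omega, by omega, Or.inl habc, ?_⟩
  unfold pm
  rw [if_neg (by omega), if_neg (by omega), if_neg (by omega)]

/-- the values of `gm` in the range used here -/
theorem gm_small (n l m s : ℕ) (h : l + m + s = 2 * n) (hs : 1 ≤ s) :
    gm n l m true = s - 1 := by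
  unfold gm
  rw [if_pos rfl, if_pos (by omega)]
  omega

/-- the labels of a triangle of `Yset` -/
theorem Y_labs (n a b c : ℕ) (ha : 3 ≤ a) (hab : a + 3 ≤ b) (hbc : b + 3 ≤ c)
    (habc : a + b + c = 2 * n) :
    (vlab n a b false = sgn n (a - 1) + sgn n (b - 1) + sgn n (c - 1)) ∧
    (vlab n a c false = sgn n (a - 1) + sgn n (b - 1) + sgn n (c - 1)) ∧
    (vlab n b c false = sgn n (a - 1) + sgn n (b - 1) + sgn n (c - 1)) ∧
    (vlab n a b true = sgn n a + sgn n b + sgn n (c - 1)) ∧
    (vlab n a c true = sgn n a + sgn n c + sgn n (b - 1)) ∧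
    (vlab n b c true = sgn n b + sgn n c + sgn n (a - 1)) := by
  have h1 : gm n a b true = c - 1 := gm_small n a b c (by omega) (by omega)
  have h2 : gm n a c true = b - 1 := gm_small n a c b (by omega) (by omega)
  have h3 : gm n b c true = a - 1 := gm_small n b c a (by omega) (by omega)
  have p1 : pm n a = a - 1 := by unfold pm; rw [if_neg (by omega)]
  have p2 : pm n b = b - 1 := by unfold pm; rw [if_neg (by omega)]
  have p3 : pm n c = c - 1 := by unfold pm; rw [if_neg (by omega)]
  refine ⟨?_, ?_, ?_, ?_, ?_, ?_⟩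
  · unfold vlab
    rw [if_neg (by simp), p1, p2, h1]
  · unfold vlab
    rw [if_neg (by simp), p1, p3, h2]
    abel
  · unfold vlab
    rw [if_neg (by simp), p2, p3, h3]
    abel
  · unfold vlab
    rw [if_pos rfl, h1]
  · unfold vlab
    rw [if_pos rfl, h2]
  · unfold vlab
    rw [if_pos rfl, h3]

/-- the neighbours of a triangle of `Yset` -/
theorem Y_nbrs (n : ℕ) (hn : 4 ≤ n) (a b c : ℕ) (ha : 3 ≤ a) (hab : a + 3 ≤ b) (hbc : b + 3 ≤ c)
    (habc : a + b + c = 2 * n) :
    (∀ l m t, l < 2 * n → m < 2 * n → l ≠ m →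
      vlab n l m t = sgn n (a - 1) + sgn n (b - 1) + sgn n (c - 1) → t = false) ∧
    ∀ w, (mapGraph (vt0 n)).Adj (sgn n (a - 1) + sgn n (b - 1) + sgn n (c - 1)) w ↔
      w = sgn n a + sgn n b + sgn n (c - 1) ∨ w = sgn n a + sgn n c + sgn n (b - 1) ∨
      w = sgn n b + sgn n c + sgn n (a - 1) := by
  obtain ⟨e1, e2, e3, e4, e5, e6⟩ := Y_labs n a b c ha hab hbc habc
  have hT : sgn n (a - 1) + sgn n (b - 1) + sgn n (c - 1) ∈ T0set n := by
    refine ⟨a, b, c, by omega, by omega, by omega, Or.inl habc, ?_⟩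
    unfold pm
    rw [if_neg (by omega), if_neg (by omega), if_neg (by omega)]
  obtain ⟨a', b', c', h1, h2, h3, h4, -, -, -, h5, h6⟩ := T0_flag n (by omega) _ hT
  have k1 := (h5 a b false (by omega) (by omega) (by omega) e1).2
  have k2 := (h5 a c false (by omega) (by omega) (by omega) e2).2
  have k3 := (h5 b c false (by omega) (by omega) (by omega) e3).2
  have hab' : a = a' ∧ b = b' ∧ c = c' := by omega
  obtain ⟨rfl, rfl, rfl⟩ := hab'
  refine ⟨fun l m t hl hm hlm h => (h5 l m t hl hm hlm h).1, fun w => ?_⟩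
  rw [h6 w, e4, e5, e6]

theorem Y_c4 (n a b c : ℕ) (hn : 4 ≤ n) (ha : 3 ≤ a) (hab : a + 3 ≤ b) (hbc : b + 3 ≤ c)
    (habc : a + b + c = 2 * n) :
    (∀ w, (mapGraph (vt0 n)).Adj (sgn n a + sgn n b + sgn n (c - 1)) w ↔
      w = sgn n (a - 1) + sgn n (b - 1) + sgn n (c - 1) ∨
      w = sgn n (a - 1) + sgn n (c - 2) + sgn n b ∨
      w = sgn n (b - 1) + sgn n (c - 2) + sgn n a) ∧
    (∀ w, (mapGraph (vt0 n)).Adj (sgn n a + sgn n c + sgn n (b - 1)) w ↔
      w = sgn n (a - 1) + sgn n (b - 1) + sgn n (c - 1) ∨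
      w = sgn n (a - 1) + sgn n (b - 2) + sgn n c ∨
      w = sgn n (c - 1) + sgn n (b - 2) + sgn n a) ∧
    (∀ w, (mapGraph (vt0 n)).Adj (sgn n b + sgn n c + sgn n (a - 1)) w ↔
      w = sgn n (a - 1) + sgn n (b - 1) + sgn n (c - 1) ∨
      w = sgn n (b - 1) + sgn n (a - 2) + sgn n c ∨
      w = sgn n (c - 1) + sgn n (a - 2) + sgn n b) := by
  obtain ⟨e1, e2, e3, e4, e5, e6⟩ := Y_labs n a b c ha hab hbc habc
  have h1 : gm n a b true = c - 1 := gm_small n a b c (by omega) (by omega)
  have h2 : gm n a c true = b - 1 := gm_small n a c b (by omega) (by omega)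
  have h3 : gm n b c true = a - 1 := gm_small n b c a (by omega) (by omega)
  have hv : ∀ l m s, 1 ≤ l → 1 ≤ m → l + m + s = 2 * n → 1 ≤ s →
      vlab n l m false = sgn n (l - 1) + sgn n (m - 1) + sgn n (s - 1) := by
    intro l m s hl hm hs hs1
    have g1 : gm n l m true = s - 1 := gm_small n l m s hs hs1
    unfold vlab
    rw [if_neg (by simp), g1]
    unfold pm
    rw [if_neg (by omega), if_neg (by omega)]
  refine ⟨fun w => ?_, fun w => ?_, fun w => ?_⟩
  · rw [← e4, nbrs n a b true (by omega) (by omega) (by omega) (by omega)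
      (by omega) (by omega), Bool.not_true, e1, h1,
      hv a (c - 1) (b + 1) (by omega) (by omega) (by omega) (by omega),
      hv b (c - 1) (a + 1) (by omega) (by omega) (by omega) (by omega)]
    have i1 : c - 1 - 1 = c - 2 := by omega
    have i2 : b + 1 - 1 = b := by omega
    have i3 : a + 1 - 1 = a := by omega
    rw [i1, i2, i3]
  · rw [← e5, nbrs n a c true (by omega) (by omega) (by omega) (by omega)
      (by omega) (by omega), Bool.not_true, e2, h2,
      hv a (b - 1) (c + 1) (by omega) (by omega) (by omega) (by omega),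
      hv c (b - 1) (a + 1) (by omega) (by omega) (by omega) (by omega)]
    have i1 : b - 1 - 1 = b - 2 := by omega
    have i2 : c + 1 - 1 = c := by omega
    have i3 : a + 1 - 1 = a := by omega
    rw [i1, i2, i3]
  · rw [← e6, nbrs n b c true (by omega) (by omega) (by omega) (by omega)
      (by omega) (by omega), Bool.not_true, e3, h3,
      hv b (a - 1) (c + 1) (by omega) (by omega) (by omega) (by omega),
      hv c (a - 1) (b + 1) (by omega) (by omega) (by omega) (by omega)]
    have i1 : a - 1 - 1 = a - 2 := by omega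
    have i2 : c + 1 - 1 = c := by omega
    have i3 : b + 1 - 1 = b := by omega
    rw [i1, i2, i3]

/-- `sgn3` for labels given in increasing order -/
theorem sgn3_sorted (n x y z x' y' z' : ℕ) (h1 : x < y) (h2 : y < z) (h3 : z < 2 * n)
    (h1' : x' < y') (h2' : y' < z') (h3' : z' < 2 * n)
    (h : sgn n x + sgn n y + sgn n z = sgn n x' + sgn n y' + sgn n z') :
    x = x' ∧ y = y' ∧ z = z' := by
  have := sgn3 n x y z x' y' z' (by omega) (by omega) h3 (by omega) (by omega) h3' h
  omega

theorem host_YSet (n : ℕ) (hn : 4 ≤ n) : YSet (mapGraph (vt0 n)) (Yset n) := by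
  constructor
  · -- deg
    rintro T ⟨a, b, c, j, ha, hj, hb, hc, habc, rfl⟩
    obtain ⟨-, h⟩ := Y_nbrs n hn a b c ha (by omega) hc habc
    have h1 : (mapGraph (vt0 n)).neighborSet (sgn n (a - 1) + sgn n (b - 1) + sgn n (c - 1)) =
        {sgn n a + sgn n b + sgn n (c - 1), sgn n a + sgn n c + sgn n (b - 1),
          sgn n b + sgn n c + sgn n (a - 1)} := by
      ext w
      rw [SimpleGraph.mem_neighborSet, h w]
      rfl
    rw [Set.ncard_eq_three]
    refine ⟨_, _, _, ?_, ?_, ?_, h1⟩
    · intro he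
      have := sgn3 n _ _ _ _ _ _ (by omega) (by omega) (by omega) (by omega) (by omega)
        (by omega) he
      omega
    · intro he
      have := sgn3 n _ _ _ _ _ _ (by omega) (by omega) (by omega) (by omega) (by omega)
        (by omega) he
      omega
    · intro he
      have := sgn3 n _ _ _ _ _ _ (by omega) (by omega) (by omega) (by omega) (by omega)
        (by omega) he
      omega
  · exact fun u v w h h' => host_tri n hn u v w h h'
  · -- c4
    rintro T ⟨a, b, c, j, ha, hj, hb, hc, habc, rfl⟩ T' x y hne hx hy hx' hy'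
    obtain ⟨-, h⟩ := Y_nbrs n hn a b c ha (by omega) hc habc
    obtain ⟨n1, n2, n3⟩ := Y_c4 n a b c hn ha (by omega) hc habc
    have key : ∀ p q r p' q' r' : ℕ, p < 2 * n → q < 2 * n → r < 2 * n → p' < 2 * n →
        q' < 2 * n → r' < 2 * n → T' = sgn n p + sgn n q + sgn n r →
        T' = sgn n p' + sgn n q' + sgn n r' → _ :=
      fun p q r p' q' r' h1 h2 h3 h4 h5 h6 g1 g2 =>
        sgn3 n p q r p' q' r' h1 h2 h3 h4 h5 h6 (g1.symm.trans g2)
    rw [h] at hx hy
    have hx2 := hx'.symm
    have hy2 := hy'.symm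
    rcases hx with rfl | rfl | rfl <;> rcases hy with rfl | rfl | rfl
    · rfl
    · exfalso
      rw [n1] at hx2
      rw [n2] at hy2
      rcases hx2 with g | g | g <;> rcases hy2 with g' | g' | g' <;>
        first
          | exact hne g
          | exact hne g'
          | (have := key _ _ _ _ _ _ (by omega) (by omega) (by omega) (by omega) (by omega)
              (by omega) g g'
             omega)
    · exfalso
      rw [n1] at hx2
      rw [n3] at hy2
      rcases hx2 with g | g | g <;> rcases hy2 with g' | g' | g' <;>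
        first
          | exact hne g
          | exact hne g'
          | (have := key _ _ _ _ _ _ (by omega) (by omega) (by omega) (by omega) (by omega)
              (by omega) g g'
             omega)
    · exfalso
      rw [n2] at hx2
      rw [n1] at hy2
      rcases hx2 with g | g | g <;> rcases hy2 with g' | g' | g' <;>
        first
          | exact hne g
          | exact hne g'
          | (have := key _ _ _ _ _ _ (by omega) (by omega) (by omega) (by omega) (by omega)
              (by omega) g g'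
             omega)
    · rfl
    · exfalso
      rw [n2] at hx2
      rw [n3] at hy2
      rcases hx2 with g | g | g <;> rcases hy2 with g' | g' | g' <;>
        first
          | exact hne g
          | exact hne g'
          | (have := key _ _ _ _ _ _ (by omega) (by omega) (by omega) (by omega) (by omega)
              (by omega) g g'
             omega)
    · exfalso
      rw [n3] at hx2
      rw [n1] at hy2
      rcases hx2 with g | g | g <;> rcases hy2 with g' | g' | g' <;>
        first
          | exact hne g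
          | exact hne g'
          | (have := key _ _ _ _ _ _ (by omega) (by omega) (by omega) (by omega) (by omega)
              (by omega) g g'
             omega)
    · exfalso
      rw [n3] at hx2
      rw [n2] at hy2
      rcases hx2 with g | g | g <;> rcases hy2 with g' | g' | g' <;>
        first
          | exact hne g
          | exact hne g'
          | (have := key _ _ _ _ _ _ (by omega) (by omega) (by omega) (by omega) (by omega)
              (by omega) g g'
             omega)
    · rfl
  · -- indep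
    rintro T ⟨a, b, c, j, ha, hj, hb, hc, habc, rfl⟩ T'
      ⟨a', b', c', j', ha', hj', hb', hc', habc', rfl⟩ hadj
    obtain ⟨-, h⟩ := Y_nbrs n hn a b c ha (by omega) hc habc
    obtain ⟨h', -⟩ := Y_nbrs n hn a' b' c' ha' (by omega) hc' habc'
    obtain ⟨-, -, -, e4, e5, e6⟩ := Y_labs n a b c ha (by omega) hc habc
    rw [h, ← e4, ← e5, ← e6] at hadj
    rcases hadj with g | g | g
    · exact absurd (h' a b true (by omega) (by omega) (by omega) g.symm) (by simp)
    · exact absurd (h' a c true (by omega) (by omega) (by omega) g.symm) (by simp)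
    · exact absurd (h' b c true (by omega) (by omega) (by omega) g.symm) (by simp)
  · -- one
    rintro v T ⟨a, b, c, j, ha, hj, hb, hc, habc, rfl⟩ T'
      ⟨a', b', c', j', ha', hj', hb', hc', habc', rfl⟩ hv hv'
    obtain ⟨-, h⟩ := Y_nbrs n hn a b c ha (by omega) hc habc
    obtain ⟨-, h'⟩ := Y_nbrs n hn a' b' c' ha' (by omega) hc' habc'
    have hv2 := hv.symm
    have hv2' := hv'.symm
    rw [h] at hv2
    rw [h'] at hv2'
    have s2 : ∀ a b c : ℕ, sgn n a + sgn n c + sgn n (b - 1) =
        sgn n a + sgn n (b - 1) + sgn n c := fun a b c => add_right_comm _ _ _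
    have s3 : ∀ a b c : ℕ, sgn n b + sgn n c + sgn n (a - 1) =
        sgn n (a - 1) + sgn n b + sgn n c := fun a b c => by abel
    rw [s2 a b c, s3 a b c] at hv2
    rw [s2 a' b' c', s3 a' b' c'] at hv2'
    have key : a = a' ∧ b = b' ∧ c = c' := by
      rcases hv2 with g | g | g <;> rcases hv2' with g' | g' | g' <;>
        (have := sgn3_sorted n _ _ _ _ _ _ (by omega) (by omega) (by omega) (by omega)
          (by omega) (by omega) (g.symm.trans g')
         omega)
    obtain ⟨rfl, rfl, rfl⟩ := key
    rfl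

/-- a lower bound for a sum -/
theorem sum_sub_two (M : ℕ) : M * M ≤ 4 * ∑ i ∈ Finset.range (M + 1), (M - 2 * i) := by
  induction M using Nat.twoStepInduction with
  | zero => simp
  | one => simp [Finset.sum_range_succ]
  | more M ih _ =>
    have h1 : ∑ i ∈ Finset.range (M + 2 + 1), (M + 2 - 2 * i) =
        (M + 2) + ∑ i ∈ Finset.range (M + 1), (M - 2 * i) := by
      rw [Finset.sum_range_succ', Finset.sum_range_succ]
      have h2 : ∀ i, M + 2 - 2 * (i + 1) = M - 2 * i := by intro i; omega
      simp only [h2]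
      have h3 : M - 2 * (M + 1) = 0 := by omega
      rw [h3]
      omega
    rw [h1]
    nlinarith

theorem Yset_card (n : ℕ) : n * n ≤ 9 * (Yset n).ncard + 20 * n := by
  rcases Nat.lt_or_ge n 20 with hn | hn
  · nlinarith
  have : NeZero (2 * n) := ⟨by omega⟩
  set M := (2 * n - 3) / 3 - 4 with hM
  have hM1 : 2 * n ≤ 3 * M + 17 := by omega
  have hM2 : 3 * M + 15 ≤ 2 * n := by omega
  let P : Finset (Σ _ : ℕ, ℕ) := (Finset.range (M + 1)).sigma fun i => Finset.range (M - 2 * i)
  let f : (Σ _ : ℕ, ℕ) → Lab (2 * n) := fun p =>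
    sgn n (p.2 + 3 - 1) + sgn n (p.2 + 3 + 3 * (p.1 + 1) - 1) +
      sgn n (2 * n - (p.2 + 3) - (p.2 + 3 + 3 * (p.1 + 1)) - 1)
  have hP : ∀ p ∈ P, p.2 + 2 * p.1 < M := by
    intro p hp
    rw [Finset.mem_sigma, Finset.mem_range, Finset.mem_range] at hp
    omega
  have hfY : ∀ p ∈ P, f p ∈ Yset n := by
    intro p hp
    have h1 := hP p hp
    refine ⟨p.2 + 3, p.2 + 3 + 3 * (p.1 + 1), 2 * n - (p.2 + 3) - (p.2 + 3 + 3 * (p.1 + 1)),
      p.1 + 1, by omega, by omega, rfl, by omega, by omega, rfl⟩
  have hinj : Set.InjOn f (P : Set (Σ _ : ℕ, ℕ)) := by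
    rintro ⟨i, r⟩ hp ⟨i', r'⟩ hp' h
    have h1 := hP _ hp
    have h2 := hP _ hp'
    simp only at h1 h2
    have h3 := sgn3_sorted n (r + 3 - 1) (r + 3 + 3 * (i + 1) - 1)
      (2 * n - (r + 3) - (r + 3 + 3 * (i + 1)) - 1) (r' + 3 - 1) (r' + 3 + 3 * (i' + 1) - 1)
      (2 * n - (r' + 3) - (r' + 3 + 3 * (i' + 1)) - 1) (by omega) (by omega) (by omega)
      (by omega) (by omega) (by omega) h
    have h4 : i = i' ∧ r = r' := by omega
    obtain ⟨rfl, rfl⟩ := h4
    rfl
  have hcard : P.card ≤ (Yset n).ncard := by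
    have h1 : (f '' (P : Set (Σ _ : ℕ, ℕ))).ncard = P.card := by
      rw [hinj.ncard_image, Set.ncard_coe_finset]
    rw [← h1]
    refine Set.ncard_le_ncard ?_ (Set.toFinite _)
    rintro _ ⟨p, hp, rfl⟩
    exact hfY p hp
  have hPc : P.card = ∑ i ∈ Finset.range (M + 1), (M - 2 * i) := by
    rw [Finset.card_sigma]
    simp
  have hs := sum_sub_two M
  rw [← hPc] at hs
  have h1 : 4 * (n * n) ≤ 36 * (Yset n).ncard + 80 * n := by
    have h2 : M * M ≤ 4 * (Yset n).ncard := by omega
    have h3 : (2 * n - 17) * (2 * n - 17) ≤ (3 * M) * (3 * M) :=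
      Nat.mul_le_mul (by omega) (by omega)
    obtain ⟨k, hk⟩ : ∃ k, 2 * n = k + 17 := ⟨2 * n - 17, by omega⟩
    have h4 : 2 * n - 17 = k := by omega
    rw [h4] at h3
    nlinarith
  omega

end Pool.Agent.Helper226_Obs
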