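import Pool.Agent.Helper226_Obs.FP.E03

set_option autoImplicit false

namespace Pool.Agent.Helper226_Obs

open SimpleGraph

theorem hf_gm_lt (n l m : ℕ) (t : Bool) (hl : l < 2 * n) (hm : m < 2 * n) : gm n l m t < 2 * n := by
  unfold gm
  split_ifs <;> omega

theorem hf_gm_comm (n l m : ℕ) (t : Bool) : gm n l m t = gm n m l t := by
  unfold gm
  split_ifs <;> omega

theorem hf_gm1 (n l m : ℕ) : gm n (l + 1) m false = gm n l m true := by
  simp only [gm, if_true, Bool.false_eq_true, if_false]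
  split_ifs <;> omega

theorem hf_gm2 (n l m : ℕ) (hl : l < 2 * n) (hm : m < 2 * n) : gm n m (gm n l m true) true = l := by
  simp only [gm, if_true]
  split_ifs <;> omega

theorem hf_gm3 (n l m : ℕ) (hl : l + 1 < 2 * n) (hm : m < 2 * n) :
    gm n (l + 1) m true = pm n (gm n l m true) := by
  simp only [gm, pm, if_true]
  split_ifs <;> omega

theorem hf_gm4 (n l m : ℕ) (hl : l + 1 < 2 * n) (hm : m < 2 * n) :
    gm n (l + 1) (pm n m) true = gm n l m true := by
  simp only [gm, pm, if_true]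
  split_ifs <;> omega

theorem hf_gm5 (n l m : ℕ) (hl : l + 1 < 2 * n) (hm : m < 2 * n) :
    gm n (l + 1) (gm n l m true) true = pm n m := by
  simp only [gm, pm, if_true]
  split_ifs <;> omega

theorem hf_gm6 (n l m : ℕ) (t : Bool) (hl : l < 2 * n) (hm : m < 2 * n) (h : gm n l m t = l) :
    m = gm n l l t := by
  unfold gm at h ⊢
  cases t with
  | false =>
    simp only [Bool.false_eq_true, if_false] at h ⊢
    split_ifs at h ⊢ <;> omega
  | true =>
    simp only [if_true] at h ⊢
    split_ifs at h ⊢ <;> omega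

theorem hf_pm_lt (n m : ℕ) (hm : m < 2 * n) : pm n m < 2 * n := by
  unfold pm
  split_ifs <;> omega

theorem hf_pm_succ (n l : ℕ) : pm n (l + 1) = l := by
  simp [pm]

theorem hf_vt (n l m : ℕ) : vlab n l m true = sgn n l + sgn n m + sgn n (gm n l m true) := by
  simp [vlab]

theorem hf_vf (n l m : ℕ) :
    vlab n l m false = sgn n (pm n l) + sgn n (pm n m) + sgn n (gm n l m true) := by
  simp [vlab]

/-- The initial set. -/
def hfS (n : ℕ) : Set (Lab (2 * n)) :=
  Set.range (fun p : Fin (2 * n) × Bool => vlab n 0 p.1 p.2) ∪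
  Set.range (fun p : Fin (2 * n) × Bool × Bool => vlab n p.1 (gm n p.1 p.1 p.2.1) p.2.2)

theorem hf_range_card {α β : Type} [Fintype α] (f : α → β) :
    (Set.range f).ncard ≤ Fintype.card α := by
  classical
  rw [← Set.image_univ]
  refine (Set.ncard_image_le (Set.toFinite _)).trans ?_
  rw [Set.ncard_univ, Nat.card_eq_fintype_card]

theorem hfS_card (n : ℕ) : (hfS n).ncard ≤ 24 * n := by
  unfold hfS
  refine (Set.ncard_union_le _ _).trans ?_
  have h1 := hf_range_card (fun p : Fin (2 * n) × Bool => vlab n 0 p.1 p.2)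
  have h2 := hf_range_card
    (fun p : Fin (2 * n) × Bool × Bool => vlab n p.1 (gm n p.1 p.1 p.2.1) p.2.2)
  simp only [Fintype.card_prod, Fintype.card_fin, Fintype.card_bool] at h1 h2
  omega

theorem hfS_zero (n m : ℕ) (t : Bool) (hm : m < 2 * n) : vlab n 0 m t ∈ hfS n :=
  Or.inl ⟨(⟨m, hm⟩, t), rfl⟩

theorem hfS_deg1 (n l m : ℕ) (t t' : Bool) (hl : l < 2 * n) (hm : m < 2 * n)
    (h : gm n l m t = l) : vlab n l m t' ∈ hfS n := by
  have h1 := hf_gm6 n l m t hl hm h
  refine Or.inr ⟨(⟨l, hl⟩, t, t'), ?_⟩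
  show vlab n l (gm n l l t) t' = vlab n l m t'
  rw [← h1]

theorem hfS_deg2 (n l m : ℕ) (t t' : Bool) (hl : l < 2 * n) (hm : m < 2 * n)
    (h : gm n l m t = m) : vlab n l m t' ∈ hfS n := by
  rw [vlab_comm]
  rw [hf_gm_comm] at h
  exact hfS_deg1 n m l t t' hm hl h

theorem hf_close (n : ℕ) (hn : 3 ≤ n) (K : Set (Lab (2 * n)))
    (hK : ∀ v ∈ K, ∀ w, (mapGraph (vt0 n)).Adj v w →
        (∀ w', (mapGraph (vt0 n)).Adj v w' → w' ≠ w → w' ∈ K) → w ∈ K)
    (l m : ℕ) (t : Bool) (hl : l < 2 * n) (hm : m < 2 * n) (hlm : l ≠ m)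
    (hc1 : gm n l m t ≠ l) (hc2 : gm n l m t ≠ m) (hv : vlab n l m t ∈ K) (A B C : Lab (2 * n))
    (hA : A ∈ K) (hB : B ∈ K)
    (hC : (mapGraph (vt0 n)).Adj (vlab n l m t) C)
    (hall : ∀ w, (mapGraph (vt0 n)).Adj (vlab n l m t) w → w = A ∨ w = B ∨ w = C) : C ∈ K := by
  refine hK _ hv C hC ?_
  intro w' hw' hne
  rcases hall w' hw' with h | h | h
  · rw [h]; exact hA
  · rw [h]; exact hB
  · exact absurd h hne

/-- the labels of the second kind on the next line -/
theorem hf_stepA (n : ℕ) (hn : 3 ≤ n) (K : Set (Lab (2 * n))) (hS : hfS n ⊆ K)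
    (hK : ∀ v ∈ K, ∀ w, (mapGraph (vt0 n)).Adj v w →
        (∀ w', (mapGraph (vt0 n)).Adj v w' → w' ≠ w → w' ∈ K) → w ∈ K)
    (l : ℕ) (hl : l + 1 < 2 * n)
    (ih : ∀ m t, m < 2 * n → m ≠ l → vlab n l m t ∈ K) (m : ℕ) (hm : m < 2 * n)
    (hml : m ≠ l + 1) : vlab n (l + 1) m false ∈ K := by
  by_cases h1 : m = l
  · rw [h1, vlab_comm]
    exact ih (l + 1) false hl (by omega)
  by_cases h2 : gm n (l + 1) m false = l + 1
  · exact hS (hfS_deg1 n (l + 1) m false false hl hm h2)
  by_cases h3 : gm n (l + 1) m false = m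
  · exact hS (hfS_deg2 n (l + 1) m false false hl hm h3)
  rw [hf_gm1] at h2 h3
  have hl' : l < 2 * n := by omega
  have e1 : vlab n (l + 1) m false =
      sgn n l + sgn n (pm n m) + sgn n (pm n (gm n l m true)) := by
    rw [hf_vf, hf_pm_succ, hf_gm3 n l m hl hm]
  by_cases h4 : gm n l m true = l
  · have h5 : vlab n m l false ∈ K := by
      refine hS (hfS_deg2 n m l true false hm hl' ?_)
      rw [hf_gm_comm]; exact h4
    have e2 : vlab n m l false = vlab n (l + 1) m false := by
      rw [e1, hf_vf, hf_gm_comm, h4]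
      abel
    rw [← e2]; exact h5
  · have hc := hf_gm_lt n l m true hl' hm
    have e3 : vlab n m (gm n l m true) false = vlab n (l + 1) m false := by
      rw [e1, hf_vf, hf_gm2 n l m hl' hm]
      abel
    rw [← e3]
    refine hf_close n hn K hK l m true hl' hm (Ne.symm h1) h4 h3 (ih m true hm h1)
      (vlab n l m false) (vlab n l (gm n l m true) false) _ (ih m false hm h1)
      (ih _ false hc h4) ?_ ?_
    · rw [nbrs n l m true hn hl' hm (Ne.symm h1) h4 h3]
      exact Or.inr (Or.inr rfl)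
    · intro w hw
      rw [nbrs n l m true hn hl' hm (Ne.symm h1) h4 h3] at hw
      exact hw

/-- the labels of the first kind on the next line -/
theorem hf_stepB (n : ℕ) (hn : 3 ≤ n) (K : Set (Lab (2 * n))) (hS : hfS n ⊆ K)
    (hK : ∀ v ∈ K, ∀ w, (mapGraph (vt0 n)).Adj v w →
        (∀ w', (mapGraph (vt0 n)).Adj v w' → w' ≠ w → w' ∈ K) → w ∈ K)
    (l : ℕ) (hl : l + 1 < 2 * n)
    (ih : ∀ m t, m < 2 * n → m ≠ l → vlab n l m t ∈ K) (m : ℕ) (hm : m < 2 * n)
    (hml : m ≠ l + 1) (hP : vlab n (l + 1) m true ∈ K) :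
    vlab n (l + 1) (pm n m) true ∈ K := by
  have hQ := hf_stepA n hn K hS hK l hl ih m hm hml
  have hl' : l < 2 * n := by omega
  have hm' := hf_pm_lt n m hm
  have e4 := hf_gm4 n l m hl hm
  have e3 := hf_gm3 n l m hl hm
  have eP : vlab n (l + 1) (pm n m) true =
      sgn n (l + 1) + sgn n (pm n m) + sgn n (gm n l m true) := by
    rw [hf_vt, e4]
  by_cases h1 : gm n l m true = l + 1
  · refine hS (hfS_deg1 n (l + 1) (pm n m) true true hl hm' ?_)
    rw [e4]; exact h1
  by_cases h2 : gm n l m true = m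
  · have e5 : vlab n (l + 1) m true = vlab n (l + 1) (pm n m) true := by
      rw [eP, hf_vt, e3, h2]
      abel
    rw [← e5]; exact hP
  have hc := hf_gm_lt n l m true hl' hm
  have g1 : gm n (l + 1) m false ≠ l + 1 := by rw [hf_gm1]; exact h1
  have g2 : gm n (l + 1) m false ≠ m := by rw [hf_gm1]; exact h2
  have hx : vlab n m (gm n l m true) true ∈ K := by
    by_cases h3 : m = l
    · have h4 : gm n l m true ≠ l := by rw [h3] at h2 ⊢; exact h2
      have := ih (gm n l m true) true hc h4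
      rw [h3] at this ⊢
      exact this
    · have e6 : vlab n m (gm n l m true) true = vlab n l m true := by
        rw [hf_vt, hf_vt, hf_gm2 n l m hl' hm]
        abel
      rw [e6]
      exact ih m true hm h3
  have e7 : vlab n (l + 1) (gm n l m true) true = vlab n (l + 1) (pm n m) true := by
    rw [eP, hf_vt, hf_gm5 n l m hl hm]
    abel
  rw [← e7]
  have hne : l + 1 ≠ m := fun h => hml h.symm
  refine hf_close n hn K hK (l + 1) m false hl hm hne g1 g2 hQ
    (vlab n (l + 1) m true) (vlab n m (gm n l m true) true) _ hP hx ?_ ?_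
  · rw [nbrs n (l + 1) m false hn hl hm hne g1 g2, hf_gm1]
    exact Or.inr (Or.inl rfl)
  · intro w hw
    rw [nbrs n (l + 1) m false hn hl hm hne g1 g2, hf_gm1] at hw
    rcases hw with h | h | h
    · exact Or.inl h
    · exact Or.inr (Or.inr h)
    · exact Or.inr (Or.inl h)

/-- all the labels of the first kind on the next line -/
theorem hf_lineP (n l : ℕ) (hl : l + 1 < 2 * n) (P : ℕ → Prop) (h0 : P l)
    (hstep : ∀ m, m < 2 * n → m ≠ l + 1 → P m → P (pm n m)) :
    ∀ m, m < 2 * n → m ≠ l + 1 → P m := by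
  have h1 : ∀ j, j ≤ l → P (l - j) := by
    intro j
    induction j with
    | zero => intro _; exact h0
    | succ j ihj =>
      intro hj
      have h2 := hstep (l - j) (by omega) (by omega) (ihj (by omega))
      have h3 : pm n (l - j) = l - (j + 1) := by
        unfold pm
        split_ifs <;> omega
      rwa [h3] at h2
  have h4 : ∀ j, l + 2 + j ≤ 2 * n - 1 → P (2 * n - 1 - j) := by
    intro j
    induction j with
    | zero =>
      intro _
      have h2 := hstep 0 (by omega) (by omega) (by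
        have := h1 l le_rfl
        rwa [Nat.sub_self] at this)
      have h3 : pm n 0 = 2 * n - 1 - 0 := by
        unfold pm
        simp
      rwa [h3] at h2
    | succ j ihj =>
      intro hj
      have h2 := hstep (2 * n - 1 - j) (by omega) (by omega) (ihj (by omega))
      have h3 : pm n (2 * n - 1 - j) = 2 * n - 1 - (j + 1) := by
        unfold pm
        split_ifs <;> omega
      rwa [h3] at h2
  intro m hm hml
  rcases Nat.lt_or_ge l m with h | h
  · have h5 := h4 (2 * n - 1 - m) (by omega)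
    have h6 : 2 * n - 1 - (2 * n - 1 - m) = m := by omega
    rwa [h6] at h5
  · have h5 := h1 (l - m) (by omega)
    have h6 : l - (l - m) = m := by omega
    rwa [h6] at h5

theorem hf_all (n : ℕ) (hn : 3 ≤ n) (K : Set (Lab (2 * n))) (hS : hfS n ⊆ K)
    (hK : ∀ v ∈ K, ∀ w, (mapGraph (vt0 n)).Adj v w →
        (∀ w', (mapGraph (vt0 n)).Adj v w' → w' ≠ w → w' ∈ K) → w ∈ K) :
    ∀ l, l < 2 * n → ∀ m t, m < 2 * n → m ≠ l → vlab n l m t ∈ K := by
  intro l
  induction l with
  | zero =>
    intro _ m t hm _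
    exact hS (hfS_zero n m t hm)
  | succ l ihl =>
    intro hl m t hm hml
    have ih := ihl (by omega)
    cases t with
    | false => exact hf_stepA n hn K hS hK l hl ih m hm hml
    | true =>
      refine hf_lineP n l hl (fun m => vlab n (l + 1) m true ∈ K) ?_ ?_ m hm hml
      · show vlab n (l + 1) l true ∈ K
        rw [vlab_comm]
        exact ih (l + 1) true hl (by omega)
      · intro m hm hml hP
        exact hf_stepB n hn K hS hK l hl ih m hm hml hP

theorem supp_card (n : ℕ) (hn : 3 ≤ n) :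
    (mapGraph (vt0 n)).support.Nonempty ∧ (mapGraph (vt0 n)).support.ncard ≤ 4 * n * n := by
  classical
  constructor
  · refine ⟨vlab n 0 1 true, ?_⟩
    rw [SimpleGraph.mem_support]
    exact ⟨vlab n 0 1 false, (host_adj n hn _ _).2
      ⟨0, 1, true, by omega, by omega, by omega, rfl, rfl⟩⟩
  · have h1 : (mapGraph (vt0 n)).support ⊆ Set.range (vt0 n) := by
      intro v hv
      rw [SimpleGraph.mem_support] at hv
      obtain ⟨w, hw⟩ := hv
      obtain ⟨-, d, hd, -⟩ := hw
      exact ⟨d, hd⟩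
    have h2 : (Set.range (vt0 n)).Finite := Set.finite_range _
    refine (Set.ncard_le_ncard h1 h2).trans ((hf_range_card (vt0 n)).trans ?_)
    have hinj : Function.Injective (fun d : Ed n × Bool =>
        if d.2 then ((d.1.1.1, d.1.1.2) : Fin (2 * n) × Fin (2 * n))
        else (d.1.1.2, d.1.1.1)) := by
      rintro ⟨⟨⟨a, b⟩, hab⟩, t⟩ ⟨⟨⟨c, d⟩, hcd⟩, s⟩ h
      cases t <;> cases s <;> simp at h hab hcd ⊢
      · exact ⟨h.2, h.1⟩
      · exfalso
        rw [h.1, h.2] at hab
        exact absurd hab (not_lt.2 hcd.le)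
      · exfalso
        rw [h.1, h.2] at hab
        exact absurd hab (not_lt.2 hcd.le)
      · exact h
    have h3 := Fintype.card_le_of_injective _ hinj
    refine h3.trans (le_of_eq ?_)
    rw [Fintype.card_prod, Fintype.card_fin]
    ring

theorem host_force (n : ℕ) (hn : 3 ≤ n) :
    ∃ S : Set (Lab (2 * n)), S.ncard ≤ 24 * n ∧ ∀ K : Set (Lab (2 * n)), S ⊆ K →
      (∀ v ∈ K, ∀ w, (mapGraph (vt0 n)).Adj v w →
        (∀ w', (mapGraph (vt0 n)).Adj v w' → w' ≠ w → w' ∈ K) → w ∈ K) →
      (mapGraph (vt0 n)).support ⊆ K := by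
  refine ⟨hfS n, hfS_card n, ?_⟩
  intro K hS hK v hv
  rw [SimpleGraph.mem_support] at hv
  obtain ⟨w, hw⟩ := hv
  obtain ⟨l, m, t, hl, hm, hlm, hv, -⟩ := (host_adj n hn v w).1 hw
  rw [hv]
  exact hf_all n hn K hS hK l hl m t hm (Ne.symm hlm)

end Pool.Agent.Helper226_Obs
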