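import Pool.Agent.Helper226_Obs.FP.Defs

set_option autoImplicit false

namespace Pool.Agent.Helper226_Obs

open SimpleGraph

theorem fp_analysis_aux (δ : ℝ) (hδ : 0 < δ) : ∃ g₀ : ℕ, ∀ g : ℕ, g₀ ≤ g →
    24 * (2 * (g : ℝ) + 2) * (2 + 2 * (Real.log (2 * g + 2) / Real.log 2)) + 2 +
      20 * (2 * (g : ℝ) + 2) / 9 ≤ δ * (2 * (g : ℝ) + 2) ^ 2 := by
  have h1 : (fun x : ℝ => (48 + 20 / 9 + 2 : ℝ) + 48 / Real.log 2 * Real.log x)
      =o[Filter.atTop] (fun x => x) :=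
    (Asymptotics.isLittleO_const_id_atTop _).add (Real.isLittleO_log_id_atTop.const_mul_left _)
  have h2 := h1.def hδ
  have h3 : Filter.Tendsto (fun g : ℕ => 2 * (g : ℝ) + 2) Filter.atTop Filter.atTop := by
    apply Filter.tendsto_atTop_add_const_right
    exact Filter.Tendsto.const_mul_atTop (by norm_num) tendsto_natCast_atTop_atTop
  obtain ⟨g₀, h4⟩ := Filter.eventually_atTop.1 (h3.eventually h2)
  refine ⟨g₀, fun g hg => ?_⟩
  have h5 := h4 g hg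
  have h6 : (0 : ℝ) ≤ g := Nat.cast_nonneg g
  set n : ℝ := 2 * (g : ℝ) + 2 with hn
  have hn2 : 2 ≤ n := by linarith
  have h7 : (48 + 20 / 9 + 2 : ℝ) + 48 / Real.log 2 * Real.log n ≤ δ * n := by
    have h8 := (le_abs_self _).trans h5
    rwa [Real.norm_of_nonneg (by linarith)] at h8
  have h9 := mul_le_mul_of_nonneg_right h7 (by linarith : 0 ≤ n)
  have h10 : 48 / Real.log 2 * Real.log n = 48 * (Real.log n / Real.log 2) := by ring
  rw [h10] at h9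
  nlinarith [h9, hn2]

theorem fp_analysis (c : ℝ) (hc : c < 4 / 9) : ∃ g₀ : ℕ, 3 ≤ g₀ ∧ ∀ g : ℕ, g₀ ≤ g →
    ∃ k : ℕ, (2 : ℝ) ^ (c * (g : ℝ) ^ 2) ≤ k ∧
      k * (4 * (2 * g + 2) * (2 * g + 2)) ^ (24 * (2 * g + 2)) ≤
        2 ^ (((2 * g + 2) * (2 * g + 2) - 20 * (2 * g + 2)) / 9) := by
  set c' : ℝ := max c 0 with hc'
  have hc0 : 0 ≤ c' := le_max_right _ _
  have hcc : c ≤ c' := le_max_left _ _
  have hc9 : c' < 4 / 9 := max_lt hc (by norm_num)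
  obtain ⟨g₀, hg₀⟩ := fp_analysis_aux (1 / 9 - c' / 4) (by linarith)
  refine ⟨max g₀ 20, le_trans (by norm_num) (le_max_right _ _), fun g hg => ?_⟩
  have hg1 : g₀ ≤ g := (le_max_left _ _).trans hg
  have hg2 : 20 ≤ g := (le_max_right _ _).trans hg
  have hgr : (20 : ℝ) ≤ g := by exact_mod_cast hg2
  have h1 := hg₀ g hg1
  refine ⟨⌈(2 : ℝ) ^ (c' * (g : ℝ) ^ 2)⌉₊, ?_, ?_⟩
  · refine le_trans ?_ (Nat.le_ceil _)
    exact Real.rpow_le_rpow_of_exponent_le (by norm_num)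
      (mul_le_mul_of_nonneg_right hcc (by positivity))
  · have h2 : (⌈(2 : ℝ) ^ (c' * (g : ℝ) ^ 2)⌉₊ : ℝ) ≤ (2 : ℝ) ^ (c' * (g : ℝ) ^ 2 + 1) := by
      have h3 : (1 : ℝ) ≤ (2 : ℝ) ^ (c' * (g : ℝ) ^ 2) :=
        Real.one_le_rpow (by norm_num) (by positivity)
      rw [Real.rpow_add (by norm_num), Real.rpow_one]
      have h4 := (Nat.ceil_lt_add_one (by positivity : (0 : ℝ) ≤ (2 : ℝ) ^ (c' * (g : ℝ) ^ 2))).le
      linarith
    have hnpos : (0 : ℝ) < 2 * (g : ℝ) + 2 := by linarith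
    have hlog2 : (0 : ℝ) < Real.log 2 := Real.log_pos (by norm_num)
    have h4 : ((4 * (2 * (g : ℝ) + 2) * (2 * (g : ℝ) + 2)) ^ (24 * (2 * g + 2)) : ℝ) =
        (2 : ℝ) ^ (24 * (2 * (g : ℝ) + 2) * (2 + 2 * (Real.log (2 * g + 2) / Real.log 2))) := by
      have h5 : (2 * (g : ℝ) + 2) = (2 : ℝ) ^ (Real.log (2 * g + 2) / Real.log 2) := by
        rw [Real.rpow_def_of_pos (by norm_num), mul_div_cancel₀ _ hlog2.ne', Real.exp_log hnpos]
      have h6 : (4 * (2 * (g : ℝ) + 2) * (2 * (g : ℝ) + 2)) =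
          (2 : ℝ) ^ (2 + 2 * (Real.log (2 * g + 2) / Real.log 2)) := by
        rw [Real.rpow_add (by norm_num), two_mul (Real.log (2 * g + 2) / Real.log 2),
          Real.rpow_add (by norm_num), ← h5]
        norm_num
        ring
      rw [h6, ← Real.rpow_natCast, ← Real.rpow_mul (by norm_num)]
      congr 1
      push_cast
      ring
    have h5 : (((2 * g + 2) * (2 * g + 2) - 20 * (2 * g + 2) : ℕ) : ℝ) =
        (2 * (g : ℝ) + 2) ^ 2 - 20 * (2 * (g : ℝ) + 2) := by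
      rw [Nat.cast_sub (Nat.mul_le_mul_right _ (by omega))]
      push_cast
      ring
    have h6 : ((2 * (g : ℝ) + 2) ^ 2 - 20 * (2 * (g : ℝ) + 2)) / 9 - 1 ≤
        ((((2 * g + 2) * (2 * g + 2) - 20 * (2 * g + 2)) / 9 : ℕ) : ℝ) := by
      rw [← h5]
      have h7 := Nat.lt_div_mul_add (a := (2 * g + 2) * (2 * g + 2) - 20 * (2 * g + 2))
        (b := 9) (by norm_num)
      have h8 : (((2 * g + 2) * (2 * g + 2) - 20 * (2 * g + 2) : ℕ) : ℝ) <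
        (((2 * g + 2) * (2 * g + 2) - 20 * (2 * g + 2)) / 9 : ℕ) * 9 + 9 := by exact_mod_cast h7
      linarith
    have h7 : ((⌈(2 : ℝ) ^ (c' * (g : ℝ) ^ 2)⌉₊ *
        (4 * (2 * g + 2) * (2 * g + 2)) ^ (24 * (2 * g + 2)) : ℕ) : ℝ) ≤
        ((2 ^ (((2 * g + 2) * (2 * g + 2) - 20 * (2 * g + 2)) / 9) : ℕ) : ℝ) := by
      push_cast
      rw [h4]
      refine (mul_le_mul_of_nonneg_right h2 (by positivity)).trans ?_
      rw [← Real.rpow_add (by norm_num), ← Real.rpow_natCast 2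
        (((2 * g + 2) * (2 * g + 2) - 20 * (2 * g + 2)) / 9)]
      refine Real.rpow_le_rpow_of_exponent_le (x := 2) (by norm_num) (le_trans ?_ h6)
      have h8 : c' * (g : ℝ) ^ 2 ≤ c' / 4 * (2 * (g : ℝ) + 2) ^ 2 := by
        have : (g : ℝ) ^ 2 ≤ 1 / 4 * (2 * (g : ℝ) + 2) ^ 2 := by nlinarith
        nlinarith
      nlinarith [h1, h8]
    exact_mod_cast h7

end Pool.Agent.Helper226_Obs
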