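import Pool.Agent.Helper226_Obs.FP.B07
import Pool.Agent.Helper226_Obs.FP.B09
import Pool.Agent.Helper226_Obs.FP.B10
import Pool.Agent.Helper226_Obs.FP.C09
import Pool.Agent.Helper226_Obs.FP.D03
import Pool.Agent.Helper226_Obs.FP.D04
import Pool.Agent.Helper226_Obs.FP.D08
import Pool.Agent.Helper226_Obs.FP.D09
import Pool.Agent.Helper226_Obs.FP.E01
import Pool.Agent.Helper226_Obs.FP.E02
import Pool.Agent.Helper226_Obs.FP.E03
import Pool.Agent.Helper226_Obs.FP.E04
import Pool.Agent.Helper226_Obs.FP.E05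
import Pool.Agent.Helper226_Obs.FP.E06
import Pool.Agent.Helper226_Obs.FP.E07
import Pool.Agent.Helper226_Obs.FP.E08
import Pool.Agent.Helper226_Obs.FP.F01

set_option autoImplicit false

namespace Pool.Agent.Helper226_Obs

open SimpleGraph

/-- The number of obstructions is at least `k` if `k` is small enough. -/
theorem fp_count (g k : ℕ) (hg : 3 ≤ g)
    (hk : k * (4 * (2 * g + 2) * (2 * g + 2)) ^ (24 * (2 * g + 2)) ≤
      2 ^ (((2 * g + 2) * (2 * g + 2) - 20 * (2 * g + 2)) / 9)) : (k : ℕ∞) ≤ N g := by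
  classical
  obtain ⟨n, hn⟩ : ∃ n, n = 2 * g + 2 := ⟨_, rfl⟩
  rw [← hn] at hk
  have hn8 : 8 ≤ n := by omega
  have : NeZero (2 * n) := ⟨by omega⟩
  have hne : Even n := ⟨g + 1, by omega⟩
  obtain ⟨r, h1, h2, h3, h4⟩ := host_r n (by omega)
  have hPM := host_PM n (by omega) r h1 h2 h3 h4
  have hgood : Good (mapGraph (vt0 n)) g := by
    apply good_of_PM (vt0 n) (fc0 n) r hPM h2 (host_ne n (by omega)) (host_inj n (by omega))
      (host_fc n (by omega)) (host_conn n (by omega)) (host_tri n (by omega))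
      (euler_count n (by omega)) g
    · intro e
      obtain ⟨b, hb, hb1, hb2⟩ := del_flags n (by omega) r h3 h4 e
      refine ⟨_, (cut_bound n (by omega) r h1 h2 h3 h4 b hb _).trans (by omega), true, hb1, hb2⟩
    · intro e
      obtain ⟨b, hb, u, hb1, hb2⟩ := con_flags n (by omega) r h3 h4 e
      refine ⟨_, (cut_bound n (by omega) r h1 h2 h3 h4 b hb _).trans (by omega), u, hb1, hb2⟩
  have hY := host_YSet n (by omega)
  obtain ⟨hs1, hs2⟩ := supp_card n (by omega)
  obtain ⟨S, hS1, hS2⟩ := host_force n (by omega)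
  refine many_obs (mapGraph (vt0 n)) (Yset n) hY g k hs1 ?_ S hS2 ?_
  · intro A hA
    exact ⟨good_YD _ g _ hY hgood A hA,
      host_not_embeds n g hn8 hne (by omega) r hPM A (hA.trans (Yset_sub n))⟩
  · have hc := Yset_card n
    have hpos : 0 < (mapGraph (vt0 n)).support.ncard :=
      (Set.ncard_pos (Set.toFinite _)).mpr hs1
    calc k * (mapGraph (vt0 n)).support.ncard ^ S.ncard
        ≤ k * (4 * n * n) ^ (24 * n) := by
          apply Nat.mul_le_mul_left
          calc (mapGraph (vt0 n)).support.ncard ^ S.ncard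
              ≤ (mapGraph (vt0 n)).support.ncard ^ (24 * n) := Nat.pow_le_pow_right hpos hS1
            _ ≤ (4 * n * n) ^ (24 * n) := Nat.pow_le_pow_left hs2 _
      _ ≤ 2 ^ ((n * n - 20 * n) / 9) := hk
      _ ≤ 2 ^ (Yset n).ncard := by
          apply Nat.pow_le_pow_right (by norm_num)
          omega

theorem fp_main (c : ℝ) (hc : c < 4 / 9) : ∃ g₀ : ℕ, ∀ g : ℕ, g₀ ≤ g →
    ∃ k : ℕ, (2 : ℝ) ^ (c * (g : ℝ) ^ 2) ≤ k ∧ (k : ℕ∞) ≤ N g := by
  obtain ⟨g₀, h3, h⟩ := fp_analysis c hc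
  refine ⟨g₀, fun g hg => ?_⟩
  obtain ⟨k, hk1, hk2⟩ := h g hg
  exact ⟨k, hk1, fp_count g k (by omega) hk2⟩

end Pool.Agent.Helper226_Obs
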