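import Pool.Agent.Helper226_Obs.FP.Defs2

set_option autoImplicit false

namespace Pool.Agent.Helper226_Obs

open SimpleGraph

/-- A relation which is an isomorphism between the supports of two graphs. -/
structure PIso {V : Type} (G₁ G₂ : SimpleGraph V) (P : V → V → Prop) : Prop where
  tot1 : ∀ x ∈ G₁.support, ∃ y, P x y
  tot2 : ∀ y ∈ G₂.support, ∃ x, P x y
  fun1 : ∀ x y y', P x y → P x y' → y = y'
  fun2 : ∀ x x' y, P x y → P x' y → x = x'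
  adj : ∀ x y x' y', P x y → P x' y' → (G₁.Adj x x' ↔ G₂.Adj y y')
  supp : ∀ x y, P x y → x ∈ G₁.support ∧ y ∈ G₂.support

theorem PIso.symm {V : Type} {G₁ G₂ : SimpleGraph V} {P : V → V → Prop} (h : PIso G₁ G₂ P) :
    PIso G₂ G₁ (fun y x => P x y) where
  tot1 := h.tot2
  tot2 := h.tot1
  fun1 := fun x y y' h1 h2 => h.fun2 y y' x h1 h2
  fun2 := fun x x' y h1 h2 => h.fun1 y x x' h1 h2
  adj := fun x y x' y' h1 h2 => (h.adj y x y' x' h1 h2).symm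
  supp := fun x y h1 => ⟨(h.supp y x h1).2, (h.supp y x h1).1⟩

theorem yd_nbrs {V : Type} {G : SimpleGraph V} {Y : Set V} (hY : YSet2 G Y) {T : V} (hT : T ∈ Y) :
    ∃ x y z, x ≠ y ∧ x ≠ z ∧ y ≠ z ∧ G.Adj T x ∧ G.Adj T y ∧ G.Adj T z ∧
      ∀ w, G.Adj T w → w = x ∨ w = y ∨ w = z := by
  obtain ⟨x, y, z, hxy, hxz, hyz, h⟩ := Set.ncard_eq_three.1 (hY.deg T hT)
  have hm : ∀ w, G.Adj T w ↔ w = x ∨ w = y ∨ w = z := by
    intro w
    have : w ∈ G.neighborSet T ↔ w ∈ ({x, y, z} : Set V) := by rw [h]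
    simpa using this
  exact ⟨x, y, z, hxy, hxz, hyz, (hm x).2 (Or.inl rfl), (hm y).2 (Or.inr (Or.inl rfl)),
    (hm z).2 (Or.inr (Or.inr rfl)), fun w hw => (hm w).1 hw⟩

theorem yd_third {V : Type} {G : SimpleGraph V} {Y : Set V} (hY : YSet2 G Y) {T : V} (hT : T ∈ Y)
    (u v : V) : ∃ c, G.Adj T c ∧ c ≠ u ∧ c ≠ v := by
  obtain ⟨x, y, z, hxy, hxz, hyz, hx, hy, hz, -⟩ := yd_nbrs hY hT
  by_cases h1 : x ≠ u ∧ x ≠ v
  · exact ⟨x, hx, h1.1, h1.2⟩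
  by_cases h2 : y ≠ u ∧ y ≠ v
  · exact ⟨y, hy, h2.1, h2.2⟩
  refine ⟨z, hz, ?_, ?_⟩
  · rintro rfl
    by_cases h3 : x = v
    · by_cases h4 : y = v
      · exact hxy (h3.trans h4.symm)
      · exact h2 ⟨hyz, h4⟩
    · exact h1 ⟨hxz, h3⟩
  · rintro rfl
    by_cases h3 : x = u
    · by_cases h4 : y = u
      · exact hxy (h3.trans h4.symm)
      · exact h2 ⟨h4, hyz⟩
    · exact h1 ⟨h3, hxz⟩

theorem yd_notMem {V : Type} {G : SimpleGraph V} {Y A : Set V} (hY : YSet2 G Y) (hA : A ⊆ Y)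
    {T x : V} (hT : T ∈ A) (h : G.Adj T x) : x ∉ A :=
  fun hx => hY.indep T (hA hT) x (hA hx) h

theorem yd_support {V : Type} {G : SimpleGraph V} {Y A : Set V} (hY : YSet2 G Y) (hA : A ⊆ Y)
    (v : V) : v ∈ (YD G A).support ↔ v ∈ G.support ∧ v ∉ A := by
  rw [SimpleGraph.mem_support, SimpleGraph.mem_support]
  constructor
  · rintro ⟨w, h1, h2, h3, h4⟩
    rcases h4 with h | ⟨T, hT, h, h'⟩
    · exact ⟨⟨w, h⟩, h2⟩
    · exact ⟨⟨T, h.symm⟩, h2⟩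
  · rintro ⟨⟨w, h⟩, hv⟩
    by_cases hw : w ∈ A
    · obtain ⟨c, hc, hc1, -⟩ := yd_third hY (hA hw) v v
      exact ⟨c, fun e => hc1 e.symm, hv, yd_notMem hY hA hw hc, Or.inr ⟨w, hw, h.symm, hc⟩⟩
    · exact ⟨w, h.ne, hv, hw, Or.inl h⟩

theorem yd_triangle {V : Type} {G : SimpleGraph V} {Y A : Set V} (hY : YSet2 G Y) (hA : A ⊆ Y)
    (hAh : HexFree G A) {x y z : V} (hxy : (YD G A).Adj x y) (hyz : (YD G A).Adj y z)
    (hxz : (YD G A).Adj x z) : ∃ T ∈ A, G.Adj T x ∧ G.Adj T y ∧ G.Adj T z := by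
  obtain ⟨nxy, hxA, hyA, h1⟩ := hxy
  obtain ⟨nyz, -, hzA, h2⟩ := hyz
  obtain ⟨nxz, -, -, h3⟩ := hxz
  rcases h1 with h1 | ⟨T1, m1, a1, b1⟩
  · rcases h2 with h2 | ⟨T2, m2, a2, b2⟩
    · rcases h3 with h3 | ⟨T3, m3, a3, b3⟩
      · exact absurd h3 (hY.tri x y z h1 h2)
      · exact absurd (hY.c4 T3 (hA m3) y x z (fun e => hyA (e ▸ m3)) a3 b3 h1.symm h2) nxz
    · rcases h3 with h3 | ⟨T3, m3, a3, b3⟩
      · exact absurd (hY.c4 T2 (hA m2) x y z (fun e => hxA (e ▸ m2)) a2 b2 h1 h3) nyz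
      · exact absurd h1 (hY.par T3 (hA m3) T2 (hA m2) x y a3 a2)
  · rcases h2 with h2 | ⟨T2, m2, a2, b2⟩
    · rcases h3 with h3 | ⟨T3, m3, a3, b3⟩
      · exact absurd (hY.c4 T1 (hA m1) z x y (fun e => hzA (e ▸ m1)) a1 b1 h3.symm h2.symm) nxy
      · exact absurd h2 (hY.par T1 (hA m1) T3 (hA m3) y z b1 b3)
    · rcases h3 with h3 | ⟨T3, m3, a3, b3⟩
      · exact absurd h3 (hY.par T1 (hA m1) T2 (hA m2) x z a1 b2)
      · by_cases e12 : T1 = T2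
        · subst e12; exact ⟨T1, m1, a1, b1, b2⟩
        by_cases e23 : T2 = T3
        · subst e23; exact ⟨T2, m2, a3, a2, b2⟩
        by_cases e13 : T1 = T3
        · subst e13; exact ⟨T1, m1, a1, b1, b3⟩
        exact (hAh T1 T2 T3 x y z m1 m2 m3 e12 e23 e13 nxy nyz nxz a1 b1 a2 b2 b3 a3).elim

theorem yd_edge {V : Type} {G : SimpleGraph V} {Y A : Set V} (hY : YSet2 G Y) (hA : A ⊆ Y)
    (hAh : HexFree G A) {u v : V} (hu : u ∉ A) (hv : v ∉ A) :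
    G.Adj u v ↔ (YD G A).Adj u v ∧ ¬ ∃ c, (YD G A).Adj u c ∧ (YD G A).Adj v c := by
  constructor
  · intro h
    have h' : (YD G A).Adj u v := ⟨h.ne, hu, hv, Or.inl h⟩
    refine ⟨h', ?_⟩
    rintro ⟨c, h1, h2⟩
    obtain ⟨T, -, a, b, -⟩ := yd_triangle hY hA hAh h' h2 h1
    exact hY.tri T u v a h b
  · rintro ⟨⟨n, -, -, h⟩, hc⟩
    rcases h with h | ⟨T, hT, a, b⟩
    · exact h
    · exfalso
      obtain ⟨c, hc1, hc2, hc3⟩ := yd_third hY (hA hT) u v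
      have hcA := yd_notMem hY hA hT hc1
      exact hc ⟨c, ⟨hc2.symm, hu, hcA, Or.inr ⟨T, hT, a, hc1⟩⟩,
        ⟨hc3.symm, hv, hcA, Or.inr ⟨T, hT, b, hc1⟩⟩⟩

/-- The relation on the vertices induced by `P`. -/
def RR {V : Type} (G : SimpleGraph V) (A B : Set V) (P : V → V → Prop) (v w : V) : Prop :=
  (v ∉ A ∧ w ∉ B ∧ P v w) ∨ (v ∈ A ∧ w ∈ B ∧ ∀ x y, P x y → (G.Adj v x ↔ G.Adj w y))

theorem RR.symm {V : Type} {G : SimpleGraph V} {A B : Set V} {P : V → V → Prop} {v w : V}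
    (h : RR G A B P v w) : RR G B A (fun y x => P x y) w v := by
  rcases h with ⟨h1, h2, h3⟩ | ⟨h1, h2, h3⟩
  · exact Or.inl ⟨h2, h1, h3⟩
  · exact Or.inr ⟨h2, h1, fun x y hxy => (h3 y x hxy).symm⟩

theorem RR_tot {V : Type} {G : SimpleGraph V} {Y : Set V} (hY : YSet2 G Y)
    {A B : Set V} (hA : A ⊆ Y) (hB : B ⊆ Y) (hBh : HexFree G B)
    {P : V → V → Prop} (hP : PIso (YD G A) (YD G B) P) (v : V) (hv : v ∈ G.support) :
    ∃ w ∈ G.support, RR G A B P v w := by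
  by_cases hvA : v ∈ A
  · obtain ⟨x, y, z, nxy, nxz, nyz, hx, hy, hz, hall⟩ := yd_nbrs hY (hA hvA)
    have xA := yd_notMem hY hA hvA hx
    have yA := yd_notMem hY hA hvA hy
    have zA := yd_notMem hY hA hvA hz
    have exy : (YD G A).Adj x y := ⟨nxy, xA, yA, Or.inr ⟨v, hvA, hx, hy⟩⟩
    have exz : (YD G A).Adj x z := ⟨nxz, xA, zA, Or.inr ⟨v, hvA, hx, hz⟩⟩
    have eyz : (YD G A).Adj y z := ⟨nyz, yA, zA, Or.inr ⟨v, hvA, hy, hz⟩⟩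
    obtain ⟨x', hx'⟩ := hP.tot1 x ⟨y, exy⟩
    obtain ⟨y', hy'⟩ := hP.tot1 y ⟨z, eyz⟩
    obtain ⟨z', hz'⟩ := hP.tot1 z ⟨y, eyz.symm⟩
    have fxy := (hP.adj _ _ _ _ hx' hy').1 exy
    have fyz := (hP.adj _ _ _ _ hy' hz').1 eyz
    have fxz := (hP.adj _ _ _ _ hx' hz').1 exz
    obtain ⟨T, hT, ax, ay, az⟩ := yd_triangle hY hB hBh fxy fyz fxz
    obtain ⟨p, q, r, npq, npr, nqr, hp, hq, hr, hall'⟩ := yd_nbrs hY (hB hT)
    have hall2 : ∀ w, G.Adj T w → w = x' ∨ w = y' ∨ w = z' := by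
      intro w hw
      have h1 := hall' w hw
      have h2 := hall' x' ax
      have h3 := hall' y' ay
      have h4 := hall' z' az
      have n1 : x' ≠ y' := fxy.ne
      have n2 : y' ≠ z' := fyz.ne
      have n3 : x' ≠ z' := fxz.ne
      rcases h1 with rfl | rfl | rfl <;> rcases h2 with rfl | rfl | rfl <;>
        rcases h3 with rfl | rfl | rfl <;> rcases h4 with rfl | rfl | rfl <;> simp_all
    refine ⟨T, ⟨x', ax⟩, Or.inr ⟨hvA, hT, ?_⟩⟩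
    intro a b hab
    constructor
    · intro h
      rcases hall a h with rfl | rfl | rfl
      · rw [hP.fun1 _ _ _ hab hx']; exact ax
      · rw [hP.fun1 _ _ _ hab hy']; exact ay
      · rw [hP.fun1 _ _ _ hab hz']; exact az
    · intro h
      rcases hall2 b h with rfl | rfl | rfl
      · rw [hP.fun2 _ _ _ hab hx']; exact hx
      · rw [hP.fun2 _ _ _ hab hy']; exact hy
      · rw [hP.fun2 _ _ _ hab hz']; exact hz
  · obtain ⟨w, hw⟩ := hP.tot1 v ((yd_support hY hA v).2 ⟨hv, hvA⟩)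
    have := (yd_support hY hB w).1 (hP.supp _ _ hw).2
    exact ⟨w, this.1, Or.inl ⟨hvA, this.2, hw⟩⟩

theorem RR_fun {V : Type} {G : SimpleGraph V} {Y : Set V} (hY : YSet2 G Y)
    {A B : Set V} (hA : A ⊆ Y) (hB : B ⊆ Y)
    {P : V → V → Prop} (hP : PIso (YD G A) (YD G B) P) {v w w' : V}
    (h : RR G A B P v w) (h' : RR G A B P v w') : w = w' := by
  rcases h with ⟨h1, h2, h3⟩ | ⟨h1, h2, h3⟩
  · rcases h' with ⟨k1, k2, k3⟩ | ⟨k1, k2, k3⟩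
    · exact hP.fun1 _ _ _ h3 k3
    · exact absurd k1 h1
  · rcases h' with ⟨k1, k2, k3⟩ | ⟨k1, k2, k3⟩
    · exact absurd h1 k1
    · obtain ⟨x, y, z, nxy, nxz, nyz, hx, hy, hz, hall⟩ := yd_nbrs hY (hA h1)
      have xA := yd_notMem hY hA h1 hx
      have yA := yd_notMem hY hA h1 hy
      have exy : (YD G A).Adj x y := ⟨nxy, xA, yA, Or.inr ⟨v, h1, hx, hy⟩⟩
      obtain ⟨x', hx'⟩ := hP.tot1 x ⟨y, exy⟩
      obtain ⟨y', hy'⟩ := hP.tot1 y ⟨x, exy.symm⟩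
      have fxy := (hP.adj _ _ _ _ hx' hy').1 exy
      by_contra hne
      exact fxy.ne (hY.c4 w (hB h2) w' x' y' (fun e => hne e.symm) ((h3 _ _ hx').1 hx)
        ((h3 _ _ hy').1 hy) ((k3 _ _ hx').1 hx) ((k3 _ _ hy').1 hy))

theorem RR_adj1 {V : Type} {G : SimpleGraph V} {Y : Set V} (hY : YSet2 G Y)
    {A B : Set V} (hA : A ⊆ Y) (hB : B ⊆ Y) (hAh : HexFree G A) (hBh : HexFree G B)
    {P : V → V → Prop} (hP : PIso (YD G A) (YD G B) P) {v w v' w' : V}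
    (h : RR G A B P v w) (h' : RR G A B P v' w') : G.Adj v v' → G.Adj w w' := by
  intro hadj
  rcases h with ⟨h1, h2, h3⟩ | ⟨h1, h2, h3⟩
  · rcases h' with ⟨k1, k2, k3⟩ | ⟨k1, k2, k3⟩
    · obtain ⟨e, hn⟩ := (yd_edge hY hA hAh h1 k1).1 hadj
      refine (yd_edge hY hB hBh h2 k2).2 ⟨(hP.adj _ _ _ _ h3 k3).1 e, ?_⟩
      rintro ⟨c, c1, c2⟩
      obtain ⟨d, hd⟩ := hP.tot2 c ⟨w, c1.symm⟩
      exact hn ⟨d, (hP.adj _ _ _ _ h3 hd).2 c1, (hP.adj _ _ _ _ k3 hd).2 c2⟩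
    · exact ((k3 _ _ h3).1 hadj.symm).symm
  · rcases h' with ⟨k1, k2, k3⟩ | ⟨k1, k2, k3⟩
    · exact (h3 _ _ k3).1 hadj
    · exact absurd hadj (hY.indep v (hA h1) v' (hA k1))

theorem piso_of_iso {V : Type} {G₁ G₂ : SimpleGraph V}
    (φ : G₁.induce G₁.support ≃g G₂.induce G₂.support) :
    PIso G₁ G₂ (fun x y => ∃ (hx : x ∈ G₁.support) (hy : y ∈ G₂.support), φ ⟨x, hx⟩ = ⟨y, hy⟩) where
  tot1 := fun x hx => ⟨(φ ⟨x, hx⟩ : V), hx, (φ ⟨x, hx⟩).2, rfl⟩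
  tot2 := fun y hy => ⟨(φ.symm ⟨y, hy⟩ : V), (φ.symm ⟨y, hy⟩).2, hy, by simp⟩
  fun1 := by
    rintro x y y' ⟨hx, hy, h⟩ ⟨hx', hy', h'⟩
    have := h.symm.trans h'
    exact congrArg Subtype.val this
  fun2 := by
    rintro x x' y ⟨hx, hy, h⟩ ⟨hx', hy', h'⟩
    have := φ.injective (h.trans h'.symm)
    exact congrArg Subtype.val this
  adj := by
    rintro x y x' y' ⟨hx, hy, h⟩ ⟨hx', hy', h'⟩
    have := φ.map_rel_iff (a := ⟨x, hx⟩) (b := ⟨x', hx'⟩)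
    change (G₂.induce G₂.support).Adj (φ ⟨x, hx⟩) (φ ⟨x', hx'⟩) ↔ _ at this
    rw [h, h'] at this
    simpa using this.symm
  supp := fun x y ⟨hx, hy, _⟩ => ⟨hx, hy⟩

theorem recon2 {V : Type} [Finite V] (G : SimpleGraph V) (Y : Set V) (hY : YSet2 G Y)
    (A B : Set V) (hA : A ⊆ Y) (hB : B ⊆ Y) (hAh : HexFree G A) (hBh : HexFree G B)
    (φ : (YD G A).induce (YD G A).support ≃g (YD G B).induce (YD G B).support) :
    ∃ ψ : G.induce G.support ≃g G.induce G.support,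
      ∀ v : G.support, (v : V) ∈ A ↔ (ψ v : V) ∈ B := by
  classical
  have hP := piso_of_iso φ
  generalize (fun x y => ∃ (hx : x ∈ (YD G A).support) (hy : y ∈ (YD G B).support),
    φ ⟨x, hx⟩ = ⟨y, hy⟩) = P at hP
  have t1 : ∀ v : G.support, ∃ w : G.support, RR G A B P v w := by
    intro v
    obtain ⟨w, hw, h⟩ := RR_tot hY hA hB hBh hP v v.2
    exact ⟨⟨w, hw⟩, h⟩
  have t2 : ∀ w : G.support, ∃ v : G.support, RR G A B P v w := by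
    intro w
    obtain ⟨v, hv, h⟩ := RR_tot hY hB hA hAh hP.symm w w.2
    exact ⟨⟨v, hv⟩, h.symm⟩
  choose f hf using t1
  choose g hg using t2
  have hgf : ∀ v, g (f v) = v := by
    intro v
    exact Subtype.ext (RR_fun hY hB hA hP.symm (hg (f v)).symm (hf v).symm)
  have hfg : ∀ w, f (g w) = w := by
    intro w
    exact Subtype.ext (RR_fun hY hA hB hP (hf (g w)) (hg w))
  refine ⟨⟨⟨f, g, hgf, hfg⟩, ?_⟩, ?_⟩
  · intro v v'
    change G.Adj (f v) (f v') ↔ G.Adj v v'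
    exact ⟨RR_adj1 hY hB hA hBh hAh hP.symm (hf v).symm (hf v').symm,
      RR_adj1 hY hA hB hAh hBh hP (hf v) (hf v')⟩
  · intro v
    change (v : V) ∈ A ↔ (f v : V) ∈ B
    rcases hf v with ⟨h1, h2, -⟩ | ⟨h1, h2, -⟩
    · exact ⟨fun h => absurd h h1, fun h => absurd h h2⟩
    · exact ⟨fun _ => h2, fun _ => h1⟩

end Pool.Agent.Helper226_Obs
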