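import Pool.Agent.Helper226_Obs.FP.Defs2
import Pool.Agent.Helper226_Obs.FP.B06
import Pool.Agent.Helper226_Obs.FP.B09
import Pool.Agent.Helper226_Obs.FP.G01

set_option autoImplicit false

namespace Pool.Agent.Helper226_Obs

open SimpleGraph

theorem mo2_subset_support {V : Type} [Finite V] (G : SimpleGraph V) (Y : Set V) (hY : YSet2 G Y) :
    Y ⊆ G.support := by
  intro T hT
  have h := hY.deg T hT
  have hne : (G.neighborSet T).Nonempty := by
    apply Set.nonempty_of_ncard_ne_zero
    omega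
  obtain ⟨w, hw⟩ := hne
  exact (G.mem_support).2 ⟨w, hw⟩

theorem mo2_finite {V : Type} [Finite V] (G : SimpleGraph V) : Finite (G ≃g G) := by
  have : Function.Injective (fun (ψ : G ≃g G) => (ψ : V → V)) := DFunLike.coe_injective
  exact Finite.of_injective _ this

theorem many_obs2 {V : Type} [Finite V] (G : SimpleGraph V) (Y : Set V) (hY : YSet2 G Y)
    (g k : ℕ) (hne : G.support.Nonempty) (F : Set (Set V))
    (hF : ∀ A ∈ F, A ⊆ Y ∧ HexFree G A)
    (hgood : ∀ A ∈ F, Good (YD G A) g ∧ ¬ Embeds (YD G A) g) (S : Set V)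
    (hS : ∀ K : Set V, S ⊆ K → (∀ v ∈ K, ∀ w, G.Adj v w →
      (∀ w', G.Adj v w' → w' ≠ w → w' ∈ K) → w ∈ K) → G.support ⊆ K)
    (hk : k * G.support.ncard ^ S.ncard ≤ F.ncard) : (k : ℕ∞) ≤ N g := by
  classical
  have hsup := mo2_subset_support G Y hY
  -- the obstructions
  have hK : ∀ A : Set V, A ∈ F → ∃ K : FinGraph, IsObs g K ∧
      Nonempty (K.2 ≃g (YD G A).induce (YD G A).support) := fun A hA =>
    isObs_of_good (YD G A) g (hgood A hA).1 (hgood A hA).2
  have hK' : ∀ A : Set V, ∃ K : FinGraph, A ∈ F → IsObs g K ∧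
      Nonempty (K.2 ≃g (YD G A).induce (YD G A).support) := fun A => by
    by_cases hA : A ∈ F
    · obtain ⟨K, h⟩ := hK A hA
      exact ⟨K, fun _ => h⟩
    · exact ⟨⟨0, ⊥⟩, fun h => absurd h hA⟩
  choose K hKs using hK'
  set c : Set V → Quotient isoSetoid := fun A => Quotient.mk isoSetoid (K A) with hc
  haveI : Finite G.support := Subtype.finite
  haveI : Finite (G.induce G.support ≃g G.induce G.support) := mo2_finite _
  have hFfin : F.Finite := Set.toFinite F
  set Ff := hFfin.toFinset with hFf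
  have hFm : ∀ A, A ∈ Ff ↔ A ∈ F := fun A => by rw [hFf, Set.Finite.mem_toFinset]
  have hfib : ∀ x ∈ Ff.image c, (Ff.filter fun B => c B = x).card ≤
      Nat.card (G.induce G.support ≃g G.induce G.support) := by
    intro x hx
    obtain ⟨A, hA, rfl⟩ := Finset.mem_image.1 hx
    have hAF := (hFm A).1 hA
    have hex : ∀ B : {B // B ∈ Ff.filter fun B => c B = c A},
        ∃ ψ : G.induce G.support ≃g G.induce G.support,
          ∀ v : G.support, (v : V) ∈ A ↔ (ψ v : V) ∈ B.1 := by
      rintro ⟨B, hB⟩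
      rw [Finset.mem_filter] at hB
      have hBF := (hFm B).1 hB.1
      obtain ⟨e⟩ : Nonempty ((K B).2 ≃g (K A).2) := Quotient.exact hB.2
      obtain ⟨eA⟩ := (hKs A hAF).2
      obtain ⟨eB⟩ := (hKs B hBF).2
      exact recon2 G Y hY A B (hF A hAF).1 (hF B hBF).1 (hF A hAF).2 (hF B hBF).2
        ((eA.symm.trans e.symm).trans eB)
    choose ψ hψ using hex
    have hinj : Function.Injective ψ := by
      rintro ⟨B, hB⟩ ⟨B', hB'⟩ h
      have h1 := hψ ⟨B, hB⟩
      have h2 := hψ ⟨B', hB'⟩
      rw [h] at h1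
      have hBF := (hFm B).1 (Finset.mem_filter.1 hB).1
      have hBF' := (hFm B').1 (Finset.mem_filter.1 hB').1
      apply Subtype.ext
      show B = B'
      ext w
      by_cases hw : w ∈ G.support
      · have h3 := h1 ((ψ ⟨B', hB'⟩).symm ⟨w, hw⟩)
        have h4 := h2 ((ψ ⟨B', hB'⟩).symm ⟨w, hw⟩)
        rw [RelIso.apply_symm_apply] at h3 h4
        exact h3.symm.trans h4
      · constructor
        · intro h5
          exact absurd (hsup ((hF B hBF).1 h5)) hw
        · intro h5
          exact absurd (hsup ((hF B' hBF').1 h5)) hw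
    have := Nat.card_le_card_of_injective ψ hinj
    rwa [Nat.card_eq_fintype_card, Fintype.card_coe] at this
  have h1 := Finset.card_le_mul_card_image Ff _ hfib
  have h2 : F.ncard = Ff.card := Set.ncard_eq_toFinset_card F hFfin
  have h3 := card_aut_le G S hne hS
  set a := Nat.card (G.induce G.support ≃g G.induce G.support) with ha
  have ha1 : 0 < a := by
    haveI : Nonempty (G.induce G.support ≃g G.induce G.support) := ⟨SimpleGraph.Iso.refl⟩
    exact Nat.card_pos
  have h4 : a * k ≤ a * (Ff.image c).card := by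
    calc a * k = k * a := Nat.mul_comm _ _
      _ ≤ k * G.support.ncard ^ S.ncard := Nat.mul_le_mul_left _ h3
      _ ≤ F.ncard := hk
      _ = Ff.card := h2
      _ ≤ _ := h1
  have h5 : k ≤ (Ff.image c).card := Nat.le_of_mul_le_mul_left h4 ha1
  have h6 : ((Ff.image c : Finset _) : Set (Quotient isoSetoid)) ⊆ ObsSet g := by
    intro x hx
    rw [Finset.mem_coe] at hx
    obtain ⟨A, hA, rfl⟩ := Finset.mem_image.1 hx
    exact ⟨K A, (hKs A ((hFm A).1 hA)).1, rfl⟩
  calc (k : ℕ∞) ≤ ((Ff.image c).card : ℕ∞) := by exact_mod_cast h5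
    _ = ((Ff.image c : Finset _) : Set (Quotient isoSetoid)).encard :=
        (Set.encard_coe_eq_coe_finsetCard _).symm
    _ ≤ (ObsSet g).encard := Set.encard_le_encard h6

end Pool.Agent.Helper226_Obs

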