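import Pool.Agent.Helper226_Obs.FP.Defs2
import Pool.Agent.Helper226_Obs.FP.D01
import Pool.Agent.Helper226_Obs.FP.D02
import Pool.Agent.Helper226_Obs.FP.E03
import Pool.Agent.Helper226_Obs.FP.E04

set_option autoImplicit false

namespace Pool.Agent.Helper226_Obs

open SimpleGraph

/-- the values of `pm` -/
theorem tl_inj_pm (n x : ℕ) : (x = 0 → pm n x = 2 * n - 1) ∧ (0 < x → pm n x + 1 = x) := by
  unfold pm
  constructor
  · intro h; simp [h]
  · intro h
    rw [if_neg (by omega)]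
    omega

theorem tl_inj (n a b c a' b' c' : ℕ) (h : Tri3 n a b c) (h' : Tri3 n a' b' c')
    (he : tl n a b c = tl n a' b' c') : a = a' ∧ b = b' ∧ c = c' := by
  obtain ⟨h1, h2, h3, h4, h5⟩ := h
  obtain ⟨k1, k2, k3, k4, k5⟩ := h'
  have ea := tl_inj_pm n a
  have eb := tl_inj_pm n b
  have ec := tl_inj_pm n c
  have ea' := tl_inj_pm n a'
  have eb' := tl_inj_pm n b'
  have ec' := tl_inj_pm n c'
  unfold tl at he
  generalize pm n a = pa at *
  generalize pm n b = pb at *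
  generalize pm n c = pc at *
  generalize pm n a' = pa' at *
  generalize pm n b' = pb' at *
  generalize pm n c' = pc' at *
  have := sgn3 n pa pb pc pa' pb' pc' (by omega) (by omega) (by omega) (by omega) (by omega)
    (by omega) he
  rcases this with h | h | h | h | h | h | h | h | h | h | h | h | h | h | h <;> omega

theorem Y2_sub (n : ℕ) : Y2 n ⊆ T0set n := by
  rintro T ⟨a, b, c, ⟨h1, h2, h3, h4, h5⟩, hT⟩
  exact ⟨a, b, c, by omega, by omega, h3, h5, hT⟩

/-- the values of `gm` used below -/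
theorem host_YSet2_gm (n a b c : ℕ) (h : Tri3 n a b c) :
    gm n a b true = pm n c ∧ gm n a c true = pm n b ∧ gm n b c true = pm n a ∧
    gm n a (pm n c) true = b ∧ gm n b (pm n c) true = a ∧ gm n a (pm n b) true = c ∧
    gm n c (pm n b) true = a ∧ gm n b (pm n a) true = c ∧ gm n c (pm n a) true = b := by
  obtain ⟨h1, h2, h3, h4, h5⟩ := h
  have ea := tl_inj_pm n a
  have eb := tl_inj_pm n b
  have ec := tl_inj_pm n c
  generalize pm n a = pa at *
  generalize pm n b = pb at *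
  generalize pm n c = pc at *
  simp only [gm, if_true]
  refine ⟨?_, ?_, ?_, ?_, ?_, ?_, ?_, ?_, ?_⟩ <;> split_ifs <;> omega

/-- description of a triangle of `Y2` -/
theorem host_YSet2_flag (n : ℕ) (hn : 4 ≤ n) (a b c : ℕ) (h : Tri3 n a b c) :
    tl n a b c = vlab n a b false ∧ tl n a b c = vlab n a c false ∧ tl n a b c = vlab n b c false ∧
    (∀ l m t, l < 2 * n → m < 2 * n → l ≠ m → vlab n l m t = tl n a b c → t = false) ∧
    ∀ w, (mapGraph (vt0 n)).Adj (tl n a b c) w ↔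
        w = vlab n a b true ∨ w = vlab n a c true ∨ w = vlab n b c true := by
  obtain ⟨g1, g2, g3, -⟩ := host_YSet2_gm n a b c h
  have e1 : tl n a b c = vlab n a b false := by
    simp only [tl, vlab, g1]; simp
  have e2 : tl n a b c = vlab n a c false := by
    simp only [tl, vlab, g2]; simp; abel
  have e3 : tl n a b c = vlab n b c false := by
    simp only [tl, vlab, g3]; simp; abel
  have hT : tl n a b c ∈ T0set n := Y2_sub n ⟨a, b, c, h, rfl⟩
  obtain ⟨a', b', c', hab, hbc, hc, hs, -, -, -, hfl, hadj⟩ := T0_flag n (by omega) _ hT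
  obtain ⟨h1, h2, h3, h4, h5⟩ := h
  have f1 := (hfl a b false (by omega) (by omega) (by omega) e1.symm).2
  have f2 := (hfl a c false (by omega) (by omega) (by omega) e2.symm).2
  have f3 := (hfl b c false (by omega) (by omega) (by omega) e3.symm).2
  have q : a' = a ∧ b' = b ∧ c' = c := by omega
  obtain ⟨rfl, rfl, rfl⟩ := q
  exact ⟨e1, e2, e3, fun l m t hl hm hlm he => (hfl l m t hl hm hlm he).1, hadj⟩

/-- the labels of the neighbours -/
theorem host_YSet2_lab (n : ℕ) (a b c : ℕ) (h : Tri3 n a b c) :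
    vlab n a b true = sgn n a + sgn n b + sgn n (pm n c) ∧
    vlab n a c true = sgn n a + sgn n c + sgn n (pm n b) ∧
    vlab n b c true = sgn n b + sgn n c + sgn n (pm n a) ∧
    vlab n a (pm n c) false = sgn n (pm n a) + sgn n (pm n (pm n c)) + sgn n b ∧
    vlab n b (pm n c) false = sgn n (pm n b) + sgn n (pm n (pm n c)) + sgn n a ∧
    vlab n a (pm n b) false = sgn n (pm n a) + sgn n (pm n (pm n b)) + sgn n c ∧
    vlab n c (pm n b) false = sgn n (pm n c) + sgn n (pm n (pm n b)) + sgn n a ∧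
    vlab n b (pm n a) false = sgn n (pm n b) + sgn n (pm n (pm n a)) + sgn n c ∧
    vlab n c (pm n a) false = sgn n (pm n c) + sgn n (pm n (pm n a)) + sgn n b := by
  obtain ⟨g1, g2, g3, g4, g5, g6, g7, g8, g9⟩ := host_YSet2_gm n a b c h
  simp only [vlab, g1, g2, g3, g4, g5, g6, g7, g8, g9]
  simp

/-- different labels -/
theorem host_YSet2_ne (n : ℕ) (x y z x' y' z' : ℕ) (hx : x < 2 * n) (hy : y < 2 * n)
    (hz : z < 2 * n) (hx' : x' < 2 * n) (hy' : y' < 2 * n) (hz' : z' < 2 * n)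
    (h1 : x ≠ y) (h2 : x ≠ z) (h3 : y ≠ z)
    (h : (x ≠ x' ∧ x ≠ y' ∧ x ≠ z') ∨ (y ≠ x' ∧ y ≠ y' ∧ y ≠ z') ∨ (z ≠ x' ∧ z ≠ y' ∧ z ≠ z')) :
    sgn n x + sgn n y + sgn n z ≠ sgn n x' + sgn n y' + sgn n z' := by
  intro he
  have := sgn3 n x y z x' y' z' hx hy hz hx' hy' hz' he
  omega

/-- neighbours of the neighbours, one case -/
theorem host_YSet2_two (n : ℕ) (hn : 4 ≤ n) (l m p : ℕ) (hl : l < 2 * n) (hm : m < 2 * n)
    (hlm : l ≠ m) (hg : gm n l m true = p) (hp1 : p ≠ l) (hp2 : p ≠ m) (w : Lab (2 * n))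
    (h : (mapGraph (vt0 n)).Adj w (vlab n l m true)) :
    w = vlab n l m false ∨ w = vlab n l p false ∨ w = vlab n m p false := by
  have h1 := (nbrs n l m true (by omega) hl hm hlm (by rw [hg]; exact hp1)
    (by rw [hg]; exact hp2) w).1 h.symm
  rw [hg] at h1
  exact h1

/-- the neighbours of a triangle of `Y2` are not degenerate -/
theorem host_YSet2_nb (n : ℕ) (hn : 4 ≤ n) (T x : Lab (2 * n)) (hT : T ∈ Y2 n)
    (h : (mapGraph (vt0 n)).Adj T x) : ∃ l m, l < 2 * n ∧ m < 2 * n ∧ l ≠ m ∧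
      gm n l m true ≠ l ∧ gm n l m true ≠ m ∧ x = vlab n l m true := by
  obtain ⟨a, b, c, ht, rfl⟩ := hT
  obtain ⟨-, -, -, -, hadj⟩ := host_YSet2_flag n hn a b c ht
  obtain ⟨g1, g2, g3, -⟩ := host_YSet2_gm n a b c ht
  have ea := tl_inj_pm n a
  have eb := tl_inj_pm n b
  have ec := tl_inj_pm n c
  obtain ⟨h1, h2, h3, h4, h5⟩ := ht
  rcases (hadj x).1 h with hx | hx | hx
  · refine ⟨a, b, by omega, by omega, by omega, ?_, ?_, hx⟩
    · rw [g1]; omega
    · rw [g1]; omega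
  · refine ⟨a, c, by omega, by omega, by omega, ?_, ?_, hx⟩
    · rw [g2]; omega
    · rw [g2]; omega
  · refine ⟨b, c, by omega, by omega, by omega, ?_, ?_, hx⟩
    · rw [g3]; omega
    · rw [g3]; omega

/-- a triangle of `Y2` and another vertex have at most one common neighbour -/
theorem host_YSet2_c4 (n : ℕ) (hn : 4 ≤ n) (T T' x y : Lab (2 * n)) (hT : T ∈ Y2 n) (hne : T' ≠ T)
    (hx : (mapGraph (vt0 n)).Adj T x) (hy : (mapGraph (vt0 n)).Adj T y)
    (hx' : (mapGraph (vt0 n)).Adj T' x) (hy' : (mapGraph (vt0 n)).Adj T' y) : x = y := by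
  obtain ⟨a, b, c, ht, rfl⟩ := hT
  obtain ⟨e1, e2, e3, -, hadj⟩ := host_YSet2_flag n hn a b c ht
  obtain ⟨g1, g2, g3, -⟩ := host_YSet2_gm n a b c ht
  obtain ⟨-, -, -, l1, l2, l3, l4, l5, l6⟩ := host_YSet2_lab n a b c ht
  have ea := tl_inj_pm n a
  have eb := tl_inj_pm n b
  have ec := tl_inj_pm n c
  have eaa := tl_inj_pm n (pm n a)
  have ebb := tl_inj_pm n (pm n b)
  have ecc := tl_inj_pm n (pm n c)
  obtain ⟨h1, h2, h3, h4, h5⟩ := ht
  have k1 : (mapGraph (vt0 n)).Adj T' (vlab n a b true) →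
      T' = sgn n (pm n a) + sgn n (pm n (pm n c)) + sgn n b ∨
      T' = sgn n (pm n b) + sgn n (pm n (pm n c)) + sgn n a := by
    intro h
    rcases host_YSet2_two n hn a b (pm n c) (by omega) (by omega) (by omega) g1 (by omega)
      (by omega) T' h with h | h | h
    · exact absurd (h.trans e1.symm) hne
    · left; rw [h, l1]
    · right; rw [h, l2]
  have k2 : (mapGraph (vt0 n)).Adj T' (vlab n a c true) →
      T' = sgn n (pm n a) + sgn n (pm n (pm n b)) + sgn n c ∨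
      T' = sgn n (pm n c) + sgn n (pm n (pm n b)) + sgn n a := by
    intro h
    rcases host_YSet2_two n hn a c (pm n b) (by omega) (by omega) (by omega) g2 (by omega)
      (by omega) T' h with h | h | h
    · exact absurd (h.trans e2.symm) hne
    · left; rw [h, l3]
    · right; rw [h, l4]
  have k3 : (mapGraph (vt0 n)).Adj T' (vlab n b c true) →
      T' = sgn n (pm n b) + sgn n (pm n (pm n a)) + sgn n c ∨
      T' = sgn n (pm n c) + sgn n (pm n (pm n a)) + sgn n b := by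
    intro h
    rcases host_YSet2_two n hn b c (pm n a) (by omega) (by omega) (by omega) g3 (by omega)
      (by omega) T' h with h | h | h
    · exact absurd (h.trans e3.symm) hne
    · left; rw [h, l5]
    · right; rw [h, l6]
  clear l1 l2 l3 l4 l5 l6 g1 g2 g3 e1 e2 e3
  generalize pm n (pm n a) = ppa at *
  generalize pm n (pm n b) = ppb at *
  generalize pm n (pm n c) = ppc at *
  generalize pm n a = pa at *
  generalize pm n b = pb at *
  generalize pm n c = pc at *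
  have c12 : (mapGraph (vt0 n)).Adj T' (vlab n a b true) →
      (mapGraph (vt0 n)).Adj T' (vlab n a c true) → False := by
    intro u v
    rcases k1 u with u | u <;> rcases k2 v with v | v <;> rw [u] at v <;>
      refine host_YSet2_ne n _ _ _ _ _ _ ?_ ?_ ?_ ?_ ?_ ?_ ?_ ?_ ?_ ?_ v <;> omega
  have c13 : (mapGraph (vt0 n)).Adj T' (vlab n a b true) →
      (mapGraph (vt0 n)).Adj T' (vlab n b c true) → False := by
    intro u v
    rcases k1 u with u | u <;> rcases k3 v with v | v <;> rw [u] at v <;>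
      refine host_YSet2_ne n _ _ _ _ _ _ ?_ ?_ ?_ ?_ ?_ ?_ ?_ ?_ ?_ ?_ v <;> omega
  have c23 : (mapGraph (vt0 n)).Adj T' (vlab n a c true) →
      (mapGraph (vt0 n)).Adj T' (vlab n b c true) → False := by
    intro u v
    rcases k2 u with u | u <;> rcases k3 v with v | v <;> rw [u] at v <;>
      refine host_YSet2_ne n _ _ _ _ _ _ ?_ ?_ ?_ ?_ ?_ ?_ ?_ ?_ ?_ ?_ v <;> omega
  rcases (hadj x).1 hx with rfl | rfl | rfl <;> rcases (hadj y).1 hy with rfl | rfl | rfl
  · rfl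
  · exact (c12 hx' hy').elim
  · exact (c13 hx' hy').elim
  · exact (c12 hy' hx').elim
  · rfl
  · exact (c23 hx' hy').elim
  · exact (c13 hy' hx').elim
  · exact (c23 hy' hx').elim
  · rfl

theorem host_YSet2 (n : ℕ) (hn : 4 ≤ n) : YSet2 (mapGraph (vt0 n)) (Y2 n) := by
  refine ⟨?_, ?_, ?_, ?_, ?_⟩
  · rintro T ⟨a, b, c, ht, rfl⟩
    obtain ⟨-, -, -, -, hadj⟩ := host_YSet2_flag n hn a b c ht
    obtain ⟨l1, l2, l3, -⟩ := host_YSet2_lab n a b c ht
    have ea := tl_inj_pm n a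
    have eb := tl_inj_pm n b
    have ec := tl_inj_pm n c
    obtain ⟨h1, h2, h3, h4, h5⟩ := ht
    rw [Set.ncard_eq_three]
    refine ⟨vlab n a b true, vlab n a c true, vlab n b c true, ?_, ?_, ?_, ?_⟩
    · rw [l1, l2]
      apply host_YSet2_ne <;> omega
    · rw [l1, l3]
      apply host_YSet2_ne <;> omega
    · rw [l2, l3]
      apply host_YSet2_ne <;> omega
    · ext w
      rw [SimpleGraph.mem_neighborSet, hadj]
      simp
  · intro u v w h h'
    exact host_tri n hn u v w h h'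
  · intro T hT T' x y hne hx hy hx' hy'
    exact host_YSet2_c4 n hn T T' x y hT hne hx hy hx' hy'
  · intro T hT T' hT' h
    obtain ⟨l, m, hl, hm, hlm, -, -, hx⟩ := host_YSet2_nb n hn T T' hT h
    obtain ⟨a, b, c, ht, rfl⟩ := hT'
    obtain ⟨-, -, -, hfl, -⟩ := host_YSet2_flag n hn a b c ht
    exact absurd (hfl l m true hl hm hlm hx.symm) (by simp)
  · intro T hT T' hT' x z hx hz hxz
    obtain ⟨l, m, hl, hm, hlm, hg1, hg2, rfl⟩ := host_YSet2_nb n hn T x hT hx
    obtain ⟨l', m', hl', hm', hlm', hg1', hg2', rfl⟩ := host_YSet2_nb n hn T' z hT' hz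
    obtain ⟨l₂, m₂, t, hl₂, hm₂, hlm₂, e1, e2⟩ := (host_adj n (by omega) _ _).1 hxz
    have f1 := (vlab_nondeg n l m l₂ m₂ true t (by omega) hl hm hl₂ hm₂ hlm hlm₂ hg1 hg2 e1).1
    have f2 := (vlab_nondeg n l' m' l₂ m₂ true (!t) (by omega) hl' hm' hl₂ hm₂ hlm' hlm₂ hg1' hg2'
      e2).1
    rw [f1] at f2
    simp at f2

/-- lower bound for the sum -/
theorem Y2_card_sum (n K : ℕ) (hK : 3 * K ≤ 2 * n - 4) (hn : 4 ≤ n) :
    4 * n * K ≤ 4 * ∑ a ∈ Finset.range K, (2 * n - 7 - 3 * a) / 2 + 3 * (K * K) + 13 * K := by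
  induction K with
  | zero => simp
  | succ K ih =>
    have ih' := ih (by omega)
    rw [Finset.sum_range_succ]
    have h1 : 2 * n - 8 - 3 * K ≤ 2 * ((2 * n - 7 - 3 * K) / 2) := by omega
    have h2 : 4 * n ≤ 4 * ((2 * n - 7 - 3 * K) / 2) + 6 * K + 16 := by omega
    have h3 : (K + 1) * (K + 1) = K * K + 2 * K + 1 := by ring
    have h4 : 4 * n * (K + 1) = 4 * n * K + 4 * n := by ring
    rw [h3, h4]
    omega

/-- the two families of triples -/
def Y2_card_f (n : ℕ) (p : Bool × ℕ × ℕ) : ℕ × ℕ × ℕ :=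
  if p.1 then (p.2.1, p.2.1 + 3 + p.2.2, 2 * n - 2 * p.2.1 - 3 - p.2.2)
  else (2 * (p.2.1 + 1) + 3 + p.2.2, 2 * n - (p.2.1 + 1) - 3 - p.2.2, 2 * n - (p.2.1 + 1))

/-- the index set of the two families -/
def Y2_card_I (n K : ℕ) : Finset (Bool × ℕ × ℕ) :=
  ((Finset.range K).sigma fun a => Finset.range ((2 * n - 7 - 3 * a) / 2)).image
      (fun p => (true, p.1, p.2)) ∪
  ((Finset.range K).sigma fun a => Finset.range ((2 * n - 7 - 3 * (a + 1)) / 2)).image
      (fun p => (false, p.1, p.2))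

theorem Y2_card_I_card (n K : ℕ) : (Y2_card_I n K).card =
    ∑ a ∈ Finset.range K, (2 * n - 7 - 3 * a) / 2 +
      ∑ a ∈ Finset.range K, (2 * n - 7 - 3 * (a + 1)) / 2 := by
  unfold Y2_card_I
  rw [Finset.card_union_of_disjoint, Finset.card_image_of_injective, Finset.card_image_of_injective,
    Finset.card_sigma, Finset.card_sigma]
  · simp
  · rintro ⟨a, b⟩ ⟨c, d⟩ h
    simp only [Prod.mk.injEq, true_and] at h
    obtain ⟨rfl, rfl⟩ := h
    rfl
  · rintro ⟨a, b⟩ ⟨c, d⟩ h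
    simp only [Prod.mk.injEq, true_and] at h
    obtain ⟨rfl, rfl⟩ := h
    rfl
  · rw [Finset.disjoint_left]
    intro x hx hx'
    obtain ⟨p, -, hp⟩ := Finset.mem_image.1 hx
    obtain ⟨q, -, hq⟩ := Finset.mem_image.1 hx'
    rw [← hp] at hq
    simp at hq

theorem Y2_card_I_mem {n K : ℕ} {p : Bool × ℕ × ℕ} (hp : p ∈ Y2_card_I n K) :
    (p.1 = true ∧ 3 * p.2.1 + 2 * p.2.2 + 9 ≤ 2 * n) ∨
    (p.1 = false ∧ 3 * (p.2.1 + 1) + 2 * p.2.2 + 9 ≤ 2 * n) := by
  unfold Y2_card_I at hp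
  rw [Finset.mem_union] at hp
  rcases hp with hp | hp
  · obtain ⟨⟨a, i⟩, h, rfl⟩ := Finset.mem_image.1 hp
    rw [Finset.mem_sigma, Finset.mem_range, Finset.mem_range] at h
    left
    refine ⟨rfl, ?_⟩
    have := h.2
    simp only at this ⊢
    omega
  · obtain ⟨⟨a, i⟩, h, rfl⟩ := Finset.mem_image.1 hp
    rw [Finset.mem_sigma, Finset.mem_range, Finset.mem_range] at h
    right
    refine ⟨rfl, ?_⟩
    have := h.2
    simp only at this ⊢
    omega

theorem Y2_card_tri {n K : ℕ} {p : Bool × ℕ × ℕ} (hp : p ∈ Y2_card_I n K) :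
    Tri3 n (Y2_card_f n p).1 (Y2_card_f n p).2.1 (Y2_card_f n p).2.2 ∧
    (p.1 = true → (Y2_card_f n p).1 + (Y2_card_f n p).2.1 + (Y2_card_f n p).2.2 = 2 * n) ∧
    (p.1 = false → (Y2_card_f n p).1 + (Y2_card_f n p).2.1 + (Y2_card_f n p).2.2 = 4 * n) := by
  obtain ⟨t, a, i⟩ := p
  have h := Y2_card_I_mem hp
  unfold Y2_card_f Tri3
  cases t
  · simp only [Bool.false_eq_true, if_false, false_and, false_or, true_and] at h ⊢
    refine ⟨⟨?_, ?_, ?_, ?_, ?_⟩, fun h => h.elim, fun _ => ?_⟩ <;> omega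
  · simp only [if_true, true_and] at h ⊢
    have h' : 3 * a + 2 * i + 9 ≤ 2 * n := by
      rcases h with h | h
      · exact h
      · exact absurd h.1 (by simp)
    refine ⟨⟨?_, ?_, ?_, ?_, ?_⟩, fun _ => ?_, fun h => absurd h (by simp)⟩ <;> omega

theorem Y2_card_inj {n K : ℕ} : Set.InjOn (Y2_card_f n) (Y2_card_I n K) := by
  rintro ⟨t, a, i⟩ hp ⟨t', a', i'⟩ hp' he
  have h := Y2_card_I_mem hp
  have h' := Y2_card_I_mem hp'
  unfold Y2_card_f at he
  cases t <;> cases t' <;> simp at h h' he ⊢ <;> omega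

theorem Y2_card_fin (n : ℕ) : (Y2 n).Finite := by
  have h : (Y2 n) ⊆ (fun p : ℕ × ℕ × ℕ => tl n p.1 p.2.1 p.2.2) ''
      (((Finset.range (2 * n)) ×ˢ ((Finset.range (2 * n)) ×ˢ (Finset.range (2 * n))) :
        Finset (ℕ × ℕ × ℕ)) : Set (ℕ × ℕ × ℕ)) := by
    rintro T ⟨a, b, c, ⟨h1, h2, h3, h4, h5⟩, rfl⟩
    refine ⟨(a, b, c), ?_, rfl⟩
    simp only [Finset.coe_product, Set.mem_prod, Finset.mem_coe, Finset.mem_range]
    omega
  exact Set.Finite.subset ((Finset.finite_toSet _).image _) h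

theorem Y2_card_low (n K : ℕ) : (Y2_card_I n K).card ≤ (Y2 n).ncard := by
  classical
  have h1 : Set.InjOn (fun p : Bool × ℕ × ℕ => tl n (Y2_card_f n p).1 (Y2_card_f n p).2.1
      (Y2_card_f n p).2.2) (Y2_card_I n K) := by
    intro p hp p' hp' he
    obtain ⟨e1, e2, e3⟩ := tl_inj n _ _ _ _ _ _ (Y2_card_tri hp).1 (Y2_card_tri hp').1 he
    exact Y2_card_inj hp hp' (Prod.ext e1 (Prod.ext e2 e3))
  have h2 : ((Y2_card_I n K : Set (Bool × ℕ × ℕ)).image fun p => tl n (Y2_card_f n p).1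
      (Y2_card_f n p).2.1 (Y2_card_f n p).2.2) ⊆ Y2 n := by
    rintro T ⟨p, hp, rfl⟩
    exact ⟨_, _, _, (Y2_card_tri hp).1, rfl⟩
  have h3 := Set.ncard_le_ncard h2 (Y2_card_fin n)
  rw [h1.ncard_image, Set.ncard_coe_finset] at h3
  exact h3

theorem Y2_card (n : ℕ) : 2 * n * n ≤ 3 * (Y2 n).ncard + 20 * n := by
  by_cases hn : n ≤ 10
  · nlinarith
  · obtain ⟨K, hK1, hK2⟩ : ∃ K, 3 * K ≤ 2 * n - 7 ∧ 2 * n - 9 ≤ 3 * K := ⟨(2 * n - 7) / 3, by omega, by omega⟩
    have h1 := Y2_card_low n K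
    rw [Y2_card_I_card] at h1
    have h2 := Y2_card_sum n K (by omega) (by omega)
    have h3 : ∑ a ∈ Finset.range (K + 1), (2 * n - 7 - 3 * a) / 2 =
        ∑ a ∈ Finset.range K, (2 * n - 7 - 3 * (a + 1)) / 2 + (2 * n - 7) / 2 := by
      rw [Finset.sum_range_succ']
      simp
    rw [Finset.sum_range_succ] at h3
    generalize ∑ a ∈ Finset.range K, (2 * n - 7 - 3 * (a + 1)) / 2 = S2 at *
    generalize ∑ a ∈ Finset.range K, (2 * n - 7 - 3 * a) / 2 = S1 at *
    have h4 : S1 ≤ S2 + (n - 4) := by omega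
    have h5 : 2 * S1 ≤ (Y2 n).ncard + (n - 4) := by omega
    obtain ⟨m, rfl⟩ : ∃ m, n = m + 11 := ⟨n - 11, by omega⟩
    generalize (Y2 (m + 11)).ncard = Y at *
    obtain ⟨δ, hδ, hδ'⟩ : ∃ δ, 3 * K = 2 * m + 13 + δ ∧ δ ≤ 2 := ⟨3 * K - (2 * m + 13), by omega, by omega⟩
    have h6 : 2 * S1 ≤ Y + (m + 7) := by omega
    have h7 : 9 * (K * K) = (2 * m + 13 + δ) * (2 * m + 13 + δ) := by rw [← hδ]; ring
    have h8 : 12 * (m + 11) * (3 * K) ≤ 36 * S1 + 9 * (K * K) * 3 + 39 * (3 * K) := by nlinarith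
    rw [h7, hδ] at h8
    nlinarith

end Pool.Agent.Helper226_Obs
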