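import Pool.Agent.Helper226_Obs.FP.Defs

set_option autoImplicit false

namespace Pool.Agent.Helper226_Obs

open SimpleGraph

open scoped Classical in
/-- the subsets of `Y` which contain no `Hx T` with `T ∈ S` -/
noncomputable def avoid_F {X : Type} (Y : Finset X) (Hx : X → Finset X) (S : Finset X) :
    Finset (Finset Y) :=
  Finset.univ.filter fun A => ∀ T ∈ S, ¬ Hx T ⊆ A.map (Function.Embedding.subtype _)

theorem avoid_mem {X : Type} (Y : Finset X) (Hx : X → Finset X) (S : Finset X) (A : Finset Y) :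
    A ∈ avoid_F Y Hx S ↔ ∀ T ∈ S, ¬ Hx T ⊆ A.map (Function.Embedding.subtype _) := by
  simp [avoid_F]

theorem avoid_lower {X : Type} (Y : Finset X) (Hx : X → Finset X) (S : Finset X) :
    IsLowerSet (avoid_F Y Hx S : Set (Finset Y)) := by
  intro A B hBA hA
  rw [Finset.mem_coe, avoid_mem] at hA ⊢
  intro T hT h
  exact hA T hT (h.trans (Finset.map_subset_map.2 hBA))

theorem avoid_one {X : Type} (Y : Finset X) (Hx : X → Finset X) (T : X) (h3 : 3 ≤ (Hx T).card) :
    7 * 2 ^ Y.card ≤ 8 * (avoid_F Y Hx {T}).card := by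
  classical
  have hu : (Finset.univ : Finset (Finset Y)).card = 2 ^ Y.card := by
    rw [Finset.card_univ, Fintype.card_finset, Fintype.card_coe]
  by_cases hY : Hx T ⊆ Y
  · let H' : Finset Y := (Hx T).subtype (· ∈ Y)
    have hH' : H'.card = (Hx T).card := by
      rw [Finset.card_subtype, Finset.filter_true_of_mem hY]
    have hsub : ∀ A : Finset Y, Hx T ⊆ A.map (Function.Embedding.subtype _) ↔ H' ⊆ A := by
      intro A
      constructor
      · intro h x hx
        have h1 : (x : X) ∈ Hx T := by simpa [H'] using hx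
        have h2 := h h1
        rw [Finset.mem_map] at h2
        obtain ⟨y, hy, hxy⟩ := h2
        have h3 : y = x := Subtype.ext hxy
        exact h3 ▸ hy
      · intro h x hx
        rw [Finset.mem_map]
        refine ⟨⟨x, hY hx⟩, h ?_, rfl⟩
        simpa [H'] using hx
    have hc : (avoid_F Y Hx {T})ᶜ = Finset.Icc H' Finset.univ := by
      ext A
      rw [Finset.mem_compl, avoid_mem, Finset.mem_Icc]
      simp only [Finset.mem_singleton, forall_eq, not_not, hsub]
      exact ⟨fun h => ⟨h, Finset.subset_univ _⟩, fun h => h.1⟩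
    have h1 : (avoid_F Y Hx {T})ᶜ.card = 2 ^ (Y.card - (Hx T).card) := by
      rw [hc, Finset.card_Icc_finset (Finset.subset_univ _), hH', Finset.card_univ,
        Fintype.card_coe]
    have h2 : (avoid_F Y Hx {T}).card + (avoid_F Y Hx {T})ᶜ.card = 2 ^ Y.card := by
      rw [Finset.card_add_card_compl, Fintype.card_finset, Fintype.card_coe]
    have h3' : (Hx T).card ≤ Y.card := Finset.card_le_card hY
    have h4 : 8 * 2 ^ (Y.card - (Hx T).card) ≤ 2 ^ Y.card := by
      calc 8 * 2 ^ (Y.card - (Hx T).card) = 2 ^ (3 + (Y.card - (Hx T).card)) := by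
            rw [pow_add]; norm_num
        _ ≤ 2 ^ Y.card := Nat.pow_le_pow_right (by norm_num) (by omega)
    omega
  · have hall : avoid_F Y Hx {T} = Finset.univ := by
      ext A
      rw [avoid_mem]
      simp only [Finset.mem_singleton, forall_eq, Finset.mem_univ, iff_true]
      intro h
      apply hY
      intro x hx
      have h2 := h hx
      rw [Finset.mem_map] at h2
      obtain ⟨y, _, hxy⟩ := h2
      rw [← hxy]
      exact y.2
    rw [hall, hu]
    exact Nat.mul_le_mul_right _ (by norm_num)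

theorem avoid_ind {X : Type} (Y : Finset X) (Hx : X → Finset X) (S : Finset X)
    (h3 : ∀ T ∈ S, 3 ≤ (Hx T).card) :
    7 ^ S.card * 2 ^ Y.card ≤ 8 ^ S.card * (avoid_F Y Hx S).card := by
  classical
  induction S using Finset.induction_on with
  | empty =>
    have : avoid_F Y Hx ∅ = Finset.univ := by
      ext A
      simp [avoid_mem]
    rw [this, Finset.card_univ, Fintype.card_finset, Fintype.card_coe]
    simp
  | insert T S hT ih =>
    have ih' := ih fun T' hT' => h3 T' (Finset.mem_insert_of_mem hT')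
    have h1 := avoid_one Y Hx T (h3 T (Finset.mem_insert_self _ _))
    have hint : avoid_F Y Hx (insert T S) = avoid_F Y Hx {T} ∩ avoid_F Y Hx S := by
      ext A
      rw [Finset.mem_inter, avoid_mem, avoid_mem, avoid_mem]
      simp [Finset.forall_mem_insert]
    have hK := (avoid_lower Y Hx {T}).le_card_inter_finset (avoid_lower Y Hx S)
    rw [Fintype.card_coe] at hK
    rw [hint, Finset.card_insert_of_notMem hT]
    have hp : 0 < 2 ^ Y.card := by positivity
    apply Nat.le_of_mul_le_mul_left _ hp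
    calc 2 ^ Y.card * (7 ^ (S.card + 1) * 2 ^ Y.card)
        = (7 * 2 ^ Y.card) * (7 ^ S.card * 2 ^ Y.card) := by ring
      _ ≤ (8 * (avoid_F Y Hx {T}).card) * (8 ^ S.card * (avoid_F Y Hx S).card) :=
          Nat.mul_le_mul h1 ih'
      _ = 8 ^ (S.card + 1) * ((avoid_F Y Hx {T}).card * (avoid_F Y Hx S).card) := by ring
      _ ≤ 8 ^ (S.card + 1) * (2 ^ Y.card * (avoid_F Y Hx {T} ∩ avoid_F Y Hx S).card) :=
          Nat.mul_le_mul_left _ hK
      _ = 2 ^ Y.card * (8 ^ (S.card + 1) * (avoid_F Y Hx {T} ∩ avoid_F Y Hx S).card) := by ring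

theorem avoid_count {X : Type} [DecidableEq X] (Y : Finset X) (Hx : X → Finset X)
    (h3 : ∀ T ∈ Y, 3 ≤ (Hx T).card) :
    7 ^ Y.card ≤ 4 ^ Y.card * (Y.powerset.filter (fun A => ∀ T ∈ Y, ¬ Hx T ⊆ A)).card := by
  have h1 := avoid_ind Y Hx Y h3
  have h2 : (avoid_F Y Hx Y).card ≤
      (Y.powerset.filter (fun A => ∀ T ∈ Y, ¬ Hx T ⊆ A)).card := by
    refine Finset.card_le_card_of_injOn
      (fun A : Finset Y => A.map (Function.Embedding.subtype _)) ?_ ?_
    · intro A hA
      rw [Finset.mem_coe, avoid_mem] at hA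
      rw [Finset.mem_coe, Finset.mem_filter, Finset.mem_powerset]
      refine ⟨?_, hA⟩
      intro x hx
      rw [Finset.mem_map] at hx
      obtain ⟨y, _, hxy⟩ := hx
      rw [← hxy]
      exact y.2
    · intro A _ B _ hAB
      exact Finset.map_injective _ hAB
  have hp : 0 < 2 ^ Y.card := by positivity
  apply Nat.le_of_mul_le_mul_left _ hp
  calc 2 ^ Y.card * 7 ^ Y.card = 7 ^ Y.card * 2 ^ Y.card := by ring
    _ ≤ 8 ^ Y.card * (avoid_F Y Hx Y).card := h1
    _ ≤ 8 ^ Y.card * (Y.powerset.filter (fun A => ∀ T ∈ Y, ¬ Hx T ⊆ A)).card :=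
        Nat.mul_le_mul_left _ h2
    _ = 2 ^ Y.card * (4 ^ Y.card *
        (Y.powerset.filter (fun A => ∀ T ∈ Y, ¬ Hx T ⊆ A)).card) := by
        rw [← mul_assoc, ← mul_pow]
        norm_num

end Pool.Agent.Helper226_Obs
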