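import Pool.Agent.Helper226_Obs.FP.G04

set_option autoImplicit false

namespace Pool.Agent.Helper226_Obs

open SimpleGraph

/-- Adding one modulo `2 * n`. -/
def smm (n m : ℕ) : ℕ := if m + 1 = 2 * n then 0 else m + 1

/-- Cyclic gap at least three. -/
def G3 (n x y : ℕ) : Prop :=
  (x + 3 ≤ y ∧ y + 3 ≤ x + 2 * n) ∨ (y + 3 ≤ x ∧ x + 3 ≤ y + 2 * n)

/-- Three lines with cyclic gaps at least three, in some order. -/
def Tq (n p q s : ℕ) : Prop :=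
  p < 2 * n ∧ q < 2 * n ∧ s < 2 * n ∧ (p + q + s = 2 * n ∨ p + q + s = 4 * n) ∧
    G3 n p q ∧ G3 n q s ∧ G3 n p s

theorem G3.symm' {n x y : ℕ} (h : G3 n x y) : G3 n y x := Or.symm h

theorem G3.ne {n x y : ℕ} (h : G3 n x y) : x ≠ y := by
  rcases h with h | h <;> omega

theorem Tq.c1 {n p q s : ℕ} (h : Tq n p q s) : Tq n q p s := by
  obtain ⟨h1, h2, h3, h4, h5, h6, h7⟩ := h
  refine ⟨h2, h1, h3, ?_, h5.symm', h7, h6⟩
  rcases h4 with h | h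
  · left; omega
  · right; omega

theorem Tq.c2 {n p q s : ℕ} (h : Tq n p q s) : Tq n p s q := by
  obtain ⟨h1, h2, h3, h4, h5, h6, h7⟩ := h
  refine ⟨h1, h3, h2, ?_, h7, h6.symm', h5⟩
  rcases h4 with h | h
  · left; omega
  · right; omega

theorem tl_c1 (n p q s : ℕ) : tl n p q s = tl n q p s := by
  unfold tl
  abel

theorem tl_c2 (n p q s : ℕ) : tl n p q s = tl n p s q := by
  unfold tl
  abel

theorem hh_pm_cases (n x : ℕ) : (x = 0 ∧ pm n x = 2 * n - 1) ∨ (0 < x ∧ pm n x + 1 = x) := by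
  unfold pm
  split_ifs <;> omega

theorem hh_sm_cases (n x : ℕ) :
    (x + 1 = 2 * n ∧ smm n x = 0) ∨ (x + 1 ≠ 2 * n ∧ smm n x = x + 1) := by
  unfold smm
  split_ifs <;> omega

theorem hh_pm_sm {n x : ℕ} (hx : x < 2 * n) : pm n (smm n x) = x := by
  have h1 := hh_sm_cases n x
  have h2 := hh_pm_cases n (smm n x)
  omega

theorem hh_pm_lt {n x : ℕ} (hx : x < 2 * n) : pm n x < 2 * n := by
  have h2 := hh_pm_cases n x
  omega

theorem hh_sm_lt {n x : ℕ} (hx : x < 2 * n) : smm n x < 2 * n := by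
  have h2 := hh_sm_cases n x
  omega

theorem hh_pm_inj {n x y : ℕ} (hx : x < 2 * n) (hy : y < 2 * n) (h : pm n x = pm n y) :
    x = y := by
  have h1 := hh_pm_cases n x
  have h2 := hh_pm_cases n y
  omega

theorem G3.ne_pm {n x y : ℕ} (h : G3 n x y) (hx : x < 2 * n) (hy : y < 2 * n) :
    x ≠ pm n y := by
  have h2 := hh_pm_cases n y
  rcases h with h | h <;> omega

theorem hh_gmT {n p q s : ℕ} (h : Tq n p q s) : gm n p q true = pm n s := by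
  have h2 := hh_pm_cases n s
  obtain ⟨h3, h4, h5, h6, -⟩ := h
  unfold gm
  rw [if_pos rfl]
  split_ifs <;> omega

theorem hh_gmF {n p q s : ℕ} (h : Tq n p q s) : gm n p q false = s := by
  obtain ⟨h3, h4, h5, h6, -⟩ := h
  unfold gm
  rw [if_neg (by decide)]
  split_ifs <;> omega

theorem hh_vF {n p q s : ℕ} (h : Tq n p q s) : vlab n p q false = tl n p q s := by
  unfold vlab tl
  rw [if_neg (by decide), hh_gmT h]

theorem hh_vT {n p q s : ℕ} (h : Tq n p q s) :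
    vlab n p q true = sgn n p + sgn n q + sgn n (pm n s) := by
  unfold vlab
  rw [if_pos rfl, hh_gmT h]

/-- only permutations, for three different entries -/
theorem sgn3' (n x y z x' y' z' : ℕ) (hx : x < 2 * n) (hy : y < 2 * n) (hz : z < 2 * n)
    (hx' : x' < 2 * n) (hy' : y' < 2 * n) (hz' : z' < 2 * n) (h1 : x ≠ y) (h2 : y ≠ z)
    (h3 : x ≠ z) (h : sgn n x + sgn n y + sgn n z = sgn n x' + sgn n y' + sgn n z') :
    (x = x' ∧ y = y' ∧ z = z') ∨ (x = x' ∧ y = z' ∧ z = y') ∨ (x = y' ∧ y = x' ∧ z = z') ∨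
    (x = y' ∧ y = z' ∧ z = x') ∨ (x = z' ∧ y = x' ∧ z = y') ∨ (x = z' ∧ y = y' ∧ z = x') := by
  have := sgn3 n x y z x' y' z' hx hy hz hx' hy' hz' h
  rcases this with h | h | h | h | h | h | h | h | h | h | h | h | h | h | h
  · exact Or.inl h
  · exact Or.inr (Or.inl h)
  · exact Or.inr (Or.inr (Or.inl h))
  · exact Or.inr (Or.inr (Or.inr (Or.inl h)))
  · exact Or.inr (Or.inr (Or.inr (Or.inr (Or.inl h))))
  · exact Or.inr (Or.inr (Or.inr (Or.inr (Or.inr h))))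
  · exact absurd h.1 h1
  · exact absurd h.1 h1
  · exact absurd h.1 h1
  · exact absurd h.1 h3
  · exact absurd h.1 h3
  · exact absurd h.1 h3
  · exact absurd h.1 h2
  · exact absurd h.1 h2
  · exact absurd h.1 h2

theorem hh_Y2 {n : ℕ} {T : Lab (2 * n)} (hT : T ∈ Y2 n) :
    ∃ p q s, Tq n p q s ∧ T = tl n p q s := by
  obtain ⟨a, b, c, h, rfl⟩ := hT
  obtain ⟨h1, h2, h3, h4, h5⟩ := h
  refine ⟨a, b, c, ⟨by omega, by omega, by omega, h5, ?_, ?_, ?_⟩, rfl⟩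
  · left; clear h5; omega
  · left; clear h5; omega
  · left; clear h5; omega

theorem hh_Tq {n p q s : ℕ} (hp : p < 2 * n) (hq : q < 2 * n) (hs : s < 2 * n)
    (hT : tl n p q s ∈ Y2 n) : Tq n p q s := by
  obtain ⟨a, b, c, h, he⟩ := hh_Y2 hT
  have h0 := h
  obtain ⟨h1, h2, h3, -, h5, h6, h7⟩ := h0
  have key := sgn3' n (pm n a) (pm n b) (pm n c) (pm n p) (pm n q) (pm n s) (hh_pm_lt h1)
    (hh_pm_lt h2) (hh_pm_lt h3) (hh_pm_lt hp) (hh_pm_lt hq) (hh_pm_lt hs)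
    (fun e => h5.ne (hh_pm_inj h1 h2 e)) (fun e => h6.ne (hh_pm_inj h2 h3 e))
    (fun e => h7.ne (hh_pm_inj h1 h3 e)) he.symm
  rcases key with ⟨g1, g2, g3⟩ | ⟨g1, g2, g3⟩ | ⟨g1, g2, g3⟩ | ⟨g1, g2, g3⟩ | ⟨g1, g2, g3⟩ |
    ⟨g1, g2, g3⟩
  · obtain rfl := hh_pm_inj h1 hp g1
    obtain rfl := hh_pm_inj h2 hq g2
    obtain rfl := hh_pm_inj h3 hs g3
    exact h
  · obtain rfl := hh_pm_inj h1 hp g1
    obtain rfl := hh_pm_inj h2 hs g2
    obtain rfl := hh_pm_inj h3 hq g3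
    exact h.c2
  · obtain rfl := hh_pm_inj h1 hq g1
    obtain rfl := hh_pm_inj h2 hp g2
    obtain rfl := hh_pm_inj h3 hs g3
    exact h.c1
  · obtain rfl := hh_pm_inj h1 hq g1
    obtain rfl := hh_pm_inj h2 hs g2
    obtain rfl := hh_pm_inj h3 hp g3
    exact h.c2.c1
  · obtain rfl := hh_pm_inj h1 hs g1
    obtain rfl := hh_pm_inj h2 hp g2
    obtain rfl := hh_pm_inj h3 hq g3
    exact h.c1.c2
  · obtain rfl := hh_pm_inj h1 hs g1
    obtain rfl := hh_pm_inj h2 hq g2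
    obtain rfl := hh_pm_inj h3 hp g3
    exact h.c1.c2.c1

/-- neighbours of a triangle -/
theorem hh_nb {n p q s : ℕ} (hn : 4 ≤ n) (h : Tq n p q s) {w : Lab (2 * n)}
    (hw : (mapGraph (vt0 n)).Adj (tl n p q s) w) :
    w = vlab n p q true ∨ w = vlab n p s true ∨ w = vlab n q s true := by
  obtain ⟨h1, h2, h3, -, h5, h6, h7⟩ := id h
  have := (nbrs n p q false (by omega) h1 h2 h5.ne
    (by rw [hh_gmF h]; exact h7.ne.symm) (by rw [hh_gmF h]; exact h6.ne.symm) w).1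
    (by rw [hh_vF h]; exact hw)
  rw [hh_gmF h] at this
  exact this

theorem hh_gm2 {n p q s : ℕ} (h1 : p < 2 * n) (h2 : q < 2 * n) (h3 : s < 2 * n)
    (h4 : p + q + s = 2 * n ∨ p + q + s = 4 * n) : gm n p (pm n s) true = q := by
  have h5 := hh_pm_cases n s
  unfold gm
  rw [if_pos rfl]
  split_ifs <;> omega

/-- second neighbours of a triangle -/
theorem hh_nb2 {n p q s : ℕ} (hn : 4 ≤ n) (h : Tq n p q s) {T' : Lab (2 * n)}
    (hT' : T' ∈ Y2 n) (hne : tl n p q s ≠ T')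
    (hw : (mapGraph (vt0 n)).Adj (vlab n p q true) T') :
    (T' = tl n p (smm n q) (pm n s) ∧ Tq n p (smm n q) (pm n s)) ∨
      (T' = tl n (smm n p) q (pm n s) ∧ Tq n (smm n p) q (pm n s)) := by
  obtain ⟨h1, h2, h3, h4, h5, h6, h7⟩ := id h
  have hps := hh_pm_sm (n := n) (x := p) h1
  have hqs := hh_pm_sm (n := n) (x := q) h2
  have := (nbrs n p q true (by omega) h1 h2 h5.ne
    (by rw [hh_gmT h]; exact (h7.ne_pm h1 h3).symm)
    (by rw [hh_gmT h]; exact (h6.ne_pm h2 h3).symm) T').1 hw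
  rw [hh_gmT h] at this
  rcases this with e1 | e1 | e1
  · exfalso
    apply hne
    rw [e1]
    exact (hh_vF h).symm
  · left
    have e : T' = tl n p (smm n q) (pm n s) := by
      rw [e1]
      unfold vlab tl
      rw [if_neg (by decide), hqs, hh_gm2 h1 h2 h3 h4]
      abel
    refine ⟨e, ?_⟩
    rw [e] at hT'
    exact hh_Tq h1 (hh_sm_lt h2) (hh_pm_lt h3) hT'
  · right
    have e : T' = tl n (smm n p) q (pm n s) := by
      rw [e1]
      unfold vlab tl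
      rw [if_neg (by decide), hps, hh_gm2 h2 h1 h3 (by rw [add_comm q p]; exact h4)]
      abel
    refine ⟨e, ?_⟩
    rw [e] at hT'
    exact hh_Tq (hh_sm_lt h1) h2 (hh_pm_lt h3) hT'

/-- choice of the names of the lines -/
theorem hh_names {n : ℕ} (hn : 4 ≤ n) {T x y : Lab (2 * n)} (hT : T ∈ Y2 n) (hxy : x ≠ y)
    (a1 : (mapGraph (vt0 n)).Adj T x) (a2 : (mapGraph (vt0 n)).Adj T y) :
    ∃ p q s, Tq n p q s ∧ T = tl n p q s ∧ y = vlab n p q true ∧ x = vlab n p s true := by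
  obtain ⟨p, q, s, h, rfl⟩ := hh_Y2 hT
  rcases hh_nb hn h a1 with rfl | rfl | rfl
  · rcases hh_nb hn h a2 with rfl | rfl | rfl
    · exact absurd rfl hxy
    · exact ⟨p, s, q, h.c2, tl_c2 _ _ _ _, rfl, rfl⟩
    · refine ⟨q, s, p, h.c1.c2, ?_, rfl, vlab_comm _ _ _ _⟩
      rw [tl_c1, tl_c2]
  · rcases hh_nb hn h a2 with rfl | rfl | rfl
    · exact ⟨p, q, s, h, rfl, rfl, rfl⟩
    · exact absurd rfl hxy
    · refine ⟨s, q, p, h.c2.c1.c2, ?_, vlab_comm _ _ _ _, vlab_comm _ _ _ _⟩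
      rw [tl_c2, tl_c1, tl_c2]
  · rcases hh_nb hn h a2 with rfl | rfl | rfl
    · refine ⟨q, p, s, h.c1, tl_c1 _ _ _ _, vlab_comm _ _ _ _, rfl⟩
    · refine ⟨s, p, q, h.c2.c1, ?_, vlab_comm _ _ _ _, vlab_comm _ _ _ _⟩
      rw [tl_c2, tl_c1]
    · exact absurd rfl hxy

/-- the lines of a common neighbour -/
theorem hh_common {n p q s p' q' s' : ℕ} (hn : 4 ≤ n) (h : Tq n p q s) (h' : Tq n p' q' s')
    {z : Lab (2 * n)} (a1 : (mapGraph (vt0 n)).Adj (tl n p q s) z)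
    (a2 : (mapGraph (vt0 n)).Adj (tl n p' q' s') z) :
    ∃ x y w x' y' w', ((x = p ∧ y = q ∧ w = pm n s) ∨ (x = p ∧ y = pm n q ∧ w = s) ∨
        (x = pm n p ∧ y = q ∧ w = s)) ∧
      ((x' = p' ∧ y' = q' ∧ w' = pm n s') ∨ (x' = p' ∧ y' = pm n q' ∧ w' = s') ∨
        (x' = pm n p' ∧ y' = q' ∧ w' = s')) ∧
      ((x = x' ∧ y = y' ∧ w = w') ∨ (x = x' ∧ y = w' ∧ w = y') ∨ (x = y' ∧ y = x' ∧ w = w') ∨
      (x = y' ∧ y = w' ∧ w = x') ∨ (x = w' ∧ y = x' ∧ w = y') ∨ (x = w' ∧ y = y' ∧ w = x')) := by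
  have gen : ∀ {p q s : ℕ}, Tq n p q s → (mapGraph (vt0 n)).Adj (tl n p q s) z →
      ∃ x y w, ((x = p ∧ y = q ∧ w = pm n s) ∨ (x = p ∧ y = pm n q ∧ w = s) ∨
        (x = pm n p ∧ y = q ∧ w = s)) ∧ x < 2 * n ∧ y < 2 * n ∧ w < 2 * n ∧ x ≠ y ∧ y ≠ w ∧
        x ≠ w ∧ z = sgn n x + sgn n y + sgn n w := by
    intro p q s h a
    obtain ⟨h1, h2, h3, -, h5, h6, h7⟩ := id h
    rcases hh_nb hn h a with e | e | e
    · refine ⟨p, q, pm n s, Or.inl ⟨rfl, rfl, rfl⟩, h1, h2, hh_pm_lt h3, h5.ne,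
        h6.ne_pm h2 h3, h7.ne_pm h1 h3, ?_⟩
      rw [e, hh_vT h]
    · refine ⟨p, pm n q, s, Or.inr (Or.inl ⟨rfl, rfl, rfl⟩), h1, hh_pm_lt h2, h3,
        h5.ne_pm h1 h2, (h6.symm'.ne_pm h3 h2).symm, h7.ne, ?_⟩
      rw [e, hh_vT h.c2]
      abel
    · refine ⟨pm n p, q, s, Or.inr (Or.inr ⟨rfl, rfl, rfl⟩), hh_pm_lt h1, h2, h3,
        (h5.symm'.ne_pm h2 h1).symm, h6.ne, (h7.symm'.ne_pm h3 h1).symm, ?_⟩
      rw [e, hh_vT h.c1.c2]
      abel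
  obtain ⟨x, y, w, e1, l1, l2, l3, d1, d2, d3, ez⟩ := gen h a1
  obtain ⟨x', y', w', e1', l1', l2', l3', -, -, -, ez'⟩ := gen h' a2
  refine ⟨x, y, w, x', y', w', e1, e1', ?_⟩
  exact sgn3' n x y w x' y' w' l1 l2 l3 l1' l2' l3' d1 d2 d3 (ez.symm.trans ez')


theorem hh_bad1 {n p q s : ℕ} (hn : 4 ≤ n) (h : Tq n p q s)
    (h' : Tq n p (smm n q) (pm n s)) (h'' : Tq n p (smm n s) (pm n q)) {z : Lab (2 * n)}
    (a1 : (mapGraph (vt0 n)).Adj (tl n p (smm n q) (pm n s)) z)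
    (a2 : (mapGraph (vt0 n)).Adj (tl n p (smm n s) (pm n q)) z) : False := by
  obtain ⟨x, y, w, x', y', w', e, e', hp⟩ := hh_common hn h' h'' a1 a2
  have hp1 := hh_pm_cases n p
  have hq1 := hh_pm_cases n q
  have hs1 := hh_pm_cases n s
  have hp2 := hh_sm_cases n p
  have hq2 := hh_sm_cases n q
  have hs2 := hh_sm_cases n s
  have hp3 := hh_pm_sm (n := n) (x := p) h.1
  have hq3 := hh_pm_sm (n := n) (x := q) h.2.1
  have hs3 := hh_pm_sm (n := n) (x := s) h.2.2.1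
  have hq4 := hh_pm_cases n (pm n q)
  have hs4 := hh_pm_cases n (pm n s)
  simp only [hp3, hq3, hs3] at e e'
  unfold Tq G3 at h
  obtain ⟨h1, h2, h3, -, h5, h6, h7⟩ := h
  clear h' h'' a1 a2 hp3 hq3 hs3
  rcases e with ⟨rfl, rfl, rfl⟩ | ⟨rfl, rfl, rfl⟩ | ⟨rfl, rfl, rfl⟩ <;>
    rcases e' with ⟨rfl, rfl, rfl⟩ | ⟨rfl, rfl, rfl⟩ | ⟨rfl, rfl, rfl⟩ <;>
    rcases hp with ⟨g1, g2, g3⟩ | ⟨g1, g2, g3⟩ | ⟨g1, g2, g3⟩ | ⟨g1, g2, g3⟩ | ⟨g1, g2, g3⟩ |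
      ⟨g1, g2, g3⟩ <;> omega

theorem hh_bad2 {n p q s : ℕ} (hn : 4 ≤ n) (h : Tq n p q s)
    (h' : Tq n p (smm n q) (pm n s)) (h'' : Tq n (smm n p) s (pm n q)) {z : Lab (2 * n)}
    (a1 : (mapGraph (vt0 n)).Adj (tl n p (smm n q) (pm n s)) z)
    (a2 : (mapGraph (vt0 n)).Adj (tl n (smm n p) s (pm n q)) z) : False := by
  obtain ⟨x, y, w, x', y', w', e, e', hp⟩ := hh_common hn h' h'' a1 a2
  have hp1 := hh_pm_cases n p
  have hq1 := hh_pm_cases n q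
  have hs1 := hh_pm_cases n s
  have hp2 := hh_sm_cases n p
  have hq2 := hh_sm_cases n q
  have hs2 := hh_sm_cases n s
  have hp3 := hh_pm_sm (n := n) (x := p) h.1
  have hq3 := hh_pm_sm (n := n) (x := q) h.2.1
  have hs3 := hh_pm_sm (n := n) (x := s) h.2.2.1
  have hq4 := hh_pm_cases n (pm n q)
  have hs4 := hh_pm_cases n (pm n s)
  simp only [hp3, hq3, hs3] at e e'
  unfold Tq G3 at h
  obtain ⟨h1, h2, h3, -, h5, h6, h7⟩ := h
  clear h' h'' a1 a2 hp3 hq3 hs3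
  rcases e with ⟨rfl, rfl, rfl⟩ | ⟨rfl, rfl, rfl⟩ | ⟨rfl, rfl, rfl⟩ <;>
    rcases e' with ⟨rfl, rfl, rfl⟩ | ⟨rfl, rfl, rfl⟩ | ⟨rfl, rfl, rfl⟩ <;>
    rcases hp with ⟨g1, g2, g3⟩ | ⟨g1, g2, g3⟩ | ⟨g1, g2, g3⟩ | ⟨g1, g2, g3⟩ | ⟨g1, g2, g3⟩ |
      ⟨g1, g2, g3⟩ <;> omega

theorem hh_bad3 {n p q s : ℕ} (hn : 4 ≤ n) (h : Tq n p q s)
    (h' : Tq n (smm n p) q (pm n s)) (h'' : Tq n p (smm n s) (pm n q)) {z : Lab (2 * n)}
    (a1 : (mapGraph (vt0 n)).Adj (tl n (smm n p) q (pm n s)) z)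
    (a2 : (mapGraph (vt0 n)).Adj (tl n p (smm n s) (pm n q)) z) : False := by
  obtain ⟨x, y, w, x', y', w', e, e', hp⟩ := hh_common hn h' h'' a1 a2
  have hp1 := hh_pm_cases n p
  have hq1 := hh_pm_cases n q
  have hs1 := hh_pm_cases n s
  have hp2 := hh_sm_cases n p
  have hq2 := hh_sm_cases n q
  have hs2 := hh_sm_cases n s
  have hp3 := hh_pm_sm (n := n) (x := p) h.1
  have hq3 := hh_pm_sm (n := n) (x := q) h.2.1
  have hs3 := hh_pm_sm (n := n) (x := s) h.2.2.1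
  have hq4 := hh_pm_cases n (pm n q)
  have hs4 := hh_pm_cases n (pm n s)
  simp only [hp3, hq3, hs3] at e e'
  unfold Tq G3 at h
  obtain ⟨h1, h2, h3, -, h5, h6, h7⟩ := h
  clear h' h'' a1 a2 hp3 hq3 hs3
  rcases e with ⟨rfl, rfl, rfl⟩ | ⟨rfl, rfl, rfl⟩ | ⟨rfl, rfl, rfl⟩ <;>
    rcases e' with ⟨rfl, rfl, rfl⟩ | ⟨rfl, rfl, rfl⟩ | ⟨rfl, rfl, rfl⟩ <;>
    rcases hp with ⟨g1, g2, g3⟩ | ⟨g1, g2, g3⟩ | ⟨g1, g2, g3⟩ | ⟨g1, g2, g3⟩ | ⟨g1, g2, g3⟩ |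
      ⟨g1, g2, g3⟩ <;> omega

theorem hh_tri3 {n a b c : ℕ} (h : Tq n a b c) (h1 : a < b) (h2 : b < c) : Tri3 n a b c := by
  obtain ⟨-, -, g3, g4, g5, g6, g7⟩ := h
  refine ⟨?_, ?_, g3, ?_, g4⟩
  · rcases g5 with g | g <;> omega
  · rcases g6 with g | g <;> omega
  · rcases g7 with g | g <;> omega

/-- the final choice -/
theorem hh_fin {n p q s : ℕ} (hn : 4 ≤ n) (r : ℕ) (hr : r < 2 * n) (hp : p = pm n r)
    (h : Tq n p q s) (h' : Tq n r q (pm n s)) (h'' : Tq n r s (pm n q)) :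
    ∃ a b c, Tri3 n a b c ∧ c + 1 < 2 * n ∧
      (tl n a b c = tl n p q s ∨ tl n a b c = tl n r q (pm n s) ∨
        tl n a b c = tl n r s (pm n q)) ∧
      (tl n a (b - 1) (c + 1) = tl n p q s ∨ tl n a (b - 1) (c + 1) = tl n r q (pm n s) ∨
        tl n a (b - 1) (c + 1) = tl n r s (pm n q)) ∧
      (tl n (pm n a) b (c + 1) = tl n p q s ∨ tl n (pm n a) b (c + 1) = tl n r q (pm n s) ∨
        tl n (pm n a) b (c + 1) = tl n r s (pm n q)) := by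
  have e1 := hh_pm_cases n r
  have e2 := hh_pm_cases n q
  have e3 := hh_pm_cases n s
  have gq : q < 2 * n := h.2.1
  have gs : s < 2 * n := h.2.2.1
  have f1 : r ≠ q := h'.2.2.2.2.1.ne
  have f2 : r ≠ s := h''.2.2.2.2.1.ne
  have f3 : q ≠ s := h.2.2.2.2.2.1.ne
  have d1 : q ≠ pm n r := by rw [← hp]; exact h.2.2.2.2.1.ne.symm
  have d2 : s ≠ pm n r := by rw [← hp]; exact h.2.2.2.2.2.2.ne.symm
  have d3 : r ≠ pm n s := h'.2.2.2.2.2.2.ne
  have d4 : q ≠ pm n s := h.2.2.2.2.2.1.ne_pm gq gs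
  have d5 : r ≠ pm n q := h''.2.2.2.2.2.2.ne
  have d6 : s ≠ pm n q := h.2.2.2.2.2.1.symm'.ne_pm gs gq
  subst hp
  rcases lt_or_gt_of_ne f1 with o1 | o1 <;> rcases lt_or_gt_of_ne f2 with o2 | o2 <;>
    rcases lt_or_gt_of_ne f3 with o3 | o3
  · have k1 : pm n s + 1 = s := by omega
    have k2 : q - 1 = pm n q := by omega
    refine ⟨r, q, pm n s, hh_tri3 (h') o1 (by omega), by omega, ?_, ?_, ?_⟩
    · right; left
      all_goals (unfold tl; abel)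
    · right; right
      rw [k1, k2]
      all_goals (unfold tl; abel)
    · left
      rw [k1]
      all_goals (unfold tl; abel)
  · have k1 : pm n q + 1 = q := by omega
    have k2 : s - 1 = pm n s := by omega
    refine ⟨r, s, pm n q, hh_tri3 (h'') o2 (by omega), by omega, ?_, ?_, ?_⟩
    · right; right
      all_goals (unfold tl; abel)
    · right; left
      rw [k1, k2]
      all_goals (unfold tl; abel)
    · left
      rw [k1]
      all_goals (unfold tl; abel)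
  · exfalso; omega
  · have k1 : pm n q + 1 = q := by omega
    have k2 : r - 1 = pm n r := by omega
    refine ⟨s, r, pm n q, hh_tri3 (h''.c1) o2 (by omega), by omega, ?_, ?_, ?_⟩
    · right; right
      all_goals (unfold tl; abel)
    · left
      rw [k1, k2]
      all_goals (unfold tl; abel)
    · right; left
      rw [k1]
      all_goals (unfold tl; abel)
  · have k1 : pm n s + 1 = s := by omega
    have k2 : r - 1 = pm n r := by omega
    refine ⟨q, r, pm n s, hh_tri3 (h'.c1) o1 (by omega), by omega, ?_, ?_, ?_⟩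
    · right; left
      all_goals (unfold tl; abel)
    · left
      rw [k1, k2]
      all_goals (unfold tl; abel)
    · right; right
      rw [k1]
      all_goals (unfold tl; abel)
  · exfalso; omega
  · have k1 : pm n r + 1 = r := by omega
    have k2 : s - 1 = pm n s := by omega
    refine ⟨q, s, pm n r, hh_tri3 (h.c1.c2) o3 (by omega), by omega, ?_, ?_, ?_⟩
    · left
      all_goals (unfold tl; abel)
    · right; left
      rw [k1, k2]
      all_goals (unfold tl; abel)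
    · right; right
      rw [k1]
      all_goals (unfold tl; abel)
  · have k1 : pm n r + 1 = r := by omega
    have k2 : q - 1 = pm n q := by omega
    refine ⟨s, q, pm n r, hh_tri3 (h.c2.c1.c2) o3 (by omega), by omega, ?_, ?_, ?_⟩
    · left
      all_goals (unfold tl; abel)
    · right; right
      rw [k1, k2]
      all_goals (unfold tl; abel)
    · right; left
      rw [k1]
      all_goals (unfold tl; abel)

theorem hex_host (n : ℕ) (hn : 4 ≤ n) (T T' T'' x y z : Lab (2 * n)) (hT : T ∈ Y2 n)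
    (hT' : T' ∈ Y2 n) (hT'' : T'' ∈ Y2 n) (h1 : T ≠ T') (h2 : T' ≠ T'') (h3 : T ≠ T'')
    (hxy : x ≠ y) (hyz : y ≠ z) (hxz : x ≠ z) (a1 : (mapGraph (vt0 n)).Adj T x)
    (a2 : (mapGraph (vt0 n)).Adj T y) (a3 : (mapGraph (vt0 n)).Adj T' y)
    (a4 : (mapGraph (vt0 n)).Adj T' z) (a5 : (mapGraph (vt0 n)).Adj T'' z)
    (a6 : (mapGraph (vt0 n)).Adj T'' x) :
    ∃ a b c, Tri3 n a b c ∧ c + 1 < 2 * n ∧
      (tl n a b c = T ∨ tl n a b c = T' ∨ tl n a b c = T'') ∧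
      (tl n a (b - 1) (c + 1) = T ∨ tl n a (b - 1) (c + 1) = T' ∨
        tl n a (b - 1) (c + 1) = T'') ∧
      (tl n (pm n a) b (c + 1) = T ∨ tl n (pm n a) b (c + 1) = T' ∨
        tl n (pm n a) b (c + 1) = T'') := by
  obtain ⟨p, q, s, h, rfl, rfl, rfl⟩ := hh_names hn hT hxy a1 a2
  rcases hh_nb2 hn h hT' h1 a3.symm with ⟨rfl, g1⟩ | ⟨rfl, g1⟩
  · rcases hh_nb2 hn h.c2 hT'' (by rw [← tl_c2]; exact h3) a6.symm with ⟨rfl, g2⟩ | ⟨rfl, g2⟩
    · exact (hh_bad1 hn h g1 g2 a4 a5).elim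
    · exact (hh_bad2 hn h g1 g2 a4 a5).elim
  · rcases hh_nb2 hn h.c2 hT'' (by rw [← tl_c2]; exact h3) a6.symm with ⟨rfl, g2⟩ | ⟨rfl, g2⟩
    · exact (hh_bad3 hn h g1 g2 a4 a5).elim
    · exact hh_fin hn (smm n p) (hh_sm_lt h.1) (hh_pm_sm h.1).symm h g1 g2

end Pool.Agent.Helper226_Obs
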