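import Pool.Agent.Helper226_Obs.FP.Defs2
import Pool.Agent.Helper226_Obs.FP.G03
import Pool.Agent.Helper226_Obs.FP.G05

set_option autoImplicit false

namespace Pool.Agent.Helper226_Obs

open SimpleGraph

theorem FC_distinct {n a b c : ℕ} (hn : 4 ≤ n) (h : Tri3 n a b c) (hc : c + 1 < 2 * n) :
    tl n a b c ≠ tl n a (b - 1) (c + 1) ∧ tl n a b c ≠ tl n (pm n a) b (c + 1) ∧
      tl n a (b - 1) (c + 1) ≠ tl n (pm n a) b (c + 1) := by
  obtain ⟨h1, h2, h3, h4, -⟩ := h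
  have hb : pm n b = b - 1 := if_neg (by omega)
  have hb' : pm n (b - 1) = b - 1 - 1 := if_neg (by omega)
  have hcc : pm n c = c - 1 := if_neg (by omega)
  have hc' : pm n (c + 1) = c + 1 - 1 := if_neg (by omega)
  have hpa : (a = 0 ∧ pm n a = 2 * n - 1 ∧ pm n (pm n a) = 2 * n - 2) ∨
      (a = 1 ∧ pm n a = 0 ∧ pm n (pm n a) = 2 * n - 1) ∨
      (2 ≤ a ∧ pm n a = a - 1 ∧ pm n (pm n a) = a - 2) := by
    rcases Nat.lt_or_ge a 1 with h | h
    · left
      have h0 : a = 0 := by omega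
      have e1 : pm n a = 2 * n - 1 := if_pos h0
      refine ⟨h0, e1, ?_⟩
      rw [e1, pm, if_neg (by omega)]
      omega
    · rcases Nat.lt_or_ge a 2 with h' | h'
      · right; left
        have e1 : pm n a = a - 1 := if_neg (by omega)
        refine ⟨by omega, by omega, ?_⟩
        rw [e1, pm, if_pos (by omega)]
      · right; right
        have e1 : pm n a = a - 1 := if_neg (by omega)
        refine ⟨h', e1, ?_⟩
        rw [e1, pm, if_neg (by omega)]
        omega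
  refine ⟨fun he => ?_, fun he => ?_, fun he => ?_⟩
  · have := sgn3 n (pm n a) (pm n b) (pm n c) (pm n a) (pm n (b - 1)) (pm n (c + 1))
      (by omega) (by omega) (by omega) (by omega) (by omega) (by omega) he
    omega
  · have := sgn3 n (pm n a) (pm n b) (pm n c) (pm n (pm n a)) (pm n b) (pm n (c + 1))
      (by omega) (by omega) (by omega) (by omega) (by omega) (by omega) he
    omega
  · have := sgn3 n (pm n a) (pm n (b - 1)) (pm n (c + 1)) (pm n (pm n a)) (pm n b) (pm n (c + 1))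
      (by omega) (by omega) (by omega) (by omega) (by omega) (by omega) he
    omega

theorem family_card (n : ℕ) (hn : 4 ≤ n) :
    7 ^ (Y2 n).ncard ≤ 4 ^ (Y2 n).ncard *
      ({A | A ⊆ Y2 n ∧ HexFree (mapGraph (vt0 n)) A} : Set (Set (Lab (2 * n)))).ncard := by
  classical
  have hne : NeZero (2 * n) := ⟨by omega⟩
  set Y : Finset (Lab (2 * n)) := (Y2 n).toFinset with hY
  have hYmem : ∀ T, T ∈ Y ↔ T ∈ Y2 n := fun T => Set.mem_toFinset
  set Hx : Lab (2 * n) → Finset (Lab (2 * n)) := fun T =>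
    if h : ∃ p : ℕ × ℕ × ℕ, Tri3 n p.1 p.2.1 p.2.2 ∧ p.2.2 + 1 < 2 * n ∧
        T = tl n p.1 p.2.1 p.2.2 then
      {tl n h.choose.1 h.choose.2.1 h.choose.2.2,
        tl n h.choose.1 (h.choose.2.1 - 1) (h.choose.2.2 + 1),
        tl n (pm n h.choose.1) h.choose.2.1 (h.choose.2.2 + 1)}
    else Finset.univ with hHx
  have h3 : ∀ T ∈ Y, 3 ≤ (Hx T).card := by
    intro T _
    rw [hHx]
    dsimp only
    split_ifs with h
    · obtain ⟨e1, e2, e3⟩ := FC_distinct hn h.choose_spec.1 h.choose_spec.2.1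
      rw [Finset.card_insert_of_notMem, Finset.card_pair e3]
      rw [Finset.mem_insert, Finset.mem_singleton]
      push Not
      exact ⟨e1, e2⟩
    · have hcard : Fintype.card (Lab (2 * n)) = 2 ^ (2 * n) := by
        rw [Fintype.card_fun, ZMod.card, ZMod.card]
      rw [Finset.card_univ, hcard]
      calc 3 ≤ 2 ^ 2 := by norm_num
        _ ≤ 2 ^ (2 * n) := Nat.pow_le_pow_right (by norm_num) (by omega)
  obtain ⟨Fm, hFm, hmain⟩ : ∃ Fm : Finset (Finset (Lab (2 * n))),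
      (∀ A, A ∈ Fm ↔ A ⊆ Y ∧ ∀ T ∈ Y, ¬ Hx T ⊆ A) ∧ 7 ^ Y.card ≤ 4 ^ Y.card * Fm.card :=
    ⟨_, fun A => by simp only [Finset.mem_filter, Finset.mem_powerset], avoid_count Y Hx h3⟩
  have hcardY : (Y2 n).ncard = Y.card := Set.ncard_eq_toFinset_card' _
  rw [hcardY]
  refine hmain.trans (Nat.mul_le_mul_left _ ?_)
  have hinj : Function.Injective (fun A : Finset (Lab (2 * n)) => (A : Set (Lab (2 * n)))) :=
    Finset.coe_injective
  rw [← Finset.card_image_of_injective Fm hinj, ← Set.ncard_coe_finset]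
  refine Set.ncard_le_ncard ?_ (Set.toFinite _)
  intro B hB
  rw [Finset.mem_coe, Finset.mem_image] at hB
  obtain ⟨A, hA, rfl⟩ := hB
  rw [hFm] at hA
  obtain ⟨hA1, hA2⟩ := hA
  have hAY : ∀ T ∈ A, T ∈ Y2 n := fun T hT => (hYmem T).1 (hA1 hT)
  refine ⟨fun T hT => hAY T hT, ?_⟩
  intro T T' T'' x y z hT hT' hT'' h1 h2 h4 hxy hyz hxz a1 a2 a3 a4 a5 a6
  obtain ⟨a, b, c, htri, hc, m1, m2, m3⟩ := hex_host n hn T T' T'' x y z (hAY T hT) (hAY T' hT')
    (hAY T'' hT'') h1 h2 h4 hxy hyz hxz a1 a2 a3 a4 a5 a6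
  have hin : ∀ {t : Lab (2 * n)}, (t = T ∨ t = T' ∨ t = T'') → t ∈ A := by
    intro t ht
    rcases ht with rfl | rfl | rfl
    · exact hT
    · exact hT'
    · exact hT''
  have hex : ∃ p : ℕ × ℕ × ℕ, Tri3 n p.1 p.2.1 p.2.2 ∧ p.2.2 + 1 < 2 * n ∧
      tl n a b c = tl n p.1 p.2.1 p.2.2 := ⟨(a, b, c), htri, hc, rfl⟩
  refine hA2 (tl n a b c) ((hYmem _).2 (hAY _ (hin m1))) ?_
  have hval : Hx (tl n a b c) = {tl n a b c, tl n a (b - 1) (c + 1), tl n (pm n a) b (c + 1)} := by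
    obtain ⟨e1, e2, e3⟩ := tl_inj n _ _ _ _ _ _ htri hex.choose_spec.1 hex.choose_spec.2.2
    rw [hHx]
    dsimp only
    rw [dif_pos hex, ← e1, ← e2, ← e3]
  rw [hval]
  intro t ht
  rw [Finset.mem_insert, Finset.mem_insert, Finset.mem_singleton] at ht
  rcases ht with rfl | rfl | rfl
  · exact hin m1
  · exact hin m2
  · exact hin m3

end Pool.Agent.Helper226_Obs
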