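import Pool.Agent.Helper226_Obs.FP.Defs

set_option autoImplicit false

namespace Pool.Agent.Helper226_Obs

open SimpleGraph

theorem fp_analysis2 (c : ℝ) (hc : c < 8 / 3 * Real.logb 2 (7 / 4)) :
    ∃ g₀ : ℕ, 3 ≤ g₀ ∧ ∀ g : ℕ, g₀ ≤ g →
    ∃ k : ℕ, (2 : ℝ) ^ (c * (g : ℝ) ^ 2) ≤ k ∧
      k * (4 * (2 * g + 2) * (2 * g + 2)) ^ (24 * (2 * g + 2)) *
        4 ^ ((2 * (2 * g + 2) * (2 * g + 2) - 20 * (2 * g + 2)) / 3) ≤
        7 ^ ((2 * (2 * g + 2) * (2 * g + 2) - 20 * (2 * g + 2)) / 3) := by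
  obtain ⟨L, hL⟩ : ∃ L : ℝ, L = Real.logb 2 (7 / 4) := ⟨_, rfl⟩
  rw [← hL] at hc
  have hL0 : 0 < L := by
    rw [hL]
    exact Real.logb_pos (by norm_num) (by norm_num)
  have hL1 : L < 1 := by
    rw [hL, Real.logb_lt_iff_lt_rpow (by norm_num) (by norm_num), Real.rpow_one]
    norm_num
  obtain ⟨c0, hc0⟩ : ∃ c0 : ℝ, c0 = max c 0 := ⟨_, rfl⟩
  have hcc0 : c ≤ c0 := by rw [hc0]; exact le_max_left _ _
  have hc00 : 0 ≤ c0 := by rw [hc0]; exact le_max_right _ _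
  have hc0L : c0 < 8 / 3 * L := by
    rw [hc0]
    exact max_lt hc (by positivity)
  obtain ⟨δ, hδ⟩ : ∃ δ : ℝ, δ = 8 / 3 * L - c0 := ⟨_, rfl⟩
  have hδ0 : 0 < δ := by linarith
  have hδ3 : δ < 3 := by linarith
  have hlog2 : 0 < Real.log 2 := Real.log_pos (by norm_num)
  have hev := Real.isLittleO_log_id_atTop.def (c := δ / 384 * Real.log 2) (by positivity)
  rw [Filter.eventually_atTop] at hev
  obtain ⟨X0, hX0⟩ := hev
  refine ⟨max 3 (max ⌈X0⌉₊ ⌈436 / δ⌉₊), le_max_left _ _, ?_⟩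
  intro g hg
  have hg3 : 3 ≤ g := (le_max_left _ _).trans hg
  have hgX : ⌈X0⌉₊ ≤ g := ((le_max_left _ _).trans (le_max_right _ _)).trans hg
  have hgd : ⌈436 / δ⌉₊ ≤ g := ((le_max_right _ _).trans (le_max_right _ _)).trans hg
  have hg3' : (3 : ℝ) ≤ g := by exact_mod_cast hg3
  have hgX' : X0 ≤ g := Nat.ceil_le.1 hgX
  have hgd' : 436 / δ ≤ g := Nat.ceil_le.1 hgd
  obtain ⟨n, hn⟩ : ∃ n : ℕ, n = 2 * g + 2 := ⟨_, rfl⟩
  rw [← hn]
  have hnr : (n : ℝ) = 2 * g + 2 := by rw [hn]; push_cast; ring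
  have hn0 : (0 : ℝ) < n := by rw [hnr]; linarith
  obtain ⟨y, hy⟩ : ∃ y : ℕ, y = (2 * n * n - 20 * n) / 3 := ⟨_, rfl⟩
  rw [← hy]
  have hy1 : 2 * n * n ≤ 3 * y + 2 + 20 * n := by
    have h : 2 * n * n - 20 * n < 3 * (y + 1) := by
      rw [hy]
      omega
    omega
  have hy2 : (2 : ℝ) * n * n ≤ 3 * y + 2 + 20 * n := by exact_mod_cast hy1
  refine ⟨⌈(2 : ℝ) ^ (c0 * (g : ℝ) ^ 2)⌉₊, ?_, ?_⟩
  · refine le_trans ?_ (Nat.le_ceil _)
    apply Real.rpow_le_rpow_of_exponent_le (by norm_num)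
    exact mul_le_mul_of_nonneg_right hcc0 (by positivity)
  · have hk : ((⌈(2 : ℝ) ^ (c0 * (g : ℝ) ^ 2)⌉₊ : ℕ) : ℝ) ≤ (2 : ℝ) ^ (c0 * (g : ℝ) ^ 2 + 1) := by
      have h1 := (Nat.ceil_lt_add_one (a := (2 : ℝ) ^ (c0 * (g : ℝ) ^ 2)) (by positivity)).le
      have h2 : (1 : ℝ) ≤ (2 : ℝ) ^ (c0 * (g : ℝ) ^ 2) :=
        Real.one_le_rpow (by norm_num) (by positivity)
      rw [Real.rpow_add (by norm_num), Real.rpow_one]
      linarith
    obtain ⟨l, hl⟩ : ∃ l : ℝ, l = Real.logb 2 n := ⟨_, rfl⟩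
    have hl2 : (2 : ℝ) ^ l = n := by
      rw [hl]
      exact Real.rpow_logb (by norm_num) (by norm_num) hn0
    have hln : l ≤ δ / 384 * n := by
      have h1 := hX0 n (by rw [hnr]; linarith)
      rw [Real.norm_eq_abs, Real.norm_eq_abs] at h1
      have h2 := (le_abs_self _).trans h1
      simp only [id] at h2
      rw [abs_of_pos hn0] at h2
      rw [hl, ← Real.log_div_log, div_le_iff₀ hlog2]
      linarith
    have h4n : ((4 : ℝ) * n * n) ^ (24 * n) = (2 : ℝ) ^ ((2 + 2 * l) * (24 * n)) := by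
      have e1 : (4 : ℝ) * n * n = (2 : ℝ) ^ (2 + 2 * l) := by
        rw [Real.rpow_add (by norm_num), mul_comm (2 : ℝ) l, Real.rpow_mul (by norm_num), hl2]
        norm_num
        ring
      rw [e1, Real.rpow_mul (by norm_num)]
      have e2 : ((24 : ℝ) * n) = ((24 * n : ℕ) : ℝ) := by push_cast; ring
      rw [e2, Real.rpow_natCast]
    have h7 : (7 : ℝ) ^ y = 4 ^ y * (2 : ℝ) ^ (L * y) := by
      have e1 : (2 : ℝ) ^ L = 7 / 4 := by
        rw [hL]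
        exact Real.rpow_logb (by norm_num) (by norm_num) (by norm_num)
      rw [Real.rpow_mul (by norm_num), e1, Real.rpow_natCast, ← mul_pow]
      norm_num
    have hmain : c0 * (g : ℝ) ^ 2 + 1 + (2 + 2 * l) * (24 * n) ≤ L * y := by
      have a1 : (2 + 2 * l) * (24 * n) ≤ (2 + 2 * (δ / 384 * n)) * (24 * n) := by
        apply mul_le_mul_of_nonneg_right _ (by positivity)
        linarith
      have a2 : L * ((2 * n * n - 20 * n) / 3 - 1) ≤ L * y := by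
        apply mul_le_mul_of_nonneg_left _ hL0.le
        linarith
      have a3 : (436 : ℝ) ≤ δ * g := by
        have := (div_le_iff₀ hδ0).1 hgd'
        linarith
      have a4 : (218 : ℝ) * g ≤ δ / 2 * g ^ 2 := by nlinarith
      have a5 : L * ((2 * n * n - 20 * n) / 3 - 1) -
          (c0 * (g : ℝ) ^ 2 + 1 + (2 + 2 * (δ / 384 * n)) * (24 * n)) =
          δ / 2 * g ^ 2 - g * (8 * L + 96 + δ) - (35 / 3 * L + 97 + δ / 2) := by
        rw [hnr]
        have : c0 = 8 / 3 * L - δ := by linarith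
        rw [this]
        ring
      have a6 : (g : ℝ) * (8 * L + 96 + δ) ≤ g * 107 := by
        apply mul_le_mul_of_nonneg_left _ (by linarith)
        linarith
      linarith
    have hfin : ((⌈(2 : ℝ) ^ (c0 * (g : ℝ) ^ 2)⌉₊ : ℕ) : ℝ) * ((4 : ℝ) * n * n) ^ (24 * n) * 4 ^ y ≤
        7 ^ y := by
      rw [h4n, h7, mul_comm ((4 : ℝ) ^ y)]
      apply mul_le_mul_of_nonneg_right _ (by positivity)
      calc _ ≤ (2 : ℝ) ^ (c0 * (g : ℝ) ^ 2 + 1) * (2 : ℝ) ^ ((2 + 2 * l) * (24 * n)) :=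
            mul_le_mul_of_nonneg_right hk (by positivity)
        _ = (2 : ℝ) ^ (c0 * (g : ℝ) ^ 2 + 1 + (2 + 2 * l) * (24 * n)) :=
            (Real.rpow_add (by norm_num) _ _).symm
        _ ≤ _ := Real.rpow_le_rpow_of_exponent_le (by norm_num) hmain
    exact_mod_cast hfin

end Pool.Agent.Helper226_Obs
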