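import Pool.Agent.Helper226_Obs.FP.B07
import Pool.Agent.Helper226_Obs.FP.Defs2

set_option autoImplicit false

namespace Pool.Agent.Helper226_Obs

open SimpleGraph

theorem YD_insert2 {V : Type} (G : SimpleGraph V) (Y : Set V) (hY : YSet2 G Y) (A : Set V)
    (hA : A ⊆ Y) (T : V) (hT : T ∈ Y) (hTA : T ∉ A) :
    YD G (insert T A) = YD (YD G A) {T} := by
  ext x y
  constructor
  · rintro ⟨hne, hx, hy, h⟩
    rw [Set.mem_insert_iff, not_or] at hx hy
    refine ⟨hne, hx.1, hy.1, ?_⟩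
    rcases h with h | ⟨T', hT', h5, h6⟩
    · exact Or.inl ⟨hne, hx.2, hy.2, Or.inl h⟩
    · rcases Set.mem_insert_iff.mp hT' with rfl | hT'
      · exact Or.inr ⟨T', rfl, ⟨h5.ne, hTA, hx.2, Or.inl h5⟩, ⟨h6.ne, hTA, hy.2, Or.inl h6⟩⟩
      · exact Or.inl ⟨hne, hx.2, hy.2, Or.inr ⟨T', hT', h5, h6⟩⟩
  · rintro ⟨hne, hx, hy, h⟩
    rcases h with ⟨_, hxA, hyA, h⟩ | ⟨T', hT', ⟨_, _, hxA, h5⟩, ⟨_, _, hyA, h6⟩⟩
    · refine ⟨hne, ?_, ?_, ?_⟩
      · rw [Set.mem_insert_iff, not_or]; exact ⟨hx, hxA⟩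
      · rw [Set.mem_insert_iff, not_or]; exact ⟨hy, hyA⟩
      · rcases h with h | ⟨T', hT', h5, h6⟩
        · exact Or.inl h
        · exact Or.inr ⟨T', Set.mem_insert_of_mem _ hT', h5, h6⟩
    · rw [Set.mem_singleton_iff] at hT'
      subst hT'
      refine ⟨hne, ?_, ?_, Or.inr ⟨T', Set.mem_insert _ _, ?_, ?_⟩⟩
      · rw [Set.mem_insert_iff, not_or]; exact ⟨hx, hxA⟩
      · rw [Set.mem_insert_iff, not_or]; exact ⟨hy, hyA⟩
      · rcases h5 with h5 | ⟨S, hS, h7, _⟩
        · exact h5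
        · exact absurd h7 (hY.indep S (hA hS) T' hT)
      · rcases h6 with h6 | ⟨S, hS, h7, _⟩
        · exact h6
        · exact absurd h7 (hY.indep S (hA hS) T' hT)

theorem good_YD2 {V : Type} [Finite V] (G : SimpleGraph V) (g : ℕ) (Y : Set V) (hY : YSet2 G Y)
    (hG : Good G g) (A : Set V) (hA : A ⊆ Y) : Good (YD G A) g := by
  revert hA
  refine Set.Finite.induction_on A (Set.toFinite A) ?_ ?_
  · intro _
    have : YD G ∅ = G := by
      ext x y
      constructor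
      · rintro ⟨_, _, _, h | ⟨T, hT, _⟩⟩
        · exact h
        · exact absurd hT (Set.notMem_empty T)
      · exact fun h => ⟨h.ne, Set.notMem_empty _, Set.notMem_empty _, Or.inl h⟩
    rw [this]
    exact hG
  · intro a s has _ ih hs
    have ha : a ∈ Y := hs (Set.mem_insert a s)
    have hsY : s ⊆ Y := fun x hx => hs (Set.mem_insert_of_mem a hx)
    rw [YD_insert2 G Y hY s hsY a ha has]
    have hadj : ∀ z, (YD G s).Adj a z ↔ G.Adj a z := by
      intro z
      constructor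
      · rintro ⟨_, _, _, h | ⟨T, hT, h7, _⟩⟩
        · exact h
        · exact absurd h7 (hY.indep T (hsY hT) a ha)
      · intro h
        exact ⟨h.ne, has, fun hz => hY.indep a ha z (hsY hz) h, Or.inl h⟩
    refine good_YD1 (YD G s) g a ?_ ?_ (ih hsY)
    · have : (YD G s).neighborSet a = G.neighborSet a := by
        ext z
        exact hadj z
      rw [this]
      exact hY.deg a ha
    · intro x y hx hy hxy
      rw [hadj] at hx hy
      obtain ⟨hne, _, _, h | ⟨T, hT, h5, h6⟩⟩ := hxy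
      · exact hY.tri x a y hx.symm hy h
      · exact hne (hY.c4 a ha T x y (fun e => has (e ▸ hT)) hx hy h5 h6)

end Pool.Agent.Helper226_Obs
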