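import Pool.Agent.Helper226_Obs.FP.B09
import Pool.Agent.Helper226_Obs.FP.B10
import Pool.Agent.Helper226_Obs.FP.C09
import Pool.Agent.Helper226_Obs.FP.D03
import Pool.Agent.Helper226_Obs.FP.D04
import Pool.Agent.Helper226_Obs.FP.D08
import Pool.Agent.Helper226_Obs.FP.D09
import Pool.Agent.Helper226_Obs.FP.E01
import Pool.Agent.Helper226_Obs.FP.E02
import Pool.Agent.Helper226_Obs.FP.E03
import Pool.Agent.Helper226_Obs.FP.E04
import Pool.Agent.Helper226_Obs.FP.E05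
import Pool.Agent.Helper226_Obs.FP.E06
import Pool.Agent.Helper226_Obs.FP.E07
import Pool.Agent.Helper226_Obs.FP.E08
import Pool.Agent.Helper226_Obs.FP.G02
import Pool.Agent.Helper226_Obs.FP.G04
import Pool.Agent.Helper226_Obs.FP.G06
import Pool.Agent.Helper226_Obs.FP.G07
import Pool.Agent.Helper226_Obs.FP.G08

set_option autoImplicit false

namespace Pool.Agent.Helper226_Obs

open SimpleGraph

/-- The number of obstructions is at least `k` if `k` is small enough (with hexagon-free sets of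
triangles). -/
theorem fp_count2 (g k : ℕ) (hg : 3 ≤ g)
    (hk : k * (4 * (2 * g + 2) * (2 * g + 2)) ^ (24 * (2 * g + 2)) *
        4 ^ ((2 * (2 * g + 2) * (2 * g + 2) - 20 * (2 * g + 2)) / 3) ≤
        7 ^ ((2 * (2 * g + 2) * (2 * g + 2) - 20 * (2 * g + 2)) / 3)) : (k : ℕ∞) ≤ N g := by
  classical
  obtain ⟨n, hn⟩ : ∃ n, n = 2 * g + 2 := ⟨_, rfl⟩
  rw [← hn] at hk
  have hn8 : 8 ≤ n := by omega
  have : NeZero (2 * n) := ⟨by omega⟩
  have hne : Even n := ⟨g + 1, by omega⟩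
  obtain ⟨r, h1, h2, h3, h4⟩ := host_r n (by omega)
  have hPM := host_PM n (by omega) r h1 h2 h3 h4
  have hgood : Good (mapGraph (vt0 n)) g := by
    apply good_of_PM (vt0 n) (fc0 n) r hPM h2 (host_ne n (by omega)) (host_inj n (by omega))
      (host_fc n (by omega)) (host_conn n (by omega)) (host_tri n (by omega))
      (euler_count n (by omega)) g
    · intro e
      obtain ⟨b, hb, hb1, hb2⟩ := del_flags n (by omega) r h3 h4 e
      refine ⟨_, (cut_bound n (by omega) r h1 h2 h3 h4 b hb _).trans (by omega), true, hb1, hb2⟩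
    · intro e
      obtain ⟨b, hb, u, hb1, hb2⟩ := con_flags n (by omega) r h3 h4 e
      refine ⟨_, (cut_bound n (by omega) r h1 h2 h3 h4 b hb _).trans (by omega), u, hb1, hb2⟩
  have hY := host_YSet2 n (by omega)
  obtain ⟨hs1, hs2⟩ := supp_card n (by omega)
  obtain ⟨S, hS1, hS2⟩ := host_force n (by omega)
  refine many_obs2 (mapGraph (vt0 n)) (Y2 n) hY g k hs1
    {A | A ⊆ Y2 n ∧ HexFree (mapGraph (vt0 n)) A} (fun A hA => hA) ?_ S hS2 ?_
  · intro A hA
    exact ⟨good_YD2 _ g _ hY hgood A hA.1,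
      host_not_embeds n g hn8 hne (by omega) r hPM A (hA.1.trans (Y2_sub n))⟩
  · have hc := Y2_card n
    have hpos : 0 < (mapGraph (vt0 n)).support.ncard :=
      (Set.ncard_pos (Set.toFinite _)).mpr hs1
    have hF := family_card n (by omega)
    set F := ({A | A ⊆ Y2 n ∧ HexFree (mapGraph (vt0 n)) A} : Set (Set (Lab (2 * n))))
    set y := (2 * n * n - 20 * n) / 3 with hy
    obtain ⟨d, hd⟩ : ∃ d, (Y2 n).ncard = y + d := ⟨(Y2 n).ncard - y, by omega⟩
    rw [hd] at hF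
    have h1 : k * (mapGraph (vt0 n)).support.ncard ^ S.ncard ≤ k * (4 * n * n) ^ (24 * n) := by
      apply Nat.mul_le_mul_left
      calc (mapGraph (vt0 n)).support.ncard ^ S.ncard
          ≤ (mapGraph (vt0 n)).support.ncard ^ (24 * n) := Nat.pow_le_pow_right hpos hS1
        _ ≤ (4 * n * n) ^ (24 * n) := Nat.pow_le_pow_left hs2 _
    have h2 : k * (4 * n * n) ^ (24 * n) * 4 ^ (y + d) ≤ F.ncard * 4 ^ (y + d) := by
      calc k * (4 * n * n) ^ (24 * n) * 4 ^ (y + d)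
          = (k * (4 * n * n) ^ (24 * n) * 4 ^ y) * 4 ^ d := by rw [pow_add]; ring
        _ ≤ 7 ^ y * 4 ^ d := Nat.mul_le_mul_right _ hk
        _ ≤ 7 ^ y * 7 ^ d := Nat.mul_le_mul_left _ (Nat.pow_le_pow_left (by norm_num) _)
        _ = 7 ^ (y + d) := by rw [pow_add]
        _ ≤ 4 ^ (y + d) * F.ncard := hF
        _ = F.ncard * 4 ^ (y + d) := by ring
    have h3 := Nat.le_of_mul_le_mul_right h2 (by positivity)
    exact h1.trans h3

theorem fp_main2 (c : ℝ) (hc : c < 8 / 3 * Real.logb 2 (7 / 4)) : ∃ g₀ : ℕ, ∀ g : ℕ, g₀ ≤ g →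
    ∃ k : ℕ, (2 : ℝ) ^ (c * (g : ℝ) ^ 2) ≤ k ∧ (k : ℕ∞) ≤ N g := by
  obtain ⟨g₀, h3, h⟩ := fp_analysis2 c hc
  refine ⟨g₀, fun g hg => ?_⟩
  obtain ⟨k, hk1, hk2⟩ := h g hg
  exact ⟨k, hk1, fp_count2 g k (by omega) hk2⟩

end Pool.Agent.Helper226_Obs
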