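import Pool.Agent.Helper226_Obs.FP.Lab

set_option autoImplicit false

/-!
The host: the arrangement of `2 * n` pseudolines in the projective plane with crossing triangles
`x + y + z = -1` and `x + y + z = 0` modulo `2 * n`.
-/

namespace Pool.Agent.Helper226_Obs

open SimpleGraph

/-- The edges: pairs `a < b` of lines. -/
abbrev Ed (n : ℕ) : Type := {e : Fin (2 * n) × Fin (2 * n) // e.1 < e.2}

/-- The smaller line of an edge. -/
def ea {n : ℕ} (e : Ed n) : ℕ := (e.1.1 : ℕ)

/-- The larger line of an edge. -/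
def eb {n : ℕ} (e : Ed n) : ℕ := (e.1.2 : ℕ)

/-- The representative of `-1 - l - m` (for `true`) or of `- l - m` (for `false`) modulo `2 * n`,
for `l`, `m` less than `2 * n`. -/
def gm (n l m : ℕ) (t : Bool) : ℕ :=
  if t then (if l + m < 2 * n then 2 * n - 1 - l - m else 4 * n - 1 - l - m)
  else (if l + m = 0 then 0 else if l + m ≤ 2 * n then 2 * n - l - m else 4 * n - l - m)

/-- Adding `n` modulo `2 * n`. -/
def hm (n m : ℕ) : ℕ := if m < n then m + n else m - n

/-- Subtracting `1` modulo `2 * n`. -/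
def pm (n m : ℕ) : ℕ := if m = 0 then 2 * n - 1 else m - 1

/-- The next crossing on the line `l`: the flag `(l, m, t)` on the line `l` at the crossing with
the line `m` is matched with the flag `(l, m', t')`. -/
def r1 (n l m : ℕ) (t : Bool) : ℕ × Bool :=
  if gm n l m t = l then
    (if gm n l l (!t) = l then (hm n l, !t) else (gm n l l (!t), !t))
  else if gm n l m t = m then
    (if hm n m = l then (gm n l l (!t), !t) else (hm n m, t))
  else (gm n l m t, t)

/-- The label with the single element `x`. -/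
def sgn (n x : ℕ) : Lab (2 * n) := sg (x : ZMod (2 * n))

/-- The label change at the line `x`. -/
def dln (n x : ℕ) : Lab (2 * n) := sgn n x + sgn n (pm n x)

/-- The label of the vertex at the flag `(l, m, t)`. -/
def vlab (n l m : ℕ) (t : Bool) : Lab (2 * n) :=
  if t then sgn n l + sgn n m + sgn n (gm n l m true)
  else sgn n (pm n l) + sgn n (pm n m) + sgn n (gm n l m true)

/-- The ends of the edges. -/
def vt0 (n : ℕ) (d : Ed n × Bool) : Lab (2 * n) := vlab n (ea d.1) (eb d.1) d.2

/-- The faces at the edges. -/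
def fc0 (n : ℕ) (d : Ed n × Bool) : Lab (2 * n) :=
  if d.2 then sgn n (pm n (ea d.1)) + sgn n (eb d.1) + sgn n (gm n (ea d.1) (eb d.1) true)
  else sgn n (ea d.1) + sgn n (pm n (eb d.1)) + sgn n (gm n (ea d.1) (eb d.1) true)

/-- The line of a flag. -/
def fln {n : ℕ} (x : Ed n × Bool × Bool) : ℕ := if x.2.1 = x.2.2 then ea x.1 else eb x.1

/-- The other line of a flag. -/
def flo {n : ℕ} (x : Ed n × Bool × Bool) : ℕ := if x.2.1 = x.2.2 then eb x.1 else ea x.1

/-- `0`, `1`, `2` for `x < 2 n`, `2 n ≤ x < 4 n`, `4 n ≤ x`. -/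
def fl (n x : ℕ) : ℕ := if x < 2 * n then 0 else if x < 4 * n then 1 else 2

/-- The flag `(l, m, t)` is the one of the two flags of the line `l` at the crossing with `m` which
looks in the forward direction. -/
def fwd (n l m : ℕ) (t : Bool) : Prop := fl n (l + 2 * m) = 1 ↔ t = true

/-- The flag `(l, m, t)` lies on the segment of the line `l` which crosses the line at infinity. -/
def infl (n l m : ℕ) (t : Bool) : Prop :=
  gm n l m t = m ∨ (gm n l m t = l ∧ gm n l l (!t) = l)

/-- The basic colouring of the flags. -/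
def k0 (n l m : ℕ) : ZMod 2 :=
  (if l < m then 1 else 0) + (fl n (l + 2 * m) : ZMod 2) + (fl n (2 * l + m) : ZMod 2)

/-- The height increments. -/
def dd (n b x : ℕ) : ℤ :=
  (n : ℤ) - min |2 * (x : ℤ) - b| (4 * n - |2 * (x : ℤ) - b|)

/-- The partial sums of the height increments. -/
def psi (n b x : ℕ) : ℤ := ∑ y ∈ Finset.range x, dd n b y

/-- The height of the crossing of the lines `l` and `m`. -/
def hgt (n b l m : ℕ) : ℤ :=
  2 * psi n b l + 2 * psi n b m + psi n b (gm n l m true) + psi n b (gm n l m true + 1)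

/-- The colouring of the edges for the direction `b` and the level `h0`. -/
def thn (n b : ℕ) (h0 : ℤ) (e : Ed n) : ZMod 2 :=
  1 + (fl n (ea e + 2 * eb e) : ZMod 2) + (fl n (2 * ea e + eb e) : ZMod 2) +
    (if h0 ≤ hgt n b (ea e) (eb e) then 1 else 0)

/-- The labels of the second kind of triangles. -/
def T0set (n : ℕ) : Set (Lab (2 * n)) :=
  {T | ∃ a b c : ℕ, a < b ∧ b < c ∧ c < 2 * n ∧ (a + b + c = 2 * n ∨ a + b + c = 4 * n) ∧
    T = sgn n (pm n a) + sgn n (pm n b) + sgn n (pm n c)}

/-- The triangles at which replacements are made. -/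
def Yset (n : ℕ) : Set (Lab (2 * n)) :=
  {T | ∃ a b c j : ℕ, 3 ≤ a ∧ 1 ≤ j ∧ b = a + 3 * j ∧ b + 3 ≤ c ∧ a + b + c = 2 * n ∧
    T = sgn n (a - 1) + sgn n (b - 1) + sgn n (c - 1)}

open Classical in
/-- The ends of the edges after flipping the triangles of `A`. -/
noncomputable def vtA (n : ℕ) (A : Set (Lab (2 * n))) (d : Ed n × Bool) : Lab (2 * n) :=
  if vt0 n (d.1, false) ∈ A then fc0 n d + dln n (gm n (ea d.1) (eb d.1) false) else vt0 n d

open Classical in
/-- The faces after flipping the triangles of `A`. -/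
noncomputable def fcA (n : ℕ) (A : Set (Lab (2 * n))) (d : Ed n × Bool) : Lab (2 * n) :=
  if vt0 n (d.1, false) ∈ A then vt0 n d + dln n (gm n (ea d.1) (eb d.1) false) else fc0 n d

end Pool.Agent.Helper226_Obs
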