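import Pool.Agent.Helper226_Obs.FP.Defs

set_option autoImplicit false

/-!
Labels, the mod 2 intersection form of a rotation system, bordered matrices.
-/

namespace Pool.Agent.Helper226_Obs

open SimpleGraph

/-- Labels: sets of residues modulo `M`, with symmetric difference as addition. -/
abbrev Lab (M : ℕ) : Type := ZMod M → ZMod 2

/-- The label with the single element `x`. -/
def sg {M : ℕ} (x : ZMod M) : Lab M := Pi.single x 1

/-- The change of the label when the line `x` is crossed. -/
def dl {M : ℕ} (x : ZMod M) : Lab M := sg x + sg (x - 1)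

/-- How often (mod 2) the face `f` is incident with the edge `e`. -/
def Jf {E F : Type} [DecidableEq F] (fc : E × Bool → F) (e : E) (f : F) : ZMod 2 :=
  (if fc (e, false) = f then 1 else 0) + (if fc (e, true) = f then 1 else 0)

/-- Every face is incident with an even number of the edges at a vertex. -/
def EvenAt {E V F : Type} [Fintype E] [DecidableEq V] [DecidableEq F] (vt : E × Bool → V)
    (fc : E × Bool → F) : Prop :=
  ∀ v f, ∑ d : E × Bool, (if vt d = v then Jf fc d.1 f else 0) = 0

/-- The functions on which the intersection form is symmetric. -/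
def WW {E : Type} (rot : Equiv.Perm (E × Bool)) (b : E × Bool → ZMod 2) : Prop :=
  ∀ e, b (e, false) + b (rot (e, false)) + b (e, true) + b (rot (e, true)) = 0

/-- The intersection form. -/
def omg {E : Type} [Fintype E] (rot : Equiv.Perm (E × Bool)) (b c : E × Bool → ZMod 2) : ZMod 2 :=
  ∑ e : E, (b (e, false) + b (rot (e, false))) * (c (e, false) + c (rot (e, true)))

/-- The map is connected. -/
def CC {E : Type} (rot : Equiv.Perm (E × Bool)) : Prop :=
  ∀ f : E × Bool → ZMod 2, (∀ d, f (rot d) = f d) → (∀ d, f (flp d) = f d) → ∀ d d', f d = f d'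

open Classical in
/-- `1` if the step from the label `f` to the label `f'` crosses the line `0`. -/
noncomputable def sl {M : ℕ} (f f' : Lab M) : ZMod 2 :=
  if ∃ j : ZMod M, j ≠ 0 ∧ f + f' = dl 0 + dl j then 1 else 0

/-- The matrix `A` bordered by the vector `ρ`, with corner `0`. -/
def bord {F : Type} (A : Matrix F F (ZMod 2)) (ρ : F → ZMod 2) :
    Matrix (Option F) (Option F) (ZMod 2)
  | none, none => 0
  | none, some f => ρ f
  | some f, none => ρ f
  | some f, some f' => A f f'

end Pool.Agent.Helper226_Obs
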